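/-
GR72/CodeDefs: the definitions of the official statement.
-/
import Mathlib

namespace Pool.Agent.GR72

open Module

/-- `C` is a binary linear `[n, k, d]` code: a `k`-dimensional subspace of `F_2 ^ n` whose minimum
Hamming weight over its nonzero vectors is exactly `d`. -/
def IsCode (n k d : ℕ) (C : Submodule (ZMod 2) (Fin n → ZMod 2)) : Prop :=
  finrank (ZMod 2) C = k ∧ (∀ c ∈ C, c ≠ 0 → d ≤ hammingNorm c) ∧
    ∃ c ∈ C, c ≠ 0 ∧ hammingNorm c = d

/-- `g(k,d) = ∑_{i<k} ⌈d / 2^i⌉`. -/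
def griesmer (k d : ℕ) : ℕ := ∑ i ∈ Finset.range k, d ⌈/⌉ 2 ^ i

/-- `N(k,d)`, the least length of a binary linear `[n, k, d]` code. -/
noncomputable def minLength (k d : ℕ) : ℕ :=
  sInf {n | ∃ C : Submodule (ZMod 2) (Fin n → ZMod 2), IsCode n k d C}

/-- The Griesmer bound is attained at `(k, d)`. -/
def Attained (k d : ℕ) : Prop := minLength k d = griesmer k d

/-- The exponents `u_1 > u_2 > ... > u_p ≥ 1` with `D = ∑ 2 ^ (u_i - 1)`, in decreasing order. -/
def exps (D : ℕ) : List ℕ := (D.bitIndices.map (· + 1)).reverse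

/-- The binary expansion of `D` has no three consecutive ones. -/
def NoThreeOnes (D : ℕ) : Prop :=
  ∀ i, ¬ (D.testBit i = true ∧ D.testBit (i + 1) = true ∧ D.testBit (i + 2) = true)

end Pool.Agent.GR72
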