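/-
GR72: binary linear codes meeting the Griesmer bound (MP_13345a_lc).

Dictionary used in the whole folder.  `W` is a finite vector space over the field with two
elements, of dimension `k`; functions `v : W → ℤ`; `ft v φ` is the Fourier transform
(`φ` a linear functional), `tot v` the sum of the values.  `Psd v`: all Fourier
coefficients are nonnegative.  `Gr v V`: `v` is `Psd`, its total is `V` and `v 0` is the number
of ones of `V` in base 2 (the least possible value, see L1).  Codes with `n = g(k,d)` correspond
to `Gr v (2 D)`, `D = s 2^(k-1) - d`, with `v x ≤ s` for all nonzero `x`; `v x = s - (number of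
columns equal to x)`.
-/
import Mathlib

namespace Pool.Agent.GR72

open Module

/-- The sign of an element of the field with two elements. -/
def sg (a : ZMod 2) : ℤ := if a = 0 then 1 else -1

/-- The number of ones in the binary expansion of `n`. -/
def ds (n : ℕ) : ℕ := n.bitIndices.length

section
variable {W : Type} [AddCommGroup W] [Module (ZMod 2) W]

/-- Fourier transform of an integer valued function on a binary vector space. -/
noncomputable def ft (v : W → ℤ) (φ : Dual (ZMod 2) W) : ℤ := ∑ᶠ x, sg (φ x) * v x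

/-- The sum of all values. -/
noncomputable def tot (v : W → ℤ) : ℤ := ∑ᶠ x, v x

/-- All Fourier coefficients are nonnegative. -/
def Psd (v : W → ℤ) : Prop := ∀ φ : Dual (ZMod 2) W, 0 ≤ ft v φ

/-- Functions meeting the Griesmer inequality `ds V ≤ v 0`. -/
structure Gr (v : W → ℤ) (V : ℕ) : Prop where
  psd : Psd v
  tot : tot v = V
  zero : v 0 = ds V

/-- Restriction to the kernel of a functional. -/
def res (v : W → ℤ) (ψ : Dual (ZMod 2) W) : LinearMap.ker ψ → ℤ := fun y => v y

/-- Push-forward along the quotient by `x` (realised on `ker ψ`, where `ψ x = 1`). -/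
def fold (v : W → ℤ) (ψ : Dual (ZMod 2) W) (x : W) : LinearMap.ker ψ → ℤ :=
  fun y => v y + v (y + x)

open Classical in
/-- Indicator function of a subspace. -/
noncomputable def ind (P : Submodule (ZMod 2) W) : W → ℤ := fun x => if x ∈ P then 1 else 0

open Classical in
/-- Indicator function of a point. -/
noncomputable def dl (a : W) : W → ℤ := fun x => if x = a then 1 else 0

/-- Run splitting for the space `W` and last runs of length `q` (see SplitRun). -/
def RunAt (q : ℕ) (W : Type) [AddCommGroup W] [Module (ZMod 2) W] : Prop :=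
  ∀ (v : W → ℤ) (c t : ℕ), Gr v (2 ^ c * (2 ^ (q + 1) * t + (2 ^ q - 1))) →
    ∃ v2 : W → ℤ, v2 0 = q ∧
      ∀ φ : Dual (ZMod 2) W, ft v2 φ = ft v φ % 2 ^ (c + q + 1)

end

/-- Run splitting in dimension `k`. -/
def RunDim (q k : ℕ) : Prop :=
  ∀ (W : Type) [AddCommGroup W] [Module (ZMod 2) W] [Finite W],
    finrank (ZMod 2) W = k → RunAt q W

/-- The base inequality for runs of length `q` (proved for `q = 1, 2`). -/
def Base (q : ℕ) : Prop :=
  ∀ (W : Type) [AddCommGroup W] [Module (ZMod 2) W] [Finite W] (c : ℕ) (f : W → ℤ)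
    (φ : Dual (ZMod 2) W) (τ : ℤ), 1 ≤ c → finrank (ZMod 2) W = c + q + 2 →
    (∀ x, 0 ≤ f x) → f 0 = q → tot f = 2 ^ c * (2 ^ q - 1) → φ ≠ 0 → 1 ≤ τ →
    ft f φ = -(2 ^ c * τ) → (∀ ψ : Dual (ZMod 2) W, ψ ≠ φ → 0 ≤ ft f ψ) → False

end Pool.Agent.GR72
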