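/-
GR72/Digits: the number of ones `ds` (= length of `Nat.bitIndices`) and the Griesmer sum.
Needs only Defs and CodeDefs.  Mathlib has `Nat.bitIndices_two_mul`,
`Nat.bitIndices_two_mul_add_one`, `Nat.bitIndices_sorted` / `Nat.sum_map_two_pow_bitIndices`
(names may vary), `Nat.ceilDiv_eq_add_pred_div`.
* `ds_add_le`: strong induction on `a + b` with the parities of `a` and `b`.
* `ds_lt_self` by strong induction.
* `griesmer_eq`: put `f(k) = griesmer k d + s`, where `s 2^(k-1) = d + D`.  Induction on `k`,
  generalising over `s` and `D` (with `d` fixed): for `k + 1` instead of `k`: let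
  `D = 2^(k-1) b + D'` with `b ∈ {0,1}` the top bit (`D < 2^k`, `D' < 2^(k-1)`); then
  `(2 s - b) 2^(k-1) = d + D'`, `⌈d / 2^k⌉ = s`, `ds D = ds D' + b` (ds_two_pow_mul_add), so
  `griesmer (k+1) d = griesmer k d + s = 2 d + ds D' - (2 s - b) + s`.
-/
import Pool.Agent.GR72.Defs
import Pool.Agent.GR72.CodeDefs

namespace Pool.Agent.GR72

theorem ds_zero : ds 0 = 0 := by
  simp [ds]

theorem ds_one : ds 1 = 1 := by
  simp [ds]

theorem ds_two_mul (n : ℕ) : ds (2 * n) = ds n := by
  simp [ds]

theorem ds_two_mul_add_one (n : ℕ) : ds (2 * n + 1) = ds n + 1 := by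
  simp [ds]

theorem ds_two_pow_mul (c n : ℕ) : ds (2 ^ c * n) = ds n := by
  simp [ds]

theorem ds_two_pow (c : ℕ) : ds (2 ^ c) = 1 := by
  simp [ds]

theorem ds_two_pow_mul_add (c a b : ℕ) (hb : b < 2 ^ c) : ds (2 ^ c * a + b) = ds a + ds b := by
  induction c generalizing b with
  | zero =>
    have : b = 0 := by simpa using hb
    subst this
    simp [ds_zero]
  | succ c ih =>
    have hb' : b / 2 < 2 ^ c := by
      rw [pow_succ] at hb
      omega
    have h := ih (b / 2) hb'
    rcases Nat.even_or_odd' b with ⟨m, hm | hm⟩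
    · have e1 : b / 2 = m := by omega
      rw [e1] at h
      have e : 2 ^ (c + 1) * a + b = 2 * (2 ^ c * a + m) := by
        rw [hm, pow_succ]; ring
      rw [e, ds_two_mul, h, hm, ds_two_mul]
    · have e1 : b / 2 = m := by omega
      rw [e1] at h
      have e : 2 ^ (c + 1) * a + b = 2 * (2 ^ c * a + m) + 1 := by
        rw [hm, pow_succ]; ring
      rw [e, ds_two_mul_add_one, h, hm, ds_two_mul_add_one]
      ring

theorem ds_two_pow_sub_one (q : ℕ) : ds (2 ^ q - 1) = q := by
  induction q with
  | zero => simp [ds_zero]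
  | succ q ih =>
    have h1 : 1 ≤ 2 ^ q := Nat.one_le_two_pow
    have e : 2 ^ (q + 1) - 1 = 2 * (2 ^ q - 1) + 1 := by
      rw [pow_succ]; omega
    rw [e, ds_two_mul_add_one, ih]

theorem ds_add_le (a b : ℕ) : ds (a + b) ≤ ds a + ds b := by
  induction h : a + b using Nat.strong_induction_on generalizing a b with
  | _ n ih =>
    subst h
    rcases Nat.even_or_odd' a with ⟨x, hx | hx⟩ <;> rcases Nat.even_or_odd' b with ⟨y, hy | hy⟩
    · by_cases h0 : x + y = 0
      · have hx0 : x = 0 := by omega
        have hy0 : y = 0 := by omega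
        subst hx0; subst hy0; subst hx; subst hy
        simp [ds_zero]
      · have e : a + b = 2 * (x + y) := by omega
        have := ih (x + y) (by omega) x y rfl
        rw [e, ds_two_mul, hx, hy, ds_two_mul, ds_two_mul]
        exact this
    · have e : a + b = 2 * (x + y) + 1 := by omega
      have := ih (x + y) (by omega) x y rfl
      rw [e, ds_two_mul_add_one, hx, hy, ds_two_mul, ds_two_mul_add_one]
      omega
    · have e : a + b = 2 * (x + y) + 1 := by omega
      have := ih (x + y) (by omega) x y rfl
      rw [e, ds_two_mul_add_one, hx, hy, ds_two_mul, ds_two_mul_add_one]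
      omega
    · have e : a + b = 2 * (x + y + 1) := by omega
      have h1 := ih (x + y + 1) (by omega) (x + y) 1 rfl
      have h2 := ih (x + y) (by omega) x y rfl
      rw [ds_one] at h1
      rw [e, ds_two_mul, hx, hy, ds_two_mul_add_one, ds_two_mul_add_one]
      omega

theorem ds_le_self (n : ℕ) : ds n ≤ n := by
  induction n using Nat.strong_induction_on with
  | _ n ih =>
    rcases Nat.even_or_odd' n with ⟨x, hx | hx⟩
    · by_cases h0 : x = 0
      · subst h0
        subst hx
        simp [ds_zero]
      · have := ih x (by omega)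
        rw [hx, ds_two_mul]
        omega
    · have := ih x (by omega)
      rw [hx, ds_two_mul_add_one]
      omega

theorem ds_lt_self {n : ℕ} (hn : 2 ≤ n) : ds n < n := by
  rcases Nat.even_or_odd' n with ⟨x, hx | hx⟩
  · have := ds_le_self x
    rw [hx, ds_two_mul]
    omega
  · have := ds_le_self x
    rw [hx, ds_two_mul_add_one]
    omega

theorem ds_eq_zero_iff (n : ℕ) : ds n = 0 ↔ n = 0 := by
  constructor
  · intro h
    have h1 : n.bitIndices = [] := List.length_eq_zero_iff.1 h
    have h2 := Nat.sum_map_two_pow_bitIndices n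
    rw [h1] at h2
    simpa using h2.symm
  · rintro rfl
    exact ds_zero

theorem ds_eq_one {n : ℕ} (h : ds n = 1) : ∃ c, n = 2 ^ c := by
  obtain ⟨c, hc⟩ := List.length_eq_one_iff.1 h
  refine ⟨c, ?_⟩
  have h2 := Nat.sum_map_two_pow_bitIndices n
  rw [hc] at h2
  simpa using h2.symm

theorem griesmer_eq (k d s D : ℕ) (hk : 1 ≤ k) (h : s * 2 ^ (k - 1) = d + D)
    (hD : D < 2 ^ (k - 1)) : griesmer k d + s = 2 * d + ds D := by
  induction k, hk using Nat.le_induction generalizing s D with
  | base =>
    have hD0 : D = 0 := by simpa using hD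
    subst hD0
    have hs : s = d := by simpa using h
    subst hs
    rw [ds_zero, griesmer]
    simp [Nat.ceilDiv_eq_add_pred_div]
    ring
  | succ k hk ih =>
    have e1 : k + 1 - 1 = k := by omega
    rw [e1] at h hD
    obtain ⟨j, rfl⟩ : ∃ j, k = j + 1 := ⟨k - 1, by omega⟩
    have e2 : j + 1 - 1 = j := by omega
    rw [e2] at ih
    have hp : 0 < 2 ^ j := by positivity
    have hp1 : 2 ^ (j + 1) = 2 * 2 ^ j := by rw [pow_succ]; ring
    -- the last term
    have hlast : d ⌈/⌉ 2 ^ (j + 1) = s := by
      rw [Nat.ceilDiv_eq_add_pred_div]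
      rw [Nat.div_eq_iff (by positivity)]
      constructor
      · rw [h]; omega
      · rw [h]; omega
    have hstep : griesmer (j + 1 + 1) d = griesmer (j + 1) d + s := by
      rw [griesmer, Finset.sum_range_succ, hlast]
      rfl
    -- the top bit
    by_cases hb : D < 2 ^ j
    · have h1 := ih (2 * s) D (by rw [← h, hp1]; ring) hb
      rw [hstep]
      omega
    · have hs : 1 ≤ s := by
        by_contra hc
        have : s = 0 := by omega
        subst this
        omega
      have hD' : D - 2 ^ j < 2 ^ j := by omega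
      have h2 : (2 * s - 1) * 2 ^ j = d + (D - 2 ^ j) := by
        rw [Nat.sub_mul]
        have : 2 * s * 2 ^ j = d + D := by rw [← h, hp1]; ring
        rw [this]
        omega
      have h1 := ih (2 * s - 1) (D - 2 ^ j) h2 hD'
      have h3 : ds D = ds (D - 2 ^ j) + 1 := by
        have h4 := ds_two_pow_mul_add j 1 (D - 2 ^ j) hD'
        rw [mul_one, ds_one] at h4
        have h5 : 2 ^ j + (D - 2 ^ j) = D := by omega
        rw [h5] at h4
        omega
      rw [hstep]
      omega

end Pool.Agent.GR72
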