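/-
GR72/Arith: arithmetic of `V = 2^c (2^(q+1) t + (2^q - 1)) = 2^(c+q+1) t + 2^c (2^q - 1)`
(needs Digits: ds_two_pow_mul_add, ds_two_pow_mul, ds_two_pow_sub_one, ds_two_pow).
* `V_eq`: distribute.  `low_lt`: `2^q - 1 < 2^q`.  `V_mod`: V_eq and low_lt.
* `ds_V`: ds_two_pow_mul, then ds_two_pow_mul_add with exponent `q+1` (`2^q - 1 < 2^(q+1)`).
* `k_ge`: `2^(c+q+1) ≤ V < 2^k`, so `c+q+1 < k`.
* `high_ge`: `2^(k-1) = 2^(c+q+1) m`; if `t < m` then `V < 2^(c+q+1) (t+1) ≤ 2^(k-1)`.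
* `ds_high_top`: write `2^(c+q+1) t = 2^(k-1) + b`, `b < 2^(k-1)`; both `2^(k-1) + b` and
  `2^k + b` have `1 + ds b` ones (ds_two_pow_mul_add with exponents `k-1`, `k` and `a = 1`).
* `ds_high_top'`, `ds_low_top`: ds_two_pow_mul_add with exponent `k-1`, `a = 1`.
-/
import Pool.Agent.GR72.Digits

namespace Pool.Agent.GR72

theorem V_eq (q c t : ℕ) : 2 ^ c * (2 ^ (q + 1) * t + (2 ^ q - 1))
    = 2 ^ (c + q + 1) * t + 2 ^ c * (2 ^ q - 1) := by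
  generalize 2 ^ q - 1 = r
  ring

theorem low_lt (q c : ℕ) : 2 ^ c * (2 ^ q - 1) < 2 ^ (c + q) := by
  rw [pow_add]
  exact mul_lt_mul_of_pos_left (Nat.sub_lt (by positivity) one_pos) (by positivity)

theorem V_mod (q c t : ℕ) : (2 ^ c * (2 ^ (q + 1) * t + (2 ^ q - 1))) % 2 ^ (c + q + 1)
    = 2 ^ c * (2 ^ q - 1) := by
  rw [V_eq, Nat.mul_add_mod]
  exact Nat.mod_eq_of_lt ((low_lt q c).trans (Nat.pow_lt_pow_right one_lt_two (by omega)))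

/-- The same in the integers. -/
theorem V_mod_int (q c t : ℕ) :
    (((2 ^ c * (2 ^ (q + 1) * t + (2 ^ q - 1)) : ℕ) : ℤ)) % 2 ^ (c + q + 1)
      = ((2 ^ c * (2 ^ q - 1) : ℕ) : ℤ) := by
  have h := congrArg (Nat.cast : ℕ → ℤ) (V_mod q c t)
  rw [Int.natCast_mod] at h
  rw [← h]
  congr 1

theorem low_cast (q c : ℕ) : ((2 ^ c * (2 ^ q - 1) : ℕ) : ℤ) = 2 ^ c * (2 ^ q - 1) := by
  rw [Nat.cast_mul, Nat.cast_sub Nat.one_le_two_pow]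
  push_cast
  ring

theorem ds_V (q c t : ℕ) : ds (2 ^ c * (2 ^ (q + 1) * t + (2 ^ q - 1))) = ds t + q := by
  have h1 : 2 ^ (q + 1) = 2 ^ q * 2 := pow_succ 2 q
  have h2 : 0 < 2 ^ q := by positivity
  rw [ds_two_pow_mul, ds_two_pow_mul_add _ _ _ (by omega), ds_two_pow_sub_one]

theorem ds_low (q c : ℕ) : ds (2 ^ c * (2 ^ q - 1)) = q := by
  rw [ds_two_pow_mul, ds_two_pow_sub_one]

theorem ds_high (q c t : ℕ) : ds (2 ^ (c + q + 1) * t) = ds t := by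
  rw [ds_two_pow_mul]

theorem k_ge {q c t k : ℕ} (ht : 1 ≤ t)
    (h : 2 ^ c * (2 ^ (q + 1) * t + (2 ^ q - 1)) < 2 ^ k) : c + q + 2 ≤ k := by
  rw [V_eq] at h
  have h1 : 2 ^ (c + q + 1) * 1 ≤ 2 ^ (c + q + 1) * t := Nat.mul_le_mul_left _ ht
  have h2 : 2 ^ (c + q + 1) < 2 ^ k := by omega
  have h3 := (Nat.pow_lt_pow_iff_right one_lt_two).1 h2
  omega

theorem high_ge {q c t k : ℕ} (hk : c + q + 2 ≤ k)
    (h : 2 ^ (k - 1) ≤ 2 ^ c * (2 ^ (q + 1) * t + (2 ^ q - 1))) :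
    2 ^ (k - 1) ≤ 2 ^ (c + q + 1) * t := by
  obtain ⟨j, rfl⟩ : ∃ j, k = c + q + 2 + j := ⟨k - (c + q + 2), by omega⟩
  have h1 : 2 ^ (c + q + 2 + j - 1) = 2 ^ (c + q + 1) * 2 ^ j := by
    rw [← pow_add]
    congr 1
    omega
  rw [h1] at h ⊢
  rw [V_eq] at h
  by_contra hc
  rw [not_le] at hc
  have h2 : t < 2 ^ j := Nat.lt_of_mul_lt_mul_left hc
  have h3 : 2 ^ (c + q + 1) * (t + 1) ≤ 2 ^ (c + q + 1) * 2 ^ j := Nat.mul_le_mul_left _ h2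
  have h4 := low_lt q c
  have h5 : 2 ^ (c + q + 1) = 2 ^ (c + q) * 2 := pow_succ 2 _
  rw [mul_add, mul_one] at h3
  omega

theorem ds_high_top {q c t k : ℕ} (hk : c + q + 2 ≤ k) (h1 : 2 ^ (k - 1) ≤ 2 ^ (c + q + 1) * t)
    (h2 : 2 ^ (c + q + 1) * t < 2 ^ k) :
    ds (2 ^ (c + q + 1) * t + 2 ^ (k - 1)) = ds t := by
  obtain ⟨A, hA⟩ : ∃ A, A = 2 ^ (c + q + 1) * t := ⟨_, rfl⟩
  rw [← hA] at h1 h2 ⊢
  have h3 : 2 ^ k = 2 ^ (k - 1) * 2 := by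
    rw [← pow_succ]
    congr 1
    omega
  have h4 : A - 2 ^ (k - 1) < 2 ^ (k - 1) := by omega
  have h5 : A + 2 ^ (k - 1) = 2 ^ k * 1 + (A - 2 ^ (k - 1)) := by omega
  have h6 : A = 2 ^ (k - 1) * 1 + (A - 2 ^ (k - 1)) := by omega
  have h7 : ds A = ds 1 + ds (A - 2 ^ (k - 1)) := by
    conv_lhs => rw [h6]
    exact ds_two_pow_mul_add _ _ _ h4
  rw [h5, ds_two_pow_mul_add _ _ _ (by omega), ← h7, hA, ds_two_pow_mul]

theorem ds_high_top' {q c t k : ℕ} (h : 2 ^ (c + q + 1) * t < 2 ^ (k - 1)) :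
    ds (2 ^ (c + q + 1) * t + 2 ^ (k - 1)) = ds t + 1 := by
  have h1 : 2 ^ (c + q + 1) * t + 2 ^ (k - 1) = 2 ^ (k - 1) * 1 + 2 ^ (c + q + 1) * t := by
    omega
  rw [h1, ds_two_pow_mul_add _ _ _ h, ds_one, ds_two_pow_mul, add_comm]

theorem ds_low_top {q c k : ℕ} (hk : c + q + 2 ≤ k) :
    ds (2 ^ (k - 1) + 2 ^ c * (2 ^ q - 1)) = q + 1 := by
  have h1 : 2 ^ c * (2 ^ q - 1) < 2 ^ (k - 1) :=
    (low_lt q c).trans (Nat.pow_lt_pow_right one_lt_two (by omega))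
  have h2 : 2 ^ (k - 1) + 2 ^ c * (2 ^ q - 1) = 2 ^ (k - 1) * 1 + 2 ^ c * (2 ^ q - 1) := by
    rw [mul_one]
  rw [h2, ds_two_pow_mul_add _ _ _ h1, ds_one, ds_low, add_comm]

end Pool.Agent.GR72
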