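/-
GR72/CostDefs: costs of binary digits (complete).
-/
import Pool.Agent.GR72.Defs
import Pool.Agent.GR72.CodeDefs

namespace Pool.Agent.GR72

/-- Sum of the codimensions `k - j` over the ones `j` of `V`. -/
def cost (k V : ℕ) : ℕ := (V.bitIndices.map (fun j => k - j)).sum

/-- Sum of the codimensions `k - j` over the `m` highest ones `j` of `V`. -/
def topcost (k V m : ℕ) : ℕ := ((V.bitIndices.reverse.take m).map (fun j => k - j)).sum

/-- The correction: `1` if the two highest possible digits are ones. -/
def eps (k V : ℕ) : ℕ := if V.testBit (k - 1) = true ∧ V.testBit (k - 2) = true then 1 else 0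

end Pool.Agent.GR72
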