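/-
GR72/Deep2Defs: the condition on long runs, improved version (complete; `topRun`, `bonus` and
`LongRuns` are part of the official statement).
-/
import Pool.Agent.GR72.CodeDefs
import Pool.Agent.GR72.CostDefs

namespace Pool.Agent.GR72

/-- The number `q` of exponents in the initial run `k - 1, k - 2, ..., k - q` (zero if `k - 1` is not
an exponent of `D`). -/
def topRun (k D : ℕ) : ℕ := Nat.findGreatest (fun q => ∀ i < q, k - 1 - i ∈ exps D) (k - 1)

/-- The bonus `q - 1` for an initial run of length `q ≤ s + 1`. -/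
def bonus (k s D : ℕ) : ℕ := if topRun k D ≤ s + 1 then topRun k D - 1 else 0

/-- Every maximal run `u, u - 1, ..., u - q + 1` of `q ≥ 3` consecutive exponents that contains at
least two of the `s + 1` largest exponents is contained in them, and if `q ≥ 4` then
`u + q (q - 1) / 2 ≤ k`. -/
def LongRuns (k s D : ℕ) : Prop :=
  ∀ u q, 3 ≤ q → (∀ j < q, u - j ∈ exps D) → u + 1 ∉ exps D → u - q ∉ exps D →
    ((exps D).filter (u < ·)).length + 2 ≤ s + 1 →
      ((exps D).filter (u < ·)).length + q ≤ s + 1 ∧ (4 ≤ q → u + q * (q - 1) / 2 ≤ k)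

/-- The same in terms of the digits of `V` (here `V = 2 D`, `m = s + 1`). -/
def LongTop (k V m : ℕ) : Prop :=
  ∀ c q, 3 ≤ q → (∀ i < q, V.testBit (c + i) = true) → V.testBit (c + q) = false →
    (c = 0 ∨ V.testBit (c - 1) = false) → ds (V / 2 ^ (c + q)) + 2 ≤ m →
      ds (V / 2 ^ (c + q)) + q ≤ m ∧ (4 ≤ q → c + q - 1 + q * (q - 1) / 2 ≤ k)

/-- All runs of length at least four are deep. -/
def LongAll (k V : ℕ) : Prop :=
  ∀ c q, 3 ≤ q → (∀ i < q, V.testBit (c + i) = true) → V.testBit (c + q) = false →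
    (c = 0 ∨ V.testBit (c - 1) = false) → (4 ≤ q → c + q - 1 + q * (q - 1) / 2 ≤ k)

/-- The length of the initial run of ones of `V < 2^k`. -/
def tr (k V : ℕ) : ℕ := Nat.findGreatest (fun q => ∀ i < q, V.testBit (k - 1 - i) = true) k

end Pool.Agent.GR72
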