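/-
GR72/BadRuns: the runs that are not covered by the exact criterion (complete; `topRun`, `bonus`
(GR72/Deep2Defs), `badRuns`, `runErr` are part of the official statement).
-/
import Pool.Agent.GR72.Deep2Defs

namespace Pool.Agent.GR72

/-- The pairs `(u, q)` with `q ≥ 3` such that `u, u - 1, ..., u - q + 1` is a maximal run of
consecutive exponents of `D` which contains at least two of the `s + 1` largest exponents, and
which is not contained in them, or has `q ≥ 4` and `u + q (q - 1) / 2 > k`. -/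
def badRuns (k s D : ℕ) : Finset (ℕ × ℕ) :=
  (Finset.range k ×ˢ Finset.range k).filter (fun p =>
    3 ≤ p.2 ∧ (∀ j < p.2, p.1 - j ∈ exps D) ∧ p.1 + 1 ∉ exps D ∧ p.1 - p.2 ∉ exps D ∧
      ((exps D).filter (p.1 < ·)).length + 2 ≤ s + 1 ∧
      (s + 1 < ((exps D).filter (p.1 < ·)).length + p.2 ∨
        (4 ≤ p.2 ∧ k < p.1 + p.2 * (p.2 - 1) / 2)))

/-- The error term: `q (q + 1) / 2` for every pair of `badRuns`. -/
def runErr (k s D : ℕ) : ℕ := ∑ p ∈ badRuns k s D, p.2 * (p.2 + 1) / 2

end Pool.Agent.GR72
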