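/-
GR72/Basic: Fourier analysis on a finite binary vector space (needs only Defs).
All statements are standard.  Hints: `finsum_eq_sum_of_fintype` turns the finsums into sums over
`Finset.univ` after `have := Fintype.ofFinite W`.  Orthogonality: for `φ ≠ 0` choose `a` with
`φ a = 1` and shift the summation by `a`.  Inversion: interchange the sums.
-/
import Pool.Agent.GR72.Defs

namespace Pool.Agent.GR72

open Module

theorem sg_zero : sg 0 = 1 := by simp [sg]

theorem sg_one : sg 1 = -1 := by simp [sg]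

theorem zmod_cases (a : ZMod 2) : a = 0 ∨ a = 1 := by
  revert a; decide

theorem sg_add (a b : ZMod 2) : sg (a + b) = sg a * sg b := by
  revert a b; decide

theorem sg_mul_self (a : ZMod 2) : sg a * sg a = 1 := by
  revert a; decide

theorem sg_cases (a : ZMod 2) : sg a = 1 ∨ sg a = -1 := by
  revert a; decide

section
variable {W : Type} [AddCommGroup W] [Module (ZMod 2) W]

theorem add_self_eq (x : W) : x + x = 0 := by
  have : (2 : ZMod 2) • x = x + x := two_smul _ _
  rw [← this]
  have h2 : (2 : ZMod 2) = 0 := by decide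
  rw [h2, zero_smul]

theorem ft_eq_sum [Fintype W] (v : W → ℤ) (φ : Dual (ZMod 2) W) :
    ft v φ = ∑ x, sg (φ x) * v x := by
  rw [ft, finsum_eq_sum_of_fintype]

theorem tot_eq_sum [Fintype W] (v : W → ℤ) : tot v = ∑ x, v x := by
  rw [tot, finsum_eq_sum_of_fintype]

theorem ft_zero (v : W → ℤ) : ft v 0 = tot v := by
  simp [ft, tot, sg]

theorem exists_dual_one {x : W} (hx : x ≠ 0) : ∃ ψ : Dual (ZMod 2) W, ψ x = 1 := by
  by_contra hc
  push Not at hc
  refine hx ((Module.forall_dual_apply_eq_zero_iff (ZMod 2) x).1 fun φ => ?_)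
  rcases zmod_cases (φ x) with h | h
  · exact h
  · exact absurd h (hc φ)

theorem exists_one_of_ne_zero {φ : Dual (ZMod 2) W} (h : φ ≠ 0) : ∃ x, φ x = 1 := by
  by_contra hc
  apply h
  ext x
  rcases zmod_cases (φ x) with h0 | h1
  · simpa using h0
  · exact absurd ⟨x, h1⟩ hc

variable [Finite W]

theorem ft_add (u v : W → ℤ) (φ : Dual (ZMod 2) W) :
    ft (fun x => u x + v x) φ = ft u φ + ft v φ := by
  have := Fintype.ofFinite W
  simp only [ft_eq_sum, mul_add, Finset.sum_add_distrib]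

theorem ft_sub (u v : W → ℤ) (φ : Dual (ZMod 2) W) :
    ft (fun x => u x - v x) φ = ft u φ - ft v φ := by
  have := Fintype.ofFinite W
  simp only [ft_eq_sum, mul_sub, Finset.sum_sub_distrib]

theorem ft_mul (a : ℤ) (v : W → ℤ) (φ : Dual (ZMod 2) W) :
    ft (fun x => a * v x) φ = a * ft v φ := by
  have := Fintype.ofFinite W
  simp only [ft_eq_sum, Finset.mul_sum]
  exact Finset.sum_congr rfl fun x _ => by ring

theorem tot_add (u v : W → ℤ) : tot (fun x => u x + v x) = tot u + tot v := by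
  have := Fintype.ofFinite W
  simp only [tot_eq_sum, Finset.sum_add_distrib]

theorem tot_sub (u v : W → ℤ) : tot (fun x => u x - v x) = tot u - tot v := by
  have := Fintype.ofFinite W
  simp only [tot_eq_sum, Finset.sum_sub_distrib]

theorem tot_mul (a : ℤ) (v : W → ℤ) : tot (fun x => a * v x) = a * tot v := by
  have := Fintype.ofFinite W
  simp only [tot_eq_sum, Finset.mul_sum]

theorem two_dvd_ft_sub_tot (v : W → ℤ) (φ : Dual (ZMod 2) W) : (2 : ℤ) ∣ ft v φ - tot v := by
  have := Fintype.ofFinite W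
  rw [ft_eq_sum, tot_eq_sum, ← Finset.sum_sub_distrib]
  refine Finset.dvd_sum fun x _ => ?_
  rcases sg_cases (φ x) with h | h
  · rw [h]; simp
  · rw [h]; exact ⟨-v x, by ring⟩

instance finite_dual : Finite (Dual (ZMod 2) W) :=
  Finite.of_injective (fun φ : Dual (ZMod 2) W => (φ : W → ZMod 2)) DFunLike.coe_injective

theorem card_eq (W : Type) [AddCommGroup W] [Module (ZMod 2) W] [Finite W] :
    Nat.card W = 2 ^ finrank (ZMod 2) W := by
  rw [Module.natCard_eq_pow_finrank (K := ZMod 2) (V := W), Nat.card_zmod]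

theorem finrank_dual_eq (W : Type) [AddCommGroup W] [Module (ZMod 2) W] [Finite W] :
    finrank (ZMod 2) (Dual (ZMod 2) W) = finrank (ZMod 2) W :=
  Subspace.dual_finrank_eq

open Classical in
theorem sum_sg [Fintype W] (φ : Dual (ZMod 2) W) :
    ∑ x, sg (φ x) = if φ = 0 then 2 ^ finrank (ZMod 2) W else 0 := by
  split_ifs with h
  · subst h
    have h1 : ((Fintype.card W : ℕ) : ℤ) = 2 ^ finrank (ZMod 2) W := by
      rw [← Nat.card_eq_fintype_card, card_eq]
      push_cast
      rfl
    simp [sg_zero, h1]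
  · obtain ⟨a, ha⟩ := exists_one_of_ne_zero h
    have h1 : ∑ x, sg (φ (x + a)) = ∑ x, sg (φ x) :=
      Equiv.sum_comp (Equiv.addRight a) (fun x => sg (φ x))
    have h2 : ∑ x, sg (φ (x + a)) = - ∑ x, sg (φ x) := by
      rw [← Finset.sum_neg_distrib]
      refine Finset.sum_congr rfl fun x _ => ?_
      rw [map_add, sg_add, ha, sg_one]
      ring
    omega

open Classical in
theorem sum_dual_sg [Fintype (Dual (ZMod 2) W)] (z : W) :
    ∑ φ : Dual (ZMod 2) W, sg (φ z) = if z = 0 then 2 ^ finrank (ZMod 2) W else 0 := by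
  split_ifs with h
  · subst h
    have h1 : ((Fintype.card (Dual (ZMod 2) W) : ℕ) : ℤ) = 2 ^ finrank (ZMod 2) W := by
      rw [← Nat.card_eq_fintype_card, card_eq, finrank_dual_eq]
      push_cast
      rfl
    simp [sg_zero, h1]
  · obtain ⟨ψ, hψ⟩ := exists_dual_one h
    have h1 : ∑ φ : Dual (ZMod 2) W, sg ((φ + ψ) z) = ∑ φ : Dual (ZMod 2) W, sg (φ z) :=
      Equiv.sum_comp (Equiv.addRight ψ) (fun φ : Dual (ZMod 2) W => sg (φ z))
    have h2 : ∑ φ : Dual (ZMod 2) W, sg ((φ + ψ) z) = - ∑ φ : Dual (ZMod 2) W, sg (φ z) := by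
      rw [← Finset.sum_neg_distrib]
      refine Finset.sum_congr rfl fun φ _ => ?_
      rw [LinearMap.add_apply, sg_add, hψ, sg_one]
      ring
    omega

open Classical in
theorem ft_sg (ψ φ : Dual (ZMod 2) W) :
    ft (fun x : W => sg (ψ x)) φ = if φ = ψ then 2 ^ finrank (ZMod 2) W else 0 := by
  have := Fintype.ofFinite W
  rw [ft_eq_sum]
  have h1 : ∀ x : W, sg (φ x) * sg (ψ x) = sg ((φ + ψ) x) := fun x => by
    rw [LinearMap.add_apply, sg_add]
  simp only [h1]
  rw [sum_sg]
  have h2 : φ + ψ = 0 ↔ φ = ψ := by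
    constructor
    · intro h
      have h3 : φ + ψ = ψ + ψ := by rw [h, add_self_eq]
      exact add_right_cancel h3
    · rintro rfl
      exact add_self_eq _
  by_cases h : φ = ψ
  · rw [if_pos h, if_pos (h2.2 h)]
  · rw [if_neg h, if_neg (fun h0 => h (h2.1 h0))]

open Classical in
theorem ft_one (φ : Dual (ZMod 2) W) :
    ft (fun _ : W => (1 : ℤ)) φ = if φ = 0 then 2 ^ finrank (ZMod 2) W else 0 := by
  have := Fintype.ofFinite W
  rw [ft_eq_sum]
  simp only [mul_one]
  rw [sum_sg]
  by_cases h : φ = 0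
  · rw [if_pos h, if_pos h]
  · rw [if_neg h, if_neg h]

theorem tot_one : tot (fun _ : W => (1 : ℤ)) = 2 ^ finrank (ZMod 2) W := by
  rw [← ft_zero, ft_one]; simp

theorem ft_dl (a : W) (φ : Dual (ZMod 2) W) : ft (dl a) φ = sg (φ a) := by
  classical
  have := Fintype.ofFinite W
  rw [ft_eq_sum]
  simp [dl]

theorem tot_dl (a : W) : tot (dl a) = 1 := by
  rw [← ft_zero, ft_dl]; simp [sg]

open Classical in
theorem ft_ind (P : Submodule (ZMod 2) W) (φ : Dual (ZMod 2) W) :
    ft (ind P) φ = if (∀ x ∈ P, φ x = 0) then 2 ^ finrank (ZMod 2) P else 0 := by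
  have := Fintype.ofFinite W
  have := Fintype.ofFinite P
  rw [ft_eq_sum]
  have h1 : ∑ x, sg (φ x) * ind P x = ∑ y : P, sg ((φ.comp P.subtype) y) := by
    have h2 : ∀ x, sg (φ x) * ind P x = if x ∈ P then sg (φ x) else 0 := by
      intro x
      by_cases h : x ∈ P <;> simp [ind, h]
    simp only [h2]
    rw [← Finset.sum_filter]
    refine Finset.sum_bij' (fun x hx => (⟨x, (Finset.mem_filter.1 hx).2⟩ : P)) (fun y _ => y.1)
      (fun _ _ => Finset.mem_univ _)
      (fun y _ => Finset.mem_filter.2 ⟨Finset.mem_univ _, y.2⟩) (fun _ _ => rfl) (fun _ _ => rfl)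
      (fun _ _ => rfl)
  rw [h1, sum_sg]
  have h3 : φ.comp P.subtype = 0 ↔ ∀ x ∈ P, φ x = 0 := by
    constructor
    · intro h x hx
      exact LinearMap.congr_fun h (⟨x, hx⟩ : P)
    · intro h
      refine LinearMap.ext fun y => h y.1 y.2
  by_cases h : ∀ x ∈ P, φ x = 0
  · rw [if_pos h, if_pos (h3.2 h)]
  · rw [if_neg h, if_neg (fun h0 => h (h3.1 h0))]

theorem tot_ind (P : Submodule (ZMod 2) W) : tot (ind P) = 2 ^ finrank (ZMod 2) P := by
  rw [← ft_zero, ft_ind]; simp

theorem inversion (v : W → ℤ) (x : W) :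
    ∑ᶠ φ : Dual (ZMod 2) W, sg (φ x) * ft v φ = 2 ^ finrank (ZMod 2) W * v x := by
  classical
  have := Fintype.ofFinite W
  have := Fintype.ofFinite (Dual (ZMod 2) W)
  rw [finsum_eq_sum_of_fintype]
  simp only [ft_eq_sum, Finset.mul_sum]
  rw [Finset.sum_comm]
  have h1 : ∀ y, ∑ φ : Dual (ZMod 2) W, sg (φ x) * (sg (φ y) * v y) =
      if y = x then 2 ^ finrank (ZMod 2) W * v x else 0 := by
    intro y
    have h2 : ∀ φ : Dual (ZMod 2) W, sg (φ x) * (sg (φ y) * v y) = sg (φ (x + y)) * v y := by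
      intro φ
      rw [map_add, sg_add]
      ring
    simp only [h2]
    rw [← Finset.sum_mul, sum_dual_sg]
    have h3 : x + y = 0 ↔ y = x := by
      constructor
      · intro h
        have h4 : x + y = x + x := by rw [h, add_self_eq]
        exact add_left_cancel h4
      · rintro rfl
        exact add_self_eq _
    simp only [h3]
    split_ifs with h
    · rw [h]
    · simp
  simp only [h1, Finset.sum_ite_eq', Finset.mem_univ, if_true]

theorem inversion_zero (v : W → ℤ) :
    ∑ᶠ φ : Dual (ZMod 2) W, ft v φ = 2 ^ finrank (ZMod 2) W * v 0 := by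
  have := inversion v 0
  simpa [sg] using this

theorem ft_inj {u v : W → ℤ} (h : ∀ φ : Dual (ZMod 2) W, ft u φ = ft v φ) (x : W) :
    u x = v x := by
  have h1 := inversion u x
  have h2 := inversion v x
  simp only [h] at h1
  rw [h2] at h1
  have hp : (2 : ℤ) ^ finrank (ZMod 2) W ≠ 0 := by positivity
  exact (mul_left_cancel₀ hp h1).symm

/-- Fourier transform of the function `y ↦ ∑ ψ, sg (ψ y) F ψ`. -/
theorem dual_inversion (F : Dual (ZMod 2) W → ℤ) (φ : Dual (ZMod 2) W) :
    ft (fun y : W => ∑ᶠ ψ : Dual (ZMod 2) W, sg (ψ y) * F ψ) φ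
      = 2 ^ finrank (ZMod 2) W * F φ := by
  classical
  have := Fintype.ofFinite W
  have := Fintype.ofFinite (Dual (ZMod 2) W)
  rw [ft_eq_sum]
  simp only [finsum_eq_sum_of_fintype, Finset.mul_sum]
  rw [Finset.sum_comm]
  have h1 : ∀ ψ : Dual (ZMod 2) W, ∑ y : W, sg (φ y) * (sg (ψ y) * F ψ) =
      if ψ = φ then 2 ^ finrank (ZMod 2) W * F φ else 0 := by
    intro ψ
    have h2 := ft_sg ψ φ
    rw [ft_eq_sum] at h2
    have h3 : ∀ y : W, sg (φ y) * (sg (ψ y) * F ψ) = (sg (φ y) * sg (ψ y)) * F ψ := fun y => by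
      ring
    simp only [h3]
    rw [← Finset.sum_mul, h2]
    by_cases h : φ = ψ
    · subst h; simp
    · have h' : ¬ ψ = φ := fun h0 => h h0.symm
      simp [h, h']
  simp only [h1, Finset.sum_ite_eq', Finset.mem_univ, if_true]

theorem parseval_twist (f g : W → ℤ) (ψ : Dual (ZMod 2) W) :
    ∑ᶠ φ : Dual (ZMod 2) W, ft f φ * ft g (φ + ψ)
      = 2 ^ finrank (ZMod 2) W * ∑ᶠ x : W, sg (ψ x) * (f x * g x) := by
  classical
  have := Fintype.ofFinite W
  have := Fintype.ofFinite (Dual (ZMod 2) W)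
  simp only [finsum_eq_sum_of_fintype, ft_eq_sum, Finset.sum_mul_sum]
  rw [Finset.sum_comm, Finset.mul_sum]
  refine Finset.sum_congr rfl fun x _ => ?_
  rw [Finset.sum_comm]
  have h1 : ∀ y, ∑ φ : Dual (ZMod 2) W, sg (φ x) * f x * (sg ((φ + ψ) y) * g y) =
      if y = x then 2 ^ finrank (ZMod 2) W * (sg (ψ x) * (f x * g x)) else 0 := by
    intro y
    have h2 : ∀ φ : Dual (ZMod 2) W, sg (φ x) * f x * (sg ((φ + ψ) y) * g y) =
        sg (φ (x + y)) * (sg (ψ y) * (f x * g y)) := by
      intro φ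
      rw [map_add, sg_add, LinearMap.add_apply, sg_add]
      ring
    simp only [h2]
    rw [← Finset.sum_mul, sum_dual_sg]
    have h3 : x + y = 0 ↔ y = x := by
      constructor
      · intro h
        have h4 : x + y = x + x := by rw [h, add_self_eq]
        exact add_left_cancel h4
      · rintro rfl
        exact add_self_eq _
    simp only [h3]
    split_ifs with h
    · rw [h]
    · simp
  simp only [h1, Finset.sum_ite_eq', Finset.mem_univ, if_true]

end

end Pool.Agent.GR72
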