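/-
GR72/Hyp: restriction to a hyperplane `ker ψ` and push-forward (`fold`) (needs Basic).
* `sum_split`: for `ψ x = 1` the map `y ↦ y`, `y ↦ y + x` from `ker ψ` covers `W` exactly:
  `∑ z, g z = ∑ y : ker ψ, (g y + g (y + x))`.
* `two_mul_ft_res`: `ft v φ + ft v (φ + ψ) = ∑ v z sg (φ z) (1 + sg (ψ z))`, only `z ∈ ker ψ`
  contribute, each twice (`sg_add`).  It also holds for `ψ = 0`.
* `exists_ext`: `LinearMap.exists_extend`.  `exists_ext_zero`: add `ψ` if necessary.
* `ft_fold`: `sum_split` for `g z = sg (φ z) v z` with `φ (y + x) = φ y`.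
-/
import Pool.Agent.GR72.Basic

namespace Pool.Agent.GR72

open Module

variable {W : Type} [AddCommGroup W] [Module (ZMod 2) W] [Finite W]

theorem finrank_ker {ψ : Dual (ZMod 2) W} (hψ : ψ ≠ 0) :
    finrank (ZMod 2) (LinearMap.ker ψ) + 1 = finrank (ZMod 2) W := by
  have h1 := LinearMap.finrank_range_add_finrank_ker ψ
  have h2 : LinearMap.range ψ = ⊤ := LinearMap.range_eq_top.2 (LinearMap.surjective hψ)
  have h3 : finrank (ZMod 2) (LinearMap.range ψ) = 1 := by
    rw [h2, finrank_top, finrank_self]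
  omega

theorem exists_ext (ψ : Dual (ZMod 2) W) (φ' : Dual (ZMod 2) (LinearMap.ker ψ)) :
    ∃ φ : Dual (ZMod 2) W, φ.domRestrict (LinearMap.ker ψ) = φ' := by
  obtain ⟨g, hg⟩ := LinearMap.exists_extend φ'
  exact ⟨g, hg⟩

theorem exists_ext_zero {ψ : Dual (ZMod 2) W} {x : W} (hx : ψ x = 1)
    (φ' : Dual (ZMod 2) (LinearMap.ker ψ)) :
    ∃ φ : Dual (ZMod 2) W, φ.domRestrict (LinearMap.ker ψ) = φ' ∧ φ x = 0 := by
  obtain ⟨φ, hφ⟩ := exists_ext ψ φ'
  rcases zmod_cases (φ x) with h | h
  · exact ⟨φ, hφ, h⟩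
  · refine ⟨φ + ψ, ?_, ?_⟩
    · rw [← hφ]
      ext y
      have hy : ψ (y : W) = 0 := LinearMap.mem_ker.1 y.2
      simp [LinearMap.domRestrict_apply, hy]
    · rw [LinearMap.add_apply, h, hx]
      decide

theorem domRestrict_eq_iff (ψ φ φ' : Dual (ZMod 2) W) :
    φ.domRestrict (LinearMap.ker ψ) = φ'.domRestrict (LinearMap.ker ψ) ↔
      φ = φ' ∨ φ = φ' + ψ := by
  constructor
  · intro h
    have hk : ∀ y, ψ y = 0 → φ y = φ' y := by
      intro y hy
      have := congrArg (fun f : Dual (ZMod 2) (LinearMap.ker ψ) => f ⟨y, LinearMap.mem_ker.2 hy⟩) h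
      simpa [LinearMap.domRestrict_apply] using this
    by_cases hψ : ψ = 0
    · left
      ext y
      exact hk y (by simp [hψ])
    · obtain ⟨a, ha⟩ := exists_one_of_ne_zero hψ
      have key : ∀ z, φ z - φ' z = ψ z * (φ a - φ' a) := by
        intro z
        rcases zmod_cases (ψ z) with hz | hz
        · rw [hk z hz, hz]; ring
        · have h0 : ψ (z + a) = 0 := by
            rw [map_add, hz, ha]; decide
          have h1 := hk _ h0
          rw [map_add, map_add] at h1
          rw [hz, one_mul]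
          generalize φ z = p at *
          generalize φ a = q at *
          generalize φ' z = r at *
          generalize φ' a = s at *
          revert p q r s
          decide
      rcases zmod_cases (φ a - φ' a) with h0 | h1
      · left
        ext z
        have := key z
        rw [h0, mul_zero] at this
        exact sub_eq_zero.1 this
      · right
        ext z
        have := key z
        rw [h1, mul_one] at this
        rw [LinearMap.add_apply, ← this]
        ring
  · rintro (h | h)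
    · rw [h]
    · rw [h]
      ext y
      have hy : ψ (y : W) = 0 := LinearMap.mem_ker.1 y.2
      simp [LinearMap.domRestrict_apply, hy]

theorem sum_split {ψ : Dual (ZMod 2) W} {x : W} (hx : ψ x = 1) (g : W → ℤ) :
    ∑ᶠ z, g z = ∑ᶠ y : LinearMap.ker ψ, (g y + g ((y : W) + x)) := by
  classical
  haveI := Fintype.ofFinite W
  haveI : Fintype (LinearMap.ker ψ) := Fintype.ofFinite _
  rw [finsum_eq_sum_of_fintype, finsum_eq_sum_of_fintype, Finset.sum_add_distrib]
  have h1 : ∑ y : LinearMap.ker ψ, g y = ∑ z with ψ z = 0, g z := by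
    refine Finset.sum_bij' (fun y _ => (y : W)) (fun z hz => ⟨z, LinearMap.mem_ker.2
      (Finset.mem_filter.1 hz).2⟩) ?_ ?_ ?_ ?_ ?_
    · intro y _
      exact Finset.mem_filter.2 ⟨Finset.mem_univ _, LinearMap.mem_ker.1 y.2⟩
    · intro z _
      exact Finset.mem_univ _
    · intro y _
      rfl
    · intro z _
      rfl
    · intro y _
      rfl
  have h2 : ∑ y : LinearMap.ker ψ, g ((y : W) + x) = ∑ z with ¬ ψ z = 0, g z := by
    have hm : ∀ z : W, ¬ ψ z = 0 → ψ (z + x) = 0 := by
      intro z hz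
      rcases zmod_cases (ψ z) with h | h
      · exact absurd h hz
      · rw [map_add, h, hx]; decide
    refine Finset.sum_bij' (fun y _ => (y : W) + x) (fun z hz => ⟨z + x, LinearMap.mem_ker.2
      (hm z (Finset.mem_filter.1 hz).2)⟩) ?_ ?_ ?_ ?_ ?_
    · intro y _
      refine Finset.mem_filter.2 ⟨Finset.mem_univ _, ?_⟩
      rw [map_add, LinearMap.mem_ker.1 y.2, hx]
      decide
    · intro z _
      exact Finset.mem_univ _
    · intro y _
      apply Subtype.ext
      show (y : W) + x + x = y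
      rw [add_assoc, add_self_eq, add_zero]
    · intro z _
      show z + x + x = z
      rw [add_assoc, add_self_eq, add_zero]
    · intro y _
      rfl
  rw [h1, h2]
  exact (Finset.sum_filter_add_sum_filter_not _ _ _).symm

theorem two_mul_ft_res (v : W → ℤ) (φ ψ : Dual (ZMod 2) W) :
    2 * ft (res v ψ) (φ.domRestrict (LinearMap.ker ψ)) = ft v φ + ft v (φ + ψ) := by
  by_cases hψ : ψ = 0
  · subst hψ
    rw [add_zero]
    have : ft (res v (0 : Dual (ZMod 2) W)) (φ.domRestrict (LinearMap.ker 0)) = ft v φ := by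
      haveI := Fintype.ofFinite W
      haveI : Fintype (LinearMap.ker (0 : Dual (ZMod 2) W)) := Fintype.ofFinite _
      rw [ft_eq_sum, ft_eq_sum]
      refine Finset.sum_bij' (fun y _ => (y : W)) (fun z _ => ⟨z, by simp⟩) ?_ ?_ ?_ ?_ ?_
      · intro y _
        exact Finset.mem_univ _
      · intro z _
        exact Finset.mem_univ _
      · intro y _
        rfl
      · intro z _
        rfl
      · intro y _
        rfl
    rw [this]
    ring
  · obtain ⟨x, hx⟩ := exists_one_of_ne_zero hψ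
    have e1 : ft v φ = ∑ᶠ z, sg (φ z) * v z := rfl
    have e2 : ft v (φ + ψ) = ∑ᶠ z, sg ((φ + ψ) z) * v z := rfl
    rw [e1, e2, sum_split hx (fun z => sg (φ z) * v z), sum_split hx (fun z => sg ((φ + ψ) z) * v z)]
    haveI : Fintype (LinearMap.ker ψ) := Fintype.ofFinite _
    rw [ft_eq_sum, finsum_eq_sum_of_fintype, finsum_eq_sum_of_fintype, ← Finset.sum_add_distrib,
      Finset.mul_sum]
    refine Finset.sum_congr rfl fun y _ => ?_
    have hy : ψ (y : W) = 0 := LinearMap.mem_ker.1 y.2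
    simp only [LinearMap.add_apply, map_add, hy, hx, sg_add, sg_zero, sg_one, res,
      LinearMap.domRestrict_apply, zero_add]
    ring

theorem two_mul_tot_res (v : W → ℤ) (ψ : Dual (ZMod 2) W) :
    2 * tot (res v ψ) = tot v + ft v ψ := by
  have h := two_mul_ft_res v 0 ψ
  rw [zero_add, ft_zero] at h
  rw [← h, ← ft_zero]
  congr 1

theorem psd_res {v : W → ℤ} (hv : Psd v) (ψ : Dual (ZMod 2) W) : Psd (res v ψ) := by
  intro φ'
  obtain ⟨φ, hφ⟩ := exists_ext ψ φ'
  have h := two_mul_ft_res v φ ψ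
  rw [hφ] at h
  have h1 := hv φ
  have h2 := hv (φ + ψ)
  linarith

theorem ft_fold (v : W → ℤ) {ψ : Dual (ZMod 2) W} {x : W} (hx : ψ x = 1)
    {φ : Dual (ZMod 2) W} (hφ : φ x = 0) :
    ft (fold v ψ x) (φ.domRestrict (LinearMap.ker ψ)) = ft v φ := by
  have e1 : ft v φ = ∑ᶠ z, sg (φ z) * v z := rfl
  rw [e1, sum_split hx (fun z => sg (φ z) * v z)]
  haveI : Fintype (LinearMap.ker ψ) := Fintype.ofFinite _
  rw [ft_eq_sum, finsum_eq_sum_of_fintype]
  refine Finset.sum_congr rfl fun y _ => ?_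
  simp only [fold, LinearMap.domRestrict_apply, map_add, hφ, add_zero]
  ring

theorem tot_fold (v : W → ℤ) {ψ : Dual (ZMod 2) W} {x : W} (hx : ψ x = 1) :
    tot (fold v ψ x) = tot v := by
  have h := ft_fold v hx (φ := 0) (by simp)
  rw [ft_zero] at h
  rw [← h, ← ft_zero]
  congr 1

theorem psd_fold {v : W → ℤ} (hv : Psd v) {ψ : Dual (ZMod 2) W} {x : W} (hx : ψ x = 1) :
    Psd (fold v ψ x) := by
  intro φ'
  obtain ⟨φ, hφ, h0⟩ := exists_ext_zero hx φ'
  rw [← hφ, ft_fold v hx h0]
  exact hv φ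

theorem fold_zero (v : W → ℤ) (ψ : Dual (ZMod 2) W) (x : W) : fold v ψ x 0 = v 0 + v x := by
  simp [fold]

theorem res_zero (v : W → ℤ) (ψ : Dual (ZMod 2) W) : res v ψ 0 = v 0 := by
  simp [res]

end Pool.Agent.GR72
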