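/-
GR72/Psd: elementary properties of functions with nonnegative Fourier transform
(needs Basic).
* `psd_abs_le`: by inversion at `x` and at `0` (`inversion`, `inversion_zero`):
  `2^k (v 0 - v x) = ∑ (1 - sg (φ x)) ft v φ ≥ 0` and the same with `+`.
* `psd_supp`: if `v x = v 0` the sum `∑ (1 - sg (φ x)) ft v φ` is zero and all terms are `≥ 0`.
* `psd_period`: by `psd_supp` and inversion: `ft v φ ≠ 0` implies `φ x = 0`, hence
  `sg (φ (y+x)) ft v φ = sg (φ y) ft v φ`.
* `psd_eq_zero`: `|v x| ≤ v 0 = 0`.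
* `perSub`: `{x | v x = v 0}` is a subspace (closed under addition by `psd_period`; the field has
  two elements).
* `tot_le`: `tot v = ft v 0 ≤ ∑ ft v φ = 2^k v 0`.
* `sum_sub`: Parseval (parseval_twist with `ψ = 0`) for `ind T` and `v`:
  `2^k ∑ ind T x * v x = ∑ ft (ind T) φ * ft v φ ≥ 2^(finrank T) * tot v` (term `φ = 0`, all other
  terms are nonnegative).
-/
import Pool.Agent.GR72.Basic

namespace Pool.Agent.GR72

open Module

variable {W : Type} [AddCommGroup W] [Module (ZMod 2) W] [Finite W]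

theorem psd_minus [Fintype (Dual (ZMod 2) W)] (v : W → ℤ) (x : W) :
    ∑ φ : Dual (ZMod 2) W, (1 - sg (φ x)) * ft v φ =
      2 ^ finrank (ZMod 2) W * (v 0 - v x) := by
  have h1 := inversion v x
  have h2 := inversion_zero v
  rw [finsum_eq_sum_of_fintype] at h1 h2
  rw [mul_sub, ← h1, ← h2, ← Finset.sum_sub_distrib]
  exact Finset.sum_congr rfl fun φ _ => by ring

theorem psd_plus [Fintype (Dual (ZMod 2) W)] (v : W → ℤ) (x : W) :
    ∑ φ : Dual (ZMod 2) W, (1 + sg (φ x)) * ft v φ =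
      2 ^ finrank (ZMod 2) W * (v 0 + v x) := by
  have h1 := inversion v x
  have h2 := inversion_zero v
  rw [finsum_eq_sum_of_fintype] at h1 h2
  rw [mul_add, ← h1, ← h2, ← Finset.sum_add_distrib]
  exact Finset.sum_congr rfl fun φ _ => by ring

theorem psd_minus_nonneg {v : W → ℤ} (hv : Psd v) (x : W) (φ : Dual (ZMod 2) W) :
    0 ≤ (1 - sg (φ x)) * ft v φ := by
  have h := hv φ
  rcases sg_cases (φ x) with h1 | h1 <;> rw [h1]
  · simp
  · linarith

theorem psd_plus_nonneg {v : W → ℤ} (hv : Psd v) (x : W) (φ : Dual (ZMod 2) W) :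
    0 ≤ (1 + sg (φ x)) * ft v φ := by
  have h := hv φ
  rcases sg_cases (φ x) with h1 | h1 <;> rw [h1]
  · linarith
  · simp

theorem psd_zero_nonneg {v : W → ℤ} (hv : Psd v) : 0 ≤ v 0 := by
  have := Fintype.ofFinite (Dual (ZMod 2) W)
  have h2 := inversion_zero v
  rw [finsum_eq_sum_of_fintype] at h2
  have h3 : 0 ≤ (2 : ℤ) ^ finrank (ZMod 2) W * v 0 := by
    rw [← h2]
    exact Finset.sum_nonneg fun φ _ => hv φ
  exact (mul_nonneg_iff_of_pos_left (by positivity)).1 h3

theorem psd_abs_le {v : W → ℤ} (hv : Psd v) (x : W) : |v x| ≤ v 0 := by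
  have := Fintype.ofFinite (Dual (ZMod 2) W)
  have hK : (0 : ℤ) < 2 ^ finrank (ZMod 2) W := by positivity
  have h1 : 0 ≤ (2 : ℤ) ^ finrank (ZMod 2) W * (v 0 - v x) := by
    rw [← psd_minus]
    exact Finset.sum_nonneg fun φ _ => psd_minus_nonneg hv x φ
  have h2 : 0 ≤ (2 : ℤ) ^ finrank (ZMod 2) W * (v 0 + v x) := by
    rw [← psd_plus]
    exact Finset.sum_nonneg fun φ _ => psd_plus_nonneg hv x φ
  have h3 := (mul_nonneg_iff_of_pos_left hK).1 h1
  have h4 := (mul_nonneg_iff_of_pos_left hK).1 h2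
  rw [abs_le]
  constructor <;> linarith

theorem psd_supp {v : W → ℤ} (hv : Psd v) {x : W} (hx : v x = v 0) {φ : Dual (ZMod 2) W}
    (hφ : φ x = 1) : ft v φ = 0 := by
  have := Fintype.ofFinite (Dual (ZMod 2) W)
  have h1 := psd_minus v x
  rw [hx, sub_self, mul_zero] at h1
  have h2 := (Finset.sum_eq_zero_iff_of_nonneg fun φ _ => psd_minus_nonneg hv x φ).1 h1 φ
    (Finset.mem_univ _)
  rw [hφ, sg_one] at h2
  linarith

theorem psd_period {v : W → ℤ} (hv : Psd v) {x : W} (hx : v x = v 0) (y : W) :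
    v (y + x) = v y := by
  have h1 := inversion v (y + x)
  have h2 := inversion v y
  have h3 : ∀ φ : Dual (ZMod 2) W, sg (φ (y + x)) * ft v φ = sg (φ y) * ft v φ := by
    intro φ
    rcases zmod_cases (φ x) with h4 | h4
    · rw [map_add, h4, add_zero]
    · rw [psd_supp hv hx h4, mul_zero, mul_zero]
  rw [finsum_congr h3, h2] at h1
  exact (mul_left_cancel₀ (by positivity) h1).symm

theorem psd_eq_zero {v : W → ℤ} (hv : Psd v) (h0 : v 0 = 0) (x : W) : v x = 0 := by
  have h := psd_abs_le hv x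
  rw [h0] at h
  exact abs_eq_zero.1 (le_antisymm h (abs_nonneg _))

theorem perSub {v : W → ℤ} (hv : Psd v) :
    ∃ P : Submodule (ZMod 2) W, ∀ x, x ∈ P ↔ v x = v 0 := by
  refine ⟨{ carrier := {x | v x = v 0}, add_mem' := ?_, zero_mem' := rfl, smul_mem' := ?_ },
    fun x => Iff.rfl⟩
  · intro a b ha hb
    have h1 : v (a + b) = v a := psd_period hv hb a
    show v (a + b) = v 0
    rw [h1]
    exact ha
  · intro c x hx
    show v (c • x) = v 0
    rcases zmod_cases c with h | h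
    · rw [h, zero_smul]
    · rw [h, one_smul]
      exact hx

theorem tot_le {v : W → ℤ} (hv : Psd v) : tot v ≤ 2 ^ finrank (ZMod 2) W * v 0 := by
  have := Fintype.ofFinite (Dual (ZMod 2) W)
  have h2 := inversion_zero v
  rw [finsum_eq_sum_of_fintype] at h2
  rw [← h2, ← ft_zero]
  exact Finset.single_le_sum (f := fun φ => ft v φ) (fun φ _ => hv φ) (Finset.mem_univ _)

theorem psd_add {u v : W → ℤ} (hu : Psd u) (hv : Psd v) : Psd (fun x => u x + v x) := by
  intro φ
  rw [ft_add]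
  exact add_nonneg (hu φ) (hv φ)

theorem psd_ind (P : Submodule (ZMod 2) W) : Psd (ind P) := by
  classical
  intro φ
  rw [ft_ind]
  split_ifs
  · positivity
  · exact le_rfl

theorem sum_sub {v : W → ℤ} (hv : Psd v) (T : Submodule (ZMod 2) W) :
    2 ^ finrank (ZMod 2) T * tot v ≤ 2 ^ finrank (ZMod 2) W * ∑ᶠ x, ind T x * v x := by
  have := Fintype.ofFinite (Dual (ZMod 2) W)
  have h1 := parseval_twist (ind T) v 0
  simp only [add_zero, LinearMap.zero_apply, sg_zero, one_mul] at h1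
  rw [← h1, finsum_eq_sum_of_fintype]
  have h2 : 2 ^ finrank (ZMod 2) T * tot v = ft (ind T) 0 * ft v 0 := by
    rw [ft_zero, ft_zero, tot_ind]
  rw [h2]
  exact Finset.single_le_sum (f := fun φ => ft (ind T) φ * ft v φ)
    (fun φ _ => mul_nonneg (psd_ind T φ) (hv φ)) (Finset.mem_univ _)

end Pool.Agent.GR72
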