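/-
GR72/L1: the Griesmer inequality `ds V ≤ v 0` (needs Psd, Hyp, Digits).
* `ds_le`: induction on the dimension `k = finrank W` (for all `W`), inner strong induction on `V`.
  `k = 0`: `W = {0}`, `v 0 = tot v = V ≥ ds V` (ds_le_self).
  `V = 0`: psd_zero_nonneg.
  `V` odd: by `two_dvd_ft_sub_tot` all `ft v φ` are odd, hence `≥ 1`; so `v - dl 0` is Psd
     (`ft_dl`: its transform at `0` is `1` for all `φ`) with total `V - 1`, inner induction:
     `ds (V-1) ≤ v 0 - 1`, and `ds V = ds (V-1) + 1`.
  `V ≥ 2` even, some `ψ ≠ 0` with `ft v ψ = 0`: `res v ψ` on `ker ψ` (dimension `k-1`) is Psd with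
     total `V/2` (two_mul_tot_res), value `v 0` at `0`; `ds (V/2) = ds V`.
  `V ≥ 2` even, no such `ψ`: all `ft v φ` are even (parity) and nonzero, so `≥ 2` (also at `0`:
     `V ≥ 2`); `v - 2 dl 0` is Psd with total `V - 2`: `ds (V-2) ≤ v 0 - 2`, and
     `ds V ≤ ds (V-2) + 1` (ds_add_le, ds 2 = 1).
* `exists_zero`: suppose not.  If `V = 0` then `v 0 = 0`, by `inversion_zero` and nonnegativity all
  `ft v ψ = 0`; a nonzero `ψ` exists because `0 < finrank W`.  If `V ≥ 2`: the last case above
  gives `ds V + 1 ≤ v 0`, contradiction with `v 0 = ds V`.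
-/
import Pool.Agent.GR72.Psd
import Pool.Agent.GR72.Hyp
import Pool.Agent.GR72.Digits

namespace Pool.Agent.GR72

open Module

private theorem l1_ds_two : ds 2 = 1 := by
  have h := ds_two_mul 1
  rw [mul_one, ds_one] at h
  exact h

private theorem l1_step {W : Type} [AddCommGroup W] [Module (ZMod 2) W] [Finite W] {v : W → ℤ}
    (hv : Psd v) {V : ℕ} (hV : tot v = V) (he : Even V) (h2 : 2 ≤ V)
    (hno : ∀ ψ : Dual (ZMod 2) W, ψ ≠ 0 → ft v ψ ≠ 0)
    (IH : ∀ v' : W → ℤ, Psd v' → tot v' = ((V - 2 : ℕ) : ℤ) → (ds (V - 2) : ℤ) ≤ v' 0) :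
    (ds V : ℤ) + 1 ≤ v 0 := by
  obtain ⟨m, hm⟩ := he
  have hge : ∀ φ : Dual (ZMod 2) W, 2 ≤ ft v φ := by
    intro φ
    have h1 := hv φ
    have h3 := two_dvd_ft_sub_tot v φ
    have h4 : ft v φ ≠ 0 := by
      by_cases hφ : φ = 0
      · rw [hφ, ft_zero, hV]
        exact_mod_cast (by omega : V ≠ 0)
      · exact hno φ hφ
    rw [hV] at h3
    omega
  have hp : Psd (fun x => v x - 2 * dl 0 x) := by
    intro φ
    rw [ft_sub v (fun x => 2 * dl 0 x), ft_mul, ft_dl, map_zero, sg_zero]
    have := hge φ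
    linarith
  have ht : tot (fun x => v x - 2 * dl 0 x) = ((V - 2 : ℕ) : ℤ) := by
    rw [tot_sub v (fun x => 2 * dl 0 x), tot_mul, tot_dl, hV]
    omega
  have h5 := IH _ hp ht
  have h6 : dl (0 : W) 0 = 1 := by simp [dl]
  change (ds (V - 2) : ℤ) ≤ v 0 - 2 * dl 0 0 at h5
  rw [h6] at h5
  have h7 := ds_add_le (V - 2) 2
  rw [l1_ds_two, Nat.sub_add_cancel h2] at h7
  have h8 : (ds V : ℤ) ≤ ds (V - 2) + 1 := by exact_mod_cast h7
  linarith

private theorem l1_aux (k : ℕ) : ∀ (W : Type) [AddCommGroup W] [Module (ZMod 2) W] [Finite W],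
    finrank (ZMod 2) W = k → ∀ V : ℕ, ∀ v : W → ℤ, Psd v → tot v = V →
      (ds V : ℤ) ≤ v 0 := by
  induction k with
  | zero =>
    intro W _ _ _ hk V v hv hV
    have h1 := tot_le hv
    rw [hk, pow_zero, one_mul, hV] at h1
    have h2 : (ds V : ℤ) ≤ V := by exact_mod_cast ds_le_self V
    linarith
  | succ k ih =>
    intro W _ _ _ hk V
    induction V using Nat.strong_induction_on with
    | _ V ihV =>
      intro v hv hV
      rcases Nat.eq_zero_or_pos V with h0 | hpos
      · rw [h0, ds_zero]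
        exact_mod_cast psd_zero_nonneg hv
      · rcases Nat.even_or_odd' V with ⟨m, hm | hm⟩
        · by_cases hex : ∃ ψ : Dual (ZMod 2) W, ψ ≠ 0 ∧ ft v ψ = 0
          · obtain ⟨ψ, hψ, hz⟩ := hex
            have h1 := finrank_ker hψ
            have h2 : finrank (ZMod 2) (LinearMap.ker ψ) = k := by omega
            have h3 := two_mul_tot_res v ψ
            rw [hz, hV, add_zero, hm] at h3
            push_cast at h3
            have h4 : tot (res v ψ) = (m : ℤ) := by linarith
            have h5 := ih (LinearMap.ker ψ) h2 m (res v ψ) (psd_res hv ψ) h4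
            rw [res_zero] at h5
            rw [hm, ds_two_mul]
            exact h5
          · push Not at hex
            have h1 := l1_step hv hV ⟨m, by omega⟩ (by omega) hex
              (fun v' hv' ht' => ihV (V - 2) (by omega) v' hv' ht')
            linarith
        · have hp : Psd (fun x => v x - dl 0 x) := by
            intro φ
            rw [ft_sub v (dl 0), ft_dl, map_zero, sg_zero]
            have h1 := hv φ
            have h3 := two_dvd_ft_sub_tot v φ
            rw [hV, hm] at h3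
            push_cast at h3
            omega
          have ht : tot (fun x => v x - dl 0 x) = ((2 * m : ℕ) : ℤ) := by
            rw [tot_sub v (dl 0), tot_dl, hV, hm]
            push_cast
            ring
          have h5 := ihV (2 * m) (by omega) _ hp ht
          have h6 : dl (0 : W) 0 = 1 := by simp [dl]
          change (ds (2 * m) : ℤ) ≤ v 0 - dl 0 0 at h5
          rw [h6, ds_two_mul] at h5
          rw [hm, ds_two_mul_add_one]
          push_cast
          linarith

theorem ds_le {W : Type} [AddCommGroup W] [Module (ZMod 2) W] [Finite W] {v : W → ℤ}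
    (hv : Psd v) (V : ℕ) (hV : tot v = V) : (ds V : ℤ) ≤ v 0 :=
  l1_aux _ W rfl V v hv hV

theorem exists_zero {W : Type} [AddCommGroup W] [Module (ZMod 2) W] [Finite W] {v : W → ℤ}
    {V : ℕ} (h : Gr v V) (hV : Even V) (hk : 0 < finrank (ZMod 2) W) :
    ∃ ψ : Dual (ZMod 2) W, ψ ≠ 0 ∧ ft v ψ = 0 := by
  by_contra hex
  push Not at hex
  rcases Nat.eq_zero_or_pos V with h0 | hpos
  · have h1 : v 0 = 0 := by
      rw [h.zero, h0, ds_zero]
      rfl
    have h2 := psd_eq_zero h.psd h1
    have h3 : Nontrivial W := Module.nontrivial_of_finrank_pos hk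
    obtain ⟨x, hx⟩ := exists_ne (0 : W)
    obtain ⟨ψ, hψ⟩ := exists_dual_one hx
    have h4 : ψ ≠ 0 := by
      intro h5
      rw [h5, LinearMap.zero_apply] at hψ
      exact absurd hψ (by decide)
    apply hex ψ h4
    have h6 : v = fun _ => 0 := funext h2
    rw [h6]
    simp [ft]
  · obtain ⟨m, hm⟩ := hV
    have h1 := l1_step h.psd h.tot ⟨m, hm⟩ (by omega) hex
      (fun v' hv' ht' => ds_le hv' _ ht')
    rw [h.zero] at h1
    linarith

end Pool.Agent.GR72
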