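/-
GR72/Core: first properties of the class `Gr` (needs L1).
Names: `k = finrank W`.
* `gr_nonneg`: `x = 0` clear; `x ≠ 0`: `ψ x = 1` (exists_dual_one), `fold v ψ x` is Psd with the
  same total and value `v 0 + v x` at `0`; `ds_le` gives `ds V ≤ ds V + v x`.
* `gr_ft_le`: `V - ft v φ = ∑ (1 - sg (φ x)) v x ≥ 0`.
* `gr_fold`, `gr_res`: immediate from Hyp.
* `gr_sub_one`: if `2^k ≤ V` then `v - 1` is Psd (`ft_one`) with total `V - 2^k` and value
  `ds V - 1`; by `ds_le` `ds (V - 2^k) ≤ ds V - 1`, and by `ds_add_le` `ds V ≤ ds (V-2^k) + 1`.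
* `gr_lt`: suppose `2^(k+1) ≤ V`, `V = 2^k m + b`, `b < 2^k`, `m ≥ 2`.  `v - m` is Psd with total
  `b`: `ds b ≤ ds V - m`, `ds V = ds m + ds b` (ds_two_pow_mul_add), so `m ≤ ds m`, contradiction
  with `ds_lt_self`.
* `zeros_sep`: `φ ≠ 0`, `V < 2^k`.  If `v x ≠ 0` (so `≥ 1`) for all `x` with `φ x = 1` then
  `∑_{φ x = 1} v x ≥ 2^(k-1)`, but it is `(V - ft v φ)/2 ≤ V/2 < 2^(k-1)`.
  (E.g. apply gr arguments to the function `(1 - sg (φ x)) (v x - 1)`, whose sum is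
  `V - ft v φ - 2^k ≥ 0`, using `ft_one`.)
* `gr_single`: `V = 2^c`: `v 0 = 1`, `0 ≤ v x ≤ 1` (psd_abs_le, gr_nonneg); `P` from perSub,
  `v = ind P`; `tot_ind` gives `2^(finrank P) = 2^c`.
-/
import Pool.Agent.GR72.L1

namespace Pool.Agent.GR72

open Module

variable {W : Type} [AddCommGroup W] [Module (ZMod 2) W] [Finite W]

theorem gr_nonneg {v : W → ℤ} {V : ℕ} (h : Gr v V) (x : W) : 0 ≤ v x := by
  by_cases hx : x = 0
  · rw [hx, h.zero]
    positivity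
  · obtain ⟨ψ, hψ⟩ := exists_dual_one hx
    have h1 := ds_le (psd_fold h.psd hψ) V (by rw [tot_fold v hψ, h.tot])
    rw [fold_zero, h.zero] at h1
    linarith

theorem gr_ft_le {v : W → ℤ} {V : ℕ} (h : Gr v V) (φ : Dual (ZMod 2) W) : ft v φ ≤ V := by
  have := Fintype.ofFinite W
  rw [← h.tot, ft_eq_sum, tot_eq_sum]
  refine Finset.sum_le_sum fun x _ => ?_
  have h0 := gr_nonneg h x
  rcases sg_cases (φ x) with h1 | h1 <;> rw [h1] <;> linarith

theorem gr_fold {v : W → ℤ} {V : ℕ} (h : Gr v V) {ψ : Dual (ZMod 2) W} {x : W}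
    (hx : ψ x = 1) (h0 : v x = 0) : Gr (fold v ψ x) V := by
  exact ⟨psd_fold h.psd hx, by rw [tot_fold v hx, h.tot], by
    rw [fold_zero, h0, add_zero, h.zero]⟩

theorem gr_res {v : W → ℤ} {V : ℕ} (h : Gr v V) {ψ : Dual (ZMod 2) W} (V' : ℕ)
    (hV : (V : ℤ) + ft v ψ = 2 * V') (hds : ds V' = ds V) : Gr (res v ψ) V' := by
  refine ⟨psd_res h.psd ψ, ?_, by rw [res_zero, h.zero, hds]⟩
  have h1 := two_mul_tot_res v ψ
  rw [h.tot] at h1
  linarith

theorem gr_sub_one {v : W → ℤ} {V : ℕ} (h : Gr v V) (hV : 2 ^ finrank (ZMod 2) W ≤ V) :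
    Gr (fun x => v x - 1) (V - 2 ^ finrank (ZMod 2) W) ∧
      ds (V - 2 ^ finrank (ZMod 2) W) + 1 = ds V := by
  have hV' : (2 : ℤ) ^ finrank (ZMod 2) W ≤ V := by exact_mod_cast hV
  have hp : Psd (fun x => v x - 1) := by
    intro φ
    rw [ft_sub v (fun _ => 1) φ, ft_one]
    by_cases h0 : φ = 0
    · rw [if_pos h0, h0, ft_zero, h.tot]
      linarith
    · rw [if_neg h0, sub_zero]
      exact h.psd φ
  have ht : tot (fun x => v x - 1) = ((V - 2 ^ finrank (ZMod 2) W : ℕ) : ℤ) := by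
    rw [tot_sub v (fun _ => 1), tot_one, h.tot, Nat.cast_sub hV]
    push_cast
    ring
  have h1 := ds_le hp _ ht
  have h2 := ds_add_le (V - 2 ^ finrank (ZMod 2) W) (2 ^ finrank (ZMod 2) W)
  rw [Nat.sub_add_cancel hV, ds_two_pow] at h2
  have h0 := h.zero
  have h3 : ds (V - 2 ^ finrank (ZMod 2) W) + 1 = ds V := by
    rw [h0] at h1
    omega
  refine ⟨⟨hp, ht, ?_⟩, h3⟩
  show v 0 - 1 = _
  rw [h0, ← h3]
  push_cast
  ring

theorem gr_lt {v : W → ℤ} {V : ℕ} (h : Gr v V) : V < 2 ^ (finrank (ZMod 2) W + 1) := by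
  by_contra hc
  rw [not_lt] at hc
  obtain ⟨K, hK⟩ : ∃ K : ℕ, K = 2 ^ finrank (ZMod 2) W := ⟨_, rfl⟩
  have hKpos : 0 < K := by rw [hK]; positivity
  have hm : 2 ≤ V / K := (Nat.le_div_iff_mul_le hKpos).2 (by
    rw [hK]
    rw [pow_succ] at hc
    linarith)
  have hVm : K * (V / K) + V % K = V := Nat.div_add_mod V K
  have hb : V % K < K := Nat.mod_lt _ hKpos
  obtain ⟨m, hmd⟩ : ∃ m, m = V / K := ⟨_, rfl⟩
  obtain ⟨b, hbd⟩ : ∃ b, b = V % K := ⟨_, rfl⟩
  rw [← hmd] at hm hVm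
  rw [← hbd] at hVm hb
  have hVm' : (V : ℤ) = 2 ^ finrank (ZMod 2) W * m + b := by
    have : (2 : ℤ) ^ finrank (ZMod 2) W = (K : ℤ) := by rw [hK]; push_cast; ring
    rw [this, ← hVm]
    push_cast
    ring
  have he : (fun x : W => v x - (m : ℤ)) = fun x => v x - (m : ℤ) * 1 := by
    funext x
    ring
  have hp : Psd (fun x => v x - (m : ℤ)) := by
    intro φ
    rw [he, ft_sub v (fun _ => (m : ℤ) * 1), ft_mul (m : ℤ) (fun _ => 1), ft_one]
    by_cases h0 : φ = 0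
    · rw [if_pos h0, h0, ft_zero, h.tot, hVm']
      have : (0 : ℤ) ≤ b := Int.natCast_nonneg b
      linarith
    · rw [if_neg h0, mul_zero, sub_zero]
      exact h.psd φ
  have ht : tot (fun x => v x - (m : ℤ)) = (b : ℤ) := by
    rw [he, tot_sub v (fun _ => (m : ℤ) * 1), tot_mul (m : ℤ) (fun _ => 1), tot_one, h.tot,
      hVm']
    ring
  have h1 := ds_le hp _ ht
  rw [h.zero] at h1
  have h2 := ds_two_pow_mul_add (finrank (ZMod 2) W) m b (hK ▸ hb)
  rw [← hK, hVm] at h2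
  have h3 := ds_lt_self hm
  omega

theorem zeros_sep {v : W → ℤ} {V : ℕ} (h : Gr v V) (hV : V < 2 ^ finrank (ZMod 2) W)
    {φ : Dual (ZMod 2) W} (hφ : φ ≠ 0) : ∃ x, v x = 0 ∧ φ x = 1 := by
  by_contra hc
  push Not at hc
  have := Fintype.ofFinite W
  have h1 : 0 ≤ ∑ x, (1 - sg (φ x)) * (v x - 1) := by
    refine Finset.sum_nonneg fun x _ => ?_
    rcases zmod_cases (φ x) with h2 | h2
    · rw [h2, sg_zero]
      simp
    · rw [h2, sg_one]
      have h3 := gr_nonneg h x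
      have h4 : v x ≠ 0 := fun h5 => hc x h5 h2
      have h5 : 1 ≤ v x := by omega
      linarith
  have h2 : ∑ x, (1 - sg (φ x)) * (v x - 1) =
      tot v - ft v φ - (tot (fun _ : W => (1 : ℤ)) - ft (fun _ : W => (1 : ℤ)) φ) := by
    rw [tot_eq_sum, tot_eq_sum, ft_eq_sum, ft_eq_sum, ← Finset.sum_sub_distrib,
      ← Finset.sum_sub_distrib, ← Finset.sum_sub_distrib]
    exact Finset.sum_congr rfl fun x _ => by ring
  rw [h2, tot_one, ft_one, if_neg hφ, h.tot] at h1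
  have h3 := h.psd φ
  have h4 : (V : ℤ) < 2 ^ finrank (ZMod 2) W := by exact_mod_cast hV
  linarith

theorem gr_single {v : W → ℤ} {c : ℕ} (h : Gr v (2 ^ c)) :
    ∃ P : Submodule (ZMod 2) W, finrank (ZMod 2) P = c ∧ ∀ x, v x = ind P x := by
  have h0 : v 0 = 1 := by rw [h.zero, ds_two_pow]; rfl
  obtain ⟨P, hP⟩ := perSub h.psd
  have hv : ∀ x, v x = ind P x := by
    intro x
    have h1 := psd_abs_le h.psd x
    rw [h0, abs_le] at h1
    have h2 := gr_nonneg h x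
    unfold ind
    by_cases hx : x ∈ P
    · rw [if_pos hx, (hP x).1 hx, h0]
    · rw [if_neg hx]
      have h3 : v x ≠ 1 := fun h4 => hx ((hP x).2 (by rw [h4, h0]))
      omega
  refine ⟨P, ?_, hv⟩
  have h1 : tot v = 2 ^ finrank (ZMod 2) P := by
    rw [show v = ind P from funext hv, tot_ind]
  rw [h.tot] at h1
  have h2 : 2 ^ c = 2 ^ finrank (ZMod 2) P := by exact_mod_cast h1
  exact (Nat.pow_right_injective le_rfl h2).symm

end Pool.Agent.GR72
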