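/-
GR72/Decr: the decreasing lemma (needs Core, L1, Hyp, Psd, Basic).
Let `v` be `Gr V`, `V` even, `φ₀ ≠ 0`, `ft v φ₀ > 0`.  Then there is `ψ ≠ 0` with `ft v ψ = 0` and
`ft v (φ₀ + ψ) < ft v φ₀`.
Induction on `n = finrank W + V` (all `W`, `v`, `V`, `φ₀`; `k = finrank W ≥ 1` because `φ₀ ≠ 0`).
(i) `2^k ≤ V`: gr_sub_one: `v' = v - 1` is `Gr (V - 2^k)`, `V - 2^k` is even and smaller; by ft_sub
 and ft_one `ft v' φ = ft v φ` for all `φ ≠ 0`.  The induction hypothesis for `v'` gives `ψ ≠ 0` with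
 `ft v ψ = ft v' ψ = 0`; `φ₀ + ψ ≠ 0` since otherwise `ψ = φ₀` (add_self_eq) and `ft v ψ > 0`;
 so `ft v (φ₀ + ψ) = ft v' (φ₀ + ψ) < ft v' φ₀ = ft v φ₀`.
(ii) `V < 2^k` and there is `x` with `v x = 0` and `φ₀ x = 0`.
 If `x = 0` then `v 0 = 0`, `v = 0` (psd_eq_zero), `ft v φ₀ = 0`, contradiction.  So `x ≠ 0`; take
 `ψ₁` with `ψ₁ x = 1` (exists_dual_one), `K = ker ψ₁` (finrank_ker), `u = fold v ψ₁ x` is `Gr V` on
 `K` (gr_fold), `φ' = φ₀.domRestrict K`: `ft u φ' = ft v φ₀ > 0` (ft_fold); `φ' ≠ 0` (otherwise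
 `φ₀ = 0` or `φ₀ = ψ₁` by domRestrict_eq_iff with `φ' = 0.domRestrict`, but `φ₀ x = 0 ≠ ψ₁ x`).
 Induction hypothesis: `ψ' ≠ 0`, `ft u ψ' = 0`, `ft u (φ' + ψ') < ft u φ'`.  exists_ext_zero: `ψ`
 with `ψ.domRestrict K = ψ'`, `ψ x = 0`; `ψ ≠ 0`, and by ft_fold (`(φ₀ + ψ) x = 0`)
 `ft v ψ = 0`, `ft v (φ₀ + ψ) = ft u (φ' + ψ') < ft v φ₀`.
(iii) `V < 2^k` and `v x ≠ 0` whenever `φ₀ x = 0`; then `v x ≥ 1` there (gr_nonneg).  Take any
 `ψ ≠ 0` with `ft v ψ = 0` (exists_zero); `ψ ≠ φ₀`, `φ₀ + ψ ≠ 0`.  Every summand of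
 `∑ x, (1 + sg (φ₀ x)) * (1 - sg (ψ x)) * (v x - 1)` is nonnegative, and the sum is
 `(V + ft v φ₀ - ft v ψ - ft v (φ₀ + ψ)) - 2^k` (sg_add; ft_one and tot_one: the transform of `1`
 vanishes at `φ₀`, `ψ`, `φ₀ + ψ`).  Hence `ft v (φ₀ + ψ) ≤ ft v φ₀ + V - 2^k < ft v φ₀`.
-/
import Pool.Agent.GR72.Core

namespace Pool.Agent.GR72

open Module

private theorem decr_ne {W : Type} [AddCommGroup W] [Module (ZMod 2) W] {v : W → ℤ}
    {φ₀ ψ : Dual (ZMod 2) W} (hpos : 0 < ft v φ₀) (hψ : ft v ψ = 0) : φ₀ + ψ ≠ 0 := by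
  intro h
  have h1 : ψ = φ₀ := by
    have h2 : φ₀ + (φ₀ + ψ) = φ₀ := by rw [h, add_zero]
    rwa [← add_assoc, add_self_eq, zero_add] at h2
  rw [h1] at hψ
  omega

private theorem decr_aux (n : ℕ) : ∀ (W : Type) [AddCommGroup W] [Module (ZMod 2) W] [Finite W],
    ∀ (v : W → ℤ) (V : ℕ), finrank (ZMod 2) W + V = n → Gr v V → Even V →
    ∀ φ₀ : Dual (ZMod 2) W, φ₀ ≠ 0 → 0 < ft v φ₀ →
    ∃ ψ : Dual (ZMod 2) W, ψ ≠ 0 ∧ ft v ψ = 0 ∧ ft v (φ₀ + ψ) < ft v φ₀ := by
  induction n using Nat.strong_induction_on with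
  | _ n ih =>
    intro W _ _ _ v V hn h hV φ₀ h0 hpos
    rcases Nat.lt_or_ge V (2 ^ finrank (ZMod 2) W) with hlt | hge
    · by_cases hex : ∃ x, v x = 0 ∧ φ₀ x = 0
      · obtain ⟨x, hx0, hx1⟩ := hex
        have hxne : x ≠ 0 := by
          rintro rfl
          have h1 := psd_eq_zero h.psd hx0
          have h2 : v = fun _ => 0 := funext h1
          rw [h2] at hpos
          simp [ft] at hpos
        obtain ⟨ψ₁, hψ₁⟩ := exists_dual_one hxne
        have hψ₁0 : ψ₁ ≠ 0 := by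
          intro h5
          rw [h5, LinearMap.zero_apply] at hψ₁
          exact absurd hψ₁ (by decide)
        have hk := finrank_ker hψ₁0
        have hg := gr_fold h hψ₁ hx0
        have hf := ft_fold v hψ₁ hx1
        have hφ' : φ₀.domRestrict (LinearMap.ker ψ₁) ≠ 0 := by
          intro h5
          have h6 : φ₀.domRestrict (LinearMap.ker ψ₁) =
              (0 : Dual (ZMod 2) W).domRestrict (LinearMap.ker ψ₁) := by
            rw [h5]
            ext y
            simp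
          rcases (domRestrict_eq_iff ψ₁ φ₀ 0).1 h6 with h7 | h7
          · exact h0 h7
          · rw [zero_add] at h7
            rw [h7, hψ₁] at hx1
            exact absurd hx1 (by decide)
        obtain ⟨ψ', a1, a2, a3⟩ := ih (finrank (ZMod 2) (LinearMap.ker ψ₁) + V) (by omega)
          (LinearMap.ker ψ₁) (fold v ψ₁ x) V rfl hg hV (φ₀.domRestrict (LinearMap.ker ψ₁)) hφ'
          (by rw [hf]; exact hpos)
        obtain ⟨ψ, b1, b2⟩ := exists_ext_zero hψ₁ ψ'
        refine ⟨ψ, ?_, ?_, ?_⟩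
        · rintro rfl
          apply a1
          rw [← b1]
          ext y
          simp
        · rw [← ft_fold v hψ₁ b2, b1]
          exact a2
        · have hs : (φ₀ + ψ) x = 0 := by
            rw [LinearMap.add_apply, hx1, b2]
            decide
          have h8 : (φ₀ + ψ).domRestrict (LinearMap.ker ψ₁) =
              φ₀.domRestrict (LinearMap.ker ψ₁) + ψ' := by
            rw [← b1]
            ext y
            simp [LinearMap.domRestrict_apply]
          rw [← ft_fold v hψ₁ hs, h8, ← hf]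
          exact a3
      · push Not at hex
        have hk : 0 < finrank (ZMod 2) W := by
          obtain ⟨x, hx⟩ := exists_one_of_ne_zero h0
          have : Nontrivial W := ⟨x, 0, by
            rintro rfl
            rw [map_zero] at hx
            exact absurd hx (by decide)⟩
          exact Module.finrank_pos
        obtain ⟨ψ, hψ0, hψ⟩ := exists_zero h hV hk
        have hne := decr_ne hpos hψ
        refine ⟨ψ, hψ0, hψ, ?_⟩
        have := Fintype.ofFinite W
        have h1 : 0 ≤ ∑ x, (1 + sg (φ₀ x)) * (1 - sg (ψ x)) * (v x - 1) := by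
          refine Finset.sum_nonneg fun x _ => ?_
          rcases zmod_cases (φ₀ x) with h2 | h2
          · rw [h2, sg_zero]
            have h3 := gr_nonneg h x
            have h4 : v x ≠ 0 := fun h5 => hex x h5 h2
            have h5 : 1 ≤ v x := by omega
            rcases sg_cases (ψ x) with h6 | h6 <;> rw [h6]
            · simp
            · nlinarith
          · rw [h2, sg_one]
            simp
        have h2 : ∑ x, (1 + sg (φ₀ x)) * (1 - sg (ψ x)) * (v x - 1) =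
            (tot v + ft v φ₀ - ft v ψ - ft v (φ₀ + ψ)) -
            (tot (fun _ : W => (1 : ℤ)) + ft (fun _ : W => (1 : ℤ)) φ₀ -
              ft (fun _ : W => (1 : ℤ)) ψ - ft (fun _ : W => (1 : ℤ)) (φ₀ + ψ)) := by
          rw [tot_eq_sum, tot_eq_sum, ft_eq_sum, ft_eq_sum, ft_eq_sum, ft_eq_sum, ft_eq_sum,
            ft_eq_sum, ← Finset.sum_add_distrib, ← Finset.sum_add_distrib,
            ← Finset.sum_sub_distrib, ← Finset.sum_sub_distrib, ← Finset.sum_sub_distrib,
            ← Finset.sum_sub_distrib, ← Finset.sum_sub_distrib]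
          refine Finset.sum_congr rfl fun x _ => ?_
          rw [LinearMap.add_apply, sg_add]
          ring
        rw [h2, tot_one, ft_one, ft_one, ft_one, if_neg h0, if_neg hψ0, if_neg hne, h.tot,
          hψ] at h1
        have h4 : (V : ℤ) < 2 ^ finrank (ZMod 2) W := by exact_mod_cast hlt
        linarith
    · obtain ⟨hg, -⟩ := gr_sub_one h hge
      have hkey : ∀ φ : Dual (ZMod 2) W, φ ≠ 0 → ft (fun x => v x - 1) φ = ft v φ := by
        intro φ hφ
        rw [ft_sub v (fun _ => 1) φ, ft_one, if_neg hφ, sub_zero]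
      have hpw : 0 < 2 ^ finrank (ZMod 2) W := by positivity
      have hev : Even (V - 2 ^ finrank (ZMod 2) W) := by
        have hk : 0 < finrank (ZMod 2) W := by
          obtain ⟨x, hx⟩ := exists_one_of_ne_zero h0
          have : Nontrivial W := ⟨x, 0, by
            rintro rfl
            rw [map_zero] at hx
            exact absurd hx (by decide)⟩
          exact Module.finrank_pos
        have h2 : Even (2 ^ finrank (ZMod 2) W) := Nat.even_pow.2 ⟨even_two, hk.ne'⟩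
        exact (Nat.even_sub hge).2 (iff_of_true hV h2)
      obtain ⟨ψ, a1, a2, a3⟩ := ih (finrank (ZMod 2) W + (V - 2 ^ finrank (ZMod 2) W)) (by omega)
        W (fun x => v x - 1) _ rfl hg hev φ₀ h0 (by rw [hkey φ₀ h0]; exact hpos)
      rw [hkey ψ a1] at a2
      refine ⟨ψ, a1, a2, ?_⟩
      rw [hkey _ (decr_ne hpos a2), hkey φ₀ h0] at a3
      exact a3

theorem decr {W : Type} [AddCommGroup W] [Module (ZMod 2) W] [Finite W] {v : W → ℤ} {V : ℕ}
    (h : Gr v V) (hV : Even V) {φ₀ : Dual (ZMod 2) W} (h0 : φ₀ ≠ 0) (hpos : 0 < ft v φ₀) :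
    ∃ ψ : Dual (ZMod 2) W, ψ ≠ 0 ∧ ft v ψ = 0 ∧ ft v (φ₀ + ψ) < ft v φ₀ :=
  decr_aux _ W v V rfl h hV φ₀ h0 hpos

end Pool.Agent.GR72
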