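/-
GR72/StepDefs: names for the objects of the main step of run splitting (complete, no proofs).
-/
import Pool.Agent.GR72.Defs

namespace Pool.Agent.GR72

open Module

variable {W : Type} [AddCommGroup W] [Module (ZMod 2) W]

/-- `2^k` times the function whose Fourier transform is `ft v % M`. -/
noncomputable def Hm (v : W → ℤ) (M : ℤ) (y : W) : ℤ :=
  ∑ᶠ φ : Dual (ZMod 2) W, sg (φ y) * (ft v φ % M)

/-- The standing assumptions of the main step. -/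
structure Sit (q c t : ℕ) (v : W → ℤ) : Prop where
  hq : 1 ≤ q
  hc : 1 ≤ c
  ht : 1 ≤ t
  gr : Gr v (2 ^ c * (2 ^ (q + 1) * t + (2 ^ q - 1)))
  lt : 2 ^ c * (2 ^ (q + 1) * t + (2 ^ q - 1)) < 2 ^ finrank (ZMod 2) W

/-- The conclusion of run splitting.  `RunAt q W` says
`∀ v c t, Gr v (2 ^ c * (2 ^ (q + 1) * t + (2 ^ q - 1))) → Splits q c v`. -/
def Splits (q c : ℕ) (v : W → ℤ) : Prop :=
  ∃ v2 : W → ℤ, v2 0 = q ∧ ∀ φ : Dual (ZMod 2) W, ft v2 φ = ft v φ % 2 ^ (c + q + 1)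

/-- The bad situation of Case B (it will be shown to be impossible or harmless). -/
structure Bad (q c t : ℕ) (v : W → ℤ) (φ₀ : Dual (ZMod 2) W) (f : W → ℤ) : Prop where
  zero : f 0 = q
  ne : φ₀ ≠ 0
  eq : ∀ φ, φ ≠ φ₀ → ft f φ = ft v φ % 2 ^ (c + q + 1)
  neg : ft f φ₀ < 0
  dvd : (2 : ℤ) ^ (c + q + 1) ∣ ft v φ₀ - ft f φ₀
  gr : Gr (fun x => v x - f x) (2 ^ (c + q + 1) * t)
  one : ∀ x, v x = 0 → φ₀ x = 1

end Pool.Agent.GR72
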