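/-
GR72/RunSplit: consequences of run splitting (needs Core, Arith, StepDefs).
Let `V = 2^c (2^(q+1) t + (2^q - 1))`, `M = 2^(c+q+1)`, `v2` with `ft v2 φ = ft v φ % M`.
Then `ft v2 ≥ 0`, `tot v2 = V % M = 2^c (2^q - 1)` (`ft_zero`, V_mod_int), and
`ft (v - v2) φ = ft v φ - ft v φ % M ≥ 0`, `tot (v - v2) = 2^(c+q+1) t` (V_eq).  By `ds_le`
`q ≤ v2 0` and `ds t ≤ v 0 - v2 0`, while `v 0 = ds V = ds t + q`: so both are equalities.
This proves `gr_of_mod`; `run_split` and `splits_of_mod` follow.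
-/
import Pool.Agent.GR72.Core
import Pool.Agent.GR72.Arith
import Pool.Agent.GR72.StepDefs

namespace Pool.Agent.GR72

open Module

variable {W : Type} [AddCommGroup W] [Module (ZMod 2) W] [Finite W]

theorem gr_of_mod {q c t : ℕ} {v v2 : W → ℤ}
    (hv : Gr v (2 ^ c * (2 ^ (q + 1) * t + (2 ^ q - 1))))
    (h : ∀ φ : Dual (ZMod 2) W, ft v2 φ = ft v φ % 2 ^ (c + q + 1)) :
    Gr v2 (2 ^ c * (2 ^ q - 1)) ∧ Gr (fun x => v x - v2 x) (2 ^ (c + q + 1) * t) := by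
  have hM : (0 : ℤ) < 2 ^ (c + q + 1) := by positivity
  have hpsd2 : Psd v2 := fun φ => by
    rw [h φ]
    exact Int.emod_nonneg _ hM.ne'
  have hpsd1 : Psd (fun x => v x - v2 x) := fun φ => by
    rw [ft_sub, h φ]
    have h1 := hv.psd φ
    have h2 := Int.emod_add_mul_ediv (ft v φ) (2 ^ (c + q + 1))
    have h3 : 0 ≤ ft v φ / 2 ^ (c + q + 1) := Int.ediv_nonneg h1 hM.le
    have h4 : 0 ≤ 2 ^ (c + q + 1) * (ft v φ / 2 ^ (c + q + 1)) := mul_nonneg hM.le h3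
    linarith
  have htot2 : tot v2 = ((2 ^ c * (2 ^ q - 1) : ℕ) : ℤ) := by
    rw [← ft_zero, h 0, ft_zero, hv.tot]
    exact V_mod_int q c t
  have htot1 : tot (fun x => v x - v2 x) = ((2 ^ (c + q + 1) * t : ℕ) : ℤ) := by
    rw [tot_sub, hv.tot, htot2, V_eq q c t]
    push_cast
    ring
  have h1 := ds_le hpsd2 _ htot2
  have h2 := ds_le hpsd1 _ htot1
  rw [ds_low] at h1
  rw [ds_high] at h2
  have h3 := hv.zero
  rw [ds_V] at h3
  push_cast at h3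
  have e2 : v2 0 = q := by linarith
  refine ⟨⟨hpsd2, htot2, ?_⟩, ⟨hpsd1, htot1, ?_⟩⟩
  · rw [ds_low]
    exact e2
  · rw [ds_high]
    change v 0 - v2 0 = _
    linarith

theorem splits_of_mod {q c t : ℕ} {v v2 : W → ℤ}
    (hv : Gr v (2 ^ c * (2 ^ (q + 1) * t + (2 ^ q - 1))))
    (h : ∀ φ : Dual (ZMod 2) W, ft v2 φ = ft v φ % 2 ^ (c + q + 1)) : Splits q c v := by
  refine ⟨v2, ?_, h⟩
  have h1 := (gr_of_mod hv h).1.zero
  rw [ds_low] at h1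
  exact h1

theorem run_split {q c t : ℕ} (hR : RunAt q W) {v : W → ℤ}
    (hv : Gr v (2 ^ c * (2 ^ (q + 1) * t + (2 ^ q - 1)))) :
    ∃ v2 : W → ℤ, Gr v2 (2 ^ c * (2 ^ q - 1)) ∧
      Gr (fun x => v x - v2 x) (2 ^ (c + q + 1) * t) ∧
      ∀ φ : Dual (ZMod 2) W, ft v2 φ = ft v φ % 2 ^ (c + q + 1) := by
  obtain ⟨v2, _, h⟩ := hR v c t hv
  obtain ⟨h1, h2⟩ := gr_of_mod hv h
  exact ⟨v2, h1, h2, h⟩

end Pool.Agent.GR72
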