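/-
GR72/Ward: divisibility (Ward's theorem for binary Griesmer codes) (needs L1).
Induction on `k = finrank W` for all `W`, `v`, `V`, `c`.  `c = 0` trivial.  Let `c ≥ 1`, so `V` is
even, and `A = {ψ ≠ 0 | ft v ψ = 0}`.
(1) For `ψ ∈ A`, `res v ψ` has total `V/2`, `ds (V/2) = ds V`, so `Gr (res v ψ) (V/2)` (directly
from Hyp; or Core.gr_res) in dimension `k-1` and `2^(c-1) ∣ V/2`: by induction `2^(c-1)` divides
`ft (res v ψ)`, so by `two_mul_ft_res` `2^c ∣ ft v φ + ft v (φ + ψ)` for all `φ`.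
(2) `A` spans `Dual W`: otherwise some `x ≠ 0` in `W` has `ψ x = 0` for all `ψ ∈ A` (a proper
subspace of the dual is annihilated by a nonzero vector: e.g. `Submodule.dualCoannihilator`,
`Subspace.dualCoannihilator...`, `Module.Dual.eval`).  Then `v' = v - dl 0 + dl x` has
`ft v' φ = ft v φ - 1 + sg (φ x)`; if `φ x = 0` this is `ft v φ ≥ 0`; if `φ x = 1` then `φ ≠ 0`,
`φ ∉ A`, so `ft v φ ≠ 0` is even (two_dvd_ft_sub_tot, `V` even) and `≥ 2`.  So `v'` is Psd with
total `V` and `v' 0 = v 0 - 1 = ds V - 1`: contradiction with `ds_le`.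
(3) `{φ | 2^c ∣ ft v φ}` contains `0` (`ft v 0 = V`) and is stable under adding elements of `A`
by (1), so by span induction (every element of the span of `A` over the field with two elements
is a sum of elements of `A`) it is everything.
-/
import Pool.Agent.GR72.L1

namespace Pool.Agent.GR72

open Module

theorem ward_step {W : Type} [AddCommGroup W] [Module (ZMod 2) W] [Finite W] {n : ℕ}
    (ih : ∀ (W : Type) [AddCommGroup W] [Module (ZMod 2) W] [Finite W],
      finrank (ZMod 2) W = n → ∀ (v : W → ℤ) (V c : ℕ), Gr v V → 2 ^ c ∣ V →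
      ∀ φ : Dual (ZMod 2) W, (2 : ℤ) ^ c ∣ ft v φ)
    (hW : finrank (ZMod 2) W = n + 1) {v : W → ℤ} {V c : ℕ} (h : Gr v V)
    (hc : 2 ^ (c + 1) ∣ V) {ψ : Dual (ZMod 2) W} (hψ : ψ ≠ 0) (h0 : ft v ψ = 0)
    (φ : Dual (ZMod 2) W) : (2 : ℤ) ^ (c + 1) ∣ ft v φ + ft v (φ + ψ) := by
  obtain ⟨U, hU⟩ := hc
  have hV : V = 2 * (2 ^ c * U) := by rw [hU, pow_succ]; ring
  have h1 := two_mul_tot_res v ψ
  rw [h0, h.tot, hV] at h1
  have h2 : Gr (res v ψ) (2 ^ c * U) := by
    refine ⟨psd_res h.psd ψ, ?_, ?_⟩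
    · push_cast at h1 ⊢
      linarith
    · rw [res_zero, h.zero, hV, ds_two_mul]
  have h3 := finrank_ker hψ
  have h4 := ih (LinearMap.ker ψ) (by omega) (res v ψ) (2 ^ c * U) c h2 (Dvd.intro _ rfl)
    (φ.domRestrict (LinearMap.ker ψ))
  rw [← two_mul_ft_res, pow_succ, mul_comm]
  exact mul_dvd_mul_left 2 h4

theorem ward_span {W : Type} [AddCommGroup W] [Module (ZMod 2) W] [Finite W]
    {v : W → ℤ} {V : ℕ} (h : Gr v V) (hV : 2 ∣ V) :
    Submodule.span (ZMod 2) {ψ : Dual (ZMod 2) W | ψ ≠ 0 ∧ ft v ψ = 0} = ⊤ := by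
  classical
  by_contra hne
  obtain ⟨f, hf0, hf⟩ := Submodule.exists_le_ker_of_lt_top _ (lt_top_iff_ne_top.2 hne)
  obtain ⟨x, rfl⟩ := (Module.evalEquiv (ZMod 2) W).surjective f
  have hx0 : x ≠ 0 := by
    rintro rfl
    exact hf0 (map_zero _)
  have hx : ∀ ψ : Dual (ZMod 2) W, ψ ≠ 0 → ft v ψ = 0 → ψ x = 0 := by
    intro ψ h1 h2
    have h3 := hf (Submodule.subset_span (show ψ ∈ {ψ : Dual (ZMod 2) W | ψ ≠ 0 ∧ ft v ψ = 0}
      from ⟨h1, h2⟩))
    rw [LinearMap.mem_ker] at h3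
    simpa using h3
  have hft : ∀ φ : Dual (ZMod 2) W, ft (fun y => (v y - dl 0 y) + dl x y) φ =
      ft v φ - 1 + sg (φ x) := by
    intro φ
    rw [ft_add (fun y => v y - dl 0 y) (dl x), ft_sub, ft_dl, ft_dl, map_zero, sg_zero]
  have hpsd : Psd (fun y => (v y - dl 0 y) + dl x y) := by
    intro φ
    rw [hft]
    have h1 := h.psd φ
    rcases zmod_cases (φ x) with h2 | h2
    · rw [h2, sg_zero]
      linarith
    · rw [h2, sg_one]
      have h3 : φ ≠ 0 := by
        rintro rfl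
        simp at h2
      have h4 : ft v φ ≠ 0 := by
        intro h5
        rw [hx φ h3 h5] at h2
        exact absurd h2 (by decide)
      have h5 := two_dvd_ft_sub_tot v φ
      rw [h.tot] at h5
      have h6 : (2 : ℤ) ∣ V := by exact_mod_cast hV
      omega
  have htot : tot (fun y => (v y - dl 0 y) + dl x y) = (V : ℤ) := by
    rw [← ft_zero, hft, ft_zero, h.tot]
    simp [sg_zero]
  have h7 : (ds V : ℤ) ≤ (v 0 - dl (0 : W) 0) + dl x 0 := ds_le hpsd V htot
  have h8 : (v 0 - dl (0 : W) 0) + dl x 0 = (ds V : ℤ) - 1 := by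
    rw [h.zero]
    simp [dl, hx0.symm]
  rw [h8] at h7
  linarith

theorem ward_aux (n : ℕ) : ∀ (W : Type) [AddCommGroup W] [Module (ZMod 2) W] [Finite W],
    finrank (ZMod 2) W = n → ∀ (v : W → ℤ) (V c : ℕ), Gr v V → 2 ^ c ∣ V →
    ∀ φ : Dual (ZMod 2) W, (2 : ℤ) ^ c ∣ ft v φ := by
  induction n with
  | zero =>
    intro W _ _ _ hW v V c h hc φ
    have hs : Subsingleton W := by
      rwa [Module.finrank_zero_iff] at hW
    have hφ : φ = 0 := by
      ext x
      rw [Subsingleton.elim x 0]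
      simp
    rw [hφ, ft_zero, h.tot]
    exact_mod_cast hc
  | succ n ih =>
    intro W _ _ _ hW v V c h hc φ
    rcases Nat.eq_zero_or_pos c with rfl | hc0
    · simp
    obtain ⟨c, rfl⟩ : ∃ d, c = d + 1 := ⟨c - 1, by omega⟩
    have h2 : 2 ∣ V := (Dvd.intro_left (2 ^ c) (pow_succ 2 c).symm).trans hc
    have hspan := ward_span h h2
    have hmem : φ ∈ Submodule.span (ZMod 2) {ψ : Dual (ZMod 2) W | ψ ≠ 0 ∧ ft v ψ = 0} := by
      rw [hspan]; trivial
    have key : ∀ φ' : Dual (ZMod 2) W, (2 : ℤ) ^ (c + 1) ∣ ft v φ' →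
        (2 : ℤ) ^ (c + 1) ∣ ft v (φ' + φ) := by
      induction hmem using Submodule.span_induction with
      | mem θ hθ =>
        intro φ' h3
        have h4 := ward_step ih hW h hc hθ.1 hθ.2 φ'
        exact (dvd_add_right h3).1 h4
      | zero => intro φ' h3; simpa using h3
      | add a b _ _ ha hb =>
        intro φ' h3
        rw [← add_assoc]
        exact hb _ (ha _ h3)
      | smul a x _ hx =>
        intro φ' h3
        rcases zmod_cases a with rfl | rfl
        · simpa using h3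
        · simpa using hx _ h3
    have h5 := key 0 (by rw [ft_zero, h.tot]; exact_mod_cast hc)
    rwa [zero_add] at h5

theorem ward {W : Type} [AddCommGroup W] [Module (ZMod 2) W] [Finite W] {v : W → ℤ} {V c : ℕ}
    (h : Gr v V) (hc : 2 ^ c ∣ V) (φ : Dual (ZMod 2) W) : (2 : ℤ) ^ c ∣ ft v φ :=
  ward_aux _ W rfl v V c h hc φ

end Pool.Agent.GR72
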