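/-
GR72/QTrick: two ways to use a bad function (needs RunSplit, Core).
Names: `k = finrank W`, `M = 2^(c+q+1)`.
* `qtrick`: `ker φ₀` has dimension `k - 1 ≥ e`; choose a subspace `Q ≤ ker φ₀` of dimension `e`
  (`Submodule.exists_finrank_eq` or a sub-basis; or remove vectors one at a time) and
  `g = f + ind Q`.  ft_ind: `ft (ind Q) φ ∈ {0, 2^e}`, `M ∣ 2^e`, `ft (ind Q) 0 = 2^e`,
  `ft (ind Q) φ₀ = 2^e`.  `g` is Psd: for `φ ≠ φ₀` by B.eq (`% ≥ 0`), and
  `ft g φ₀ = ft f φ₀ + 2^e ≥ 2^e - 2^c (2^q - 1) > 0`.  Total (B.eq at `0`, `φ₀ ≠ 0`, V_mod_int):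
  `2^c (2^q - 1) + 2^e`, and `2^e = 2^c * 2^(q+1) * 2^(e-(c+q+1))`.  `g 0 = q + 1` and this is the
  number of ones (ds_V, ds_two_pow).  Congruence: B.eq, B.dvd.
* `tot_bad`: `tot f = ft f 0 = ft v 0 % M = V % M`.
* `base_end`: `k = c + q + 2`, so `t = 1` (from S.ht and S.lt) and by B.gr and gr_single
  `v - f = ind P` with `finrank P = c + q + 1 = k - 1`.  `ft (ind P) φ₀ = ft v φ₀ - ft f φ₀ > 0`
  (`ft v φ₀ ≥ 0`, B.neg), so `φ₀` vanishes on `P`, `P ≤ ker φ₀`, and the dimensions agree: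
  `P = ker φ₀`.  So `f x = v x - 1 ≥ 0` if `φ₀ x = 0` (`v x ≠ 0` by B.one, gr_nonneg) and
  `f x = v x ≥ 0` otherwise.  `2^c ∣ ft v φ₀` (ward; `2^c ∣ V`), so `2^c ∣ ft f φ₀` by B.dvd;
  write `ft f φ₀ = - (2^c τ)`, `τ ≥ 1` by B.neg.  Apply `hB` with `f`, `φ₀`, `τ`.
-/
import Pool.Agent.GR72.RunSplit
import Pool.Agent.GR72.Ward

namespace Pool.Agent.GR72

open Module

variable {W : Type} [AddCommGroup W] [Module (ZMod 2) W] [Finite W]

theorem tot_bad {q c t : ℕ} {v : W → ℤ} (S : Sit q c t v) {φ₀ : Dual (ZMod 2) W} {f : W → ℤ}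
    (B : Bad q c t v φ₀ f) : tot f = 2 ^ c * (2 ^ q - 1) := by
  rw [← ft_zero, B.eq 0 (Ne.symm B.ne), ft_zero, S.gr.tot, V_mod_int, low_cast]

/-- A subspace of prescribed dimension. -/
private theorem exists_sub_finrank (K : Submodule (ZMod 2) W) {e : ℕ} (he : e ≤ finrank (ZMod 2) K) :
    ∃ Q : Submodule (ZMod 2) W, Q ≤ K ∧ finrank (ZMod 2) Q = e := by
  obtain ⟨f, hf⟩ := exists_linearIndependent_of_le_finrank he
  have h1 : LinearIndependent (ZMod 2) (fun i => K.subtype (f i)) :=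
    hf.map' K.subtype (Submodule.ker_subtype K)
  refine ⟨Submodule.span (ZMod 2) (Set.range fun i => K.subtype (f i)), ?_, ?_⟩
  · rw [Submodule.span_le]
    rintro _ ⟨i, rfl⟩
    exact (f i).2
  · rw [finrank_span_eq_card h1, Fintype.card_fin]

theorem qtrick {q c t : ℕ} {v : W → ℤ} (S : Sit q c t v) {φ₀ : Dual (ZMod 2) W} {f : W → ℤ}
    (B : Bad q c t v φ₀ f) (hτ : -ft f φ₀ ≤ 2 ^ c * (2 ^ q - 1)) {e : ℕ} (he : c + q + 1 ≤ e)
    (he' : e + 1 ≤ finrank (ZMod 2) W) :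
    ∃ g : W → ℤ, Gr g (2 ^ c * (2 ^ (q + 1) * 2 ^ (e - (c + q + 1)) + (2 ^ q - 1))) ∧
      ∀ φ : Dual (ZMod 2) W, ft g φ % 2 ^ (c + q + 1) = ft v φ % 2 ^ (c + q + 1) := by
  classical
  have hker := finrank_ker B.ne
  obtain ⟨Q, hQ, hQe⟩ := exists_sub_finrank (LinearMap.ker φ₀) (e := e) (by omega)
  have hM : (0 : ℤ) < 2 ^ (c + q + 1) := by positivity
  have hMe : (2 : ℤ) ^ (c + q + 1) ∣ 2 ^ e := pow_dvd_pow 2 he
  have hft : ∀ φ, ft (fun x => f x + ind Q x) φ = ft f φ + ft (ind Q) φ := fun φ => ft_add _ _ _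
  have hE : ∀ φ, ft (ind Q) φ = if (∀ x ∈ Q, φ x = 0) then 2 ^ e else 0 := by
    intro φ
    rw [ft_ind, hQe]
  have hE0 : ∀ φ, 0 ≤ ft (ind Q) φ := psd_ind Q
  have hφ₀ : ft (ind Q) φ₀ = 2 ^ e := by
    rw [hE, if_pos]
    intro x hx
    exact LinearMap.mem_ker.1 (hQ hx)
  have hEd : ∀ φ, (2 : ℤ) ^ (c + q + 1) ∣ ft (ind Q) φ := by
    intro φ
    rw [hE]
    split_ifs
    · exact hMe
    · exact dvd_zero _
  refine ⟨fun x => f x + ind Q x, ⟨?_, ?_, ?_⟩, ?_⟩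
  · intro φ
    rw [hft]
    by_cases h : φ = φ₀
    · rw [h, hφ₀]
      have h1 : (2 : ℤ) ^ c * (2 ^ q - 1) ≤ 2 ^ e := by
        have h2 : (2 : ℤ) ^ (c + q) ≤ 2 ^ e := pow_le_pow_right₀ (by norm_num) (by omega)
        have h3 : (2 : ℤ) ^ c * (2 ^ q - 1) ≤ 2 ^ (c + q) := by
          rw [pow_add]
          have : (0 : ℤ) < 2 ^ c := by positivity
          nlinarith
        linarith
      linarith
    · rw [B.eq φ h]
      exact add_nonneg (Int.emod_nonneg _ hM.ne') (hE0 φ)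
  · rw [tot_add, tot_bad S B, tot_ind, hQe, V_eq]
    have h1 : 2 ^ (c + q + 1) * 2 ^ (e - (c + q + 1)) = 2 ^ e := by
      rw [← pow_add]
      congr 1
      omega
    rw [h1, Nat.cast_add, low_cast]
    push_cast
    ring
  · change f 0 + ind Q 0 = _
    rw [B.zero, ds_V, ds_two_pow]
    have : ind Q (0 : W) = 1 := by
      unfold ind
      rw [if_pos Q.zero_mem]
    rw [this]
    push_cast
    ring
  · intro φ
    rw [hft]
    by_cases h : φ = φ₀
    · rw [h]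
      exact Int.modEq_iff_dvd.2 (by
        have h1 := dvd_sub B.dvd (hEd φ₀)
        rwa [sub_sub] at h1)
    · rw [B.eq φ h]
      obtain ⟨z, hz⟩ := hEd φ
      rw [hz, Int.add_mul_emod_self_left, Int.emod_emod_of_dvd _ dvd_rfl]

theorem base_end {q c t : ℕ} (hB : Base q) {v : W → ℤ} (S : Sit q c t v)
    {φ₀ : Dual (ZMod 2) W} {f : W → ℤ} (B : Bad q c t v φ₀ f)
    (hk : finrank (ZMod 2) W = c + q + 2) : False := by
  classical
  have ht : t = 1 := by
    have h1 := S.lt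
    rw [V_eq, hk] at h1
    have h2 : 2 ^ (c + q + 1) * t < 2 ^ (c + q + 1) * 2 := by
      have : 2 ^ (c + q + 2) = 2 ^ (c + q + 1) * 2 := by ring
      rw [this] at h1
      omega
    have h3 := Nat.lt_of_mul_lt_mul_left h2
    have := S.ht
    omega
  have hgr := B.gr
  rw [ht, mul_one] at hgr
  obtain ⟨P, hP, hvf⟩ := gr_single hgr
  have hft : ft (ind P) φ₀ = ft v φ₀ - ft f φ₀ := by
    rw [← ft_sub]
    congr 1
    funext x
    exact (hvf x).symm
  have hpos : 0 < ft (ind P) φ₀ := by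
    rw [hft]
    have h1 := S.gr.psd φ₀
    have h2 := B.neg
    linarith
  have hPk : P ≤ LinearMap.ker φ₀ := by
    intro x hx
    rw [LinearMap.mem_ker]
    by_contra hne
    rw [ft_ind, if_neg (fun h => hne (h x hx))] at hpos
    exact lt_irrefl _ hpos
  have hker := finrank_ker B.ne
  have hPeq : P = LinearMap.ker φ₀ := Submodule.eq_of_le_of_finrank_eq hPk (by omega)
  have hfn : ∀ x, 0 ≤ f x := by
    intro x
    have h1 := hvf x
    have h2 := gr_nonneg S.gr x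
    by_cases hx : x ∈ P
    · have h3 : ind P x = 1 := by
        unfold ind
        rw [if_pos hx]
      have h4 : v x ≠ 0 := by
        intro h5
        have h6 := B.one x h5
        rw [hPeq, LinearMap.mem_ker] at hx
        rw [hx] at h6
        exact absurd h6 (by decide)
      rw [h3] at h1
      change v x - f x = 1 at h1
      omega
    · have h3 : ind P x = 0 := by
        unfold ind
        rw [if_neg hx]
      rw [h3] at h1
      change v x - f x = 0 at h1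
      omega
  have hM : (0 : ℤ) < 2 ^ (c + q + 1) := by positivity
  have hd : (2 : ℤ) ^ c ∣ ft f φ₀ := by
    have h1 : (2 : ℤ) ^ c ∣ ft v φ₀ := ward S.gr (Dvd.intro _ rfl) φ₀
    have h2 : (2 : ℤ) ^ c ∣ ft v φ₀ - ft f φ₀ := (pow_dvd_pow 2 (by omega)).trans B.dvd
    have h3 := dvd_sub h1 h2
    rwa [sub_sub_cancel] at h3
  obtain ⟨z, hz⟩ := hd
  have hz1 : 1 ≤ -z := by
    have h1 := B.neg
    rw [hz] at h1
    have h2 : (0 : ℤ) < 2 ^ c := by positivity
    have h3 : z < 0 := by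
      by_contra h4
      have := mul_nonneg h2.le (not_lt.1 h4)
      omega
    omega
  exact hB W c f φ₀ (-z) S.hc hk hfn B.zero (tot_bad S B) B.ne hz1 (by rw [hz]; ring)
    (fun ψ hψ => by rw [B.eq ψ hψ]; exact Int.emod_nonneg _ hM.ne')

end Pool.Agent.GR72
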