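/-
GR72/StepA: the fold argument (needs RunSplit, Hyp, Core, StepDefs).
Names: `k = finrank W`, `V = 2^c (2^(q+1) t + (2^q - 1))`, `M = 2^(c+q+1)`,
`F φ = ft v φ % M`, `H = Hm v M`, `x` with `v x = 0`.
`x ≠ 0` because `v 0 = ds V = ds t + q ≥ 1` (ds_V).  Choose `ψ` with `ψ x = 1` (exists_dual_one),
`K = ker ψ` has dimension `k - 1` (finrank_ker).  `fold v ψ x` is `Gr V` on `K` (gr_fold); by `IH`
and run_split there is `w : K → ℤ`, `Gr w (2^c (2^q - 1))`,
`ft w φ' = ft (fold v ψ x) φ' % M` for all `φ'` in the dual of `K`.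
(2) If `φ x = 0` then by ft_fold `ft w (φ.domRestrict K) = ft v φ % M = F φ`, and
`gr_ft_le` bounds it by `2^c (2^q - 1)` (low_cast).
(1) Let `π : W → ℤ`, `π y = w y` if `ψ y = 0`, `π y = w (y + x)` if `ψ y = 1`.  Claim
`H y + H (y + x) = 2^k * π y` for all `y` (this gives the divisibility).  Both sides have the same
Fourier transform (use ft_inj): on the left, by dual_inversion `ft H φ = 2^k F φ` and, shifting
the summation, `ft (y ↦ H (y + x)) φ = sg (φ x) * 2^k * F φ`; so it is `2^k (1 + sg (φ x)) F φ`.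
On the right, by sum_split `ft π φ = ∑ y : K, (sg (φ y) * w y + sg (φ (y + x)) * w y)`
`= (1 + sg (φ x)) * ft w (φ.domRestrict K)` (`π (y + x) = w y` for `y ∈ K` since
`(y + x) + x = y`).  If `φ x = 1` both are `0`; if `φ x = 0` use (2).
-/
import Pool.Agent.GR72.RunSplit

namespace Pool.Agent.GR72

open Module

variable {W : Type} [AddCommGroup W] [Module (ZMod 2) W] [Finite W]

/-- the common set-up: `w` on `ker ψ` with transform `ft (fold v ψ x) % M` -/
theorem stepA_aux {q c t : ℕ} {v : W → ℤ} (S : Sit q c t v)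
    (IH : RunDim q (finrank (ZMod 2) W - 1)) {x : W} (hx : v x = 0) :
    ∃ ψ : Dual (ZMod 2) W, ψ x = 1 ∧ ∃ w : LinearMap.ker ψ → ℤ,
      Gr w (2 ^ c * (2 ^ q - 1)) ∧ ∀ φ : Dual (ZMod 2) W, φ x = 0 →
        ft w (φ.domRestrict (LinearMap.ker ψ)) = ft v φ % 2 ^ (c + q + 1) := by
  have hx0 : x ≠ 0 := by
    rintro rfl
    have h1 := S.gr.zero
    rw [hx, ds_V] at h1
    have h2 := S.hq
    push_cast at h1
    omega
  obtain ⟨ψ, hψ⟩ := exists_dual_one hx0
  refine ⟨ψ, hψ, ?_⟩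
  have hψ0 : ψ ≠ 0 := by
    rintro rfl
    simp at hψ
  have hfr := finrank_ker hψ0
  have hfold := gr_fold S.gr hψ hx
  have hR : RunAt q (LinearMap.ker ψ) := IH (LinearMap.ker ψ) (by omega)
  obtain ⟨w, hw1, -, hw2⟩ := run_split hR hfold
  refine ⟨w, hw1, fun φ hφ => ?_⟩
  rw [hw2, ft_fold v hψ hφ]

theorem stepA_one {q c t : ℕ} {v : W → ℤ} (S : Sit q c t v)
    (IH : RunDim q (finrank (ZMod 2) W - 1)) {x : W} (hx : v x = 0) (y : W) :
    (2 : ℤ) ^ finrank (ZMod 2) W ∣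
      Hm v (2 ^ (c + q + 1)) y + Hm v (2 ^ (c + q + 1)) (y + x) := by
  classical
  have := Fintype.ofFinite W
  obtain ⟨ψ, hψ, w, hw, hft⟩ := stepA_aux S IH hx
  have := Fintype.ofFinite (LinearMap.ker ψ)
  -- the periodic extension of `w`
  set π : W → ℤ := fun z => if h : ψ z = 0 then w ⟨z, h⟩ else
    if h : ψ (z + x) = 0 then w ⟨z + x, h⟩ else 0 with hπ
  have hker : ∀ z : LinearMap.ker ψ, ψ (z : W) = 0 := fun z => z.2
  have hπ1 : ∀ z : LinearMap.ker ψ, π z = w z := by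
    intro z
    simp only [hπ, hker z, dite_true]
  have hπ2 : ∀ z : LinearMap.ker ψ, π ((z : W) + x) = w z := by
    intro z
    have h1 : ψ ((z : W) + x) ≠ 0 := by
      rw [map_add, hker z, hψ]; decide
    have h2 : (z : W) + x + x = z := by rw [add_assoc, add_self_eq, add_zero]
    have h3 : ψ ((z : W) + x + x) = 0 := by rw [h2]; exact hker z
    simp only [hπ, h1, dite_false, h3, dite_true]
    congr 1
    exact Subtype.ext h2
  -- its transform
  have hftπ : ∀ φ : Dual (ZMod 2) W,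
      ft π φ = (1 + sg (φ x)) * ft w (φ.domRestrict (LinearMap.ker ψ)) := by
    intro φ
    have h1 := sum_split hψ (fun z => sg (φ z) * π z)
    rw [ft, h1, ft, finsum_eq_sum_of_fintype, finsum_eq_sum_of_fintype, Finset.mul_sum]
    refine Finset.sum_congr rfl fun z _ => ?_
    rw [hπ1, hπ2, map_add, sg_add]
    simp only [LinearMap.domRestrict_apply]
    ring
  set M : ℤ := 2 ^ (c + q + 1) with hM
  have hHm : ∀ φ : Dual (ZMod 2) W, ft (Hm v M) φ = 2 ^ finrank (ZMod 2) W * (ft v φ % M) :=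
    fun φ => dual_inversion (fun φ => ft v φ % M) φ
  have hHx : ∀ φ : Dual (ZMod 2) W, ft (fun y => Hm v M (y + x)) φ =
      sg (φ x) * (2 ^ finrank (ZMod 2) W * (ft v φ % M)) := by
    intro φ
    rw [← hHm, ft_eq_sum, ft_eq_sum, Finset.mul_sum,
      ← Equiv.sum_comp (Equiv.addRight x) (fun z => sg (φ x) * (sg (φ z) * Hm v M z))]
    refine Finset.sum_congr rfl fun z _ => ?_
    simp only [Equiv.coe_addRight, map_add, sg_add]
    have := sg_mul_self (φ x)
    calc sg (φ z) * Hm v M (z + x) = (sg (φ x) * sg (φ x)) * (sg (φ z) * Hm v M (z + x)) := by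
          rw [this, one_mul]
      _ = _ := by ring
  have hkey : ∀ φ : Dual (ZMod 2) W, ft (fun y => Hm v M y + Hm v M (y + x)) φ =
      ft (fun y => 2 ^ finrank (ZMod 2) W * π y) φ := by
    intro φ
    rw [ft_add (Hm v M) (fun y => Hm v M (y + x)), hHm, hHx, ft_mul, hftπ]
    rcases zmod_cases (φ x) with h2 | h2
    · rw [hft φ h2, h2, sg_zero]
      ring
    · rw [h2, sg_one]
      ring
  have h3 : Hm v M y + Hm v M (y + x) = 2 ^ finrank (ZMod 2) W * π y :=
    ft_inj (u := fun y => Hm v M y + Hm v M (y + x))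
      (v := fun y => 2 ^ finrank (ZMod 2) W * π y) hkey y
  rw [h3]
  exact Dvd.intro _ rfl

theorem stepA_two {q c t : ℕ} {v : W → ℤ} (S : Sit q c t v)
    (IH : RunDim q (finrank (ZMod 2) W - 1)) {x : W} (hx : v x = 0)
    {φ : Dual (ZMod 2) W} (hφ : φ x = 0) :
    ft v φ % 2 ^ (c + q + 1) ≤ 2 ^ c * (2 ^ q - 1) := by
  obtain ⟨ψ, hψ, w, hw, hft⟩ := stepA_aux S IH hx
  rw [← hft φ hφ, ← low_cast]
  exact gr_ft_le hw _

end Pool.Agent.GR72
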