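/-
GR72/Tau: the bound for the negative coefficient (needs StepA, Core, Hyp, L1).
Names: `k = finrank W`, `V = 2^c (2^(q+1) t + (2^q - 1))`, `M = 2^(c+q+1)`,
`F φ = ft v φ % M`.
(0) `ft_ge`: `ft v φ₀ = ∑ sg (φ₀ x) v x` and `V = ∑ v x`, so
`ft v φ₀ + V = ∑ (1 + sg (φ₀ x)) v x ≥ ∑ (1 + sg (φ₀ x)) = 2^k` (`v x ≥ 1` where `φ₀ x = 0` by
B.one and gr_nonneg; the last sum is `2^k` because `φ₀ ≠ 0`, ft_one).  As `V < 2^k` it follows
that `ft v φ₀ > 0`.
(1) `V` is even, choose `ψ ≠ 0` with `ft v ψ = 0` (exists_zero); `ψ ≠ φ₀` by (0).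
`r = res v ψ` on `T = ker ψ` (dimension `k - 1`) is `Gr r (V/2)`,
`V/2 = 2^(c-1) (2^(q+1) t + (2^q - 1))` (gr_res, ds_V), `V/2 < 2^(k-1)`, so the zeros of `r`
separate (zeros_sep).  `IH` and run_split give `w : T → ℤ`, `w 0 = q`,
`ft w φ' = ft r φ' % 2^(c+q)` for all `φ'`.
(2) Let `φ₀' = φ₀.domRestrict T`, `g = res f ψ - w`; `g 0 = q - q = 0`, so `∑ ft g φ' = 0`
(inversion_zero).  Claim: `ft g φ' = 0` for `φ' ≠ φ₀'`.  There is `x ∈ T` with `v x = 0` and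
`φ' x = 0` (otherwise `φ'` and `φ₀'` are both `1` on all zeros of `r` (B.one), `φ' + φ₀'` is `0`
on them, hence `φ' + φ₀' = 0` by zeros_sep, so `φ' = φ₀'`).  Take an extension `φ` of `φ'`
(exists_ext): `φ x = 0`, `(φ + ψ) x = 0`; stepA_two: `F φ, F (φ+ψ) ≤ 2^c (2^q - 1)`, so
`F φ + F (φ+ψ) < M` (low_lt).  Now `2 * ft w φ' = (2 * ft r φ') % M =
(ft v φ + ft v (φ+ψ)) % M = (F φ + F (φ+ψ)) % M = F φ + F (φ+ψ) = ft f φ + ft f (φ+ψ) =
2 * ft (res f ψ) φ'` (two_mul_ft_res; `φ ≠ φ₀`, `φ + ψ ≠ φ₀` because `φ' ≠ φ₀'`; B.eq).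
Hence `ft g φ₀' = 0` as well and `ft (res f ψ) φ₀' = ft w φ₀' ≥ 0`:
`0 ≤ ft f φ₀ + ft f (φ₀ + ψ)`.
(3) `ft f (φ₀ + ψ) = F (φ₀ + ψ)` (`ψ ≠ 0`).  By zeros_sep for `v` there is `x` with `v x = 0`,
`ψ x = 1`; then `φ₀ x = 1` and `(φ₀ + ψ) x = 0`, so `F (φ₀ + ψ) ≤ 2^c (2^q - 1)` by stepA_two.
-/
import Pool.Agent.GR72.StepA

namespace Pool.Agent.GR72

open Module

variable {W : Type} [AddCommGroup W] [Module (ZMod 2) W] [Finite W]

theorem ft_ge {q c t : ℕ} {v : W → ℤ} (S : Sit q c t v) {φ₀ : Dual (ZMod 2) W} {f : W → ℤ}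
    (B : Bad q c t v φ₀ f) : (2 : ℤ) ^ finrank (ZMod 2) W
      ≤ ft v φ₀ + ((2 ^ c * (2 ^ (q + 1) * t + (2 ^ q - 1)) : ℕ) : ℤ) := by
  classical
  have := Fintype.ofFinite W
  have h1 : 0 ≤ ∑ x, (1 + sg (φ₀ x)) * (v x - 1) := by
    refine Finset.sum_nonneg fun x _ => ?_
    rcases zmod_cases (φ₀ x) with h2 | h2
    · rw [h2, sg_zero]
      have h3 := gr_nonneg S.gr x
      have h4 : v x ≠ 0 := by
        intro h5
        have h6 := B.one x h5
        rw [h2] at h6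
        exact absurd h6 (by decide)
      have h5 : 1 ≤ v x := by omega
      linarith
    · rw [h2, sg_one]
      simp
  have h2 : ∑ x, (1 + sg (φ₀ x)) * (v x - 1) =
      tot v + ft v φ₀ - (tot (fun _ : W => (1 : ℤ)) + ft (fun _ : W => (1 : ℤ)) φ₀) := by
    rw [tot_eq_sum, tot_eq_sum, ft_eq_sum, ft_eq_sum, ← Finset.sum_add_distrib,
      ← Finset.sum_add_distrib, ← Finset.sum_sub_distrib]
    exact Finset.sum_congr rfl fun x _ => by ring
  rw [h2, tot_one, ft_one, if_neg B.ne, S.gr.tot] at h1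
  linarith

theorem tau_bound {q c t : ℕ} {v : W → ℤ} (S : Sit q c t v)
    (IH : RunDim q (finrank (ZMod 2) W - 1)) {φ₀ : Dual (ZMod 2) W} {f : W → ℤ}
    (B : Bad q c t v φ₀ f) : -ft f φ₀ ≤ 2 ^ c * (2 ^ q - 1) := by
  classical
  have hk := k_ge S.ht S.lt
  obtain ⟨c', rfl⟩ : ∃ c', c = c' + 1 := ⟨c - 1, by have := S.hc; omega⟩
  have hV : 2 ^ (c' + 1) * (2 ^ (q + 1) * t + (2 ^ q - 1)) =
      2 * (2 ^ c' * (2 ^ (q + 1) * t + (2 ^ q - 1))) := by ring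
  have hEv : Even (2 ^ (c' + 1) * (2 ^ (q + 1) * t + (2 ^ q - 1))) := by
    rw [hV]
    exact even_two_mul _
  obtain ⟨ψ, hψ, hψ0⟩ := exists_zero S.gr hEv (by omega)
  have hge := ft_ge S B
  have hlt : ((2 ^ (c' + 1) * (2 ^ (q + 1) * t + (2 ^ q - 1)) : ℕ) : ℤ) <
      2 ^ finrank (ZMod 2) W := by exact_mod_cast S.lt
  have hne : ψ ≠ φ₀ := by
    rintro rfl
    rw [hψ0] at hge
    linarith
  have hker := finrank_ker hψ
  have hr : Gr (res v ψ) (2 ^ c' * (2 ^ (q + 1) * t + (2 ^ q - 1))) := by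
    apply gr_res S.gr
    · rw [hψ0, hV]
      push_cast
      ring
    · rw [ds_V, ds_V]
  have hrlt : 2 ^ c' * (2 ^ (q + 1) * t + (2 ^ q - 1)) <
      2 ^ finrank (ZMod 2) (LinearMap.ker ψ) := by
    have h1 := S.lt
    rw [hV, ← hker, pow_succ' 2 (finrank (ZMod 2) (LinearMap.ker ψ))] at h1
    exact Nat.lt_of_mul_lt_mul_left h1
  have hR : RunAt q (LinearMap.ker ψ) := IH _ (by omega)
  obtain ⟨w, hw, -, hwft⟩ := run_split hR hr
  have hw0 : w 0 = q := by rw [hw.zero, ds_low]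
  have hM : (0 : ℤ) < 2 ^ (c' + 1 + q + 1) := by positivity
  -- the claim
  have claim : ∀ φ' : Dual (ZMod 2) (LinearMap.ker ψ),
      φ' ≠ φ₀.domRestrict (LinearMap.ker ψ) → ft (res f ψ) φ' = ft w φ' := by
    intro φ' hφ'
    have hne' : φ' + φ₀.domRestrict (LinearMap.ker ψ) ≠ 0 := by
      intro h0
      apply hφ'
      have h1 : φ₀.domRestrict (LinearMap.ker ψ) + φ₀.domRestrict (LinearMap.ker ψ) = 0 :=
        add_self_eq _
      exact add_right_cancel (h0.trans h1.symm)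
    obtain ⟨x, hx, hx1⟩ := zeros_sep hr hrlt hne'
    have hvx : v (x : W) = 0 := hx
    have hφ₀x := B.one _ hvx
    have hφ'x : φ' x = 0 := by
      rw [LinearMap.add_apply, LinearMap.domRestrict_apply, hφ₀x] at hx1
      generalize φ' x = a at hx1 ⊢
      revert a
      decide
    obtain ⟨φ, hφ⟩ := exists_ext ψ φ'
    have hφx : φ (x : W) = 0 := by
      rw [← hφ'x, ← hφ, LinearMap.domRestrict_apply]
    have hψx : ψ (x : W) = 0 := LinearMap.mem_ker.1 x.2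
    have hφψx : (φ + ψ) (x : W) = 0 := by
      rw [LinearMap.add_apply, hφx, hψx, add_zero]
    have h1 := stepA_two S IH hvx hφx
    have h2 := stepA_two S IH hvx hφψx
    have h3 : ft v φ % 2 ^ (c' + 1 + q + 1) + ft v (φ + ψ) % 2 ^ (c' + 1 + q + 1) <
        2 ^ (c' + 1 + q + 1) := by
      have h4 : (2 : ℤ) ^ (c' + 1 + q + 1) = 2 * (2 ^ (c' + 1) * 2 ^ q) := by ring
      have h5 : (0 : ℤ) < 2 ^ (c' + 1) := by positivity
      rw [h4] at h1 h2 ⊢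
      linarith
    have h4 := Int.emod_nonneg (ft v φ) hM.ne'
    have h5 := Int.emod_nonneg (ft v (φ + ψ)) hM.ne'
    have hφne : φ ≠ φ₀ := by
      rintro rfl
      exact hφ' hφ.symm
    have hφψne : φ + ψ ≠ φ₀ := by
      intro h6
      apply hφ'
      rw [← hφ, domRestrict_eq_iff]
      right
      rw [← h6, add_assoc, add_self_eq, add_zero]
    have h6 : 2 * ft w φ' = ft v φ % 2 ^ (c' + 1 + q + 1) + ft v (φ + ψ) % 2 ^ (c' + 1 + q + 1) := by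
      rw [hwft φ']
      have h7 := two_mul_ft_res v φ ψ
      rw [hφ] at h7
      have h8 : (2 : ℤ) * (ft (res v ψ) φ' % 2 ^ (c' + q + 1)) =
          (2 * ft (res v ψ) φ') % (2 * 2 ^ (c' + q + 1)) :=
        (Int.mul_emod_mul_of_pos _ _ (by norm_num)).symm
      have h9 : (2 : ℤ) * 2 ^ (c' + q + 1) = 2 ^ (c' + 1 + q + 1) := by ring
      rw [h8, h7, h9, Int.add_emod, Int.emod_eq_of_lt (add_nonneg h4 h5) h3]
    have h7 := two_mul_ft_res f φ ψ
    rw [hφ, B.eq φ hφne, B.eq _ hφψne, ← h6] at h7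
    linarith
  have hg0 : ft (res f ψ) (φ₀.domRestrict (LinearMap.ker ψ)) =
      ft w (φ₀.domRestrict (LinearMap.ker ψ)) := by
    have h1 := inversion_zero (fun y => res f ψ y - w y)
    have h2 : res f ψ 0 - w 0 = 0 := by
      rw [res_zero, B.zero, hw0, sub_self]
    rw [h2, mul_zero, finsum_eq_single _ (φ₀.domRestrict (LinearMap.ker ψ))
      (fun φ' hφ' => by rw [ft_sub, claim φ' hφ', sub_self]), ft_sub] at h1
    linarith
  have h1 := two_mul_ft_res f φ₀ ψ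
  have h2 := hw.psd (φ₀.domRestrict (LinearMap.ker ψ))
  rw [hg0] at h1
  obtain ⟨x, hx, hx1⟩ := zeros_sep S.gr S.lt hψ
  have h3 : (φ₀ + ψ) x = 0 := by
    rw [LinearMap.add_apply, B.one x hx, hx1]
    decide
  have h4 := stepA_two S IH hx h3
  have h5 : φ₀ + ψ ≠ φ₀ := by
    intro h6
    exact hψ (by simpa using h6)
  rw [← B.eq _ h5] at h4
  linarith

end Pool.Agent.GR72
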