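/-
GR72/TauRes: restrictions of a bad function (a refactoring of the proof of `tau_bound` in
GR72/Tau, copy it).  In the proof of tau_bound let now `ψ` be ANY functional with `ψ ≠ 0`,
`ft v ψ = 0` (there it came from exists_zero); the proof constructs `w` on `ker ψ` with
`Gr w (2 ^ c' * (2 ^ q - 1))`, `c = c' + 1` (run_split), proves `ft (res f ψ) φ' = ft w φ'` for all
`φ' ≠ φ₀.domRestrict (ker ψ)` (claim) and for `φ' = φ₀.domRestrict (ker ψ)` (hg0).  So
`res f ψ = w` by ft_inj, and `res f ψ` is `Gr (2 ^ c' * (2 ^ q - 1))`.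
-/
import Pool.Agent.GR72.Tau

namespace Pool.Agent.GR72

open Module

variable {W : Type} [AddCommGroup W] [Module (ZMod 2) W] [Finite W]

theorem tau_res {q c' t : ℕ} {v : W → ℤ} (S : Sit q (c' + 1) t v)
    (IH : RunDim q (finrank (ZMod 2) W - 1)) {φ₀ : Dual (ZMod 2) W} {f : W → ℤ}
    (B : Bad q (c' + 1) t v φ₀ f) {ψ : Dual (ZMod 2) W} (hψ : ψ ≠ 0) (hψ0 : ft v ψ = 0) :
    Gr (res f ψ) (2 ^ c' * (2 ^ q - 1)) := by
  classical
  have hk := k_ge S.ht S.lt
  have hV : 2 ^ (c' + 1) * (2 ^ (q + 1) * t + (2 ^ q - 1)) =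
      2 * (2 ^ c' * (2 ^ (q + 1) * t + (2 ^ q - 1))) := by ring
  have hge := ft_ge S B
  have hlt : ((2 ^ (c' + 1) * (2 ^ (q + 1) * t + (2 ^ q - 1)) : ℕ) : ℤ) <
      2 ^ finrank (ZMod 2) W := by exact_mod_cast S.lt
  have hne : ψ ≠ φ₀ := by
    rintro rfl
    rw [hψ0] at hge
    linarith
  have hker := finrank_ker hψ
  have hr : Gr (res v ψ) (2 ^ c' * (2 ^ (q + 1) * t + (2 ^ q - 1))) := by
    apply gr_res S.gr
    · rw [hψ0, hV]
      push_cast
      ring
    · rw [ds_V, ds_V]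
  have hrlt : 2 ^ c' * (2 ^ (q + 1) * t + (2 ^ q - 1)) <
      2 ^ finrank (ZMod 2) (LinearMap.ker ψ) := by
    have h1 := S.lt
    rw [hV, ← hker, pow_succ' 2 (finrank (ZMod 2) (LinearMap.ker ψ))] at h1
    exact Nat.lt_of_mul_lt_mul_left h1
  have hR : RunAt q (LinearMap.ker ψ) := IH _ (by omega)
  obtain ⟨w, hw, -, hwft⟩ := run_split hR hr
  have hw0 : w 0 = q := by rw [hw.zero, ds_low]
  have hM : (0 : ℤ) < 2 ^ (c' + 1 + q + 1) := by positivity
  -- the claim
  have claim : ∀ φ' : Dual (ZMod 2) (LinearMap.ker ψ),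
      φ' ≠ φ₀.domRestrict (LinearMap.ker ψ) → ft (res f ψ) φ' = ft w φ' := by
    intro φ' hφ'
    have hne' : φ' + φ₀.domRestrict (LinearMap.ker ψ) ≠ 0 := by
      intro h0
      apply hφ'
      have h1 : φ₀.domRestrict (LinearMap.ker ψ) + φ₀.domRestrict (LinearMap.ker ψ) = 0 :=
        add_self_eq _
      exact add_right_cancel (h0.trans h1.symm)
    obtain ⟨x, hx, hx1⟩ := zeros_sep hr hrlt hne'
    have hvx : v (x : W) = 0 := hx
    have hφ₀x := B.one _ hvx
    have hφ'x : φ' x = 0 := by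
      rw [LinearMap.add_apply, LinearMap.domRestrict_apply, hφ₀x] at hx1
      generalize φ' x = a at hx1 ⊢
      revert a
      decide
    obtain ⟨φ, hφ⟩ := exists_ext ψ φ'
    have hφx : φ (x : W) = 0 := by
      rw [← hφ'x, ← hφ, LinearMap.domRestrict_apply]
    have hψx : ψ (x : W) = 0 := LinearMap.mem_ker.1 x.2
    have hφψx : (φ + ψ) (x : W) = 0 := by
      rw [LinearMap.add_apply, hφx, hψx, add_zero]
    have h1 := stepA_two S IH hvx hφx
    have h2 := stepA_two S IH hvx hφψx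
    have h3 : ft v φ % 2 ^ (c' + 1 + q + 1) + ft v (φ + ψ) % 2 ^ (c' + 1 + q + 1) <
        2 ^ (c' + 1 + q + 1) := by
      have h4 : (2 : ℤ) ^ (c' + 1 + q + 1) = 2 * (2 ^ (c' + 1) * 2 ^ q) := by ring
      have h5 : (0 : ℤ) < 2 ^ (c' + 1) := by positivity
      rw [h4] at h1 h2 ⊢
      linarith
    have h4 := Int.emod_nonneg (ft v φ) hM.ne'
    have h5 := Int.emod_nonneg (ft v (φ + ψ)) hM.ne'
    have hφne : φ ≠ φ₀ := by
      rintro rfl
      exact hφ' hφ.symm
    have hφψne : φ + ψ ≠ φ₀ := by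
      intro h6
      apply hφ'
      rw [← hφ, domRestrict_eq_iff]
      right
      rw [← h6, add_assoc, add_self_eq, add_zero]
    have h6 : 2 * ft w φ' = ft v φ % 2 ^ (c' + 1 + q + 1) + ft v (φ + ψ) % 2 ^ (c' + 1 + q + 1) := by
      rw [hwft φ']
      have h7 := two_mul_ft_res v φ ψ
      rw [hφ] at h7
      have h8 : (2 : ℤ) * (ft (res v ψ) φ' % 2 ^ (c' + q + 1)) =
          (2 * ft (res v ψ) φ') % (2 * 2 ^ (c' + q + 1)) :=
        (Int.mul_emod_mul_of_pos _ _ (by norm_num)).symm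
      have h9 : (2 : ℤ) * 2 ^ (c' + q + 1) = 2 ^ (c' + 1 + q + 1) := by ring
      rw [h8, h7, h9, Int.add_emod, Int.emod_eq_of_lt (add_nonneg h4 h5) h3]
    have h7 := two_mul_ft_res f φ ψ
    rw [hφ, B.eq φ hφne, B.eq _ hφψne, ← h6] at h7
    linarith
  have hg0 : ft (res f ψ) (φ₀.domRestrict (LinearMap.ker ψ)) =
      ft w (φ₀.domRestrict (LinearMap.ker ψ)) := by
    have h1 := inversion_zero (fun y => res f ψ y - w y)
    have h2 : res f ψ 0 - w 0 = 0 := by
      rw [res_zero, B.zero, hw0, sub_self]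
    rw [h2, mul_zero, finsum_eq_single _ (φ₀.domRestrict (LinearMap.ker ψ))
      (fun φ' hφ' => by rw [ft_sub, claim φ' hφ', sub_self]), ft_sub] at h1
    linarith
  have hfin : res f ψ = w := by
    funext x
    refine ft_inj (fun φ' => ?_) x
    by_cases h : φ' = φ₀.domRestrict (LinearMap.ker ψ)
    · rw [h, hg0]
    · exact claim φ' h
  rw [hfin]
  exact hw

end Pool.Agent.GR72
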