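/-
GR72/Cosets: a set that is a union of at most `n + 1` cosets of `P` has all pairwise sums in a
subspace of dimension `≤ dim P + n` (needs Basic only).
Induction on `n`, for all `S`.  If `S` is empty take `U = P`.  Otherwise take `x₁ ∈ S`; the coset
`A = {x | x + x₁ ∈ P} ⊆ S` has `2^(finrank P)` elements (card_eq applied to `P`).
`n = 0`: `S = A`, `U = P`.
`n + 1`: `S' = S \ A` is stable under `P` and has at most `(n + 1) 2^(finrank P)` elements; let
`U'` be given by the induction hypothesis.  If `S'` is empty take `U = P`.  Otherwise choose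
`y₁ ∈ S'` and `U = U' ⊔ span {x₁ + y₁}` (dimension `≤ finrank U' + 1`).  For `x ∈ A`, `y ∈ S'`:
`x + y = (x + x₁) + (x₁ + y₁) + (y₁ + y)`.
-/
import Pool.Agent.GR72.Basic

namespace Pool.Agent.GR72

open Module

theorem add_via {W : Type} [AddCommGroup W] [Module (ZMod 2) W] (x y z : W) :
    x + y = (x + z) + (z + y) := by
  have : (x + z) + (z + y) = x + y + (z + z) := by abel
  rw [this, add_self_eq, add_zero]

theorem coset_span {W : Type} [AddCommGroup W] [Module (ZMod 2) W] [Finite W]
    (P : Submodule (ZMod 2) W) (n : ℕ) (S : Set W) (hS : ∀ x ∈ S, ∀ p ∈ P, x + p ∈ S)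
    (hn : S.ncard ≤ (n + 1) * 2 ^ finrank (ZMod 2) P) :
    ∃ U : Submodule (ZMod 2) W, P ≤ U ∧ finrank (ZMod 2) U ≤ finrank (ZMod 2) P + n ∧
      ∀ x ∈ S, ∀ y ∈ S, x + y ∈ U := by
  have hcard : ∀ x1 : W, {x : W | x + x1 ∈ P}.ncard = 2 ^ finrank (ZMod 2) P := by
    intro x1
    have h1 : {x : W | x + x1 ∈ P} = (fun p => p + x1) '' (P : Set W) := by
      ext x
      constructor
      · intro hx
        refine ⟨x + x1, hx, ?_⟩
        show x + x1 + x1 = x
        rw [add_assoc, add_self_eq, add_zero]
      · rintro ⟨p, hp, rfl⟩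
        show p + x1 + x1 ∈ P
        rw [add_assoc, add_self_eq, add_zero]
        exact hp
    rw [h1, Set.ncard_image_of_injective _ (add_left_injective x1), ← card_eq P]
    rfl
  have hsub : ∀ (S : Set W), (∀ x ∈ S, ∀ p ∈ P, x + p ∈ S) → ∀ x1 ∈ S,
      {x : W | x + x1 ∈ P} ⊆ S := by
    intro S hS x1 hx1 x hx
    have hx' : x + x1 ∈ P := hx
    have h2 := hS x1 hx1 (x + x1) hx'
    have h3 : x1 + (x + x1) = x := by
      have : x1 + (x + x1) = x + (x1 + x1) := by abel
      rw [this, add_self_eq, add_zero]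
    rwa [h3] at h2
  have hpair : ∀ (U : Submodule (ZMod 2) W) (x y z : W), x + z ∈ U → y + z ∈ U → x + y ∈ U := by
    intro U x y z hx hy
    rw [add_via x y z]
    refine U.add_mem hx ?_
    rwa [add_comm]
  induction n generalizing S with
  | zero =>
    rcases S.eq_empty_or_nonempty with rfl | ⟨x1, hx1⟩
    · exact ⟨P, le_rfl, le_rfl, by simp⟩
    · have hA := hsub S hS x1 hx1
      have hEq : {x : W | x + x1 ∈ P} = S := by
        refine Set.eq_of_subset_of_ncard_le hA ?_ (Set.toFinite _)
        rw [hcard x1]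
        simpa using hn
      refine ⟨P, le_rfl, le_rfl, ?_⟩
      intro x hx y hy
      rw [← hEq] at hx hy
      exact hpair P x y x1 hx hy
  | succ n ih =>
    rcases S.eq_empty_or_nonempty with rfl | ⟨x1, hx1⟩
    · exact ⟨P, le_rfl, by omega, by simp⟩
    · have hA := hsub S hS x1 hx1
      have hS' : ∀ x ∈ S \ {x : W | x + x1 ∈ P}, ∀ p ∈ P, x + p ∈ S \ {x : W | x + x1 ∈ P} := by
        rintro x ⟨hx, hx2⟩ p hp
        refine ⟨hS x hx p hp, ?_⟩
        intro hc
        apply hx2
        have hc' : x + p + x1 ∈ P := hc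
        show x + x1 ∈ P
        have h3 := P.sub_mem hc' hp
        have h4 : x + p + x1 - p = x + x1 := by abel
        rwa [h4] at h3
      have hn' : (S \ {x : W | x + x1 ∈ P}).ncard ≤ (n + 1) * 2 ^ finrank (ZMod 2) P := by
        rw [Set.ncard_sdiff hA (Set.toFinite _), hcard x1]
        have : (n + 1 + 1) * 2 ^ finrank (ZMod 2) P =
          (n + 1) * 2 ^ finrank (ZMod 2) P + 2 ^ finrank (ZMod 2) P := by ring
        omega
      obtain ⟨U', hPU', hdim', hU'⟩ := ih _ hS' hn'
      rcases (S \ {x : W | x + x1 ∈ P}).eq_empty_or_nonempty with he | ⟨y1, hy1⟩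
      · refine ⟨P, le_rfl, by omega, ?_⟩
        have hSA : S ⊆ {x : W | x + x1 ∈ P} := Set.sdiff_eq_empty.mp he
        intro x hx y hy
        exact hpair P x y x1 (hSA hx) (hSA hy)
      · refine ⟨U' ⊔ Submodule.span (ZMod 2) {x1 + y1}, hPU'.trans le_sup_left, ?_, ?_⟩
        · have h5 := Submodule.finrank_add_le_finrank_add_finrank U'
            (Submodule.span (ZMod 2) {x1 + y1})
          have h6 : finrank (ZMod 2) (Submodule.span (ZMod 2) {x1 + y1}) ≤ 1 := by
            refine (finrank_span_le_card ({x1 + y1} : Set W)).trans ?_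
            simp
          omega
        · have hU1 : ∀ z ∈ U', z ∈ U' ⊔ Submodule.span (ZMod 2) {x1 + y1} :=
            fun z hz => Submodule.mem_sup_left hz
          have hU2 : x1 + y1 ∈ U' ⊔ Submodule.span (ZMod 2) {x1 + y1} :=
            Submodule.mem_sup_right (Submodule.mem_span_singleton_self _)
          have key : ∀ x ∈ S, x + x1 ∈ U' ⊔ Submodule.span (ZMod 2) {x1 + y1} := by
            intro x hx
            by_cases hxA : x + x1 ∈ P
            · exact hU1 _ (hPU' hxA)
            · have h7 := hU' x ⟨hx, hxA⟩ y1 hy1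
              have h8 := Submodule.add_mem _ (hU1 _ h7) hU2
              have h9 : x + y1 + (x1 + y1) = x + x1 := by
                have : x + y1 + (x1 + y1) = x + x1 + (y1 + y1) := by abel
                rw [this, add_self_eq, add_zero]
              rwa [h9] at h8
          intro x hx y hy
          exact hpair _ x y x1 (key x hx) (key y hy)

end Pool.Agent.GR72
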