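/-
GR72/BaseTwo: the base inequality for runs of length two (needs Psd, Hyp, Cosets).
Names: `K = ker φ` (`φ` is the functional called `φ` in Base), `E` its complement,
`w = res f φ`, `k = finrank W = c + 4`, `tot f = 3 * 2^c`, `ft f φ = - 2^c τ`.
(1) `2 * tot w = tot f + ft f φ = 2^c (3 - τ)` and `tot w ≥ w 0 = 2 > 0`.  `w` is Psd: for
`ψ' ≠ 0` in the dual of `K` with extension `ψ` both `ψ` and `ψ + φ` are `≠ φ`
(domRestrict_eq_iff), so `2 ft w ψ' = ft f ψ + ft f (ψ + φ) ≥ 0`; `ft w 0 = tot w > 0`.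
So `0 ≤ f x ≤ 2` for `x ∈ K` (psd_abs_le).  `P = {x ∈ K | f x = 2}` is a subspace (perSub).
(2) parseval_twist with `g = f`, `ψ = φ`: the terms for `0` and `φ` are `- 3 * 2^c * 2^c τ`, all
others are `≥ 0`, so `2^(c+4) (∑_K f^2 - ∑_E f^2) ≥ - 6 τ 2^(2c)`, i.e.
`8 (∑_E f^2 - ∑_K f^2) ≤ 3 τ 2^c`.
(3) `2 ∑_E f = 2 (tot f - tot w) = 2^c (3 + τ)`, `∑_E f^2 ≥ ∑_E f` (integers), `∑_K f^2 ≤ 2 tot w`.
So `4 (3 + τ) ≤ 8 (3 - τ) + 3 τ`, `9 τ ≤ 12`, `τ = 1`; `∑_K f = 2^c`, `∑_E f = 2^(c+1)`.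
(4) On `K`, `f^2 = f + 2 * [x ∈ P]`, so `∑_K f^2 = 2^c + 2 |P|`, and from (2)
`16 * 2^c ≤ 8 * 2^c + 16 |P| + 3 * 2^c`, `16 |P| ≥ 5 * 2^c`; also `2 |P| ≤ 2^c`.  As `|P|` is a
power of two, `|P| = 2^(c-1)` and `f = 0` on `K \ P`.
(5) `f` is `P`-periodic: `f' y = f y + sg (φ y)` is Psd (`ft_sg`: `- 2^c + 2^(c+4) ≥ 0` at `φ`),
`f' 0 = 3 = f' x` for `x ∈ P`; psd_period; and `sg (φ (y + x)) = sg (φ y)`.
(6) `S = {y | φ y = 1 ∧ f y ≠ 0}` is `P`-periodic and nonempty, `|S| ≤ ∑_E f = 4 |P|`.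
coset_span (`n = 3`) gives `U`, `finrank U ≤ c + 2`.  `U ⊓ K` is a proper subspace of `K`
(dimension `c + 3`), so some nonzero functional of `K` vanishes on it; extend it to `ψ` on `W`
(exists_ext): `ψ ≠ 0`, `ψ ≠ φ`, `ψ + φ ≠ 0`, `ψ + φ ≠ φ`, `ψ` vanishes on `P` and on all
`y + y'` with `y, y' ∈ S` (they are in `U` and in `K`): `ψ` is constant on `S`, say
`sg (ψ y) = ε`.
(7) `ft f ψ = ∑_P 2 + ε ∑_E f = 2^c + ε 2^(c+1)`, `ft f (ψ + φ) = 2^c - ε 2^(c+1)`; one of them is
negative: contradiction.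
-/
import Pool.Agent.GR72.Psd
import Pool.Agent.GR72.Hyp
import Pool.Agent.GR72.Cosets

namespace Pool.Agent.GR72

open Module

private theorem ft_split {W : Type} [AddCommGroup W] [Module (ZMod 2) W] [Fintype W]
    (f : W → ℤ) (φ ψ : Dual (ZMod 2) W) :
    ft f ψ = ∑ x ∈ Finset.univ.filter (fun x => φ x = 0), sg (ψ x) * f x +
      ∑ x ∈ Finset.univ.filter (fun x => ¬ φ x = 0), sg (ψ x) * f x := by
  rw [ft_eq_sum]
  exact (Finset.sum_filter_add_sum_filter_not _ _ _).symm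

theorem base_two : Base 2 := by
  classical
  intro W _ _ _ c f φ τ hc hdim hf0 hf2 htot hφ hτ hftφ hpos
  haveI := Fintype.ofFinite W
  set K := Finset.univ.filter (fun x : W => φ x = 0) with hK
  set E := Finset.univ.filter (fun x : W => ¬ φ x = 0) with hE
  set Q : ℤ := 2 ^ c with hQ
  have hQ0 : 0 < Q := by positivity
  have htot' : tot f = 3 * Q := by rw [htot]; ring
  have hk4 : (2 : ℤ) ^ finrank (ZMod 2) W = 16 * Q := by
    rw [hdim, hQ, pow_add, pow_add]
    ring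
  -- sums
  have sK : ∀ x ∈ K, φ x = 0 := fun x hx => (Finset.mem_filter.1 hx).2
  have sE : ∀ x ∈ E, φ x = 1 := fun x hx =>
    (zmod_cases (φ x)).resolve_left (Finset.mem_filter.1 hx).2
  have hS1 : ∑ x ∈ K, f x + ∑ x ∈ E, f x = 3 * Q := by
    rw [← htot', tot_eq_sum]
    exact Finset.sum_filter_add_sum_filter_not _ _ _
  have hS2 : ∑ x ∈ K, f x - ∑ x ∈ E, f x = -(Q * τ) := by
    rw [← hftφ, ft_split f φ φ, sub_eq_add_neg, ← Finset.sum_neg_distrib]
    congr 1
    · refine Finset.sum_congr rfl fun x hx => ?_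
      rw [sK x hx, sg_zero, one_mul]
    · refine Finset.sum_congr rfl fun x hx => ?_
      rw [sE x hx, sg_one]
      ring
  -- (1)
  have hφφ : ∀ ψ : Dual (ZMod 2) W, ψ + φ + φ = ψ := fun ψ => by
    rw [add_assoc, add_self_eq, add_zero]
  have hne : ∀ ψ : Dual (ZMod 2) W, ψ ≠ 0 → ψ + φ ≠ φ := fun ψ h h' => h (by
    have h1 : ψ + φ + φ = φ + φ := congrArg (· + φ) h'

    rw [hφφ, add_self_eq] at h1
    exact h1)
  have hφres : φ.domRestrict (LinearMap.ker φ) = 0 := by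
    ext x
    exact x.2
  have hw : Psd (res f φ) := by
    intro ψ'
    obtain ⟨ψ, hψ⟩ := exists_ext φ ψ'
    by_cases h0 : ψ' = 0
    · rw [h0, ft_zero]
      exact finsum_nonneg fun x => hf0 _
    · have h1 : ψ ≠ φ := by
        rintro rfl
        exact h0 (by rw [← hψ, hφres])
      have h2 : ψ ≠ 0 := by
        rintro rfl
        exact h0 (by rw [← hψ]; ext x; rfl)
      have h3 := two_mul_ft_res f ψ φ
      rw [hψ] at h3
      have h4 := hpos ψ h1
      have h5 := hpos (ψ + φ) (hne ψ h2)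
      linarith
  have hle2 : ∀ x ∈ K, f x ≤ 2 := by
    intro x hx
    have h1 := psd_abs_le hw ⟨x, sK x hx⟩
    rw [res_zero, hf2] at h1
    exact (abs_le.1 h1).2
  -- (2)
  set A : ℤ := ∑ x ∈ K, f x * f x - ∑ x ∈ E, f x * f x with hA
  have hpar : -(3 * τ * Q) ≤ 8 * A := by
    haveI : Fintype (Dual (ZMod 2) W) := Fintype.ofFinite _
    have h1 := parseval_twist f f φ
    rw [finsum_eq_sum_of_fintype, finsum_eq_sum_of_fintype, hk4] at h1
    have h2 : ∑ x, sg (φ x) * (f x * f x) = A := by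
      rw [hA, ← Finset.sum_filter_add_sum_filter_not Finset.univ (fun x : W => φ x = 0),
        sub_eq_add_neg, ← Finset.sum_neg_distrib]
      congr 1
      · refine Finset.sum_congr rfl fun x hx => ?_
        rw [sK x hx, sg_zero, one_mul]
      · refine Finset.sum_congr rfl fun x hx => ?_
        rw [sE x hx, sg_one]
        ring
    rw [h2] at h1
    have h3 : ∑ ψ : Dual (ZMod 2) W,
        ((if ψ = 0 then -(3 * Q * (Q * τ)) else 0) + (if ψ = φ then -(3 * Q * (Q * τ)) else 0)) ≤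
        ∑ ψ : Dual (ZMod 2) W, ft f ψ * ft f (ψ + φ) := by
      refine Finset.sum_le_sum fun ψ _ => ?_
      by_cases h0 : ψ = 0
      · subst h0
        rw [if_pos rfl, if_neg (Ne.symm hφ), ft_zero, zero_add, htot', hftφ]
        apply le_of_eq
        ring
      · by_cases h4 : ψ = φ
        · subst h4
          rw [if_neg h0, if_pos rfl, add_self_eq, ft_zero, htot', hftφ]
          apply le_of_eq
          ring
        · rw [if_neg h0, if_neg h4, add_zero]
          exact mul_nonneg (hpos ψ h4) (hpos _ (hne ψ h0))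
    rw [Finset.sum_add_distrib, Finset.sum_ite_eq' Finset.univ (0 : Dual (ZMod 2) W),
      Finset.sum_ite_eq' Finset.univ φ, if_pos (Finset.mem_univ _), if_pos (Finset.mem_univ _),
      h1] at h3
    have h5 : Q * (-(3 * τ * Q)) ≤ Q * (8 * A) := by nlinarith
    exact le_of_mul_le_mul_left h5 hQ0
  -- (3)
  have hE2 : ∑ x ∈ E, f x ≤ ∑ x ∈ E, f x * f x := by
    refine Finset.sum_le_sum fun x _ => ?_
    have := hf0 x
    nlinarith [sq_nonneg (f x), mul_self_nonneg (f x - 1), Int.le_self_sq (f x)]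
  have hK2 : ∑ x ∈ K, f x * f x ≤ 2 * ∑ x ∈ K, f x := by
    rw [Finset.mul_sum]
    exact Finset.sum_le_sum fun x hx => mul_le_mul_of_nonneg_right (hle2 x hx) (hf0 x)
  have hτ1 : τ = 1 := by
    have h1 : 9 * (Q * τ) ≤ 12 * Q := by
      have h2 : 3 * τ * Q = 3 * (Q * τ) := by ring
      linarith
    have h2 : Q * (9 * τ) ≤ Q * 12 := by linarith
    have h3 := le_of_mul_le_mul_left h2 hQ0
    omega
  subst hτ1
  have hKs : ∑ x ∈ K, f x = Q := by linarith
  have hEs : ∑ x ∈ E, f x = 2 * Q := by linarith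
  -- (4)
  obtain ⟨P', hP'⟩ := perSub hw
  set P := P'.map (LinearMap.ker φ).subtype with hP
  have hPmem : ∀ x, x ∈ P ↔ φ x = 0 ∧ f x = 2 := by
    intro x
    rw [hP, Submodule.mem_map]
    constructor
    · rintro ⟨y, hy, rfl⟩
      rw [hP', res_zero, hf2] at hy
      exact ⟨y.2, hy⟩
    · rintro ⟨h1, h2⟩
      refine ⟨⟨x, h1⟩, ?_, rfl⟩
      rw [hP', res_zero, hf2]
      exact h2
  set PS := K.filter (fun x => f x = 2) with hPS
  have hPcard : (PS.card : ℤ) = 2 ^ finrank (ZMod 2) P := by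
    have h1 := card_eq P
    have h2 : Nat.card P = PS.card := by
      rw [← Nat.card_eq_fintype_card (α := PS) |>.trans (Fintype.card_coe PS)]
      refine Nat.card_congr (Equiv.subtypeEquivRight fun x => ?_)
      rw [hPmem, hPS, Finset.mem_filter, hK, Finset.mem_filter]
      simp
    rw [← h2, h1]
    push_cast
    ring
  set p := finrank (ZMod 2) P with hp
  have hsq : ∑ x ∈ K, f x * f x = Q + 2 * PS.card := by
    have h1 : ∀ x ∈ K, f x * f x = f x + 2 * (if f x = 2 then 1 else 0) := by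
      intro x hx
      have h2 := hf0 x
      have h3 := hle2 x hx
      by_cases h4 : f x = 2
      · rw [if_pos h4, h4]
        norm_num
      · rw [if_neg h4]
        have h5 : f x = 0 ∨ f x = 1 := by omega
        rcases h5 with h5 | h5 <;> rw [h5] <;> norm_num
    rw [Finset.sum_congr rfl h1, Finset.sum_add_distrib, hKs, ← Finset.mul_sum, Finset.sum_boole]
  have hP1 : 5 * Q ≤ 16 * (PS.card : ℤ) := by
    rw [hsq] at hA
    linarith
  have hPSsum : ∑ x ∈ PS, f x = 2 * PS.card := by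
    rw [Finset.sum_congr rfl fun x hx => (Finset.mem_filter.1 hx).2, Finset.sum_const,
      nsmul_eq_mul]
    ring
  have hP2 : 2 * (PS.card : ℤ) ≤ Q := by
    rw [← hPSsum, ← hKs]
    exact Finset.sum_le_sum_of_subset_of_nonneg (Finset.filter_subset _ _) fun x _ _ => hf0 x
  have hpc : p + 1 = c := by
    rw [hPcard] at hP1 hP2
    have h1 : (2 : ℤ) ^ (p + 1) ≤ 2 ^ c := by
      rw [pow_succ]
      linarith
    have h2 : (2 : ℤ) ^ (c + 2) < 2 ^ (p + 4) := by
      rw [pow_add, pow_add]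
      have : (2 : ℤ) ^ c = Q := rfl
      rw [this]
      norm_num
      linarith
    have h3 : p + 1 ≤ c := (pow_le_pow_iff_right₀ (by norm_num : (1 : ℤ) < 2)).1 h1
    have h4 : c + 2 < p + 4 := (pow_lt_pow_iff_right₀ (by norm_num : (1 : ℤ) < 2)).1 h2
    omega
  have hPS2 : 2 * (PS.card : ℤ) = Q := by
    rw [hPcard, hQ, ← hpc, pow_succ]
    ring
  have hzero : ∀ x ∈ K, f x ≠ 2 → f x = 0 := by
    intro x hx hx2
    by_contra h0
    have h1 : ∑ x ∈ PS, f x + f x ≤ ∑ x ∈ K, f x := by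
      have h2 : insert x PS ⊆ K := by
        intro y hy
        rw [Finset.mem_insert] at hy
        rcases hy with rfl | hy
        · exact hx
        · exact Finset.filter_subset _ _ hy
      have h3 : x ∉ PS := fun h => hx2 (Finset.mem_filter.1 h).2
      have h4 := Finset.sum_le_sum_of_subset_of_nonneg h2 (f := f) fun x _ _ => hf0 x
      rw [Finset.sum_insert h3] at h4
      linarith
    rw [hPSsum, hPS2, hKs] at h1
    have := hf0 x
    omega
  -- (5)
  have hper : ∀ x ∈ P, ∀ y, f (y + x) = f y := by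
    have hf' : Psd (fun y => f y + sg (φ y)) := by
      intro ψ
      rw [ft_add, ft_sg]
      by_cases h : ψ = φ
      · rw [if_pos h, h, hftφ, hk4]
        linarith
      · rw [if_neg h, add_zero]
        exact hpos ψ h
    intro x hx y
    obtain ⟨hx1, hx2⟩ := (hPmem x).1 hx
    have h1 := psd_period hf' (x := x) (by
      show f x + sg (φ x) = f 0 + sg (φ 0)
      rw [hx1, hx2, hf2, map_zero]
      norm_num) y
    have h2 : f (y + x) + sg (φ (y + x)) = f y + sg (φ y) := h1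
    rw [map_add, hx1, add_zero] at h2
    linarith
  -- (6)
  set S : Set W := {y | φ y = 1 ∧ f y ≠ 0} with hS
  have hSper : ∀ x ∈ S, ∀ q ∈ P, x + q ∈ S := by
    rintro x ⟨h1, h2⟩ q hq
    refine ⟨?_, ?_⟩
    · rw [map_add, ((hPmem q).1 hq).1, add_zero, h1]
    · rw [hper q hq x]
      exact h2
  have hScard : S.ncard ≤ (3 + 1) * 2 ^ finrank (ZMod 2) P := by
    have h1 : S = ((E.filter (fun x => f x ≠ 0) : Finset W) : Set W) := by
      ext x
      rw [hS, Finset.mem_coe, Finset.mem_filter, hE, Finset.mem_filter]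
      constructor
      · rintro ⟨h1, h2⟩
        exact ⟨⟨Finset.mem_univ _, by rw [h1]; decide⟩, h2⟩
      · rintro ⟨⟨_, h1⟩, h2⟩
        exact ⟨(zmod_cases (φ x)).resolve_left h1, h2⟩
    rw [h1, Set.ncard_coe_finset]
    have h2 : ((E.filter (fun x => f x ≠ 0)).card : ℤ) ≤ ∑ x ∈ E, f x := by
      calc ((E.filter (fun x => f x ≠ 0)).card : ℤ) = ∑ x ∈ E.filter (fun x => f x ≠ 0), 1 := by
            simp
        _ ≤ ∑ x ∈ E.filter (fun x => f x ≠ 0), f x := by
            refine Finset.sum_le_sum fun x hx => ?_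
            have h3 := hf0 x
            have h4 := (Finset.mem_filter.1 hx).2
            omega
        _ ≤ ∑ x ∈ E, f x :=
            Finset.sum_le_sum_of_subset_of_nonneg (Finset.filter_subset _ _) fun x _ _ => hf0 x
    have h3 : (((3 + 1) * 2 ^ finrank (ZMod 2) P : ℕ) : ℤ) = 2 * Q := by
      push_cast
      rw [← hp, hQ, ← hpc, pow_succ]
      ring
    rw [hEs, ← h3] at h2
    exact_mod_cast h2
  obtain ⟨U, hPU, hUdim, hU⟩ := coset_span P 3 S hSper hScard
  have hlt : U.comap (LinearMap.ker φ).subtype < ⊤ := by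
    rw [lt_top_iff_ne_top]
    intro htop
    have h1 : LinearMap.ker φ ≤ U := by
      intro x hx
      have h2 : (⟨x, hx⟩ : LinearMap.ker φ) ∈ U.comap (LinearMap.ker φ).subtype := by
        rw [htop]
        exact Submodule.mem_top
      exact h2
    have h2 := Submodule.finrank_mono h1
    have h3 := finrank_ker hφ
    omega
  obtain ⟨ψ', hψ'0, hψ'U⟩ := Submodule.exists_le_ker_of_lt_top _ hlt
  obtain ⟨ψ, hψ⟩ := exists_ext φ ψ'
  have hψU : ∀ x, φ x = 0 → x ∈ U → ψ x = 0 := by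
    intro x hx hxU
    have h1 : (⟨x, hx⟩ : LinearMap.ker φ) ∈ LinearMap.ker ψ' := hψ'U hxU
    rw [LinearMap.mem_ker, ← hψ] at h1
    exact h1
  have hψφ : ψ ≠ φ := by
    rintro rfl
    exact hψ'0 (by rw [← hψ, hφres])
  have hψ0 : ψ ≠ 0 := by
    rintro rfl
    exact hψ'0 (by rw [← hψ]; ext x; rfl)
  -- (7)
  obtain ⟨y0, hy0⟩ : S.Nonempty := by
    rw [Set.nonempty_iff_ne_empty]
    intro hemp
    have h1 : ∑ x ∈ E, f x = 0 := by
      refine Finset.sum_eq_zero fun x hx => ?_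
      by_contra h0
      have h2 : x ∈ S := ⟨sE x hx, h0⟩
      rw [hemp] at h2
      exact h2
    linarith
  have hKψ : ∑ x ∈ K, sg (ψ x) * f x = Q := by
    rw [← hKs]
    refine Finset.sum_congr rfl fun x hx => ?_
    by_cases h : f x = 2
    · have h1 : x ∈ P := (hPmem x).2 ⟨sK x hx, h⟩
      rw [hψU x (sK x hx) (hPU h1), sg_zero, one_mul]
    · rw [hzero x hx h, mul_zero]
  have hEψ : ∑ x ∈ E, sg (ψ x) * f x = sg (ψ y0) * (2 * Q) := by
    rw [← hEs, Finset.mul_sum]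
    refine Finset.sum_congr rfl fun x hx => ?_
    by_cases h : f x = 0
    · rw [h, mul_zero, mul_zero]
    · have h1 : x ∈ S := ⟨sE x hx, h⟩
      have h2 : ψ (x + y0) = 0 := hψU _ (by rw [map_add, h1.1, hy0.1]; decide) (hU x h1 y0 hy0)
      have h3 : ψ x = ψ y0 := by
        rw [map_add] at h2
        have h4 : ψ x = -ψ y0 := eq_neg_of_add_eq_zero_left h2
        rw [h4]
        generalize ψ y0 = z
        revert z
        decide
      rw [h3]
  have hf1 := hpos ψ hψφ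
  have hf2' := hpos (ψ + φ) (hne ψ hψ0)
  rw [ft_split f φ ψ] at hf1
  rw [ft_split f φ (ψ + φ)] at hf2'
  have h8 : ∑ x ∈ K, sg ((ψ + φ) x) * f x = ∑ x ∈ K, sg (ψ x) * f x := by
    refine Finset.sum_congr rfl fun x hx => ?_
    rw [LinearMap.add_apply, sK x hx, add_zero]
  have h9 : ∑ x ∈ E, sg ((ψ + φ) x) * f x = -∑ x ∈ E, sg (ψ x) * f x := by
    rw [← Finset.sum_neg_distrib]
    refine Finset.sum_congr rfl fun x hx => ?_
    rw [LinearMap.add_apply, sE x hx, sg_add, sg_one]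
    ring
  have h10 : 0 ≤ ∑ x ∈ K, sg (ψ x) * f x + ∑ x ∈ E, sg (ψ x) * f x := hf1
  have h11 : 0 ≤ ∑ x ∈ K, sg ((ψ + φ) x) * f x + ∑ x ∈ E, sg ((ψ + φ) x) * f x := hf2'
  rw [h8, h9] at h11
  rw [hKψ, hEψ] at h10 h11
  rcases sg_cases (ψ y0) with h | h
  · rw [h] at h11
    linarith
  · rw [h] at h10
    linarith

end Pool.Agent.GR72
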