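/-
GR72/Lift: integer valued functions with prescribed Fourier transform (needs Basic).
`u y = (H y + t * sg (φ₀ y)) / 2^k`, `H y = ∑ φ, sg (φ y) * F φ`; use `dual_inversion`, `ft_sg`
and cancel `2^k`.
-/
import Pool.Agent.GR72.Basic

namespace Pool.Agent.GR72

open Module

variable {W : Type} [AddCommGroup W] [Module (ZMod 2) W] [Finite W]

open Classical in
theorem lift_fun (F : Dual (ZMod 2) W → ℤ) (φ₀ : Dual (ZMod 2) W) (t : ℤ)
    (h : ∀ y : W, (2 : ℤ) ^ finrank (ZMod 2) W ∣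
      (∑ᶠ φ : Dual (ZMod 2) W, sg (φ y) * F φ) + t * sg (φ₀ y)) :
    ∃ u : W → ℤ, (∀ φ, ft u φ = F φ + if φ = φ₀ then t else 0) ∧
      2 ^ finrank (ZMod 2) W * u 0 = (∑ᶠ φ : Dual (ZMod 2) W, F φ) + t := by
  choose u hu using h
  have hp : (2 : ℤ) ^ finrank (ZMod 2) W ≠ 0 := by positivity
  refine ⟨u, ?_, ?_⟩
  · intro φ
    apply mul_left_cancel₀ hp
    rw [← ft_mul]
    have e : (fun x => 2 ^ finrank (ZMod 2) W * u x) = fun y : W =>
        (∑ᶠ φ : Dual (ZMod 2) W, sg (φ y) * F φ) + t * sg (φ₀ y) := by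
      funext y
      exact (hu y).symm
    rw [e, ft_add, dual_inversion, ft_mul, ft_sg]
    split_ifs <;> ring
  · rw [← hu 0]
    simp [sg]

end Pool.Agent.GR72
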