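/-
GR72/Twist: functions that change sign modulo `M` under a spanning set (needs only Defs/Basic).
`hZ` says that the annihilator of `Z` in the dual is `0`, i.e. `Z` spans `W`.
* `twist_one`: the set `{x | ∀ y, M ∣ h (y + x) - sg (φ x) * h y}` contains `Z`
  (there `sg (φ x) = -1`) and `0` and is closed under addition, so it is all of `W` (span
  induction); put `y = 0`.
* `twist_none`: `A = {x | ∀ y, M ∣ h (y+x) - h y}`, `B = {x | ∀ y, M ∣ h (y+x) + h y} ⊇ Z`.
  `A ∪ B` is closed under addition and contains `Z`, so it is `W`; `A` is a subspace.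
  If `A ∩ B` is empty then `A ≠ W` has index two (`B + B ⊆ A`, `Z` nonempty: if `Z` were empty then
  `W = 0` and `φ = 0` would satisfy `∀ x ∈ Z, φ x = 1`), and the functional with kernel `A` is `1`
  on `B ⊇ Z`: contradiction with `hno`.
  (Alternative: take a basis of `W` contained in `Z` and the functional `φ` equal to `1` on it; by
  the argument of twist_one `M ∣ h y - sg (φ y) * h 0` for all `y`; by `hno` some `x ∈ Z` has
  `φ x = 0`; then `M ∣ h x + h 0` and `M ∣ h x - h 0`.)
  So some `x` satisfies both: `M ∣ 2 h y` for all `y`, then `A = B = W` and `M ∣ h y - h 0`.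
-/
import Pool.Agent.GR72.Basic

namespace Pool.Agent.GR72

open Module

variable {W : Type} [AddCommGroup W] [Module (ZMod 2) W] [Finite W]

omit [Finite W] in
/-- A set with zero annihilator spans. -/
theorem span_eq_top_of_ann (Z : Set W)
    (hZ : ∀ φ : Dual (ZMod 2) W, (∀ x ∈ Z, φ x = 0) → φ = 0) :
    Submodule.span (ZMod 2) Z = ⊤ := by
  by_contra hne
  obtain ⟨x, hx⟩ : ∃ x, x ∉ Submodule.span (ZMod 2) Z := by
    by_contra hc
    push Not at hc
    exact hne (Submodule.eq_top_iff'.2 hc)
  obtain ⟨f, hf, hfx⟩ := Submodule.exists_le_ker_of_notMem hx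
  have h0 := hZ f (fun z hz => LinearMap.mem_ker.1 (hfx (Submodule.subset_span hz)))
  exact hf (by rw [h0]; rfl)

omit [Finite W] in
/-- Every element of the `ZMod 2`-span is a sum: induction principle. -/
theorem span_two_induction {Z : Set W} (hspan : Submodule.span (ZMod 2) Z = ⊤) (P : W → Prop)
    (h0 : P 0) (hZ : ∀ x ∈ Z, P x) (hadd : ∀ x y, P x → P y → P (x + y)) (x : W) : P x := by
  have hx : x ∈ Submodule.span (ZMod 2) Z := by rw [hspan]; trivial
  induction hx using Submodule.span_induction with
  | mem x hx => exact hZ x hx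
  | zero => exact h0
  | add x y _ _ hx hy => exact hadd x y hx hy
  | smul a x _ hx =>
    rcases zmod_cases a with h | h
    · rw [h, zero_smul]; exact h0
    · rw [h, one_smul]; exact hx

theorem twist_one (h : W → ℤ) (M : ℤ) (Z : Set W)
    (hZ : ∀ φ : Dual (ZMod 2) W, (∀ x ∈ Z, φ x = 0) → φ = 0)
    (H : ∀ x ∈ Z, ∀ y, M ∣ h y + h (y + x)) (φ : Dual (ZMod 2) W) (hφ : ∀ x ∈ Z, φ x = 1)
    (y : W) : M ∣ h y - sg (φ y) * h 0 := by
  have key : ∀ x : W, ∀ y, M ∣ h (y + x) - sg (φ x) * h y := by
    refine span_two_induction (span_eq_top_of_ann Z hZ) _ ?_ ?_ ?_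
    · intro y
      simp [sg]
    · intro x hx y
      rw [hφ x hx, sg_one]
      have := H x hx y
      have e : h (y + x) - -1 * h y = h y + h (y + x) := by ring
      rw [e]
      exact this
    · intro a b ha hb y
      have h1 := ha y
      have h2 := hb (y + a)
      rw [map_add, sg_add]
      have e : h (y + (a + b)) - sg (φ a) * sg (φ b) * h y
          = (h (y + a + b) - sg (φ b) * h (y + a)) + sg (φ b) * (h (y + a) - sg (φ a) * h y) := by
        rw [add_assoc]; ring
      rw [e]
      exact dvd_add h2 (Dvd.dvd.mul_left h1 _)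
  have := key y 0
  rwa [zero_add] at this

theorem twist_none (h : W → ℤ) (M : ℤ) (Z : Set W)
    (hZ : ∀ φ : Dual (ZMod 2) W, (∀ x ∈ Z, φ x = 0) → φ = 0)
    (H : ∀ x ∈ Z, ∀ y, M ∣ h y + h (y + x))
    (hno : ¬ ∃ φ : Dual (ZMod 2) W, ∀ x ∈ Z, φ x = 1) :
    (∀ y, M ∣ h y - h 0) ∧ M ∣ 2 * h 0 := by
  have hspan := span_eq_top_of_ann Z hZ
  -- the two sets
  have hAB : ∀ x : W, (∀ y, M ∣ h (y + x) - h y) ∨ (∀ y, M ∣ h (y + x) + h y) := by
    refine span_two_induction hspan _ ?_ ?_ ?_
    · left
      intro y
      simp
    · intro x hx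
      right
      intro y
      have := H x hx y
      rwa [add_comm] at this
    · intro a b ha hb
      rcases ha with ha | ha <;> rcases hb with hb | hb
      · left
        intro y
        have e : h (y + (a + b)) - h y = (h (y + a + b) - h (y + a)) + (h (y + a) - h y) := by
          rw [add_assoc]; ring
        rw [e]
        exact dvd_add (hb _) (ha _)
      · right
        intro y
        have e : h (y + (a + b)) + h y = (h (y + a + b) + h (y + a)) - (h (y + a) - h y) := by
          rw [add_assoc]; ring
        rw [e]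
        exact dvd_sub (hb _) (ha _)
      · right
        intro y
        have e : h (y + (a + b)) + h y = (h (y + a + b) - h (y + a)) + (h (y + a) + h y) := by
          rw [add_assoc]; ring
        rw [e]
        exact dvd_add (hb _) (ha _)
      · left
        intro y
        have e : h (y + (a + b)) - h y = (h (y + a + b) + h (y + a)) - (h (y + a) + h y) := by
          rw [add_assoc]; ring
        rw [e]
        exact dvd_sub (hb _) (ha _)
  have hA0 : ∀ y, M ∣ h (y + 0) - h y := by intro y; simp
  have hAadd : ∀ a b : W, (∀ y, M ∣ h (y + a) - h y) → (∀ y, M ∣ h (y + b) - h y) →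
      ∀ y, M ∣ h (y + (a + b)) - h y := by
    intro a b ha hb y
    have e : h (y + (a + b)) - h y = (h (y + a + b) - h (y + a)) + (h (y + a) - h y) := by
      rw [add_assoc]; ring
    rw [e]
    exact dvd_add (hb _) (ha _)
  -- some `x` is in both
  have hx : ∃ x : W, (∀ y, M ∣ h (y + x) - h y) ∧ (∀ y, M ∣ h (y + x) + h y) := by
    by_contra hc
    push Not at hc
    apply hno
    classical
    -- the functional with kernel A
    let A : W → Prop := fun x => ∀ y, M ∣ h (y + x) - h y
    have hnotA : ∀ x, ¬ A x → ∀ y, M ∣ h (y + x) + h y := by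
      intro x hx
      rcases hAB x with h1 | h1
      · exact absurd h1 hx
      · exact h1
    have hBA : ∀ x, (∀ y, M ∣ h (y + x) + h y) → ¬ A x := by
      intro x hx hA
      obtain ⟨y, hy⟩ := hc x hA
      exact hy (hx y)
    let f : W → ZMod 2 := fun x => if A x then 0 else 1
    have hf : ∀ a b, f (a + b) = f a + f b := by
      intro a b
      show (if A (a + b) then (0 : ZMod 2) else 1) = (if A a then 0 else 1) + (if A b then 0 else 1)
      by_cases ha : A a <;> by_cases hb : A b
      · rw [if_pos ha, if_pos hb, if_pos (hAadd a b ha hb)]; rfl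
      · have hab : ¬ A (a + b) := by
          intro hab
          apply hb
          have := hAadd a (a + b) ha hab
          rwa [← add_assoc, add_self_eq, zero_add] at this
        rw [if_pos ha, if_neg hb, if_neg hab]; rfl
      · have hab : ¬ A (a + b) := by
          intro hab
          apply ha
          have := hAadd (a + b) b hab hb
          rwa [add_assoc, add_self_eq, add_zero] at this
        rw [if_neg ha, if_pos hb, if_neg hab]; rfl
      · have hab : A (a + b) := by
          intro y
          have e : h (y + (a + b)) - h y = (h (y + a + b) + h (y + a)) - (h (y + a) + h y) := by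
            rw [add_assoc]; ring
          rw [e]
          exact dvd_sub (hnotA b hb _) (hnotA a ha _)
        rw [if_neg ha, if_neg hb, if_pos hab]; rfl
    let F : W →+ ZMod 2 := AddMonoidHom.mk' f hf
    refine ⟨F.toZModLinearMap 2, ?_⟩
    intro x hx
    show f x = 1
    have hx' : ¬ A x := hBA x (fun y => by
      have := H x hx y
      rwa [add_comm] at this)
    exact if_neg hx'
  obtain ⟨x, hxA, hxB⟩ := hx
  have h2 : ∀ y, M ∣ 2 * h y := by
    intro y
    have e : 2 * h y = (h (y + x) + h y) - (h (y + x) - h y) := by ring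
    rw [e]
    exact dvd_sub (hxB y) (hxA y)
  refine ⟨?_, h2 0⟩
  intro y
  rcases hAB y with h1 | h1
  · have := h1 0
    rwa [zero_add] at this
  · have h3 := h1 0
    rw [zero_add] at h3
    have e : h y - h 0 = (h y + h 0) - 2 * h 0 := by ring
    rw [e]
    exact dvd_sub h3 (h2 0)

end Pool.Agent.GR72
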