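/-
GR72/CaseB: some functional `φ₀` is `1` on all zeros of `v` (needs StepA, Twist, Lift, RunSplit).
Names: `k = finrank W`, `V = 2^c (2^(q+1) t + (2^q - 1))`, `M = 2^(c+q+1)`, `M ∣ 2^k` by k_ge,
`F φ = ft v φ % M`, `H = Hm v M`, `Z = {x | v x = 0}`, `χ y = sg (φ₀ y)`.
`Z` separates (zeros_sep, S.lt).  `φ₀ ≠ 0`: `k ≥ 1`, so there is a nonzero functional, by zeros_sep
`Z` is nonempty, and `φ₀` is `1` there.
By stepA_one and twist_one (modulus `2^k`) `2^k ∣ H y - sg (φ₀ y) * H 0`.  Let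
`t0 = (- H 0) % 2^k`, `0 ≤ t0 < 2^k`; then `2^k ∣ H y + t0 * sg (φ₀ y)` for all `y`, lift_fun gives
`u` with `ft u φ = F φ + (if φ = φ₀ then t0 else 0)`.
`M ∣ t0`: `H 0 = ∑ F φ`, each `F φ` is congruent to `ft v φ` modulo `M` and
`∑ ft v φ = 2^k v 0` (inversion_zero), so `M ∣ H 0`.
(a) `t0 = 0`: splits_of_mod.
(b) `t0 > 0`, so `t0 ≥ M` and `t0 ≤ 2^k - M`.  `u` is Psd with total `F 0 = 2^c (2^q - 1)`
(`φ₀ ≠ 0`), `w = v + χ - u` is Psd (`ft_sg`: `ft w φ₀ = ft v φ₀ - F φ₀ + 2^k - t0`, otherwise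
`ft v φ - F φ`) with total `2^(c+q+1) t`; `u 0 + w 0 = ds V + 1 = ds t + q + 1`, ds_le:
`q ≤ u 0`, `ds t ≤ w 0`.
 (b1) `u 0 = q`: `Gr u (2^c (2^q - 1))`, gr_ft_le at `φ₀`: `F φ₀ + t0 ≤ 2^c (2^q - 1) < M`,
 contradiction.
 (b2) `u 0 = q + 1`, `w 0 = ds t`.  `f = u - χ`: `f 0 = q`, `ft f φ = F φ` for `φ ≠ φ₀`,
 `ft f φ₀ = F φ₀ + t0 - 2^k < M + (2^k - M) - 2^k = 0`, `ft v φ₀ - ft f φ₀` is divisible by `M`;
 `v - f = w`, so `Gr (v - f) (2^(c+q+1) t)`.  This is `Bad`.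
-/
import Pool.Agent.GR72.StepA
import Pool.Agent.GR72.Twist
import Pool.Agent.GR72.Lift

namespace Pool.Agent.GR72

open Module

theorem caseB {W : Type} [AddCommGroup W] [Module (ZMod 2) W] [Finite W] {q c t : ℕ}
    {v : W → ℤ} (S : Sit q c t v) (IH : RunDim q (finrank (ZMod 2) W - 1))
    {φ₀ : Dual (ZMod 2) W} (h1 : ∀ x, v x = 0 → φ₀ x = 1) :
    Splits q c v ∨ ∃ f : W → ℤ, Bad q c t v φ₀ f := by
  classical
  have hk := k_ge S.ht S.lt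
  set k := finrank (ZMod 2) W with hkdef
  have hM0 : (0 : ℤ) < 2 ^ (c + q + 1) := by positivity
  have hK0 : (0 : ℤ) < 2 ^ k := by positivity
  have hMk : (2 : ℤ) ^ (c + q + 1) ∣ 2 ^ k := pow_dvd_pow 2 (by omega)
  -- the zeros separate
  have hsep : ∀ φ : Dual (ZMod 2) W, φ ≠ 0 → ∃ x, v x = 0 ∧ φ x = 1 := fun φ hφ =>
    zeros_sep S.gr S.lt hφ
  have hφ0 : φ₀ ≠ 0 := by
    intro h0
    have : Nontrivial W := nontrivial_of_finrank_pos (R := ZMod 2) (by omega)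
    obtain ⟨x, hx⟩ := exists_ne (0 : W)
    obtain ⟨ψ, hψ⟩ := exists_dual_one hx
    have hψ0 : ψ ≠ 0 := by
      rintro rfl
      simp at hψ
    obtain ⟨z, hz, _⟩ := hsep ψ hψ0
    have := h1 z hz
    rw [h0] at this
    simp at this
  have hZ : ∀ φ : Dual (ZMod 2) W, (∀ x ∈ {x | v x = 0}, φ x = 0) → φ = 0 := by
    intro φ hφ
    by_contra hne
    obtain ⟨x, hx, hx1⟩ := hsep φ hne
    rw [hφ x hx] at hx1
    exact absurd hx1 (by decide)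
  have hT : ∀ y, (2 : ℤ) ^ k ∣ Hm v (2 ^ (c + q + 1)) y - sg (φ₀ y) * Hm v (2 ^ (c + q + 1)) 0 :=
    fun y => twist_one (Hm v (2 ^ (c + q + 1))) (2 ^ k) {x | v x = 0} hZ
      (fun x hx y => stepA_one S IH hx y) φ₀ (fun x hx => h1 x hx) y
  set t0 : ℤ := (-Hm v (2 ^ (c + q + 1)) 0) % 2 ^ k with ht0
  have ht0n : 0 ≤ t0 := Int.emod_nonneg _ hK0.ne'
  have ht0k : t0 < 2 ^ k := Int.emod_lt_of_pos _ hK0
  have hH0 : (2 : ℤ) ^ k ∣ Hm v (2 ^ (c + q + 1)) 0 + t0 := by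
    have := Int.emod_add_mul_ediv (-Hm v (2 ^ (c + q + 1)) 0) (2 ^ k)
    refine ⟨-((-Hm v (2 ^ (c + q + 1)) 0) / 2 ^ k), ?_⟩
    rw [ht0]
    linarith
  have hL : ∀ y, (2 : ℤ) ^ k ∣
      (∑ᶠ φ : Dual (ZMod 2) W, sg (φ y) * (ft v φ % 2 ^ (c + q + 1))) + t0 * sg (φ₀ y) := by
    intro y
    have e1 : (∑ᶠ φ : Dual (ZMod 2) W, sg (φ y) * (ft v φ % 2 ^ (c + q + 1))) + t0 * sg (φ₀ y) =
        (Hm v (2 ^ (c + q + 1)) y - sg (φ₀ y) * Hm v (2 ^ (c + q + 1)) 0) +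
          sg (φ₀ y) * (Hm v (2 ^ (c + q + 1)) 0 + t0) := by
      have : Hm v (2 ^ (c + q + 1)) y =
        ∑ᶠ φ : Dual (ZMod 2) W, sg (φ y) * (ft v φ % 2 ^ (c + q + 1)) := rfl
      rw [← this]
      ring
    rw [e1]
    exact dvd_add (hT y) (Dvd.dvd.mul_left hH0 _)
  obtain ⟨u, hu, _⟩ := lift_fun (fun φ => ft v φ % 2 ^ (c + q + 1)) φ₀ t0 hL
  have hMH : (2 : ℤ) ^ (c + q + 1) ∣ Hm v (2 ^ (c + q + 1)) 0 := by
    have := Fintype.ofFinite (Dual (ZMod 2) W)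
    have e1 := inversion_zero v
    rw [finsum_eq_sum_of_fintype] at e1
    have e2 : Hm v (2 ^ (c + q + 1)) 0 = ∑ φ : Dual (ZMod 2) W, ft v φ % 2 ^ (c + q + 1) := by
      unfold Hm
      rw [finsum_eq_sum_of_fintype]
      refine Finset.sum_congr rfl fun φ _ => ?_
      rw [map_zero, sg_zero, one_mul]
    have e3 : (2 : ℤ) ^ (c + q + 1) ∣ ∑ φ : Dual (ZMod 2) W, ft v φ -
        ∑ φ : Dual (ZMod 2) W, ft v φ % 2 ^ (c + q + 1) := by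
      rw [← Finset.sum_sub_distrib]
      exact Finset.dvd_sum fun φ _ => Int.dvd_self_sub_emod
    rw [e1, ← e2] at e3
    have e4 : (2 : ℤ) ^ (c + q + 1) ∣ 2 ^ finrank (ZMod 2) W * v 0 := Dvd.dvd.mul_right hMk _
    have := dvd_sub e4 e3
    rwa [sub_sub_cancel] at this
  have hMt : (2 : ℤ) ^ (c + q + 1) ∣ t0 := by
    have := dvd_sub (hMk.trans hH0) hMH
    rwa [add_sub_cancel_left] at this
  rcases ht0n.eq_or_lt with hz | hpos
  · left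
    refine splits_of_mod (v2 := u) S.gr fun φ => ?_
    rw [hu φ, ← hz]
    simp
  right
  have hMle : (2 : ℤ) ^ (c + q + 1) ≤ t0 := Int.le_of_dvd hpos hMt
  have hMle' : (2 : ℤ) ^ (c + q + 1) ≤ 2 ^ k - t0 :=
    Int.le_of_dvd (by linarith) (dvd_sub hMk hMt)
  have hF0 : ∀ φ : Dual (ZMod 2) W, 0 ≤ ft v φ % 2 ^ (c + q + 1) := fun φ =>
    Int.emod_nonneg _ hM0.ne'
  have hFM : ∀ φ : Dual (ZMod 2) W, ft v φ % 2 ^ (c + q + 1) < 2 ^ (c + q + 1) := fun φ =>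
    Int.emod_lt_of_pos _ hM0
  have hFle : ∀ φ : Dual (ZMod 2) W, ft v φ % 2 ^ (c + q + 1) ≤ ft v φ := by
    intro φ
    have e1 := Int.emod_add_mul_ediv (ft v φ) (2 ^ (c + q + 1))
    have e2 : 0 ≤ ft v φ / 2 ^ (c + q + 1) := Int.ediv_nonneg (S.gr.psd φ) hM0.le
    have e3 := mul_nonneg hM0.le e2
    linarith
  have hupsd : Psd u := by
    intro φ
    rw [hu φ]
    have := hF0 φ
    split_ifs <;> linarith
  have htotv : ft v 0 = ((2 ^ c * (2 ^ (q + 1) * t + (2 ^ q - 1)) : ℕ) : ℤ) := by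
    rw [ft_zero, S.gr.tot]
  have hutot : tot u = ((2 ^ c * (2 ^ q - 1) : ℕ) : ℤ) := by
    rw [← ft_zero, hu 0, if_neg (Ne.symm hφ0), add_zero]
    rw [htotv, V_mod_int]
  set w : W → ℤ := fun x => (v x + sg (φ₀ x)) - u x with hw
  have hftw : ∀ φ : Dual (ZMod 2) W, ft w φ = ft v φ + (if φ = φ₀ then 2 ^ k else 0) -
      (ft v φ % 2 ^ (c + q + 1) + if φ = φ₀ then t0 else 0) := by
    intro φ
    rw [hw, ft_sub (fun x => v x + sg (φ₀ x)) u, ft_add v (fun x => sg (φ₀ x)), ft_sg, hu φ]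
  have hwpsd : Psd w := by
    intro φ
    rw [hftw φ]
    have a1 := hFle φ
    split_ifs <;> linarith
  have hwtot : tot w = ((2 ^ (c + q + 1) * t : ℕ) : ℤ) := by
    rw [← ft_zero, hftw 0, if_neg (Ne.symm hφ0), if_neg (Ne.symm hφ0), htotv, V_mod_int, V_eq]
    push_cast
    ring
  have hsum : u 0 + w 0 = ds t + q + 1 := by
    have e1 : w 0 = v 0 + sg (φ₀ 0) - u 0 := rfl
    rw [e1, map_zero, sg_zero, S.gr.zero, ds_V]
    push_cast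
    ring
  have hu0 := ds_le hupsd _ hutot
  have hw0 := ds_le hwpsd _ hwtot
  rw [ds_low] at hu0
  rw [ds_high] at hw0
  have hcase : u 0 = q ∨ u 0 = q + 1 := by omega
  rcases hcase with hq | hq
  · exfalso
    have hg : Gr u (2 ^ c * (2 ^ q - 1)) := ⟨hupsd, hutot, by rw [hq, ds_low]⟩
    have a1 := gr_ft_le hg φ₀
    rw [hu φ₀, if_pos rfl] at a1
    have a2 := hF0 φ₀
    have a3 : ((2 ^ c * (2 ^ q - 1) : ℕ) : ℤ) < 2 ^ (c + q) := by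
      exact_mod_cast low_lt q c
    have a4 : (2 : ℤ) ^ (c + q) ≤ 2 ^ (c + q + 1) := pow_le_pow_right₀ (by norm_num) (by omega)
    linarith
  · refine ⟨fun x => u x - sg (φ₀ x), ?_, hφ0, ?_, ?_, ?_, ?_, h1⟩
    · rw [map_zero, sg_zero, hq]
      ring
    · intro φ hφ
      rw [ft_sub u (fun x => sg (φ₀ x)), ft_sg, hu φ, if_neg hφ, if_neg hφ]
      ring
    · rw [ft_sub u (fun x => sg (φ₀ x)), ft_sg, hu φ₀, if_pos rfl, if_pos rfl]
      have := hFM φ₀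
      linarith
    · rw [ft_sub u (fun x => sg (φ₀ x)), ft_sg, hu φ₀, if_pos rfl, if_pos rfl]
      have e1 : ft v φ₀ - (ft v φ₀ % 2 ^ (c + q + 1) + t0 - 2 ^ finrank (ZMod 2) W) =
          (ft v φ₀ - ft v φ₀ % 2 ^ (c + q + 1)) + (2 ^ k - t0) := by
        rw [← hkdef]
        ring
      rw [e1]
      exact dvd_add Int.dvd_self_sub_emod (dvd_sub hMk hMt)
    · have e1 : (fun x => v x - (u x - sg (φ₀ x))) = w := by
        funext x
        simp only [hw]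
        ring
      rw [e1]
      refine ⟨hwpsd, hwtot, ?_⟩
      rw [ds_high]
      omega

end Pool.Agent.GR72
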