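/-
GR72/CaseN: no functional is `1` on all zeros of `v` (needs StepA, Twist, Lift, NoR, RunSplit).
Names: `k = finrank W`, `V = 2^c (2^(q+1) t + (2^q - 1))`, `M = 2^(c+q+1)`, `M ∣ 2^(k-1)` by
k_ge, `F φ = ft v φ % M`, `H = Hm v M`, `Z = {x | v x = 0}`.
`Z` separates (zeros_sep, S.lt), stepA_one gives the hypothesis `H` of twist_none with modulus
`2^k`: so `2^k ∣ H y - H 0` for all `y` and `2^k ∣ 2 * H 0`, i.e. `2^(k-1) ∣ H 0`.
(a) If `2^k ∣ H 0`: then `2^k ∣ H y` for all `y`, lift_fun with `t = 0` (and `φ₀ = 0`) gives `u`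
with `ft u φ = F φ`; splits_of_mod.
(b) Otherwise `2^k ∣ H y + 2^(k-1)` for all `y`; lift_fun with `φ₀ = 0`, `t = 2^(k-1)`
(`sg 0 = 1`) gives `u` with `ft u φ = F φ` for `φ ≠ 0` and
`ft u 0 = F 0 + 2^(k-1) = 2^c (2^q - 1) + 2^(k-1)` (V_mod_int, ft_zero).
`u` is Psd; `w = v + 1 - u` is Psd: `ft w φ = ft v φ - F φ ≥ 0` for `φ ≠ 0` and
`ft w 0 = V + 2^k - F 0 - 2^(k-1) = 2^(c+q+1) t + 2^(k-1)` (ft_one).  `u 0 + w 0 = ds V + 1 =
ds t + q + 1` (ds_V).  By ds_le and ds_low_top `q + 1 ≤ u 0`.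
 If `2^(c+q+1) t < 2^(k-1)`: ds_high_top' gives `ds t + 1 ≤ w 0`, contradiction.
 Otherwise ds_high_top gives `ds t ≤ w 0` (`2^(c+q+1) t ≤ V < 2^k`), so `u 0 = q + 1` and
 `Gr u (2^(k-1) + 2^c (2^q - 1))`.  For every `φ` there is (by `hno`) some `x` with `v x = 0` and
 `φ x = 0`, so `F φ ≤ 2^c (2^q - 1)` by stepA_two.  Contradiction with no_r.
-/
import Pool.Agent.GR72.StepA
import Pool.Agent.GR72.Twist
import Pool.Agent.GR72.Lift
import Pool.Agent.GR72.NoR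

namespace Pool.Agent.GR72

open Module

theorem caseN {W : Type} [AddCommGroup W] [Module (ZMod 2) W] [Finite W] {q c t : ℕ}
    {v : W → ℤ} (S : Sit q c t v) (IH : RunDim q (finrank (ZMod 2) W - 1))
    (hno : ¬ ∃ φ : Dual (ZMod 2) W, ∀ x, v x = 0 → φ x = 1) : Splits q c v := by
  classical
  have hk := k_ge S.ht S.lt
  obtain ⟨n, hn⟩ : ∃ n, finrank (ZMod 2) W = n + 1 := ⟨finrank (ZMod 2) W - 1, by omega⟩
  have hno' : ∀ φ : Dual (ZMod 2) W, ∃ x, v x = 0 ∧ φ x = 0 := by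
    intro φ
    by_contra hc
    apply hno
    refine ⟨φ, fun x hx => ?_⟩
    rcases zmod_cases (φ x) with h | h
    · exact absurd ⟨x, hx, h⟩ hc
    · exact h
  have hZ : ∀ φ : Dual (ZMod 2) W, (∀ x ∈ {x : W | v x = 0}, φ x = 0) → φ = 0 := by
    intro φ h
    by_contra hφ
    obtain ⟨x, hx, hx1⟩ := zeros_sep S.gr S.lt hφ
    rw [h x hx] at hx1
    exact zero_ne_one hx1
  obtain ⟨h1, h2⟩ := twist_none (Hm v (2 ^ (c + q + 1))) ((2 : ℤ) ^ finrank (ZMod 2) W)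
    {x : W | v x = 0} hZ (fun x hx y => stepA_one S IH hx y) (by
      rintro ⟨φ, hφ⟩
      exact hno ⟨φ, fun x hx => hφ x hx⟩)
  by_cases hd : (2 : ℤ) ^ finrank (ZMod 2) W ∣ Hm v (2 ^ (c + q + 1)) 0
  · obtain ⟨u, hu, -⟩ := lift_fun (fun φ : Dual (ZMod 2) W => ft v φ % 2 ^ (c + q + 1)) 0 0
      (fun y => by
        have h3 := dvd_add (h1 y) hd
        rw [sub_add_cancel] at h3
        rw [zero_mul, add_zero]
        exact h3)
    refine splits_of_mod S.gr (v2 := u) fun φ => ?_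
    rw [hu φ]
    simp
  · exfalso
    -- `H 0 = 2^n * odd`
    have hH0 : (2 : ℤ) ^ finrank (ZMod 2) W ∣ Hm v (2 ^ (c + q + 1)) 0 + 2 ^ n := by
      obtain ⟨m, hm⟩ := h2
      have hp : (2 : ℤ) ^ finrank (ZMod 2) W = 2 * 2 ^ n := by
        rw [hn, pow_succ]
        ring
      rw [hp, mul_assoc] at hm
      have hm' : Hm v (2 ^ (c + q + 1)) 0 = 2 ^ n * m :=
        mul_left_cancel₀ two_ne_zero hm
      rcases Int.even_or_odd m with ⟨j, hj⟩ | ⟨j, hj⟩
      · exfalso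
        apply hd
        rw [hm', hp, hj]
        exact ⟨j, by ring⟩
      · rw [hm', hp, hj]
        exact ⟨j + 1, by ring⟩
    obtain ⟨u, hu, -⟩ := lift_fun (fun φ : Dual (ZMod 2) W => ft v φ % 2 ^ (c + q + 1)) 0
      (2 ^ n) (fun y => by
        have h3 := dvd_add (h1 y) hH0
        have e : Hm v (2 ^ (c + q + 1)) y - Hm v (2 ^ (c + q + 1)) 0 +
            (Hm v (2 ^ (c + q + 1)) 0 + 2 ^ n) = Hm v (2 ^ (c + q + 1)) y + 2 ^ n := by ring
        rw [e] at h3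
        have e2 : sg ((0 : Dual (ZMod 2) W) y) = 1 := by
          rw [LinearMap.zero_apply, sg_zero]
        rw [e2, mul_one]
        exact h3)
    have hM : (0 : ℤ) < 2 ^ (c + q + 1) := by positivity
    have hFnn : ∀ φ : Dual (ZMod 2) W, 0 ≤ ft v φ % 2 ^ (c + q + 1) :=
      fun φ => Int.emod_nonneg _ hM.ne'
    have hFle : ∀ φ : Dual (ZMod 2) W, ft v φ % 2 ^ (c + q + 1) ≤ ft v φ := by
      intro φ
      have h3 := Int.emod_add_mul_ediv (ft v φ) (2 ^ (c + q + 1))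
      have h4 : 0 ≤ ft v φ / 2 ^ (c + q + 1) := Int.ediv_nonneg (S.gr.psd φ) hM.le
      have h5 := mul_nonneg hM.le h4
      linarith
    have hF0 : ft v (0 : Dual (ZMod 2) W) % 2 ^ (c + q + 1) =
        ((2 ^ c * (2 ^ q - 1) : ℕ) : ℤ) := by
      rw [ft_zero, S.gr.tot, V_mod_int]
    have hVeq : ((2 ^ c * (2 ^ (q + 1) * t + (2 ^ q - 1)) : ℕ) : ℤ) =
        ((2 ^ (c + q + 1) * t : ℕ) : ℤ) + ((2 ^ c * (2 ^ q - 1) : ℕ) : ℤ) := by
      rw [V_eq]
      push_cast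
      ring
    have hkn : finrank (ZMod 2) W - 1 = n := by omega
    have hu0 : ft u (0 : Dual (ZMod 2) W) = ((2 ^ n + 2 ^ c * (2 ^ q - 1) : ℕ) : ℤ) := by
      rw [hu 0, if_pos rfl, hF0]
      push_cast
      ring
    have hune : ∀ φ : Dual (ZMod 2) W, φ ≠ 0 → ft u φ = ft v φ % 2 ^ (c + q + 1) := by
      intro φ hφ
      rw [hu φ, if_neg hφ, add_zero]
    have hupsd : Psd u := by
      intro φ
      by_cases hφ : φ = 0
      · rw [hφ, hu0]
        exact Int.natCast_nonneg _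
      · rw [hune φ hφ]
        exact hFnn φ
    have htotu : tot u = ((2 ^ n + 2 ^ c * (2 ^ q - 1) : ℕ) : ℤ) := by
      rw [← ft_zero, hu0]
    have hdsu : ds (2 ^ n + 2 ^ c * (2 ^ q - 1)) = q + 1 := by
      rw [← hkn]
      exact ds_low_top hk
    have hqu := ds_le hupsd _ htotu
    rw [hdsu] at hqu
    -- the complement
    have hw : ∀ φ : Dual (ZMod 2) W, ft (fun x => (v x + 1) - u x) φ =
        ft v φ + ft (fun _ : W => (1 : ℤ)) φ - ft u φ := by
      intro φ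
      rw [ft_sub (fun x => v x + 1) u φ, ft_add v (fun _ => 1) φ]
    have hw0 : ft (fun x => (v x + 1) - u x) (0 : Dual (ZMod 2) W) =
        ((2 ^ (c + q + 1) * t + 2 ^ n : ℕ) : ℤ) := by
      rw [hw 0, hu0, ft_one, if_pos rfl, ft_zero v, S.gr.tot, hVeq, hn]
      push_cast
      ring
    have hwpsd : Psd (fun x => (v x + 1) - u x) := by
      intro φ
      by_cases hφ : φ = 0
      · rw [hφ, hw0]
        exact Int.natCast_nonneg _
      · rw [hw φ, hune φ hφ, ft_one, if_neg hφ]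
        have := hFle φ
        linarith
    have htotw : tot (fun x => (v x + 1) - u x) = ((2 ^ (c + q + 1) * t + 2 ^ n : ℕ) : ℤ) := by
      rw [← ft_zero, hw0]
    have hdw := ds_le hwpsd _ htotw
    have hv0 : v 0 = ((ds t + q : ℕ) : ℤ) := by
      rw [S.gr.zero, ds_V]
    rw [hv0] at hdw
    push_cast at hdw hqu
    rcases lt_or_ge (2 ^ (c + q + 1) * t) (2 ^ n) with hlt | hge
    · have h3 : ds (2 ^ (c + q + 1) * t + 2 ^ n) = ds t + 1 := by
        rw [← hkn] at hlt ⊢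
        exact ds_high_top' hlt
      rw [h3] at hdw
      push_cast at hdw
      linarith
    · have hlt2 : 2 ^ (c + q + 1) * t < 2 ^ finrank (ZMod 2) W := by
        refine lt_of_le_of_lt ?_ S.lt
        rw [V_eq]
        exact Nat.le_add_right _ _
      have h3 : ds (2 ^ (c + q + 1) * t + 2 ^ n) = ds t := by
        rw [← hkn] at hge ⊢
        exact ds_high_top hk hge hlt2
      rw [h3] at hdw
      have hgr : Gr u (2 ^ (finrank (ZMod 2) W - 1) + 2 ^ c * (2 ^ q - 1)) := by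
        rw [hkn]
        refine ⟨hupsd, htotu, ?_⟩
        rw [hdsu]
        push_cast
        linarith
      refine no_r S.hc hk IH hgr fun φ hφ => ?_
      obtain ⟨x, hx, hφx⟩ := hno' φ
      rw [hune φ hφ]
      exact stepA_two S IH hx hφx

end Pool.Agent.GR72
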