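/-
GR72/MainStep: the main step of run splitting (proved from the stubs).
-/
import Pool.Agent.GR72.CaseN
import Pool.Agent.GR72.CaseB
import Pool.Agent.GR72.Tau
import Pool.Agent.GR72.QTrick

namespace Pool.Agent.GR72

open Module

variable {W : Type} [AddCommGroup W] [Module (ZMod 2) W] [Finite W]

theorem small_step {q c t : ℕ} {v : W → ℤ} (S : Sit q c t v)
    (IH : RunDim q (finrank (ZMod 2) W - 1))
    (hV : 2 ^ c * (2 ^ (q + 1) * t + (2 ^ q - 1)) < 2 ^ (finrank (ZMod 2) W - 1)) :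
    Splits q c v := by
  by_cases hno : ∃ φ : Dual (ZMod 2) W, ∀ x, v x = 0 → φ x = 1
  · obtain ⟨φ₀, h1⟩ := hno
    rcases caseB S IH h1 with h | ⟨f, B⟩
    · exact h
    · exfalso
      have h2 := ft_ge S B
      have h3 := gr_ft_le S.gr φ₀
      have hk := k_ge S.ht S.lt
      have h4 : (2 : ℤ) ^ finrank (ZMod 2) W = 2 * 2 ^ (finrank (ZMod 2) W - 1) := by
        obtain ⟨m, hm⟩ : ∃ m, finrank (ZMod 2) W = m + 1 := ⟨finrank (ZMod 2) W - 1, by omega⟩
        rw [hm, pow_succ]; simp; ring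
      have h5 : ((2 ^ c * (2 ^ (q + 1) * t + (2 ^ q - 1)) : ℕ) : ℤ)
          < 2 ^ (finrank (ZMod 2) W - 1) := by exact_mod_cast hV
      rw [h4] at h2
      linarith
  · exact caseN S IH hno

theorem main_step {q c t : ℕ} (hB : Base q) {v : W → ℤ} (S : Sit q c t v)
    (IH : RunDim q (finrank (ZMod 2) W - 1)) : Splits q c v := by
  by_cases hV : 2 ^ c * (2 ^ (q + 1) * t + (2 ^ q - 1)) < 2 ^ (finrank (ZMod 2) W - 1)
  · exact small_step S IH hV
  by_cases hno : ∃ φ : Dual (ZMod 2) W, ∀ x, v x = 0 → φ x = 1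
  swap
  · exact caseN S IH hno
  obtain ⟨φ₀, h1⟩ := hno
  rcases caseB S IH h1 with h | ⟨f, B⟩
  · exact h
  have hk := k_ge S.ht S.lt
  by_cases hkk : finrank (ZMod 2) W = c + q + 2
  · exact (base_end hB S B hkk).elim
  have hk3 : c + q + 3 ≤ finrank (ZMod 2) W := by omega
  obtain ⟨g, hg, hgm⟩ := qtrick S B (tau_bound S IH B) (e := finrank (ZMod 2) W - 2)
    (by omega) (by omega)
  have hle : 2 ^ c * (2 ^ (q + 1) * 2 ^ (finrank (ZMod 2) W - 2 - (c + q + 1)) + (2 ^ q - 1))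
      < 2 ^ (finrank (ZMod 2) W - 1) := by
    rw [V_eq, ← pow_add]
    have e1 : c + q + 1 + (finrank (ZMod 2) W - 2 - (c + q + 1)) = finrank (ZMod 2) W - 2 := by
      omega
    rw [e1]
    have e2 := low_lt q c
    have e3 : 2 ^ (c + q) ≤ 2 ^ (finrank (ZMod 2) W - 2) :=
      Nat.pow_le_pow_right (by norm_num) (by omega)
    have e4 : 2 ^ (finrank (ZMod 2) W - 1) = 2 ^ (finrank (ZMod 2) W - 2) * 2 := by
      rw [← pow_succ]; congr 1; omega
    omega
  have Sg : Sit q c (2 ^ (finrank (ZMod 2) W - 2 - (c + q + 1))) g :=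
    ⟨S.hq, S.hc, Nat.one_le_two_pow, hg,
      lt_of_lt_of_le hle (Nat.pow_le_pow_right (by norm_num) (by omega))⟩
  obtain ⟨v2, hv2, hv2'⟩ := small_step Sg IH hle
  exact ⟨v2, hv2, fun φ => by rw [hv2' φ, hgm φ]⟩

end Pool.Agent.GR72
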