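/-
GR72/Runs: run splitting for runs of length 0, 1, 2 (proved from the stubs).
-/
import Pool.Agent.GR72.MainStep
import Pool.Agent.GR72.BaseTwo

namespace Pool.Agent.GR72

open Module

theorem run_zero (k : ℕ) : RunDim 0 k := by
  intro W _ _ _ hW v c t h
  refine ⟨fun _ => 0, by simp, fun φ => ?_⟩
  have h1 : 2 ^ c * (2 ^ (0 + 1) * t + (2 ^ 0 - 1)) = 2 ^ (c + 0 + 1) * t := by
    simp [pow_succ]; ring
  rw [h1] at h
  have h2 := ward h (Dvd.intro _ rfl) φ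
  rw [Int.emod_eq_zero_of_dvd h2]
  simp [ft]

theorem base_one : Base 1 := by
  intro W _ _ _ c f φ τ hc hk hf h0 ht hφ hτ hft hpos
  have h1 := two_mul_tot_res f φ
  rw [ht, hft] at h1
  have h2 : (1 : ℤ) ≤ tot (res f φ) := by
    haveI := Fintype.ofFinite (LinearMap.ker φ)
    rw [tot_eq_sum]
    have h3 : res f φ 0 ≤ ∑ x, res f φ x :=
      Finset.single_le_sum (f := fun x => res f φ x) (fun x _ => hf _) (Finset.mem_univ 0)
    have h4 : res f φ 0 = 1 := by rw [res_zero, h0]; norm_num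
    omega
  have h5 : (0 : ℤ) < 2 ^ c := by positivity
  nlinarith

variable {W : Type} [AddCommGroup W] [Module (ZMod 2) W] [Finite W]

/-- Functions with odd total: subtract the point mass at zero. -/
theorem gr_sub_dl {v : W → ℤ} {V : ℕ} (h : Gr v (2 * V + 1)) :
    Gr (fun x => v x - dl 0 x) (2 * V) := by
  have hpar : ∀ φ : Dual (ZMod 2) W, 1 ≤ ft v φ := by
    intro φ
    have h1 := two_dvd_ft_sub_tot v φ
    rw [h.tot] at h1
    have h2 := h.psd φ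
    push_cast at h1
    omega
  refine ⟨fun φ => ?_, ?_, ?_⟩
  · rw [ft_sub, ft_dl]
    have := hpar φ
    simp only [map_zero, sg_zero]
    linarith
  · rw [tot_sub, h.tot, tot_dl]; push_cast; ring
  · rw [h.zero, ds_two_mul_add_one, ds_two_mul]
    simp [dl]

theorem run_c0 {q t : ℕ} (hq : 1 ≤ q) (hp : RunAt (q - 1) W) {v : W → ℤ}
    (h : Gr v (2 ^ 0 * (2 ^ (q + 1) * t + (2 ^ q - 1)))) : Splits q 0 v := by
  obtain ⟨r, rfl⟩ : ∃ r, q = r + 1 := ⟨q - 1, by omega⟩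
  have e1 : 2 ^ 0 * (2 ^ (r + 1 + 1) * t + (2 ^ (r + 1) - 1))
      = 2 * (2 ^ (r + 1) * t + (2 ^ r - 1)) + 1 := by
    have : 1 ≤ 2 ^ r := Nat.one_le_two_pow
    simp only [pow_zero, one_mul]
    rw [pow_succ 2 (r + 1), pow_succ 2 r]
    have e2 : 2 ^ r * 2 * 2 * t = 2 * (2 ^ r * 2 * t) := by ring
    rw [e2]
    generalize 2 ^ r * 2 * t = z
    omega
  have h' := h
  rw [e1] at h'
  have h2 := gr_sub_dl h'
  have e3 : 2 * (2 ^ (r + 1) * t + (2 ^ r - 1)) = 2 ^ 1 * (2 ^ (r + 1) * t + (2 ^ r - 1)) := by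
    simp
  rw [e3] at h2
  obtain ⟨w, hw0, hw⟩ := hp _ 1 t h2
  refine splits_of_mod (v2 := fun x => w x + dl 0 x) h fun φ => ?_
  rw [ft_add, ft_dl, hw φ, ft_sub, ft_dl]
  simp only [map_zero, sg_zero]
  have h3 := two_dvd_ft_sub_tot v φ
  rw [h'.tot] at h3
  have e4 : (2 : ℤ) ^ (0 + (r + 1) + 1) = 2 * 2 ^ (r + 1) := by
    rw [zero_add, pow_succ]; ring
  have e5 : (2 : ℤ) ^ (1 + (r + 1 - 1) + 1) = 2 * 2 ^ (r + 1) := by
    rw [Nat.add_sub_cancel, add_comm 1 r, pow_succ]; ring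
  rw [e4, e5]
  obtain ⟨m, hm⟩ : ∃ m, ft v φ = 2 * m + 1 := by
    obtain ⟨j, hj⟩ := h3
    refine ⟨j + (2 ^ (r + 1) * t + (2 ^ r - 1) : ℕ), ?_⟩
    push_cast at hj ⊢
    linarith
  rw [hm]
  have h6 : (2 * m + 1 - 1) % (2 * 2 ^ (r + 1)) = 2 * (m % 2 ^ (r + 1)) := by
    rw [add_sub_cancel_right, Int.mul_emod_mul_of_pos _ _ (by norm_num)]
  rw [h6]
  have h7 : 0 ≤ m % 2 ^ (r + 1) := Int.emod_nonneg _ (by positivity)
  have h8 : m % 2 ^ (r + 1) < 2 ^ (r + 1) := Int.emod_lt_of_pos _ (by positivity)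
  have h9 : 2 * m + 1 = (2 * (m % 2 ^ (r + 1)) + 1) + 2 * 2 ^ (r + 1) * (m / 2 ^ (r + 1)) := by
    have := Int.emod_add_mul_ediv m (2 ^ (r + 1))
    linarith
  have h10 : (2 * m + 1) % (2 * 2 ^ (r + 1)) = 2 * (m % 2 ^ (r + 1)) + 1 := by
    conv_lhs => rw [h9]
    rw [Int.add_mul_emod_self_left]
    refine Int.emod_eq_of_lt ?_ ?_
    · linarith
    · generalize (2 : ℤ) ^ (r + 1) = z at *
      omega
  rw [h10]

theorem run_t0 {q c : ℕ} {v : W → ℤ}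
    (h : Gr v (2 ^ c * (2 ^ (q + 1) * 0 + (2 ^ q - 1)))) : Splits q c v := by
  refine splits_of_mod h fun φ => (Int.emod_eq_of_lt (h.psd φ) ?_).symm
  have h1 := gr_ft_le h φ
  have h2 : 2 ^ c * (2 ^ (q + 1) * 0 + (2 ^ q - 1)) < 2 ^ (c + q + 1) := by
    have := low_lt q c
    have h3 : 2 ^ (c + q) ≤ 2 ^ (c + q + 1) := Nat.pow_le_pow_right (by norm_num) (by omega)
    simp only [mul_zero, zero_add]
    omega
  have h4 : ((2 ^ c * (2 ^ (q + 1) * 0 + (2 ^ q - 1)) : ℕ) : ℤ) < 2 ^ (c + q + 1) := by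
    exact_mod_cast h2
  linarith

/-- Functions of large total: subtract the constant one. -/
theorem run_big {q c t : ℕ} {v : W → ℤ}
    (h : Gr v (2 ^ c * (2 ^ (q + 1) * t + (2 ^ q - 1)))) (ht : 1 ≤ t)
    (hV : 2 ^ finrank (ZMod 2) W ≤ 2 ^ c * (2 ^ (q + 1) * t + (2 ^ q - 1)))
    (hs : ∀ (v : W → ℤ) (t : ℕ), Gr v (2 ^ c * (2 ^ (q + 1) * t + (2 ^ q - 1))) →
      2 ^ c * (2 ^ (q + 1) * t + (2 ^ q - 1)) < 2 ^ finrank (ZMod 2) W → Splits q c v) :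
    Splits q c v := by
  have hlt := gr_lt h
  obtain ⟨h1, -⟩ := gr_sub_one h hV
  have hk : c + q + 1 ≤ finrank (ZMod 2) W := by
    by_contra hc
    have h2 : 2 ^ (finrank (ZMod 2) W + 1) ≤ 2 ^ (c + q + 1) :=
      Nat.pow_le_pow_right (by norm_num) (by omega)
    rw [V_eq] at hlt
    have h3 : 2 ^ (c + q + 1) * 1 ≤ 2 ^ (c + q + 1) * t := Nat.mul_le_mul_left _ ht
    omega
  obtain ⟨m, hm⟩ : ∃ m, finrank (ZMod 2) W = c + q + 1 + m := ⟨_, (Nat.add_sub_of_le hk).symm⟩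
  have hpow : 2 ^ finrank (ZMod 2) W = 2 ^ (c + q + 1) * 2 ^ m := by rw [hm, pow_add]
  have ht' : 2 ^ m ≤ t := by
    by_contra hc
    have h4 : t + 1 ≤ 2 ^ m := by omega
    have h5 : 2 ^ (c + q + 1) * (t + 1) ≤ 2 ^ (c + q + 1) * 2 ^ m := Nat.mul_le_mul_left _ h4
    rw [V_eq, hpow] at hV
    have h6 := low_lt q c
    have h7 : 2 ^ (c + q) < 2 ^ (c + q + 1) := Nat.pow_lt_pow_right (by norm_num) (by omega)
    rw [mul_add, mul_one] at h5
    omega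
  obtain ⟨t', rfl⟩ : ∃ t', t = t' + 2 ^ m := ⟨t - 2 ^ m, by omega⟩
  have h8 : 2 ^ c * (2 ^ (q + 1) * (t' + 2 ^ m) + (2 ^ q - 1)) - 2 ^ finrank (ZMod 2) W
      = 2 ^ c * (2 ^ (q + 1) * t' + (2 ^ q - 1)) := by
    rw [V_eq, V_eq, hpow]
    have : 2 ^ (c + q + 1) * (t' + 2 ^ m) = 2 ^ (c + q + 1) * t' + 2 ^ (c + q + 1) * 2 ^ m := by
      ring
    omega
  rw [h8] at h1
  have h9 : 2 ^ c * (2 ^ (q + 1) * t' + (2 ^ q - 1)) < 2 ^ finrank (ZMod 2) W := by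
    rw [← h8]
    rw [pow_succ 2 (finrank (ZMod 2) W)] at hlt
    omega
  obtain ⟨w, hw0, hw⟩ := hs _ t' h1 h9
  refine ⟨w, hw0, fun φ => ?_⟩
  rw [hw φ, ft_sub, ft_one]
  split_ifs with h0
  · rw [show (2 : ℤ) ^ finrank (ZMod 2) W = 2 ^ (c + q + 1) * 2 ^ m by rw [hm, pow_add]]
    rw [Int.sub_mul_emod_self_left]
  · rw [sub_zero]

theorem run_dim {q : ℕ} (hq : 1 ≤ q) (hB : Base q) (hp : ∀ k, RunDim (q - 1) k) (k : ℕ) :
    RunDim q k := by
  induction k with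
  | zero =>
    intro W _ _ _ hW v c t h
    by_cases ht : t = 0
    · subst ht; exact run_t0 h
    exfalso
    have h1 := gr_lt h
    rw [hW, V_eq] at h1
    have h2 : 2 ^ (c + q + 1) * 1 ≤ 2 ^ (c + q + 1) * t := Nat.mul_le_mul_left _ (by omega)
    have h3 : 2 ^ 1 ≤ 2 ^ (c + q + 1) := Nat.pow_le_pow_right (by norm_num) (by omega)
    simp at h1 h3
    omega
  | succ k ih =>
    intro W _ _ _ hW v c t h
    have hs : ∀ (v : W → ℤ) (t : ℕ), Gr v (2 ^ c * (2 ^ (q + 1) * t + (2 ^ q - 1))) →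
        2 ^ c * (2 ^ (q + 1) * t + (2 ^ q - 1)) < 2 ^ finrank (ZMod 2) W → Splits q c v := by
      intro v t h hlt
      by_cases ht : t = 0
      · subst ht; exact run_t0 h
      by_cases hc : c = 0
      · subst hc
        exact run_c0 hq (hp (k + 1) W hW) h
      have S : Sit q c t v := ⟨hq, by omega, by omega, h, hlt⟩
      refine main_step hB S ?_
      rw [hW]
      exact ih
    by_cases ht : t = 0
    · subst ht; exact run_t0 h
    by_cases hlt : 2 ^ c * (2 ^ (q + 1) * t + (2 ^ q - 1)) < 2 ^ finrank (ZMod 2) W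
    · exact hs v t h hlt
    · exact run_big h (by omega) (by omega) hs

theorem run_one (k : ℕ) : RunDim 1 k := run_dim (by norm_num) base_one run_zero k

theorem run_two (k : ℕ) : RunDim 2 k := run_dim (by norm_num) base_two run_one k

end Pool.Agent.GR72
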