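/-
GR72/Tri: near zeros of the transform (needs Core, L1, Hyp, Runs.gr_sub_dl).
Let `v` be `Gr V`, `V` even, `k = finrank W ≥ 2`, `φ₀ ≠ 0`, `ft v φ₀ = 0`.  Then there is `ψ ≠ 0`,
`ψ ≠ φ₀` with `ft v ψ = 0` and `ft v (φ₀ + ψ) ≤ 2`.
`V = 2 n`, `K = ker φ₀` (finrank_ker, `finrank K ≥ 1`), `u = res v φ₀` is `Gr n` (gr_res,
ds_two_mul).
(a) There is `ψ' ≠ 0` in the dual of `K` with `ft u ψ' ≤ 1`: if `n` is even by exists_zero; if
 `n = 2 m + 1` then `u - dl 0` is `Gr (2 m)` (gr_sub_dl), exists_zero for it gives `ψ'` with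
 `ft u ψ' - 1 = 0` (ft_sub, ft_dl, sg_zero).
(b) Let `ψ` extend `ψ'` (exists_ext); `ψ ≠ 0`, `ψ ≠ φ₀` (its restriction to `K` is not `0`; the
 restriction of `φ₀` is `0`).  two_mul_ft_res: `2 * ft u ψ' = ft v ψ + ft v (ψ + φ₀)`, so this sum
 is at most `2`; both summands are nonnegative and even (two_dvd_ft_sub_tot, `h.tot`, `V` even).
 So one of them is `0` and the other is at most `2`.  If `ft v ψ = 0` take `ψ`; otherwise take
 `ψ + φ₀` (note `φ₀ + (ψ + φ₀) = ψ`, add_self_eq, and `ψ + φ₀ ≠ 0`, `ψ + φ₀ ≠ φ₀`).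
-/
import Pool.Agent.GR72.Runs

namespace Pool.Agent.GR72

open Module

theorem tri {W : Type} [AddCommGroup W] [Module (ZMod 2) W] [Finite W] {v : W → ℤ} {V : ℕ}
    (h : Gr v V) (hV : Even V) (hk : 2 ≤ finrank (ZMod 2) W) {φ₀ : Dual (ZMod 2) W}
    (h0 : φ₀ ≠ 0) (hz : ft v φ₀ = 0) :
    ∃ ψ : Dual (ZMod 2) W, ψ ≠ 0 ∧ ψ ≠ φ₀ ∧ ft v ψ = 0 ∧ ft v (φ₀ + ψ) ≤ 2 := by
  obtain ⟨n, hn⟩ := hV
  have hu : Gr (res v φ₀) n := gr_res h n (by rw [hz, hn]; push_cast; ring) (by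
    rw [hn, ← two_mul, ds_two_mul])
  have hK := finrank_ker h0
  have hK0 : 0 < finrank (ZMod 2) (LinearMap.ker φ₀) := by omega
  -- (a)
  have ha : ∃ ψ' : Dual (ZMod 2) (LinearMap.ker φ₀), ψ' ≠ 0 ∧ ft (res v φ₀) ψ' ≤ 1 := by
    rcases Nat.even_or_odd' n with ⟨m, hm | hm⟩
    · obtain ⟨ψ', h1, h2⟩ := exists_zero hu ⟨m, by omega⟩ hK0
      exact ⟨ψ', h1, by rw [h2]; norm_num⟩
    · rw [hm] at hu
      obtain ⟨ψ', h1, h2⟩ := exists_zero (gr_sub_dl hu) ⟨m, by omega⟩ hK0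
      refine ⟨ψ', h1, ?_⟩
      rw [ft_sub, ft_dl, map_zero, sg_zero] at h2
      linarith
  obtain ⟨ψ', hψ'0, hψ'⟩ := ha
  obtain ⟨ψ, hψ⟩ := exists_ext φ₀ ψ'
  have h1 : ψ ≠ 0 := by
    rintro rfl
    exact hψ'0 (by rw [← hψ]; rfl)
  have h2 : ψ ≠ φ₀ := by
    rintro rfl
    apply hψ'0
    rw [← hψ]
    ext y
    exact LinearMap.mem_ker.1 y.2
  have h3 := two_mul_ft_res v ψ φ₀
  rw [hψ] at h3
  have h4 := h.psd ψ
  have h5 := h.psd (ψ + φ₀)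
  have h6 := two_dvd_ft_sub_tot v ψ
  have h7 := two_dvd_ft_sub_tot v (ψ + φ₀)
  rw [h.tot, hn] at h6 h7
  push_cast at h6 h7
  by_cases hc : ft v ψ = 0
  · refine ⟨ψ, h1, h2, hc, ?_⟩
    rw [add_comm]
    omega
  · refine ⟨ψ + φ₀, ?_, ?_, by omega, ?_⟩
    · intro h8
      apply h2
      have h9 : ψ + φ₀ + φ₀ = 0 + φ₀ := by rw [h8]
      rw [add_assoc, add_self_eq, add_zero, zero_add] at h9
      exact h9
    · intro h8
      apply h1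
      have h9 : ψ + φ₀ + φ₀ = φ₀ + φ₀ := by rw [h8]
      rw [add_assoc, add_self_eq, add_zero] at h9
      exact h9
    · have h8 : φ₀ + (ψ + φ₀) = ψ := by
        rw [add_comm, add_assoc, add_self_eq, add_zero]
      rw [h8]
      omega

end Pool.Agent.GR72
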