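/-
GR72/BaseGen: the base case of run splitting for all run lengths (needs Decr, Tri, TauRes, Tau,
QTrick, Ward, L1).
Names: `c = c' + 1`, `c' ≥ 1`, `k = finrank W = c + q + 2`, `M = 2^(c+q+1)`.
(0) As at the beginning of the proof of base_end (QTrick): `t = 1`, `v - f = ind P` with
`P = ker φ₀`.  So by ft_ind `ft v φ = ft f φ` for all `φ ∉ {0, φ₀}` (if `φ` vanishes on `ker φ₀` then
`φ ∈ {0, φ₀}`, domRestrict_eq_iff).  `ft v φ₀ > 0` (ft_ge in Tau, `S.lt`).  `2^c ∣ ft f φ₀` (ward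
and `B.dvd`, as in base_end) and `ft f φ₀ < 0`, so `ft f φ₀ ≤ -4` (`c ≥ 2`).
`ft f φ = ft v φ % M ≥ 0` for `φ ≠ φ₀` (B.eq).
(1) The finite set of `ψ ≠ 0` with `ft v ψ = 0` is not empty (exists_zero, `V` even); choose `ψ` in
it with `μ = ft f (φ₀ + ψ)` minimal.  `ψ ≠ φ₀`.  `g = res f ψ` on `K = ker ψ` is
`Gr (2^c' (2^q - 1))` (tau_res), this number is even, `finrank K = k - 1 ≥ 2`,
`φ' = φ₀.domRestrict K ≠ 0` (domRestrict_eq_iff).  two_mul_ft_res: `2 * ft g φ' = ft f φ₀ + μ`.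
(2) Claim: if `ψ' ≠ 0`, `ψ' ≠ φ'`, `ft g ψ' = 0` then `μ ≤ ft g (φ' + ψ')`.  Let `φ` extend `ψ'`
(exists_ext): `ft f φ + ft f (φ + ψ) = 0`, `φ ≠ φ₀`, `φ + ψ ≠ φ₀` (restrictions), so both are
`≥ 0`, hence both are `0`; `φ, φ + ψ ∉ {0, φ₀}`, so `ft v φ = ft v (φ + ψ) = 0` by (0); by the
choice of `ψ`: `μ ≤ ft f (φ₀ + φ)`, `μ ≤ ft f (φ₀ + φ + ψ)`; two_mul_ft_res:
`2 * ft g (φ' + ψ') = ft f (φ₀ + φ) + ft f (φ₀ + φ + ψ) ≥ 2 μ`.
(3) `μ ≥ 0` (`φ₀ + ψ ≠ φ₀`, B.eq).  If `ft g φ' > 0`: decr gives `ψ'` with `ft g ψ' = 0`,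
`ft g (φ' + ψ') < ft g φ'` (`ψ' ≠ φ'`), so by (2) `2 μ < 2 * ft g φ' = ft f φ₀ + μ`, `μ < ft f φ₀ < 0`,
contradiction.  Otherwise `ft g φ' = 0` (Psd), `μ = - ft f φ₀ ≥ 4`, and tri gives `ψ'` with
`μ ≤ ft g (φ' + ψ') ≤ 2`, contradiction.
-/
import Pool.Agent.GR72.Decr
import Pool.Agent.GR72.Tri
import Pool.Agent.GR72.TauRes
import Pool.Agent.GR72.QTrick

namespace Pool.Agent.GR72

open Module

variable {W : Type} [AddCommGroup W] [Module (ZMod 2) W] [Finite W]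

theorem base_gen {q c' t : ℕ} (hc : 1 ≤ c') {v : W → ℤ} (S : Sit q (c' + 1) t v)
    (IH : RunDim q (finrank (ZMod 2) W - 1)) {φ₀ : Dual (ZMod 2) W} {f : W → ℤ}
    (B : Bad q (c' + 1) t v φ₀ f) (hk : finrank (ZMod 2) W = c' + 1 + q + 2) : False := by
  classical
  have ht : t = 1 := by
    have h1 := S.lt
    rw [V_eq, hk] at h1
    have h2 : 2 ^ (c' + 1 + q + 1) * t < 2 ^ (c' + 1 + q + 1) * 2 := by
      have : 2 ^ (c' + 1 + q + 2) = 2 ^ (c' + 1 + q + 1) * 2 := by ring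
      rw [this] at h1
      omega
    have h3 := Nat.lt_of_mul_lt_mul_left h2
    have := S.ht
    omega
  have hgr := B.gr
  rw [ht, mul_one] at hgr
  obtain ⟨P, hP, hvf⟩ := gr_single hgr
  have hft : ∀ φ, ft (ind P) φ = ft v φ - ft f φ := by
    intro φ
    rw [← ft_sub]
    congr 1
    funext x
    exact (hvf x).symm
  have hpos : 0 < ft (ind P) φ₀ := by
    rw [hft]
    have h1 := S.gr.psd φ₀
    have h2 := B.neg
    linarith
  have hPk : P ≤ LinearMap.ker φ₀ := by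
    intro x hx
    rw [LinearMap.mem_ker]
    by_contra hne
    rw [ft_ind, if_neg (fun h => hne (h x hx))] at hpos
    exact lt_irrefl _ hpos
  have hker := finrank_ker B.ne
  have hPeq : P = LinearMap.ker φ₀ := Submodule.eq_of_le_of_finrank_eq hPk (by omega)
  have key0 : ∀ φ, φ ≠ 0 → φ ≠ φ₀ → ft f φ = ft v φ := by
    intro φ h1 h2
    have h3 := hft φ
    rw [ft_ind, if_neg] at h3
    · linarith
    · intro h4
      have h5 : φ.domRestrict (LinearMap.ker φ₀) =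
          (0 : Dual (ZMod 2) W).domRestrict (LinearMap.ker φ₀) := by
        ext y
        rw [LinearMap.domRestrict_apply, LinearMap.domRestrict_apply, LinearMap.zero_apply]
        exact h4 y (by rw [hPeq]; exact y.2)
      rcases (domRestrict_eq_iff φ₀ φ 0).1 h5 with h6 | h6
      · exact h1 h6
      · rw [zero_add] at h6
        exact h2 h6
  have hM : (0 : ℤ) < 2 ^ (c' + 1 + q + 1) := by positivity
  have hnn : ∀ φ, φ ≠ φ₀ → 0 ≤ ft f φ := by
    intro φ hφ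
    rw [B.eq φ hφ]
    exact Int.emod_nonneg _ hM.ne'
  have hneg : ft f φ₀ ≤ -4 := by
    have h1 : (2 : ℤ) ^ (c' + 1) ∣ ft v φ₀ := ward S.gr (Dvd.intro _ rfl) φ₀
    have h2 : (2 : ℤ) ^ (c' + 1) ∣ ft v φ₀ - ft f φ₀ := (pow_dvd_pow 2 (by omega)).trans B.dvd
    have h3 := dvd_sub h1 h2
    rw [sub_sub_cancel] at h3
    have h4 : (4 : ℤ) ∣ ft f φ₀ := by
      have h5 : (2 : ℤ) ^ 2 ∣ 2 ^ (c' + 1) := pow_dvd_pow 2 (by omega)
      norm_num at h5
      exact h5.trans h3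
    have h5 := B.neg
    omega
  have hge := ft_ge S B
  have hlt : ((2 ^ (c' + 1) * (2 ^ (q + 1) * t + (2 ^ q - 1)) : ℕ) : ℤ) <
      2 ^ finrank (ZMod 2) W := by exact_mod_cast S.lt
  have hEv : Even (2 ^ (c' + 1) * (2 ^ (q + 1) * t + (2 ^ q - 1))) := by
    rw [pow_succ' 2 c', mul_assoc]
    exact even_two_mul _
  obtain ⟨ψ, ⟨hψ, hψ0⟩, hmin⟩ := Set.exists_min_image
    {ψ : Dual (ZMod 2) W | ψ ≠ 0 ∧ ft v ψ = 0} (fun ψ => ft f (φ₀ + ψ)) (Set.toFinite _)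
    (exists_zero S.gr hEv (by omega))
  have hψne : ψ ≠ φ₀ := by
    rintro rfl
    rw [hψ0] at hge
    linarith
  have hg := tau_res S IH B hψ hψ0
  have hgEv : Even (2 ^ c' * (2 ^ q - 1)) := by
    obtain ⟨d, rfl⟩ : ∃ d, c' = d + 1 := ⟨c' - 1, by omega⟩
    rw [pow_succ' 2 d, mul_assoc]
    exact even_two_mul _
  have hkK := finrank_ker hψ
  have hφ' : φ₀.domRestrict (LinearMap.ker ψ) ≠ 0 := by
    intro h5
    have h6 : φ₀.domRestrict (LinearMap.ker ψ) =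
        (0 : Dual (ZMod 2) W).domRestrict (LinearMap.ker ψ) := by
      rw [h5]
      ext y
      simp
    rcases (domRestrict_eq_iff ψ φ₀ 0).1 h6 with h7 | h7
    · exact B.ne h7
    · rw [zero_add] at h7
      exact hψne h7.symm
  have h2g := two_mul_ft_res f φ₀ ψ
  have claim : ∀ ψ' : Dual (ZMod 2) (LinearMap.ker ψ), ψ' ≠ 0 →
      ψ' ≠ φ₀.domRestrict (LinearMap.ker ψ) → ft (res f ψ) ψ' = 0 →
      ft f (φ₀ + ψ) ≤ ft (res f ψ) (φ₀.domRestrict (LinearMap.ker ψ) + ψ') := by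
    intro ψ' h1 h2 h3
    obtain ⟨φ, hφ⟩ := exists_ext ψ ψ'
    have h4 := two_mul_ft_res f φ ψ
    rw [hφ, h3, mul_zero] at h4
    have hφne : φ ≠ φ₀ := by
      rintro rfl
      exact h2 hφ.symm
    have hφψne : φ + ψ ≠ φ₀ := by
      intro h6
      apply h2
      rw [← hφ, domRestrict_eq_iff]
      right
      rw [← h6, add_assoc, add_self_eq, add_zero]
    have hφ0 : φ ≠ 0 := by
      rintro rfl
      apply h1
      rw [← hφ]
      ext y
      simp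
    have hφψ0 : φ + ψ ≠ 0 := by
      intro h6
      apply h1
      have h7 : φ = 0 + ψ := by
        rw [zero_add]
        have h8 : φ + ψ + ψ = ψ := by rw [h6, zero_add]
        rwa [add_assoc, add_self_eq, add_zero] at h8
      rw [← hφ, (domRestrict_eq_iff ψ φ 0).2 (Or.inr h7)]
      ext y
      simp
    have h5 := hnn φ hφne
    have h6 := hnn _ hφψne
    have h7 : ft v φ = 0 := by
      rw [← key0 φ hφ0 hφne]
      linarith
    have h8 : ft v (φ + ψ) = 0 := by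
      rw [← key0 _ hφψ0 hφψne]
      linarith
    have h9 := hmin φ ⟨hφ0, h7⟩
    have h10 := hmin (φ + ψ) ⟨hφψ0, h8⟩
    have h11 := two_mul_ft_res f (φ₀ + φ) ψ
    have h12 : (φ₀ + φ).domRestrict (LinearMap.ker ψ) =
        φ₀.domRestrict (LinearMap.ker ψ) + ψ' := by
      rw [← hφ]
      ext y
      simp [LinearMap.domRestrict_apply]
    rw [h12, add_assoc] at h11
    linarith
  have hμ : 0 ≤ ft f (φ₀ + ψ) := hnn _ (by
    intro h6
    exact hψ (by simpa using h6))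
  have hpsd := hg.psd (φ₀.domRestrict (LinearMap.ker ψ))
  rcases hpsd.lt_or_eq with h1 | h1
  · obtain ⟨ψ', a1, a2, a3⟩ := decr hg hgEv hφ' h1
    have h2 := claim ψ' a1 (by rintro rfl; rw [a2] at h1; exact lt_irrefl _ h1) a2
    linarith
  · obtain ⟨ψ', a1, a2, a3, a4⟩ := tri hg hgEv (by omega) hφ' h1.symm
    have h2 := claim ψ' a1 a2 a3
    rw [← h1] at h2g
    linarith

end Pool.Agent.GR72
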