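/-
GR72/Belov: subspaces of `F_2^k` in general position (Mathlib only).
`PW k` is the space of polynomials of degree `< k` over the field with two elements.
* `exists_irred`: `GaloisField 2 m` has degree `m` over `ZMod 2` (`GaloisField.finrank`), it has a
  primitive element (`Field.exists_primitive_element`), whose minimal polynomial is irreducible of
  degree `m` (`IntermediateField.adjoin.finrank`, `minpoly.irreducible`).
* `finrank_mulSub`: multiplication by `p` is an injective linear map from polynomials of degree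
  `< k - natDegree p` onto `mulSub k p`; `finrank (degreeLT F n) = n`
  (`Polynomial.degreeLTEquiv`).
* `general_position`: choose `pirr m` irreducible of degree `m` for every `m ≥ 1`,
  `P j = mulSub k (pirr (k - j))` for `j < k`.  A polynomial `x ≠ 0` in `P j` for all `j ∈ I` is
  divisible by the product of the `pirr (k - j)` (pairwise coprime, as the degrees are different:
  two irreducible polynomials that are not coprime are associated and have the same degree;
  `Finset.prod_dvd_of_coprime`), so `∑ (k - j) ≤ natDegree x < k`.  If all `k - j ≥ 4` then all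
  `pirr (k - j)` are coprime to `X`, hence to `X^4`; so if also `X^4 ∣ x` then
  `4 + ∑ (k - j) ≤ natDegree x`.
* `finrank_PW`: `Polynomial.degreeLTEquiv`.
-/
import Mathlib

namespace Pool.Agent.GR72

open Polynomial Module

/-- Polynomials of degree `< k` over the field with two elements. -/
abbrev PW (k : ℕ) : Type := Polynomial.degreeLT (ZMod 2) k

instance finite_PW (k : ℕ) : Finite (PW k) :=
  Finite.of_equiv _ (Polynomial.degreeLTEquiv (ZMod 2) k).toEquiv.symm

theorem finrank_PW (k : ℕ) : finrank (ZMod 2) (PW k) = k := by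
  rw [(Polynomial.degreeLTEquiv (ZMod 2) k).finrank_eq, finrank_fin_fun]

theorem exists_irred (m : ℕ) (hm : 1 ≤ m) : ∃ p : (ZMod 2)[X], Irreducible p ∧ p.natDegree = m := by
  have hm' : m ≠ 0 := by omega
  have hfr := GaloisField.finrank 2 hm'
  haveI : FiniteDimensional (ZMod 2) (GaloisField 2 m) :=
    FiniteDimensional.of_finrank_pos (by rw [hfr]; omega)
  obtain ⟨α, hα⟩ := Field.exists_primitive_element (ZMod 2) (GaloisField 2 m)
  have hint : IsIntegral (ZMod 2) α := Algebra.IsIntegral.isIntegral α
  refine ⟨minpoly (ZMod 2) α, minpoly.irreducible hint, ?_⟩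
  rw [← IntermediateField.adjoin.finrank hint, hα, IntermediateField.finrank_top', hfr]

/-- The multiples of `p`. -/
def mulSub (k : ℕ) (p : (ZMod 2)[X]) : Submodule (ZMod 2) (PW k) where
  carrier := {x | p ∣ (x : (ZMod 2)[X])}
  add_mem' := fun ha hb => by
    simp only [Set.mem_setOf_eq, Submodule.coe_add] at *
    exact dvd_add ha hb
  zero_mem' := by simp
  smul_mem' := fun c x hx => by
    simp only [Set.mem_setOf_eq, Submodule.coe_smul] at *
    exact dvd_smul_of_dvd c hx

theorem mem_mulSub {k : ℕ} {p : (ZMod 2)[X]} {x : PW k} :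
    x ∈ mulSub k p ↔ p ∣ (x : (ZMod 2)[X]) := Iff.rfl

theorem natDegree_lt_of_mem {k : ℕ} {x : (ZMod 2)[X]} (hx : x ∈ Polynomial.degreeLT (ZMod 2) k)
    (h0 : x ≠ 0) : x.natDegree < k := by
  rw [Polynomial.mem_degreeLT, Polynomial.degree_eq_natDegree h0] at hx
  exact_mod_cast hx

theorem mem_of_natDegree_lt {k : ℕ} {x : (ZMod 2)[X]} (h : x.natDegree < k) :
    x ∈ Polynomial.degreeLT (ZMod 2) k := by
  rw [Polynomial.mem_degreeLT]
  exact lt_of_le_of_lt Polynomial.degree_le_natDegree (by exact_mod_cast h)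

theorem finrank_mulSub {k : ℕ} {p : (ZMod 2)[X]} (hp : p ≠ 0) (h : p.natDegree ≤ k) :
    finrank (ZMod 2) (mulSub k p) + p.natDegree = k := by
  have hmem : ∀ x : PW (k - p.natDegree), p * (x : (ZMod 2)[X]) ∈ Polynomial.degreeLT (ZMod 2) k := by
    intro x
    by_cases hx : (x : (ZMod 2)[X]) = 0
    · rw [hx, mul_zero]
      exact zero_mem _
    · apply mem_of_natDegree_lt
      rw [Polynomial.natDegree_mul hp hx]
      have := natDegree_lt_of_mem x.2 hx
      omega
  let f : PW (k - p.natDegree) →ₗ[ZMod 2] mulSub k p :=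
    { toFun := fun x => ⟨⟨p * (x : (ZMod 2)[X]), hmem x⟩, dvd_mul_right _ _⟩
      map_add' := by
        intro x y
        apply Subtype.ext
        apply Subtype.ext
        show p * ((x + y : PW _) : (ZMod 2)[X]) = p * (x : (ZMod 2)[X]) + p * (y : (ZMod 2)[X])
        rw [Submodule.coe_add, mul_add]
      map_smul' := by
        intro c x
        apply Subtype.ext
        apply Subtype.ext
        show p * ((c • x : PW _) : (ZMod 2)[X]) = c • (p * (x : (ZMod 2)[X]))
        rw [Submodule.coe_smul, mul_smul_comm] }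
  have hinj : Function.Injective f := by
    intro x y hxy
    have h1 : p * (x : (ZMod 2)[X]) = p * (y : (ZMod 2)[X]) :=
      congrArg (fun z : mulSub k p => ((z : PW k) : (ZMod 2)[X])) hxy
    exact Subtype.ext (mul_left_cancel₀ hp h1)
  have hsurj : Function.Surjective f := by
    intro y
    obtain ⟨z, hz⟩ : p ∣ ((y : PW k) : (ZMod 2)[X]) := y.2
    have hzm : z ∈ Polynomial.degreeLT (ZMod 2) (k - p.natDegree) := by
      by_cases hz0 : z = 0
      · rw [hz0]
        exact zero_mem _
      · apply mem_of_natDegree_lt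
        have h1 := natDegree_lt_of_mem (y : PW k).2 (by rw [hz]; exact mul_ne_zero hp hz0)
        rw [hz, Polynomial.natDegree_mul hp hz0] at h1
        omega
    refine ⟨⟨z, hzm⟩, ?_⟩
    apply Subtype.ext
    apply Subtype.ext
    exact hz.symm
  have he := (LinearEquiv.ofBijective f ⟨hinj, hsurj⟩).finrank_eq
  rw [finrank_PW] at he
  omega

theorem isCoprime_of_natDegree_ne {p q : (ZMod 2)[X]} (hp : Irreducible p) (hq : Irreducible q)
    (h : p.natDegree ≠ q.natDegree) : IsCoprime p q := by
  rw [hp.coprime_iff_not_dvd]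
  intro hdvd
  have ha := hp.associated_of_dvd hq hdvd
  apply h
  exact Polynomial.natDegree_eq_of_degree_eq (Polynomial.degree_eq_degree_of_associated ha)

theorem general_position (k : ℕ) :
    ∃ P : ℕ → Submodule (ZMod 2) (PW k), (∀ j, j < k → finrank (ZMod 2) (P j) = j) ∧
      (∀ (I : Finset ℕ) (x : PW k), (∀ j ∈ I, j < k) → x ≠ 0 → (∀ j ∈ I, x ∈ P j) →
        ∑ j ∈ I, (k - j) < k) ∧
      (∀ (I : Finset ℕ) (x : PW k), (∀ j ∈ I, j + 4 ≤ k) → x ≠ 0 →
        (X ^ 4 : (ZMod 2)[X]) ∣ (x : (ZMod 2)[X]) → (∀ j ∈ I, x ∈ P j) →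
        4 + ∑ j ∈ I, (k - j) < k) := by
  have hex : ∀ m : ℕ, ∃ p : (ZMod 2)[X], 1 ≤ m → Irreducible p ∧ p.natDegree = m := by
    intro m
    by_cases hm : 1 ≤ m
    · obtain ⟨p, h1, h2⟩ := exists_irred m hm
      exact ⟨p, fun _ => ⟨h1, h2⟩⟩
    · exact ⟨0, fun h => absurd h hm⟩
  choose pirr hpirr using hex
  have hprod : ∀ (I : Finset ℕ) (x : PW k), (∀ j ∈ I, j < k) →
      (∀ j ∈ I, x ∈ mulSub k (pirr (k - j))) → ∏ j ∈ I, pirr (k - j) ∣ (x : (ZMod 2)[X]) := by
    intro I x hI hx
    apply Finset.prod_dvd_of_coprime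
    · intro i hi j hj hij
      have hi' := hI i hi
      have hj' := hI j hj
      have h1 := hpirr (k - i) (by omega)
      have h2 := hpirr (k - j) (by omega)
      apply isCoprime_of_natDegree_ne h1.1 h2.1
      rw [h1.2, h2.2]
      omega
    · intro j hj
      exact hx j hj
  have hdeg : ∀ (I : Finset ℕ), (∀ j ∈ I, j < k) →
      (∏ j ∈ I, pirr (k - j)).natDegree = ∑ j ∈ I, (k - j) := by
    intro I hI
    rw [Polynomial.natDegree_prod _ _ (fun j hj => (hpirr (k - j) (by
      have := hI j hj
      omega)).1.ne_zero)]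
    apply Finset.sum_congr rfl
    intro j hj
    have := hI j hj
    exact (hpirr (k - j) (by omega)).2
  have hnz : ∀ x : PW k, x ≠ 0 → (x : (ZMod 2)[X]) ≠ 0 := by
    intro x hx h
    exact hx (Subtype.ext h)
  refine ⟨fun j => mulSub k (pirr (k - j)), ?_, ?_, ?_⟩
  · intro j hj
    have h1 := hpirr (k - j) (by omega)
    have h2 := finrank_mulSub (k := k) h1.1.ne_zero (by rw [h1.2]; omega)
    rw [h1.2] at h2
    show finrank (ZMod 2) (mulSub k (pirr (k - j))) = j
    omega
  · intro I x hI hx hP
    have h1 := hprod I x hI hP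
    have h2 := Polynomial.natDegree_le_of_dvd h1 (hnz x hx)
    rw [hdeg I hI] at h2
    exact lt_of_le_of_lt h2 (natDegree_lt_of_mem x.2 (hnz x hx))
  · intro I x hI hx hX hP
    have hI' : ∀ j ∈ I, j < k := by
      intro j hj
      have := hI j hj
      omega
    have h1 := hprod I x hI' hP
    have hcop : IsCoprime (X ^ 4 : (ZMod 2)[X]) (∏ j ∈ I, pirr (k - j)) := by
      apply IsCoprime.pow_left
      apply IsCoprime.prod_right
      intro j hj
      have hj' := hI j hj
      have h3 := hpirr (k - j) (by omega)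
      apply isCoprime_of_natDegree_ne Polynomial.irreducible_X h3.1
      rw [h3.2, Polynomial.natDegree_X]
      omega
    have h2 := hcop.mul_dvd hX h1
    have h3 := Polynomial.natDegree_le_of_dvd h2 (hnz x hx)
    have hne : ∏ j ∈ I, pirr (k - j) ≠ 0 := by
      rw [Finset.prod_ne_zero_iff]
      intro j hj
      have := hI j hj
      exact (hpirr (k - j) (by omega)).1.ne_zero
    rw [Polynomial.natDegree_mul (pow_ne_zero _ Polynomial.X_ne_zero) hne,
      Polynomial.natDegree_X_pow, hdeg I hI'] at h3
    exact lt_of_le_of_lt h3 (natDegree_lt_of_mem x.2 (hnz x hx))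

end Pool.Agent.GR72
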