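/-
GR72/Pair: the pair lemma (needs Runs: run_one; RunSplit, Core, Ward, Psd, Hyp).
Names: `k = finrank W`, `V = 3 * 2^a`, `a + 2 ≤ k`.  Induction on `k` (all `W`, `v`, `a`).
By ward `2^a ∣ ft v φ`, by gr_ft_le `0 ≤ ft v φ ≤ 3 * 2^a`, so `ft v φ ∈ {0, 1, 2, 3} * 2^a`.
Also `v 0 = 2` (`ds 3 = 2`), `0 ≤ v x ≤ 2`.
(i) Some `φ ≠ 0` with `ft v φ = 2 * 2^a`.  Then `a ≥ 1` (parity, two_dvd_ft_sub_tot: for `a = 0`
`ft v φ = 2` and `V = 3`).  `r = res v φ` on `K = ker φ`: `Gr r (5 * 2^(a-1))` (gr_res; `ds 5 = 2`)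
`= Gr r (2^(a-1) * (2^(1+1) * 1 + (2^1 - 1)))`.  run_one and run_split: `r = w1 + w2`,
`Gr w2 (2^(a-1))`, `Gr w1 (2^(a+1))`; gr_single: `w1 = ind P1`, `w2 = ind P2`, dimensions `a + 1`,
`a - 1`; `v = 2` on `P1 ⊓ P2` (dimension `≥ (a+1) + (a-1) - (k-1) = 2 a - k + 1`; if this is
`≤ 0` take it anyway), mapped to `W` by `K.subtype`.
(ii) Some `φ ≠ 0` with `ft v φ = 3 * 2^a`: `Gr (res v φ) (3 * 2^a)` in dimension `k - 1`.
 If `a + 2 ≤ k - 1`: induction (`k ≤ finrank P + 2 (k-1-a) + 1`, so `k + 1 ≤ finrank P + 2 (k-a)`).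
 If `k - 1 = a + 1`: `3 * 2^a ≥ 2^(a+1)`, gr_sub_one: `res v φ - 1` is `Gr (2^a)`, `= ind P'`,
 `finrank P' = a`, `v = 2` on `P'`; `k + 1 = a + 3 ≤ a + 4`.
(iii) `ft v φ ∈ {0, 2^a}` for all `φ ≠ 0`.  `P = {x | v x = 2}` (perSub), `e = finrank P`.
 `∑ ft v φ = 2^k * 2`, so `∑ (ft v φ)^2 = 2^a (2^(k+1) - 3 * 2^a) + 9 * 2^(2a)`
 `= 2^(k+a+1) + 6 * 2^(2a)`.  By Parseval (`ψ = 0`) this is `2^k ∑ (v x)^2`, and
 `v^2 = v + 2 [x ∈ P]`, so it is `2^k (3 * 2^a + 2 * 2^e)`.  Hence
 `6 * 2^(2a) = 2^(k+a) + 2^(k+e+1)`.  If `k ≥ a + 3` the right side is `> 8 * 2^(2a)`, impossible;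
 so `k = a + 2`, `2 * 2^(2a) = 2^(a+e+3)`, `e + 2 = a`, and `k + 1 = e + 2 * 2 + 1`.
-/
import Pool.Agent.GR72.Runs

namespace Pool.Agent.GR72

open Module

private theorem pair_map {W : Type} [AddCommGroup W] [Module (ZMod 2) W] [Finite W]
    (φ : Dual (ZMod 2) W) (Q : Submodule (ZMod 2) (LinearMap.ker φ)) :
    finrank (ZMod 2) (Q.map (LinearMap.ker φ).subtype) = finrank (ZMod 2) Q := by
  have e := Submodule.equivMapOfInjective (LinearMap.ker φ).subtype
    (Submodule.injective_subtype _) Q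
  exact e.symm.finrank_eq

private theorem pair_ds (a : ℕ) : ds (3 * 2 ^ a) = 2 := by
  rw [mul_comm, ds_two_pow_mul]
  have : (3 : ℕ) = 2 * 1 + 1 := rfl
  rw [this, ds_two_mul_add_one, ds_one]

private theorem pair_aux (k : ℕ) : ∀ (W : Type) [AddCommGroup W] [Module (ZMod 2) W] [Finite W]
    (v : W → ℤ) (a : ℕ), finrank (ZMod 2) W = k → Gr v (3 * 2 ^ a) → a + 2 ≤ k →
    ∃ P : Submodule (ZMod 2) W, (∀ x ∈ P, v x = 2) ∧
      k + 1 ≤ finrank (ZMod 2) P + 2 * (k - a) + (if k = a + 2 then 1 else 0) := by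
  induction k with
  | zero => intro W _ _ _ v a _ _ h; omega
  | succ k ih =>
    intro W _ _ _ v a hW h ha
    have htot : tot v = 3 * 2 ^ a := by rw [h.tot]; push_cast; ring
    have hzero : v 0 = 2 := by rw [h.zero, pair_ds]; rfl
    have hker : ∀ φ : Dual (ZMod 2) W, φ ≠ 0 → finrank (ZMod 2) (LinearMap.ker φ) = k := by
      intro φ hφ
      have := finrank_ker hφ
      omega
    by_cases hi : ∃ φ : Dual (ZMod 2) W, φ ≠ 0 ∧ ft v φ = 2 * 2 ^ a
    · -- case (i)
      obtain ⟨φ, hφ, hft⟩ := hi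
      have ha1 : a ≠ 0 := by
        rintro rfl
        have h1 := two_dvd_ft_sub_tot v φ
        rw [hft, htot] at h1
        norm_num at h1
      obtain ⟨b, rfl⟩ := Nat.exists_eq_succ_of_ne_zero ha1
      have h5 : 5 * 2 ^ b = 2 ^ b * (2 ^ (1 + 1) * 1 + (2 ^ 1 - 1)) := by
        norm_num
        ring
      have hds5 : ds (5 * 2 ^ b) = ds (3 * 2 ^ (b + 1)) := by
        rw [pair_ds, mul_comm, ds_two_pow_mul]
        have : (5 : ℕ) = 2 * (2 * 1) + 1 := rfl
        rw [this, ds_two_mul_add_one, ds_two_mul, ds_one]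
      have hr := gr_res h (ψ := φ) (5 * 2 ^ b) (by rw [hft, Nat.succ_eq_add_one, pow_succ]; push_cast; ring) hds5
      rw [h5] at hr
      obtain ⟨v2, hv2, hv1, -⟩ := run_split (run_one k (LinearMap.ker φ) (hker φ hφ)) hr
      have e2 : 2 ^ b * (2 ^ 1 - 1) = 2 ^ b := by norm_num
      rw [e2] at hv2
      rw [mul_one] at hv1
      obtain ⟨P2, hP2, hi2⟩ := gr_single hv2
      obtain ⟨P1, hP1, hi1⟩ := gr_single hv1
      refine ⟨(P1 ⊓ P2).map (LinearMap.ker φ).subtype, ?_, ?_⟩
      · intro x hx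
        obtain ⟨y, hy, rfl⟩ := Submodule.mem_map.1 hx
        have h1 := hi1 y
        have h2 := hi2 y
        have hy1 : y ∈ P1 := (Submodule.mem_inf.1 hy).1
        have hy2 : y ∈ P2 := (Submodule.mem_inf.1 hy).2
        unfold ind at h1 h2
        rw [if_pos hy1] at h1
        rw [if_pos hy2] at h2
        rw [h2] at h1
        have h3 : res v φ y = 2 := by linarith
        exact h3
      · rw [pair_map]
        have h1 := Submodule.finrank_sup_add_finrank_inf_eq P1 P2
        have h2 := Submodule.finrank_le (P1 ⊔ P2)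
        rw [hker φ hφ] at h2
        split_ifs <;> omega
    · by_cases hii : ∃ φ : Dual (ZMod 2) W, φ ≠ 0 ∧ ft v φ = 3 * 2 ^ a
      · -- case (ii)
        obtain ⟨φ, hφ, hft⟩ := hii
        have hr := gr_res h (ψ := φ) (3 * 2 ^ a) (by rw [hft]; push_cast; ring) rfl
        by_cases hk : a + 2 ≤ k
        · obtain ⟨P', hP', hle⟩ := ih (LinearMap.ker φ) (res v φ) a (hker φ hφ) hr hk
          refine ⟨P'.map (LinearMap.ker φ).subtype, ?_, ?_⟩
          · intro x hx
            obtain ⟨y, hy, rfl⟩ := Submodule.mem_map.1 hx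
            exact hP' y hy
          · rw [pair_map]
            split_ifs at hle ⊢ <;> omega
        · have hka : k = a + 1 := by omega
          have hle : 2 ^ finrank (ZMod 2) (LinearMap.ker φ) ≤ 3 * 2 ^ a := by
            rw [hker φ hφ, hka, pow_succ]
            have : 0 < 2 ^ a := by positivity
            omega
          obtain ⟨hg, -⟩ := gr_sub_one hr hle
          have e1 : 3 * 2 ^ a - 2 ^ finrank (ZMod 2) (LinearMap.ker φ) = 2 ^ a := by
            rw [hker φ hφ, hka, pow_succ]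
            omega
          rw [e1] at hg
          obtain ⟨P', hP', hi'⟩ := gr_single hg
          refine ⟨P'.map (LinearMap.ker φ).subtype, ?_, ?_⟩
          · intro x hx
            obtain ⟨y, hy, rfl⟩ := Submodule.mem_map.1 hx
            have h1 := hi' y
            unfold ind at h1
            rw [if_pos hy] at h1
            have h3 : res v φ y = 2 := by linarith
            exact h3
          · rw [pair_map, hP']
            split_ifs <;> omega
      · -- case (iii)
        have hvals : ∀ φ : Dual (ZMod 2) W, φ ≠ 0 → ft v φ * ft v φ = 2 ^ a * ft v φ := by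
          intro φ hφ
          obtain ⟨m, hm⟩ := ward h (Dvd.intro_left 3 rfl) φ
          have h0 := h.psd φ
          have h1 := gr_ft_le h φ
          push_cast at h1
          rw [hm] at h0 h1
          have hp : (0 : ℤ) < 2 ^ a := by positivity
          have hm0 : 0 ≤ m := (mul_nonneg_iff_of_pos_left hp).1 h0
          have hm3 : m ≤ 3 := by
            rw [mul_comm 3] at h1
            exact le_of_mul_le_mul_left h1 hp
          have hm2' : m ≠ 2 := by
            rintro rfl
            exact hi ⟨φ, hφ, by rw [hm]; ring⟩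
          have hm3' : m ≠ 3 := by
            rintro rfl
            exact hii ⟨φ, hφ, by rw [hm]; ring⟩
          have hm01 : m = 0 ∨ m = 1 := by omega
          rcases hm01 with h2 | h2
          · rw [hm, h2]; ring
          · rw [hm, h2]; ring
        obtain ⟨P, hP⟩ := perSub h.psd
        rw [hzero] at hP
        have := Fintype.ofFinite W
        have := Fintype.ofFinite (Dual (ZMod 2) W)
        have hsq : ∑ φ : Dual (ZMod 2) W, ft v φ * ft v φ
            = 2 ^ a * (2 ^ (k + 1) * 2) + 6 * (2 ^ a * 2 ^ a) := by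
          have h1 := inversion_zero v
          rw [finsum_eq_sum_of_fintype, hW, hzero] at h1
          rw [← h1, Finset.mul_sum]
          classical
          rw [← Finset.add_sum_erase _ (fun φ => ft v φ * ft v φ) (Finset.mem_univ 0),
            ← Finset.add_sum_erase _ (fun φ => 2 ^ a * ft v φ) (Finset.mem_univ 0)]
          have h2 : ∑ φ ∈ Finset.univ.erase (0 : Dual (ZMod 2) W), ft v φ * ft v φ
              = ∑ φ ∈ Finset.univ.erase (0 : Dual (ZMod 2) W), 2 ^ a * ft v φ :=
            Finset.sum_congr rfl fun φ hφ => hvals φ (Finset.ne_of_mem_erase hφ)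
          rw [h2, ft_zero, htot]
          ring
        have hpar := parseval_twist v v 0
        simp only [add_zero, LinearMap.zero_apply, sg_zero, one_mul] at hpar
        rw [finsum_eq_sum_of_fintype, finsum_eq_sum_of_fintype, hsq, hW] at hpar
        have hvv : ∀ x, v x * v x = v x + 2 * ind P x := by
          intro x
          have h1 := psd_abs_le h.psd x
          rw [hzero, abs_le] at h1
          have h2 := gr_nonneg h x
          unfold ind
          by_cases hx : x ∈ P
          · rw [if_pos hx, (hP x).1 hx]; norm_num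
          · rw [if_neg hx]
            have h3 : v x ≠ 2 := fun h4 => hx ((hP x).2 h4)
            have h4 : v x = 0 ∨ v x = 1 := by omega
            rcases h4 with h5 | h5 <;> rw [h5] <;> norm_num
        have hsv : ∑ x, v x * v x = 3 * 2 ^ a + 2 * 2 ^ finrank (ZMod 2) P := by
          rw [Finset.sum_congr rfl fun x _ => hvv x, Finset.sum_add_distrib, ← Finset.mul_sum,
            ← tot_eq_sum, ← tot_eq_sum, htot, tot_ind]
        rw [hsv] at hpar
        obtain ⟨m, hm⟩ : ∃ m, k + 1 = a + 2 + m := ⟨k + 1 - (a + 2), by omega⟩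
        obtain ⟨e, he⟩ : ∃ e, e = finrank (ZMod 2) P := ⟨_, rfl⟩
        rw [← he, hm] at hpar
        have hA : (0 : ℤ) < 2 ^ a := by positivity
        have hE : (0 : ℤ) < 2 ^ e := by positivity
        have hM : (0 : ℤ) < 2 ^ m := by positivity
        have e1 : (2 : ℤ) ^ (a + 2 + m) = 4 * 2 ^ a * 2 ^ m := by
          rw [pow_add, pow_add]; ring
        rw [e1] at hpar
        -- 6 A² = 4 M A² + 8 M A E
        have h6 : (2 : ℤ) ^ a * (3 * 2 ^ a) = 2 ^ a * (2 * 2 ^ m * 2 ^ a + 4 * 2 ^ m * 2 ^ e) := by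
          nlinarith [hpar]
        have h7 := mul_left_cancel₀ hA.ne' h6
        have hm0 : m = 0 := by
          by_contra hm0
          have h8 : (2 : ℤ) ≤ 2 ^ m := by
            calc (2 : ℤ) = 2 ^ 1 := by norm_num
              _ ≤ 2 ^ m := pow_le_pow_right₀ (by norm_num) (by omega)
          have h9 : (2 : ℤ) * 2 ^ a ≤ 2 ^ m * 2 ^ a := mul_le_mul_of_nonneg_right h8 hA.le
          have h10 : 0 < (2 : ℤ) ^ m * 2 ^ e := mul_pos hM hE
          nlinarith
        rw [hm0, pow_zero] at h7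
        have h8 : (2 : ℤ) ^ a = 2 ^ (e + 2) := by
          rw [pow_add]
          linarith
        have h9 : a = e + 2 := by
          have : (2 : ℕ) ^ a = 2 ^ (e + 2) := by exact_mod_cast h8
          exact Nat.pow_right_injective le_rfl this
        refine ⟨P, fun x hx => (hP x).1 hx, ?_⟩
        rw [← he]
        have h10 : k + 1 = a + 2 := by omega
        rw [if_pos h10]
        omega

theorem pair_lemma {W : Type} [AddCommGroup W] [Module (ZMod 2) W] [Finite W] {v : W → ℤ}
    {a : ℕ} (h : Gr v (3 * 2 ^ a)) (ha : a + 2 ≤ finrank (ZMod 2) W) :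
    ∃ P : Submodule (ZMod 2) W, (∀ x ∈ P, v x = 2) ∧
      finrank (ZMod 2) W + 1 ≤ finrank (ZMod 2) P + 2 * (finrank (ZMod 2) W - a) +
        (if finrank (ZMod 2) W = a + 2 then 1 else 0) :=
  pair_aux _ W v a rfl h ha

end Pool.Agent.GR72
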