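/-
GR72/Peel: the last run of ones of `V` (needs only CostDefs; Mathlib `Nat.bitIndices`).
`V = 2^c (2^(q+1) t + (2^q - 1))` has the ones `c, ..., c + q - 1` and those of `2^(c+q+1) t`.
* `exists_run`: `V = 2^c B`, `B` odd.  If `B % 4 = 1`: `q = 1`.  If `B % 4 = 3` then `B % 8 = 3`
  (otherwise the digits `c, c+1, c+2` are ones): `q = 2`.
* `bits_run_one`, `bits_run_two`: `Nat.bitIndices_two_pow_mul`, `Nat.bitIndices_two_mul_add_one`,
  `Nat.bitIndices_two_mul` (`2^2 t + 1 = 2 (2 t) + 1`, `2^3 t + 3 = 2 (2 (2 t) + 1) + 1`).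
* `testBit_high`: every one of `2^(c+q+1) t` is a one of `V`
  (`V = 2^(c+q+1) t + 2^c (2^q - 1)` with `2^c (2^q - 1) < 2^(c+q+1)`: `Nat.testBit_two_pow_mul_add`
  and `Nat.testBit_two_pow_mul`); `no3_high`, `eps_high` follow.
-/
import Pool.Agent.GR72.CostDefs

namespace Pool.Agent.GR72

theorem exists_run {V : ℕ} (hV : V ≠ 0) (h : NoThreeOnes V) :
    ∃ q c t, (q = 1 ∨ q = 2) ∧ V = 2 ^ c * (2 ^ (q + 1) * t + (2 ^ q - 1)) := by
  obtain ⟨c, B, hB, rfl⟩ := Nat.exists_eq_two_pow_mul_odd hV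
  obtain ⟨b, rfl⟩ := hB
  have hcases : b % 2 = 0 ∨ b % 4 = 1 ∨ b % 4 = 3 := by omega
  rcases hcases with h0 | h1 | h3
  · refine ⟨1, c, b / 2, Or.inl rfl, ?_⟩
    have : 2 * b + 1 = 2 ^ (1 + 1) * (b / 2) + (2 ^ 1 - 1) := by
      norm_num
      omega
    rw [this]
  · refine ⟨2, c, b / 4, Or.inr rfl, ?_⟩
    have : 2 * b + 1 = 2 ^ (2 + 1) * (b / 4) + (2 ^ 2 - 1) := by
      norm_num
      omega
    rw [this]
  · exfalso
    have hb : 2 * b + 1 = 2 ^ 3 * (b / 4) + 7 := by
      norm_num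
      omega
    have key : ∀ j, j < 3 → (2 ^ c * (2 * b + 1)).testBit (c + j) = true := by
      intro j hj
      have h7 : (2 * b + 1).testBit j = true := by
        rw [hb, Nat.testBit_two_pow_mul_add _ (by norm_num), if_pos hj]
        interval_cases j <;> decide
      rw [Nat.testBit_two_pow_mul, Nat.add_sub_cancel_left, h7]
      simp
    exact h c ⟨key 0 (by norm_num), key 1 (by norm_num), key 2 (by norm_num)⟩

theorem bits_run_one (c t : ℕ) : (2 ^ c * (2 ^ (1 + 1) * t + (2 ^ 1 - 1))).bitIndices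
    = c :: (2 ^ (c + 1 + 1) * t).bitIndices := by
  have e : 2 ^ (1 + 1) * t + (2 ^ 1 - 1) = 2 * (2 * t) + 1 := by
    norm_num
    ring
  rw [e, Nat.bitIndices_two_pow_mul, Nat.bitIndices_two_mul_add_one, Nat.bitIndices_two_mul,
    Nat.bitIndices_two_pow_mul, List.map_cons, List.map_map, List.map_map, Nat.zero_add]
  congr 1
  apply List.map_congr_left
  intro x _
  simp only [Function.comp_apply]
  ring

theorem bits_run_two (c t : ℕ) : (2 ^ c * (2 ^ (2 + 1) * t + (2 ^ 2 - 1))).bitIndices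
    = c :: (c + 1) :: (2 ^ (c + 2 + 1) * t).bitIndices := by
  have e : 2 ^ (2 + 1) * t + (2 ^ 2 - 1) = 2 * (2 * (2 * t) + 1) + 1 := by
    norm_num
    ring
  rw [e, Nat.bitIndices_two_pow_mul, Nat.bitIndices_two_mul_add_one,
    Nat.bitIndices_two_mul_add_one, Nat.bitIndices_two_mul,
    Nat.bitIndices_two_pow_mul, List.map_cons, List.map_cons, List.map_cons, List.map_map,
    List.map_map, List.map_map, Nat.zero_add, Nat.zero_add, Nat.add_comm 1 c]
  congr 2
  apply List.map_congr_left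
  intro x _
  simp only [Function.comp_apply]
  ring

theorem testBit_high {q c t j : ℕ} (h : (2 ^ (c + q + 1) * t).testBit j = true) :
    (2 ^ c * (2 ^ (q + 1) * t + (2 ^ q - 1))).testBit j = true := by
  have hlt : 2 ^ c * (2 ^ q - 1) < 2 ^ (c + q + 1) := by
    have h1 : 2 ^ c * (2 ^ q - 1) ≤ 2 ^ c * 2 ^ q := Nat.mul_le_mul_left _ (Nat.sub_le _ _)
    have h2 : 2 ^ c * 2 ^ q < 2 ^ (c + q + 1) := by
      rw [← pow_add]
      exact Nat.pow_lt_pow_right (by norm_num) (by omega)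
    exact lt_of_le_of_lt h1 h2
  have e : 2 ^ c * (2 ^ (q + 1) * t + (2 ^ q - 1)) =
      2 ^ (c + q + 1) * t + 2 ^ c * (2 ^ q - 1) := by
    rw [Nat.mul_add, ← Nat.mul_assoc, ← pow_add, ← Nat.add_assoc]
  rw [Nat.testBit_two_pow_mul] at h
  simp only [ge_iff_le, Bool.and_eq_true, decide_eq_true_eq] at h
  rw [e, Nat.testBit_two_pow_mul_add _ hlt, if_neg (by omega)]
  exact h.2

theorem no3_high {q c t : ℕ} (h : NoThreeOnes (2 ^ c * (2 ^ (q + 1) * t + (2 ^ q - 1)))) :
    NoThreeOnes (2 ^ (c + q + 1) * t) := by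
  intro i hi
  exact h i ⟨testBit_high hi.1, testBit_high hi.2.1, testBit_high hi.2.2⟩

theorem eps_high (k q c t : ℕ) :
    eps k (2 ^ (c + q + 1) * t) ≤ eps k (2 ^ c * (2 ^ (q + 1) * t + (2 ^ q - 1))) := by
  unfold eps
  split_ifs with h1 h2 h2
  · exact le_refl _
  · exact absurd ⟨testBit_high h1.1, testBit_high h1.2⟩ h2
  · exact Nat.zero_le _
  · exact le_refl _

theorem cost_run_one (k c t : ℕ) : cost k (2 ^ c * (2 ^ (1 + 1) * t + (2 ^ 1 - 1)))
    = (k - c) + cost k (2 ^ (c + 1 + 1) * t) := by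
  unfold cost
  rw [bits_run_one, List.map_cons, List.sum_cons]

theorem cost_run_two (k c t : ℕ) : cost k (2 ^ c * (2 ^ (2 + 1) * t + (2 ^ 2 - 1)))
    = (k - c) + (k - (c + 1)) + cost k (2 ^ (c + 2 + 1) * t) := by
  unfold cost
  rw [bits_run_two, List.map_cons, List.sum_cons, List.map_cons, List.sum_cons]
  exact (Nat.add_assoc _ _ _).symm

/-- `eps k (3 * 2^a) = 1` if `k = a + 2`. -/
theorem eps_pair (a : ℕ) : eps (a + 2) (3 * 2 ^ a) = 1 := by
  unfold eps
  have key : ∀ j, j < 2 → (3 * 2 ^ a).testBit (a + j) = true := by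
    intro j hj
    rw [Nat.mul_comm, Nat.testBit_two_pow_mul, Nat.add_sub_cancel_left]
    interval_cases j <;> (simp; try decide)
  rw [if_pos]
  exact ⟨key 1 (by norm_num), key 0 (by norm_num)⟩

theorem topcost_all (k V : ℕ) : topcost k V (ds V) = cost k V := by
  unfold topcost cost ds
  rw [← List.length_reverse, List.take_length, List.map_reverse, List.sum_reverse]

theorem topcost_run_one {k c t m : ℕ} (hm : m ≤ ds (2 ^ (c + 1 + 1) * t)) :
    topcost k (2 ^ c * (2 ^ (1 + 1) * t + (2 ^ 1 - 1))) m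
      = topcost k (2 ^ (c + 1 + 1) * t) m := by
  unfold topcost
  unfold ds at hm
  rw [bits_run_one, List.reverse_cons, List.take_append_of_le_length]
  rw [List.length_reverse]
  exact hm

theorem topcost_run_two {k c t m : ℕ} (hm : m ≤ ds (2 ^ (c + 2 + 1) * t)) :
    topcost k (2 ^ c * (2 ^ (2 + 1) * t + (2 ^ 2 - 1))) m
      = topcost k (2 ^ (c + 2 + 1) * t) m := by
  unfold topcost
  unfold ds at hm
  rw [bits_run_two, List.reverse_cons, List.reverse_cons, List.append_assoc,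
    List.take_append_of_le_length]
  rw [List.length_reverse]
  exact hm

/-- The cut inside the last pair: the ones of the high part and the upper one of the pair. -/
theorem topcost_cut (k c t : ℕ) :
    topcost k (2 ^ c * (2 ^ (2 + 1) * t + (2 ^ 2 - 1))) (ds (2 ^ (c + 2 + 1) * t) + 1)
      = cost k (2 ^ (c + 2 + 1) * t) + (k - (c + 1)) := by
  unfold topcost cost ds
  rw [bits_run_two, List.reverse_cons, List.reverse_cons,
    List.take_append_of_le_length (by simp)]
  have h : (2 ^ (c + 2 + 1) * t).bitIndices.length + 1 =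
      ((2 ^ (c + 2 + 1) * t).bitIndices.reverse ++ [c + 1]).length := by
    simp
  rw [h, List.take_length, List.map_append, List.sum_append, List.map_reverse, List.sum_reverse]
  simp

end Pool.Agent.GR72
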