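/-
GR72/Full: large subspaces on which `v` is maximal (needs Pair, Peel, Arith, RunSplit, Runs).
Names: `k = finrank W`.  Strong induction on `V` (all `v`).
`V = 0`: `v 0 = 0`, psd_eq_zero, `P = ⊤`.
Otherwise exists_run: `V = 2^c (2^(q+1) t + (2^q - 1))`, `V1 = 2^(c+q+1) t < V`.  run_one / run_two
and run_split: `v = v1 + v2`, `Gr v1 V1`, `Gr v2 (2^c (2^q - 1))`.  Induction hypothesis for `v1`
(no3_high): `P1` with `v1 = ds V1` on `P1`, `k ≤ finrank P1 + cost k V1 + eps k V1`.
`q = 1`: `2^c (2^1 - 1) = 2^c`, gr_single: `v2 = ind P2`, `finrank P2 = c`.  `P = P1 ⊓ P2`: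
`finrank P1 + finrank P2 ≤ k + finrank P` (`Submodule.finrank_sup_add_finrank_inf_eq`), cost_run_one,
eps_high, `ds V = ds V1 + 1` (ds_V).
`q = 2`, `t ≥ 1`: `V < 2^k` gives `c + 3 < k` (k_ge); pair_lemma for `v2` (`a = c`,
`2^c (2^2 - 1) = 3 * 2^c`; `k ≠ c + 2`): `P2` with `v2 = 2` on it and
`k + 1 ≤ finrank P2 + 2 (k - c)`, i.e. `finrank P2 ≥ k - ((k-c) + (k-(c+1)))`.  `P = P1 ⊓ P2`.
`q = 2`, `t = 0`: `V = 3 * 2^c < 2^k` gives `c + 2 ≤ k`, pair_lemma for `v` itself (or for `v2`;
`v1 = 0`): `P` with `v = 2` on it, `k + 1 ≤ finrank P + 2 (k-c) + [k = c + 2]`, and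
`cost k V = (k-c) + (k-(c+1))`, `eps k V = 1` if `k = c + 2` (eps_pair).
-/
import Pool.Agent.GR72.Pair
import Pool.Agent.GR72.Peel

namespace Pool.Agent.GR72

open Module

private theorem inf_dim {W : Type} [AddCommGroup W] [Module (ZMod 2) W] [Finite W]
    (P1 P2 : Submodule (ZMod 2) W) :
    finrank (ZMod 2) P1 + finrank (ZMod 2) P2 ≤
      finrank (ZMod 2) W + finrank (ZMod 2) (P1 ⊓ P2 : Submodule (ZMod 2) W) := by
  have h1 := Submodule.finrank_sup_add_finrank_inf_eq P1 P2
  have h2 := Submodule.finrank_le (P1 ⊔ P2)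
  omega

theorem full_thm {W : Type} [AddCommGroup W] [Module (ZMod 2) W] [Finite W] {v : W → ℤ} {V : ℕ}
    (h : Gr v V) (hV : V < 2 ^ finrank (ZMod 2) W) (h3 : NoThreeOnes V) :
    ∃ P : Submodule (ZMod 2) W, (∀ x ∈ P, v x = ds V) ∧
      finrank (ZMod 2) W ≤ finrank (ZMod 2) P + cost (finrank (ZMod 2) W) V
        + eps (finrank (ZMod 2) W) V := by
  induction V using Nat.strong_induction_on generalizing v with
  | _ V ih =>
    by_cases hV0 : V = 0
    · subst hV0
      have h0 : v 0 = 0 := by rw [h.zero, ds_zero]; rfl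
      refine ⟨⊤, fun x _ => ?_, ?_⟩
      · rw [psd_eq_zero h.psd h0 x, ds_zero]; rfl
      · rw [finrank_top]
        omega
    · obtain ⟨q, c, t, hq, rfl⟩ := exists_run hV0 h3
      have hlow : 0 < 2 ^ c * (2 ^ q - 1) := by
        apply Nat.mul_pos (by positivity)
        rcases hq with rfl | rfl <;> norm_num
      have hlt : 2 ^ (c + q + 1) * t < 2 ^ c * (2 ^ (q + 1) * t + (2 ^ q - 1)) := by
        rw [V_eq]
        omega
      rcases hq with rfl | rfl
      · obtain ⟨v2, g2, g1, -⟩ := run_split (run_one _ W rfl) h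
        obtain ⟨P1, hP1, hd1⟩ := ih _ hlt g1 (hlt.trans hV) (no3_high h3)
        have g2' : Gr v2 (2 ^ c) := by
          have e : 2 ^ c * (2 ^ 1 - 1) = 2 ^ c := by norm_num
          rwa [e] at g2
        obtain ⟨P2, hd2, hP2⟩ := gr_single g2'
        refine ⟨P1 ⊓ P2, fun x hx => ?_, ?_⟩
        · have h5 := hP1 x hx.1
          have h6 := hP2 x
          have h7 : ind P2 x = 1 := by
            unfold ind
            exact if_pos hx.2
          rw [h7] at h6
          rw [ds_high] at h5
          rw [ds_V]
          push_cast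
          have h8 : v x - v2 x = (ds t : ℤ) := h5
          linarith
        · have h5 := inf_dim P1 P2
          have h6 := eps_high (finrank (ZMod 2) W) 1 c t
          have h7 := Submodule.finrank_le P2
          rw [cost_run_one]
          rw [hd2] at h5 h7
          omega
      · by_cases ht : t = 0
        · subst ht
          have e : 2 ^ c * (2 ^ (2 + 1) * 0 + (2 ^ 2 - 1)) = 3 * 2 ^ c := by
            rw [Nat.mul_zero, Nat.zero_add]
            norm_num
            ring
          have hk : c + 2 ≤ finrank (ZMod 2) W := by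
            by_contra hc
            have h5 : 2 ^ finrank (ZMod 2) W ≤ 2 ^ (c + 1) :=
              Nat.pow_le_pow_right (by norm_num) (by omega)
            rw [e] at hV
            rw [pow_succ] at h5
            have h6 : 0 < 2 ^ c := by positivity
            omega
          have h' : Gr v (3 * 2 ^ c) := by rw [← e]; exact h
          obtain ⟨P, hP, hd⟩ := pair_lemma h' hk
          refine ⟨P, fun x hx => ?_, ?_⟩
          · rw [hP x hx, ds_V, ds_zero]
            norm_num
          · rw [cost_run_two]
            have h5 : (if finrank (ZMod 2) W = c + 2 then 1 else 0) ≤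
                eps (finrank (ZMod 2) W) (2 ^ c * (2 ^ (2 + 1) * 0 + (2 ^ 2 - 1))) := by
              split_ifs with h6
              · rw [e, h6, eps_pair]
              · exact Nat.zero_le _
            omega
        · have hk := k_ge (by omega) hV
          obtain ⟨v2, g2, g1, -⟩ := run_split (run_two _ W rfl) h
          obtain ⟨P1, hP1, hd1⟩ := ih _ hlt g1 (hlt.trans hV) (no3_high h3)
          have g2' : Gr v2 (3 * 2 ^ c) := by
            have e : 2 ^ c * (2 ^ 2 - 1) = 3 * 2 ^ c := by
              norm_num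
              ring
            rwa [e] at g2
          obtain ⟨P2, hP2, hd2⟩ := pair_lemma g2' (by omega)
          rw [if_neg (by omega)] at hd2
          refine ⟨P1 ⊓ P2, fun x hx => ?_, ?_⟩
          · have h5 := hP1 x hx.1
            have h6 := hP2 x hx.2
            rw [ds_high] at h5
            rw [ds_V]
            push_cast
            have h8 : v x - v2 x = (ds t : ℤ) := h5
            linarith
          · have h5 := inf_dim P1 P2
            have h6 := eps_high (finrank (ZMod 2) W) 2 c t
            rw [cost_run_two]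
            omega

end Pool.Agent.GR72
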