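/-
GR72/PeelGen: the last run of ones of `V`, all lengths (needs only CostDefs, Peel; Mathlib
`Nat.bitIndices`).  `V = 2^c (2^(q+1) t + (2^q - 1))` has the ones `c, ..., c + q - 1` and those of
`V1 = 2^(c+q+1) t`; `ds V1 = ds t`.
-/
import Pool.Agent.GR72.Peel
import Pool.Agent.GR72.Digits

namespace Pool.Agent.GR72

/-- No three consecutive integers among the `m` highest ones of `V`. -/
def NoThreeTop (V m : ℕ) : Prop :=
  ∀ i, ¬ (i ∈ V.bitIndices.reverse.take m ∧ i + 1 ∈ V.bitIndices.reverse.take m ∧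
    i + 2 ∈ V.bitIndices.reverse.take m)

theorem exists_run_gen {V : ℕ} (hV : V ≠ 0) :
    ∃ q c t, 1 ≤ q ∧ V = 2 ^ c * (2 ^ (q + 1) * t + (2 ^ q - 1)) := by
  obtain ⟨c, B, hB, rfl⟩ := Nat.exists_eq_two_pow_mul_odd hV
  obtain ⟨b, rfl⟩ := hB
  obtain ⟨q, B', hB', he⟩ := Nat.exists_eq_two_pow_mul_odd (n := 2 * b + 1 + 1) (by omega)
  obtain ⟨t, rfl⟩ := hB'
  refine ⟨q, c, t, ?_, ?_⟩
  · by_contra hq
    have hq0 : q = 0 := by omega
    subst hq0
    omega
  · congr 1
    rw [pow_succ]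
    have h1 : 1 ≤ 2 ^ q := Nat.one_le_two_pow
    have e : 2 ^ q * (2 * t + 1) = 2 ^ q * 2 * t + 2 ^ q := by ring
    rw [e] at he
    generalize 2 ^ q * 2 * t = z at he ⊢
    omega

private theorem bits_run_zero (q t : ℕ) : (2 ^ (q + 1) * t + (2 ^ q - 1)).bitIndices
    = (List.range q) ++ (2 ^ (q + 1) * t).bitIndices := by
  induction q with
  | zero =>
    simp
  | succ q ih =>
    have e1 : 2 ^ (q + 1 + 1) * t + (2 ^ (q + 1) - 1) = 2 * (2 ^ (q + 1) * t + (2 ^ q - 1)) + 1 := by
      rw [pow_succ 2 (q + 1), pow_succ 2 q]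
      have h1 : 1 ≤ 2 ^ q := Nat.one_le_two_pow
      have e2 : 2 ^ q * 2 * 2 * t = 2 * (2 ^ q * 2 * t) := by ring
      rw [e2]
      generalize 2 ^ q * 2 * t = z
      omega
    have e2 : 2 ^ (q + 1 + 1) * t = 2 * (2 ^ (q + 1) * t) := by ring
    rw [e1, Nat.bitIndices_two_mul_add_one, ih, e2, Nat.bitIndices_two_mul, List.map_append,
      List.range_succ_eq_map, List.cons_append]

theorem bits_run (q c t : ℕ) : (2 ^ c * (2 ^ (q + 1) * t + (2 ^ q - 1))).bitIndices
    = (List.range q).map (fun i => c + i) ++ (2 ^ (c + q + 1) * t).bitIndices := by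
  have e : 2 ^ (c + q + 1) * t = 2 ^ c * (2 ^ (q + 1) * t) := by
    rw [← mul_assoc, ← pow_add, add_assoc]
  rw [Nat.bitIndices_two_pow_mul, bits_run_zero, List.map_append, e,
    Nat.bitIndices_two_pow_mul c (2 ^ (q + 1) * t)]
  congr 1
  apply List.map_congr_left
  intro i _
  ring

private theorem rev_run (q c t : ℕ) :
    (2 ^ c * (2 ^ (q + 1) * t + (2 ^ q - 1))).bitIndices.reverse
    = (2 ^ (c + q + 1) * t).bitIndices.reverse ++ ((List.range q).map (fun i => c + i)).reverse := by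
  rw [bits_run, List.reverse_append]

theorem no3top_mono {V m m' : ℕ} (hm : m ≤ m') (h : NoThreeTop V m') : NoThreeTop V m := by
  intro i hi
  have hsub : ∀ x, x ∈ V.bitIndices.reverse.take m → x ∈ V.bitIndices.reverse.take m' := by
    intro x hx
    exact (List.take_subset_take_left _ hm) hx
  exact h i ⟨hsub _ hi.1, hsub _ hi.2.1, hsub _ hi.2.2⟩

private theorem take_app {L1 L2 : List ℕ} {m x : ℕ} (hx : x ∈ L1.take m) :
    x ∈ (L1 ++ L2).take m := by
  rw [List.take_append]
  exact List.mem_append_left _ hx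

theorem no3top_high {q c t m : ℕ}
    (h : NoThreeTop (2 ^ c * (2 ^ (q + 1) * t + (2 ^ q - 1))) m) :
    NoThreeTop (2 ^ (c + q + 1) * t) m := by
  intro i hi
  refine h i ?_
  rw [rev_run]
  exact ⟨take_app hi.1, take_app hi.2.1, take_app hi.2.2⟩

theorem no3top_ones {V m : ℕ} (hm : ds V ≤ m) (h : NoThreeTop V m) : NoThreeOnes V := by
  intro i hi
  have e : V.bitIndices.reverse.take m = V.bitIndices.reverse := by
    apply List.take_of_length_le
    rw [List.length_reverse]
    exact hm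
  refine h i ?_
  rw [e]
  simp only [List.mem_reverse, Nat.mem_bitIndices]
  exact hi

theorem no3top_run {q c t m : ℕ}
    (h : NoThreeTop (2 ^ c * (2 ^ (q + 1) * t + (2 ^ q - 1))) m) (hm : ds t + 3 ≤ m) :
    q ≤ 2 := by
  by_contra hq
  obtain ⟨r, rfl⟩ : ∃ r, q = r + 3 := ⟨q - 3, by omega⟩
  have hL : (2 ^ (c + (r + 3) + 1) * t).bitIndices.reverse.length = ds t := by
    rw [List.length_reverse]
    exact ds_two_pow_mul _ _
  have e : (2 ^ c * (2 ^ (r + 3 + 1) * t + (2 ^ (r + 3) - 1))).bitIndices.reverse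
      = ((2 ^ (c + (r + 3) + 1) * t).bitIndices.reverse ++ [c + (r + 2), c + (r + 1), c + r]) ++
        ((List.range r).map (fun i => c + i)).reverse := by
    rw [rev_run, List.range_succ, List.range_succ, List.range_succ]
    simp
  have hmem : ∀ x ∈ [c + (r + 2), c + (r + 1), c + r],
      x ∈ (2 ^ c * (2 ^ (r + 3 + 1) * t + (2 ^ (r + 3) - 1))).bitIndices.reverse.take m := by
    intro x hx
    rw [e]
    apply take_app
    rw [List.take_of_length_le]
    · exact List.mem_append_right _ hx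
    · rw [List.length_append, hL]
      simpa using hm
  refine h (c + r) ⟨hmem _ (by simp), ?_, ?_⟩
  · exact hmem _ (by simp [add_assoc])
  · exact hmem _ (by simp [add_assoc])

theorem topcost_run {k q c t m : ℕ} (hm : m ≤ ds t) :
    topcost k (2 ^ c * (2 ^ (q + 1) * t + (2 ^ q - 1))) m
      = topcost k (2 ^ (c + q + 1) * t) m := by
  have hL : (2 ^ (c + q + 1) * t).bitIndices.reverse.length = ds t := by
    rw [List.length_reverse]
    exact ds_two_pow_mul _ _
  unfold topcost
  rw [rev_run, List.take_append_of_le_length (by rw [hL]; exact hm)]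

theorem topcost_cut_gen {q : ℕ} (hq : 1 ≤ q) (k c t : ℕ) :
    topcost k (2 ^ c * (2 ^ (q + 1) * t + (2 ^ q - 1))) (ds t + 1)
      = cost k (2 ^ (c + q + 1) * t) + (k - (c + q - 1)) := by
  obtain ⟨r, rfl⟩ : ∃ r, q = r + 1 := ⟨q - 1, by omega⟩
  have hL : (2 ^ (c + (r + 1) + 1) * t).bitIndices.reverse.length = ds t := by
    rw [List.length_reverse]
    exact ds_two_pow_mul _ _
  unfold topcost cost
  have e : (2 ^ c * (2 ^ (r + 1 + 1) * t + (2 ^ (r + 1) - 1))).bitIndices.reverse
      = ((2 ^ (c + (r + 1) + 1) * t).bitIndices.reverse ++ [c + r]) ++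
        ((List.range r).map (fun i => c + i)).reverse := by
    rw [rev_run, List.range_succ]
    simp
  have hL2 : ((2 ^ (c + (r + 1) + 1) * t).bitIndices.reverse ++ [c + r]).length = ds t + 1 := by
    rw [List.length_append, hL]
    rfl
  rw [e, List.take_append_of_le_length (by rw [hL2]), List.take_of_length_le (by rw [hL2]),
    List.map_append, List.sum_append, List.map_reverse, List.sum_reverse]
  have e2 : c + (r + 1) - 1 = c + r := by omega
  rw [e2]
  simp

end Pool.Agent.GR72
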