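/-
GR72/RunC1: run splitting when the last run starts at the digit `1` (needs Runs, RunSplit, L1).
`n = 2^(q+1) t + (2^q - 1)` is odd, `V = 2 n`.  With `z = ∑ x, (v x : ZMod 2) • x` one has
`4 ∣ ft v φ - 2` if `φ z = 0` and `4 ∣ ft v φ` if `φ z = 1`; `z ≠ 0`, and
`v - dl 0 - dl z` is a Griesmer function with last run of length `q - 1` starting at digit `2`.
-/
import Pool.Agent.GR72.Runs

namespace Pool.Agent.GR72

open Module

variable {W : Type} [AddCommGroup W] [Module (ZMod 2) W] [Finite W]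

/-- The weighted sum of all vectors. -/
private noncomputable def c1z (v : W → ℤ) : W := ∑ᶠ x, ((v x : ℤ) : ZMod 2) • x

private theorem c1_wt (v : W → ℤ) (φ : Dual (ZMod 2) W) :
    ∃ w : ℤ, ft v φ = tot v - 2 * w ∧ ((w : ℤ) : ZMod 2) = φ (c1z v) := by
  classical
  have := Fintype.ofFinite W
  refine ⟨∑ x, if φ x = 1 then v x else 0, ?_, ?_⟩
  · rw [ft_eq_sum, tot_eq_sum, Finset.mul_sum, ← Finset.sum_sub_distrib]
    refine Finset.sum_congr rfl fun x _ => ?_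
    rcases zmod_cases (φ x) with h | h
    · rw [h, sg_zero, if_neg (by decide)]
      ring
    · rw [h, sg_one, if_pos rfl]
      ring
  · rw [c1z, finsum_eq_sum_of_fintype, map_sum, Int.cast_sum]
    refine Finset.sum_congr rfl fun x _ => ?_
    rw [map_smul, smul_eq_mul]
    rcases zmod_cases (φ x) with h | h
    · rw [h, if_neg (by decide)]
      simp
    · rw [h, if_pos rfl, mul_one]

theorem run_c1 {q t : ℕ} (hq : 1 ≤ q) (hp : RunAt (q - 1) W) {v : W → ℤ}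
    (h : Gr v (2 ^ 1 * (2 ^ (q + 1) * t + (2 ^ q - 1)))) : Splits q 1 v := by
  classical
  obtain ⟨r, rfl⟩ : ∃ r, q = r + 1 := ⟨q - 1, by omega⟩
  have hr1 : 1 ≤ 2 ^ r := Nat.one_le_two_pow
  obtain ⟨m, hm⟩ : ∃ m, 2 ^ (r + 1 + 1) * t + (2 ^ (r + 1) - 1) = 2 * m + 1 := by
    refine ⟨2 ^ (r + 1) * t + (2 ^ r - 1), ?_⟩
    rw [pow_succ 2 (r + 1), pow_succ 2 r]
    have e2 : 2 ^ r * 2 * 2 * t = 2 * (2 ^ r * 2 * t) := by ring
    rw [e2]
    generalize 2 ^ r * 2 * t = z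
    omega
  have hV : 2 ^ 1 * (2 ^ (r + 1 + 1) * t + (2 ^ (r + 1) - 1)) = 2 * (2 * m + 1) := by
    rw [hm, pow_one]
  have htot : tot v = 2 * (2 * (m : ℤ) + 1) := by
    rw [h.tot, hV]; push_cast; ring
  have hz0 : v 0 = (ds m : ℤ) + 1 := by
    rw [h.zero, hV, ds_two_mul, ds_two_mul_add_one]; push_cast; ring
  have hA : ∀ φ : Dual (ZMod 2) W, φ (c1z v) = 0 → ∃ a : ℤ, ft v φ = 4 * a + 2 := by
    intro φ hφ
    obtain ⟨w, hw, hw2⟩ := c1_wt v φ
    rw [hφ] at hw2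
    obtain ⟨b, hb⟩ := (ZMod.intCast_zmod_eq_zero_iff_dvd w 2).1 hw2
    refine ⟨m - b, ?_⟩
    rw [hw, htot, hb]
    push_cast
    ring
  have hB : ∀ φ : Dual (ZMod 2) W, φ (c1z v) = 1 → ∃ a : ℤ, ft v φ = 4 * a := by
    intro φ hφ
    obtain ⟨w, hw, hw2⟩ := c1_wt v φ
    rw [hφ] at hw2
    have h1 : ((w - 1 : ℤ) : ZMod 2) = 0 := by
      push_cast
      rw [hw2, sub_self]
    obtain ⟨b, hb⟩ := (ZMod.intCast_zmod_eq_zero_iff_dvd (w - 1) 2).1 h1
    refine ⟨m - b, ?_⟩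
    rw [hw, htot]
    push_cast at hb ⊢
    linear_combination (-2 : ℤ) * hb
  have hzne : c1z v ≠ 0 := by
    intro h0
    have hp2 : Psd (fun x => v x - 2 * dl 0 x) := by
      intro φ
      rw [ft_sub v (fun x => 2 * dl 0 x), ft_mul, ft_dl, map_zero, sg_zero]
      obtain ⟨a, ha⟩ := hA φ (by rw [h0, map_zero])
      have h1 := h.psd φ
      omega
    have ht2 : tot (fun x => v x - 2 * dl 0 x) = ((2 * (2 * m) : ℕ) : ℤ) := by
      rw [tot_sub v (fun x => 2 * dl 0 x), tot_mul, tot_dl, htot]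
      push_cast
      ring
    have h1 := ds_le hp2 _ ht2
    rw [ds_two_mul, ds_two_mul] at h1
    have h2 : dl (0 : W) 0 = 1 := by simp [dl]
    change (ds m : ℤ) ≤ v 0 - 2 * dl 0 0 at h1
    rw [h2, hz0] at h1
    linarith
  set z := c1z v with hz
  have hu0 : dl (0 : W) 0 + dl z 0 = 1 := by
    simp [dl, hzne.symm]
  have hftu : ∀ φ : Dual (ZMod 2) W, ft (fun x => dl 0 x + dl z x) φ = 1 + sg (φ z) := by
    intro φ
    rw [ft_add, ft_dl, ft_dl, map_zero, sg_zero]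
  have hV' : 2 ^ 2 * (2 ^ (r + 1) * t + (2 ^ r - 1)) = 2 * (2 * m) := by
    have h1 : 2 ^ (r + 1 + 1) * t + (2 ^ (r + 1) - 1) = 2 * (2 ^ (r + 1) * t + (2 ^ r - 1)) + 1 := by
      rw [pow_succ 2 (r + 1), pow_succ 2 r]
      have e2 : 2 ^ r * 2 * 2 * t = 2 * (2 ^ r * 2 * t) := by ring
      rw [e2]
      generalize 2 ^ r * 2 * t = z
      omega
    have h2 : 2 ^ (r + 1) * t + (2 ^ r - 1) = m := by omega
    rw [h2]
    ring
  have h4 : ∀ φ : Dual (ZMod 2) W, ∃ a : ℤ, 0 ≤ a ∧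
      ft (fun x => v x - (dl 0 x + dl z x)) φ = 4 * a := by
    intro φ
    rw [ft_sub v (fun x => dl 0 x + dl z x), hftu]
    have h1 := h.psd φ
    rcases zmod_cases (φ z) with h2 | h2
    · obtain ⟨a, ha⟩ := hA φ h2
      refine ⟨a, by omega, ?_⟩
      rw [h2, sg_zero, ha]
      ring
    · obtain ⟨a, ha⟩ := hB φ h2
      refine ⟨a, by omega, ?_⟩
      rw [h2, sg_one, ha]
      ring
  have hgr : Gr (fun x => v x - (dl 0 x + dl z x)) (2 ^ 2 * (2 ^ (r + 1) * t + (2 ^ r - 1))) := by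
    refine ⟨fun φ => ?_, ?_, ?_⟩
    · obtain ⟨a, ha, hb⟩ := h4 φ
      rw [hb]
      linarith
    · rw [tot_sub v (fun x => dl 0 x + dl z x), tot_add, tot_dl, tot_dl, htot, hV']
      push_cast
      ring
    · rw [hV', ds_two_mul, ds_two_mul]
      show v 0 - (dl 0 0 + dl z 0) = _
      rw [hu0, hz0]
      ring
  obtain ⟨w, hw0, hw⟩ := hp _ 2 t hgr
  refine splits_of_mod (v2 := fun x => w x + (dl 0 x + dl z x)) h fun φ => ?_
  rw [ft_add w (fun x => dl 0 x + dl z x), hw φ, hftu]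
  obtain ⟨a, ha, hb⟩ := h4 φ
  have hv : ft v φ = 4 * a + (1 + sg (φ z)) := by
    rw [ft_sub v (fun x => dl 0 x + dl z x), hftu] at hb
    linarith
  rw [hb, hv]
  have e4 : (2 : ℤ) ^ (2 + (r + 1 - 1) + 1) = 4 * 2 ^ (r + 1) := by
    rw [Nat.add_sub_cancel, show 2 + r + 1 = 2 + (r + 1) by ring, pow_add]; norm_num
  have e5 : (2 : ℤ) ^ (1 + (r + 1) + 1) = 4 * 2 ^ (r + 1) := by
    rw [show 1 + (r + 1) + 1 = 2 + (r + 1) by ring, pow_add]; norm_num
  rw [e4, e5, Int.mul_emod_mul_of_pos _ _ (by norm_num : (0 : ℤ) < 4)]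
  have hM : (0 : ℤ) < 2 ^ (r + 1) := by positivity
  have h7 : 0 ≤ a % 2 ^ (r + 1) := Int.emod_nonneg _ hM.ne'
  have h8 : a % 2 ^ (r + 1) < 2 ^ (r + 1) := Int.emod_lt_of_pos _ hM
  have hs : 1 + sg (φ z) = 0 ∨ 1 + sg (φ z) = 2 := by
    rcases sg_cases (φ z) with h9 | h9 <;> rw [h9] <;> norm_num
  have h9 : 4 * a + (1 + sg (φ z)) = (4 * (a % 2 ^ (r + 1)) + (1 + sg (φ z)))
      + 4 * 2 ^ (r + 1) * (a / 2 ^ (r + 1)) := by
    have := Int.emod_add_mul_ediv a (2 ^ (r + 1))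
    linear_combination (-4 : ℤ) * this
  conv_rhs => rw [h9]
  rw [Int.add_mul_emod_self_left]
  refine (Int.emod_eq_of_lt ?_ ?_).symm
  · rcases hs with h10 | h10 <;> rw [h10] <;> linarith
  · generalize (2 : ℤ) ^ (r + 1) = N at *
    rcases hs with h10 | h10 <;> rw [h10] <;> omega

end Pool.Agent.GR72
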