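/-
GR72/RunAll: run splitting for runs of all lengths (proved from the stubs).
-/
import Pool.Agent.GR72.BaseGen
import Pool.Agent.GR72.RunC1
import Pool.Agent.GR72.MainStep

namespace Pool.Agent.GR72

open Module

variable {W : Type} [AddCommGroup W] [Module (ZMod 2) W] [Finite W]

theorem main_step_gen {q c' t : ℕ} (hc : 1 ≤ c') {v : W → ℤ} (S : Sit q (c' + 1) t v)
    (IH : RunDim q (finrank (ZMod 2) W - 1)) : Splits q (c' + 1) v := by
  by_cases hV : 2 ^ (c' + 1) * (2 ^ (q + 1) * t + (2 ^ q - 1)) < 2 ^ (finrank (ZMod 2) W - 1)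
  · exact small_step S IH hV
  by_cases hno : ∃ φ : Dual (ZMod 2) W, ∀ x, v x = 0 → φ x = 1
  swap
  · exact caseN S IH hno
  obtain ⟨φ₀, h1⟩ := hno
  rcases caseB S IH h1 with h | ⟨f, B⟩
  · exact h
  have hk := k_ge S.ht S.lt
  by_cases hkk : finrank (ZMod 2) W = c' + 1 + q + 2
  · exact (base_gen hc S IH B hkk).elim
  have hk3 : c' + 1 + q + 3 ≤ finrank (ZMod 2) W := by omega
  obtain ⟨g, hg, hgm⟩ := qtrick S B (tau_bound S IH B) (e := finrank (ZMod 2) W - 2)
    (by omega) (by omega)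
  have hle : 2 ^ (c' + 1) * (2 ^ (q + 1) * 2 ^ (finrank (ZMod 2) W - 2 - (c' + 1 + q + 1))
      + (2 ^ q - 1)) < 2 ^ (finrank (ZMod 2) W - 1) := by
    rw [V_eq, ← pow_add]
    have e1 : c' + 1 + q + 1 + (finrank (ZMod 2) W - 2 - (c' + 1 + q + 1))
        = finrank (ZMod 2) W - 2 := by omega
    rw [e1]
    have e2 := low_lt q (c' + 1)
    have e3 : 2 ^ (c' + 1 + q) ≤ 2 ^ (finrank (ZMod 2) W - 2) :=
      Nat.pow_le_pow_right (by norm_num) (by omega)
    have e4 : 2 ^ (finrank (ZMod 2) W - 1) = 2 ^ (finrank (ZMod 2) W - 2) * 2 := by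
      rw [← pow_succ]; congr 1; omega
    omega
  have Sg : Sit q (c' + 1) (2 ^ (finrank (ZMod 2) W - 2 - (c' + 1 + q + 1))) g :=
    ⟨S.hq, S.hc, Nat.one_le_two_pow, hg,
      lt_of_lt_of_le hle (Nat.pow_le_pow_right (by norm_num) (by omega))⟩
  obtain ⟨v2, hv2, hv2'⟩ := small_step Sg IH hle
  exact ⟨v2, hv2, fun φ => by rw [hv2' φ, hgm φ]⟩

theorem run_dim_gen {q : ℕ} (hq : 1 ≤ q) (hp : ∀ k, RunDim (q - 1) k) (k : ℕ) :
    RunDim q k := by
  induction k with
  | zero =>
    intro W _ _ _ hW v c t h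
    by_cases ht : t = 0
    · subst ht; exact run_t0 h
    exfalso
    have h1 := gr_lt h
    rw [hW, V_eq] at h1
    have h2 : 2 ^ (c + q + 1) * 1 ≤ 2 ^ (c + q + 1) * t := Nat.mul_le_mul_left _ (by omega)
    have h3 : 2 ^ 1 ≤ 2 ^ (c + q + 1) := Nat.pow_le_pow_right (by norm_num) (by omega)
    simp at h1 h3
    omega
  | succ k ih =>
    intro W _ _ _ hW v c t h
    have hs : ∀ (v : W → ℤ) (t : ℕ), Gr v (2 ^ c * (2 ^ (q + 1) * t + (2 ^ q - 1))) →
        2 ^ c * (2 ^ (q + 1) * t + (2 ^ q - 1)) < 2 ^ finrank (ZMod 2) W → Splits q c v := by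
      intro v t h hlt
      by_cases ht : t = 0
      · subst ht; exact run_t0 h
      rcases c with _ | _ | c
      · exact run_c0 hq (hp (k + 1) W hW) h
      · exact run_c1 hq (hp (k + 1) W hW) h
      · have S : Sit q (c + 1 + 1) t v := ⟨hq, by omega, by omega, h, hlt⟩
        refine main_step_gen (by omega) S ?_
        rw [hW]
        exact ih
    by_cases ht : t = 0
    · subst ht; exact run_t0 h
    by_cases hlt : 2 ^ c * (2 ^ (q + 1) * t + (2 ^ q - 1)) < 2 ^ finrank (ZMod 2) W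
    · exact hs v t h hlt
    · exact run_big h (by omega) (by omega) hs

/-- Run splitting: the last run of ones of `V` splits off every function meeting the
Griesmer inequality. -/
theorem run_all (q k : ℕ) : RunDim q k := by
  induction q generalizing k with
  | zero => exact run_zero k
  | succ q ih => exact run_dim_gen (q := q + 1) (by omega) ih k

end Pool.Agent.GR72
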