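/-
GR72/Vanish: Griesmer functions vanishing on a subspace (needs Core, Hyp).
Induction on `finrank P` (all `W`, `v`; `V` fixed): fold along a nonzero vector of `P`.
-/
import Pool.Agent.GR72.Core

namespace Pool.Agent.GR72

open Module

private theorem vanish_aux (p : ℕ) : ∀ (W : Type) [AddCommGroup W] [Module (ZMod 2) W] [Finite W]
    (v : W → ℤ) (V : ℕ), Gr v V → ∀ (P : Submodule (ZMod 2) W), finrank (ZMod 2) P = p →
    (∀ x ∈ P, x ≠ 0 → v x = 0) → ∀ j, p + j = finrank (ZMod 2) W → V < 2 ^ (j + 1) := by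
  induction p with
  | zero =>
    intro W _ _ _ v V h P hp hP j hj
    have h1 := gr_lt h
    rw [zero_add] at hj
    rw [hj]
    exact h1
  | succ p ih =>
    intro W _ _ _ v V h P hp hP j hj
    have hne : P ≠ ⊥ := by
      rintro rfl
      rw [finrank_bot] at hp
      omega
    obtain ⟨x, hx, hx0⟩ := Submodule.exists_mem_ne_zero_of_ne_bot hne
    obtain ⟨ψ, hψ⟩ := exists_dual_one hx0
    have hψ0 : ψ ≠ 0 := by
      rintro rfl
      simp at hψ
    have hker := finrank_ker hψ0
    have hfold := gr_fold h hψ (hP x hx hx0)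
    have hfr : finrank (ZMod 2) (P.comap (LinearMap.ker ψ).subtype) = p := by
      have h1 : finrank (ZMod 2) (P.comap (LinearMap.ker ψ).subtype) =
          finrank (ZMod 2) (LinearMap.ker (ψ.comp P.subtype)) := by
        refine LinearEquiv.finrank_eq ?_
        refine LinearEquiv.ofBijective
          { toFun := fun y => ⟨⟨y.1.1, y.2⟩, by
              rw [LinearMap.mem_ker]; exact LinearMap.mem_ker.1 y.1.2⟩
            map_add' := fun a b => rfl
            map_smul' := fun a b => rfl } ⟨?_, ?_⟩
        · intro a b hab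
          have := congrArg (fun z => z.1.1) hab
          exact Subtype.ext (Subtype.ext this)
        · rintro ⟨⟨y, hy⟩, hy2⟩
          exact ⟨⟨⟨y, LinearMap.mem_ker.2 (LinearMap.mem_ker.1 hy2)⟩, hy⟩, rfl⟩
      rw [h1]
      have h2 : ψ.comp P.subtype ≠ 0 := by
        intro h3
        have h4 := LinearMap.congr_fun h3 ⟨x, hx⟩
        simp only [LinearMap.comp_apply, Submodule.subtype_apply, LinearMap.zero_apply] at h4
        rw [hψ] at h4
        exact absurd h4 (by decide)
      have h3 := finrank_ker (W := P) h2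
      omega
    refine ih (LinearMap.ker ψ) (fold v ψ x) V hfold (P.comap (LinearMap.ker ψ).subtype) hfr ?_ j
      (by omega)
    intro y hy hy0
    have hyP : (y : W) ∈ P := hy
    have hy0' : (y : W) ≠ 0 := fun h5 => hy0 (Subtype.ext h5)
    have h5 : (y : W) + x ≠ 0 := by
      intro h6
      have h7 : ψ ((y : W) + x) = 0 := by rw [h6, map_zero]
      rw [map_add, LinearMap.mem_ker.1 y.2, hψ, zero_add] at h7
      exact absurd h7 (by decide)
    show v y + v (y + x) = 0
    rw [hP _ hyP hy0', hP _ (P.add_mem hyP hx) h5, add_zero]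

theorem gr_vanish {W : Type} [AddCommGroup W] [Module (ZMod 2) W] [Finite W] {v : W → ℤ} {V : ℕ}
    (h : Gr v V) (P : Submodule (ZMod 2) W) (hP : ∀ x ∈ P, x ≠ 0 → v x = 0) {j : ℕ}
    (hj : finrank (ZMod 2) P + j = finrank (ZMod 2) W) : V < 2 ^ (j + 1) :=
  vanish_aux _ W v V h P rfl hP j hj

end Pool.Agent.GR72
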