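/-
GR72/NecGen: necessity, only the `s + 2` highest ones matter (needs RunAll, Full, PeelGen, Vanish;
compare GR72/Nec, whose proof has the same structure).
Names: `k = finrank W`.  Strong induction on `V` (all `v`).  `V ≠ 0` because `ds V ≥ 2`.
exists_run_gen: `V = 2^c (2^(q+1) t + (2^q - 1))`, `V1 = 2^(c+q+1) t < V` (V_eq),
`ds V = ds t + q` (ds_V), `ds V1 = ds t` (ds_high); `run_all q _ W rfl` and run_split:
`v2` with `Gr v2 (2^c (2^q - 1))`, `v1 = v - v2` is `Gr V1`, both nonnegative (gr_nonneg).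
(b) `s + 1 ≤ ds t`: `v1 x ≤ v x ≤ s` for `x ≠ 0`; induction hypothesis for `v1` (no3top_high),
topcost_run, eps_high.
(a1) `s = ds t`: `NoThreeOnes V1` (no3top_high and no3top_ones).  full_thm for `v1`: `P1` with
`v1 = s` on `P1` and `k ≤ finrank P1 + cost k V1 + eps k V1`.  As `v ≤ s` off `0` and `v2 ≥ 0`:
`v2 x = 0` for `x ∈ P1`, `x ≠ 0`.  gr_vanish with `j = k - finrank P1`:
`2^c (2^q - 1) < 2^(j+1)`, and `2^(c+q-1) ≤ 2^c (2^q - 1)`, so `c + q - 1 ≤ j`,
`finrank P1 ≤ k - (c + q - 1)`.  topcost_cut_gen, eps_high.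
(a2) `s ≥ ds t + 1`: no3top_run gives `q ≤ 2`; `s + 1 ≤ ds t + q` gives `q = 2`, `s + 1 = ds V`;
`NoThreeOnes V` (no3top_ones).  full_thm for `v`: `P` with `v = s + 1` on `P`, so `P = ⊥` by `hb`, and
`k ≤ cost k V + eps k V`; topcost_all.
-/
import Pool.Agent.GR72.RunAll
import Pool.Agent.GR72.Full
import Pool.Agent.GR72.PeelGen
import Pool.Agent.GR72.Vanish

namespace Pool.Agent.GR72

open Module

theorem nec_gen {W : Type} [AddCommGroup W] [Module (ZMod 2) W] [Finite W] {v : W → ℤ}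
    {V s : ℕ} (h : Gr v V) (hV : V < 2 ^ finrank (ZMod 2) W) (h3 : NoThreeTop V (s + 2))
    (hs : 1 ≤ s) (hds : s + 1 ≤ ds V) (hb : ∀ x, x ≠ 0 → v x ≤ s) :
    finrank (ZMod 2) W ≤ topcost (finrank (ZMod 2) W) V (s + 1)
      + eps (finrank (ZMod 2) W) V := by
  classical
  induction V using Nat.strong_induction_on generalizing v with
  | _ V ih =>
  have hV0 : V ≠ 0 := by
    rintro rfl
    have : ds 0 = 0 := by simp [ds]
    omega
  obtain ⟨q, c, t, hq1, rfl⟩ := exists_run_gen hV0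
  obtain ⟨v2, hv2, hv1, -⟩ := run_split (run_all q _ W rfl) h
  have hdsV := ds_V q c t
  have hdsV1 := ds_high q c t
  have hVeq := V_eq q c t
  have h2q : 2 ^ 1 ≤ 2 ^ q := Nat.pow_le_pow_right (by norm_num) hq1
  have hlow : 2 ^ (c + q - 1) ≤ 2 ^ c * (2 ^ q - 1) := by
    obtain ⟨r, rfl⟩ : ∃ r, q = r + 1 := ⟨q - 1, by omega⟩
    have e1 : c + (r + 1) - 1 = c + r := by omega
    rw [e1, pow_add]
    refine Nat.mul_le_mul_left _ ?_
    rw [pow_succ]
    have : 1 ≤ 2 ^ r := Nat.one_le_two_pow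
    omega
  have hlow1 : 1 ≤ 2 ^ c * (2 ^ q - 1) := le_trans Nat.one_le_two_pow hlow
  have hV1lt : 2 ^ (c + q + 1) * t < 2 ^ c * (2 ^ (q + 1) * t + (2 ^ q - 1)) := by
    rw [hVeq]
    omega
  have heps := eps_high (finrank (ZMod 2) W) q c t
  by_cases hs1 : s + 1 ≤ ds t
  · -- the high part
    have h1 := ih _ hV1lt hv1 (hV1lt.trans hV) (no3top_high h3) (by rw [hdsV1]; exact hs1)
      (fun x hx => by
        have h2 := hb x hx
        have h3 := gr_nonneg hv2 x
        show v x - v2 x ≤ s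
        linarith)
    rw [topcost_run hs1]
    omega
  by_cases hs2 : s = ds t
  · -- the cut after the first one of the run
    have h31 : NoThreeOnes (2 ^ (c + q + 1) * t) :=
      no3top_ones (by rw [hdsV1]; omega) (no3top_high h3)
    obtain ⟨P1, hP1, hk⟩ := full_thm hv1 (hV1lt.trans hV) h31
    have hz : ∀ x ∈ P1, x ≠ 0 → v2 x = 0 := by
      intro x hx hx0
      have h1 : v x - v2 x = ds (2 ^ (c + q + 1) * t) := hP1 x hx
      rw [hdsV1, ← hs2] at h1
      have h2 := hb x hx0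
      have h3 := gr_nonneg hv2 x
      linarith
    have hle := Submodule.finrank_le P1
    have h1 := gr_vanish hv2 P1 hz (j := finrank (ZMod 2) W - finrank (ZMod 2) P1) (by omega)
    have h2 : c + q - 1 < finrank (ZMod 2) W - finrank (ZMod 2) P1 + 1 :=
      (Nat.pow_lt_pow_iff_right (by norm_num : 1 < 2)).1 (lt_of_le_of_lt hlow h1)
    have h4 := topcost_cut_gen hq1 (finrank (ZMod 2) W) c t
    rw [← hs2] at h4
    rw [h4]
    omega
  · have hq2 := no3top_run h3 (by omega)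
    have hsV : s + 1 = ds (2 ^ c * (2 ^ (q + 1) * t + (2 ^ q - 1))) := by
      rw [hdsV] at hds ⊢
      omega
    have h31 : NoThreeOnes (2 ^ c * (2 ^ (q + 1) * t + (2 ^ q - 1))) :=
      no3top_ones (by omega) h3
    obtain ⟨P, hP, hk⟩ := full_thm h hV h31
    have hbot : P = ⊥ := by
      rw [Submodule.eq_bot_iff]
      intro x hx
      by_contra hx0
      have h1 := hP x hx
      have h2 := hb x hx0
      rw [h1, ← hsV] at h2
      push_cast at h2
      linarith
    rw [hbot, finrank_bot, zero_add] at hk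
    rw [hsV, topcost_all]
    exact hk

end Pool.Agent.GR72
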