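/-
GR72/WBClass: 2-adic degree classes (Mathlib only).
`ι` a type with decidable equality, `f : Finset ι → ℤ`.  `PC t f`: `f J = ∑_{I ⊆ J} β I` with
`2 ^ (|I| - t) ∣ β I` for all `I` (natural subtraction).
* `pc_const`: `β ∅ = a`, `β I = 0` otherwise.
* `pc_add`, `pc_sum`: add the functions `β`.
* `pc_mono`.
* `pc_mul`: the coefficient at `K` is `∑_{I ∪ I' = K} β I * γ I'` (sum over pairs in
  `K.powerset ×ˢ K.powerset` with union `K`); `(|I| - s) + (|I'| - t) ≥ |K| - (s + t)` because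
  `|K| ≤ |I| + |I'|` (`Finset.card_union_le`).
  `(∑_{I ⊆ J} β I) (∑_{I' ⊆ J} γ I') = ∑_{K ⊆ J} ∑_{I ∪ I' = K}`: `Finset.sum_mul_sum`,
  `Finset.sum_product'`, then `Finset.sum_fiberwise_of_maps_to` for the map `(I, I') ↦ I ∪ I'`
  (`I, I' ⊆ J ↔ I ∪ I' ⊆ J`).
* `pc_delta`: if `f ∅ = a` and `f J = 0` for all nonempty `J ⊆ univ`, then `PC t f` implies
  `2 ^ (|J| - t) ∣ a` for all `J`: by strong induction on `J` one has `β J = (-1)^|J| a`
  (`∑_{I ⊆ J} (-1)^|I| = 0` for nonempty `J`: `Finset.sum_powerset_neg_one_pow_card_of_nonempty`).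
-/
import Mathlib

namespace Pool.Agent.GR72

variable {ι : Type} [DecidableEq ι]

/-- `f` has 2-adic degree at most `t`. -/
def PC (t : ℕ) (f : Finset ι → ℤ) : Prop :=
  ∃ β : Finset ι → ℤ, (∀ J, f J = ∑ I ∈ J.powerset, β I) ∧ ∀ I, (2 : ℤ) ^ (I.card - t) ∣ β I

theorem pc_const (a : ℤ) : PC 0 (fun _ : Finset ι => a) := by
  refine ⟨fun I => if I = ∅ then a else 0, fun J => ?_, fun I => ?_⟩
  · rw [Finset.sum_ite_eq', if_pos (Finset.empty_mem_powerset J)]
  · dsimp only
    split_ifs with h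
    · rw [h]; simp
    · exact dvd_zero _

theorem pc_mono {s t : ℕ} (h : s ≤ t) {f : Finset ι → ℤ} (hf : PC s f) : PC t f := by
  obtain ⟨β, h1, h2⟩ := hf
  exact ⟨β, h1, fun I => (pow_dvd_pow 2 (by omega)).trans (h2 I)⟩

theorem pc_add {t : ℕ} {f g : Finset ι → ℤ} (hf : PC t f) (hg : PC t g) :
    PC t (fun J => f J + g J) := by
  obtain ⟨β, h1, h2⟩ := hf
  obtain ⟨γ, h3, h4⟩ := hg
  refine ⟨fun I => β I + γ I, fun J => ?_, fun I => dvd_add (h2 I) (h4 I)⟩
  dsimp only
  rw [h1, h3, Finset.sum_add_distrib]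

theorem pc_sum {t : ℕ} {α : Type} (A : Finset α) {f : α → Finset ι → ℤ}
    (hf : ∀ a ∈ A, PC t (f a)) : PC t (fun J => ∑ a ∈ A, f a J) := by
  unfold PC at hf
  choose! β hβ using hf
  refine ⟨fun I => ∑ a ∈ A, β a I, fun J => ?_, fun I => ?_⟩
  · rw [Finset.sum_comm]
    exact Finset.sum_congr rfl (fun a ha => (hβ a ha).1 J)
  · exact Finset.dvd_sum (fun a ha => (hβ a ha).2 I)

theorem pc_mul {s t : ℕ} {f g : Finset ι → ℤ} (hf : PC s f) (hg : PC t g) :
    PC (s + t) (fun J => f J * g J) := by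
  obtain ⟨β, h1, h2⟩ := hf
  obtain ⟨γ, h3, h4⟩ := hg
  refine ⟨fun K => ∑ p ∈ (K.powerset ×ˢ K.powerset).filter (fun p => p.1 ∪ p.2 = K),
    β p.1 * γ p.2, fun J => ?_, fun K => ?_⟩
  · dsimp only
    rw [h1, h3, Finset.sum_mul_sum, ← Finset.sum_product',
      ← Finset.sum_fiberwise_of_maps_to (s := J.powerset ×ˢ J.powerset) (t := J.powerset)
        (g := fun p => p.1 ∪ p.2)]
    · refine Finset.sum_congr rfl (fun K hK => ?_)
      rw [Finset.mem_powerset] at hK
      refine Finset.sum_congr ?_ (fun _ _ => rfl)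
      ext p
      simp only [Finset.mem_filter, Finset.mem_product, Finset.mem_powerset]
      constructor
      · rintro ⟨_, h⟩
        refine ⟨⟨?_, ?_⟩, h⟩
        · rw [← h]; exact Finset.subset_union_left
        · rw [← h]; exact Finset.subset_union_right
      · rintro ⟨⟨ha, hb⟩, h⟩
        exact ⟨⟨ha.trans hK, hb.trans hK⟩, h⟩
    · intro p hp
      rw [Finset.mem_product, Finset.mem_powerset, Finset.mem_powerset] at hp
      rw [Finset.mem_powerset]
      exact Finset.union_subset hp.1 hp.2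
  · apply Finset.dvd_sum
    intro p hp
    rw [Finset.mem_filter] at hp
    have hc : K.card ≤ p.1.card + p.2.card := by
      rw [← hp.2]
      exact Finset.card_union_le _ _
    refine dvd_trans ?_ (mul_dvd_mul (h2 p.1) (h4 p.2))
    rw [← pow_add]
    exact pow_dvd_pow 2 (by omega)

/-- The function `J ↦ b [I ⊆ J]`. -/
theorem pc_single {t : ℕ} (I : Finset ι) {b : ℤ} (hb : (2 : ℤ) ^ (I.card - t) ∣ b) :
    PC t (fun J => if I ⊆ J then b else 0) := by
  refine ⟨fun I' => if I' = I then b else 0, fun J => ?_, fun I' => ?_⟩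
  · rw [Finset.sum_ite_eq']
    simp only [Finset.mem_powerset]
  · dsimp only
    split_ifs with h
    · rw [h]; exact hb
    · exact dvd_zero _

theorem pc_delta {t : ℕ} {f : Finset ι → ℤ} {a : ℤ} (hf : PC t f) (h0 : f ∅ = a)
    (h1 : ∀ J, J ≠ ∅ → f J = 0) (J : Finset ι) : (2 : ℤ) ^ (J.card - t) ∣ a := by
  obtain ⟨β, h2, h3⟩ := hf
  have hsum : ∀ J : Finset ι, ∑ I ∈ J.powerset, (β I - (-1) ^ I.card * a) = 0 := by
    intro J
    rw [Finset.sum_sub_distrib, ← h2, ← Finset.sum_mul]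
    rcases J.eq_empty_or_nonempty with hJ | hJ
    · subst hJ
      rw [h0]
      simp
    · rw [h1 J hJ.ne_empty, Finset.sum_powerset_neg_one_pow_card_of_nonempty hJ]
      ring
  have hz : ∀ J : Finset ι, β J - (-1) ^ J.card * a = 0 := by
    intro J
    induction J using Finset.strongInduction with
    | H J ih =>
      have h := hsum J
      rw [← Finset.sum_erase_add _ _ (Finset.mem_powerset_self J)] at h
      rw [Finset.sum_eq_zero, zero_add] at h
      · exact h
      · intro I hI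
        rw [Finset.mem_erase, Finset.mem_powerset] at hI
        exact ih I (Finset.ssubset_iff_subset_ne.2 ⟨hI.2, hI.1⟩)
  have h4 := h3 J
  rw [sub_eq_zero.1 (hz J)] at h4
  have h5 : IsUnit ((-1 : ℤ) ^ J.card) := (isUnit_one.neg).pow _
  exact (h5.dvd_mul_left).1 h4

end Pool.Agent.GR72
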