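/-
GR72/WBChoose: binomial coefficients and the 2-adic degree (needs the stubs of WBClass).
`choose (f, m)` is Mathlib's `Ring.choose (f J) m` for integers.
Let `h ≥ 1`.  `Q f`: for all `m`, `PC (h * m) (fun J => Ring.choose (f J) m)`.
* `q_add`: Vandermonde `Ring.add_choose_eq` (`Commute.all`), pc_sum, pc_mul with
  `h * i + h * j = h * m` for `i + j = m`.
* `q_const`: `Ring.choose a m` is a constant; pc_const, pc_mono.
* `q_single`: for `2 ^ (|I| - h) ∣ b`: `Ring.choose (if I ⊆ J then b else 0) m` is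
  `if I ⊆ J then Ring.choose b m else 0` for `m ≥ 1` (`Ring.choose_zero_pos`), and pc_single with
  `dvd_choose`; for `m = 0` it is the constant `1`.
* `dvd_choose`: `2 ^ (n - h) ∣ b`, `1 ≤ h`, `1 ≤ m` imply `2 ^ (n - h * m) ∣ Ring.choose b m`:
  `m * Ring.choose b m = b * Ring.choose (b - 1) (m - 1)`, so `2 ^ (n - h) ∣ m * Ring.choose b m`;
  write `m = 2 ^ e * o` with `o` odd, `e + 1 ≤ m` (`2 ^ e ≤ m`), so `2 ^ (n - h - e)` divides
  `Ring.choose b m`, and `n - h * m ≤ n - h - e` as `h * m ≥ h + (m - 1)`.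
  (The identity: `Ring.succ_nsmul_choose...` or prove it from `Ring.descPochhammer_eq_factorial_smul_choose`
  and `descPochhammer` recursions, or for integers by `Int` casts.)
* `q_of_coeff`: if `f J = ∑_{I ⊆ J} β I` with `2 ^ (|I| - h) ∣ β I` (`ι` finite) then `Q f`:
  `f J = ∑_{I} if I ⊆ J then β I else 0` over `Finset.univ`; induction over the finite sum with q_add
  (start: the constant `0`).
-/
import Pool.Agent.GR72.WBClass

namespace Pool.Agent.GR72

variable {ι : Type} [DecidableEq ι]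

theorem mul_choose_int (b : ℤ) {m : ℕ} (hm : 1 ≤ m) :
    (m : ℤ) * Ring.choose b m = b * Ring.choose (b - 1) (m - 1) := by
  have h := Ring.choose_smul_choose b (n := m) (k := 1) hm
  rw [Nat.choose_one_right, Ring.choose_one_right, nsmul_eq_mul] at h
  simpa using h

theorem dvd_choose {n h m : ℕ} {b : ℤ} (hh : 1 ≤ h) (hm : 1 ≤ m) (hb : (2 : ℤ) ^ (n - h) ∣ b) :
    (2 : ℤ) ^ (n - h * m) ∣ Ring.choose b m := by
  have h1 : (2 : ℤ) ^ (n - h) ∣ (m : ℤ) * Ring.choose b m := by
    rw [mul_choose_int b hm]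
    exact Dvd.dvd.mul_right hb _
  obtain ⟨e, o, ho, hmo⟩ := Nat.exists_eq_two_pow_mul_odd (n := m) (by omega)
  have he : e + 1 ≤ m := by
    have h2 : e < 2 ^ e := Nat.lt_two_pow_self
    have h3 : 1 ≤ o := ho.pos
    have h4 : 2 ^ e * 1 ≤ 2 ^ e * o := Nat.mul_le_mul_left _ h3
    omega
  have h5 : (2 : ℤ) ^ (n - h) ∣ (o : ℤ) * ((2 : ℤ) ^ e * Ring.choose b m) := by
    have h6 : (m : ℤ) = 2 ^ e * (o : ℤ) := by
      rw [hmo]; push_cast; ring
    rw [h6] at h1
    have h7 : (2 : ℤ) ^ e * (o : ℤ) * Ring.choose b m = (o : ℤ) * ((2 : ℤ) ^ e * Ring.choose b m) := by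
      ring
    rwa [h7] at h1
  have hcop : IsCoprime ((2 : ℤ) ^ (n - h)) (o : ℤ) := by
    apply IsCoprime.pow_left
    have h7 : Nat.Coprime 2 o := Nat.coprime_two_left.2 ho
    exact_mod_cast Nat.isCoprime_iff_coprime.2 h7
  have h8 : (2 : ℤ) ^ (n - h) ∣ (2 : ℤ) ^ e * Ring.choose b m := hcop.dvd_of_dvd_mul_left h5
  have hle : n - h * m ≤ n - h - e := by
    have h9 : h + (m - 1) ≤ h * m := by
      obtain ⟨m', rfl⟩ : ∃ m', m = m' + 1 := ⟨m - 1, by omega⟩
      have : 1 * m' ≤ h * m' := Nat.mul_le_mul_right _ hh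
      have h10 : h * (m' + 1) = h * m' + h := by ring
      omega
    omega
  refine dvd_trans (pow_dvd_pow _ hle) ?_
  by_cases hc : e ≤ n - h
  · have h11 : (2 : ℤ) ^ (n - h) = 2 ^ e * 2 ^ (n - h - e) := by
      rw [← pow_add]; congr 1; omega
    rw [h11] at h8
    exact Int.dvd_of_mul_dvd_mul_left (by positivity) h8
  · have h12 : n - h - e = 0 := by omega
    rw [h12, pow_zero]
    exact one_dvd _

/-- All binomial coefficients of `f` have the expected 2-adic degrees. -/
def QC (h : ℕ) (f : Finset ι → ℤ) : Prop := ∀ m : ℕ, PC (h * m) (fun J => Ring.choose (f J) m)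

theorem qc_const (h : ℕ) (a : ℤ) : QC h (fun _ : Finset ι => a) := by
  intro m
  exact pc_mono (Nat.zero_le _) (pc_const _)

theorem qc_add {h : ℕ} {f g : Finset ι → ℤ} (hf : QC h f) (hg : QC h g) :
    QC h (fun J => f J + g J) := by
  intro m
  have h1 : (fun J => Ring.choose (f J + g J) m) =
      fun J => ∑ ij ∈ Finset.HasAntidiagonal.antidiagonal m, Ring.choose (f J) ij.1 * Ring.choose (g J) ij.2 := by
    funext J
    exact Ring.add_choose_eq m (Commute.all _ _)
  rw [h1]
  apply pc_sum (Finset.HasAntidiagonal.antidiagonal m)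
    (f := fun (ij : ℕ × ℕ) (J : Finset ι) => Ring.choose (f J) ij.1 * Ring.choose (g J) ij.2)
  rintro ⟨i, j⟩ hij
  rw [Finset.HasAntidiagonal.mem_antidiagonal] at hij
  have h2 := pc_mul (hf i) (hg j)
  have h3 : h * i + h * j = h * m := by rw [← hij]; ring
  rw [h3] at h2
  exact h2

theorem qc_single {h : ℕ} (hh : 1 ≤ h) (I : Finset ι) {b : ℤ} (hb : (2 : ℤ) ^ (I.card - h) ∣ b) :
    QC h (fun J => if I ⊆ J then b else 0) := by
  intro m
  rcases Nat.eq_zero_or_pos m with rfl | hm
  · have h1 : (fun J : Finset ι => Ring.choose (if I ⊆ J then b else 0) 0) = fun _ => (1 : ℤ) := by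
      funext J
      exact Ring.choose_zero_right _
    rw [h1]
    exact pc_mono (Nat.zero_le _) (pc_const _)
  · have h1 : (fun J : Finset ι => Ring.choose (if I ⊆ J then b else 0) m) =
        fun J => if I ⊆ J then Ring.choose b m else 0 := by
      funext J
      split_ifs
      · rfl
      · exact Ring.choose_zero_pos ℤ (by omega)
    rw [h1]
    exact pc_single I (dvd_choose hh hm hb)

theorem qc_of_pc {h : ℕ} (hh : 1 ≤ h) [Fintype ι] {f : Finset ι → ℤ} (hf : PC h f) : QC h f := by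
  obtain ⟨β, h1, h2⟩ := hf
  have key : ∀ A : Finset (Finset ι), QC h (fun J => ∑ I ∈ A, if I ⊆ J then β I else 0) := by
    intro A
    induction A using Finset.induction_on with
    | empty => simpa using qc_const (ι := ι) h 0
    | insert I A hI ih =>
      have h3 := qc_add (qc_single hh I (h2 I)) ih
      simpa only [Finset.sum_insert hI] using h3
  have h4 : f = fun J => ∑ I ∈ (Finset.univ : Finset (Finset ι)), if I ⊆ J then β I else 0 := by
    funext J
    rw [h1 J, ← Finset.sum_filter]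
    apply Finset.sum_congr _ (fun _ _ => rfl)
    ext I
    simp
  rw [h4]
  exact key _

end Pool.Agent.GR72
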