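/-
GR72/WardBound: a bound of Ward's type for subspaces on which `v` is small (needs Basic and the
stubs of WBClass, WBChoose).
`k = finrank W = c + h`, all `ft v φ` divisible by `2^c`.
* `coeff_ft`: for `e : ι → W` (`ι` finite) put `f J = v (∑ i ∈ J, e i)`.  Then `PC h f`.
  Proof: by inversion `2^k f J = ∑ᶠ φ, sg (φ (∑_J e)) ft v φ` and
  `sg (φ (∑_J e)) = ∏ i ∈ J, sg (φ (e i)) = ∏ i ∈ J, (1 + (sg (φ (e i)) - 1))
  = ∑ I ∈ J.powerset, ∏ i ∈ I, (sg (φ (e i)) - 1)` (`Finset.prod_one_add` / `Finset.prod_add`) and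
  `∏ i ∈ I, (sg (φ (e i)) - 1) = (-2)^|I|` if all `φ (e i) = 1`, else `0`.
  So `2^k f J = ∑_{I ⊆ J} (-2)^|I| S I` with `S I = ∑_{φ : ∀ i ∈ I, φ (e i) = 1} ft v φ`, and
  `S I = 2^c m I` with an integer `m I`.  Hence `2^h f J = ∑_{I ⊆ J} (-2)^|I| m I`.
  The coefficient function of `f`: `β I = ∑_{J ⊆ I} (-1)^(|I| - |J|) f J` satisfies
  `f J = ∑_{I ⊆ J} β I` (Moebius inversion; or define `β` by strong induction on the
  cardinality: `β J = f J - ∑ I ∈ J.ssubsets, β I`), and comparing the two expansions (strong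
  induction, both sides have the same sums over powersets) `2^h β I = (-2)^|I| m I`, which gives
  `2^(|I| - h) ∣ β I` (trivial when `|I| ≤ h`).
* `ward_bound`: take a basis `e` of `U` (`ι = Fin (finrank U)`, `Module.finBasis`), `f J = v (∑_J e)`,
  `g J = f J - b0`; `QC h g` (qc_of_pc, qc_add, qc_const).  The function
  `J ↦ Ring.choose (g J) m` is `0` for `J ≠ ∅` (`∑_J e ≠ 0` by independence, `0 ≤ g J < m`,
  `Ring.choose` of a natural number is `Nat.choose`: `Ring.choose_natCast`) and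
  `b.choose m` at `∅`.  pc_delta with `J = univ`: `2^(finrank U - h m) ∣ b.choose m ≠ 0`, so
  `finrank U - h m ≤ padicValNat 2 (b.choose m)` (`padicValNat_dvd_iff_le`).
-/
import Pool.Agent.GR72.Basic
import Pool.Agent.GR72.WBChoose

namespace Pool.Agent.GR72

open Module

variable {W : Type} [AddCommGroup W] [Module (ZMod 2) W] [Finite W]

private theorem sg_sum {ι : Type} [DecidableEq ι] (a : ι → ZMod 2) (J : Finset ι) :
    sg (∑ i ∈ J, a i) = ∑ I ∈ J.powerset, if (∀ i ∈ I, a i = 1) then (-2 : ℤ) ^ I.card else 0 := by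
  induction J using Finset.induction_on with
  | empty => simp [sg_zero]
  | insert i J hi ih =>
    rw [Finset.sum_insert hi, sg_add, ih, Finset.sum_powerset_insert hi]
    have h1 : sg (a i) = 1 + (if a i = 1 then (-2 : ℤ) else 0) := by
      rcases zmod_cases (a i) with h | h
      · rw [h, sg_zero, if_neg (by decide)]
        norm_num
      · rw [h, sg_one, if_pos rfl]
        norm_num
    rw [h1, add_mul, one_mul, Finset.mul_sum]
    congr 1
    refine Finset.sum_congr rfl fun I hI => ?_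
    have hiI : i ∉ I := fun h => hi (Finset.mem_powerset.1 hI h)
    rw [Finset.card_insert_of_notMem hiI]
    by_cases h2 : a i = 1
    · rw [if_pos h2]
      by_cases h3 : ∀ j ∈ I, a j = 1
      · rw [if_pos h3, if_pos]
        · rw [pow_succ]
          ring
        · intro j hj
          rcases Finset.mem_insert.1 hj with rfl | hj
          · exact h2
          · exact h3 j hj
      · rw [if_neg h3, if_neg, mul_zero]
        intro h4
        exact h3 fun j hj => h4 j (Finset.mem_insert_of_mem hj)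
    · rw [if_neg h2, zero_mul, if_neg]
      intro h4
      exact h2 (h4 i (Finset.mem_insert_self i I))

theorem coeff_ft {ι : Type} [DecidableEq ι] {v : W → ℤ} {c h : ℕ}
    (hk : finrank (ZMod 2) W = c + h) (hdiv : ∀ φ : Dual (ZMod 2) W, (2 : ℤ) ^ c ∣ ft v φ)
    (e : ι → W) : PC h (fun J : Finset ι => v (∑ i ∈ J, e i)) := by
  classical
  have := Fintype.ofFinite (Dual (ZMod 2) W)
  have hS : ∀ J : Finset ι, (2 : ℤ) ^ (c + h) * v (∑ i ∈ J, e i) = ∑ I ∈ J.powerset,
      (-2 : ℤ) ^ I.card *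
        ∑ φ : Dual (ZMod 2) W, if (∀ i ∈ I, φ (e i) = 1) then ft v φ else 0 := by
    intro J
    rw [← hk, ← inversion, finsum_eq_sum_of_fintype]
    simp only [Finset.mul_sum]
    rw [Finset.sum_comm]
    refine Finset.sum_congr rfl fun φ _ => ?_
    rw [map_sum, sg_sum, Finset.sum_mul]
    refine Finset.sum_congr rfl fun I _ => ?_
    split_ifs <;> simp
  have hm : ∀ I : Finset ι, ∃ m : ℤ,
      (∑ φ : Dual (ZMod 2) W, if (∀ i ∈ I, φ (e i) = 1) then ft v φ else 0) = 2 ^ c * m := by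
    intro I
    have h1 : (2 : ℤ) ^ c ∣
        ∑ φ : Dual (ZMod 2) W, if (∀ i ∈ I, φ (e i) = 1) then ft v φ else 0 := by
      refine Finset.dvd_sum fun φ _ => ?_
      split_ifs
      · exact hdiv φ
      · exact dvd_zero _
    exact h1
  choose m hm using hm
  have h2c : (2 : ℤ) ^ c ≠ 0 := pow_ne_zero _ two_ne_zero
  have h2h : (2 : ℤ) ^ h ≠ 0 := pow_ne_zero _ two_ne_zero
  have hS2 : ∀ J : Finset ι, (2 : ℤ) ^ h * v (∑ i ∈ J, e i) = ∑ I ∈ J.powerset,
      (-2 : ℤ) ^ I.card * m I := by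
    intro J
    apply mul_left_cancel₀ h2c
    rw [← mul_assoc, ← pow_add, hS J, Finset.mul_sum]
    refine Finset.sum_congr rfl fun I _ => ?_
    rw [hm I]
    ring
  have hdv : ∀ J : Finset ι, (2 : ℤ) ^ h ∣ (-2 : ℤ) ^ J.card * m J := by
    intro J
    induction J using Finset.strongInduction with
    | H J ih =>
      have h3 := hS2 J
      rw [← Finset.sum_erase_add _ _ (Finset.mem_powerset_self J)] at h3
      have h4 : (2 : ℤ) ^ h ∣ ∑ I ∈ J.powerset.erase J, (-2 : ℤ) ^ I.card * m I := by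
        refine Finset.dvd_sum fun I hI => ?_
        rw [Finset.mem_erase, Finset.mem_powerset] at hI
        exact ih I (Finset.ssubset_iff_subset_ne.2 ⟨hI.2, hI.1⟩)
      exact (dvd_add_right h4).1 ⟨_, h3.symm⟩
  choose β hβ using hdv
  refine ⟨β, fun J => ?_, fun I => ?_⟩
  · apply mul_left_cancel₀ h2h
    rw [hS2 J, Finset.mul_sum]
    exact Finset.sum_congr rfl fun I _ => hβ I
  · rcases le_or_gt I.card h with hI | hI
    · rw [Nat.sub_eq_zero_of_le hI, pow_zero]
      exact one_dvd _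
    · have h5 : (2 : ℤ) ^ h * 2 ^ (I.card - h) ∣ 2 ^ h * β I := by
        rw [← hβ I, ← pow_add, Nat.add_sub_cancel' hI.le]
        refine Dvd.dvd.mul_right ?_ _
        have h6 : (-2 : ℤ) ^ I.card = (-1) ^ I.card * 2 ^ I.card := by
          rw [← mul_pow]
          norm_num
        rw [h6]
        exact dvd_mul_left _ _
      exact (mul_dvd_mul_iff_left h2h).1 h5

/-- If `v - b0` takes only the values `0, ..., m - 1` on `U` outside `0`, and the value `b ≥ m`
at `0`, then the dimension of `U` is at most `h m + v_2 (binom b m)`. -/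
theorem ward_bound {v : W → ℤ} {c h b m : ℕ} {b0 : ℤ} (hk : finrank (ZMod 2) W = c + h)
    (hh : 1 ≤ h) (hdiv : ∀ φ : Dual (ZMod 2) W, (2 : ℤ) ^ c ∣ ft v φ)
    (U : Submodule (ZMod 2) W) (h0 : v 0 = b0 + b) (hm : m ≤ b)
    (hU : ∀ x ∈ U, x ≠ 0 → b0 ≤ v x ∧ v x < b0 + m) :
    finrank (ZMod 2) U ≤ h * m + padicValNat 2 (b.choose m) := by
  classical
  obtain ⟨e, he⟩ : ∃ e : Fin (finrank (ZMod 2) U) → W,
      e = fun i => ((Module.finBasis (ZMod 2) U i : U) : W) := ⟨_, rfl⟩
  have hmem : ∀ J : Finset (Fin (finrank (ZMod 2) U)), ∑ i ∈ J, e i ∈ U := by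
    intro J
    refine Submodule.sum_mem _ fun i _ => ?_
    rw [he]
    exact Subtype.property _
  have hne : ∀ J : Finset (Fin (finrank (ZMod 2) U)), J ≠ ∅ → ∑ i ∈ J, e i ≠ 0 := by
    intro J hJ h
    obtain ⟨i, hi⟩ := Finset.nonempty_iff_ne_empty.2 hJ
    have h1 : ∑ i ∈ J, (1 : ZMod 2) • (Module.finBasis (ZMod 2) U) i = 0 := by
      apply Subtype.ext
      simp only [one_smul]
      rw [he] at h
      rw [Submodule.coe_zero, ← h]
      push_cast
      rfl
    exact one_ne_zero
      (linearIndependent_iff'.1 (Module.finBasis (ZMod 2) U).linearIndependent J _ h1 i hi)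
  have hq := qc_add (qc_of_pc hh (coeff_ft hk hdiv e)) (qc_const h (-b0)) m
  have hd := pc_delta (a := ((b.choose m : ℕ) : ℤ)) hq (by
      dsimp only
      rw [Finset.sum_empty, h0]
      have h1 : b0 + (b : ℤ) + -b0 = (b : ℤ) := by ring
      rw [h1]
      exact Ring.choose_natCast b m) (by
      intro J hJ
      dsimp only
      obtain ⟨h1, h2⟩ := hU _ (hmem J) (hne J hJ)
      obtain ⟨n, hn⟩ := Int.eq_ofNat_of_zero_le (sub_nonneg.2 h1)
      have h3 : v (∑ i ∈ J, e i) + -b0 = (n : ℤ) := by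
        rw [← hn]
        ring
      have h4 : n < m := by
        have : (n : ℤ) < m := by
          rw [← h3]
          linarith
        exact_mod_cast this
      rw [h3, Ring.choose_natCast, Nat.choose_eq_zero_of_lt h4]
      rfl) Finset.univ
  rw [Finset.card_univ, Fintype.card_fin] at hd
  have hd' : 2 ^ (finrank (ZMod 2) U - h * m) ∣ b.choose m := by
    have h5 : ((2 ^ (finrank (ZMod 2) U - h * m) : ℕ) : ℤ) ∣ ((b.choose m : ℕ) : ℤ) := by
      push_cast
      exact hd
    exact Int.natCast_dvd_natCast.1 h5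
  have h6 : b.choose m ≠ 0 := (Nat.choose_pos hm).ne'
  have h7 := (padicValNat_dvd_iff_le h6).1 hd'
  omega

end Pool.Agent.GR72
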