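/-
GR72/CrudeNec: a necessary condition for all `V` without long runs (needs RunAll, RunSplit, Ward,
Core, PeelGen and the stubs of WardBound; the inductions have the structure of full_thm (GR72/Full)
and nec_gen (GR72/NecGen)).
`NoRun V L`: no `L` consecutive ones.  Names: `k = finrank W`.
* `norun_lt`: the run `c, q` of `V` has `q < L` (otherwise the digits `c, ..., c + L - 1` are ones).
* `norun_high`: digits of `V1 = 2^(c+q+1) t` are digits of `V` (testBit_high in GR72/Peel).
* `top_run_ward`: for `Gr v (2^c (2^q - 1))`, `c < k`, `U` with `0 ≤ v x < r` for nonzero `x ∈ U`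
  (`v ≥ 0` by gr_nonneg), `r ≤ q`: ward_bound with `h = k - c`, `b0 = 0`, `b = q`, `m = r`:
  `finrank U ≤ (k - c) r + v_2 (binom q r)`; `2^c` divides `ft v φ` by ward.
* `full_crude`: strong induction on `V`, exists_run_gen, run_all, run_split.  For the last run `c, q`:
  `P2 = {v2 = q}` (perSub), `U` a complement, top_run_ward with `r = q`: `finrank U ≤ (k - c) q`, and
  `(k - c) q ≤ ∑_{i<q} (k - (c + i)) + q L` because `i ≤ L`.  `P = P1 ⊓ P2`.
  `cost k V = cost k V1 + ∑_{i<q} (k - (c + i))` (from bits_run).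
* `topcost_cut_r`: as topcost_cut_gen in GR72/PeelGen.
* `crude_nec`: strong induction on `V`.
  (b) `s + 1 ≤ ds t`: induction hypothesis for `v1`, topcost_run.
  (a) `ds t ≤ s`: `r = s + 1 - ds t`, `1 ≤ r ≤ q`.  full_crude for `v1`: `P1` with `v1 = ds t` on `P1`; so
  `v2 x ≤ s - ds t = r - 1` for nonzero `x ∈ P1`; top_run_ward:
  `finrank P1 ≤ (k - c) r + v_2 (binom q r)`.  `(k - c) r ≤ ∑_{i<r} (k - (c + q - 1 - i)) + r L`, and
  `v_2 (binom q r) ≤ q ≤ L` (`2^v_2 ≤ binom q r ≤ 2^q`).  topcost_cut_r.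
-/
import Pool.Agent.GR72.WardBound
import Pool.Agent.GR72.NecGen

namespace Pool.Agent.GR72

open Module

/-- `V` has no `L` consecutive ones. -/
def NoRun (V L : ℕ) : Prop := ∀ c, ¬ ∀ i < L, V.testBit (c + i) = true

private theorem testBit_low' {q c t i : ℕ} (hi : i < q) :
    (2 ^ c * (2 ^ (q + 1) * t + (2 ^ q - 1))).testBit (c + i) = true := by
  rw [Nat.testBit_two_pow_mul, Nat.add_sub_cancel_left,
    Nat.testBit_two_pow_mul_add _ (by
      have h1 : 2 ^ q < 2 ^ (q + 1) := Nat.pow_lt_pow_right (by norm_num) (by omega)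
      omega), if_pos (by omega), Nat.testBit_two_pow_sub_one]
  simp [hi]

theorem norun_lt {q c t L : ℕ} (h : NoRun (2 ^ c * (2 ^ (q + 1) * t + (2 ^ q - 1))) L) :
    q < L := by
  by_contra hc
  exact h c fun i hi => testBit_low' (by omega)

theorem norun_high {q c t L : ℕ} (h : NoRun (2 ^ c * (2 ^ (q + 1) * t + (2 ^ q - 1))) L) :
    NoRun (2 ^ (c + q + 1) * t) L := by
  intro c' hc'
  exact h c' fun i hi => testBit_high (hc' i hi)

theorem top_run_ward {W : Type} [AddCommGroup W] [Module (ZMod 2) W] [Finite W] {v : W → ℤ}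
    {q c r : ℕ} (h : Gr v (2 ^ c * (2 ^ q - 1))) (hc : c < finrank (ZMod 2) W) (hr : r ≤ q)
    (U : Submodule (ZMod 2) W) (hU : ∀ x ∈ U, x ≠ 0 → v x < r) :
    finrank (ZMod 2) U ≤ (finrank (ZMod 2) W - c) * r + padicValNat 2 (q.choose r) := by
  refine ward_bound (v := v) (c := c) (h := finrank (ZMod 2) W - c) (b := q) (m := r) (b0 := 0)
    (by omega) (by omega) (fun φ => ward h (Dvd.intro _ rfl) φ) U ?_ hr ?_
  · rw [h.zero, ds_low, zero_add]
  · intro x hx hx0
    refine ⟨gr_nonneg h x, ?_⟩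
    rw [zero_add]
    exact hU x hx hx0

private theorem rev_run' (q c t : ℕ) :
    (2 ^ c * (2 ^ (q + 1) * t + (2 ^ q - 1))).bitIndices.reverse
    = (2 ^ (c + q + 1) * t).bitIndices.reverse ++ ((List.range q).map (fun i => c + i)).reverse := by
  rw [bits_run, List.reverse_append]

theorem topcost_cut_r {q r : ℕ} (hr : r ≤ q) (k c t : ℕ) :
    topcost k (2 ^ c * (2 ^ (q + 1) * t + (2 ^ q - 1))) (ds t + r)
      = cost k (2 ^ (c + q + 1) * t) + ∑ i ∈ Finset.range r, (k - (c + q - 1 - i)) := by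
  obtain ⟨p, rfl⟩ : ∃ p, q = p + r := ⟨q - r, by omega⟩
  have hL : (2 ^ (c + (p + r) + 1) * t).bitIndices.reverse.length = ds t := by
    rw [List.length_reverse]
    exact ds_two_pow_mul _ _
  unfold topcost cost
  have e : (2 ^ c * (2 ^ (p + r + 1) * t + (2 ^ (p + r) - 1))).bitIndices.reverse
      = ((2 ^ (c + (p + r) + 1) * t).bitIndices.reverse ++
          ((List.range r).map (fun i => c + (p + i))).reverse) ++
        ((List.range p).map (fun i => c + i)).reverse := by
    rw [rev_run', List.range_add, List.map_append, List.reverse_append, List.map_map,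
      List.append_assoc]
    rfl
  have hL2 : ((2 ^ (c + (p + r) + 1) * t).bitIndices.reverse ++
          ((List.range r).map (fun i => c + (p + i))).reverse).length = ds t + r := by
    rw [List.length_append, hL]
    simp
  rw [e, List.take_append_of_le_length (by rw [hL2]), List.take_of_length_le (by rw [hL2]),
    List.map_append, List.sum_append, List.map_reverse, List.sum_reverse, List.map_reverse,
    List.sum_reverse]
  congr 1
  rw [← Finset.sum_range_reflect, List.map_map]
  have e3 : (List.map ((fun j => k - j) ∘ fun i => c + (p + i)) (List.range r)).sum =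
      ∑ i ∈ Finset.range r, ((fun j => k - j) ∘ fun i => c + (p + i)) i := rfl
  rw [e3]
  refine Finset.sum_congr rfl fun i hi => ?_
  rw [Finset.mem_range] at hi
  simp only [Function.comp_apply]
  congr 1
  omega

private theorem inf_dim2 {W : Type} [AddCommGroup W] [Module (ZMod 2) W] [Finite W]
    (P1 P2 : Submodule (ZMod 2) W) :
    finrank (ZMod 2) P1 + finrank (ZMod 2) P2 ≤
      finrank (ZMod 2) W + finrank (ZMod 2) (P1 ⊓ P2 : Submodule (ZMod 2) W) := by
  have h1 := Submodule.finrank_sup_add_finrank_inf_eq P1 P2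
  have h2 := Submodule.finrank_le (P1 ⊔ P2)
  omega

private theorem cost_run_all (q k c t : ℕ) :
    cost k (2 ^ c * (2 ^ (q + 1) * t + (2 ^ q - 1)))
      = cost k (2 ^ (c + q + 1) * t) + ∑ i ∈ Finset.range q, (k - (c + i)) := by
  unfold cost
  rw [bits_run, List.map_append, List.sum_append, List.map_map, Nat.add_comm]
  congr 1

private theorem c_lt {q c t k : ℕ} (hq : 1 ≤ q)
    (h : 2 ^ c * (2 ^ (q + 1) * t + (2 ^ q - 1)) < 2 ^ k) : c < k := by
  have h1 : 2 ^ c * 1 ≤ 2 ^ c * (2 ^ (q + 1) * t + (2 ^ q - 1)) := by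
    apply Nat.mul_le_mul_left
    have h2 : 2 ^ 1 ≤ 2 ^ q := Nat.pow_le_pow_right (by norm_num) hq
    omega
  have h3 : 2 ^ c < 2 ^ k := by omega
  exact (Nat.pow_lt_pow_iff_right (by norm_num)).1 h3

private theorem V1_lt {q c t : ℕ} (hq : 1 ≤ q) :
    2 ^ (c + q + 1) * t < 2 ^ c * (2 ^ (q + 1) * t + (2 ^ q - 1)) := by
  rw [V_eq]
  have h2 : 2 ^ 1 ≤ 2 ^ q := Nat.pow_le_pow_right (by norm_num) hq
  have h3 : 0 < 2 ^ c * (2 ^ q - 1) := Nat.mul_pos (by positivity) (by omega)
  omega

theorem full_crude {W : Type} [AddCommGroup W] [Module (ZMod 2) W] [Finite W] {v : W → ℤ}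
    {V L : ℕ} (h : Gr v V) (hV : V < 2 ^ finrank (ZMod 2) W) (hL : NoRun V L) :
    ∃ P : Submodule (ZMod 2) W, (∀ x ∈ P, v x = ds V) ∧
      finrank (ZMod 2) W ≤ finrank (ZMod 2) P + cost (finrank (ZMod 2) W) V + ds V * L := by
  induction V using Nat.strong_induction_on generalizing v with
  | _ V ih =>
  by_cases hV0 : V = 0
  · subst hV0
    have h0 : v 0 = 0 := by rw [h.zero, ds_zero]; rfl
    refine ⟨⊤, fun x _ => ?_, ?_⟩
    · rw [psd_eq_zero h.psd h0 x, ds_zero]; rfl
    · rw [finrank_top]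
      omega
  obtain ⟨q, c, t, hq1, rfl⟩ := exists_run_gen hV0
  obtain ⟨v2, hv2, hv1, -⟩ := run_split (run_all q _ W rfl) h
  have hc := c_lt hq1 hV
  obtain ⟨P1, hP1, hd1⟩ := ih _ (V1_lt hq1) hv1 ((V1_lt hq1).trans hV) (norun_high hL)
  have hv20 : v2 0 = q := by rw [hv2.zero, ds_low]
  obtain ⟨P2, hP2⟩ := perSub hv2.psd
  obtain ⟨U, hU⟩ := Submodule.exists_isCompl P2
  have hdimU := Submodule.finrank_add_eq_of_isCompl hU
  have hUlt : ∀ x ∈ U, x ≠ 0 → v2 x < q := by
    intro x hx hx0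
    have h1 : x ∉ P2 := by
      intro h2
      apply hx0
      have h3 : x ∈ P2 ⊓ U := ⟨h2, hx⟩
      rwa [hU.inf_eq_bot, Submodule.mem_bot] at h3
    rw [hP2, hv20] at h1
    have h2 := (abs_le.1 (psd_abs_le hv2.psd x)).2
    rw [hv20] at h2
    omega
  have hw := top_run_ward hv2 hc le_rfl U hUlt
  rw [Nat.choose_self, padicValNat_one_right, add_zero] at hw
  have hqL := norun_lt hL
  have hsum : (finrank (ZMod 2) W - c) * q ≤
      (∑ i ∈ Finset.range q, (finrank (ZMod 2) W - (c + i))) + q * L := by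
    have h1 : ∑ i ∈ Finset.range q, (finrank (ZMod 2) W - c) ≤
        ∑ i ∈ Finset.range q, ((finrank (ZMod 2) W - (c + i)) + L) := by
      apply Finset.sum_le_sum
      intro i hi
      rw [Finset.mem_range] at hi
      omega
    rw [Finset.sum_add_distrib, Finset.sum_const, Finset.sum_const, Finset.card_range,
      smul_eq_mul, smul_eq_mul, Nat.mul_comm q (finrank (ZMod 2) W - c)] at h1
    exact h1
  refine ⟨P1 ⊓ P2, ?_, ?_⟩
  · rintro x ⟨hx1, hx2⟩
    have h5 := hP1 x hx1
    have h6 := (hP2 x).1 hx2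
    rw [ds_high] at h5
    rw [ds_V]
    push_cast
    have h8 : v x - v2 x = (ds t : ℤ) := h5
    linarith
  · have h5 := inf_dim2 P1 P2
    rw [cost_run_all, ds_V, Nat.add_mul]
    rw [ds_high] at hd1
    omega

theorem crude_nec {W : Type} [AddCommGroup W] [Module (ZMod 2) W] [Finite W] {v : W → ℤ}
    {V s L : ℕ} (h : Gr v V) (hV : V < 2 ^ finrank (ZMod 2) W) (hL : NoRun V L)
    (hds : s + 1 ≤ ds V) (hb : ∀ x, x ≠ 0 → v x ≤ s) :
    finrank (ZMod 2) W ≤ topcost (finrank (ZMod 2) W) V (s + 1) + (s + 2) * L := by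
  induction V using Nat.strong_induction_on generalizing v with
  | _ V ih =>
  have hV0 : V ≠ 0 := by
    rintro rfl
    have : ds 0 = 0 := by simp [ds]
    omega
  obtain ⟨q, c, t, hq1, rfl⟩ := exists_run_gen hV0
  obtain ⟨v2, hv2, hv1, -⟩ := run_split (run_all q _ W rfl) h
  have hc := c_lt hq1 hV
  have hdsV := ds_V q c t
  have hdsV1 := ds_high q c t
  have hqL := norun_lt hL
  by_cases hs1 : s + 1 ≤ ds t
  · have h1 := ih _ (V1_lt hq1) hv1 ((V1_lt hq1).trans hV) (norun_high hL)
      (by rw [hdsV1]; exact hs1)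
      (fun x hx => by
        have h2 := hb x hx
        have h3 := gr_nonneg hv2 x
        show v x - v2 x ≤ s
        linarith)
    rw [topcost_run hs1]
    exact h1
  obtain ⟨r, hr⟩ : ∃ r, s + 1 = ds t + r := ⟨s + 1 - ds t, by omega⟩
  obtain ⟨P1, hP1, hd1⟩ := full_crude hv1 ((V1_lt hq1).trans hV) (norun_high hL)
  have hU : ∀ x ∈ P1, x ≠ 0 → v2 x < r := by
    intro x hx hx0
    have h1 : v x - v2 x = ds (2 ^ (c + q + 1) * t) := hP1 x hx
    rw [hdsV1] at h1
    have h2 := hb x hx0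
    omega
  have hw := top_run_ward hv2 hc (by omega : r ≤ q) P1 hU
  have hpad : padicValNat 2 (q.choose r) ≤ q := by
    have hpos : 0 < q.choose r := Nat.choose_pos (by omega)
    have h1 : 2 ^ padicValNat 2 (q.choose r) ≤ q.choose r :=
      Nat.le_of_dvd hpos pow_padicValNat_dvd
    have h2 : q.choose r ≤ 2 ^ q := Nat.choose_le_two_pow q r
    exact (Nat.pow_le_pow_iff_right (by norm_num)).1 (h1.trans h2)
  have hsum : (finrank (ZMod 2) W - c) * r ≤
      (∑ i ∈ Finset.range r, (finrank (ZMod 2) W - (c + q - 1 - i))) + r * L := by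
    have h1 : ∑ i ∈ Finset.range r, (finrank (ZMod 2) W - c) ≤
        ∑ i ∈ Finset.range r, ((finrank (ZMod 2) W - (c + q - 1 - i)) + L) := by
      apply Finset.sum_le_sum
      intro i hi
      rw [Finset.mem_range] at hi
      omega
    rw [Finset.sum_add_distrib, Finset.sum_const, Finset.sum_const, Finset.card_range,
      smul_eq_mul, smul_eq_mul, Nat.mul_comm r (finrank (ZMod 2) W - c)] at h1
    exact h1
  rw [hr, topcost_cut_r (by omega : r ≤ q)]
  have e : (s + 2) * L = ds t * L + r * L + L := by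
    have : s + 2 = ds t + r + 1 := by omega
    rw [this]
    ring
  rw [e]
  rw [hdsV1] at hd1
  omega

end Pool.Agent.GR72
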