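/-
GR72/Blocks: blocks of `q` ones separated by single zeros (needs RunAll, RunSplit and the stubs of
CrudeNec: top_run_ward).
`blockV c q n = 2^c ∑_{i<n} 2^((q+1) i) (2^q - 1)`.
* `blockV_succ`: `blockV c q (n + 1) = 2^c (2^(q+1) t + (2^q - 1))` with `t = blockV 0 q n`, and
  `2^(c+q+1) t = blockV (c + q + 1) q n` (Finset.sum_range_succ').
* `block_full`: induction on `n` (all `c`, `v`).  `n = 0`: `v 0 = ds 0 = 0`, psd_eq_zero, `P = ⊤`.  Step:
  run_all, run_split: `v = v1 + v2`; `P1` from the induction hypothesis for `v1`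
  (`c + q + 1 + (q + 1) n ≤ k + 1`), `P2 = {v2 = q}` (perSub; `v2 0 = q`: ds_two_pow_mul,
  ds_two_pow_sub_one), `U` a complement of `P2`, top_run_ward with `r = q`, `binom q q = 1`:
  `finrank U ≤ (k - c) q`.  `P = P1 ⊓ P2`.
* `ds_block`: `ds (blockV c q n) = n q`.
-/
import Pool.Agent.GR72.CrudeNec

namespace Pool.Agent.GR72

open Module

/-- `n` blocks of `q` ones separated by single zeros, lowest one `c`. -/
def blockV (c q n : ℕ) : ℕ := 2 ^ c * ∑ i ∈ Finset.range n, 2 ^ ((q + 1) * i) * (2 ^ q - 1)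

theorem blockV_succ (c q n : ℕ) :
    blockV c q (n + 1) = 2 ^ c * (2 ^ (q + 1) * blockV 0 q n + (2 ^ q - 1)) := by
  unfold blockV
  rw [Finset.sum_range_succ', pow_zero, one_mul, Finset.mul_sum]
  congr 1
  congr 1
  · apply Finset.sum_congr rfl
    intro i _
    rw [← mul_assoc, ← pow_add]
    congr 2
    ring
  · rw [Nat.mul_zero, pow_zero, one_mul]

theorem blockV_high (c q n : ℕ) : 2 ^ (c + q + 1) * blockV 0 q n = blockV (c + q + 1) q n := by
  unfold blockV
  rw [pow_zero, one_mul]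

private theorem low_lt' (q : ℕ) : 2 ^ q - 1 < 2 ^ (q + 1) := by
  have h1 : 1 ≤ 2 ^ q := Nat.one_le_two_pow
  rw [pow_succ]
  omega

theorem ds_block (c q n : ℕ) : ds (blockV c q n) = n * q := by
  induction n generalizing c with
  | zero =>
    unfold blockV
    rw [Finset.sum_range_zero, Nat.mul_zero, ds_zero, Nat.zero_mul]
  | succ n ih =>
    rw [blockV_succ, ds_two_pow_mul, ds_two_pow_mul_add _ _ _ (low_lt' q), ih, ds_two_pow_sub_one]
    ring

private theorem blockV_two_lt (q n : ℕ) : 2 * blockV 0 q n < 2 ^ ((q + 1) * n) := by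
  induction n with
  | zero =>
    unfold blockV
    simp
  | succ n ih =>
    rw [blockV_succ, pow_zero, one_mul, Nat.mul_succ, pow_add (2 : ℕ) ((q + 1) * n)]
    have h1 : 2 * blockV 0 q n + 1 ≤ 2 ^ ((q + 1) * n) := ih
    have h2 : 2 ^ (q + 1) * (2 * blockV 0 q n + 1) ≤ 2 ^ (q + 1) * 2 ^ ((q + 1) * n) :=
      Nat.mul_le_mul_left _ h1
    have h3 : 1 ≤ 2 ^ q := Nat.one_le_two_pow
    have h4 : 2 ^ (q + 1) = 2 * 2 ^ q := by rw [pow_succ]; ring
    rw [mul_comm (2 ^ ((q + 1) * n))]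
    have h5 : 2 * (2 ^ (q + 1) * blockV 0 q n + (2 ^ q - 1)) =
        2 ^ (q + 1) * (2 * blockV 0 q n) + 2 * (2 ^ q - 1) := by ring
    rw [h5]
    rw [Nat.mul_add, Nat.mul_one] at h2
    omega

theorem blockV_lt {c q n k : ℕ} (h : c + (q + 1) * n ≤ k + 1) : blockV c q n < 2 ^ k := by
  have h1 := blockV_two_lt q n
  have h2 : blockV c q n = 2 ^ c * blockV 0 q n := by
    unfold blockV
    rw [pow_zero, one_mul]
  have h3 : 2 ^ c * (2 * blockV 0 q n) < 2 ^ c * 2 ^ ((q + 1) * n) :=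
    Nat.mul_lt_mul_of_pos_left h1 (by positivity)
  rw [← pow_add] at h3
  have h4 : 2 ^ (c + (q + 1) * n) ≤ 2 ^ (k + 1) := Nat.pow_le_pow_right (by norm_num) h
  have h5 : 2 ^ (k + 1) = 2 * 2 ^ k := by rw [pow_succ]; ring
  have h6 : 2 ^ c * (2 * blockV 0 q n) = 2 * (2 ^ c * blockV 0 q n) := by ring
  rw [h2]
  omega

theorem block_full {q n : ℕ} (hq : 1 ≤ q) : ∀ {W : Type} [AddCommGroup W] [Module (ZMod 2) W]
    [Finite W] {v : W → ℤ} {c : ℕ}, Gr v (blockV c q n) →
    c + (q + 1) * n ≤ finrank (ZMod 2) W + 1 →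
    ∃ P : Submodule (ZMod 2) W, (∀ x ∈ P, v x = ((n * q : ℕ) : ℤ)) ∧
      finrank (ZMod 2) W ≤ finrank (ZMod 2) P +
        ∑ i ∈ Finset.range n, q * (finrank (ZMod 2) W - (c + (q + 1) * i)) := by
  induction n with
  | zero =>
    intro W _ _ _ v c h _
    have h0 : v 0 = 0 := by rw [h.zero, ds_block]; simp
    refine ⟨⊤, fun x _ => ?_, ?_⟩
    · rw [psd_eq_zero h.psd h0 x]; simp
    · rw [finrank_top]
      omega
  | succ n ih =>
    intro W _ _ _ v c h hc
    rw [blockV_succ] at h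
    obtain ⟨v2, g2, g1, -⟩ := run_split (run_all q _ W rfl) h
    rw [blockV_high] at g1
    have hc' : c + (q + 1) * n + (q + 1) ≤ finrank (ZMod 2) W + 1 := by
      have : (q + 1) * (n + 1) = (q + 1) * n + (q + 1) := by ring
      omega
    obtain ⟨P1, hP1, hd1⟩ := ih g1 (by omega)
    obtain ⟨P2, hP2⟩ := perSub g2.psd
    have h20 : v2 0 = q := by
      rw [g2.zero, ds_two_pow_mul, ds_two_pow_sub_one]
    obtain ⟨U, hU⟩ := Submodule.exists_isCompl P2
    have hUd : finrank (ZMod 2) U ≤ (finrank (ZMod 2) W - c) * q := by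
      have h5 := top_run_ward (r := q) g2 (by omega) le_rfl U (by
        intro x hx hx0
        have h6 := le_trans (le_abs_self _) (psd_abs_le g2.psd x)
        rw [h20] at h6
        refine lt_of_le_of_ne h6 ?_
        intro h7
        have h8 : x ∈ P2 := (hP2 x).2 (by rw [h7, h20])
        have h9 : x ∈ P2 ⊓ U := ⟨h8, hx⟩
        rw [hU.inf_eq_bot] at h9
        exact hx0 ((Submodule.mem_bot _).1 h9))
      rwa [Nat.choose_self, padicValNat_one_right, Nat.add_zero] at h5
    refine ⟨P1 ⊓ P2, fun x hx => ?_, ?_⟩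
    · have h5 := hP1 x hx.1
      have h6 := (hP2 x).1 hx.2
      rw [h20] at h6
      have h8 : v x - v2 x = ((n * q : ℕ) : ℤ) := h5
      push_cast at h8 ⊢
      linarith
    · have h5 := Submodule.finrank_sup_add_finrank_inf_eq P1 P2
      have h6 := Submodule.finrank_le (P1 ⊔ P2)
      have h7 := Submodule.finrank_add_eq_of_isCompl hU
      rw [Finset.sum_range_succ', Nat.mul_zero, Nat.add_zero]
      have h8 : ∑ i ∈ Finset.range n, q * (finrank (ZMod 2) W - (c + (q + 1) * (i + 1))) =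
          ∑ i ∈ Finset.range n, q * (finrank (ZMod 2) W - (c + q + 1 + (q + 1) * i)) := by
        apply Finset.sum_congr rfl
        intro i _
        congr 2
        ring
      have h9 : q * (finrank (ZMod 2) W - (c + 0)) = (finrank (ZMod 2) W - c) * q := by
        rw [Nat.add_zero, mul_comm]
      rw [h8, h9]
      omega

end Pool.Agent.GR72
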