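/-
GR72/RDMass: where the Fourier transform of a psd function lives (needs Basic, Psd).
All from inversion at `0`, `x`, `y`, `x + y` (`sg (φ (x + y)) = sg (φ x) * sg (φ y)`):
`∑ φ, (1 - sg (φ x)) (1 - sg (φ y)) ft v φ = 2^k (v 0 - v x - v y + v (x + y))`,
`∑ φ, (1 - sg (φ x)) (1 + sg (φ y)) ft v φ = 2^k (v 0 - v x + v y - v (x + y))`;
the summands are nonnegative and nonzero only for `φ x = 1, φ y = 1` (`φ x = 1, φ y = 0`).
`mass_sum`: for a finite set `A` such that no `φ` with `ft v φ ≠ 0` has `φ a = φ b = 1` for two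
different `a, b ∈ A`: `1 - sg (φ (∑ A)) = ∑ a ∈ A, (1 - sg (φ a))` whenever `ft v φ ≠ 0` (at most one
`a` has `φ a = 1`), and psd_minus for `∑ A` and for the `a`.
-/
import Pool.Agent.GR72.Psd

namespace Pool.Agent.GR72

open Module

variable {W : Type} [AddCommGroup W] [Module (ZMod 2) W] [Finite W]

private theorem m11 [Fintype (Dual (ZMod 2) W)] (v : W → ℤ) (x y : W) :
    ∑ φ : Dual (ZMod 2) W, (1 - sg (φ x)) * (1 - sg (φ y)) * ft v φ =
      2 ^ finrank (ZMod 2) W * (v 0 - v x - v y + v (x + y)) := by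
  have h1 := inversion v x
  have h2 := inversion v y
  have h3 := inversion v (x + y)
  have h4 := inversion_zero v
  rw [finsum_eq_sum_of_fintype] at h1 h2 h3 h4
  rw [mul_add, mul_sub, mul_sub, ← h1, ← h2, ← h3, ← h4, ← Finset.sum_sub_distrib,
    ← Finset.sum_sub_distrib, ← Finset.sum_add_distrib]
  refine Finset.sum_congr rfl fun φ _ => ?_
  rw [map_add, sg_add]
  ring

private theorem m10 [Fintype (Dual (ZMod 2) W)] (v : W → ℤ) (x y : W) :
    ∑ φ : Dual (ZMod 2) W, (1 - sg (φ x)) * (1 + sg (φ y)) * ft v φ =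
      2 ^ finrank (ZMod 2) W * (v 0 - v x + v y - v (x + y)) := by
  have h1 := inversion v x
  have h2 := inversion v y
  have h3 := inversion v (x + y)
  have h4 := inversion_zero v
  rw [finsum_eq_sum_of_fintype] at h1 h2 h3 h4
  rw [mul_sub, mul_add, mul_sub, ← h1, ← h2, ← h3, ← h4, ← Finset.sum_sub_distrib,
    ← Finset.sum_add_distrib, ← Finset.sum_sub_distrib]
  refine Finset.sum_congr rfl fun φ _ => ?_
  rw [map_add, sg_add]
  ring

private theorem sg_minus_nonneg (a : ZMod 2) : 0 ≤ 1 - sg a := by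
  rcases sg_cases a with h | h <;> rw [h] <;> norm_num

private theorem m11_nonneg {v : W → ℤ} (hv : Psd v) (x y : W) (φ : Dual (ZMod 2) W) :
    0 ≤ (1 - sg (φ x)) * (1 - sg (φ y)) * ft v φ :=
  mul_nonneg (mul_nonneg (sg_minus_nonneg _) (sg_minus_nonneg _)) (hv φ)

private theorem eq_one_of {a : ZMod 2} (h : 1 - sg a ≠ 0) : a = 1 := by
  rcases zmod_cases a with h1 | h1
  · rw [h1, sg_zero, sub_self] at h
    exact absurd rfl h
  · exact h1

private theorem eq_zero_of {a : ZMod 2} (h : 1 + sg a ≠ 0) : a = 0 := by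
  rcases zmod_cases a with h1 | h1
  · exact h1
  · rw [h1, sg_one] at h
    exact absurd (by norm_num) h

theorem mass11_pos {v : W → ℤ} (hv : Psd v) {x y : W} (h : 0 < v 0 - v x - v y + v (x + y)) :
    ∃ φ : Dual (ZMod 2) W, φ x = 1 ∧ φ y = 1 ∧ ft v φ ≠ 0 := by
  have := Fintype.ofFinite (Dual (ZMod 2) W)
  have h1 : ∑ φ : Dual (ZMod 2) W, (1 - sg (φ x)) * (1 - sg (φ y)) * ft v φ ≠ 0 := by
    rw [m11]
    exact (mul_pos (by positivity) h).ne'
  obtain ⟨φ, -, h2⟩ := Finset.exists_ne_zero_of_sum_ne_zero h1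
  exact ⟨φ, eq_one_of (left_ne_zero_of_mul (left_ne_zero_of_mul h2)),
    eq_one_of (right_ne_zero_of_mul (left_ne_zero_of_mul h2)), right_ne_zero_of_mul h2⟩

theorem mass11_zero {v : W → ℤ} (hv : Psd v) {x y : W} (h : v 0 - v x - v y + v (x + y) = 0)
    {φ : Dual (ZMod 2) W} (hx : φ x = 1) (hy : φ y = 1) : ft v φ = 0 := by
  have := Fintype.ofFinite (Dual (ZMod 2) W)
  have h1 := m11 v x y
  rw [h, mul_zero] at h1
  have h2 := (Finset.sum_eq_zero_iff_of_nonneg fun φ _ => m11_nonneg hv x y φ).1 h1 φ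
    (Finset.mem_univ _)
  rw [hx, hy, sg_one] at h2
  linarith

theorem mass10_pos {v : W → ℤ} (hv : Psd v) {x y : W} (h : 0 < v 0 - v x + v y - v (x + y)) :
    ∃ φ : Dual (ZMod 2) W, φ x = 1 ∧ φ y = 0 ∧ ft v φ ≠ 0 := by
  have := Fintype.ofFinite (Dual (ZMod 2) W)
  have h1 : ∑ φ : Dual (ZMod 2) W, (1 - sg (φ x)) * (1 + sg (φ y)) * ft v φ ≠ 0 := by
    rw [m10]
    exact (mul_pos (by positivity) h).ne'
  obtain ⟨φ, -, h2⟩ := Finset.exists_ne_zero_of_sum_ne_zero h1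
  exact ⟨φ, eq_one_of (left_ne_zero_of_mul (left_ne_zero_of_mul h2)),
    eq_zero_of (right_ne_zero_of_mul (left_ne_zero_of_mul h2)), right_ne_zero_of_mul h2⟩

theorem mass1_pos {v : W → ℤ} (hv : Psd v) {x : W} (h : v x < v 0) :
    ∃ φ : Dual (ZMod 2) W, φ x = 1 ∧ ft v φ ≠ 0 := by
  have := Fintype.ofFinite (Dual (ZMod 2) W)
  have h1 : ∑ φ : Dual (ZMod 2) W, (1 - sg (φ x)) * ft v φ ≠ 0 := by
    rw [psd_minus]
    exact (mul_pos (by positivity) (sub_pos.2 h)).ne'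
  obtain ⟨φ, -, h2⟩ := Finset.exists_ne_zero_of_sum_ne_zero h1
  exact ⟨φ, eq_one_of (left_ne_zero_of_mul h2), right_ne_zero_of_mul h2⟩

theorem mass_subadd {v : W → ℤ} (hv : Psd v) (x y : W) :
    v x + v y ≤ v 0 + v (x + y) := by
  have := Fintype.ofFinite (Dual (ZMod 2) W)
  have h1 : 0 ≤ (2 : ℤ) ^ finrank (ZMod 2) W * (v 0 - v x - v y + v (x + y)) := by
    rw [← m11]
    exact Finset.sum_nonneg fun φ _ => m11_nonneg hv x y φ
  have h2 := (mul_nonneg_iff_of_pos_left (by positivity)).1 h1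
  linarith

theorem mass_sum {v : W → ℤ} (hv : Psd v) (A : Finset W)
    (h : ∀ a ∈ A, ∀ b ∈ A, a ≠ b → v 0 - v a - v b + v (a + b) = 0) :
    v 0 - v (∑ a ∈ A, a) = ∑ a ∈ A, (v 0 - v a) := by
  have := Fintype.ofFinite (Dual (ZMod 2) W)
  have hp : (2 : ℤ) ^ finrank (ZMod 2) W ≠ 0 := by positivity
  apply mul_left_cancel₀ hp
  rw [← psd_minus, Finset.mul_sum]
  have h1 : ∀ a ∈ A, (2 : ℤ) ^ finrank (ZMod 2) W * (v 0 - v a) =
      ∑ φ : Dual (ZMod 2) W, (1 - sg (φ a)) * ft v φ := fun a _ => (psd_minus v a).symm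
  rw [Finset.sum_congr rfl h1, Finset.sum_comm]
  refine Finset.sum_congr rfl fun φ _ => ?_
  by_cases h0 : ft v φ = 0
  · simp [h0]
  · rw [← Finset.sum_mul]
    congr 1
    rw [map_sum]
    by_cases h2 : ∃ a ∈ A, φ a = 1
    · obtain ⟨a, ha, ha1⟩ := h2
      have h3 : ∀ b ∈ A, b ≠ a → φ b = 0 := by
        intro b hb hba
        rcases zmod_cases (φ b) with h4 | h4
        · exact h4
        · exact absurd (mass11_zero hv (h b hb a ha hba) h4 ha1) h0
      rw [Finset.sum_eq_single a h3 (fun h5 => absurd ha h5),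
        Finset.sum_eq_single a (fun b hb hba => by rw [h3 b hb hba, sg_zero, sub_self])
          (fun h5 => absurd ha h5)]
    · have h3 : ∀ b ∈ A, φ b = 0 := by
        intro b hb
        rcases zmod_cases (φ b) with h4 | h4
        · exact h4
        · exact absurd ⟨b, hb, h4⟩ h2
      rw [Finset.sum_eq_zero h3, sg_zero, sub_self, Finset.sum_eq_zero]
      intro b hb
      rw [h3 b hb, sg_zero, sub_self]

end Pool.Agent.GR72
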