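/-
GR72/CliqueA: the classes of points with `v = v 0 - 1` (needs RDMass; the proofs of clique_card
and clique_sub in GR72/RDClique can be reused with `U = ⊤`).
Let `M = {y | v y + 1 = v 0}` (`0 ∉ M`).  `Tr v` says that on `M` the relation `x = y` or
`v (x + y) + 1 = v 0` is an equivalence relation.
* `class_sub`: `D = {y | y = 0 ∨ (v y + 1 = v 0 ∧ (y = x ∨ v (x + y) + 1 = v 0))}` is a subspace:
  exactly the proof of clique_sub (replace min_trans by the hypothesis).
* `exists_classes`: `A` a finite set of maximal cardinality with `v a + 1 = v 0` for `a ∈ A` and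
  `v (a + b) + 2 = v 0` for different `a, b ∈ A`; `D a` from class_sub.  `card A ≤ q`: clique_card.
  cover: if `v y + 1 = v 0`, `y ∉ A` and `v (a + y) + 1 ≠ v 0` for all `a ∈ A`, then
  `v (a + y) + 2 = v 0` for all `a ∈ A` (`a + y ≠ 0`, hlt, mass_subadd), so `insert y A` is larger.
  cross: let `a ≠ b`, `x ∈ D a`, `y ∈ D b` nonzero.  If `x = y` or `v (x + y) + 1 = v 0` then by `Tr`
  (twice, along `a, x, y, b`; note that `x = a` or `v (a + x) + 1 = v 0`, since `a, x ∈ D a` and
  `a + x ∈ D a` is zero or has value `v 0 - 1`) `v (a + b) + 1 = v 0`, contradiction; so `x + y ≠ 0` and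
  by hlt, mass_subadd `v (x + y) + 2 = v 0`.
  sums: mass_sum for `S`: `v 0 - v (∑ S) = ∑_{a ∈ S} 1`.
-/
import Pool.Agent.GR72.RDMass

namespace Pool.Agent.GR72

open Module

variable {W : Type} [AddCommGroup W] [Module (ZMod 2) W] [Finite W]

/-- Transitivity of the relation `v (x + y) = v 0 - 1` on the points with value `v 0 - 1`. -/
def Tr (v : W → ℤ) : Prop := ∀ x y z, v x + 1 = v 0 → v y + 1 = v 0 → v z + 1 = v 0 →
  v (x + y) + 1 = v 0 → v (y + z) + 1 = v 0 → x ≠ z → v (x + z) + 1 = v 0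

private theorem card_le_q {v : W → ℤ} (hv : Psd v) (hnn : ∀ x, 0 ≤ v x) {q : ℕ} (h0 : v 0 = q)
    (A : Finset W) (hA : ∀ a ∈ A, v a + 1 = v 0)
    (hA2 : ∀ a ∈ A, ∀ b ∈ A, a ≠ b → v (a + b) + 2 = v 0) :
    A.card ≤ q ∧ ∀ S ⊆ A, v (∑ a ∈ S, a) + S.card = v 0 := by
  have key : ∀ S ⊆ A, v (∑ a ∈ S, a) + S.card = v 0 := by
    intro S hS
    have h1 := mass_sum hv S (fun a ha b hb hab => by
      have e1 := hA a (hS ha)
      have e2 := hA b (hS hb)
      have e3 := hA2 a (hS ha) b (hS hb) hab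
      linarith)
    have h2 : ∑ a ∈ S, (v 0 - v a) = (S.card : ℤ) := by
      rw [Finset.sum_congr rfl (fun a ha => (by linarith [hA a (hS ha)] : v 0 - v a = 1))]
      simp
    linarith
  refine ⟨?_, key⟩
  have h3 := hnn (∑ a ∈ A, a)
  have h4 : (A.card : ℤ) ≤ q := by
    rw [← h0]
    linarith [key A subset_rfl]
  exact_mod_cast h4

theorem class_sub {v : W → ℤ} (htr : Tr v) {x : W} (vx : v x + 1 = v 0) :
    ∃ D : Submodule (ZMod 2) W, x ∈ D ∧ (∀ y ∈ D, y ≠ 0 → v y + 1 = v 0) ∧
      ∀ y, v y + 1 = v 0 → v (x + y) + 1 = v 0 → y ∈ D := by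
  let D : Submodule (ZMod 2) W :=
    { carrier := {y | y = 0 ∨ (v y + 1 = v 0 ∧ (y = x ∨ v (x + y) + 1 = v 0))}
      zero_mem' := Or.inl rfl
      smul_mem' := by
        intro a y hy
        rcases zmod_cases a with ha | ha
        · left
          rw [ha, zero_smul]
        · rw [ha, one_smul]
          exact hy
      add_mem' := by
        intro y z hy hz
        rcases hy with hy | ⟨vy, hy⟩
        · rw [hy, zero_add]; exact hz
        rcases hz with hz | ⟨vz, hz⟩
        · rw [hz, add_zero]; exact Or.inr ⟨vy, hy⟩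
        by_cases hyz : y = z
        · left
          rw [hyz, add_self_eq]
        right
        have e1 : v (y + z) + 1 = v 0 := by
          rcases hy with hy | hy
          · subst hy
            rcases hz with hz | hz
            · exact absurd hz.symm hyz
            · exact hz
          rcases hz with hz | hz
          · subst hz
            rw [add_comm y z]
            exact hy
          · exact htr y x z vy vx vz (by rw [add_comm y x]; exact hy) hz hyz
        refine ⟨e1, ?_⟩
        rcases hy with hy | hy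
        · right
          rw [hy, ← add_assoc, add_self_eq, zero_add]
          exact vz
        rcases hz with hz | hz
        · right
          rw [hz, add_comm y x, ← add_assoc, add_self_eq, zero_add]
          exact vy
        by_cases hne : y + z = x
        · left; exact hne
        right
        have e2 := htr (y + z) y x e1 vy vx
          (by rw [add_comm y z, add_assoc, add_self_eq, add_zero]; exact vz)
          (by rw [add_comm y x]; exact hy) hne
        rw [add_comm x (y + z)]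
        exact e2 }
  refine ⟨D, Or.inr ⟨vx, Or.inl rfl⟩, ?_, ?_⟩
  · intro y hy hy0
    rcases hy with hy | hy
    · exact absurd hy hy0
    · exact hy.1
  · intro y vy hxy
    exact Or.inr ⟨vy, Or.inr hxy⟩

private theorem add_eq_zero_imp {a y : W} (h4 : a + y = 0) : y = a := by
  have h5 : a + (a + y) = a + 0 := by rw [h4]
  rw [← add_assoc, add_self_eq, zero_add, add_zero] at h5
  exact h5

private theorem near {v : W → ℤ} {D : Submodule (ZMod 2) W} {a x : W}
    (hD : ∀ y ∈ D, y ≠ 0 → v y + 1 = v 0) (ha : a ∈ D) (hx : x ∈ D) :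
    a = x ∨ v (a + x) + 1 = v 0 := by
  by_cases h : a + x = 0
  · exact Or.inl (add_eq_zero_imp h).symm
  · exact Or.inr (hD _ (D.add_mem ha hx) h)

private theorem tr' {v : W → ℤ} (htr : Tr v) {x y z : W} (vx : v x + 1 = v 0) (vy : v y + 1 = v 0)
    (vz : v z + 1 = v 0) (h1 : x = y ∨ v (x + y) + 1 = v 0) (h2 : y = z ∨ v (y + z) + 1 = v 0) :
    x = z ∨ v (x + z) + 1 = v 0 := by
  rcases h1 with h1 | h1
  · rw [h1]; exact h2
  rcases h2 with h2 | h2
  · rw [← h2]; exact Or.inr h1
  by_cases h : x = z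
  · exact Or.inl h
  · exact Or.inr (htr x y z vx vy vz h1 h2 h)

theorem exists_classes {v : W → ℤ} (hv : Psd v) (hnn : ∀ x, 0 ≤ v x) {q : ℕ} (h0 : v 0 = q)
    (hlt : ∀ x, x ≠ 0 → v x + 1 ≤ v 0) (htr : Tr v) :
    ∃ (A : Finset W) (D : W → Submodule (ZMod 2) W), A.card ≤ q ∧ (∀ a ∈ A, a ≠ 0 ∧ a ∈ D a) ∧
      (∀ a ∈ A, ∀ y ∈ D a, y ≠ 0 → v y + 1 = v 0) ∧
      (∀ a ∈ A, ∀ b ∈ A, a ≠ b → ∀ x ∈ D a, x ≠ 0 → ∀ y ∈ D b, y ≠ 0 → v (x + y) + 2 = v 0) ∧
      (∀ y, v y + 1 = v 0 → ∃ a ∈ A, y ∈ D a) ∧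
      ∀ S ⊆ A, v (∑ a ∈ S, a) + S.card = v 0 := by
  classical
  have := Fintype.ofFinite W
  obtain ⟨A, hAmem, hAmax⟩ := Finset.exists_max_image
    ((Finset.univ : Finset W).powerset.filter (fun A => (∀ a ∈ A, v a + 1 = v 0) ∧
      ∀ a ∈ A, ∀ b ∈ A, a ≠ b → v (a + b) + 2 = v 0)) Finset.card
    ⟨∅, by simp⟩
  rw [Finset.mem_filter] at hAmem
  obtain ⟨-, hA1, hA2⟩ := hAmem
  obtain ⟨hAq, hsum⟩ := card_le_q hv hnn h0 A hA1 hA2
  have two : ∀ x y : W, v x + 1 = v 0 → v y + 1 = v 0 → x ≠ y → v (x + y) + 1 ≠ v 0 →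
      v (x + y) + 2 = v 0 := by
    intro x y hx hy hne h1
    have e2 := mass_subadd hv x y
    have e4 : x + y ≠ 0 := fun h => hne (add_eq_zero_imp h).symm
    have e5 := hlt (x + y) e4
    omega
  have hAy : ∀ y, v y + 1 = v 0 → y ∈ A ∨ ∃ a ∈ A, v (a + y) + 1 = v 0 := by
    intro y hvy
    by_contra hc
    push Not at hc
    obtain ⟨hyA, hya⟩ := hc
    have h1 : ∀ a ∈ A, v (a + y) + 2 = v 0 := by
      intro a ha
      exact two a y (hA1 a ha) hvy (fun h => hyA (h ▸ ha)) (hya a ha)
    have h2 := hAmax (insert y A) (by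
      rw [Finset.mem_filter]
      refine ⟨Finset.mem_powerset.2 (Finset.subset_univ _), ?_, ?_⟩
      · intro a ha
        rw [Finset.mem_insert] at ha
        rcases ha with ha | ha
        · rw [ha]; exact hvy
        · exact hA1 a ha
      · intro a ha b hb hab
        rw [Finset.mem_insert] at ha hb
        rcases ha with ha | ha
        · rcases hb with hb | hb
          · exact absurd (ha.trans hb.symm) hab
          · rw [ha, add_comm y b]; exact h1 b hb
        · rcases hb with hb | hb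
          · rw [hb]; exact h1 a ha
          · exact hA2 a ha b hb hab)
    rw [Finset.card_insert_of_notMem hyA] at h2
    omega
  have hDex : ∀ a ∈ A, ∃ D : Submodule (ZMod 2) W, a ∈ D ∧ (∀ y ∈ D, y ≠ 0 → v y + 1 = v 0) ∧
      ∀ y, v y + 1 = v 0 → v (a + y) + 1 = v 0 → y ∈ D := by
    intro a ha
    exact class_sub htr (hA1 a ha)
  choose! D hD using hDex
  refine ⟨A, D, hAq, ?_, ?_, ?_, ?_, hsum⟩
  · intro a ha
    refine ⟨?_, (hD a ha).1⟩
    intro h
    have := hA1 a ha
    rw [h] at this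
    omega
  · intro a ha
    exact (hD a ha).2.1
  · intro a ha b hb hab x hx hx0 y hy hy0
    have vx := (hD a ha).2.1 x hx hx0
    have vy := (hD b hb).2.1 y hy hy0
    have h1 := near (hD a ha).2.1 (hD a ha).1 hx
    have h2 := near (hD b hb).2.1 hy (hD b hb).1
    have hno : ¬ (x = y ∨ v (x + y) + 1 = v 0) := by
      intro h
      have h3 := tr' htr (hA1 a ha) vx vy h1 h
      have h4 := tr' htr (hA1 a ha) vy (hA1 b hb) h3 h2
      rcases h4 with h4 | h4
      · exact hab h4
      · have := hA2 a ha b hb hab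
        omega
    push Not at hno
    exact two x y vx vy hno.1 hno.2
  · intro y hvy
    rcases hAy y hvy with h | ⟨a, ha, h⟩
    · exact ⟨y, h, (hD y h).1⟩
    · exact ⟨a, ha, (hD a ha).2.2 y hvy h⟩

end Pool.Agent.GR72
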