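/-
GR72/RDBase: products, characters, subspaces (needs Basic, Psd).
* `ft_char`: `sg (φ x) * sg (ψ x) = sg ((φ + ψ) x)` (sg_add, LinearMap.add_apply).
* `psd_char`: from ft_char.
* `psd_mul`: by parseval_twist, `∑ᶠ ψ, ft u ψ * ft v (ψ + φ) = 2^k ∑ᶠ x, sg (φ x) * (u x * v x)`
  `= 2^k ft (u v) φ`, the left side is a sum of nonnegative terms; divide by `2^k`.
* `sum_annih`: parseval_twist (ind S) v 0 and ft_ind.
* `mem_of_annih`: double annihilator (`Submodule.dualAnnihilator`, finite dimension; or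
  `Submodule.exists_dual_map_eq_bot...`, `Submodule.exists_le_ker_of_notMem`).
* `finrank_annih`: for `x ∉ K` some `φ` vanishes on `K` with `φ x = 1`: the same.
-/
import Pool.Agent.GR72.Psd

namespace Pool.Agent.GR72

open Module

variable {W : Type} [AddCommGroup W] [Module (ZMod 2) W] [Finite W]

theorem ft_char (v : W → ℤ) (φ ψ : Dual (ZMod 2) W) :
    ft (fun x => sg (φ x) * v x) ψ = ft v (φ + ψ) := by
  unfold ft
  refine finsum_congr fun x => ?_
  rw [LinearMap.add_apply, sg_add]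
  ring

theorem psd_char {v : W → ℤ} (hv : Psd v) (φ : Dual (ZMod 2) W) :
    Psd (fun x => sg (φ x) * v x) := by
  intro ψ
  rw [ft_char]
  exact hv _

theorem psd_mul {u v : W → ℤ} (hu : Psd u) (hv : Psd v) : Psd (fun x => u x * v x) := by
  intro φ
  have := Fintype.ofFinite (Dual (ZMod 2) W)
  have h := parseval_twist u v φ
  have h1 : 0 ≤ ∑ᶠ ψ : Dual (ZMod 2) W, ft u ψ * ft v (ψ + φ) := by
    rw [finsum_eq_sum_of_fintype]
    exact Finset.sum_nonneg fun ψ _ => mul_nonneg (hu ψ) (hv _)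
  rw [h] at h1
  exact (mul_nonneg_iff_of_pos_left (by positivity)).1 h1

open Classical in
theorem sum_annih (v : W → ℤ) (S : Submodule (ZMod 2) W) :
    2 ^ finrank (ZMod 2) W * ∑ᶠ x, ind S x * v x =
      2 ^ finrank (ZMod 2) S *
        ∑ᶠ φ : Dual (ZMod 2) W, (if ∀ y ∈ S, φ y = 0 then ft v φ else 0) := by
  have := Fintype.ofFinite (Dual (ZMod 2) W)
  have h := parseval_twist (ind S) v 0
  simp only [add_zero, LinearMap.zero_apply, sg_zero, one_mul] at h
  rw [← h, finsum_eq_sum_of_fintype, finsum_eq_sum_of_fintype, Finset.mul_sum]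
  refine Finset.sum_congr rfl fun φ _ => ?_
  rw [ft_ind]
  by_cases h1 : ∀ y ∈ S, φ y = 0
  · rw [if_pos h1, if_pos h1]
  · rw [if_neg h1, if_neg h1, zero_mul, mul_zero]

theorem exists_annih {K : Submodule (ZMod 2) W} {x : W} (hx : x ∉ K) :
    ∃ φ : Dual (ZMod 2) W, (∀ y ∈ K, φ y = 0) ∧ φ x = 1 := by
  obtain ⟨f, hf, hK⟩ := Submodule.exists_le_ker_of_notMem hx
  refine ⟨f, fun y hy => hK hy, ?_⟩
  rcases zmod_cases (f x) with h | h
  · exact absurd h hf
  · exact h

theorem mem_of_annih {K : Submodule (ZMod 2) W} {w : W}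
    (h : ∀ φ : Dual (ZMod 2) W, (∀ y ∈ K, φ y = 0) → φ w = 0) : w ∈ K := by
  by_contra hw
  obtain ⟨φ, h1, h2⟩ := exists_annih hw
  rw [h φ h1] at h2
  exact absurd h2 (by decide)

end Pool.Agent.GR72
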