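/-
GR72/ExFunc: functionals with prescribed values; sums over cosets of subspaces (needs RDBase).
* `exists_func`: if `A = ∅` take `ψ = 0`.  Otherwise let `a0 ∈ A` and let `K` be the set of all `x`
  such that for some `S ⊆ A` with `S.card` even `x + ∑ a ∈ S, a ∈ D`.  `K` is a subspace (for the
  sum of two elements take the symmetric difference `S ∆ S'`: it is in `A`, its cardinality is
  even, and `∑_{S ∆ S'} = ∑_S + ∑_S'` because `a + a = 0`).  `a0 ∉ K`: otherwise the sum over
  `S ∆ {a0}`, which has odd cardinality and so is nonempty, is in `D`.  exists_annih gives `ψ` with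
  `ψ = 0` on `K`, `ψ a0 = 1`.  `D ≤ K` (`S = ∅`); for `a ∈ A`: `a + a0 ∈ K` (`S = {a, a0}`, or `a = a0`), so
  `ψ a = ψ a0 = 1`.
* `coset_le`: sum_annih for the function `fun y => v (x + y)`: its Fourier transform at `φ` is
  `sg (φ x) * ft v φ`, so `2^k ∑_{y ∈ T} v (x + y) = 2^finrank T * ∑_{φ vanishing on T} sg (φ x) ft v φ`
  and each term is at most `ft v φ`.
* `sub_ge`: sum_annih for `v` and `T`: all terms are nonnegative, the term of `φ = 0` is `tot v`.
-/
import Pool.Agent.GR72.RDBase

namespace Pool.Agent.GR72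

open Module

variable {W : Type} [AddCommGroup W] [Module (ZMod 2) W] [Finite W]

theorem exists_func (A : Finset W) (D : Submodule (ZMod 2) W)
    (h : ∀ S ⊆ A, S.Nonempty → ∑ a ∈ S, a ∉ D) :
    ∃ ψ : Dual (ZMod 2) W, (∀ y ∈ D, ψ y = 0) ∧ ∀ a ∈ A, ψ a = 1 := by
  classical
  let g0 : (A → ZMod 2) →ₗ[ZMod 2] W := Fintype.linearCombination (ZMod 2) (fun a : A => (a : W))
  let g : (A → ZMod 2) →ₗ[ZMod 2] W ⧸ D := D.mkQ.comp g0
  have hg : LinearMap.ker g = ⊥ := by
    rw [LinearMap.ker_eq_bot']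
    intro c hc
    by_contra hne
    have h1 : g0 c ∈ D := by
      have : D.mkQ (g0 c) = 0 := hc
      rwa [Submodule.mkQ_apply, Submodule.Quotient.mk_eq_zero] at this
    let S : Finset W := (Finset.univ.filter (fun a : A => c a ≠ 0)).map (Function.Embedding.subtype _)
    have hS1 : S ⊆ A := by
      intro x hx
      obtain ⟨a, _, rfl⟩ := Finset.mem_map.1 hx
      exact a.2
    have hS2 : S.Nonempty := by
      obtain ⟨a, ha⟩ := Function.ne_iff.1 hne
      exact ⟨a, Finset.mem_map.2 ⟨a, Finset.mem_filter.2 ⟨Finset.mem_univ _, ha⟩, rfl⟩⟩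
    apply h S hS1 hS2
    have h2 : ∑ a ∈ S, a = g0 c := by
      show ∑ a ∈ S, a = Fintype.linearCombination (ZMod 2) (fun a : A => (a : W)) c
      rw [Fintype.linearCombination_apply, Finset.sum_map, Finset.sum_filter]
      refine Finset.sum_congr rfl fun a _ => ?_
      rcases zmod_cases (c a) with h3 | h3
      · rw [h3, zero_smul, if_neg (by simp)]
      · rw [h3, one_smul, if_pos (by decide)]
        rfl
    rw [h2]
    exact h1
  obtain ⟨l, hl⟩ := g.exists_leftInverse_of_injective hg
  refine ⟨((∑ a : A, LinearMap.proj a : (A → ZMod 2) →ₗ[ZMod 2] ZMod 2).comp l).comp D.mkQ,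
    ?_, ?_⟩
  · intro y hy
    have : D.mkQ y = 0 := by
      rw [Submodule.mkQ_apply, Submodule.Quotient.mk_eq_zero]
      exact hy
    rw [LinearMap.comp_apply, this, map_zero]
  · intro a ha
    have h1 : D.mkQ a = g (Pi.single ⟨a, ha⟩ 1) := by
      show D.mkQ a = D.mkQ (Fintype.linearCombination (ZMod 2) (fun a : A => (a : W))
        (Pi.single ⟨a, ha⟩ 1))
      rw [Fintype.linearCombination_apply_single, one_smul]
    rw [LinearMap.comp_apply, h1, LinearMap.comp_apply]
    have h2 : l (g (Pi.single ⟨a, ha⟩ 1)) = Pi.single ⟨a, ha⟩ 1 := LinearMap.congr_fun hl _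
    rw [h2, LinearMap.sum_apply]
    simp [Finset.sum_pi_single']

/-- The sum of a psd function over a coset is at most the sum over the subspace. -/
theorem coset_le {v : W → ℤ} (hv : Psd v) (T : Submodule (ZMod 2) W) (x : W) :
    ∑ᶠ y, ind T y * v (x + y) ≤ ∑ᶠ y, ind T y * v y := by
  classical
  have hW := Fintype.ofFinite W
  have hD := Fintype.ofFinite (Dual (ZMod 2) W)
  have hft : ∀ φ : Dual (ZMod 2) W, ft (fun y => v (x + y)) φ = sg (φ x) * ft v φ := by
    intro φ
    rw [ft_eq_sum, ft_eq_sum, Finset.mul_sum]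
    rw [← Equiv.sum_comp (Equiv.addLeft x) (fun y => sg (φ x) * (sg (φ y) * v y))]
    refine Finset.sum_congr rfl fun y _ => ?_
    rw [Equiv.coe_addLeft, map_add, sg_add]
    have h1 := sg_mul_self (φ x)
    linear_combination (-sg (φ y) * v (x + y)) * h1
  have e1 := sum_annih (fun y => v (x + y)) T
  have e2 := sum_annih v T
  have h3 : (2 : ℤ) ^ finrank (ZMod 2) W * ∑ᶠ y, ind T y * v (x + y) ≤
      2 ^ finrank (ZMod 2) W * ∑ᶠ y, ind T y * v y := by
    rw [e2]
    refine le_trans (le_of_eq e1) ?_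
    refine mul_le_mul_of_nonneg_left ?_ (by positivity)
    rw [finsum_eq_sum_of_fintype, finsum_eq_sum_of_fintype]
    refine Finset.sum_le_sum fun φ _ => ?_
    by_cases hφ : ∀ y ∈ T, φ y = 0
    · rw [if_pos hφ, if_pos hφ, hft]
      have h0 := hv φ
      rcases sg_cases (φ x) with h | h <;> rw [h] <;> linarith
    · rw [if_neg hφ, if_neg hφ]
  exact le_of_mul_le_mul_left h3 (by positivity)

/-- The sum of a psd function over a subspace is at least the expected one. -/
theorem sub_ge {v : W → ℤ} (hv : Psd v) (T : Submodule (ZMod 2) W) :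
    2 ^ finrank (ZMod 2) T * tot v ≤ 2 ^ finrank (ZMod 2) W * ∑ᶠ y, ind T y * v y :=
  sum_sub hv T

end Pool.Agent.GR72
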