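/-
GR72/PCChar: character sums of functions of bounded 2-adic degree (needs WBClass, WBChoose,
WardBound, Basic).
* `pc_char`: with `f J = ∑_{I ⊆ J} β I`: `∑_J (-1)^|J ∩ A| f J = ∑_I β I ∑_{J ⊇ I} (-1)^|J ∩ A|`.
  For fixed `I` the inner sum is `0` unless `A ⊆ I` (for `i ∈ A`, `i ∉ I` pair `J` with
  `J ∪ {i}`), and for `A ⊆ I` it is `(-1)^|A| 2^(n - |I|)` (`J ∩ A = A`, and there are
  `2^(n - |I|)` sets `J ⊇ I`), `n = card ι`.  Each term `β I * 2^(n - |I|)` is divisible by
  `2^(n - t)` because `(|I| - t) + (n - |I|) ≥ n - t`.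
  (Alternative: induction on `A` or `Finset.induction_on` for `univ` are also possible.)
* `char_choose`: as in the proof of ward_bound take `e : Fin (finrank U) → W` (a basis of `U`),
  `f J = v (∑_J e)`; coeff_ft, qc_of_pc give `PC (h * m) (fun J => Ring.choose (f J) m)`.  With
  `A = {i | ψ (e i) = 1}`: `sg (ψ (∑_J e)) = (-1)^|J ∩ A|`.  The map `J ↦ ∑_{i ∈ J} e i` is a
  bijection from `Finset (Fin (finrank U))` onto `U` (injective by linear independence: the sum
  over the symmetric difference would be zero; both sides have `2^(finrank U)` elements), so the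
  sum in pc_char is `∑ᶠ x, ind U x * (sg (ψ x) * Ring.choose (v x) m)`.
-/
import Pool.Agent.GR72.Basic
import Pool.Agent.GR72.WardBound

namespace Pool.Agent.GR72

open Module

private theorem sum_superset {ι : Type} [DecidableEq ι] [Fintype ι] (x : ι → ℤ) (I : Finset ι) :
    (∑ J : Finset ι, if I ⊆ J then ∏ i ∈ J, x i else 0) =
      (∏ i ∈ I, x i) * ∏ i ∈ Finset.univ \ I, (1 + x i) := by
  rw [Finset.prod_one_add, Finset.mul_sum, ← Finset.sum_filter]
  refine Finset.sum_bij' (fun J _ => J \ I) (fun K _ => I ∪ K) ?_ ?_ ?_ ?_ ?_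
  · intro J _
    rw [Finset.mem_powerset]
    exact Finset.sdiff_subset_sdiff (Finset.subset_univ _) le_rfl
  · intro K _
    rw [Finset.mem_filter]
    exact ⟨Finset.mem_univ _, Finset.subset_union_left⟩
  · intro J hJ
    rw [Finset.mem_filter] at hJ
    exact Finset.union_sdiff_of_subset hJ.2
  · intro K hK
    rw [Finset.mem_powerset] at hK
    have hd : Disjoint K I := by
      rw [Finset.disjoint_left]
      intro a ha hb
      exact (Finset.mem_sdiff.1 (hK ha)).2 hb
    rw [Finset.union_sdiff_left]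
    exact Finset.sdiff_eq_self_of_disjoint hd
  · intro J hJ
    rw [Finset.mem_filter] at hJ
    rw [← Finset.prod_union Finset.disjoint_sdiff, Finset.union_sdiff_of_subset hJ.2]

private theorem sign_prod {ι : Type} [DecidableEq ι] (A J : Finset ι) :
    (-1 : ℤ) ^ (J ∩ A).card = ∏ i ∈ J, (if i ∈ A then (-1 : ℤ) else 1) := by
  rw [Finset.prod_ite, Finset.prod_const, Finset.prod_const_one, mul_one, Finset.filter_mem_eq_inter]

theorem pc_char {ι : Type} [DecidableEq ι] [Fintype ι] {t : ℕ} {f : Finset ι → ℤ} (hf : PC t f)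
    (A : Finset ι) :
    (2 : ℤ) ^ (Fintype.card ι - t) ∣ ∑ J : Finset ι, (-1 : ℤ) ^ (J ∩ A).card * f J := by
  obtain ⟨β, h1, h2⟩ := hf
  have h3 : ∑ J : Finset ι, (-1 : ℤ) ^ (J ∩ A).card * f J =
      ∑ I : Finset ι, β I * ((∏ i ∈ I, (if i ∈ A then (-1 : ℤ) else 1)) *
        ∏ i ∈ Finset.univ \ I, (1 + (if i ∈ A then (-1 : ℤ) else 1))) := by
    have h4 : ∀ J : Finset ι, f J = ∑ I : Finset ι, if I ⊆ J then β I else 0 := by
      intro J
      rw [h1, ← Finset.sum_filter]
      refine Finset.sum_congr ?_ (fun _ _ => rfl)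
      ext I
      simp
    simp only [h4, Finset.mul_sum]
    rw [Finset.sum_comm]
    refine Finset.sum_congr rfl fun I _ => ?_
    rw [← sum_superset, Finset.mul_sum]
    refine Finset.sum_congr rfl fun J _ => ?_
    rw [sign_prod]
    split_ifs
    · ring
    · ring
  rw [h3]
  refine Finset.dvd_sum fun I _ => ?_
  have h5 : (2 : ℤ) ^ (Finset.univ \ I : Finset ι).card ∣
      ∏ i ∈ Finset.univ \ I, (1 + (if i ∈ A then (-1 : ℤ) else 1)) := by
    rw [← Finset.prod_const]
    refine Finset.prod_dvd_prod_of_dvd _ _ fun i _ => ?_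
    split_ifs
    · norm_num
    · norm_num
  have h6 : (Finset.univ \ I : Finset ι).card = Fintype.card ι - I.card := by
    rw [Finset.card_sdiff_of_subset (Finset.subset_univ _), Finset.card_univ]
  rw [h6] at h5
  have h7 : I.card ≤ Fintype.card ι := Finset.card_le_univ I
  refine dvd_trans ?_ (mul_dvd_mul (h2 I) (Dvd.dvd.mul_left h5 _))
  rw [← pow_add]
  exact pow_dvd_pow 2 (by omega)

variable {W : Type} [AddCommGroup W] [Module (ZMod 2) W] [Finite W]

theorem char_choose {v : W → ℤ} {c h : ℕ} (hk : finrank (ZMod 2) W = c + h) (hh : 1 ≤ h)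
    (hdiv : ∀ φ : Dual (ZMod 2) W, (2 : ℤ) ^ c ∣ ft v φ) (U : Submodule (ZMod 2) W) (m : ℕ)
    (ψ : Dual (ZMod 2) W) :
    (2 : ℤ) ^ (finrank (ZMod 2) U - h * m) ∣
      ∑ᶠ x, ind U x * (sg (ψ x) * Ring.choose (v x) m) := by
  classical
  have := Fintype.ofFinite W
  have := Fintype.ofFinite U
  set B := Module.finBasis (ZMod 2) U with hB
  obtain ⟨e, he⟩ : ∃ e : Fin (finrank (ZMod 2) U) → W, e = fun i => ((B i : U) : W) := ⟨_, rfl⟩
  let g : Finset (Fin (finrank (ZMod 2) U)) → U := fun J => ∑ i ∈ J, B i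
  have hge : ∀ J, ((g J : U) : W) = ∑ i ∈ J, e i := by
    intro J
    rw [he]
    show ((∑ i ∈ J, B i : U) : W) = _
    push_cast
    rfl
  have hrep : ∀ (J : Finset (Fin (finrank (ZMod 2) U))) (i : Fin (finrank (ZMod 2) U)),
      B.repr (g J) i = if i ∈ J then 1 else 0 := by
    intro J i
    show B.repr (∑ i ∈ J, B i) i = _
    rw [map_sum, Finsupp.finsetSum_apply]
    simp only [Module.Basis.repr_self, Finsupp.single_apply]
    rw [Finset.sum_ite_eq']
  have hinj : Function.Injective g := by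
    intro J K hJK
    ext i
    have h1 := hrep J i
    rw [hJK, hrep K i] at h1
    by_cases hJ : i ∈ J <;> by_cases hK : i ∈ K
    · exact ⟨fun _ => hK, fun _ => hJ⟩
    · rw [if_pos hJ, if_neg hK] at h1
      exact absurd h1 (by decide)
    · rw [if_neg hJ, if_pos hK] at h1
      exact absurd h1 (by decide)
    · exact ⟨fun h => absurd h hJ, fun h => absurd h hK⟩
  have hbij : Function.Bijective g := by
    rw [Fintype.bijective_iff_injective_and_card]
    refine ⟨hinj, ?_⟩
    rw [Fintype.card_finset, Fintype.card_fin, ← Nat.card_eq_fintype_card, card_eq]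
  have h1 := pc_char (qc_of_pc hh (coeff_ft hk hdiv e) m) (Finset.univ.filter fun i => ψ (e i) = 1)
  rw [Fintype.card_fin] at h1
  have h2 : ∑ᶠ x, ind U x * (sg (ψ x) * Ring.choose (v x) m) =
      ∑ y : U, sg (ψ (y : W)) * Ring.choose (v (y : W)) m := by
    rw [finsum_eq_sum_of_fintype]
    have h3 : ∀ x, ind U x * (sg (ψ x) * Ring.choose (v x) m) =
        if x ∈ U then sg (ψ x) * Ring.choose (v x) m else 0 := by
      intro x
      by_cases h : x ∈ U <;> simp [ind, h]
    simp only [h3]
    rw [← Finset.sum_filter]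
    exact Finset.sum_bij' (fun x hx => (⟨x, (Finset.mem_filter.1 hx).2⟩ : U)) (fun y _ => y.1)
      (fun _ _ => Finset.mem_univ _)
      (fun y _ => Finset.mem_filter.2 ⟨Finset.mem_univ _, y.2⟩) (fun _ _ => rfl) (fun _ _ => rfl)
      (fun _ _ => rfl)
  rw [h2, ← hbij.sum_comp (fun y : U => sg (ψ (y : W)) * Ring.choose (v (y : W)) m)]
  convert h1 using 2 with J
  rw [hge]
  congr 1
  rw [sign_prod, map_sum]
  have h4 : ∀ (K : Finset (Fin (finrank (ZMod 2) U))), sg (∑ i ∈ K, ψ (e i)) =
      ∏ i ∈ K, (if i ∈ Finset.univ.filter (fun i => ψ (e i) = 1) then (-1 : ℤ) else 1) := by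
    intro K
    induction K using Finset.induction_on with
    | empty => simp [sg_zero]
    | insert i K hi ih =>
      rw [Finset.sum_insert hi, Finset.prod_insert hi, sg_add, ih]
      congr 1
      simp only [Finset.mem_filter, Finset.mem_univ, true_and]
      rcases zmod_cases (ψ (e i)) with h | h
      · rw [h, sg_zero, if_neg (by decide)]
      · rw [h, sg_one, if_pos rfl]
  exact h4 J

end Pool.Agent.GR72
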