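/-
GR72/CliqueB: there are exactly `q` large classes (needs the stubs of CliqueA, PCChar, ExFunc).
`g x = Ring.choose (v x) (q - 1)` is `q` at `0`, `1` if `v x = q - 1`, and `0` otherwise (`v x` is a
natural number `< q - 1`; `Ring.choose_natCast`).  `A`, `D` from exists_classes.  The sets
`D a ∖ {0}`, `a ∈ A`, are disjoint (cross: a common point `x` would give `v (x + x) + 2 = v 0`) with
union `{x | v x = q - 1}`, so for every `ψ` (U = ⊤ in char_choose)
  `∑ x, sg (ψ x) * g x = q + ∑_{a ∈ A} ∑_{x ∈ D a, x ≠ 0} sg (ψ x)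
     = q - card A + ∑_{a ∈ A} (if ψ = 0 on D a then 2^finrank (D a) else 0)`      (*)
(`∑_{x ∈ D a} sg (ψ x)`: ft_ind).  By char_choose (`m = q - 1`) (*) is divisible by
`2^(k - h (q - 1))`, hence by `2^N`.
 (1) exists_func for `A`, `⊥` (`∑ S ≠ 0` for nonempty `S` because `v (∑ S) = q - card S`): `ψ a = 1` for
     all `a ∈ A`, so `2^N ∣ q - card A`, `0 ≤ q - card A ≤ q < 2^N`: `card A = q`.
 (2) Let `a ∈ A`; exists_func for `A.erase a`, `D a`: if `y = ∑ S ∈ D a`, `S ⊆ A.erase a` nonempty, then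
     `y ≠ 0`, `v y = q - 1`, so `card S = 1`, `y = b ∈ D a` with `b ≠ a`, and `b ∈ D b`, contradiction
     to cross (`x = y = b`: `v 0 + 2 = v 0`).  So `ψ = 0` on `D a` and `ψ b = 1` for `b ∈ A`, `b ≠ a`, and
     (*) is `2^finrank (D a)`: `N ≤ finrank (D a)`.
-/
import Pool.Agent.GR72.CliqueA
import Pool.Agent.GR72.PCChar
import Pool.Agent.GR72.ExFunc

namespace Pool.Agent.GR72

open Module

variable {W : Type} [AddCommGroup W] [Module (ZMod 2) W] [Finite W]

/-- `q` orthogonal cliques of dimension at least `N` which contain all points of value `v 0 - 1`. -/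
structure Cliques (v : W → ℤ) (q N : ℕ) (A : Finset W) (D : W → Submodule (ZMod 2) W) : Prop where
  card : A.card = q
  dim : ∀ a ∈ A, N ≤ finrank (ZMod 2) (D a)
  val : ∀ a ∈ A, ∀ y ∈ D a, y ≠ 0 → v y + 1 = v 0
  cross : ∀ a ∈ A, ∀ b ∈ A, a ≠ b → ∀ x ∈ D a, x ≠ 0 → ∀ y ∈ D b, y ≠ 0 → v (x + y) + 2 = v 0
  cover : ∀ y, v y + 1 = v 0 → ∃ a ∈ A, y ∈ D a

private theorem class_formula {v : W → ℤ} (hnn : ∀ x, 0 ≤ v x) {q : ℕ}
    (h0 : v 0 = q) (hq : 2 ≤ q) (hlt : ∀ x, x ≠ 0 → v x + 1 ≤ v 0)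
    {A : Finset W} {D : W → Submodule (ZMod 2) W}
    (hval : ∀ a ∈ A, ∀ y ∈ D a, y ≠ 0 → v y + 1 = v 0)
    (hcross : ∀ a ∈ A, ∀ b ∈ A, a ≠ b → ∀ x ∈ D a, x ≠ 0 → ∀ y ∈ D b, y ≠ 0 →
      v (x + y) + 2 = v 0)
    (hcover : ∀ y, v y + 1 = v 0 → ∃ a ∈ A, y ∈ D a) (x : W) :
    Ring.choose (v x) (q - 1) = ((q : ℤ) - A.card) * dl (0 : W) x + ∑ a ∈ A, ind (D a) x := by
  classical
  by_cases hx : x = 0
  · subst hx
    have h1 : ∀ a ∈ A, ind (D a) (0 : W) = 1 := fun a _ => by simp [ind]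
    rw [Finset.sum_congr rfl h1, h0, Ring.choose_natCast]
    have h2 : q.choose (q - 1) = q := by
      obtain ⟨m, rfl⟩ : ∃ m, q = m + 1 := ⟨q - 1, by omega⟩
      rw [Nat.add_sub_cancel]
      exact Nat.choose_succ_self_right m
    rw [h2]
    simp [dl]
  · obtain ⟨m, hm⟩ := Int.eq_ofNat_of_zero_le (hnn x)
    have hle := hlt x hx
    rw [h0, hm] at hle
    have hle' : m + 1 ≤ q := by exact_mod_cast hle
    have hd : dl (0 : W) x = 0 := by simp [dl, hx]
    rw [hd, mul_zero, zero_add, hm, Ring.choose_natCast]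
    by_cases hmq : m + 1 = q
    · have hv1 : v x + 1 = v 0 := by
        rw [h0, hm]
        exact_mod_cast hmq
      obtain ⟨a, ha, hxa⟩ := hcover x hv1
      have h3 : ∑ b ∈ A, ind (D b) x = 1 := by
        rw [Finset.sum_eq_single_of_mem a ha]
        · simp [ind, hxa]
        · intro b hb hba
          have : x ∉ D b := by
            intro hxb
            have h4 := hcross b hb a ha hba x hxb hx x hxa hx
            rw [add_self_eq] at h4
            omega
          simp [ind, this]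
      rw [h3]
      have h5 : q - 1 = m := by omega
      rw [h5, Nat.choose_self]
      rfl
    · have h3 : ∑ b ∈ A, ind (D b) x = 0 := by
        refine Finset.sum_eq_zero fun b hb => ?_
        have : x ∉ D b := by
          intro hxb
          have h4 := hval b hb x hxb hx
          rw [h0, hm] at h4
          exact hmq (by exact_mod_cast h4)
        simp [ind, this]
      rw [h3, Nat.choose_eq_zero_of_lt (by omega)]
      rfl

open Classical in
private theorem char_formula {v : W → ℤ} (hnn : ∀ x, 0 ≤ v x) {q : ℕ}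
    (h0 : v 0 = q) (hq : 2 ≤ q) (hlt : ∀ x, x ≠ 0 → v x + 1 ≤ v 0)
    {A : Finset W} {D : W → Submodule (ZMod 2) W}
    (hval : ∀ a ∈ A, ∀ y ∈ D a, y ≠ 0 → v y + 1 = v 0)
    (hcross : ∀ a ∈ A, ∀ b ∈ A, a ≠ b → ∀ x ∈ D a, x ≠ 0 → ∀ y ∈ D b, y ≠ 0 →
      v (x + y) + 2 = v 0)
    (hcover : ∀ y, v y + 1 = v 0 → ∃ a ∈ A, y ∈ D a) (ψ : Dual (ZMod 2) W) :
    ∑ᶠ x, ind (⊤ : Submodule (ZMod 2) W) x * (sg (ψ x) * Ring.choose (v x) (q - 1)) =
      ((q : ℤ) - A.card) +
        ∑ a ∈ A, if (∀ y ∈ D a, ψ y = 0) then (2 : ℤ) ^ finrank (ZMod 2) (D a) else 0 := by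
  have := Fintype.ofFinite W
  have h1 : ∀ x, ind (⊤ : Submodule (ZMod 2) W) x * (sg (ψ x) * Ring.choose (v x) (q - 1)) =
      ((q : ℤ) - A.card) * (sg (ψ x) * dl (0 : W) x) + ∑ a ∈ A, sg (ψ x) * ind (D a) x := by
    intro x
    rw [class_formula hnn h0 hq hlt hval hcross hcover x, ← Finset.mul_sum]
    have : ind (⊤ : Submodule (ZMod 2) W) x = 1 := by simp [ind]
    rw [this]
    ring
  rw [finsum_eq_sum_of_fintype]
  simp only [h1]
  rw [Finset.sum_add_distrib, ← Finset.mul_sum, ← ft_eq_sum, ft_dl, map_zero, sg_zero, mul_one,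
    Finset.sum_comm]
  congr 1
  refine Finset.sum_congr rfl fun a _ => ?_
  rw [← ft_eq_sum, ft_ind]

theorem exists_cliques {v : W → ℤ} (hv : Psd v) (hnn : ∀ x, 0 ≤ v x) {q c h N : ℕ}
    (h0 : v 0 = q) (hq : 2 ≤ q) (hk : finrank (ZMod 2) W = c + h) (hh : 1 ≤ h)
    (hdiv : ∀ φ : Dual (ZMod 2) W, (2 : ℤ) ^ c ∣ ft v φ) (hlt : ∀ x, x ≠ 0 → v x + 1 ≤ v 0)
    (htr : Tr v) (hN : (q - 1) * h + N ≤ finrank (ZMod 2) W) (hNq : q < 2 ^ N) :
    ∃ (A : Finset W) (D : W → Submodule (ZMod 2) W), Cliques v q N A D := by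
  classical
  obtain ⟨A, D, hcard, hA, hval, hcross, hcover, hsum⟩ := exists_classes hv hnn h0 hlt htr
  have hdvd : ∀ ψ : Dual (ZMod 2) W, (2 : ℤ) ^ N ∣ ((q : ℤ) - A.card) +
      ∑ a ∈ A, if (∀ y ∈ D a, ψ y = 0) then (2 : ℤ) ^ finrank (ZMod 2) (D a) else 0 := by
    intro ψ
    rw [← char_formula hnn h0 hq hlt hval hcross hcover ψ]
    refine dvd_trans (pow_dvd_pow 2 ?_) (char_choose hk hh hdiv ⊤ (q - 1) ψ)
    rw [finrank_top, mul_comm h]
    omega
  have hcardq : A.card = q := by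
    obtain ⟨ψ, -, hψ⟩ := exists_func A (⊥ : Submodule (ZMod 2) W) (by
      intro S hS hSn h1
      rw [Submodule.mem_bot] at h1
      have h2 := hsum S hS
      rw [h1] at h2
      have h3 : 0 < S.card := Finset.card_pos.2 hSn
      omega)
    have h1 := hdvd ψ
    rw [Finset.sum_eq_zero, add_zero] at h1
    · have h2 : (0 : ℤ) ≤ (q : ℤ) - A.card := by
        have : (A.card : ℤ) ≤ q := by exact_mod_cast hcard
        linarith
      have h3 : (q : ℤ) - A.card < 2 ^ N := by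
        have h4 : (q : ℤ) < 2 ^ N := by exact_mod_cast hNq
        have h5 : (0 : ℤ) ≤ A.card := Int.natCast_nonneg _
        linarith
      have h4 := Int.eq_zero_of_dvd_of_nonneg_of_lt h2 h3 h1
      omega
    · intro a ha
      rw [if_neg]
      intro h2
      have h3 := h2 a (hA a ha).2
      rw [hψ a ha] at h3
      exact absurd h3 (by decide)
  refine ⟨A, D, hcardq, ?_, hval, hcross, hcover⟩
  intro a ha
  obtain ⟨ψ, hψ0, hψ1⟩ := exists_func (A.erase a) (D a) (by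
    intro S hS hSn h1
    have hSA : S ⊆ A := hS.trans (Finset.erase_subset a A)
    have h2 := hsum S hSA
    have h3 : 0 < S.card := Finset.card_pos.2 hSn
    have h4 : ∑ b ∈ S, b ≠ 0 := by
      intro h5
      rw [h5] at h2
      omega
    have h5 := hval a ha _ h1 h4
    have h6 : S.card = 1 := by omega
    obtain ⟨b, rfl⟩ := Finset.card_eq_one.1 h6
    rw [Finset.sum_singleton] at h1 h4
    have hb := hS (Finset.mem_singleton_self b)
    rw [Finset.mem_erase] at hb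
    have h7 := hcross a ha b hb.2 (Ne.symm hb.1) b h1 h4 b (hA b hb.2).2 h4
    rw [add_self_eq] at h7
    omega)
  have h1 := hdvd ψ
  rw [hcardq, sub_self, zero_add, Finset.sum_eq_single_of_mem a ha, if_pos hψ0] at h1
  · have h2 : (2 : ℕ) ^ N ∣ 2 ^ finrank (ZMod 2) (D a) := by exact_mod_cast h1
    exact (Nat.pow_dvd_pow_iff_le_right (by norm_num)).1 h2
  · intro b hb hba
    rw [if_neg]
    intro h2
    have h3 := h2 b (hA b hb).2
    rw [hψ1 b (Finset.mem_erase.2 ⟨hba, hb⟩)] at h3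
    exact absurd h3 (by decide)

end Pool.Agent.GR72
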