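/-
GR72/RDMin: points `x` with `v x = v 0 - 1` (needs the stubs of RDBase; Psd).
`MinW v x K`: `K` is the subspace attached to `x`.
* `min_word`: `δ y = v y - v (y + x)`.  `ft δ φ = (1 - sg (φ x)) * ft v φ` (substitute `y + x` in the
  second sum), so `δ` is `Psd`; `δ 0 = v 0 - v x = 1`, `δ (y + x) = - δ y` (`x + x = 0`, add_self_eq).
  psd_abs_le: `|δ y| ≤ 1`.  `K = {y | δ y = 1}` is a subspace (perSub).  `δ x = -1`, so `x ∉ K`.
  `δ y = 1` iff `y ∈ K`, `δ y = -1` iff `δ (y + x) = 1` iff `y + x ∈ K`, otherwise `δ y = 0`: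
  this is `diff` (not both `y` and `y + x` in `K`, else `x ∈ K`).
  `ft`: for `φ x = 1`: `2 * ft v φ = ft δ φ = ft (ind K) φ - ft (fun y => ind K (y + x)) φ`
  `= ft (ind K) φ + ft (ind K) φ` (substitution, `sg (φ x) = -1`); ft_ind; divide by 2.
* `minw_mem`: (→) by `ft`.  (←) mem_of_annih: let `ψ` vanish on `K`.  If `ψ x = 1` then
  `ft v ψ = 2^.. ≠ 0`.  If `ψ x = 0` take `φ0` vanishing on `K` with `φ0 x = 1` (exists_annih);
  `φ0` and `ψ + φ0` vanish on `K` and are `1` at `x`, so both kill `w`.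
* `minw_unique`: from minw_mem.
* `minw_add`: for `y ∈ K`: `v y = v (y + x) + 1` (`y + x ∉ K`).
-/
import Pool.Agent.GR72.RDBase

namespace Pool.Agent.GR72

open Module

variable {W : Type} [AddCommGroup W] [Module (ZMod 2) W] [Finite W]

open Classical in
/-- `K` is the subspace attached to the point `x` with `v x = v 0 - 1`. -/
structure MinW (v : W → ℤ) (x : W) (K : Submodule (ZMod 2) W) : Prop where
  notmem : x ∉ K
  diff : ∀ y, v y - v (y + x) = ind K y - ind K (y + x)
  ft : ∀ φ : Dual (ZMod 2) W, φ x = 1 →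
    ft v φ = if ∀ y ∈ K, φ y = 0 then 2 ^ finrank (ZMod 2) K else 0

private theorem ft_shift_aux (v : W → ℤ) (x : W) (φ : Dual (ZMod 2) W) :
    ft (fun y => v y - v (y + x)) φ = ft v φ - sg (φ x) * ft v φ := by
  have := Fintype.ofFinite W
  rw [ft_sub]
  congr 1
  rw [ft_eq_sum, ft_eq_sum, Finset.mul_sum, ← Equiv.sum_comp (Equiv.addRight x)]
  refine Finset.sum_congr rfl fun y _ => ?_
  simp only [Equiv.coe_addRight]
  rw [add_assoc, add_self_eq, add_zero, map_add, sg_add]
  ring

private theorem ind_of_mem {K : Submodule (ZMod 2) W} {y : W} (h : y ∈ K) : ind K y = 1 := by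
  simp [ind, h]

private theorem ind_of_notMem {K : Submodule (ZMod 2) W} {y : W} (h : y ∉ K) : ind K y = 0 := by
  simp [ind, h]

theorem min_word {v : W → ℤ} (hv : Psd v) {x : W} (hx : v x + 1 = v 0) :
    ∃ K : Submodule (ZMod 2) W, MinW v x K := by
  classical
  set δ : W → ℤ := fun y => v y - v (y + x) with hδ
  have hft : ∀ φ, ft δ φ = ft v φ - sg (φ x) * ft v φ := fun φ => ft_shift_aux v x φ
  have hpsd : Psd δ := by
    intro φ
    rw [hft]
    have h1 := hv φ
    rcases sg_cases (φ x) with h2 | h2 <;> rw [h2] <;> linarith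
  have h0 : δ 0 = 1 := by
    simp only [hδ, zero_add]
    omega
  have habs : ∀ y, |δ y| ≤ 1 := fun y => by
    have := psd_abs_le hpsd y
    rwa [h0] at this
  have hneg : ∀ y, δ (y + x) = - δ y := by
    intro y
    simp only [hδ]
    rw [add_assoc, add_self_eq, add_zero]
    ring
  obtain ⟨K, hK⟩ := perSub hpsd
  rw [h0] at hK
  have hnm : x ∉ K := by
    rw [hK]
    have h1 := hneg 0
    rw [zero_add, h0] at h1
    rw [h1]
    norm_num
  have hdiff : ∀ y, v y - v (y + x) = ind K y - ind K (y + x) := by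
    intro y
    change δ y = _
    by_cases h1 : y ∈ K
    · have h2 : y + x ∉ K := by
        intro h2
        rw [hK] at h1 h2
        rw [hneg, h1] at h2
        norm_num at h2
      rw [ind_of_mem h1, ind_of_notMem h2, (hK y).1 h1]
      norm_num
    · by_cases h2 : y + x ∈ K
      · rw [ind_of_notMem h1, ind_of_mem h2]
        have h3 := (hK _).1 h2
        rw [hneg] at h3
        omega
      · rw [ind_of_notMem h1, ind_of_notMem h2]
        rw [hK] at h1 h2
        rw [hneg] at h2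
        have h3 := abs_le.1 (habs y)
        omega
  refine ⟨K, hnm, hdiff, ?_⟩
  intro φ hφ
  have h1 := hft φ
  have h2 : ft δ φ = ft (fun y => ind K y - ind K (y + x)) φ := by
    congr 1
    funext y
    exact hdiff y
  rw [ft_shift_aux (ind K) x φ, h1, hφ, sg_one] at h2
  have h3 := ft_ind K φ
  rw [← h3]
  linarith

theorem minw_ne {v : W → ℤ} {x : W} {K : Submodule (ZMod 2) W} (h : MinW v x K)
    {φ : Dual (ZMod 2) W} (hx : φ x = 1) :
    ft v φ ≠ 0 ↔ ∀ y ∈ K, φ y = 0 := by
  rw [h.ft φ hx]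
  constructor
  · intro h1
    by_contra h2
    rw [if_neg h2] at h1
    exact h1 rfl
  · intro h1
    rw [if_pos h1]
    positivity

theorem minw_mem {v : W → ℤ} {x : W} {K : Submodule (ZMod 2) W} (h : MinW v x K) (w : W) :
    w ∈ K ↔ ∀ φ : Dual (ZMod 2) W, φ x = 1 → ft v φ ≠ 0 → φ w = 0 := by
  constructor
  · intro hw φ h1 h2
    exact (minw_ne h h1).1 h2 w hw
  · intro hw
    apply mem_of_annih
    intro ψ hψ
    rcases zmod_cases (ψ x) with h1 | h1
    · obtain ⟨φ, h2, h3⟩ := exists_annih h.notmem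
      have h4 := hw φ h3 ((minw_ne h h3).2 h2)
      have h5 : (ψ + φ) x = 1 := by rw [LinearMap.add_apply, h1, h3, zero_add]
      have h6 := hw (ψ + φ) h5 ((minw_ne h h5).2 fun y hy => by
        rw [LinearMap.add_apply, hψ y hy, h2 y hy, add_zero])
      rwa [LinearMap.add_apply, h4, add_zero] at h6
    · exact hw ψ h1 ((minw_ne h h1).2 hψ)

theorem minw_unique {v : W → ℤ} {x : W} {K L : Submodule (ZMod 2) W} (h : MinW v x K)
    (h' : MinW v x L) : K = L := by
  ext w
  rw [minw_mem h, minw_mem h']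

theorem minw_add {v : W → ℤ} {x : W} {K : Submodule (ZMod 2) W} (h : MinW v x K) {y : W}
    (hy : y ∈ K) : v y = v (y + x) + 1 := by
  have h1 : y + x ∉ K := by
    intro h2
    apply h.notmem
    have h3 := K.add_mem hy h2
    rwa [← add_assoc, add_self_eq, zero_add] at h3
  have h2 := h.diff y
  rw [ind_of_mem hy, ind_of_notMem h1] at h2
  omega

/-- Outside `K` and `x + K` the function is `x`-periodic. -/
theorem minw_per {v : W → ℤ} {x : W} {K : Submodule (ZMod 2) W} (h : MinW v x K) {y : W}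
    (hy : y ∉ K) (hy' : y + x ∉ K) : v y = v (y + x) := by
  have h2 := h.diff y
  rw [ind_of_notMem hy, ind_of_notMem hy'] at h2
  omega

theorem minw_dvd {v : W → ℤ} (hv : Psd v) {x : W} {K : Submodule (ZMod 2) W} (h : MinW v x K)
    {c : ℕ} (hdiv : ∀ φ : Dual (ZMod 2) W, (2 : ℤ) ^ c ∣ ft v φ) : c ≤ finrank (ZMod 2) K := by
  obtain ⟨φ, h2, h3⟩ := exists_annih h.notmem
  have h4 := hdiv φ
  rw [h.ft φ h3, if_pos h2] at h4
  have h5 : (2 : ℕ) ^ c ∣ 2 ^ finrank (ZMod 2) K := by exact_mod_cast h4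
  exact (Nat.pow_dvd_pow_iff_le_right (le_refl 2)).1 h5

end Pool.Agent.GR72
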