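/-
GR72/CliqueLoc: the local structure at a clique (needs RDMin, RDBase).
`D` is a subspace of dimension `≥ 2` with `v y = v 0 - 1` for all nonzero `y ∈ D`.  For nonzero
`x ∈ D` let `Kx` be the subspace attached to `x` (min_word), so `y ∈ Kx ↔ v y = v (y + x) + 1` (minw_add;
conversely by `MinW.diff` and the values 0, 1 of `ind`).
 (1) `Kx ⊓ D = ⊥`: a nonzero `z ∈ Kx ⊓ D` has `z ≠ x`, `v z = v (z + x) + 1`, but both are `v 0 - 1`.
 (2) Let `y : W`, `x ∈ D` nonzero, `v y = v (y + x) + 1`, so all `v (y + z)`, `z ∈ D`, are `v y` or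
  `v y - 1` (`|v (y+z) - v y| ≤ 1` and `|v (y+z) - v (y+x)| ≤ 1` by `diff`).  Let `Y1`, `Y0` be the sets of
  `z ∈ D` with value `v y`, `v y - 1`; `card Y1 + card Y0 = 2^d`, `d = finrank D ≥ 2`.  The map
  `Y1 × Y0 → D ∖ {0}`, `(z1, z0) ↦ z1 + z0`, is injective: if `z1 + z0 = z1' + z0' = x'` then
  `y + z1, y + z1' ∈ K_x'`, so `z1 + z1' ∈ K_x' ⊓ D = ⊥`.  Hence `card Y1 * card Y0 ≤ 2^d - 1`, so
  `(card Y1 - 1) * (card Y0 - 1) ≤ 0` and `card Y1 = 1` or `card Y0 = 1`.
 So: either `y` is a peak (`v y = v (y + z) + 1` for all nonzero `z ∈ D`) or `y + x` is a dip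
 (`v (y + x) + 1 = v (y + x + z)` for all nonzero `z ∈ D`), not both (`d ≥ 2`).
 (3) `K` = set of peaks = intersection of all `Kx`, `s y = 1` for peaks, `-1` for dips, `0` otherwise.
  `v - s` is `D`-periodic by (2) (cases `v y - v (y + x) = 1, 0, -1`; a peak and a dip, or two peaks,
  are never in the same coset of `D`).  If there is no dip then `s = ind K`.  If `g` is a dip then
  `y` is a dip iff `y + x ∈ Kx` for all `x` iff `y + g ∈ Kx` for all `x` (`g + x ∈ Kx`) iff `y + g ∈ K`,
  so `s y = ind K y - ind K (y + g)`.  `g ∉ K ⊔ D`: otherwise the coset of `g` contains a peak.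
 (4) If there is no dip then `Kx = K` for all `x`: `y ∈ Kx` means `v y = v (y + x) + 1`, so `y` is a peak or
  `y + x` is a dip by (2); hence `MinW v x K`.
 (5) If `g` is a dip then `y ∈ Kx` iff `y ∈ K` or `y + x + g ∈ K`, so `Kx = K ∪ (x + g + K)`, and its
  dimension is `finrank K + 1` (`x + g ∉ K`; `Kx = K ⊔ span {x + g}`).
-/
import Pool.Agent.GR72.RDMin

namespace Pool.Agent.GR72

open Module

variable {W : Type} [AddCommGroup W] [Module (ZMod 2) W] [Finite W]

/-- `s` is the sign function of the clique `D`, with peak set `K`: `v - s` is `D`-periodic. -/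
structure Loc (v : W → ℤ) (D K : Submodule (ZMod 2) W) (s : W → ℤ) : Prop where
  disj : Disjoint K D
  peak : ∀ y, y ∈ K ↔ ∀ x ∈ D, x ≠ 0 → v y = v (y + x) + 1
  per : ∀ y, ∀ x ∈ D, v (y + x) - s (y + x) = v y - s y
  form : ((∀ y, s y = ind K y) ∧ ∀ x ∈ D, x ≠ 0 → MinW v x K) ∨
    ∃ g, g ∉ K ⊔ D ∧ (∀ y, s y = ind K y - ind K (y + g)) ∧
      ∀ x ∈ D, x ≠ 0 → ∃ L : Submodule (ZMod 2) W, MinW v x L ∧
        finrank (ZMod 2) L = finrank (ZMod 2) K + 1

private theorem cl_mem_iff {v : W → ℤ} {x : W} {K : Submodule (ZMod 2) W} (h : MinW v x K)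
    (y : W) : y ∈ K ↔ v y = v (y + x) + 1 := by
  refine ⟨minw_add h, fun h1 => ?_⟩
  by_contra h2
  have h3 := h.diff y
  have h4 : ind K y = 0 := by
    unfold ind
    exact if_neg h2
  have h5 : 0 ≤ ind K (y + x) := by
    unfold ind
    split_ifs <;> norm_num
  omega

private theorem cl_near {v : W → ℤ} {x : W} {K : Submodule (ZMod 2) W} (h : MinW v x K)
    (y : W) : v y ≤ v (y + x) + 1 ∧ v (y + x) ≤ v y + 1 := by
  have h3 := h.diff y
  have h4 : 0 ≤ ind K y ∧ ind K y ≤ 1 := by
    unfold ind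
    split_ifs <;> norm_num
  have h5 : 0 ≤ ind K (y + x) ∧ ind K (y + x) ≤ 1 := by
    unfold ind
    split_ifs <;> norm_num
  omega

private theorem cl_cancel (y x : W) : y + x + x = y := by
  rw [add_assoc, add_self_eq, add_zero]

private theorem cl_add_ne {x z : W} (h : x ≠ z) : x + z ≠ 0 := by
  intro h1
  apply h
  have h2 := cl_cancel x z
  rw [h1, zero_add] at h2
  exact h2.symm

private theorem cl_third {D : Submodule (ZMod 2) W} (hd : 2 ≤ finrank (ZMod 2) D) (d : W) :
    ∃ x ∈ D, x ≠ 0 ∧ x ≠ d := by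
  by_contra hcon
  push Not at hcon
  have h1 : D ≤ Submodule.span (ZMod 2) {d} := by
    intro x hx
    by_cases hx0 : x = 0
    · rw [hx0]
      exact zero_mem _
    · rw [hcon x hx hx0]
      exact Submodule.mem_span_singleton_self d
  have h2 := Submodule.finrank_mono h1
  have h3 : finrank (ZMod 2) (Submodule.span (ZMod 2) {d}) ≤ 1 := by
    by_cases hd0 : d = 0
    · subst hd0
      rw [Submodule.span_zero_singleton, finrank_bot]
      exact Nat.zero_le _
    · exact (finrank_span_singleton hd0).le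
  omega

private theorem cl_disj {v : W → ℤ} {D : Submodule (ZMod 2) W}
    (hD : ∀ y ∈ D, y ≠ 0 → v y + 1 = v 0) {x : W} (hx : x ∈ D) {K : Submodule (ZMod 2) W}
    (h : MinW v x K) {z : W} (hz : z ∈ K) (hzD : z ∈ D) : z = 0 := by
  by_contra hz0
  have h1 : z ≠ x := by
    intro h2
    rw [h2] at hz
    exact h.notmem hz
  have h2 := minw_add h hz
  have h3 := hD z hzD hz0
  have h4 := hD (z + x) (D.add_mem hzD hx) (cl_add_ne h1)
  omega

/-- the dichotomy: a step down inside `D` starts at a peak or ends at a dip -/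
private theorem cl_dich {v : W → ℤ} {D : Submodule (ZMod 2) W}
    (hD : ∀ y ∈ D, y ≠ 0 → v y + 1 = v 0) {KK : W → Submodule (ZMod 2) W}
    (hK : ∀ x ∈ D, x ≠ 0 → MinW v x (KK x)) {y x : W} (hx : x ∈ D)
    (hyx : v y = v (y + x) + 1) :
    (∀ z ∈ D, z ≠ 0 → v y = v (y + z) + 1) ∨
      (∀ z ∈ D, z ≠ 0 → v (y + x) + 1 = v (y + x + z)) := by
  classical
  have := Fintype.ofFinite W
  obtain ⟨Df, hDf⟩ : ∃ Df : Finset W, ∀ z, z ∈ Df ↔ z ∈ D :=
    ⟨Finset.univ.filter (fun z => z ∈ D), fun z => by simp⟩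
  have hval : ∀ z ∈ D, v (y + z) = v y ∨ v (y + z) + 1 = v y := by
    intro z hz
    by_cases hz0 : z = 0
    · left
      rw [hz0, add_zero]
    · have h1 := cl_near (hK z hz hz0) y
      by_cases hzx : z = x
      · right
        rw [hzx]
        exact hyx.symm
      · have h2 := cl_near (hK (x + z) (D.add_mem hx hz) (cl_add_ne (Ne.symm hzx))) (y + x)
        have h3 : y + x + (x + z) = y + z := by
          rw [← add_assoc, cl_cancel]
        rw [h3] at h2
        omega
  have hcard : (Df.filter (fun z => v (y + z) = v y)).card +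
      (Df.filter (fun z => ¬ v (y + z) = v y)).card = Df.card :=
    Finset.card_filter_add_card_filter_not _
  have hx1 : x ∈ Df.filter (fun z => ¬ v (y + z) = v y) := by
    rw [Finset.mem_filter]
    exact ⟨(hDf x).2 hx, by omega⟩
  have h01 : (0 : W) ∈ Df.filter (fun z => v (y + z) = v y) := by
    rw [Finset.mem_filter]
    exact ⟨(hDf 0).2 D.zero_mem, by rw [add_zero]⟩
  have hinj : (Df.filter (fun z => v (y + z) = v y)).card *
      (Df.filter (fun z => ¬ v (y + z) = v y)).card ≤ (Df.erase 0).card := by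
    rw [← Finset.card_product]
    refine Finset.card_le_card_of_injOn (fun q => q.1 + q.2) ?_ ?_
    · intro q hq
      obtain ⟨hq1, hq2⟩ := Finset.mem_product.1 (Finset.mem_coe.1 hq)
      rw [Finset.mem_filter, hDf] at hq1 hq2
      refine Finset.mem_coe.2 (Finset.mem_erase.2 ⟨?_, (hDf _).2 (D.add_mem hq1.1 hq2.1)⟩)
      refine cl_add_ne fun h => ?_
      exact hq2.2 (by rw [← h]; exact hq1.2)
    · intro q hq q' hq' hqq
      obtain ⟨hq1, hq2⟩ := Finset.mem_product.1 (Finset.mem_coe.1 hq)
      obtain ⟨hq1', hq2'⟩ := Finset.mem_product.1 (Finset.mem_coe.1 hq')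
      rw [Finset.mem_filter, hDf] at hq1 hq2 hq1' hq2'
      change q.1 + q.2 = q'.1 + q'.2 at hqq
      have hne : q.1 + q.2 ≠ 0 := by
        refine cl_add_ne fun h => ?_
        exact hq2.2 (by rw [← h]; exact hq1.2)
      have hmem := D.add_mem hq1.1 hq2.1
      have hM := hK _ hmem hne
      have e1 : y + q.1 + (q.1 + q.2) = y + q.2 := by rw [← add_assoc, cl_cancel]
      have e2 : y + q'.1 + (q.1 + q.2) = y + q'.2 := by rw [hqq, ← add_assoc, cl_cancel]
      have m1 : y + q.1 ∈ KK (q.1 + q.2) := by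
        rw [cl_mem_iff hM, e1]
        rcases hval _ hq2.1 with h | h
        · exact absurd h hq2.2
        · rw [hq1.2, h]
      have m2 : y + q'.1 ∈ KK (q.1 + q.2) := by
        rw [cl_mem_iff hM, e2]
        rcases hval _ hq2'.1 with h | h
        · exact absurd h hq2'.2
        · rw [hq1'.2, h]
      have m3 := (KK (q.1 + q.2)).add_mem m1 m2
      have e3 : y + q.1 + (y + q'.1) = q.1 + q'.1 := by
        have : y + q.1 + (y + q'.1) = (y + y) + (q.1 + q'.1) := by abel
        rw [this, add_self_eq, zero_add]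
      rw [e3] at m3
      have m4 := cl_disj hD hmem hM m3 (D.add_mem hq1.1 hq1'.1)
      have m5 : q.1 = q'.1 := by
        by_contra h
        exact cl_add_ne h m4
      have m6 : q.2 = q'.2 := by
        rw [m5] at hqq
        exact add_left_cancel hqq
      exact Prod.ext m5 m6
  have hpos : 0 < Df.card := Finset.card_pos.2 ⟨0, (hDf 0).2 D.zero_mem⟩
  rw [Finset.card_erase_of_mem ((hDf 0).2 D.zero_mem), ← hcard] at hinj
  have ha : 0 < (Df.filter (fun z => v (y + z) = v y)).card := Finset.card_pos.2 ⟨0, h01⟩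
  have hb : 0 < (Df.filter (fun z => ¬ v (y + z) = v y)).card := Finset.card_pos.2 ⟨x, hx1⟩
  have hone : (Df.filter (fun z => v (y + z) = v y)).card ≤ 1 ∨
      (Df.filter (fun z => ¬ v (y + z) = v y)).card ≤ 1 := by
    by_contra hcon
    push Not at hcon
    obtain ⟨c1, c2⟩ := hcon
    generalize (Df.filter (fun z => v (y + z) = v y)).card = a at *
    generalize (Df.filter (fun z => ¬ v (y + z) = v y)).card = b at *
    obtain ⟨a', rfl⟩ : ∃ a', a = a' + 2 := ⟨a - 2, by omega⟩
    obtain ⟨b', rfl⟩ : ∃ b', b = b' + 2 := ⟨b - 2, by omega⟩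
    have : (a' + 2) * (b' + 2) = a' * b' + 2 * a' + 2 * b' + 4 := by ring
    rw [this] at hinj
    have h0 : 0 ≤ a' * b' := Nat.zero_le _
    omega
  rcases hone with h | h
  · left
    intro z hz hz0
    rcases hval z hz with h1 | h1
    · exfalso
      apply hz0
      exact Finset.card_le_one.1 h z (Finset.mem_filter.2 ⟨(hDf z).2 hz, h1⟩) 0 h01
    · exact h1.symm
  · right
    intro z hz hz0
    rcases hval (x + z) (D.add_mem hx hz) with h1 | h1
    · rw [← add_assoc] at h1
      rw [h1]
      exact hyx.symm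
    · exfalso
      apply hz0
      have h2 : x + z ∈ Df.filter (fun z => ¬ v (y + z) = v y) :=
        Finset.mem_filter.2 ⟨(hDf _).2 (D.add_mem hx hz), by omega⟩
      have h3 := Finset.card_le_one.1 h (x + z) h2 x hx1
      rwa [add_eq_left] at h3

/-- a peak and a dip are never in the same coset of `D` -/
private theorem cl_pd {v : W → ℤ} {D : Submodule (ZMod 2) W} (hd : 2 ≤ finrank (ZMod 2) D)
    {y x : W} (hx : x ∈ D) (h1 : ∀ z ∈ D, z ≠ 0 → v y = v (y + z) + 1)
    (h2 : ∀ z ∈ D, z ≠ 0 → v (y + x) + 1 = v (y + x + z)) : False := by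
  obtain ⟨x', hx', h0, hne⟩ := cl_third hd x
  by_cases hx0 : x = 0
  · subst hx0
    have h3 := h1 x' hx' h0
    have h4 := h2 x' hx' h0
    rw [add_zero] at h4
    omega
  · have h3 := h1 x hx hx0
    have h4 := h1 x' hx' h0
    have h5 := h2 (x + x') (D.add_mem hx hx') (cl_add_ne (Ne.symm hne))
    rw [← add_assoc, cl_cancel] at h5
    omega

theorem exists_loc {v : W → ℤ} (hv : Psd v) {D : Submodule (ZMod 2) W}
    (hD : ∀ y ∈ D, y ≠ 0 → v y + 1 = v 0) (hd : 2 ≤ finrank (ZMod 2) D) :
    ∃ (K : Submodule (ZMod 2) W) (s : W → ℤ), Loc v D K s := by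
  classical
  have hex : ∀ x, ∃ L : Submodule (ZMod 2) W, x ∈ D → x ≠ 0 → MinW v x L := by
    intro x
    by_cases hx : x ∈ D ∧ x ≠ 0
    · obtain ⟨L, hL⟩ := min_word hv (hD x hx.1 hx.2)
      exact ⟨L, fun _ _ => hL⟩
    · exact ⟨⊥, fun h1 h2 => absurd ⟨h1, h2⟩ hx⟩
  choose KK hK using hex
  obtain ⟨K, hKdef⟩ : ∃ K : Submodule (ZMod 2) W,
      K = ⨅ x : W, ⨅ _ : x ∈ D, ⨅ _ : x ≠ 0, KK x := ⟨_, rfl⟩
  have hKm : ∀ y, y ∈ K ↔ ∀ x ∈ D, x ≠ 0 → y ∈ KK x := by
    intro y
    rw [hKdef]
    simp only [Submodule.mem_iInf]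
  have hpeak : ∀ y, y ∈ K ↔ ∀ x ∈ D, x ≠ 0 → v y = v (y + x) + 1 := by
    intro y
    rw [hKm]
    constructor
    · intro h x hx hx0
      exact (cl_mem_iff (hK x hx hx0) y).1 (h x hx hx0)
    · intro h x hx hx0
      exact (cl_mem_iff (hK x hx hx0) y).2 (h x hx hx0)
  obtain ⟨x0, hx0D, hx0, -⟩ := cl_third hd 0
  have hdisj : ∀ z ∈ K, z ∈ D → z = 0 := fun z hz hzD =>
    cl_disj hD hx0D (hK x0 hx0D hx0) ((hKm z).1 hz x0 hx0D hx0) hzD
  obtain ⟨Dp, hDp⟩ : ∃ Dp : W → Prop, ∀ y, Dp y ↔
      ∀ z ∈ D, z ≠ 0 → v y + 1 = v (y + z) := ⟨fun y => ∀ z ∈ D, z ≠ 0 → v y + 1 = v (y + z),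
        fun y => Iff.rfl⟩
  -- half of the periodicity
  have hhalf : ∀ y, ∀ x ∈ D, v y = v (y + x) + 1 →
      v (y + x) - (ind K (y + x) - if Dp (y + x) then 1 else 0) =
        v y - (ind K y - if Dp y then 1 else 0) := by
    intro y x hx h
    have hx1 : x ≠ 0 := by
      intro h1
      rw [h1, add_zero] at h
      omega
    have hnd : ¬ Dp y := by
      intro h1
      have h2 := (hDp y).1 h1 x hx hx1
      omega
    have hnp : y + x ∉ K := by
      intro h1
      have h2 := (hpeak _).1 h1 x hx hx1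
      rw [cl_cancel] at h2
      omega
    rw [if_neg hnd]
    have e1 : ind K (y + x) = 0 := by
      unfold ind
      exact if_neg hnp
    rw [e1]
    rcases cl_dich hD hK hx h with h1 | h1
    · have h2 : y ∈ K := (hpeak y).2 h1
      have h3 : ¬ Dp (y + x) := fun h4 => cl_pd hd hx h1 ((hDp _).1 h4)
      have e2 : ind K y = 1 := by
        unfold ind
        exact if_pos h2
      rw [if_neg h3, e2]
      omega
    · have h2 : Dp (y + x) := (hDp _).2 h1
      have h3 : y ∉ K := fun h4 => cl_pd hd hx ((hpeak y).1 h4) h1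
      have e2 : ind K y = 0 := by
        unfold ind
        exact if_neg h3
      rw [if_pos h2, e2]
      omega
  have hper : ∀ y, ∀ x ∈ D,
      v (y + x) - (ind K (y + x) - if Dp (y + x) then 1 else 0) =
        v y - (ind K y - if Dp y then 1 else 0) := by
    intro y x hx
    by_cases hx1 : x = 0
    · rw [hx1, add_zero]
    have hn := cl_near (hK x hx hx1) y
    rcases lt_trichotomy (v y) (v (y + x)) with h | h | h
    · have h1 : v (y + x) = v (y + x + x) + 1 := by
        rw [cl_cancel]
        omega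
      have h2 := hhalf (y + x) x hx h1
      rw [cl_cancel] at h2
      exact h2.symm
    · have n1 : y ∉ K := by
        intro h1
        have h2 := (hpeak _).1 h1 x hx hx1
        omega
      have n2 : y + x ∉ K := by
        intro h1
        have h2 := (hpeak _).1 h1 x hx hx1
        rw [cl_cancel] at h2
        omega
      have n3 : ¬ Dp y := by
        intro h1
        have h2 := (hDp y).1 h1 x hx hx1
        omega
      have n4 : ¬ Dp (y + x) := by
        intro h1
        have h2 := (hDp _).1 h1 x hx hx1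
        rw [cl_cancel] at h2
        omega
      have e1 : ind K y = 0 := by
        unfold ind
        exact if_neg n1
      have e2 : ind K (y + x) = 0 := by
        unfold ind
        exact if_neg n2
      rw [if_neg n3, if_neg n4, e1, e2, h]
    · exact hhalf y x hx (by omega)
  by_cases hdip : ∃ g, Dp g
  · obtain ⟨g, hg⟩ := hdip
    have hg' := (hDp g).1 hg
    have hgx : ∀ x ∈ D, x ≠ 0 → g + x ∈ KK x := by
      intro x hx hx1
      rw [cl_mem_iff (hK x hx hx1), cl_cancel]
      exact (hg' x hx hx1).symm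
    have hdp : ∀ y, Dp y ↔ y + g ∈ K := by
      intro y
      rw [hDp, hKm]
      refine forall_congr' fun x => forall_congr' fun hx => forall_congr' fun hx1 => ?_
      have e1 : y + g = (y + x) + (g + x) := by
        have : (y + x) + (g + x) = (y + g) + (x + x) := by abel
        rw [this, add_self_eq, add_zero]
      have e2 : y + x ∈ KK x ↔ v y + 1 = v (y + x) := by
        rw [cl_mem_iff (hK x hx hx1), cl_cancel]
        exact eq_comm
      rw [← e2, e1]
      constructor
      · intro h
        exact (KK x).add_mem h (hgx x hx hx1)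
      · intro h
        have h2 := (KK x).add_mem h (hgx x hx hx1)
        rwa [cl_cancel] at h2
    have hgn : g ∉ K ⊔ D := by
      intro h
      obtain ⟨k, hk, d, hdD, hkd⟩ := Submodule.mem_sup.1 h
      have h1 := (hpeak k).1 hk
      refine cl_pd hd hdD h1 ?_
      rw [hkd]
      exact hg'
    refine ⟨K, fun y => ind K y - ind K (y + g), ?_, hpeak, ?_, Or.inr ⟨g, hgn, fun y => rfl, ?_⟩⟩
    · rw [Submodule.disjoint_def]
      exact hdisj
    · intro y x hx
      have h1 := hper y x hx
      have e : ∀ z, (if Dp z then (1 : ℤ) else 0) = ind K (z + g) := by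
        intro z
        unfold ind
        by_cases hz : Dp z
        · rw [if_pos hz, if_pos ((hdp z).1 hz)]
        · rw [if_neg hz, if_neg (fun h2 => hz ((hdp z).2 h2))]
      rw [e, e] at h1
      exact h1
    · intro x hx hx1
      refine ⟨KK x, hK x hx hx1, ?_⟩
      have hxg : x + g ∉ K := by
        intro h
        apply hgn
        have h1 : g = (x + g) + x := by
          have : (x + g) + x = g + (x + x) := by abel
          rw [this, add_self_eq, add_zero]
        rw [h1]
        exact Submodule.add_mem_sup h hx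
      have hL : KK x = K ⊔ Submodule.span (ZMod 2) {x + g} := by
        apply le_antisymm
        · intro y hy
          rw [cl_mem_iff (hK x hx hx1)] at hy
          rcases cl_dich hD hK hx hy with h | h
          · exact Submodule.mem_sup_left ((hpeak y).2 h)
          · have h2 := (hdp _).1 ((hDp _).2 h)
            have e1 : y = (y + x + g) + (x + g) := by
              rw [add_assoc y x g, cl_cancel]
            rw [e1]
            exact Submodule.add_mem_sup h2 (Submodule.mem_span_singleton_self _)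
        · refine sup_le (fun y hy => (hKm y).1 hy x hx hx1) ?_
          rw [Submodule.span_singleton_le_iff_mem, add_comm]
          exact hgx x hx hx1
      have hne : x + g ≠ 0 := by
        intro h
        rw [h] at hxg
        exact hxg K.zero_mem
      have hdj : Disjoint K (Submodule.span (ZMod 2) {x + g}) :=
        (Submodule.disjoint_span_singleton' hne).2 hxg
      have hf := Submodule.finrank_sup_add_finrank_inf_eq K (Submodule.span (ZMod 2) {x + g})
      rw [hdj.eq_bot, finrank_bot, add_zero, finrank_span_singleton hne] at hf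
      rw [hL]
      exact hf
  · push Not at hdip
    refine ⟨K, ind K, ?_, hpeak, ?_, Or.inl ⟨fun y => rfl, ?_⟩⟩
    · rw [Submodule.disjoint_def]
      exact hdisj
    · intro y x hx
      have h1 := hper y x hx
      rw [if_neg (hdip _), if_neg (hdip _), sub_zero, sub_zero] at h1
      exact h1
    · intro x hx hx1
      have hL : K = KK x := by
        apply le_antisymm
        · exact fun y hy => (hKm y).1 hy x hx hx1
        · intro y hy
          rw [cl_mem_iff (hK x hx hx1)] at hy
          rcases cl_dich hD hK hx hy with h | h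
          · exact (hpeak y).2 h
          · exact absurd ((hDp _).2 h) (hdip _)
      rw [hL]
      exact hK x hx hx1

/-- Another clique whose points are orthogonal to those of `D` lies in the peak set. -/
theorem loc_le {v : W → ℤ} {D K : Submodule (ZMod 2) W} {s : W → ℤ} (h : Loc v D K s)
    {E : Submodule (ZMod 2) W} (hD : ∀ y ∈ D, y ≠ 0 → v y + 1 = v 0)
    (hE : ∀ y ∈ E, y ≠ 0 → v y + 1 = v 0)
    (hX : ∀ x ∈ E, x ≠ 0 → ∀ y ∈ D, y ≠ 0 → v (x + y) + 2 = v 0) : E ≤ K := by
  intro x hx
  rw [h.peak]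
  intro y hy hy0
  by_cases hx0 : x = 0
  · subst hx0
    rw [zero_add]
    linarith [hD y hy hy0]
  · linarith [hE x hx hx0, hX x hx hx0 y hy hy0]

/-- `s` is `K`-periodic. -/
theorem loc_per {v : W → ℤ} {D K : Submodule (ZMod 2) W} {s : W → ℤ} (h : Loc v D K s)
    {x : W} (hx : x ∈ K) (y : W) : s (y + x) = s y := by
  have hi : ∀ z : W, ind K (z + x) = ind K z := by
    intro z
    have hz : z + x ∈ K ↔ z ∈ K := by
      constructor
      · intro h1
        have h2 := K.add_mem h1 hx
        rwa [add_assoc, add_self_eq, add_zero] at h2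
      · intro h1
        exact K.add_mem h1 hx
    unfold ind
    by_cases h1 : z ∈ K
    · rw [if_pos h1, if_pos (hz.2 h1)]
    · rw [if_neg h1, if_neg (fun h2 => h1 (hz.1 h2))]
  rcases h.form with ⟨h1, -⟩ | ⟨g, -, h1, -⟩
  · rw [h1, h1, hi]
  · rw [h1, h1, hi]
    congr 1
    have : y + x + g = y + g + x := by abel
    rw [this, hi]

theorem loc_zero {v : W → ℤ} {D K : Submodule (ZMod 2) W} {s : W → ℤ} (h : Loc v D K s) :
    s 0 = 1 := by
  classical
  have h0 : ind K (0 : W) = 1 := by
    unfold ind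
    exact if_pos (zero_mem _)
  rcases h.form with ⟨h1, -⟩ | ⟨g, hg, h1, -⟩
  · rw [h1, h0]
  · rw [h1, h0, zero_add]
    have : ind K g = 0 := by
      unfold ind
      exact if_neg (fun h2 => hg (Submodule.mem_sup_left h2))
    rw [this, sub_zero]

end Pool.Agent.GR72
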