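/-
GR72/CodeTo: from a code to a function (needs L1, Digits.griesmer_eq, CodeDefs).
`W = Dual (ZMod 2) C`, `finrank W = k` (Subspace.dual_finrank_eq).  For `i : Fin n` let
`e i : W` be the coordinate functional `c ↦ c i` (`(LinearMap.proj i).domRestrict C` or
`LinearMap.proj i ∘ₗ C.subtype`), `mult x = #{i | e i = x}` (a natural number), and
`v x = s - mult x + (if x = 0 then n - 2 d else 0)` (integers).
Every functional on `W` is the evaluation at a codeword `m ∈ C` (reflexivity: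
`Module.evalEquiv` / `Module.Dual.eval`, `Module.Dual.eval_apply`).
`ft v (eval m) = s * ft 1 (eval m) - ∑ i, sg (m i) + n - 2 d` and
`∑ i, sg (m i) = n - 2 * hammingNorm m`.  So for `m ≠ 0`: `ft v (eval m) = 2 (hammingNorm m) - 2 d
≥ 0`; and `tot v = s 2^k - n + n - 2 d = 2 D` (`2^k = 2 * 2^(k-1)`), so `v` is Psd.  By ds_le
`ds (2 D) ≤ v 0 = s - mult 0 + n - 2 d`, i.e. (ds_two_mul, griesmer_eq)
`griesmer k d + mult 0 ≤ n`.  If `n = griesmer k d` then `mult 0 = 0` and `v 0 = ds (2 D)`.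
For `x ≠ 0`, `v x = s - mult x ≤ s`.
-/
import Pool.Agent.GR72.L1

namespace Pool.Agent.GR72

open Module

private theorem ct_sum_sg {n : ℕ} (m : Fin n → ZMod 2) :
    ∑ i, sg (m i) = (n : ℤ) - 2 * hammingNorm m := by
  have h1 : ∀ i, sg (m i) = 1 - 2 * (if m i ≠ 0 then (1 : ℤ) else 0) := by
    intro i
    rcases zmod_cases (m i) with h | h
    · rw [h]; simp [sg]
    · rw [h]; simp [sg]
  simp only [h1]
  rw [Finset.sum_sub_distrib, ← Finset.mul_sum, Finset.sum_boole]
  simp [hammingNorm]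

theorem code_to {n k d s D : ℕ} (hk : 1 ≤ k) (h : s * 2 ^ (k - 1) = d + D)
    (hD : D < 2 ^ (k - 1)) {C : Submodule (ZMod 2) (Fin n → ZMod 2)} (hC : IsCode n k d C) :
    griesmer k d ≤ n ∧ (n = griesmer k d → ∃ v : Dual (ZMod 2) C → ℤ,
      Gr v (2 * D) ∧ ∀ x, x ≠ 0 → v x ≤ s) := by
  classical
  obtain ⟨hdim, hmin, _⟩ := hC
  haveI : Finite C := inferInstance
  have hfr : finrank (ZMod 2) (Dual (ZMod 2) C) = k := by
    rw [finrank_dual_eq, hdim]
  set e : Fin n → Dual (ZMod 2) C := fun i => (LinearMap.proj i).comp C.subtype with he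
  set M : Dual (ZMod 2) C → ℤ := fun x => ∑ i, dl (e i) x with hM
  have hM0 : ∀ x, 0 ≤ M x := by
    intro x
    refine Finset.sum_nonneg fun i _ => ?_
    unfold dl
    split_ifs <;> norm_num
  have hftM : ∀ φ : Dual (ZMod 2) (Dual (ZMod 2) C), ft M φ = ∑ i, sg (φ (e i)) := by
    intro φ
    haveI := Fintype.ofFinite (Dual (ZMod 2) C)
    rw [ft_eq_sum]
    simp only [hM, Finset.mul_sum]
    rw [Finset.sum_comm]
    refine Finset.sum_congr rfl fun i _ => ?_
    rw [← ft_dl (e i) φ, ft_eq_sum]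
  set v : Dual (ZMod 2) C → ℤ := fun x =>
    ((s : ℤ) * (fun _ => (1 : ℤ)) x - M x) + ((n : ℤ) - 2 * d) * dl 0 x with hv
  have hft : ∀ φ : Dual (ZMod 2) (Dual (ZMod 2) C),
      ft v φ = (s : ℤ) * (if φ = 0 then 2 ^ k else 0) - ∑ i, sg (φ (e i)) +
        ((n : ℤ) - 2 * d) := by
    intro φ
    rw [hv, ft_add (fun x => (s : ℤ) * (fun _ => (1 : ℤ)) x - M x)
      (fun x => ((n : ℤ) - 2 * d) * dl 0 x),
      ft_sub (fun x => (s : ℤ) * (fun _ => (1 : ℤ)) x) M, ft_mul, ft_mul, ft_dl, ft_one, hfr, hftM,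
      map_zero, sg_zero, mul_one]
  have hpow : (2 : ℤ) ^ k = 2 * 2 ^ (k - 1) := by
    rw [← pow_succ']
    congr 1
    omega
  have hz : (s : ℤ) * 2 ^ (k - 1) = d + D := by exact_mod_cast h
  have hsum0 : ∑ i, sg ((0 : Dual (ZMod 2) (Dual (ZMod 2) C)) (e i)) = (n : ℤ) := by
    simp [sg]
  have hft0 : ft v 0 = 2 * D := by
    rw [hft 0, if_pos rfl, hsum0, hpow]
    linear_combination 2 * hz
  have htot : tot v = ((2 * D : ℕ) : ℤ) := by
    rw [← ft_zero, hft0]
    push_cast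
    ring
  have hpsd : Psd v := by
    intro φ
    by_cases hφ : φ = 0
    · rw [hφ, hft0]
      positivity
    · obtain ⟨m, hm⟩ := (Module.evalEquiv (ZMod 2) C).surjective φ
      have hm0 : m ≠ 0 := by
        intro h0
        rw [h0, map_zero] at hm
        exact hφ hm.symm
      have h1 : ∀ i, φ (e i) = (m : Fin n → ZMod 2) i := by
        intro i
        rw [← hm]
        rfl
      rw [hft φ, if_neg hφ]
      simp only [h1]
      rw [ct_sum_sg]
      have h2 := hmin m m.2 (by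
        intro h0
        exact hm0 (Subtype.ext h0))
      have h3 : (d : ℤ) ≤ hammingNorm (m : Fin n → ZMod 2) := by exact_mod_cast h2
      linarith
  have hv0 : v 0 = s - M 0 + (n - 2 * d) := by
    simp [hv, dl]
  have hvx : ∀ x, x ≠ 0 → v x = s - M x := by
    intro x hx
    simp [hv, dl, hx]
  have hds := ds_le hpsd _ htot
  rw [ds_two_mul, hv0] at hds
  have hgr := griesmer_eq k d s D hk h hD
  have hgr' : (griesmer k d : ℤ) + s = 2 * d + ds D := by exact_mod_cast hgr
  have hM00 := hM0 0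
  refine ⟨?_, ?_⟩
  · have : (griesmer k d : ℤ) ≤ n := by linarith
    exact_mod_cast this
  · intro hn
    have hn' : (n : ℤ) = griesmer k d := by exact_mod_cast hn
    refine ⟨v, ⟨hpsd, htot, ?_⟩, ?_⟩
    · rw [ds_two_mul, hv0]
      linarith
    · intro x hx
      rw [hvx x hx]
      linarith [hM0 x]

end Pool.Agent.GR72
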