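/-
GR72/Cols: codes meeting the Griesmer bound and functions, with columns.
(Refactoring of CodeTo and ToCode.)
-/
import Pool.Agent.GR72.L1

namespace Pool.Agent.GR72

open Module

private theorem ct_sum_sg {n : ℕ} (m : Fin n → ZMod 2) :
    ∑ i, sg (m i) = (n : ℤ) - 2 * hammingNorm m := by
  have h1 : ∀ i, sg (m i) = 1 - 2 * (if m i ≠ 0 then (1 : ℤ) else 0) := by
    intro i
    rcases zmod_cases (m i) with h | h
    · rw [h]; simp [sg]
    · rw [h]; simp [sg]
  simp only [h1]
  rw [Finset.sum_sub_distrib, ← Finset.mul_sum, Finset.sum_boole]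
  simp [hammingNorm]

open Classical in
theorem code_to_cols {n k d s D : ℕ} (hk : 1 ≤ k) (h : s * 2 ^ (k - 1) = d + D)
    (hD : D < 2 ^ (k - 1)) {C : Submodule (ZMod 2) (Fin n → ZMod 2)} (hC : IsCode n k d C) :
    n = griesmer k d → ∃ v : Dual (ZMod 2) C → ℤ, Gr v (2 * D) ∧ ∀ x, x ≠ 0 →
      v x = s - (Finset.univ.filter
        (fun i : Fin n => (LinearMap.proj i).comp C.subtype = x)).card := by
  classical
  obtain ⟨hdim, hmin, _⟩ := hC
  haveI : Finite C := inferInstance
  have hfr : finrank (ZMod 2) (Dual (ZMod 2) C) = k := by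
    rw [finrank_dual_eq, hdim]
  set e : Fin n → Dual (ZMod 2) C := fun i => (LinearMap.proj i).comp C.subtype with he
  set M : Dual (ZMod 2) C → ℤ := fun x => ∑ i, dl (e i) x with hM
  have hM0 : ∀ x, 0 ≤ M x := by
    intro x
    refine Finset.sum_nonneg fun i _ => ?_
    unfold dl
    split_ifs <;> norm_num
  have hftM : ∀ φ : Dual (ZMod 2) (Dual (ZMod 2) C), ft M φ = ∑ i, sg (φ (e i)) := by
    intro φ
    haveI := Fintype.ofFinite (Dual (ZMod 2) C)
    rw [ft_eq_sum]
    simp only [hM, Finset.mul_sum]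
    rw [Finset.sum_comm]
    refine Finset.sum_congr rfl fun i _ => ?_
    rw [← ft_dl (e i) φ, ft_eq_sum]
  set v : Dual (ZMod 2) C → ℤ := fun x =>
    ((s : ℤ) * (fun _ => (1 : ℤ)) x - M x) + ((n : ℤ) - 2 * d) * dl 0 x with hv
  have hft : ∀ φ : Dual (ZMod 2) (Dual (ZMod 2) C),
      ft v φ = (s : ℤ) * (if φ = 0 then 2 ^ k else 0) - ∑ i, sg (φ (e i)) +
        ((n : ℤ) - 2 * d) := by
    intro φ
    rw [hv, ft_add (fun x => (s : ℤ) * (fun _ => (1 : ℤ)) x - M x)
      (fun x => ((n : ℤ) - 2 * d) * dl 0 x),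
      ft_sub (fun x => (s : ℤ) * (fun _ => (1 : ℤ)) x) M, ft_mul, ft_mul, ft_dl, ft_one, hfr, hftM,
      map_zero, sg_zero, mul_one]
  have hpow : (2 : ℤ) ^ k = 2 * 2 ^ (k - 1) := by
    rw [← pow_succ']
    congr 1
    omega
  have hz : (s : ℤ) * 2 ^ (k - 1) = d + D := by exact_mod_cast h
  have hsum0 : ∑ i, sg ((0 : Dual (ZMod 2) (Dual (ZMod 2) C)) (e i)) = (n : ℤ) := by
    simp [sg]
  have hft0 : ft v 0 = 2 * D := by
    rw [hft 0, if_pos rfl, hsum0, hpow]
    linear_combination 2 * hz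
  have htot : tot v = ((2 * D : ℕ) : ℤ) := by
    rw [← ft_zero, hft0]
    push_cast
    ring
  have hpsd : Psd v := by
    intro φ
    by_cases hφ : φ = 0
    · rw [hφ, hft0]
      positivity
    · obtain ⟨m, hm⟩ := (Module.evalEquiv (ZMod 2) C).surjective φ
      have hm0 : m ≠ 0 := by
        intro h0
        rw [h0, map_zero] at hm
        exact hφ hm.symm
      have h1 : ∀ i, φ (e i) = (m : Fin n → ZMod 2) i := by
        intro i
        rw [← hm]
        rfl
      rw [hft φ, if_neg hφ]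
      simp only [h1]
      rw [ct_sum_sg]
      have h2 := hmin m m.2 (by
        intro h0
        exact hm0 (Subtype.ext h0))
      have h3 : (d : ℤ) ≤ hammingNorm (m : Fin n → ZMod 2) := by exact_mod_cast h2
      linarith
  have hv0 : v 0 = s - M 0 + (n - 2 * d) := by
    simp [hv, dl]
  have hvx : ∀ x, x ≠ 0 → v x = s - M x := by
    intro x hx
    simp [hv, dl, hx]
  have hds := ds_le hpsd _ htot
  rw [ds_two_mul, hv0] at hds
  have hgr := griesmer_eq k d s D hk h hD
  have hgr' : (griesmer k d : ℤ) + s = 2 * d + ds D := by exact_mod_cast hgr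
  have hM00 := hM0 0
  intro hn
  have hn' : (n : ℤ) = griesmer k d := by exact_mod_cast hn
  refine ⟨v, ⟨hpsd, htot, ?_⟩, ?_⟩
  · rw [ds_two_mul, hv0]
    linarith
  · intro x hx
    rw [hvx x hx, hM, Finset.card_filter]
    push_cast
    congr 1
    refine Finset.sum_congr rfl fun i _ => ?_
    unfold dl
    by_cases hxi : x = e i
    · rw [if_pos hxi, if_pos hxi.symm]
    · rw [if_neg hxi, if_neg (fun h5 => hxi h5.symm)]


open Classical in
theorem to_code_cols {W : Type} [AddCommGroup W] [Module (ZMod 2) W] [Finite W] {k d s D : ℕ}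
    (hk : 1 ≤ k) (hd : 1 ≤ d) (h : s * 2 ^ (k - 1) = d + D) (hD : D < 2 ^ (k - 1))
    (hW : finrank (ZMod 2) W = k) {v : W → ℤ} (hv : Gr v (2 * D))
    (hb : ∀ x, x ≠ 0 → v x ≤ s) :
    ∃ e : Fin (griesmer k d) → W,
      (∀ x, x ≠ 0 → ((Finset.univ.filter (fun i => e i = x)).card : ℤ) = s - v x) ∧
      ∀ L : Dual (ZMod 2) W →ₗ[ZMod 2] (Fin (griesmer k d) → ZMod 2), (∀ φ i, L φ i = φ (e i)) →
        IsCode (griesmer k d) k d (LinearMap.range L) := by
  classical
  haveI := Fintype.ofFinite W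
  set m : W → ℕ := fun x => if x = 0 then 0 else ((s : ℤ) - v x).toNat with hm
  have hmx : ∀ x, x ≠ 0 → (m x : ℤ) = s - v x := by
    intro x hx
    have := hb x hx
    rw [hm]
    simp only [hx, if_false]
    rw [Int.toNat_of_nonneg (by linarith)]
  have hm0 : m 0 = 0 := by simp [hm]
  have hpow : (2 : ℤ) ^ k = 2 * 2 ^ (k - 1) := by
    rw [← pow_succ']
    congr 1
    omega
  have hz : (s : ℤ) * 2 ^ (k - 1) = d + D := by exact_mod_cast h
  have hgr := griesmer_eq k d s D hk h hD
  have hgr' : (griesmer k d : ℤ) + s = 2 * d + ds D := by exact_mod_cast hgr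
  have htot := hv.tot
  rw [tot_eq_sum] at htot
  have hzero := hv.zero
  rw [ds_two_mul] at hzero
  have hcardW : (Fintype.card W : ℤ) = 2 ^ k := by
    have := card_eq W
    rw [Nat.card_eq_fintype_card, hW] at this
    exact_mod_cast this
  have hsum : ∑ x, m x = griesmer k d := by
    have h1 : ∑ x, (m x : ℤ) = ∑ x, ((s : ℤ) - v x) - (s - v 0) := by
      rw [← Finset.sum_erase_add _ _ (Finset.mem_univ (0 : W)),
        ← Finset.sum_erase_add Finset.univ (fun x => (s : ℤ) - v x) (Finset.mem_univ (0 : W)), hm0]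
      rw [Finset.sum_congr rfl (fun x hx => hmx x (Finset.ne_of_mem_erase hx))]
      push_cast
      ring
    rw [Finset.sum_sub_distrib, htot, Finset.sum_const, Finset.card_univ, nsmul_eq_mul, hcardW,
      hpow, hzero] at h1
    have h2 : ((∑ x, m x : ℕ) : ℤ) = griesmer k d := by
      push_cast
      rw [h1]
      push_cast
      linear_combination 2 * hz - hgr'
    exact_mod_cast h2
  have hcardJ : Fintype.card (Σ x : W, Fin (m x)) = griesmer k d := by
    rw [Fintype.card_sigma]
    simp only [Fintype.card_fin]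
    exact hsum
  let σ : Fin (griesmer k d) ≃ (Σ x : W, Fin (m x)) := (Fintype.equivFinOfCardEq hcardJ).symm
  refine ⟨fun i => (σ i).1, ?_, ?_⟩
  · intro x hx
    have h1 : (Finset.univ.filter (fun i => (σ i).1 = x)).card =
        (Finset.univ.filter (fun j : (Σ x : W, Fin (m x)) => j.1 = x)).card := by
      refine Finset.card_bij (fun i _ => σ i) ?_ ?_ ?_
      · intro i hi
        simpa using hi
      · intro i _ i' _ hii
        exact σ.injective hii
      · intro j hj
        exact ⟨σ.symm j, by simpa using hj, by simp⟩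
    have h2 : (Finset.univ.filter (fun j : (Σ x : W, Fin (m x)) => j.1 = x)).card = m x := by
      have h3 : (Finset.univ.filter (fun j : (Σ x : W, Fin (m x)) => j.1 = x)) =
          (Finset.univ : Finset (Fin (m x))).map
            ⟨fun a => (⟨x, a⟩ : Σ x : W, Fin (m x)), fun a b hab => by simpa using hab⟩ := by
        ext ⟨y, a⟩
        simp only [Finset.mem_filter, Finset.mem_univ, true_and, Finset.mem_map,
          Function.Embedding.coeFn_mk]
        constructor
        · intro h4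
          subst h4
          exact ⟨a, rfl⟩
        · rintro ⟨b, hb⟩
          exact (congrArg Sigma.fst hb).symm
      rw [h3, Finset.card_map, Finset.card_univ, Fintype.card_fin]
    rw [h1, h2, hmx x hx]
  intro L hL
  have hnorm : ∀ φ : Dual (ZMod 2) W, φ ≠ 0 → 2 * (hammingNorm (L φ) : ℤ) = 2 * d + ft v φ := by
    intro φ hφ
    have h1 : (hammingNorm (L φ) : ℤ) = ∑ i, (if φ (σ i).1 ≠ 0 then (1 : ℤ) else 0) := by
      rw [Finset.sum_boole]
      simp only [hammingNorm, hL]
    have h2 : ∑ i, (if φ (σ i).1 ≠ 0 then (1 : ℤ) else 0) =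
        ∑ j : (Σ x : W, Fin (m x)), (if φ j.1 ≠ 0 then (1 : ℤ) else 0) :=
      Equiv.sum_comp σ (fun j : (Σ x : W, Fin (m x)) => if φ j.1 ≠ 0 then (1 : ℤ) else 0)
    have h3 : ∑ j : (Σ x : W, Fin (m x)), (if φ j.1 ≠ 0 then (1 : ℤ) else 0) =
        ∑ x, (m x : ℤ) * (if φ x ≠ 0 then (1 : ℤ) else 0) := by
      rw [Fintype.sum_sigma]
      refine Finset.sum_congr rfl fun x _ => ?_
      change ∑ _y : Fin (m x), (if φ x ≠ 0 then (1 : ℤ) else 0) = _
      rw [Finset.sum_const, Finset.card_univ, Fintype.card_fin, nsmul_eq_mul]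
    have h4 : ∑ x, 2 * ((m x : ℤ) * (if φ x ≠ 0 then (1 : ℤ) else 0)) =
        ∑ x, ((s : ℤ) - v x - s * (sg (φ x) * 1) + sg (φ x) * v x) := by
      refine Finset.sum_congr rfl fun x _ => ?_
      rcases zmod_cases (φ x) with hx | hx
      · rw [hx]
        simp [sg]
      · have hx0 : x ≠ 0 := by
          intro h0
          rw [h0, map_zero] at hx
          exact absurd hx (by decide)
        rw [hmx x hx0, hx, sg_one]
        simp only [ne_eq, one_ne_zero, not_false_eq_true, if_true]
        ring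
    rw [h1, h2, h3, Finset.mul_sum, h4]
    have h5 := ft_one φ
    rw [if_neg hφ, ft_eq_sum] at h5
    rw [Finset.sum_add_distrib, Finset.sum_sub_distrib, Finset.sum_sub_distrib, htot,
      ← Finset.mul_sum, h5, Finset.sum_const, Finset.card_univ, nsmul_eq_mul, hcardW, hpow,
      ← ft_eq_sum]
    push_cast
    linear_combination 2 * hz
  have hge : ∀ φ : Dual (ZMod 2) W, φ ≠ 0 → d ≤ hammingNorm (L φ) := by
    intro φ hφ
    have h1 := hnorm φ hφ
    have h2 := hv.psd φ
    have h3 : (d : ℤ) ≤ hammingNorm (L φ) := by linarith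
    exact_mod_cast h3
  have hinj : Function.Injective L := by
    rw [← LinearMap.ker_eq_bot, LinearMap.ker_eq_bot']
    intro φ hφ
    by_contra hne
    have h1 := hge φ hne
    rw [hφ, hammingNorm_zero] at h1
    omega
  refine ⟨?_, ?_, ?_⟩
  · rw [LinearMap.finrank_range_of_inj hinj, finrank_dual_eq, hW]
  · rintro c ⟨φ, rfl⟩ hc
    refine hge φ ?_
    intro h0
    rw [h0, map_zero] at hc
    exact hc rfl
  · obtain ⟨ψ, hψ, hψ0⟩ := exists_zero hv ⟨D, by ring⟩ (by omega)
    have h1 := hnorm ψ hψ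
    rw [hψ0, add_zero] at h1
    have h2 : hammingNorm (L ψ) = d := by
      have : (hammingNorm (L ψ) : ℤ) = d := by linarith
      exact_mod_cast this
    refine ⟨L ψ, ⟨ψ, rfl⟩, ?_, h2⟩
    intro h0
    rw [h0, hammingNorm_zero] at h2
    omega


end Pool.Agent.GR72
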