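/-
GR72/ComplRes: restriction to a complement of the periods, and extension by zero (needs RDBase,
Psd, Core, Basic).
* `res_psd`: for a subspace `U` the restriction of a psd function is psd: for `ψ : Dual U` choose an
  extension `φ` to `W` (`LinearMap.exists_extend`); `ft (v ∘ U.subtype) ψ = ft (ind U * v) φ ≥ 0`
  (psd_mul, psd_ind).
* `compl_res`: `P = {x | v x = v 0}`, `U` a complement (`IsCompl U P`), `p = finrank P`.  Then
  `∑_{x ∈ U} v x * 2^p = tot v` (`v (u + y) = v u` for `y ∈ P`: psd_period; `W = U ⊕ P`), i.e.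
  `tot (res) * 2^p = 2^c (2^q - 1)`, and `2^q - 1` is odd, so `p ≤ c` and
  `tot (res) = 2^(c-p) (2^q - 1)`.  `v 0 = q = ds (...)`.  For `x ∈ U`, `x ≠ 0`: `x ∉ P`, psd_abs_le.
* `zero_ext`: `v' (x, t) = v x` if `t = 0`, `0` otherwise on `W × ZMod 2`; `ft v' φ = ft v (φ ∘ inl)`,
  same total, `v' 0 = v 0`.
-/
import Pool.Agent.GR72.RDBase
import Pool.Agent.GR72.Core
import Pool.Agent.GR72.Digits

namespace Pool.Agent.GR72

open Module

variable {W : Type} [AddCommGroup W] [Module (ZMod 2) W] [Finite W]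

/-- A sum over a subspace equals the sum with the indicator. -/
private theorem sum_sub_eq (U : Submodule (ZMod 2) W) (f : W → ℤ) :
    ∑ᶠ x : U, f x = ∑ᶠ x : W, ind U x * f x := by
  classical
  have := Fintype.ofFinite W
  have := Fintype.ofFinite U
  rw [finsum_eq_sum_of_fintype, finsum_eq_sum_of_fintype]
  have h1 : ∀ x : W, ind U x * f x = if x ∈ U then f x else 0 := by
    intro x
    unfold ind
    split_ifs <;> simp
  simp only [h1]
  rw [← Finset.sum_filter]
  refine (Finset.sum_subtype _ (fun x => ?_) f).symm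
  simp

theorem res_psd {v : W → ℤ} (hv : Psd v) (U : Submodule (ZMod 2) W) :
    Psd (fun x : U => v x) := by
  intro ψ
  obtain ⟨φ, hφ⟩ := LinearMap.exists_extend ψ
  have h1 : ft (fun x : U => v x) ψ = ft (fun x => ind U x * v x) φ := by
    unfold ft
    have h2 : ∀ x : U, sg (ψ x) * v x = (fun w : W => sg (φ w) * v w) (x : W) := by
      intro x
      have h3 : φ (x : W) = ψ x := by
        have := LinearMap.congr_fun hφ x
        simpa using this
      simp only [h3]
    rw [finsum_congr h2, sum_sub_eq U (fun w => sg (φ w) * v w)]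
    exact finsum_congr fun x => by ring
  rw [h1]
  exact psd_mul (psd_ind U) hv φ

theorem compl_res {v : W → ℤ} {q c : ℕ} (hq : 1 ≤ q) (hv : Gr v (2 ^ c * (2 ^ q - 1)))
    {P U : Submodule (ZMod 2) W} (hP : ∀ x, x ∈ P ↔ v x = v 0) (hU : IsCompl U P) :
    finrank (ZMod 2) P ≤ c ∧
      Gr (fun x : U => v x) (2 ^ (c - finrank (ZMod 2) P) * (2 ^ q - 1)) ∧
      ∀ x : U, x ≠ 0 → v x + 1 ≤ v 0 := by
  classical
  have := Fintype.ofFinite W
  have := Fintype.ofFinite U
  have := Fintype.ofFinite P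
  obtain ⟨p, hp⟩ : ∃ p, p = finrank (ZMod 2) P := ⟨_, rfl⟩
  rw [← hp]
  have hper : ∀ y ∈ P, ∀ u : W, v (u + y) = v u := fun y hy u =>
    psd_period hv.psd ((hP y).1 hy) u
  -- the total
  have htot : tot (fun x : U => v x) * 2 ^ p = 2 ^ c * (2 ^ q - 1) := by
    have h1 : tot v = ∑ z : U × P, v ((z.1 : W) + z.2) := by
      rw [tot_eq_sum]
      refine (Fintype.sum_equiv (Submodule.prodEquivOfIsCompl U P hU).toEquiv _ _ ?_).symm
      intro z
      simp [Submodule.coe_prodEquivOfIsCompl']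
    have h2 : tot v = (∑ x : U, v x) * 2 ^ p := by
      rw [h1, Fintype.sum_prod_type, Finset.sum_mul]
      refine Finset.sum_congr rfl fun u _ => ?_
      have h3 : ∀ y : P, v ((u : W) + y) = v u := fun y => hper y y.2 u
      simp only [h3]
      rw [Finset.sum_const, Finset.card_univ, nsmul_eq_mul, mul_comm]
      congr 1
      have h4 := card_eq P
      rw [Nat.card_eq_fintype_card] at h4
      rw [h4, hp]
      push_cast
      rfl
    rw [tot_eq_sum, ← h2, hv.tot]
    have h5 : 1 ≤ 2 ^ q := Nat.one_le_two_pow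
    push_cast [Nat.cast_sub h5]
    ring
  have hodd : Odd ((2 : ℤ) ^ q - 1) := by
    obtain ⟨q', rfl⟩ : ∃ q', q = q' + 1 := ⟨q - 1, by omega⟩
    exact ⟨2 ^ q' - 1, by ring⟩
  have hpc : p ≤ c := by
    have h1 : (2 : ℤ) ^ p ∣ 2 ^ c * (2 ^ q - 1) := ⟨_, by rw [← htot]; ring⟩
    have hcop : IsCoprime ((2 : ℤ) ^ p) (2 ^ q - 1) := by
      refine IsCoprime.pow_left ?_
      rw [Int.isCoprime_iff_gcd_eq_one]
      exact Int.isCoprime_iff_gcd_eq_one.1 ((Int.isCoprime_two_left).2 hodd)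
    have h2 := hcop.dvd_of_dvd_mul_right h1
    by_contra hlt
    push Not at hlt
    have h3 : (2 : ℤ) ^ p ≤ 2 ^ c := Int.le_of_dvd (by positivity) h2
    have h4 : (2 : ℤ) ^ c < 2 ^ p := pow_lt_pow_right₀ (by norm_num) hlt
    linarith
  refine ⟨hpc, ⟨res_psd hv.psd U, ?_, ?_⟩, ?_⟩
  · have h5 : 1 ≤ 2 ^ q := Nat.one_le_two_pow
    have h6 : (2 : ℤ) ^ c = 2 ^ (c - p) * 2 ^ p := by
      rw [← pow_add]
      congr 1
      omega
    have h7 : tot (fun x : U => v x) * 2 ^ p = (2 ^ (c - p) * (2 ^ q - 1)) * 2 ^ p := by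
      rw [htot, h6]
      ring
    have h8 := mul_right_cancel₀ (by positivity : (2 : ℤ) ^ p ≠ 0) h7
    rw [h8]
    push_cast [Nat.cast_sub h5]
    ring
  · show v ((0 : U) : W) = _
    rw [Submodule.coe_zero, hv.zero, ds_two_pow_mul, ds_two_pow_mul]
  · intro x hx
    have h1 := psd_abs_le hv.psd (x : W)
    have h2 : (x : W) ∉ P := by
      intro h3
      apply hx
      have h4 : (x : W) ∈ U ⊓ P := ⟨x.2, h3⟩
      rw [hU.inf_eq_bot] at h4
      exact Subtype.ext ((Submodule.mem_bot _).1 h4)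
    have h3 : v x ≠ v 0 := fun h => h2 ((hP _).2 h)
    have h4 := (abs_le.1 h1).2
    have h5 : v x < v 0 := lt_of_le_of_ne h4 h3
    linarith

open Classical in
theorem zero_ext {v : W → ℤ} {V : ℕ} (hv : Gr v V) :
    Gr (fun p : W × ZMod 2 => if p.2 = 0 then v p.1 else 0) V := by
  have := Fintype.ofFinite W
  have hft : ∀ φ : Dual (ZMod 2) (W × ZMod 2),
      ft (fun p : W × ZMod 2 => if p.2 = 0 then v p.1 else 0) φ =
        ft v (φ ∘ₗ LinearMap.inl (ZMod 2) W (ZMod 2)) := by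
    intro φ
    rw [ft_eq_sum, ft_eq_sum, Fintype.sum_prod_type]
    refine Finset.sum_congr rfl fun x _ => ?_
    rw [Finset.sum_eq_single (0 : ZMod 2)]
    · simp
    · intro b _ hb
      simp [hb]
    · intro h
      exact absurd (Finset.mem_univ _) h
  refine ⟨fun φ => ?_, ?_, ?_⟩
  · rw [hft]
    exact hv.psd _
  · rw [← ft_zero, hft, LinearMap.zero_comp, ft_zero, hv.tot]
  · show (if (0 : W × ZMod 2).2 = 0 then v (0 : W × ZMod 2).1 else 0) = _
    simp [hv.zero]

end Pool.Agent.GR72
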