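/-
GR72/GapSplit: Griesmer functions split at every zero digit (needs RunAll, PeelGen).
-/
import Pool.Agent.GR72.RunAll
import Pool.Agent.GR72.PeelGen

namespace Pool.Agent.GR72

open Module

variable {W : Type} [AddCommGroup W] [Module (ZMod 2) W] [Finite W]

/-- If the digit `e` of `V = 2^(e+1) T + R`, `R < 2^e`, is zero then every function meeting the
Griesmer inequality for `V` is the sum of such functions for `2^(e+1) T` and `R`. -/
theorem gap_split {v : W → ℤ} {e T R : ℕ} (hR : R < 2 ^ e) (h : Gr v (2 ^ (e + 1) * T + R)) :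
    ∃ v2 : W → ℤ, Gr v2 R ∧ Gr (fun x => v x - v2 x) (2 ^ (e + 1) * T) := by
  induction R using Nat.strong_induction_on generalizing v with
  | _ R ih =>
  by_cases hR0 : R = 0
  · subst hR0
    refine ⟨fun _ => 0, ⟨fun φ => ?_, ?_, ?_⟩, ?_⟩
    · simp [ft]
    · simp [tot]
    · simp [ds]
    · simpa using h
  obtain ⟨q, c, t', hq, rfl⟩ := exists_run_gen hR0
  have h2q : 2 ^ 1 ≤ 2 ^ q := Nat.pow_le_pow_right (by norm_num) hq
  have hlow : 2 ^ (c + q - 1) ≤ 2 ^ c * (2 ^ q - 1) := by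
    obtain ⟨r, rfl⟩ : ∃ r, q = r + 1 := ⟨q - 1, by omega⟩
    have e1 : c + (r + 1) - 1 = c + r := by omega
    rw [e1, pow_add]
    refine Nat.mul_le_mul_left _ ?_
    rw [pow_succ]
    have : 1 ≤ 2 ^ r := Nat.one_le_two_pow
    omega
  have hRe := V_eq q c t'
  have hce : c + q ≤ e := by
    have h1 : 2 ^ (c + q - 1) < 2 ^ e := by
      refine lt_of_le_of_lt hlow (lt_of_le_of_lt ?_ hR)
      rw [hRe]
      exact Nat.le_add_left _ _
    have h2 := (Nat.pow_lt_pow_iff_right (by norm_num : 1 < 2)).1 h1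
    omega
  obtain ⟨m, hm⟩ : ∃ m, e = c + q + m := ⟨e - (c + q), by omega⟩
  have hV : 2 ^ (e + 1) * T + 2 ^ c * (2 ^ (q + 1) * t' + (2 ^ q - 1)) =
      2 ^ c * (2 ^ (q + 1) * (2 ^ m * T + t') + (2 ^ q - 1)) := by
    rw [hm]
    generalize 2 ^ q - 1 = z
    ring
  rw [hV] at h
  obtain ⟨vb, hvb, hva, -⟩ := run_split (run_all q _ W rfl) h
  have hV1 : 2 ^ (c + q + 1) * (2 ^ m * T + t') = 2 ^ (e + 1) * T + 2 ^ (c + q + 1) * t' := by
    rw [hm]
    ring
  rw [hV1] at hva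
  have hlt : 2 ^ (c + q + 1) * t' < 2 ^ c * (2 ^ (q + 1) * t' + (2 ^ q - 1)) := by
    rw [hRe]
    have : 1 ≤ 2 ^ (c + q - 1) := Nat.one_le_two_pow
    omega
  obtain ⟨v2, hv2, hv1⟩ := ih _ hlt (hlt.trans hR) hva
  refine ⟨fun x => v2 x + vb x, ⟨psd_add hv2.psd hvb.psd, ?_, ?_⟩, ?_⟩
  · rw [tot_add, hv2.tot, hvb.tot, hRe]
    push_cast
    ring
  · show v2 0 + vb 0 = _
    rw [hv2.zero, hvb.zero, ds_high, ds_low, ds_V]
    push_cast
    ring
  · have e3 : (fun x => v x - (v2 x + vb x)) = fun x => (v x - vb x) - v2 x := by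
      funext x
      ring
    rw [e3]
    exact hv1

end Pool.Agent.GR72
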