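/-
GR72/RDTrans: transitivity for points with `v = v 0 - 1` (needs the stubs of RDMin, RDMass and
WardBound).
`trans_config`: let `x, y, z`, `x + y`, `y + z` have value `v 0 - 1` and `x + z` value `v 0 - 2`.
 (1) No `φ` with `φ x = φ z = 1` and `ft v φ ≠ 0` (mass11_zero).
 (2) `b2` with `b2 x = b2 y = 1`, `b3` with `b3 y = b3 z = 1` (mass11_pos), `b4` with `b4 z = 1`,
     `b4 y = 0` (mass10_pos), all with `ft v ≠ 0`.  By (1): `b3 x = 0`, `b4 x = 0`.
 (3) `x ∈ Kz` by minw_mem and (1).  So for `w ∈ Kx ⊓ Kz`: `v w = v (w + x) + 1` (minw_add) and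
     `v (w + x) = v (w + x + z) + 1` (`w + x ∈ Kz`).
 (4) If `w ∈ Kx`, `b3 w = b4 w = 0` then `w ∈ Kz`: use minw_mem for `z`; let `ψ z = 1`, `ft v ψ ≠ 0`; then
     `ψ x = 0` by (1).
     Case `ψ y = 1`: `θ = ψ + b3` vanishes on `Kz` and on `Ky` (minw_ne for `ψ`, `b3` and `z`, `y`),
     `θ x = θ y = θ z = 0`.  `b2 + θ` vanishes on `Ky` and is `1` at `y`, so `ft v (b2 + θ) ≠ 0`
     (minw_ne), and it is `1` at `x`, so it vanishes on `Kx`; so does `b2`; so `θ` vanishes on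
     `Kx`, `θ w = 0`, `ψ w = b3 w = 0`.
     Case `ψ y = 0`: `θ = ψ + b4` vanishes on `Kz`, `θ x = θ y = θ z = 0`.  `b3 + θ` vanishes on `Kz` and
     is `1` at `z`, so `ft v (b3 + θ) ≠ 0`, it is `1` at `y`, so it vanishes on `Ky`, and so does `θ`.
     As before (`b2 + θ`) `θ` vanishes on `Kx`, so `θ w = 0`, `ψ w = b4 w = 0`.
 (5) Dimension: the kernel of `Kx → ZMod 2 × ZMod 2`, `w ↦ (b3 w, b4 w)`, lies in `Kx ⊓ Kz`; rank
     nullity (`LinearMap.finrank_range_add_finrank_ker`).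
`min_trans`: `x + z ≠ 0` (`x ≠ z`), so `v (x + z) + 1 ≤ v 0`; mass_subadd: `v (x + z) + 2 ≥ v 0`.  If
 `v (x + z) + 2 = v 0`: min_word for `x, y, z`, trans_config; `q ≥ 2` (`v (x + z) ≥ 0`).
 ward_bound for `U ⊓ (Kx ⊓ Kz)` with `b0 = 2`, `b = q - 2`, `m = q - 2`: dimension `≤ h (q - 2)`.
 `finrank U + finrank (Kx ⊓ Kz) ≤ c + h + finrank (U ⊓ (Kx ⊓ Kz))`, `c ≤ finrank Kx` (minw_dvd)
 `≤ finrank (Kx ⊓ Kz) + 2`: `finrank U ≤ h + 2 + h (q - 2) = (q - 1) h + 2`.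
-/
import Pool.Agent.GR72.RDMin
import Pool.Agent.GR72.RDMass
import Pool.Agent.GR72.WardBound

namespace Pool.Agent.GR72

open Module

variable {W : Type} [AddCommGroup W] [Module (ZMod 2) W] [Finite W]

private theorem zmod_ne_one' {a : ZMod 2} (h : a ≠ 1) : a = 0 := by
  rcases zmod_cases a with h1 | h1
  · exact h1
  · exact absurd h1 h

private theorem zmod_self (a : ZMod 2) : a + a = 0 := by
  revert a; decide

/-- Step (4): `w ∈ Kx` with `b3 w = b4 w = 0` lies in `Kz`. -/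
private theorem trans_mem {v : W → ℤ} {x y z : W} {Kx Ky Kz : Submodule (ZMod 2) W}
    (hx : MinW v x Kx) (hy : MinW v y Ky) (hz : MinW v z Kz)
    (h1 : ∀ φ : Dual (ZMod 2) W, φ x = 1 → φ z = 1 → ft v φ = 0)
    {b2 b3 b4 : Dual (ZMod 2) W} (b2x : b2 x = 1) (b2y : b2 y = 1) (b2n : ft v b2 ≠ 0)
    (b3y : b3 y = 1) (b3z : b3 z = 1) (b3n : ft v b3 ≠ 0)
    (b4z : b4 z = 1) (b4y : b4 y = 0) (b4n : ft v b4 ≠ 0)
    {w : W} (hw : w ∈ Kx) (hw3 : b3 w = 0) (hw4 : b4 w = 0) : w ∈ Kz := by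
  have b3x : b3 x = 0 := zmod_ne_one' fun h => b3n (h1 b3 h b3z)
  have b4x : b4 x = 0 := zmod_ne_one' fun h => b4n (h1 b4 h b4z)
  rw [minw_mem hz]
  intro ψ ψz ψn
  have ψx : ψ x = 0 := zmod_ne_one' fun h => ψn (h1 ψ h ψz)
  -- the last step: `θ` vanishing on `Ky` and at `x`, `y` vanishes on `Kx`
  have last : ∀ θ : Dual (ZMod 2) W, (∀ u ∈ Ky, θ u = 0) → θ x = 0 → θ y = 0 → θ w = 0 := by
    intro θ h2 h3 h4
    have h5 : (b2 + θ) y = 1 := by rw [LinearMap.add_apply, b2y, h4, add_zero]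
    have h6 : ft v (b2 + θ) ≠ 0 := by
      rw [minw_ne hy h5]
      intro u hu
      rw [LinearMap.add_apply, (minw_ne hy b2y).1 b2n u hu, h2 u hu, add_zero]
    have h7 : (b2 + θ) x = 1 := by rw [LinearMap.add_apply, b2x, h3, add_zero]
    have h8 := (minw_ne hx h7).1 h6 w hw
    have h9 := (minw_ne hx b2x).1 b2n w hw
    rwa [LinearMap.add_apply, h9, zero_add] at h8
  rcases zmod_cases (ψ y) with ψy | ψy
  · -- `θ = ψ + b4`
    have h2 : ∀ u ∈ Kz, (ψ + b4) u = 0 := by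
      intro u hu
      rw [LinearMap.add_apply, (minw_ne hz ψz).1 ψn u hu, (minw_ne hz b4z).1 b4n u hu, add_zero]
    have h3 : (ψ + b4) x = 0 := by rw [LinearMap.add_apply, ψx, b4x, add_zero]
    have h4 : (ψ + b4) y = 0 := by rw [LinearMap.add_apply, ψy, b4y, add_zero]
    have h5 : (ψ + b4) z = 0 := by rw [LinearMap.add_apply, ψz, b4z]; decide
    have h6 : (b3 + (ψ + b4)) z = 1 := by rw [LinearMap.add_apply, b3z, h5, add_zero]
    have h7 : ft v (b3 + (ψ + b4)) ≠ 0 := by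
      rw [minw_ne hz h6]
      intro u hu
      rw [LinearMap.add_apply, (minw_ne hz b3z).1 b3n u hu, h2 u hu, add_zero]
    have h8 : (b3 + (ψ + b4)) y = 1 := by rw [LinearMap.add_apply, b3y, h4, add_zero]
    have h9 : ∀ u ∈ Ky, (ψ + b4) u = 0 := by
      intro u hu
      have h10 := (minw_ne hy h8).1 h7 u hu
      rwa [LinearMap.add_apply, (minw_ne hy b3y).1 b3n u hu, zero_add] at h10
    have h11 := last (ψ + b4) h9 h3 h4
    rwa [LinearMap.add_apply, hw4, add_zero] at h11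
  · -- `θ = ψ + b3`
    have h2 : ∀ u ∈ Ky, (ψ + b3) u = 0 := by
      intro u hu
      rw [LinearMap.add_apply, (minw_ne hy ψy).1 ψn u hu, (minw_ne hy b3y).1 b3n u hu, add_zero]
    have h3 : (ψ + b3) x = 0 := by rw [LinearMap.add_apply, ψx, b3x, add_zero]
    have h4 : (ψ + b3) y = 0 := by rw [LinearMap.add_apply, ψy, b3y]; decide
    have h11 := last (ψ + b3) h2 h3 h4
    rwa [LinearMap.add_apply, hw3, add_zero] at h11

theorem trans_config {v : W → ℤ} (hv : Psd v) {x y z : W} {Kx Ky Kz : Submodule (ZMod 2) W}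
    (hx : MinW v x Kx) (hy : MinW v y Ky) (hz : MinW v z Kz)
    (vx : v x + 1 = v 0) (vy : v y + 1 = v 0) (vz : v z + 1 = v 0)
    (hxy : v (x + y) + 1 = v 0) (hyz : v (y + z) + 1 = v 0) (hxz : v (x + z) + 2 = v 0) :
    (∀ w ∈ Kx ⊓ Kz, v w = v (w + x + z) + 2) ∧
      finrank (ZMod 2) Kx ≤ finrank (ZMod 2) (Kx ⊓ Kz : Submodule (ZMod 2) W) + 2 := by
  have h1 : ∀ φ : Dual (ZMod 2) W, φ x = 1 → φ z = 1 → ft v φ = 0 := by
    intro φ h2 h3
    exact mass11_zero hv (x := x) (y := z) (by omega) h2 h3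
  constructor
  · rintro w ⟨hwx, hwz⟩
    have h2 : x ∈ Kz := by
      rw [minw_mem hz]
      intro φ h3 h4
      exact zmod_ne_one' fun h => h4 (h1 φ h h3)
    have h3 := minw_add hx hwx
    have h4 := minw_add hz (Kz.add_mem hwz h2)
    omega
  · obtain ⟨b2, b2x, b2y, b2n⟩ := mass11_pos hv (x := x) (y := y) (by omega)
    obtain ⟨b3, b3y, b3z, b3n⟩ := mass11_pos hv (x := y) (y := z) (by omega)
    obtain ⟨b4, b4z, b4y, b4n⟩ := mass10_pos hv (x := z) (y := y) (by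
      rw [add_comm z y]; omega)
    set f : Kx →ₗ[ZMod 2] (ZMod 2 × ZMod 2) :=
      ((b3.comp Kx.subtype).prod (b4.comp Kx.subtype)) with hf
    have h2 : (LinearMap.ker f).map Kx.subtype ≤ Kx ⊓ Kz := by
      rintro _ ⟨w, hw, rfl⟩
      have h3 : f w = 0 := hw
      have h4 : b3 (w : W) = 0 := congrArg Prod.fst h3
      have h5 : b4 (w : W) = 0 := congrArg Prod.snd h3
      exact ⟨w.2, trans_mem hx hy hz h1 b2x b2y b2n b3y b3z b3n b4z b4y b4n w.2 h4 h5⟩
    have h3 := Submodule.finrank_mono h2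
    have h4 : finrank (ZMod 2) ((LinearMap.ker f).map Kx.subtype) =
        finrank (ZMod 2) (LinearMap.ker f) :=
      LinearEquiv.finrank_eq (Submodule.equivMapOfInjective Kx.subtype
        (Submodule.injective_subtype _) _).symm
    have h5 := LinearMap.finrank_range_add_finrank_ker f
    have h6 : finrank (ZMod 2) (LinearMap.range f) ≤ 2 := by
      have h7 := Submodule.finrank_le (LinearMap.range f)
      have h8 : finrank (ZMod 2) (ZMod 2 × ZMod 2) = 2 := by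
        rw [Module.finrank_prod, Module.finrank_self]
      omega
    omega

theorem min_trans {v : W → ℤ} (hv : Psd v) (hnn : ∀ x, 0 ≤ v x) {q c h : ℕ} (h0 : v 0 = q)
    (hk : finrank (ZMod 2) W = c + h) (hh : 1 ≤ h)
    (hdiv : ∀ φ : Dual (ZMod 2) W, (2 : ℤ) ^ c ∣ ft v φ) {U : Submodule (ZMod 2) W}
    (hU : ∀ x ∈ U, x ≠ 0 → v x + 1 ≤ v 0) (hdim : (q - 1) * h + 2 < finrank (ZMod 2) U)
    {x y z : W} (xU : x ∈ U) (zU : z ∈ U)
    (vx : v x + 1 = v 0) (vy : v y + 1 = v 0) (vz : v z + 1 = v 0)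
    (hxy : v (x + y) + 1 = v 0) (hyz : v (y + z) + 1 = v 0) (hne : x ≠ z) :
    v (x + z) + 1 = v 0 := by
  have hne0 : x + z ≠ 0 := by
    intro h1
    apply hne
    have h4 : x + z + z = 0 + z := by rw [h1]
    rwa [add_assoc, add_self_eq, add_zero, zero_add] at h4
  have h1 := hU (x + z) (U.add_mem xU zU) hne0
  have h2 := mass_subadd hv x z
  by_contra h3
  have h4 : v (x + z) + 2 = v 0 := by omega
  obtain ⟨Kx, hKx⟩ := min_word hv vx
  obtain ⟨Ky, hKy⟩ := min_word hv vy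
  obtain ⟨Kz, hKz⟩ := min_word hv vz
  obtain ⟨h5, h6⟩ := trans_config hv hKx hKy hKz vx vy vz hxy hyz h4
  have hq : 2 ≤ q := by
    have := hnn (x + z)
    omega
  have h7 := ward_bound (v := v) (b := q - 2) (m := q - 2) (b0 := 2) hk hh hdiv (U ⊓ (Kx ⊓ Kz))
    (by omega) le_rfl (by
      rintro w ⟨hwU, hwK⟩ hw0
      have h8 := h5 w hwK
      have h9 := hnn (w + x + z)
      have h10 := hU w hwU hw0
      constructor <;> omega)
  rw [Nat.choose_self, padicValNat_one_right, add_zero] at h7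
  have h8 := Submodule.finrank_sup_add_finrank_inf_eq U (Kx ⊓ Kz)
  have h9 := Submodule.finrank_le (U ⊔ (Kx ⊓ Kz))
  have h10 := minw_dvd hv hKx hdiv
  have h11 : (q - 1) * h = h + h * (q - 2) := by
    obtain ⟨r, rfl⟩ : ∃ r, q = r + 2 := ⟨q - 2, by omega⟩
    have : r + 2 - 1 = r + 1 := by omega
    rw [this, Nat.add_sub_cancel]
    ring
  omega

end Pool.Agent.GR72
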