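/-
GR72/RDClique: large subspaces on which `v = v 0 - 1` (needs the stubs of RDTrans, RDMass,
WardBound).
`clique_card`: mass_sum: `v 0 - v (∑ A) = card A` and `v (∑ A) ≥ 0`.
`clique_sub`: `D = {y | y = 0 ∨ (y ∈ U ∧ v y + 1 = v 0 ∧ (y = x ∨ v (x + y) + 1 = v 0))}`.  Closed under
 addition: let `y, z ∈ D` be nonzero, `y ≠ z` (if `y = z` the sum is `0`).
 (i) `v (y + z) + 1 = v 0`: clear if `y = x` or `z = x`; otherwise min_trans for `y, x, z`.
 (ii) `y + z = x` or `v (x + (y + z)) + 1 = v 0`: if `y = x` then `x + (y + z) = z`; similarly `z = x`;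
 otherwise, if `y + z ≠ x`, min_trans for `y + z`, `y`, `x` (`(y + z) + y = z`).
`arith_q`: `2 ^ padicValNat 2 q ≤ q` (it divides `q`).  Small `q` by hand, `q ^ 2 ≤ 2 ^ q` for `q ≥ 4`.
`exists_clique`: suppose that every subspace `D ≤ U` with `v = v 0 - 1` outside `0` has dimension
 `≤ q`.  Let `T ≤ U` be of maximal dimension with `v x + 2 ≤ v 0` for `x ∈ T`, `x ≠ 0`.
 ward_bound (`b0 = 0`, `b = q`, `m = q - 1`): `finrank T ≤ h (q - 1) + v_2 (binom q (q-1))` and
 `binom q (q - 1) = q`.  For `u ∈ U`, `u ∉ T`: `T ⊔ span {u}` is larger, so some `t + u`, `t ∈ T`, has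
 `v (t + u) + 1 = v 0`.  Let `A ⊆ U` be a maximal finite set of points with `v a + 1 = v 0` and
 `v (a + b) + 2 = v 0` for different `a, b ∈ A`; `card A ≤ q` by clique_card.  By maximality, every
 `y ∈ U` with `v y + 1 = v 0` is in `A` or has `v (a + y) + 2 ≠ v 0` for some `a ∈ A`, so
 `v (a + y) + 1 = v 0` (mass_subadd gives `v (a + y) + 2 ≥ v 0`), and `y ∈ D_a` (clique_sub).
 So every `u ∈ U ∖ T` is `y + t` with `y ∈ D_a ∖ 0`, `a ∈ A`, `t ∈ T`:
 `|U| - |T| ≤ q (2^q - 1) |T|`.  As `finrank U - finrank T ≥ 2 q - v_2 (q)` this contradicts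
 arith_q.
-/
import Pool.Agent.GR72.RDTrans

namespace Pool.Agent.GR72

open Module

variable {W : Type} [AddCommGroup W] [Module (ZMod 2) W] [Finite W]

theorem clique_card {v : W → ℤ} (hv : Psd v) (hnn : ∀ x, 0 ≤ v x) {q : ℕ} (h0 : v 0 = q)
    (A : Finset W) (hA : ∀ a ∈ A, v a + 1 = v 0)
    (hA2 : ∀ a ∈ A, ∀ b ∈ A, a ≠ b → v (a + b) + 2 = v 0) : A.card ≤ q := by
  have h1 := mass_sum hv A (fun a ha b hb hab => by
    have e1 := hA a ha
    have e2 := hA b hb
    have e3 := hA2 a ha b hb hab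
    linarith)
  have h2 : ∑ a ∈ A, (v 0 - v a) = (A.card : ℤ) := by
    rw [Finset.sum_congr rfl (fun a ha => (by linarith [hA a ha] : v 0 - v a = 1))]
    simp
  have h3 := hnn (∑ a ∈ A, a)
  have h4 : (A.card : ℤ) ≤ q := by
    rw [← h0, ← h2, ← h1]
    linarith
  exact_mod_cast h4

theorem clique_sub {v : W → ℤ} (hv : Psd v) (hnn : ∀ x, 0 ≤ v x) {q c h : ℕ} (h0 : v 0 = q)
    (hk : finrank (ZMod 2) W = c + h) (hh : 1 ≤ h)
    (hdiv : ∀ φ : Dual (ZMod 2) W, (2 : ℤ) ^ c ∣ ft v φ) {U : Submodule (ZMod 2) W}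
    (hU : ∀ x ∈ U, x ≠ 0 → v x + 1 ≤ v 0) (hdim : (q - 1) * h + 2 < finrank (ZMod 2) U)
    {x : W} (xU : x ∈ U) (vx : v x + 1 = v 0) :
    ∃ D : Submodule (ZMod 2) W, D ≤ U ∧ x ∈ D ∧ (∀ y ∈ D, y ≠ 0 → v y + 1 = v 0) ∧
      ∀ y ∈ U, v y + 1 = v 0 → v (x + y) + 1 = v 0 → y ∈ D := by
  have hx0 : x ≠ 0 := by
    rintro rfl
    linarith
  let D : Submodule (ZMod 2) W :=
    { carrier := {y | y = 0 ∨ (y ∈ U ∧ v y + 1 = v 0 ∧ (y = x ∨ v (x + y) + 1 = v 0))}
      zero_mem' := Or.inl rfl
      smul_mem' := by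
        intro a y hy
        rcases zmod_cases a with ha | ha
        · left
          rw [ha, zero_smul]
        · rw [ha, one_smul]
          exact hy
      add_mem' := by
        intro y z hy hz
        rcases hy with hy | ⟨yU, vy, hy⟩
        · rw [hy, zero_add]; exact hz
        rcases hz with hz | ⟨zU, vz, hz⟩
        · rw [hz, add_zero]; exact Or.inr ⟨yU, vy, hy⟩
        by_cases hyz : y = z
        · left
          rw [hyz, add_self_eq]
        right
        have e1 : v (y + z) + 1 = v 0 := by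
          rcases hy with hy | hy
          · subst hy
            rcases hz with hz | hz
            · exact absurd hz.symm hyz
            · exact hz
          rcases hz with hz | hz
          · subst hz
            rw [add_comm y z]
            exact hy
          · exact min_trans hv hnn h0 hk hh hdiv hU hdim yU zU vy vx vz
              (by rw [add_comm y x]; exact hy) hz hyz
        refine ⟨U.add_mem yU zU, e1, ?_⟩
        rcases hy with hy | hy
        · right
          rw [hy, ← add_assoc, add_self_eq, zero_add]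
          exact vz
        rcases hz with hz | hz
        · right
          rw [hz, add_comm y x, ← add_assoc, add_self_eq, zero_add]
          exact vy
        by_cases hne : y + z = x
        · left; exact hne
        right
        have e2 := min_trans hv hnn h0 hk hh hdiv hU hdim (U.add_mem yU zU) xU e1 vy vx
          (by rw [add_comm y z, add_assoc, add_self_eq, add_zero]; exact vz)
          (by rw [add_comm y x]; exact hy) hne
        rw [add_comm x (y + z)]
        exact e2 }
  refine ⟨D, ?_, Or.inr ⟨xU, vx, Or.inl rfl⟩, ?_, ?_⟩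
  · intro y hy
    rcases hy with hy | hy
    · rw [hy]; exact U.zero_mem
    · exact hy.1
  · intro y hy hy0
    rcases hy with hy | hy
    · exact absurd hy hy0
    · exact hy.2.1
  · intro y yU vy hxy
    exact Or.inr ⟨yU, vy, Or.inr hxy⟩

theorem arith_q {q : ℕ} (hq : 2 ≤ q) : q * (2 ^ q - 1) + 1 < 2 ^ (2 * q - padicValNat 2 q) := by
  rcases Nat.lt_or_ge q 4 with h4 | h4
  · interval_cases q
    · have : padicValNat 2 2 = 1 := by simp
      rw [this]; norm_num
    · have : padicValNat 2 3 = 0 := padicValNat.eq_zero_of_not_dvd (by decide)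
      rw [this]; norm_num
  have hq0 : q ≠ 0 := by omega
  have hd : 2 ^ padicValNat 2 q ≤ q := Nat.le_of_dvd (by omega) pow_padicValNat_dvd
  have hlt : padicValNat 2 q < 2 ^ padicValNat 2 q := Nat.lt_two_pow_self
  have hle : padicValNat 2 q ≤ 2 * q := by omega
  have hmul : 2 ^ (2 * q - padicValNat 2 q) * 2 ^ padicValNat 2 q = 2 ^ (2 * q) := by
    rw [← pow_add]
    congr 1
    omega
  have hge : 2 ^ (2 * q) ≤ 2 ^ (2 * q - padicValNat 2 q) * q := by
    rw [← hmul]
    exact Nat.mul_le_mul_left _ hd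
  have hp : 2 ^ (2 * q) = 2 ^ q * 2 ^ q := by
    rw [two_mul, pow_add]
  have h5 : ∀ n : ℕ, 4 ≤ n → n * n ≤ 2 ^ n := by
    intro n hn
    induction n, hn using Nat.le_induction with
    | base => norm_num
    | succ n hn ih =>
      rw [pow_succ]
      nlinarith
  have hk : q * (q * (2 ^ q - 1) + 1) < 2 ^ (2 * q) := by
    rw [hp]
    have h1 : 1 ≤ 2 ^ q := Nat.one_le_two_pow
    have h5' := h5 q h4
    have h6 : q < 2 ^ q := Nat.lt_two_pow_self
    obtain ⟨a, ha⟩ := Nat.exists_eq_add_of_le h1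
    rw [ha] at h5' h6 ⊢
    rw [Nat.add_sub_cancel_left]
    nlinarith
  by_contra hcon
  push Not at hcon
  have h7 : 2 ^ (2 * q - padicValNat 2 q) * q ≤ (q * (2 ^ q - 1) + 1) * q :=
    Nat.mul_le_mul_right _ hcon
  have h8 := hge.trans h7
  rw [mul_comm (q * (2 ^ q - 1) + 1) q] at h8
  omega

theorem exists_clique {v : W → ℤ} (hv : Psd v) (hnn : ∀ x, 0 ≤ v x) {q c h : ℕ} (h0 : v 0 = q)
    (hk : finrank (ZMod 2) W = c + h) (hh : 1 ≤ h) (hq : 2 ≤ q)
    (hdiv : ∀ φ : Dual (ZMod 2) W, (2 : ℤ) ^ c ∣ ft v φ) {U : Submodule (ZMod 2) W}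
    (hU : ∀ x ∈ U, x ≠ 0 → v x + 1 ≤ v 0) (hdim : (q - 1) * h + 2 * q ≤ finrank (ZMod 2) U) :
    ∃ D : Submodule (ZMod 2) W, D ≤ U ∧ q + 1 ≤ finrank (ZMod 2) D ∧
      ∀ y ∈ D, y ≠ 0 → v y + 1 = v 0 := by
  classical
  have := Fintype.ofFinite W
  by_contra hcon
  push Not at hcon
  -- a maximal subspace T
  have hfinS : Finite (Submodule (ZMod 2) W) :=
    Finite.of_injective (fun P : Submodule (ZMod 2) W => (P : Set W)) SetLike.coe_injective
  obtain ⟨T, ⟨hTU, hT⟩, hTmax⟩ := Set.exists_max_image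
    {T : Submodule (ZMod 2) W | T ≤ U ∧ ∀ x ∈ T, x ≠ 0 → v x + 2 ≤ v 0}
    (fun T => finrank (ZMod 2) T) (Set.toFinite _)
    ⟨⊥, bot_le, fun x hx hx0 => absurd ((Submodule.mem_bot _).1 hx) hx0⟩
  have hTd : finrank (ZMod 2) T ≤ h * (q - 1) + padicValNat 2 q := by
    have h1 := ward_bound (v := v) (b := q) (m := q - 1) (b0 := 0) hk hh hdiv T
      (by rw [h0]; ring) (by omega) (fun x hx hx0 => ⟨hnn x, by
        have e1 := hT x hx hx0
        have e2 : ((q - 1 : ℕ) : ℤ) = (q : ℤ) - 1 := by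
          rw [Nat.cast_sub (by omega)]; simp
        rw [e2]
        linarith⟩)
    have h2 : q.choose (q - 1) = q := by
      obtain ⟨n, rfl⟩ : ∃ n, q = n + 1 := ⟨q - 1, by omega⟩
      rw [Nat.add_sub_cancel, Nat.choose_succ_self_right]
    rw [h2] at h1
    exact h1
  have hTu : ∀ u ∈ U, u ∉ T → ∃ t ∈ T, v (t + u) + 1 = v 0 := by
    intro u hu huT
    have hlt : T < T ⊔ Submodule.span (ZMod 2) {u} := by
      refine lt_of_le_of_ne le_sup_left ?_
      intro he
      apply huT
      rw [he]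
      exact (le_sup_right : _ ≤ T ⊔ Submodule.span (ZMod 2) {u}) (Submodule.mem_span_singleton_self u)
    have hle : T ⊔ Submodule.span (ZMod 2) {u} ≤ U :=
      sup_le hTU ((Submodule.span_singleton_le_iff_mem u U).2 hu)
    have hfr := Submodule.finrank_lt_finrank_of_lt hlt
    have hnot : ¬ ∀ x ∈ T ⊔ Submodule.span (ZMod 2) {u}, x ≠ 0 → v x + 2 ≤ v 0 := by
      intro hgood
      have := hTmax _ ⟨hle, hgood⟩
      omega
    push Not at hnot
    obtain ⟨x, hx, hx0, hvx⟩ := hnot
    have e1 := hU x (hle hx) hx0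
    have e2 : v x + 1 = v 0 := by omega
    rw [Submodule.mem_sup] at hx
    obtain ⟨t, ht, y, hy, rfl⟩ := hx
    rw [Submodule.mem_span_singleton] at hy
    obtain ⟨a, rfl⟩ := hy
    rcases zmod_cases a with ha | ha
    · rw [ha, zero_smul, add_zero] at e2 hx0
      have := hT t ht hx0
      omega
    · rw [ha, one_smul] at e2
      exact ⟨t, ht, e2⟩
  -- a maximal clique A
  obtain ⟨A, hAmem, hAmax⟩ := Finset.exists_max_image
    ((Finset.univ : Finset W).powerset.filter (fun A => (∀ a ∈ A, a ∈ U ∧ v a + 1 = v 0) ∧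
      ∀ a ∈ A, ∀ b ∈ A, a ≠ b → v (a + b) + 2 = v 0)) Finset.card
    ⟨∅, by simp⟩
  rw [Finset.mem_filter] at hAmem
  obtain ⟨-, hA1, hA2⟩ := hAmem
  have hAq : A.card ≤ q := clique_card hv hnn h0 A (fun a ha => (hA1 a ha).2) hA2
  have hAy : ∀ y ∈ U, v y + 1 = v 0 → y ∈ A ∨ ∃ a ∈ A, v (a + y) + 1 = v 0 := by
    intro y hy hvy
    by_contra hc
    push Not at hc
    obtain ⟨hyA, hya⟩ := hc
    have h1 : ∀ a ∈ A, v (a + y) + 2 = v 0 := by
      intro a ha
      have e1 := hya a ha
      have e2 := mass_subadd hv a y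
      have e3 := (hA1 a ha).2
      have e4 : a + y ≠ 0 := by
        intro h4
        apply hyA
        have : y = a := by
          have h5 : a + (a + y) = a + 0 := by rw [h4]
          rw [← add_assoc, add_self_eq, zero_add, add_zero] at h5
          exact h5
        rw [this]; exact ha
      have e5 := hU (a + y) (U.add_mem (hA1 a ha).1 hy) e4
      omega
    have h2 := hAmax (insert y A) (by
      rw [Finset.mem_filter]
      refine ⟨Finset.mem_powerset.2 (Finset.subset_univ _), ?_, ?_⟩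
      · intro a ha
        rw [Finset.mem_insert] at ha
        rcases ha with ha | ha
        · rw [ha]; exact ⟨hy, hvy⟩
        · exact hA1 a ha
      · intro a ha b hb hab
        rw [Finset.mem_insert] at ha hb
        rcases ha with ha | ha
        · rcases hb with hb | hb
          · exact absurd (ha.trans hb.symm) hab
          · rw [ha, add_comm y b]; exact h1 b hb
        · rcases hb with hb | hb
          · rw [hb]; exact h1 a ha
          · exact hA2 a ha b hb hab)
    rw [Finset.card_insert_of_notMem hyA] at h2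
    omega
  have hDex : ∀ a ∈ A, ∃ D : Submodule (ZMod 2) W, D ≤ U ∧ a ∈ D ∧ (∀ y ∈ D, y ≠ 0 → v y + 1 = v 0) ∧
      ∀ y ∈ U, v y + 1 = v 0 → v (a + y) + 1 = v 0 → y ∈ D := by
    intro a ha
    exact clique_sub hv hnn h0 hk hh hdiv hU (by omega) (hA1 a ha).1 (hA1 a ha).2
  choose! D hD using hDex
  have hDq : ∀ a ∈ A, finrank (ZMod 2) (D a) ≤ q := by
    intro a ha
    by_contra hc
    push Not at hc
    obtain ⟨y, hy, hy0, hvy⟩ := hcon (D a) (hD a ha).1 hc
    exact hvy ((hD a ha).2.2.1 y hy hy0)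
  -- counting
  have hcard : ∀ P : Submodule (ZMod 2) W,
      ((Finset.univ : Finset W).filter (· ∈ P)).card = 2 ^ finrank (ZMod 2) P := by
    intro P
    rw [← card_eq P, Nat.card_eq_fintype_card, Fintype.card_subtype]
  have hcov : (Finset.univ : Finset W).filter (· ∈ U) ⊆ (Finset.univ : Finset W).filter (· ∈ T) ∪
      A.biUnion (fun a => ((((Finset.univ : Finset W).filter (· ∈ D a)).erase 0) ×ˢ
        ((Finset.univ : Finset W).filter (· ∈ T))).image (fun p => p.1 + p.2)) := by
    intro u hu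
    rw [Finset.mem_filter] at hu
    rw [Finset.mem_union]
    by_cases huT : u ∈ T
    · left
      rw [Finset.mem_filter]
      exact ⟨Finset.mem_univ _, huT⟩
    · right
      obtain ⟨t, ht, hvt⟩ := hTu u hu.2 huT
      have hyU : t + u ∈ U := U.add_mem (hTU ht) hu.2
      have hy0 : t + u ≠ 0 := by
        intro h5
        rw [h5] at hvt
        omega
      have hya : ∃ a ∈ A, t + u ∈ D a := by
        rcases hAy _ hyU hvt with h5 | ⟨a, ha, h5⟩
        · exact ⟨_, h5, (hD _ h5).2.1⟩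
        · exact ⟨a, ha, (hD a ha).2.2.2 _ hyU hvt h5⟩
      obtain ⟨a, ha, hya⟩ := hya
      rw [Finset.mem_biUnion]
      refine ⟨a, ha, ?_⟩
      rw [Finset.mem_image]
      refine ⟨(t + u, t), ?_, ?_⟩
      · rw [Finset.mem_product, Finset.mem_erase, Finset.mem_filter, Finset.mem_filter]
        exact ⟨⟨hy0, Finset.mem_univ _, hya⟩, Finset.mem_univ _, ht⟩
      · show t + u + t = u
        rw [add_comm t u, add_assoc, add_self_eq, add_zero]
  have hc1 := Finset.card_le_card hcov
  have hc2 : (A.biUnion (fun a => ((((Finset.univ : Finset W).filter (· ∈ D a)).erase 0) ×ˢ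
        ((Finset.univ : Finset W).filter (· ∈ T))).image (fun p => p.1 + p.2))).card ≤
      A.card * ((2 ^ q - 1) * 2 ^ finrank (ZMod 2) T) := by
    apply Finset.card_biUnion_le_card_mul
    intro a ha
    refine Finset.card_image_le.trans ?_
    rw [Finset.card_product, hcard, Finset.card_erase_of_mem (by simp), hcard]
    apply Nat.mul_le_mul_right
    have : 2 ^ finrank (ZMod 2) (D a) ≤ 2 ^ q := Nat.pow_le_pow_right (by norm_num) (hDq a ha)
    omega
  have hc3 := hc1.trans (Finset.card_union_le _ _)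
  rw [hcard, hcard] at hc3
  have hc4 : 2 ^ finrank (ZMod 2) U ≤ (q * (2 ^ q - 1) + 1) * 2 ^ finrank (ZMod 2) T := by
    refine hc3.trans ?_
    have h5 : A.card * ((2 ^ q - 1) * 2 ^ finrank (ZMod 2) T) ≤
        q * ((2 ^ q - 1) * 2 ^ finrank (ZMod 2) T) := Nat.mul_le_mul_right _ hAq
    calc _ ≤ 2 ^ finrank (ZMod 2) T + q * ((2 ^ q - 1) * 2 ^ finrank (ZMod 2) T) := by omega
      _ = _ := by ring
  have hc5 := arith_q hq
  have hc6 : 2 ^ (2 * q - padicValNat 2 q) * 2 ^ finrank (ZMod 2) T ≤ 2 ^ finrank (ZMod 2) U := by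
    rw [← pow_add]
    apply Nat.pow_le_pow_right (by norm_num)
    have : padicValNat 2 q ≤ 2 * q := by
      have hd : 2 ^ padicValNat 2 q ≤ q := Nat.le_of_dvd (by omega) pow_padicValNat_dvd
      have hlt : padicValNat 2 q < 2 ^ padicValNat 2 q := Nat.lt_two_pow_self
      omega
    have h7 : (q - 1) * h = h * (q - 1) := mul_comm _ _
    omega
  have hpos : 0 < 2 ^ finrank (ZMod 2) T := by positivity
  have := hc6.trans hc4
  have := Nat.le_of_mul_le_mul_right this hpos
  omega

end Pool.Agent.GR72
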