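/-
GR72/RDConst: on a large clique `D` the attached subspaces coincide (needs the stubs of RDMin,
RDMass, RDBase).
Here `v y + 1 = v 0` for all nonzero `y ∈ D`; so `v (x + y) + 1 = v 0` for different nonzero `x, y ∈ D`.
`Kx` is the subspace attached to `x` (min_word).
 (a) `finrank Kx = finrank Ky`: mass11_pos gives `φ` with `φ x = φ y = 1`, `ft v φ ≠ 0`; by `MinW.ft`
     `ft v φ = 2^finrank Kx = 2^finrank Ky`.
 (b) If `φ` vanishes on `Kx`, `φ x = 0`, `φ y = 1`, `ft v φ ≠ 0` then `Ky ≤ Kx`, so `Ky = Kx`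
     (`Submodule.eq_of_le_of_finrank_eq`).  Let `w ∈ Ky`; by minw_mem for `x` let `ψ x = 1`,
     `ft v ψ ≠ 0`.  If `ψ y = 1` then `ψ` vanishes on `Ky`.  If `ψ y = 0`: `ψ + φ` vanishes on `Kx` and
     is `1` at `x`, so `ft v (ψ + φ) ≠ 0`, it is `1` at `y`, so it vanishes on `Ky`; `φ` vanishes on `Ky`
     too; so `ψ w = 0`.
 (c) If `Kx = Ky = K` and `x ≠ y` then `K_(x+y) = K`: `K ≤ K_(x+y)` by minw_mem: `ψ (x + y) = 1`,
     `ft v ψ ≠ 0` imply `ψ x = 1` or `ψ y = 1`, so `ψ` vanishes on `K`.  Dimensions by (a).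
 (d) Fix a nonzero `x0 ∈ D`, `K = K_(x0)`.  Suppose that `K_(y1) ≠ K` for some nonzero `y1 ∈ D`.  Then
     every `φ` vanishing on `K` with `φ x0 = 0`, `ft v φ ≠ 0` vanishes on `D`: if `φ y' = 1`, `y' ∈ D`,
     then `K_(y') = K` by (b); `φ y1 = 0` by (b); `K_(y'+y1) ≠ K` by (c) (`y1 = (y' + y1) + y'`), so
     `φ (y' + y1) = 0` by (b), contradiction.
 (e) `G = K ⊔ span {x0}`, `S = K ⊔ D`.  By (d) the two sums in sum_annih for `G` and `S` are equal, so
     `2^finrank S * tot_G = 2^finrank G * tot_S` where `tot_S = ∑ᶠ x, ind S x * v x`.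
     `K ⊓ D = ⊥`: a nonzero `y` in it is `≠ x0`, `v y = v (y + x0) + 1` by minw_add, but both are
     `v 0 - 1`.  So `finrank S = finrank K + finrank D`, `finrank G = finrank K + 1`.
     `v ≥ 1` on `K` (minw_add), so `tot_G ≥ 2^finrank K`; `tot_S ≤ tot v < 2^(c + q)`.
     So `2^(finrank K + finrank D - 1) < 2^(c + q)`, and `finrank K ≥ c` (minw_dvd):
     `finrank D - 1 < q`.  Contradiction.
-/
import Pool.Agent.GR72.RDMin
import Pool.Agent.GR72.RDMass

namespace Pool.Agent.GR72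

open Module

variable {W : Type} [AddCommGroup W] [Module (ZMod 2) W] [Finite W]

theorem clique_disj {v : W → ℤ} {D : Submodule (ZMod 2) W} (hD : ∀ y ∈ D, y ≠ 0 → v y + 1 = v 0)
    {x : W} (xD : x ∈ D) (hx0 : x ≠ 0) {K : Submodule (ZMod 2) W} (hx : MinW v x K)
    {y : W} (yD : y ∈ D) (yK : y ∈ K) : y = 0 := by
  by_contra hy
  have h1 := minw_add hx yK
  have h2 : y + x ≠ 0 := by
    intro h
    have h3 : y = x := by
      have h4 : y + x + x = 0 + x := by rw [h]
      rwa [add_assoc, add_self_eq, add_zero, zero_add] at h4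
    rw [h3] at yK
    exact hx.notmem yK
  have h3 := hD _ (D.add_mem yD xD) h2
  have h4 := hD _ yD hy
  omega

private theorem zmod_ne_zero {a : ZMod 2} (h : a ≠ 0) : a = 1 := by
  rcases zmod_cases a with h1 | h1
  · exact absurd h1 h
  · exact h1

private theorem minw_rank {v : W → ℤ} {x y : W} {K L : Submodule (ZMod 2) W} (hx : MinW v x K)
    (hy : MinW v y L) {φ : Dual (ZMod 2) W} (h1 : φ x = 1) (h2 : φ y = 1) (h3 : ft v φ ≠ 0) :
    finrank (ZMod 2) K = finrank (ZMod 2) L := by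
  have h4 := hx.ft φ h1
  have h5 := hy.ft φ h2
  rw [if_pos ((minw_ne hx h1).1 h3)] at h4
  rw [if_pos ((minw_ne hy h2).1 h3)] at h5
  rw [h4] at h5
  have h6 : (2 : ℕ) ^ finrank (ZMod 2) K = 2 ^ finrank (ZMod 2) L := by exact_mod_cast h5
  exact Nat.pow_right_injective (le_refl 2) h6

private theorem minw_le {v : W → ℤ} {x y : W} {K L : Submodule (ZMod 2) W} (hx : MinW v x K)
    (hy : MinW v y L) {φ : Dual (ZMod 2) W} (h0 : ∀ w ∈ K, φ w = 0) (h1 : φ x = 0)
    (h2 : φ y = 1) (h3 : ft v φ ≠ 0) : L ≤ K := by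
  intro w hw
  rw [minw_mem hx]
  intro ψ h4 h5
  rcases zmod_cases (ψ y) with h6 | h6
  · have h7 : (ψ + φ) x = 1 := by rw [LinearMap.add_apply, h4, h1, add_zero]
    have h8 : ft v (ψ + φ) ≠ 0 := by
      rw [minw_ne hx h7]
      intro z hz
      rw [LinearMap.add_apply, (minw_ne hx h4).1 h5 z hz, h0 z hz, add_zero]
    have h9 : (ψ + φ) y = 1 := by rw [LinearMap.add_apply, h6, h2, zero_add]
    have h10 := (minw_ne hy h9).1 h8 w hw
    have h11 := (minw_ne hy h2).1 h3 w hw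
    rwa [LinearMap.add_apply, h11, add_zero] at h10
  · exact (minw_ne hy h6).1 h5 w hw

private theorem minw_le_add {v : W → ℤ} {x y : W} {K L : Submodule (ZMod 2) W} (hx : MinW v x K)
    (hy : MinW v y K) (hxy : MinW v (x + y) L) : K ≤ L := by
  intro w hw
  rw [minw_mem hxy]
  intro ψ h4 h5
  rcases zmod_cases (ψ x) with h6 | h6
  · have h7 : ψ y = 1 := by
      rw [map_add, h6, zero_add] at h4
      exact h4
    exact (minw_ne hy h7).1 h5 w hw
  · exact (minw_ne hx h6).1 h5 w hw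

private theorem add_ne_zero_of_ne {x y : W} (h : x ≠ y) : x + y ≠ 0 := by
  intro h1
  apply h
  have h4 : x + y + y = 0 + y := by rw [h1]
  rwa [add_assoc, add_self_eq, add_zero, zero_add] at h4

theorem clique_const {v : W → ℤ} (hv : Psd v) (hnn : ∀ x, 0 ≤ v x) {q c : ℕ}
    (hdiv : ∀ φ : Dual (ZMod 2) W, (2 : ℤ) ^ c ∣ ft v φ) (htot : tot v < 2 ^ (c + q))
    {D : Submodule (ZMod 2) W} (hD : ∀ y ∈ D, y ≠ 0 → v y + 1 = v 0)
    (hd : q + 1 ≤ finrank (ZMod 2) D) :
    ∃ K : Submodule (ZMod 2) W, ∀ x ∈ D, x ≠ 0 → MinW v x K := by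
  classical
  have hK0 : ∀ x ∈ D, x ≠ 0 → ∃ K : Submodule (ZMod 2) W, MinW v x K := fun x hx h0 =>
    min_word hv (hD x hx h0)
  -- (a)
  have ha : ∀ x ∈ D, ∀ y ∈ D, x ≠ 0 → y ≠ 0 → x ≠ y → ∀ K L : Submodule (ZMod 2) W,
      MinW v x K → MinW v y L → finrank (ZMod 2) K = finrank (ZMod 2) L := by
    intro x hx y hy hx0 hy0 hxy K L hK hL
    have h1 := hD x hx hx0
    have h2 := hD y hy hy0
    have h3 := hD (x + y) (D.add_mem hx hy) (add_ne_zero_of_ne hxy)
    obtain ⟨φ, h4, h5, h6⟩ := mass11_pos hv (x := x) (y := y) (by omega)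
    exact minw_rank hK hL h4 h5 h6
  -- (b)
  have hb : ∀ x ∈ D, ∀ y ∈ D, x ≠ 0 → y ≠ 0 → ∀ K L : Submodule (ZMod 2) W,
      MinW v x K → MinW v y L → ∀ φ : Dual (ZMod 2) W, (∀ w ∈ K, φ w = 0) → φ x = 0 → φ y = 1 →
      ft v φ ≠ 0 → L = K := by
    intro x hx y hy hx0 hy0 K L hK hL φ h0 h1 h2 h3
    have hne : x ≠ y := by
      rintro rfl
      rw [h1] at h2
      exact absurd h2 (by decide)
    exact Submodule.eq_of_le_of_finrank_eq (minw_le hK hL h0 h1 h2 h3)
      (ha x hx y hy hx0 hy0 hne K L hK hL).symm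
  -- (c)
  have hc : ∀ x ∈ D, ∀ y ∈ D, x ≠ 0 → y ≠ 0 → x ≠ y → ∀ K : Submodule (ZMod 2) W,
      MinW v x K → MinW v y K → MinW v (x + y) K := by
    intro x hx y hy hx0 hy0 hxy K hK hL
    obtain ⟨L, hM⟩ := hK0 (x + y) (D.add_mem hx hy) (add_ne_zero_of_ne hxy)
    have h1 : K ≤ L := minw_le_add hK hL hM
    have h2 : x ≠ x + y := by
      intro h
      apply hy0
      have h3 : x + (x + y) = x + x := by rw [← h]
      rwa [← add_assoc, add_self_eq, zero_add] at h3
    have h3 : finrank (ZMod 2) K = finrank (ZMod 2) L :=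
      ha x hx (x + y) (D.add_mem hx hy) hx0 (add_ne_zero_of_ne hxy) h2 K L hK hM
    have h4 : K = L := Submodule.eq_of_le_of_finrank_eq h1 h3
    rw [h4]
    exact hM
  -- the base point
  have hD0 : ∃ x0 ∈ D, x0 ≠ 0 := by
    by_contra h
    push Not at h
    have h1 : D = ⊥ := by
      rw [Submodule.eq_bot_iff]
      exact h
    rw [h1, finrank_bot] at hd
    omega
  obtain ⟨x0, hx0, hx00⟩ := hD0
  obtain ⟨K, hK⟩ := hK0 x0 hx0 hx00
  refine ⟨K, ?_⟩
  by_contra hcon
  push Not at hcon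
  obtain ⟨y1, hy1, hy10, hy1K⟩ := hcon
  -- (d)
  have hd' : ∀ φ : Dual (ZMod 2) W, (∀ w ∈ K, φ w = 0) → φ x0 = 0 → ft v φ ≠ 0 →
      ∀ y ∈ D, φ y = 0 := by
    intro φ h0 h1 h2 y' hy'
    by_contra h3
    have h3 := zmod_ne_zero h3
    have hB : ∀ z ∈ D, z ≠ 0 → φ z = 1 → MinW v z K := by
      intro z hz hz0 hz1
      obtain ⟨L, hL⟩ := hK0 z hz hz0
      have h4 := hb x0 hx0 z hz hx00 hz0 K L hK hL φ h0 h1 hz1 h2
      rw [← h4]
      exact hL
    have hy'0 : y' ≠ 0 := by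
      rintro rfl
      rw [map_zero] at h3
      exact absurd h3 (by decide)
    have h4 := hB y' hy' hy'0 h3
    have h5 : φ y1 = 0 := by
      by_contra h5
      exact hy1K (hB y1 hy1 hy10 (zmod_ne_zero h5))
    have h6 : y' ≠ y1 := by
      rintro rfl
      rw [h5] at h3
      exact absurd h3 (by decide)
    have h7 : φ (y' + y1) = 1 := by rw [map_add, h3, h5, add_zero]
    have h8 := hB (y' + y1) (D.add_mem hy' hy1) (add_ne_zero_of_ne h6) h7
    have h9 : y' + y1 ≠ y' := by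
      intro h
      apply hy10
      have h10 : y' + (y' + y1) = y' + y' := by rw [h]
      rwa [← add_assoc, add_self_eq, zero_add] at h10
    have h11 := hc (y' + y1) (D.add_mem hy' hy1) y' hy' (add_ne_zero_of_ne h6) hy'0 h9 K h8 h4
    apply hy1K
    have h12 : y' + y1 + y' = y1 := by
      rw [add_comm y' y1, add_assoc, add_self_eq, add_zero]
    rwa [h12] at h11
  -- (e)
  set G : Submodule (ZMod 2) W := K ⊔ Submodule.span (ZMod 2) {x0} with hG
  set S : Submodule (ZMod 2) W := K ⊔ D with hS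
  have e1 := sum_annih v G
  have e2 := sum_annih v S
  have e3 : (∑ᶠ φ : Dual (ZMod 2) W, (if ∀ y ∈ G, φ y = 0 then ft v φ else 0)) =
      ∑ᶠ φ : Dual (ZMod 2) W, (if ∀ y ∈ S, φ y = 0 then ft v φ else 0) := by
    apply finsum_congr
    intro φ
    by_cases hz : ft v φ = 0
    · simp [hz]
    · have h1 : (∀ y ∈ G, φ y = 0) ↔ ∀ y ∈ S, φ y = 0 := by
        constructor
        · intro h y hy
          have h2 : ∀ w ∈ K, φ w = 0 := fun w hw => h w (Submodule.mem_sup_left hw)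
          have h3 : φ x0 = 0 :=
            h x0 (Submodule.mem_sup_right (Submodule.mem_span_singleton_self x0))
          have h4 := hd' φ h2 h3 hz
          obtain ⟨a, ha', b, hb', rfl⟩ := Submodule.mem_sup.1 hy
          rw [map_add, h2 a ha', h4 b hb', add_zero]
        · intro h y hy
          apply h
          refine (sup_le_sup_left ?_ K : G ≤ S) hy
          rw [Submodule.span_singleton_le_iff_mem]
          exact hx0
      simp only [h1]
  rw [e3] at e1
  have hnnf : ∀ (T : Submodule (ZMod 2) W) (x : W), 0 ≤ ind T x ∧ ind T x ≤ 1 := by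
    intro T x
    unfold ind
    split_ifs <;> simp
  -- total over `G`
  have e4 : (2 : ℤ) ^ finrank (ZMod 2) K ≤ ∑ᶠ x, ind G x * v x := by
    rw [← tot_ind K]
    have := Fintype.ofFinite W
    rw [tot_eq_sum, finsum_eq_sum_of_fintype]
    apply Finset.sum_le_sum
    intro x _
    by_cases hx : x ∈ K
    · have h1 : x ∈ G := Submodule.mem_sup_left hx
      have h2 := minw_add hK hx
      have h3 := hnn (x + x0)
      have h4 : ind K x = 1 := by simp [ind, hx]
      have h5 : ind G x = 1 := by simp [ind, h1]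
      rw [h4, h5]
      omega
    · have h4 : ind K x = 0 := by simp [ind, hx]
      rw [h4]
      exact mul_nonneg (hnnf G x).1 (hnn x)
  have e5 : ∑ᶠ x, ind S x * v x ≤ tot v := by
    have := Fintype.ofFinite W
    rw [tot_eq_sum, finsum_eq_sum_of_fintype]
    apply Finset.sum_le_sum
    intro x _
    have h1 := hnnf S x
    nlinarith [hnn x]
  -- dimensions
  have e6 : finrank (ZMod 2) S = finrank (ZMod 2) K + finrank (ZMod 2) D := by
    have h1 := Submodule.finrank_sup_add_finrank_inf_eq K D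
    have h2 : K ⊓ D = ⊥ := by
      rw [Submodule.eq_bot_iff]
      rintro y ⟨hyK, hyD⟩
      exact clique_disj hD hx0 hx00 hK hyD hyK
    rw [h2, finrank_bot, add_zero] at h1
    exact h1
  have e7 : finrank (ZMod 2) G ≤ finrank (ZMod 2) K + 1 := by
    have h1 := Submodule.finrank_sup_add_finrank_inf_eq K (Submodule.span (ZMod 2) {x0})
    have h2 : finrank (ZMod 2) (Submodule.span (ZMod 2) {x0}) = 1 := finrank_span_singleton hx00
    rw [h2] at h1
    change finrank (ZMod 2) G + _ = _ at h1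
    omega
  have e8 : c ≤ finrank (ZMod 2) K := minw_dvd hv hK hdiv
  set tG := ∑ᶠ x, ind G x * v x with htG
  set tS := ∑ᶠ x, ind S x * v x with htS
  set T := ∑ᶠ φ : Dual (ZMod 2) W, (if ∀ y ∈ S, φ y = 0 then ft v φ else 0) with hT
  have e9 : (2 : ℤ) ^ finrank (ZMod 2) S * tG = 2 ^ finrank (ZMod 2) G * tS := by
    have h1 : (2 : ℤ) ^ finrank (ZMod 2) W * (2 ^ finrank (ZMod 2) S * tG) =
        2 ^ finrank (ZMod 2) W * (2 ^ finrank (ZMod 2) G * tS) := by
      calc (2 : ℤ) ^ finrank (ZMod 2) W * (2 ^ finrank (ZMod 2) S * tG)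
          = 2 ^ finrank (ZMod 2) S * (2 ^ finrank (ZMod 2) W * tG) := by ring
        _ = 2 ^ finrank (ZMod 2) S * (2 ^ finrank (ZMod 2) G * T) := by rw [e1]
        _ = 2 ^ finrank (ZMod 2) G * (2 ^ finrank (ZMod 2) S * T) := by ring
        _ = 2 ^ finrank (ZMod 2) G * (2 ^ finrank (ZMod 2) W * tS) := by rw [e2]
        _ = 2 ^ finrank (ZMod 2) W * (2 ^ finrank (ZMod 2) G * tS) := by ring
    exact mul_left_cancel₀ (by positivity) h1
  have e10 : (2 : ℤ) ^ (finrank (ZMod 2) S + finrank (ZMod 2) K) <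
      2 ^ (finrank (ZMod 2) K + 1 + (c + q)) := by
    calc (2 : ℤ) ^ (finrank (ZMod 2) S + finrank (ZMod 2) K)
        = 2 ^ finrank (ZMod 2) S * 2 ^ finrank (ZMod 2) K := by rw [pow_add]
      _ ≤ 2 ^ finrank (ZMod 2) S * tG := mul_le_mul_of_nonneg_left e4 (by positivity)
      _ = 2 ^ finrank (ZMod 2) G * tS := e9
      _ ≤ 2 ^ finrank (ZMod 2) G * tot v := mul_le_mul_of_nonneg_left e5 (by positivity)
      _ < 2 ^ finrank (ZMod 2) G * 2 ^ (c + q) := mul_lt_mul_of_pos_left htot (by positivity)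
      _ ≤ 2 ^ (finrank (ZMod 2) K + 1) * 2 ^ (c + q) := by
          apply mul_le_mul_of_nonneg_right _ (by positivity)
          exact pow_le_pow_right₀ (by norm_num) e7
      _ = 2 ^ (finrank (ZMod 2) K + 1 + (c + q)) := by rw [← pow_add]
  have e11 : finrank (ZMod 2) S + finrank (ZMod 2) K < finrank (ZMod 2) K + 1 + (c + q) :=
    (pow_lt_pow_iff_right₀ (by norm_num : (1 : ℤ) < 2)).1 e10
  omega

end Pool.Agent.GR72
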