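/-
GR72/RDPsd: the indicator of the common subspace can be subtracted (needs the stubs of RDBase,
RDMin, RDConst; L1, Digits).
`ds_ge_top`: `t = 2^(N-d) * (2^d - 1) + r` with `r < 2^(N-d)`; ds_two_pow_mul_add,
 ds_two_pow_sub_one.
`clique_psd`: `ft (v - ind K) φ = ft v φ - ft (ind K) φ`.  If `φ` does not vanish on `K` it is
 `ft v φ ≥ 0` (ft_ind).  Let `φ` vanish on `K`; `N = finrank K`; claim `2^N ≤ ft v φ`.  If `φ x = 1` for
 some `x ∈ D` then `ft v φ = 2^N` (`MinW.ft`).  So let `φ` vanish on `D`.  `Disjoint K D` (clique_disj),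
 `Disjoint.exists_isCompl`: `E ≥ K` with `IsCompl E D`.  Put `t = ∑ᶠ x, ind E x * (sg (φ x) * v x)`.
 sum_annih for the function `sg φ * v` and `E`, with ft_char:
 `2^k t = 2^(finrank E) ∑_{ψ vanishing on E} ft v (φ + ψ)`.  For `ψ = 0` the term is `ft v φ`; for
 `ψ ≠ 0` there is `x ∈ D` with `ψ x = 1` (`E ⊔ D = ⊤`), `φ + ψ` vanishes on `K` and is `1` at `x`, so the
 term is `2^N`.  The number of `ψ` vanishing on `E` is `2^d`, `d = finrank D` (sum_annih for `dl 0`
 and `E`).  So `2^d t = ft v φ + (2^d - 1) 2^N`.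
 The function `ind E * (sg φ * v)` is psd (psd_mul, psd_ind, psd_char) with value `v 0 = q` at `0` and
 total `t`, so `t ≥ 0` and `ds t ≤ q` (ds_le).  If `ft v φ < 2^N` then `t < 2^N` and
 `2^d (2^N - t) ≤ 2^N`, so `d ≤ N`, `2^N - 2^(N-d) ≤ t`, `d ≤ ds t ≤ q` by ds_ge_top, contradiction.
-/
import Pool.Agent.GR72.RDConst
import Pool.Agent.GR72.L1
import Pool.Agent.GR72.Digits

namespace Pool.Agent.GR72

open Module

variable {W : Type} [AddCommGroup W] [Module (ZMod 2) W] [Finite W]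

theorem ds_ge_top {N d t : ℕ} (hd : d ≤ N) (h1 : 2 ^ N ≤ t + 2 ^ (N - d)) (h2 : t < 2 ^ N) :
    d ≤ ds t := by
  have e1 : 2 ^ N = 2 ^ (N - d) * 2 ^ d := by
    rw [← pow_add]
    congr 1
    omega
  have e2 : 1 ≤ 2 ^ d := Nat.one_le_two_pow
  have e3 : 2 ^ (N - d) * (2 ^ d - 1) + 2 ^ (N - d) = 2 ^ N := by
    rw [e1, ← Nat.mul_succ]
    congr 1
    omega
  have e4 : 2 ^ (N - d) * (2 ^ d - 1) ≤ t := by omega
  obtain ⟨r, hr⟩ := Nat.exists_eq_add_of_le e4
  have e5 : r < 2 ^ (N - d) := by omega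
  rw [hr, ds_two_pow_mul_add _ _ _ e5, ds_two_pow_sub_one]
  exact Nat.le_add_right _ _

open Classical in
/-- The number of functionals vanishing on `E`. -/
theorem card_annih (E : Submodule (ZMod 2) W) :
    (2 : ℤ) ^ finrank (ZMod 2) W = 2 ^ finrank (ZMod 2) E *
      ∑ᶠ ψ : Dual (ZMod 2) W, (if ∀ y ∈ E, ψ y = 0 then (1 : ℤ) else 0) := by
  have h := sum_annih (dl (0 : W)) E
  have := Fintype.ofFinite W
  have h1 : ∑ᶠ x : W, ind E x * dl (0 : W) x = 1 := by
    rw [finsum_eq_sum_of_fintype]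
    have h2 : ∀ x : W, ind E x * dl (0 : W) x = if x = 0 then 1 else 0 := by
      intro x
      by_cases hx : x = 0
      · subst hx
        simp [ind, dl]
      · simp [dl, hx]
    simp [h2]
  rw [h1, mul_one] at h
  rw [h]
  congr 1
  apply finsum_congr
  intro ψ
  rw [ft_dl, map_zero, sg_zero]

theorem clique_psd {v : W → ℤ} (hv : Psd v) {q : ℕ} (h0 : v 0 = q)
    {D : Submodule (ZMod 2) W} (hD : ∀ y ∈ D, y ≠ 0 → v y + 1 = v 0)
    (hd : q + 1 ≤ finrank (ZMod 2) D) {K : Submodule (ZMod 2) W}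
    (hK : ∀ x ∈ D, x ≠ 0 → MinW v x K) : Psd (fun x => v x - ind K x) := by
  classical
  intro φ
  rw [ft_sub, ft_ind]
  by_cases hφK : ∀ x ∈ K, φ x = 0
  swap
  · rw [if_neg hφK, sub_zero]
    exact hv φ
  rw [if_pos hφK]
  set N := finrank (ZMod 2) K with hN
  by_cases hφD : ∀ x ∈ D, φ x = 0
  swap
  · push Not at hφD
    obtain ⟨x, hx, hx1⟩ := hφD
    have hx1' : φ x = 1 := by
      rcases zmod_cases (φ x) with h | h
      · exact absurd h hx1
      · exact h
    have hx0 : x ≠ 0 := by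
      rintro rfl
      rw [map_zero] at hx1'
      exact absurd hx1' (by decide)
    rw [(hK x hx hx0).ft φ hx1', if_pos hφK, sub_self]
  -- a complement of `D` which contains `K`
  have hdisj : Disjoint K D := by
    rw [Submodule.disjoint_def]
    intro y hyK hyD
    by_contra hy
    exact (hK y hyD hy).notmem hyK
  obtain ⟨E, hKE, hE⟩ := hdisj.exists_isCompl
  have hdim : finrank (ZMod 2) E + finrank (ZMod 2) D = finrank (ZMod 2) W :=
    Submodule.finrank_add_eq_of_isCompl hE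
  set d := finrank (ZMod 2) D with hdd
  set u : W → ℤ := fun x => ind E x * (sg (φ x) * v x) with hu
  have hupsd : Psd u := psd_mul (psd_ind E) (psd_char hv φ)
  have hu0 : u 0 = q := by
    simp [hu, ind, sg_zero, h0]
  have hfin := Fintype.ofFinite (Dual (ZMod 2) W)
  -- the values of the transform
  have hterm : ∀ ψ : Dual (ZMod 2) W,
      (if ∀ y ∈ E, ψ y = 0 then ft (fun x => sg (φ x) * v x) ψ else 0) =
        2 ^ N * (if ∀ y ∈ E, ψ y = 0 then (1 : ℤ) else 0) +
          (if ψ = 0 then ft v φ - 2 ^ N else 0) := by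
    intro ψ
    by_cases hψ0 : ψ = 0
    · subst hψ0
      have hz : ∀ y ∈ E, (0 : Dual (ZMod 2) W) y = 0 := fun y _ => rfl
      rw [if_pos hz, if_pos hz, if_pos rfl, ft_char, add_zero]
      ring
    · rw [if_neg hψ0, add_zero]
      by_cases hψ : ∀ y ∈ E, ψ y = 0
      · rw [if_pos hψ, if_pos hψ, mul_one, ft_char]
        have hex : ∃ x ∈ D, ψ x ≠ 0 := by
          by_contra hcon
          push Not at hcon
          apply hψ0
          ext x
          have hx : x ∈ E ⊔ D := by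
            rw [hE.sup_eq_top]
            exact Submodule.mem_top
          obtain ⟨a, ha, b, hb, rfl⟩ := Submodule.mem_sup.1 hx
          rw [map_add, hψ a ha, hcon b hb]
          simp
        obtain ⟨x, hx, hx1⟩ := hex
        have hx1' : ψ x = 1 := by
          rcases zmod_cases (ψ x) with h | h
          · exact absurd h hx1
          · exact h
        have hx0 : x ≠ 0 := by
          rintro rfl
          rw [map_zero] at hx1'
          exact absurd hx1' (by decide)
        have h1 : (φ + ψ) x = 1 := by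
          rw [LinearMap.add_apply, hφD x hx, hx1', zero_add]
        rw [(hK x hx hx0).ft _ h1, if_pos]
        intro y hy
        rw [LinearMap.add_apply, hφK y hy, hψ y (hKE hy), add_zero]
      · rw [if_neg hψ, if_neg hψ, mul_zero]
  have hsum := sum_annih (fun x => sg (φ x) * v x) E
  rw [finsum_congr hterm] at hsum
  have hc := card_annih E
  rw [finsum_eq_sum_of_fintype] at hc
  have hsplit : (∑ᶠ ψ : Dual (ZMod 2) W, (2 ^ N * (if ∀ y ∈ E, ψ y = 0 then (1 : ℤ) else 0) +
          (if ψ = 0 then ft v φ - 2 ^ N else 0))) =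
      2 ^ N * ∑ ψ : Dual (ZMod 2) W, (if ∀ y ∈ E, ψ y = 0 then (1 : ℤ) else 0) +
        (ft v φ - 2 ^ N) := by
    rw [finsum_eq_sum_of_fintype, Finset.sum_add_distrib, ← Finset.mul_sum]
    simp
  rw [hsplit] at hsum
  set C := ∑ ψ : Dual (ZMod 2) W, (if ∀ y ∈ E, ψ y = 0 then (1 : ℤ) else 0) with hC
  set t : ℤ := ∑ᶠ x, ind E x * (sg (φ x) * v x) with ht
  have httot : tot u = t := rfl
  -- the main equality
  have hmain : (2 : ℤ) ^ d * t = 2 ^ d * 2 ^ N + (ft v φ - 2 ^ N) := by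
    have e1 : (2 : ℤ) ^ finrank (ZMod 2) W =
        2 ^ finrank (ZMod 2) E * 2 ^ d := by
      rw [← pow_add, hdim]
    have e2 : (2 : ℤ) ^ finrank (ZMod 2) E * (2 ^ d * t) =
        2 ^ finrank (ZMod 2) E * (2 ^ d * 2 ^ N + (ft v φ - 2 ^ N)) := by
      calc (2 : ℤ) ^ finrank (ZMod 2) E * (2 ^ d * t) = 2 ^ finrank (ZMod 2) W * t := by
            rw [e1]; ring
        _ = 2 ^ finrank (ZMod 2) E * (2 ^ N * C + (ft v φ - 2 ^ N)) := hsum
        _ = 2 ^ N * (2 ^ finrank (ZMod 2) E * C) + 2 ^ finrank (ZMod 2) E * (ft v φ - 2 ^ N) := by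
            ring
        _ = 2 ^ N * (2 ^ finrank (ZMod 2) E * 2 ^ d) +
            2 ^ finrank (ZMod 2) E * (ft v φ - 2 ^ N) := by
            rw [← hc, e1]
        _ = _ := by ring
    exact mul_left_cancel₀ (by positivity) e2
  have hft := hv φ
  by_contra hcon
  push Not at hcon
  have hlt : ft v φ < 2 ^ N := by linarith
  have ht0 : 0 ≤ t := by
    have := hupsd 0
    rw [ft_zero, httot] at this
    exact this
  have hpd : (1 : ℤ) ≤ 2 ^ d := one_le_pow₀ (by norm_num)
  have htlt : t < 2 ^ N := by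
    have h1 : (2 : ℤ) ^ d * t < 2 ^ d * 2 ^ N := by linarith
    exact lt_of_mul_lt_mul_left h1 (by positivity)
  have hmul : (2 : ℤ) ^ d * (2 ^ N - t) ≤ 2 ^ N := by
    have : (2 : ℤ) ^ d * (2 ^ N - t) = 2 ^ N - ft v φ := by
      rw [mul_sub, hmain]; ring
    linarith
  have hdN : d ≤ N := by
    have h1 : (2 : ℤ) ^ d ≤ 2 ^ N := by
      have h2 : (2 : ℤ) ^ d * 1 ≤ 2 ^ d * (2 ^ N - t) := by
        apply mul_le_mul_of_nonneg_left _ (by positivity)
        omega
      linarith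
    exact (pow_le_pow_iff_right₀ (by norm_num : (1 : ℤ) < 2)).1 h1
  have hNd : (2 : ℤ) ^ N = 2 ^ d * 2 ^ (N - d) := by
    rw [← pow_add]
    congr 1
    omega
  have hle : (2 : ℤ) ^ N - t ≤ 2 ^ (N - d) := by
    rw [hNd] at hmul
    have h1 : (2 : ℤ) ^ d * (2 ^ N - t) ≤ 2 ^ d * 2 ^ (N - d) := by
      rw [hNd]
      exact hmul
    exact le_of_mul_le_mul_left h1 (by positivity)
  obtain ⟨tn, htn⟩ := Int.eq_ofNat_of_zero_le ht0
  have k1 : d ≤ ds tn := by
    apply ds_ge_top hdN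
    · have : (2 : ℤ) ^ N ≤ (tn : ℤ) + 2 ^ (N - d) := by
        rw [← htn]
        linarith
      exact_mod_cast this
    · have : (tn : ℤ) < 2 ^ N := by
        rw [← htn]
        exact htlt
      exact_mod_cast this
  have k2 := ds_le hupsd tn (by rw [httot, htn])
  rw [hu0] at k2
  have k3 : ds tn ≤ q := by exact_mod_cast k2
  omega

end Pool.Agent.GR72
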