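/-
GR72/RDMain: a run function with a large complement of its top set splits off a subspace (needs
the stubs of RDClique, RDConst, RDPsd; Core, Ward, GapSplit).
`h = k - c ≥ 1`.  `v ≥ 0` (gr_nonneg), `v 0 = q` (ds_two_pow_mul, ds_two_pow_sub_one), `2^c ∣ ft v φ`
(ward), `tot v = 2^c (2^q - 1) < 2^(c+q)`.  exists_clique, clique_const, clique_psd: `K` with
`v - ind K` psd.  `finrank K ≥ c` (minw_dvd).  The total of `v - ind K` is `2^c (2^q - 1) - 2^finrank K ≥ 0`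
(tot_ind), so `finrank K < c + q`; `a = finrank K - c`.  `ds (2^q - 1 - 2^a) = q - 1`:
`2^q - 1 - 2^a = 2^(a+1) (2^(q-1-a) - 1) + (2^a - 1)`.
`rd_split`: gap_split with `e = c + a`, `T = 2^(q-1-a) - 1`, `R = 2^c (2^a - 1)`.
-/
import Pool.Agent.GR72.RDClique
import Pool.Agent.GR72.RDPsd
import Pool.Agent.GR72.Core
import Pool.Agent.GR72.Ward
import Pool.Agent.GR72.GapSplit

namespace Pool.Agent.GR72

open Module

theorem run_minus {q a : ℕ} (ha : a < q) :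
    2 ^ q - 1 - 2 ^ a = 2 ^ (a + 1) * (2 ^ (q - 1 - a) - 1) + (2 ^ a - 1) := by
  have h1 : 2 ^ (a + 1) * 2 ^ (q - 1 - a) = 2 ^ q := by
    rw [← pow_add]
    congr 1
    omega
  have h2 : 2 ^ (a + 1) = 2 * 2 ^ a := pow_succ' 2 a
  have h3 : 1 ≤ 2 ^ a := Nat.one_le_two_pow
  have h4 : 2 ^ (a + 1) ≤ 2 ^ q := Nat.pow_le_pow_right (by norm_num) ha
  rw [Nat.mul_sub, h1, mul_one, h2]
  rw [h2] at h4
  omega

theorem ds_run_minus {q a : ℕ} (ha : a < q) : ds (2 ^ q - 1 - 2 ^ a) + 1 = q := by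
  have h1 : 1 ≤ 2 ^ a := Nat.one_le_two_pow
  have h2 : 2 ^ (a + 1) = 2 * 2 ^ a := pow_succ' 2 a
  rw [run_minus ha, ds_two_pow_mul_add (a + 1) _ _ (by omega), ds_two_pow_sub_one,
    ds_two_pow_sub_one]
  omega

theorem rd_main {W : Type} [AddCommGroup W] [Module (ZMod 2) W] [Finite W] {v : W → ℤ}
    {q c : ℕ} (hq : 2 ≤ q) (hv : Gr v (2 ^ c * (2 ^ q - 1))) (hc : c < finrank (ZMod 2) W)
    {U : Submodule (ZMod 2) W} (hU : ∀ x ∈ U, x ≠ 0 → v x < q)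
    (hdim : (q - 1) * (finrank (ZMod 2) W - c) + 2 * q ≤ finrank (ZMod 2) U) :
    ∃ (a : ℕ) (K : Submodule (ZMod 2) W), a < q ∧ finrank (ZMod 2) K = c + a ∧
      Gr (fun x => v x - ind K x) (2 ^ c * (2 ^ q - 1 - 2 ^ a)) := by
  obtain ⟨h, hh⟩ : ∃ h, h = finrank (ZMod 2) W - c := ⟨_, rfl⟩
  rw [← hh] at hdim
  have hk : finrank (ZMod 2) W = c + h := by omega
  have hh1 : 1 ≤ h := by omega
  have h0 : v 0 = q := by
    rw [hv.zero, ds_two_pow_mul, ds_two_pow_sub_one]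
  have hnn := gr_nonneg hv
  have hdiv : ∀ φ : Dual (ZMod 2) W, (2 : ℤ) ^ c ∣ ft v φ := ward hv (dvd_mul_right _ _)
  have hpsd := hv.psd
  have hU' : ∀ x ∈ U, x ≠ 0 → v x + 1 ≤ v 0 := by
    intro x hx hx0
    rw [h0]
    exact hU x hx hx0
  obtain ⟨D, hDU, hDr, hD⟩ := exists_clique hpsd hnn h0 hk hh1 hq hdiv hU' hdim
  have hq1 : 1 ≤ 2 ^ q := Nat.one_le_two_pow
  have htN : 2 ^ c * (2 ^ q - 1) < 2 ^ (c + q) := by
    rw [pow_add]
    exact Nat.mul_lt_mul_of_pos_left (by omega) (by positivity)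
  have htot : tot v < 2 ^ (c + q) := by
    rw [hv.tot]
    exact_mod_cast htN
  obtain ⟨K, hK⟩ := clique_const hpsd hnn hdiv htot hD hDr
  have hpK := clique_psd hpsd h0 hD hDr hK
  obtain ⟨x, hxD, hx0⟩ : ∃ x ∈ D, x ≠ 0 := by
    by_contra hcon
    push Not at hcon
    have h1 : D = ⊥ := by
      rw [Submodule.eq_bot_iff]
      exact hcon
    rw [h1, finrank_bot] at hDr
    omega
  have hcK : c ≤ finrank (ZMod 2) K := minw_dvd hpsd (hK x hxD hx0) hdiv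
  have htK : tot (fun x => v x - ind K x) = ((2 ^ c * (2 ^ q - 1) : ℕ) : ℤ) -
      2 ^ finrank (ZMod 2) K := by
    rw [tot_sub v (ind K), hv.tot, tot_ind]
  have hKle : 2 ^ finrank (ZMod 2) K ≤ 2 ^ c * (2 ^ q - 1) := by
    have h1 := hpK 0
    rw [ft_zero, htK] at h1
    have h2 : ((2 ^ finrank (ZMod 2) K : ℕ) : ℤ) ≤ ((2 ^ c * (2 ^ q - 1) : ℕ) : ℤ) := by
      push_cast at h1 ⊢
      linarith
    exact_mod_cast h2
  have hKlt : finrank (ZMod 2) K < c + q :=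
    (Nat.pow_lt_pow_iff_right (by norm_num)).1 (hKle.trans_lt htN)
  obtain ⟨a, ha⟩ : ∃ a, finrank (ZMod 2) K = c + a := ⟨finrank (ZMod 2) K - c, by omega⟩
  have haq : a < q := by omega
  refine ⟨a, K, haq, ha, hpK, ?_, ?_⟩
  · have h2 : 2 ^ a ≤ 2 ^ q - 1 := by
      have h3 : 2 ^ a < 2 ^ q := Nat.pow_lt_pow_right (by norm_num) haq
      omega
    rw [htK, ha, Nat.mul_sub (2 ^ c) (2 ^ q - 1) (2 ^ a),
      Nat.cast_sub (Nat.mul_le_mul_left _ h2)]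
    push_cast
    rw [pow_add]
  · have h1 : ind K 0 = 1 := by
      simp [ind]
    show v 0 - ind K 0 = _
    rw [h0, h1, ds_two_pow_mul]
    have h2 := ds_run_minus haq
    have h3 : ((ds (2 ^ q - 1 - 2 ^ a) + 1 : ℕ) : ℤ) = (q : ℤ) := by rw [h2]
    push_cast at h3
    linarith

theorem rd_split {W : Type} [AddCommGroup W] [Module (ZMod 2) W] [Finite W] {v : W → ℤ}
    {q c : ℕ} (hq : 2 ≤ q) (hv : Gr v (2 ^ c * (2 ^ q - 1))) (hc : c < finrank (ZMod 2) W)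
    {U : Submodule (ZMod 2) W} (hU : ∀ x ∈ U, x ≠ 0 → v x < q)
    (hdim : (q - 1) * (finrank (ZMod 2) W - c) + 2 * q ≤ finrank (ZMod 2) U) :
    ∃ (a : ℕ) (K : Submodule (ZMod 2) W) (vl vh : W → ℤ), a < q ∧ finrank (ZMod 2) K = c + a ∧
      Gr vl (2 ^ c * (2 ^ a - 1)) ∧ Gr vh (2 ^ (c + a + 1) * (2 ^ (q - 1 - a) - 1)) ∧
      ∀ x, v x = ind K x + vl x + vh x := by
  obtain ⟨a, K, haq, ha, hG⟩ := rd_main hq hv hc hU hdim
  have h1 : 1 ≤ 2 ^ a := Nat.one_le_two_pow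
  have h2 : 2 ^ c * (2 ^ q - 1 - 2 ^ a) =
      2 ^ (c + a + 1) * (2 ^ (q - 1 - a) - 1) + 2 ^ c * (2 ^ a - 1) := by
    rw [run_minus haq, mul_add, ← mul_assoc, ← pow_add, add_assoc]
  rw [h2] at hG
  have hR : 2 ^ c * (2 ^ a - 1) < 2 ^ (c + a) := by
    rw [pow_add]
    exact Nat.mul_lt_mul_of_pos_left (by omega) (by positivity)
  obtain ⟨v2, hv2, hv3⟩ := gap_split hR hG
  refine ⟨a, K, v2, fun x => v x - ind K x - v2 x, haq, ha, hv2, hv3, fun x => ?_⟩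
  ring

end Pool.Agent.GR72
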