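/-
GR72/FullRun: for a deep run the function is maximal on a subspace of the expected dimension
(needs the stub rd_split; Pair, Core, Psd).
`runcost h q = ∑_{i<q} (h - i)`, the expected codimension for a run of length `q` whose lowest one
`c` has `k - c = h`.
* `runcost_split`: `runcost h q = runcost h a + (h - a) + runcost (h - a - 1) (q - 1 - a)` for `a < q`
  (split the range; `Finset.sum_range_add`...).
* `runcost_big`: `q (q + 1) / 2 + q ≤ h + 1` implies `(q - 1) h + 2 q ≤ runcost h q + 1`: since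
  `runcost h q = q h - q (q - 1) / 2` (all `i ≤ h`), this is `2 q + q (q - 1) / 2 ≤ h + 1`, and
  `q (q + 1) / 2 + q = q (q - 1) / 2 + 2 q`.
* `full_run`: strong induction on `q` (all `v`, `c`).  `k = finrank W`, `h = k - c`.
  `q = 0`: `v 0 = 0`, psd_eq_zero, `P = ⊤`.  `q = 1`: gr_single.  `q = 2`: pair_lemma (`a = c`; `k ≠ c + 2`).
  `q ≥ 3`: `P0 = {v = q}` (perSub), `U` a complement (`Submodule.exists_isCompl`), so `v x < q` for
  nonzero `x ∈ U` (psd_abs_le).  If `finrank U ≤ runcost h q` take `P0`.  Otherwise, by the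
  hypothesis on the depth (`c + q - 1 + q (q + 1) / 2 ≤ k` is `q (q + 1) / 2 + q ≤ h + 1`) and
  runcost_big, rd_split applies: `a`, `K`, `vl`, `vh`.  Induction hypothesis for `vl` (length `a`, lowest
  one `c`) and `vh` (length `q - 1 - a`, lowest one `c + a + 1`): the depth conditions hold since
  `q' (q' + 1) / 2 ≤ q (q + 1) / 2` for `q' ≤ q` and `c + a - 1 ≤ c + q - 1`, `c + a + 1 + (q - 1 - a) - 1
  = c + q - 1` (and `c + q + 1 ≤ k`).  `P = K ⊓ Pl ⊓ Ph`: `v = 1 + a + (q - 1 - a) = q`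
  on `P`, codimensions add (`Submodule.finrank_sup_add_finrank_inf_eq`): runcost_split.
-/
import Pool.Agent.GR72.RDMain
import Pool.Agent.GR72.Pair

namespace Pool.Agent.GR72

open Module

/-- The expected codimension `∑_{i<q} (h - i)`. -/
def runcost (h q : ℕ) : ℕ := ∑ i ∈ Finset.range q, (h - i)

theorem runcost_split {h q a : ℕ} (ha : a < q) :
    runcost h q = runcost h a + (h - a) + runcost (h - a - 1) (q - 1 - a) := by
  obtain ⟨b, rfl⟩ : ∃ b, q = a + 1 + b := ⟨q - a - 1, by omega⟩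
  have e : a + 1 + b - 1 - a = b := by omega
  rw [e]
  unfold runcost
  rw [Finset.sum_range_add, Finset.sum_range_succ]
  congr 1
  refine Finset.sum_congr rfl fun i _ => ?_
  omega

private theorem runcost_eq (h : ℕ) (q : ℕ) (hq : q ≤ h + 1) :
    2 * runcost h q + q * (q - 1) = 2 * (q * h) := by
  induction q with
  | zero => simp [runcost]
  | succ q ih =>
    have h1 := ih (by omega)
    have h2 : runcost h (q + 1) = runcost h q + (h - q) := by
      unfold runcost
      rw [Finset.sum_range_succ]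
    rw [h2]
    obtain ⟨d, rfl⟩ : ∃ d, h = q + d := ⟨h - q, by omega⟩
    have e1 : q + d - q = d := by omega
    have e2 : q + 1 - 1 = q := by omega
    rw [e1, e2]
    rcases q with _ | q
    · simp at h1 ⊢
      rw [h1]
    · have e3 : q + 1 - 1 = q := by omega
      rw [e3] at h1
      ring_nf at h1 ⊢
      omega

theorem runcost_big {h q : ℕ} (hq : 1 ≤ q) (hh : q * (q + 1) / 2 + q ≤ h + 1) :
    (q - 1) * h + 2 * q ≤ runcost h q + 1 := by
  have h1 := runcost_eq h q (by omega)
  have h2 : 2 * (q * (q + 1) / 2) = q * (q + 1) :=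
    Nat.mul_div_cancel' (Nat.even_mul_succ_self q).two_dvd
  obtain ⟨p, rfl⟩ : ∃ p, q = p + 1 := ⟨q - 1, by omega⟩
  have e : p + 1 - 1 = p := by omega
  rw [e] at h1 ⊢
  generalize runcost h (p + 1) = R at *
  have h3 : (p + 1) * (p + 1 + 1) + 2 * (p + 1) ≤ 2 * h + 2 := by omega
  nlinarith

private theorem inf_dim' {W : Type} [AddCommGroup W] [Module (ZMod 2) W] [Finite W]
    (P1 P2 : Submodule (ZMod 2) W) :
    finrank (ZMod 2) P1 + finrank (ZMod 2) P2 ≤
      finrank (ZMod 2) W + finrank (ZMod 2) (P1 ⊓ P2 : Submodule (ZMod 2) W) := by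
  have h1 := Submodule.finrank_sup_add_finrank_inf_eq P1 P2
  have h2 := Submodule.finrank_le (P1 ⊔ P2)
  omega

private theorem tri_mono {a q : ℕ} (h : a ≤ q) : a * (a + 1) / 2 ≤ q * (q + 1) / 2 :=
  Nat.div_le_div_right (Nat.mul_le_mul h (by omega))

theorem full_run (q : ℕ) : ∀ {W : Type} [AddCommGroup W] [Module (ZMod 2) W] [Finite W]
    {v : W → ℤ} {c : ℕ}, Gr v (2 ^ c * (2 ^ q - 1)) → c + q + 1 ≤ finrank (ZMod 2) W →
    (3 ≤ q → c + q - 1 + q * (q + 1) / 2 ≤ finrank (ZMod 2) W) →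
    ∃ P : Submodule (ZMod 2) W, (∀ x ∈ P, v x = q) ∧
      finrank (ZMod 2) W ≤ finrank (ZMod 2) P + runcost (finrank (ZMod 2) W - c) q := by
  induction q using Nat.strong_induction_on with
  | _ q ih =>
  intro W _ _ _ v c hv hk hd
  rcases Nat.lt_or_ge q 3 with hq3 | hq3
  · rcases (by omega : q = 0 ∨ q = 1 ∨ q = 2) with rfl | rfl | rfl
    · have h0 : v 0 = 0 := by
        rw [hv.zero, ds_low]
        rfl
      refine ⟨⊤, fun x _ => ?_, ?_⟩
      · rw [psd_eq_zero hv.psd h0 x]
        rfl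
      · rw [finrank_top]
        omega
    · have e : 2 ^ c * (2 ^ 1 - 1) = 2 ^ c := by norm_num
      rw [e] at hv
      obtain ⟨P, hP, hvP⟩ := gr_single hv
      refine ⟨P, fun x hx => ?_, ?_⟩
      · rw [hvP x]
        simp [ind, hx]
      · have e2 : runcost (finrank (ZMod 2) W - c) 1 = finrank (ZMod 2) W - c := by
          simp [runcost]
        rw [e2, hP]
        omega
    · have e : 2 ^ c * (2 ^ 2 - 1) = 3 * 2 ^ c := by
        norm_num
        ring
      rw [e] at hv
      obtain ⟨P, hP, hd2⟩ := pair_lemma hv (by omega)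
      rw [if_neg (by omega)] at hd2
      refine ⟨P, fun x hx => ?_, ?_⟩
      · rw [hP x hx]
        rfl
      · have e2 : runcost (finrank (ZMod 2) W - c) 2 =
            (finrank (ZMod 2) W - c) + (finrank (ZMod 2) W - c - 1) := by
          simp [runcost, Finset.sum_range_succ]
        rw [e2]
        omega
  have hv0 : v 0 = q := by rw [hv.zero, ds_low]
  obtain ⟨P0, hP0⟩ := perSub hv.psd
  obtain ⟨U, hU⟩ := Submodule.exists_isCompl P0
  have hdimU := Submodule.finrank_add_eq_of_isCompl hU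
  by_cases hle : finrank (ZMod 2) U ≤ runcost (finrank (ZMod 2) W - c) q
  · refine ⟨P0, fun x hx => ?_, ?_⟩
    · rw [(hP0 x).1 hx, hv0]
    · omega
  have hUlt : ∀ x ∈ U, x ≠ 0 → v x < q := by
    intro x hx hx0
    have h1 : x ∉ P0 := by
      intro h2
      apply hx0
      have h3 : x ∈ P0 ⊓ U := ⟨h2, hx⟩
      rwa [hU.inf_eq_bot, Submodule.mem_bot] at h3
    rw [hP0, hv0] at h1
    have h2 := (abs_le.1 (psd_abs_le hv.psd x)).2
    rw [hv0] at h2
    omega
  have hd' := hd hq3
  have hbig := runcost_big (h := finrank (ZMod 2) W - c) (q := q) (by omega) (by omega)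
  obtain ⟨a, K, vl, vh, ha, hK, hvl, hvh, hsum⟩ :=
    rd_split (by omega) hv (by omega) hUlt (by omega)
  obtain ⟨Pl, hPl, hdl⟩ := ih a ha hvl (by omega) (by
    intro _
    have := tri_mono (a := a) (q := q) (by omega)
    omega)
  obtain ⟨Ph, hPh, hdh⟩ := ih (q - 1 - a) (by omega) hvh (by omega) (by
    intro _
    have := tri_mono (a := q - 1 - a) (q := q) (by omega)
    omega)
  refine ⟨K ⊓ Pl ⊓ Ph, ?_, ?_⟩
  · rintro x ⟨⟨hxK, hxl⟩, hxh⟩
    have h1 : ind K x = 1 := by
      unfold ind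
      exact if_pos hxK
    rw [hsum x, h1, hPl x hxl, hPh x hxh]
    omega
  · have h1 := inf_dim' K Pl
    have h2 := inf_dim' (K ⊓ Pl) Ph
    rw [runcost_split ha]
    have e1 : finrank (ZMod 2) W - (c + a + 1) = finrank (ZMod 2) W - c - a - 1 := by omega
    rw [e1] at hdh
    omega

end Pool.Agent.GR72
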