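/-
GR72/DeepDefs: the condition on long runs (complete; the definition `DeepRuns` is part of the
official statement).
-/
import Pool.Agent.GR72.CodeDefs
import Pool.Agent.GR72.CostDefs

namespace Pool.Agent.GR72

/-- Let `u_1 > u_2 > ...` be the exponents of `D`.  Every maximal run `u, u - 1, ..., u - q + 1` of
`q ≥ 3` consecutive exponents that contains at least two of the `s + 1` largest exponents is
contained in them and satisfies `u + q (q + 1) / 2 ≤ k`. -/
def DeepRuns (k s D : ℕ) : Prop :=
  ∀ u q, 3 ≤ q → (∀ j < q, u - j ∈ exps D) → u + 1 ∉ exps D → u - q ∉ exps D →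
    ((exps D).filter (u < ·)).length + 2 ≤ s + 1 →
      ((exps D).filter (u < ·)).length + q ≤ s + 1 ∧ u + q * (q + 1) / 2 ≤ k

/-- The same in terms of the digits of `V` (here `V = 2 D`, `m = s + 1`). -/
def DeepTop (k V m : ℕ) : Prop :=
  ∀ c q, 3 ≤ q → (∀ i < q, V.testBit (c + i) = true) → V.testBit (c + q) = false →
    (c = 0 ∨ V.testBit (c - 1) = false) → ds (V / 2 ^ (c + q)) + 2 ≤ m →
      ds (V / 2 ^ (c + q)) + q ≤ m ∧ c + q - 1 + q * (q + 1) / 2 ≤ k

/-- All runs of length at least three are deep. -/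
def DeepAll (k V : ℕ) : Prop :=
  ∀ c q, 3 ≤ q → (∀ i < q, V.testBit (c + i) = true) → V.testBit (c + q) = false →
    (c = 0 ∨ V.testBit (c - 1) = false) → c + q - 1 + q * (q + 1) / 2 ≤ k

end Pool.Agent.GR72
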