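/-
GR72/PeelDeep: the depth condition and the last run of ones (needs DeepDefs, Digits, PeelGen; all
about digits of natural numbers).
`V = 2^c (2^(q+1) t + (2^q - 1))`, `V1 = 2^(c+q+1) t`.  Digits: `V.testBit j` is false for `j < c`, true for
`c ≤ j < c + q`, false for `j = c + q`, and equal to `V1.testBit j` for `j > c + q` (V_eq;
`Nat.testBit_two_pow_mul_add` or `Nat.testBit` lemmas; `V = 2^(c+q+1) t + 2^c (2^q - 1)` with
`2^c (2^q - 1) < 2^(c+q)`); `V1.testBit j` is false for `j ≤ c + q`.
`V / 2^e = V1 / 2^e` for `e ≥ c + q`; `V / 2^(c+q) = 2 t`.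
* `deep_high`: a run `c', q'` of `V1` has `c' ≥ c + q + 1` (`q' ≥ 3`, first digit true), it is a run
  of `V` with the same `ds (V / 2^(c'+q'))`.
* `deep_low`: the run `c, q` of `V`; `ds (V / 2^(c+q)) = ds (2 t) = ds t`.
* `deep_all_of_top`: for a run `c', q'` of `V`: `ds (V / 2^(c'+q')) + q' ≤ ds V` (ds_div_add).
* `ds_div_add`: `V = 2^(c'+q') A + B` with `B = V % 2^(c'+q')`, `ds V = ds A + ds B`
  (ds_two_pow_mul_add), and `B / 2^c' = 2^q' - 1` (all digits are one), `ds B ≥ ds (B / 2^c') = q'`.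
* `deepall_high`, `deepall_of`: as deep_high.  `deepall_join`: every run of `V` is the run `c, q` or
  a run of `V1`.
* `deeptop_top`: if `eps k V = 1` and `2 ≤ m`, `DeepTop k V m`, `V < 2^k`, `3 ≤ k`, then the digit `k - 3` of
  `V` is zero and so `V = 3 * 2^(k-2) + R` with `R < 2^(k-3)`: otherwise let `c` be the lowest index such
  that all digits from `c` to `k - 1` are ones, `q = k - c ≥ 3`; `V / 2^k = 0`; then
  `k - 1 + q (q + 1) / 2 ≤ k`, impossible.  The end as in top_form_gen (GR72/SuffGen).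
-/
import Pool.Agent.GR72.DeepDefs
import Pool.Agent.GR72.PeelGen
import Pool.Agent.GR72.Arith

namespace Pool.Agent.GR72

private theorem pd_V (q c t j : ℕ) : (2 ^ c * (2 ^ (q + 1) * t + (2 ^ q - 1))).testBit j =
    if j < c then false else if j < c + q then true else if j < c + q + 1 then false
      else t.testBit (j - (c + q + 1)) := by
  have hlt : 2 ^ q - 1 < 2 ^ (q + 1) := by
    have h1 : 0 < 2 ^ q := by positivity
    rw [pow_succ]
    omega
  rw [Nat.testBit_two_pow_mul, Nat.testBit_two_pow_mul_add _ hlt, Nat.testBit_two_pow_sub_one]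
  by_cases h1 : j < c
  · simp [h1, Nat.not_le.2 h1]
  · have h1' : c ≤ j := not_lt.1 h1
    rw [if_neg h1]
    by_cases h2 : j < c + q
    · have e1 : j - c < q + 1 := by omega
      have e2 : j - c < q := by omega
      simp [h1', e1, e2, h2]
    · by_cases h3 : j < c + q + 1
      · have e1 : j - c < q + 1 := by omega
        have e2 : ¬ j - c < q := by omega
        simp [h1', e1, e2, h2, h3]
      · have e1 : ¬ j - c < q + 1 := by omega
        have e3 : j - c - (q + 1) = j - (c + q + 1) := by omega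
        simp [h1', e1, h2, h3, e3]

private theorem pd_V1 (q c t j : ℕ) : (2 ^ (c + q + 1) * t).testBit j =
    if j < c + q + 1 then false else t.testBit (j - (c + q + 1)) := by
  rw [Nat.testBit_two_pow_mul]
  by_cases h1 : j < c + q + 1
  · have h2 : ¬ (c + q + 1 ≤ j) := not_le.2 h1
    rw [if_pos h1]
    simp only [ge_iff_le, h2, decide_false, Bool.false_and]
  · have h2 : c + q + 1 ≤ j := not_lt.1 h1
    rw [if_neg h1]
    simp only [ge_iff_le, h2, decide_true, Bool.true_and]

private theorem pd_hi {q c t j : ℕ} (h : c + q < j) :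
    (2 ^ c * (2 ^ (q + 1) * t + (2 ^ q - 1))).testBit j = (2 ^ (c + q + 1) * t).testBit j := by
  rw [pd_V, pd_V1, if_neg (show ¬ j < c by omega), if_neg (show ¬ j < c + q by omega),
    if_neg (show ¬ j < c + q + 1 by omega)]

private theorem pd_mid {q c t j : ℕ} (h1 : c ≤ j) (h2 : j < c + q) :
    (2 ^ c * (2 ^ (q + 1) * t + (2 ^ q - 1))).testBit j = true := by
  rw [pd_V, if_neg (by omega), if_pos h2]

private theorem pd_gap (q c t : ℕ) :
    (2 ^ c * (2 ^ (q + 1) * t + (2 ^ q - 1))).testBit (c + q) = false := by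
  rw [pd_V, if_neg (by omega), if_neg (by omega), if_pos (by omega)]

private theorem pd_lo {q c t j : ℕ} (h1 : j < c) :
    (2 ^ c * (2 ^ (q + 1) * t + (2 ^ q - 1))).testBit j = false := by
  rw [pd_V, if_pos h1]

private theorem pd_lo1 {q c t j : ℕ} (h1 : j < c + q + 1) :
    (2 ^ (c + q + 1) * t).testBit j = false := by
  rw [pd_V1, if_pos h1]

private theorem pd_div (q c t : ℕ) :
    (2 ^ c * (2 ^ (q + 1) * t + (2 ^ q - 1))) / 2 ^ (c + q) = 2 * t := by
  rw [V_eq]
  have e : 2 ^ (c + q + 1) * t = 2 ^ (c + q) * (2 * t) := by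
    rw [pow_succ]; ring
  rw [e, Nat.mul_add_div (by positivity), Nat.div_eq_of_lt (low_lt q c), add_zero]

private theorem pd_div1 (q c t : ℕ) : (2 ^ (c + q + 1) * t) / 2 ^ (c + q) = 2 * t := by
  have e : 2 ^ (c + q + 1) * t = 2 ^ (c + q) * (2 * t) := by
    rw [pow_succ]; ring
  rw [e, Nat.mul_div_cancel_left _ (by positivity)]

private theorem pd_div_hi {q c t e : ℕ} (h : c + q ≤ e) :
    (2 ^ c * (2 ^ (q + 1) * t + (2 ^ q - 1))) / 2 ^ e = (2 ^ (c + q + 1) * t) / 2 ^ e := by
  obtain ⟨d, rfl⟩ := Nat.exists_eq_add_of_le h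
  rw [pow_add 2 (c + q) d, ← Nat.div_div_eq_div_mul, ← Nat.div_div_eq_div_mul, pd_div, pd_div1]

/-- a run of `V1` is a run of `V` -/
private theorem pd_run {q c t c' q' : ℕ} (hq : 3 ≤ q')
    (h1 : ∀ i < q', (2 ^ (c + q + 1) * t).testBit (c' + i) = true)
    (h2 : (2 ^ (c + q + 1) * t).testBit (c' + q') = false)
    (h3 : c' = 0 ∨ (2 ^ (c + q + 1) * t).testBit (c' - 1) = false) :
    c + q < c' ∧ (∀ i < q', (2 ^ c * (2 ^ (q + 1) * t + (2 ^ q - 1))).testBit (c' + i) = true) ∧
      (2 ^ c * (2 ^ (q + 1) * t + (2 ^ q - 1))).testBit (c' + q') = false ∧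
      (c' = 0 ∨ (2 ^ c * (2 ^ (q + 1) * t + (2 ^ q - 1))).testBit (c' - 1) = false) := by
  have hc : c + q < c' := by
    by_contra hcon
    have h4 := h1 0 (by omega)
    rw [pd_lo1 (by omega)] at h4
    exact Bool.false_ne_true h4
  refine ⟨hc, fun i hi => ?_, ?_, ?_⟩
  · rw [pd_hi (by omega)]
    exact h1 i hi
  · rw [pd_hi (by omega)]
    exact h2
  · right
    by_cases h5 : c' - 1 = c + q
    · rw [h5, pd_gap]
    · rw [pd_hi (by omega)]
      rcases h3 with h3 | h3
      · omega
      · exact h3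

theorem deep_high {k q c t m : ℕ}
    (h : DeepTop k (2 ^ c * (2 ^ (q + 1) * t + (2 ^ q - 1))) m) :
    DeepTop k (2 ^ (c + q + 1) * t) m := by
  intro c' q' hq' h1 h2 h3 h4
  obtain ⟨hc, h5, h6, h7⟩ := pd_run hq' h1 h2 h3
  have h8 := pd_div_hi (q := q) (c := c) (t := t) (e := c' + q') (by omega)
  rw [← h8] at h4 ⊢
  exact h c' q' hq' h5 h6 h7 h4

theorem deep_low {k q c t m : ℕ}
    (h : DeepTop k (2 ^ c * (2 ^ (q + 1) * t + (2 ^ q - 1))) m) (hq : 3 ≤ q)
    (hm : ds t + 2 ≤ m) : ds t + q ≤ m ∧ c + q - 1 + q * (q + 1) / 2 ≤ k := by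
  have h1 := h c q hq (fun i hi => pd_mid (by omega) (by omega)) (pd_gap q c t) (by
    by_cases hc : c = 0
    · exact Or.inl hc
    · exact Or.inr (pd_lo (by omega)))
  rw [pd_div, ds_two_mul] at h1
  exact h1 hm

theorem ds_div_add {V c q : ℕ} (h : ∀ i < q, V.testBit (c + i) = true) :
    ds (V / 2 ^ (c + q)) + q ≤ ds V := by
  have h1 : ds V = ds (V / 2 ^ c) + ds (V % 2 ^ c) := by
    conv_lhs => rw [← Nat.div_add_mod V (2 ^ c)]
    exact ds_two_pow_mul_add _ _ _ (Nat.mod_lt _ (by positivity))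
  have h2 : (V / 2 ^ c) % 2 ^ q = 2 ^ q - 1 := by
    apply Nat.eq_of_testBit_eq
    intro i
    rw [Nat.testBit_mod_two_pow, Nat.testBit_two_pow_sub_one, Nat.testBit_div_two_pow]
    by_cases hi : i < q
    · rw [Nat.add_comm i c, h i hi]
      simp
    · simp [hi]
  have h3 : ds (V / 2 ^ c) = ds (V / 2 ^ (c + q)) + q := by
    conv_lhs => rw [← Nat.div_add_mod (V / 2 ^ c) (2 ^ q)]
    rw [ds_two_pow_mul_add _ _ _ (Nat.mod_lt _ (by positivity)), h2, ds_two_pow_sub_one,
      Nat.div_div_eq_div_mul, ← pow_add]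
  omega

theorem deep_all_of_top {k V m : ℕ} (h : DeepTop k V m) (hm : ds V ≤ m) : DeepAll k V := by
  intro c q hq h1 h2 h3
  have h4 := ds_div_add h1
  exact (h c q hq h1 h2 h3 (by omega)).2

theorem deepall_high {k q c t : ℕ}
    (h : DeepAll k (2 ^ c * (2 ^ (q + 1) * t + (2 ^ q - 1)))) :
    DeepAll k (2 ^ (c + q + 1) * t) := by
  intro c' q' hq' h1 h2 h3
  obtain ⟨hc, h5, h6, h7⟩ := pd_run hq' h1 h2 h3
  exact h c' q' hq' h5 h6 h7

theorem deepall_low {k q c t : ℕ}
    (h : DeepAll k (2 ^ c * (2 ^ (q + 1) * t + (2 ^ q - 1)))) (hq : 3 ≤ q) :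
    c + q - 1 + q * (q + 1) / 2 ≤ k := by
  exact h c q hq (fun i hi => pd_mid (by omega) (by omega)) (pd_gap q c t) (by
    by_cases hc : c = 0
    · exact Or.inl hc
    · exact Or.inr (pd_lo (by omega)))

theorem deepall_join {k q c t : ℕ} (h : DeepAll k (2 ^ (c + q + 1) * t))
    (hl : 3 ≤ q → c + q - 1 + q * (q + 1) / 2 ≤ k) :
    DeepAll k (2 ^ c * (2 ^ (q + 1) * t + (2 ^ q - 1))) := by
  intro c' q' hq' h1 h2 h3
  have hc0 : c ≤ c' := by
    by_contra hcon
    have h4 := h1 0 (by omega)
    rw [add_zero, pd_lo (by omega)] at h4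
    exact Bool.false_ne_true h4
  rcases Nat.lt_or_ge (c + q) c' with hc | hc
  · refine h c' q' hq' (fun i hi => ?_) ?_ ?_
    · rw [← pd_hi (by omega)]
      exact h1 i hi
    · rw [← pd_hi (by omega)]
      exact h2
    · right
      by_cases h5 : c' - 1 = c + q
      · exact pd_lo1 (by omega)
      · rw [← pd_hi (by omega)]
        rcases h3 with h3 | h3
        · omega
        · exact h3
  · have hne : c' ≠ c + q := by
      intro h5
      have h4 := h1 0 (by omega)
      rw [add_zero, h5, pd_gap] at h4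
      exact Bool.false_ne_true h4
    have hcc : c' = c := by
      by_contra hcon
      rcases h3 with h3 | h3
      · omega
      · rw [pd_mid (by omega) (by omega)] at h3
        exact Bool.false_ne_true h3.symm
    subst hcc
    have hqq : q' = q := by
      rcases Nat.lt_trichotomy q' q with h5 | h5 | h5
      · rw [pd_mid (by omega) (by omega)] at h2
        exact absurd h2.symm Bool.false_ne_true
      · exact h5
      · have h4 := h1 q h5
        rw [pd_gap] at h4
        exact absurd h4 Bool.false_ne_true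
    subst hqq
    exact hl hq'

theorem deeptop_top {k V m : ℕ} (hk : 3 ≤ k) (hV : V < 2 ^ k) (hm : 2 ≤ m)
    (h : DeepTop k V m) (he : eps k V = 1) :
    ∃ R, V = 3 * 2 ^ (k - 2) + R ∧ R < 2 ^ (k - 3) := by
  classical
  obtain ⟨n, rfl⟩ : ∃ n, k = n + 3 := ⟨k - 3, by omega⟩
  have e1 : n + 3 - 1 = n + 2 := by omega
  have e2 : n + 3 - 2 = n + 1 := by omega
  have e3 : n + 3 - 3 = n := by omega
  unfold eps at he
  rw [e1, e2] at he
  rw [e2, e3]
  by_cases hc : V.testBit (n + 2) = true ∧ V.testBit (n + 1) = true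
  · have h0 : ¬ V.testBit n = true := by
      intro hn
      have hex : ∃ c, ∀ j, c ≤ j → j ≤ n + 2 → V.testBit j = true := by
        refine ⟨n, fun j hj1 hj2 => ?_⟩
        have : j = n ∨ j = n + 1 ∨ j = n + 2 := by omega
        rcases this with h5 | h5 | h5
        · rw [h5]; exact hn
        · rw [h5]; exact hc.2
        · rw [h5]; exact hc.1
      have hcn : Nat.find hex ≤ n := Nat.find_min' hex (fun j hj1 hj2 => by
        have : j = n ∨ j = n + 1 ∨ j = n + 2 := by omega
        rcases this with h5 | h5 | h5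
        · rw [h5]; exact hn
        · rw [h5]; exact hc.2
        · rw [h5]; exact hc.1)
      have hspec := Nat.find_spec hex
      have hmin : ∀ c' < Nat.find hex, ¬ ∀ j, c' ≤ j → j ≤ n + 2 → V.testBit j = true :=
        fun c' hc' => Nat.find_min hex hc'
      generalize Nat.find hex = c at hcn hspec hmin
      have h6 := h c (n + 3 - c) (by omega) (fun i hi => hspec _ (by omega) (by omega)) (by
          rw [show c + (n + 3 - c) = n + 3 by omega]
          exact Nat.testBit_lt_two_pow hV) (by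
          by_cases hc0 : c = 0
          · exact Or.inl hc0
          · right
            by_contra hcon
            apply hmin (c - 1) (by omega)
            intro j hj1 hj2
            by_cases hj : j = c - 1
            · rw [hj]
              simpa using hcon
            · exact hspec j (by omega) hj2) (by
          rw [show c + (n + 3 - c) = n + 3 by omega, Nat.div_eq_of_lt hV, ds_zero]
          omega)
      have h7 := h6.2
      have h8 : 6 ≤ (n + 3 - c) * (n + 3 - c + 1) / 2 := by
        rw [Nat.le_div_iff_mul_le (by norm_num)]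
        have h9 : 3 ≤ n + 3 - c := by omega
        generalize n + 3 - c = w at h9
        nlinarith
      omega
    have hw : V / 2 ^ n < 8 := by
      rw [Nat.div_lt_iff_lt_mul (by positivity)]
      rw [pow_add] at hV
      omega
    have t2 : (V / 2 ^ n).testBit 2 = true := by
      rw [Nat.testBit_div_two_pow, Nat.add_comm]
      exact hc.1
    have t1 : (V / 2 ^ n).testBit 1 = true := by
      rw [Nat.testBit_div_two_pow, Nat.add_comm]
      exact hc.2
    have t0 : ¬ (V / 2 ^ n).testBit 0 = true := by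
      rw [Nat.testBit_div_two_pow, Nat.zero_add]
      exact h0
    have h6 : V / 2 ^ n = 6 := by
      generalize V / 2 ^ n = w at hw t2 t1 t0
      interval_cases w <;> first | rfl | (exfalso; revert t2 t1 t0; decide)
    refine ⟨V % 2 ^ n, ?_, Nat.mod_lt _ (by positivity)⟩
    have h7 := Nat.div_add_mod V (2 ^ n)
    rw [h6] at h7
    rw [pow_succ]
    omega
  · rw [if_neg hc] at he
    exact absurd he (by norm_num)

end Pool.Agent.GR72
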