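/-
GR72/FullDeep: large subspaces on which `v` is maximal, all runs deep (needs the stubs of FullRun,
PeelDeep; structure of the proof of full_thm in GR72/Full).
Names: `k = finrank W`.  Strong induction on `V` (all `v`).  `V = 0`: `P = ⊤`.  Otherwise
exists_run_gen, `V1 = 2^(c+q+1) t < V`, `run_all q _ W rfl` and run_split: `v = v1 + v2`,
`Gr v1 V1`, `Gr v2 (2^c (2^q - 1))`.  Induction hypothesis for `v1` (deepall_high): `P1`.
For `v2`: `P2` with `v2 = q` on it and `k ≤ finrank P2 + runcost (k - c) q + e2` where `e2 = 1` if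
`q = 2`, `k = c + 2`, otherwise `e2 = 0`:
  `q = 1`: gr_single (`c ≤ k`).
  `q = 2`: pair_lemma.
  `q ≥ 3`: full_run; deepall_low gives `c + q - 1 + q (q + 1) / 2 ≤ k`, so also `c + q + 1 ≤ k`.
If `e2 = 1` then `t = 0` (k_ge: `c + q + 2 ≤ k` if `t ≥ 1`), `V1 = 0` and `eps k V = 1` (eps_pair).
`P = P1 ⊓ P2`; `cost k V = cost k V1 + runcost (k - c) q` (cost_run, from bits_run), eps_high,
`ds V = ds V1 + q`.
-/
import Pool.Agent.GR72.FullRun
import Pool.Agent.GR72.PeelDeep
import Pool.Agent.GR72.Full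

namespace Pool.Agent.GR72

open Module

private theorem run_sum (k c q : ℕ) :
    ((List.range q).map (fun i => k - (c + i))).sum = ∑ i ∈ Finset.range q, (k - c - i) := by
  induction q with
  | zero => simp
  | succ q ih =>
    rw [List.range_succ, List.map_append, List.sum_append, Finset.sum_range_succ, ih]
    simp [Nat.sub_sub]

theorem cost_run (k q c t : ℕ) : cost k (2 ^ c * (2 ^ (q + 1) * t + (2 ^ q - 1)))
    = cost k (2 ^ (c + q + 1) * t) + runcost (k - c) q := by
  unfold cost runcost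
  rw [bits_run, List.map_append, List.sum_append, List.map_map, ← run_sum, Nat.add_comm]
  rfl

private theorem inf_dim' {W : Type} [AddCommGroup W] [Module (ZMod 2) W] [Finite W]
    (P1 P2 : Submodule (ZMod 2) W) :
    finrank (ZMod 2) P1 + finrank (ZMod 2) P2 ≤
      finrank (ZMod 2) W + finrank (ZMod 2) (P1 ⊓ P2 : Submodule (ZMod 2) W) := by
  have h1 := Submodule.finrank_sup_add_finrank_inf_eq P1 P2
  have h2 := Submodule.finrank_le (P1 ⊔ P2)
  omega

private theorem low_part {W : Type} [AddCommGroup W] [Module (ZMod 2) W] [Finite W] {v2 : W → ℤ}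
    {q c t : ℕ} (hq : 1 ≤ q) (g2 : Gr v2 (2 ^ c * (2 ^ q - 1)))
    (hV : 2 ^ c * (2 ^ (q + 1) * t + (2 ^ q - 1)) < 2 ^ finrank (ZMod 2) W)
    (h3 : DeepAll (finrank (ZMod 2) W) (2 ^ c * (2 ^ (q + 1) * t + (2 ^ q - 1)))) :
    ∃ (P2 : Submodule (ZMod 2) W) (e : ℕ), (∀ x ∈ P2, v2 x = q) ∧
      finrank (ZMod 2) W ≤ finrank (ZMod 2) P2 + runcost (finrank (ZMod 2) W - c) q + e ∧
      (e = 0 ∨ (e = 1 ∧ q = 2 ∧ finrank (ZMod 2) W = c + 2)) := by
  by_cases h1 : q = 1
  · subst h1
    have g2' : Gr v2 (2 ^ c) := by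
      have e : 2 ^ c * (2 ^ 1 - 1) = 2 ^ c := by norm_num
      rwa [e] at g2
    obtain ⟨P2, hd2, hP2⟩ := gr_single g2'
    refine ⟨P2, 0, fun x hx => ?_, ?_, Or.inl rfl⟩
    · rw [hP2 x]
      unfold ind
      rw [if_pos hx]
      rfl
    · have h7 := Submodule.finrank_le P2
      have h8 : runcost (finrank (ZMod 2) W - c) 1 = finrank (ZMod 2) W - c := by
        unfold runcost
        rw [Finset.sum_range_one, Nat.sub_zero]
      rw [h8, hd2]
      omega
  · by_cases h2 : q = 2
    · subst h2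
      have e : 2 ^ c * (2 ^ 2 - 1) = 3 * 2 ^ c := by
        norm_num
        ring
      have hk : c + 2 ≤ finrank (ZMod 2) W := by
        by_contra hc
        have h5 : 2 ^ finrank (ZMod 2) W ≤ 2 ^ (c + 1) :=
          Nat.pow_le_pow_right (by norm_num) (by omega)
        rw [V_eq, e] at hV
        rw [pow_succ] at h5
        have h6 : 0 < 2 ^ c := by positivity
        have h7 := Nat.zero_le (2 ^ (c + 2 + 1) * t)
        omega
      have g2' : Gr v2 (3 * 2 ^ c) := by rwa [e] at g2
      obtain ⟨P2, hP2, hd2⟩ := pair_lemma g2' hk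
      have h8 : runcost (finrank (ZMod 2) W - c) 2
          = (finrank (ZMod 2) W - c) + (finrank (ZMod 2) W - c - 1) := by
        unfold runcost
        rw [Finset.sum_range_succ, Finset.sum_range_one, Nat.sub_zero]
      refine ⟨P2, if finrank (ZMod 2) W = c + 2 then 1 else 0, fun x hx => ?_, ?_, ?_⟩
      · rw [hP2 x hx]
        rfl
      · rw [h8]
        split_ifs at hd2 ⊢ <;> omega
      · split_ifs with h9
        · exact Or.inr ⟨rfl, rfl, h9⟩
        · exact Or.inl rfl
    · have hq3 : 3 ≤ q := by omega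
      have hd := deepall_low h3 hq3
      have h6 : 6 ≤ q * (q + 1) / 2 := by
        have h7 : 4 ≤ q + 1 := Nat.succ_le_succ hq3
        have h8 : 3 * 4 ≤ q * (q + 1) := Nat.mul_le_mul hq3 h7
        omega
      obtain ⟨P2, hP2, hd2⟩ := full_run q g2 (by omega) (fun _ => hd)
      exact ⟨P2, 0, hP2, hd2, Or.inl rfl⟩

theorem full_deep {W : Type} [AddCommGroup W] [Module (ZMod 2) W] [Finite W] {v : W → ℤ} {V : ℕ}
    (h : Gr v V) (hV : V < 2 ^ finrank (ZMod 2) W) (h3 : DeepAll (finrank (ZMod 2) W) V) :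
    ∃ P : Submodule (ZMod 2) W, (∀ x ∈ P, v x = ds V) ∧
      finrank (ZMod 2) W ≤ finrank (ZMod 2) P + cost (finrank (ZMod 2) W) V
        + eps (finrank (ZMod 2) W) V := by
  induction V using Nat.strong_induction_on generalizing v with
  | _ V ih =>
    by_cases hV0 : V = 0
    · subst hV0
      have h0 : v 0 = 0 := by rw [h.zero, ds_zero]; rfl
      refine ⟨⊤, fun x _ => ?_, ?_⟩
      · rw [psd_eq_zero h.psd h0 x, ds_zero]; rfl
      · rw [finrank_top]
        omega
    · obtain ⟨q, c, t, hq, rfl⟩ := exists_run_gen hV0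
      have hlow : 0 < 2 ^ c * (2 ^ q - 1) := by
        apply Nat.mul_pos (by positivity)
        have h5 : 2 ^ 1 ≤ 2 ^ q := Nat.pow_le_pow_right (by norm_num) hq
        omega
      have hlt : 2 ^ (c + q + 1) * t < 2 ^ c * (2 ^ (q + 1) * t + (2 ^ q - 1)) := by
        rw [V_eq]
        omega
      obtain ⟨v2, g2, g1, -⟩ := run_split (run_all q _ W rfl) h
      obtain ⟨P1, hP1, hd1⟩ := ih _ hlt g1 (hlt.trans hV) (deepall_high h3)
      obtain ⟨P2, e, hP2, hd2, he⟩ := low_part hq g2 hV h3
      refine ⟨P1 ⊓ P2, fun x hx => ?_, ?_⟩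
      · have h5 := hP1 x hx.1
        have h6 := hP2 x hx.2
        rw [ds_high] at h5
        rw [ds_V]
        push_cast
        have h8 : v x - v2 x = (ds t : ℤ) := h5
        linarith
      · have h5 := inf_dim' P1 P2
        have h6 := eps_high (finrank (ZMod 2) W) q c t
        rw [cost_run]
        rcases he with he | ⟨he, hq2, hk⟩
        · omega
        · have ht : t = 0 := by
            by_contra ht
            have h7 := k_ge (by omega) hV
            omega
          subst ht
          subst hq2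
          have h7 : eps (finrank (ZMod 2) W) (2 ^ c * (2 ^ (2 + 1) * 0 + (2 ^ 2 - 1))) = 1 := by
            have e1 : 2 ^ c * (2 ^ (2 + 1) * 0 + (2 ^ 2 - 1)) = 3 * 2 ^ c := by
              rw [Nat.mul_zero, Nat.zero_add]
              norm_num
              ring
            rw [e1, hk, eps_pair]
          have h8 : eps (finrank (ZMod 2) W) (2 ^ (c + 2 + 1) * 0) = 0 := by
            unfold eps
            simp
          omega

end Pool.Agent.GR72
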