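/-
GR72/PeelLong: the conditions `LongTop`, `LongAll` and the last run of ones (complete; the same as
GR72/PeelDeep with the other depth condition).
-/
import Pool.Agent.GR72.Deep2Defs
import Pool.Agent.GR72.PeelGen
import Pool.Agent.GR72.Arith

namespace Pool.Agent.GR72

private theorem pd_V (q c t j : ℕ) : (2 ^ c * (2 ^ (q + 1) * t + (2 ^ q - 1))).testBit j =
    if j < c then false else if j < c + q then true else if j < c + q + 1 then false
      else t.testBit (j - (c + q + 1)) := by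
  have hlt : 2 ^ q - 1 < 2 ^ (q + 1) := by
    have h1 : 0 < 2 ^ q := by positivity
    rw [pow_succ]
    omega
  rw [Nat.testBit_two_pow_mul, Nat.testBit_two_pow_mul_add _ hlt, Nat.testBit_two_pow_sub_one]
  by_cases h1 : j < c
  · simp [h1, Nat.not_le.2 h1]
  · have h1' : c ≤ j := not_lt.1 h1
    rw [if_neg h1]
    by_cases h2 : j < c + q
    · have e1 : j - c < q + 1 := by omega
      have e2 : j - c < q := by omega
      simp [h1', e1, e2, h2]
    · by_cases h3 : j < c + q + 1
      · have e1 : j - c < q + 1 := by omega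
        have e2 : ¬ j - c < q := by omega
        simp [h1', e1, e2, h2, h3]
      · have e1 : ¬ j - c < q + 1 := by omega
        have e3 : j - c - (q + 1) = j - (c + q + 1) := by omega
        simp [h1', e1, h2, h3, e3]

private theorem pd_V1 (q c t j : ℕ) : (2 ^ (c + q + 1) * t).testBit j =
    if j < c + q + 1 then false else t.testBit (j - (c + q + 1)) := by
  rw [Nat.testBit_two_pow_mul]
  by_cases h1 : j < c + q + 1
  · have h2 : ¬ (c + q + 1 ≤ j) := not_le.2 h1
    rw [if_pos h1]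
    simp only [ge_iff_le, h2, decide_false, Bool.false_and]
  · have h2 : c + q + 1 ≤ j := not_lt.1 h1
    rw [if_neg h1]
    simp only [ge_iff_le, h2, decide_true, Bool.true_and]

private theorem pd_hi {q c t j : ℕ} (h : c + q < j) :
    (2 ^ c * (2 ^ (q + 1) * t + (2 ^ q - 1))).testBit j = (2 ^ (c + q + 1) * t).testBit j := by
  rw [pd_V, pd_V1, if_neg (show ¬ j < c by omega), if_neg (show ¬ j < c + q by omega),
    if_neg (show ¬ j < c + q + 1 by omega)]

private theorem pd_mid {q c t j : ℕ} (h1 : c ≤ j) (h2 : j < c + q) :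
    (2 ^ c * (2 ^ (q + 1) * t + (2 ^ q - 1))).testBit j = true := by
  rw [pd_V, if_neg (by omega), if_pos h2]

private theorem pd_gap (q c t : ℕ) :
    (2 ^ c * (2 ^ (q + 1) * t + (2 ^ q - 1))).testBit (c + q) = false := by
  rw [pd_V, if_neg (by omega), if_neg (by omega), if_pos (by omega)]

private theorem pd_lo {q c t j : ℕ} (h1 : j < c) :
    (2 ^ c * (2 ^ (q + 1) * t + (2 ^ q - 1))).testBit j = false := by
  rw [pd_V, if_pos h1]

private theorem pd_lo1 {q c t j : ℕ} (h1 : j < c + q + 1) :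
    (2 ^ (c + q + 1) * t).testBit j = false := by
  rw [pd_V1, if_pos h1]

private theorem pd_div (q c t : ℕ) :
    (2 ^ c * (2 ^ (q + 1) * t + (2 ^ q - 1))) / 2 ^ (c + q) = 2 * t := by
  rw [V_eq]
  have e : 2 ^ (c + q + 1) * t = 2 ^ (c + q) * (2 * t) := by
    rw [pow_succ]; ring
  rw [e, Nat.mul_add_div (by positivity), Nat.div_eq_of_lt (low_lt q c), add_zero]

private theorem pd_div1 (q c t : ℕ) : (2 ^ (c + q + 1) * t) / 2 ^ (c + q) = 2 * t := by
  have e : 2 ^ (c + q + 1) * t = 2 ^ (c + q) * (2 * t) := by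
    rw [pow_succ]; ring
  rw [e, Nat.mul_div_cancel_left _ (by positivity)]

private theorem pd_div_hi {q c t e : ℕ} (h : c + q ≤ e) :
    (2 ^ c * (2 ^ (q + 1) * t + (2 ^ q - 1))) / 2 ^ e = (2 ^ (c + q + 1) * t) / 2 ^ e := by
  obtain ⟨d, rfl⟩ := Nat.exists_eq_add_of_le h
  rw [pow_add 2 (c + q) d, ← Nat.div_div_eq_div_mul, ← Nat.div_div_eq_div_mul, pd_div, pd_div1]

/-- a run of `V1` is a run of `V` -/
private theorem pd_run {q c t c' q' : ℕ} (hq : 3 ≤ q')
    (h1 : ∀ i < q', (2 ^ (c + q + 1) * t).testBit (c' + i) = true)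
    (h2 : (2 ^ (c + q + 1) * t).testBit (c' + q') = false)
    (h3 : c' = 0 ∨ (2 ^ (c + q + 1) * t).testBit (c' - 1) = false) :
    c + q < c' ∧ (∀ i < q', (2 ^ c * (2 ^ (q + 1) * t + (2 ^ q - 1))).testBit (c' + i) = true) ∧
      (2 ^ c * (2 ^ (q + 1) * t + (2 ^ q - 1))).testBit (c' + q') = false ∧
      (c' = 0 ∨ (2 ^ c * (2 ^ (q + 1) * t + (2 ^ q - 1))).testBit (c' - 1) = false) := by
  have hc : c + q < c' := by
    by_contra hcon
    have h4 := h1 0 (by omega)
    rw [pd_lo1 (by omega)] at h4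
    exact Bool.false_ne_true h4
  refine ⟨hc, fun i hi => ?_, ?_, ?_⟩
  · rw [pd_hi (by omega)]
    exact h1 i hi
  · rw [pd_hi (by omega)]
    exact h2
  · right
    by_cases h5 : c' - 1 = c + q
    · rw [h5, pd_gap]
    · rw [pd_hi (by omega)]
      rcases h3 with h3 | h3
      · omega
      · exact h3

theorem long_high {k q c t m : ℕ}
    (h : LongTop k (2 ^ c * (2 ^ (q + 1) * t + (2 ^ q - 1))) m) :
    LongTop k (2 ^ (c + q + 1) * t) m := by
  intro c' q' hq' h1 h2 h3 h4
  obtain ⟨hc, h5, h6, h7⟩ := pd_run hq' h1 h2 h3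
  have h8 := pd_div_hi (q := q) (c := c) (t := t) (e := c' + q') (by omega)
  rw [← h8] at h4 ⊢
  exact h c' q' hq' h5 h6 h7 h4

theorem long_low {k q c t m : ℕ}
    (h : LongTop k (2 ^ c * (2 ^ (q + 1) * t + (2 ^ q - 1))) m) (hq : 3 ≤ q)
    (hm : ds t + 2 ≤ m) : ds t + q ≤ m ∧ (4 ≤ q → c + q - 1 + q * (q - 1) / 2 ≤ k) := by
  have h1 := h c q hq (fun i hi => pd_mid (by omega) (by omega)) (pd_gap q c t) (by
    by_cases hc : c = 0
    · exact Or.inl hc
    · exact Or.inr (pd_lo (by omega)))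
  rw [pd_div, ds_two_mul] at h1
  exact h1 hm

theorem ds_div_add2 {V c q : ℕ} (h : ∀ i < q, V.testBit (c + i) = true) :
    ds (V / 2 ^ (c + q)) + q ≤ ds V := by
  have h1 : ds V = ds (V / 2 ^ c) + ds (V % 2 ^ c) := by
    conv_lhs => rw [← Nat.div_add_mod V (2 ^ c)]
    exact ds_two_pow_mul_add _ _ _ (Nat.mod_lt _ (by positivity))
  have h2 : (V / 2 ^ c) % 2 ^ q = 2 ^ q - 1 := by
    apply Nat.eq_of_testBit_eq
    intro i
    rw [Nat.testBit_mod_two_pow, Nat.testBit_two_pow_sub_one, Nat.testBit_div_two_pow]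
    by_cases hi : i < q
    · rw [Nat.add_comm i c, h i hi]
      simp
    · simp [hi]
  have h3 : ds (V / 2 ^ c) = ds (V / 2 ^ (c + q)) + q := by
    conv_lhs => rw [← Nat.div_add_mod (V / 2 ^ c) (2 ^ q)]
    rw [ds_two_pow_mul_add _ _ _ (Nat.mod_lt _ (by positivity)), h2, ds_two_pow_sub_one,
      Nat.div_div_eq_div_mul, ← pow_add]
  omega

theorem long_all_of_top {k V m : ℕ} (h : LongTop k V m) (hm : ds V ≤ m) : LongAll k V := by
  intro c q hq h1 h2 h3
  have h4 := ds_div_add2 h1
  exact (h c q hq h1 h2 h3 (by omega)).2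

theorem longall_high {k q c t : ℕ}
    (h : LongAll k (2 ^ c * (2 ^ (q + 1) * t + (2 ^ q - 1)))) :
    LongAll k (2 ^ (c + q + 1) * t) := by
  intro c' q' hq' h1 h2 h3
  obtain ⟨hc, h5, h6, h7⟩ := pd_run hq' h1 h2 h3
  exact h c' q' hq' h5 h6 h7

theorem longall_low {k q c t : ℕ}
    (h : LongAll k (2 ^ c * (2 ^ (q + 1) * t + (2 ^ q - 1)))) (hq : 3 ≤ q) :
    (4 ≤ q → c + q - 1 + q * (q - 1) / 2 ≤ k) := by
  exact h c q hq (fun i hi => pd_mid (by omega) (by omega)) (pd_gap q c t) (by
    by_cases hc : c = 0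
    · exact Or.inl hc
    · exact Or.inr (pd_lo (by omega)))

theorem longall_join {k q c t : ℕ} (h : LongAll k (2 ^ (c + q + 1) * t))
    (hl : 3 ≤ q → (4 ≤ q → c + q - 1 + q * (q - 1) / 2 ≤ k)) :
    LongAll k (2 ^ c * (2 ^ (q + 1) * t + (2 ^ q - 1))) := by
  intro c' q' hq' h1 h2 h3
  have hc0 : c ≤ c' := by
    by_contra hcon
    have h4 := h1 0 (by omega)
    rw [add_zero, pd_lo (by omega)] at h4
    exact Bool.false_ne_true h4
  rcases Nat.lt_or_ge (c + q) c' with hc | hc
  · refine h c' q' hq' (fun i hi => ?_) ?_ ?_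
    · rw [← pd_hi (by omega)]
      exact h1 i hi
    · rw [← pd_hi (by omega)]
      exact h2
    · right
      by_cases h5 : c' - 1 = c + q
      · exact pd_lo1 (by omega)
      · rw [← pd_hi (by omega)]
        rcases h3 with h3 | h3
        · omega
        · exact h3
  · have hne : c' ≠ c + q := by
      intro h5
      have h4 := h1 0 (by omega)
      rw [add_zero, h5, pd_gap] at h4
      exact Bool.false_ne_true h4
    have hcc : c' = c := by
      by_contra hcon
      rcases h3 with h3 | h3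
      · omega
      · rw [pd_mid (by omega) (by omega)] at h3
        exact Bool.false_ne_true h3.symm
    subst hcc
    have hqq : q' = q := by
      rcases Nat.lt_trichotomy q' q with h5 | h5 | h5
      · rw [pd_mid (by omega) (by omega)] at h2
        exact absurd h2.symm Bool.false_ne_true
      · exact h5
      · have h4 := h1 q h5
        rw [pd_gap] at h4
        exact absurd h4 Bool.false_ne_true
    subst hqq
    exact hl hq'


end Pool.Agent.GR72
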