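/-
GR72/Stab: if the cliques are large then `v` is a sum of `q` sign functions (needs the stubs of
CliqueB, CliqueLoc, ExFunc; RDBase).
`K a`, `s a` from exists_loc for `D a` (`2 ≤ N ≤ finrank (D a)`: `2 ≤ 2 q < 2^N` gives `N ≥ 2`).
 (1) For `a ≠ b`: `D b ≤ K a` (loc_le), so `s a` is `D b`-periodic (loc_per).  Hence
     `R = v - ∑_{a ∈ A} s a` is `D a`-periodic for every `a ∈ A` (`Loc.per` for `v - s a`), so it is
     periodic for `T = ⨆_{a ∈ A} D a`.  `R 0 = q - q = 0` (loc_zero), so `R = 0` on `T`.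
 (2) `n a` = number of elements of `T ⊓ K a`; `D a ≤ T`, `Disjoint (K a) (D a)`, so
     `n a * 2^N ≤ |T|` (`Submodule.finrank_sup_add_finrank_inf_eq` for `T ⊓ K a` and `D a`).
     For every `x`: `|∑_{z ∈ T} s a (x + z)| ≤ n a`: the set `{z ∈ T | x + z ∈ K a}` is empty or a
     coset of `T ⊓ K a`, the same for `{z ∈ T | x + z + g ∈ K a}`, and both sums are between `0` and
     `n a`.
 (3) `∑_{z ∈ T} v z = ∑_a ∑_{z ∈ T} s a z ≤ ∑_a n a` by (1); `0 ≤ ∑_{z ∈ T} v (x + z) ≤ ∑_{z ∈ T} v z`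
     by coset_le.  So `|T| * |R x| = |∑_{z ∈ T} R (x + z)| ≤ 2 ∑_a n a`, and
     `2^N * |T| * |R x| ≤ 2 q |T| < 2^N |T|`, so `R x = 0`.
-/
import Pool.Agent.GR72.CliqueB
import Pool.Agent.GR72.CliqueLoc

namespace Pool.Agent.GR72

open Module

variable {W : Type} [AddCommGroup W] [Module (ZMod 2) W] [Finite W]

private theorem ind_nonneg (K : Submodule (ZMod 2) W) (x : W) : 0 ≤ ind K x := by
  unfold ind
  split_ifs
  · exact zero_le_one
  · exact le_rfl

/-- sum over a coset -/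
private noncomputable def cs (T : Submodule (ZMod 2) W) (f : W → ℤ) (x : W) : ℤ :=
  ∑ᶠ y, ind T y * f (x + y)

private theorem cs_sub (T : Submodule (ZMod 2) W) (f g : W → ℤ) (x : W) :
    cs T (fun y => f y - g y) x = cs T f x - cs T g x := by
  have := Fintype.ofFinite W
  unfold cs
  rw [finsum_eq_sum_of_fintype, finsum_eq_sum_of_fintype, finsum_eq_sum_of_fintype,
    ← Finset.sum_sub_distrib]
  exact Finset.sum_congr rfl fun y _ => by ring

private theorem cs_sum (T : Submodule (ZMod 2) W) (A : Finset W) (s : W → W → ℤ) (x : W) :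
    cs T (fun y => ∑ a ∈ A, s a y) x = ∑ a ∈ A, cs T (s a) x := by
  have := Fintype.ofFinite W
  unfold cs
  simp only [finsum_eq_sum_of_fintype]
  rw [Finset.sum_comm]
  exact Finset.sum_congr rfl fun y _ => by rw [Finset.mul_sum]

private theorem cs_nonneg (T : Submodule (ZMod 2) W) {f : W → ℤ} (hf : ∀ x, 0 ≤ f x) (x : W) :
    0 ≤ cs T f x :=
  finsum_nonneg fun y => mul_nonneg (ind_nonneg T y) (hf _)

private theorem cs_le {f : W → ℤ} (hf : Psd f) (T : Submodule (ZMod 2) W) (x : W) :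
    cs T f x ≤ cs T f 0 := by
  have h := coset_le hf T x
  unfold cs
  simp only [zero_add]
  exact h

private theorem cs_congr (T : Submodule (ZMod 2) W) {f g : W → ℤ} {x : W}
    (h : ∀ y ∈ T, f (x + y) = g (x + y)) : cs T f x = cs T g x := by
  unfold cs
  refine finsum_congr fun y => ?_
  by_cases hy : y ∈ T
  · rw [h y hy]
  · have h1 : ind T y = 0 := by
      unfold ind
      exact if_neg hy
    rw [h1, zero_mul, zero_mul]

private theorem cs_const (T : Submodule (ZMod 2) W) (c : ℤ) (x : W) :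
    cs T (fun _ => c) x = 2 ^ finrank (ZMod 2) T * c := by
  have := Fintype.ofFinite W
  rw [← tot_ind, tot_eq_sum]
  unfold cs
  rw [finsum_eq_sum_of_fintype, Finset.sum_mul]

private theorem cs_ind_le (T K : Submodule (ZMod 2) W) (x : W) :
    cs T (ind K) x ≤ 2 ^ finrank (ZMod 2) (T ⊓ K : Submodule (ZMod 2) W) := by
  have := Fintype.ofFinite W
  refine (cs_le (psd_ind K) T x).trans (le_of_eq ?_)
  rw [← tot_ind, tot_eq_sum]
  unfold cs
  rw [finsum_eq_sum_of_fintype]
  refine Finset.sum_congr rfl fun y _ => ?_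
  rw [zero_add]
  unfold ind
  by_cases h1 : y ∈ T
  · by_cases h2 : y ∈ K
    · rw [if_pos h1, if_pos h2, if_pos (Submodule.mem_inf.2 ⟨h1, h2⟩), one_mul]
    · rw [if_pos h1, if_neg h2, if_neg (fun h => h2 (Submodule.mem_inf.1 h).2), mul_zero]
  · rw [if_neg h1, if_neg (fun h => h1 (Submodule.mem_inf.1 h).1), zero_mul]

private theorem cs_shift (T : Submodule (ZMod 2) W) (f : W → ℤ) (g x : W) :
    cs T (fun y => f (y + g)) x = cs T f (x + g) := by
  unfold cs
  refine finsum_congr fun y => ?_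
  show ind T y * f (x + y + g) = ind T y * f (x + g + y)
  rw [show x + y + g = x + g + y by abel]

private theorem cs_loc {v : W → ℤ} {D K : Submodule (ZMod 2) W} {s : W → ℤ} (h : Loc v D K s)
    (T : Submodule (ZMod 2) W) (x : W) :
    cs T s x ≤ 2 ^ finrank (ZMod 2) (T ⊓ K : Submodule (ZMod 2) W) ∧
      -(2 ^ finrank (ZMod 2) (T ⊓ K : Submodule (ZMod 2) W)) ≤ cs T s x := by
  have h1 : ∀ z, 0 ≤ cs T (ind K) z := cs_nonneg T (ind_nonneg K)
  have h2 := cs_ind_le T K
  rcases h.form with ⟨hs, -⟩ | ⟨g, -, hs, -⟩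
  · have h3 : s = ind K := funext hs
    rw [h3]
    exact ⟨h2 x, by linarith [h1 x, h2 x]⟩
  · have h3 : s = fun y => ind K y - ind K (y + g) := funext hs
    rw [h3, cs_sub, cs_shift]
    exact ⟨by linarith [h1 (x + g), h2 x], by linarith [h1 x, h2 (x + g)]⟩

theorem stab {v : W → ℤ} (hv : Psd v) (hnn : ∀ x, 0 ≤ v x) {q N : ℕ} (h0 : v 0 = q)
    (hq : 1 ≤ q) {A : Finset W} {D : W → Submodule (ZMod 2) W} (hA : Cliques v q N A D)
    (hN : 2 * q < 2 ^ N) :
    ∃ (K : W → Submodule (ZMod 2) W) (s : W → W → ℤ), (∀ a ∈ A, Loc v (D a) (K a) (s a)) ∧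
      ∀ x, v x = ∑ a ∈ A, s a x := by
  classical
  have hN2 : 2 ≤ N := by
    by_contra hcon
    have h1 : N = 0 ∨ N = 1 := by omega
    rcases h1 with rfl | rfl
    · omega
    · omega
  have hex : ∀ a : W, ∃ (K : Submodule (ZMod 2) W) (s : W → ℤ), a ∈ A → Loc v (D a) K s := by
    intro a
    by_cases ha : a ∈ A
    · obtain ⟨K, s, h⟩ := exists_loc hv (hA.val a ha) (hN2.trans (hA.dim a ha))
      exact ⟨K, s, fun _ => h⟩
    · exact ⟨⊥, 0, fun h => absurd h ha⟩
  choose K s hKs using hex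
  refine ⟨K, s, hKs, ?_⟩
  have hle : ∀ a ∈ A, ∀ b ∈ A, a ≠ b → D b ≤ K a := by
    intro a ha b hb hab
    exact loc_le (hKs a ha) (hA.val a ha) (hA.val b hb) (hA.cross b hb a ha (Ne.symm hab))
  set R : W → ℤ := fun x => v x - ∑ a ∈ A, s a x with hR
  let P : Submodule (ZMod 2) W :=
    { carrier := {x | ∀ y, R (y + x) = R y}
      add_mem' := by
        intro x x' hx hx' y
        rw [← add_assoc, hx', hx]
      zero_mem' := by
        intro y
        rw [add_zero]
      smul_mem' := by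
        intro c x hx y
        rcases zmod_cases c with rfl | rfl
        · rw [zero_smul, add_zero]
        · rw [one_smul]
          exact hx y }
  have hDP : ∀ a ∈ A, D a ≤ P := by
    intro a ha x hx y
    have h1 := (hKs a ha).per y x hx
    have h2 : ∀ b ∈ A.erase a, s b (y + x) = s b y := by
      intro b hb
      rw [Finset.mem_erase] at hb
      exact loc_per (hKs b hb.2) (hle b hb.2 a ha hb.1 hx) y
    show v (y + x) - ∑ a ∈ A, s a (y + x) = v y - ∑ a ∈ A, s a y
    rw [← Finset.add_sum_erase A (fun a => s a (y + x)) ha,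
      ← Finset.add_sum_erase A (fun a => s a y) ha, Finset.sum_congr rfl h2]
    linarith
  set T : Submodule (ZMod 2) W := ⨆ a ∈ A, D a with hT
  have hTP : T ≤ P := iSup₂_le hDP
  have hDT : ∀ a ∈ A, D a ≤ T := fun a ha => le_biSup D ha
  have hR0 : R 0 = 0 := by
    show v 0 - ∑ a ∈ A, s a 0 = 0
    rw [Finset.sum_congr rfl fun a ha => loc_zero (hKs a ha), h0, Finset.sum_const, hA.card]
    simp
  have hRT : ∀ t ∈ T, R t = 0 := by
    intro t ht
    have h1 := hTP ht 0
    rwa [zero_add, hR0] at h1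
  set n : W → ℤ := fun a => 2 ^ finrank (ZMod 2) (T ⊓ K a : Submodule (ZMod 2) W) with hn
  set t : ℤ := 2 ^ finrank (ZMod 2) T with ht
  have htpos : 0 < t := by rw [ht]; positivity
  have hnt : ∀ a ∈ A, 2 ^ N * n a ≤ t := by
    intro a ha
    have h1 : (T ⊓ K a) ⊓ D a = ⊥ := by
      rw [eq_bot_iff]
      intro x hx
      have h2 := (hKs a ha).disj
      rw [Submodule.disjoint_def] at h2
      exact (Submodule.mem_bot _).2 (h2 x (Submodule.mem_inf.1 (Submodule.mem_inf.1 hx).1).2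
        (Submodule.mem_inf.1 hx).2)
    have h2 := Submodule.finrank_sup_add_finrank_inf_eq (T ⊓ K a) (D a)
    rw [h1, finrank_bot, add_zero] at h2
    have h3 : finrank (ZMod 2) ((T ⊓ K a) ⊔ D a : Submodule (ZMod 2) W) ≤
        finrank (ZMod 2) T :=
      Submodule.finrank_mono (sup_le inf_le_left (hDT a ha))
    have h4 := hA.dim a ha
    rw [hn, ht, ← pow_add]
    exact pow_le_pow_right₀ (by norm_num) (by omega)
  have hnpos : ∀ a, 0 < n a := by
    intro a
    rw [hn]
    positivity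
  have hcsR : ∀ x, cs T R x = t * R x := by
    intro x
    rw [ht, ← cs_const T (R x) x]
    refine cs_congr T fun y hy => ?_
    exact hTP hy x
  have hcsv : ∀ x, cs T v x = t * R x + ∑ a ∈ A, cs T (s a) x := by
    intro x
    rw [← hcsR, ← cs_sum, hR, cs_sub]
    ring
  have hv0 : cs T v 0 ≤ ∑ a ∈ A, n a := by
    rw [hcsv, hR0, mul_zero, zero_add]
    exact Finset.sum_le_sum fun a ha => (cs_loc (hKs a ha) T 0).1
  have hsum : 2 ^ N * ∑ a ∈ A, n a ≤ q * t := by
    rw [Finset.mul_sum]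
    refine (Finset.sum_le_sum hnt).trans (le_of_eq ?_)
    rw [Finset.sum_const, hA.card]
    simp
  intro x
  have h1 := cs_nonneg T hnn x
  have h2 := cs_le hv T x
  have h3 : ∑ a ∈ A, cs T (s a) x ≤ ∑ a ∈ A, n a :=
    Finset.sum_le_sum fun a ha => (cs_loc (hKs a ha) T x).1
  have h4 : -(∑ a ∈ A, n a) ≤ ∑ a ∈ A, cs T (s a) x := by
    rw [← Finset.sum_neg_distrib]
    exact Finset.sum_le_sum fun a ha => (cs_loc (hKs a ha) T x).2
  have h5 := hcsv x
  have h6 : |t * R x| ≤ 2 * ∑ a ∈ A, n a := by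
    have h7 : 0 ≤ ∑ a ∈ A, n a := Finset.sum_nonneg fun a _ => (hnpos a).le
    rw [abs_le]
    constructor
    · linarith
    · linarith
  have hRx : R x = 0 := by
    by_contra hne
    have h7 : 1 ≤ |R x| := Int.one_le_abs hne
    have h8 : t ≤ |t * R x| := by
      rw [abs_mul, abs_of_pos htpos]
      nlinarith
    have h9 : (2 : ℤ) ^ N * t ≤ 2 * (q * t) := by
      calc (2 : ℤ) ^ N * t ≤ 2 ^ N * (2 * ∑ a ∈ A, n a) :=
            mul_le_mul_of_nonneg_left (h8.trans h6) (by positivity)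
        _ = 2 * (2 ^ N * ∑ a ∈ A, n a) := by ring
        _ ≤ 2 * (q * t) := by linarith
    have h10 : (2 * q : ℤ) < 2 ^ N := by exact_mod_cast hN
    nlinarith
  have h11 : v x - ∑ a ∈ A, s a x = 0 := hRx
  linarith

end Pool.Agent.GR72
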