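/-
GR72/Top: the top ones are the cheapest (needs only CostDefs; Mathlib lists).
* `topcost_le`: let `L = V.bitIndices.reverse` (strictly decreasing, `Nat.bitIndices_sorted`).
  General claim for a strictly decreasing list `L` and `I ⊆ L.toFinset` with `m` elements:
  `((L.take m).map (fun j => k - j)).sum ≤ ∑ j ∈ I, (k - j)`.  Induction on `L = a :: L'`:
  `m = 0` clear; if `a ∈ I` apply the induction hypothesis to `I.erase a`, `m - 1`; if `a ∉ I` choose
  `j₀ ∈ I` (so `j₀ < a`, `k - a ≤ k - j₀`) and apply it to `I.erase j₀`, `m - 1`.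
* `topcost_two`: `V = 3 * 2^(k-2) + R`, `R < 2^(k-2)`, `k ≥ 2`: `V.bitIndices = R.bitIndices ++
  [k-2, k-1]`, so `L = (k-1) :: (k-2) :: R.bitIndices.reverse`, and `(k - (k-1)) + (k - (k-2)) = 3`.
  (E.g. `Nat.bitIndices` of a sum: prove `(2^e * a + b).bitIndices = b.bitIndices ++
  (a.bitIndices.map (· + e))` for `b < 2^e` by induction on `e`.)
* `mem_bits_lt`: `2^j ≤ V` for `j ∈ V.bitIndices` (`Nat.two_pow_le_of_mem_bitIndices`).
* `topcost_succ`: if `m < ds V` then the `(m+1)`-st element `j` of `L` exists and satisfies
  `j ≤ B` by hypothesis.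
-/
import Pool.Agent.GR72.CostDefs

namespace Pool.Agent.GR72

private theorem take_le_TP (k : ℕ) : ∀ (L : List ℕ), L.Pairwise (fun a b => b < a) →
    ∀ I : Finset ℕ, I ⊆ L.toFinset →
    ((L.take I.card).map (fun j => k - j)).sum ≤ ∑ j ∈ I, (k - j) := by
  intro L
  induction L with
  | nil =>
    intro _ I _
    simp
  | cons a L ih =>
    intro hL I hI
    rw [List.pairwise_cons] at hL
    rcases I.eq_empty_or_nonempty with rfl | hne
    · simp
    by_cases ha : a ∈ I
    · have hsub : I.erase a ⊆ L.toFinset := by
        intro x hx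
        rw [Finset.mem_erase] at hx
        have := hI hx.2
        rw [List.mem_toFinset, List.mem_cons] at this
        rcases this with h | h
        · exact absurd h hx.1
        · exact List.mem_toFinset.2 h
      have h1 := ih hL.2 (I.erase a) hsub
      have hc : I.card = (I.erase a).card + 1 := (Finset.card_erase_add_one ha).symm
      rw [hc, List.take_succ_cons, List.map_cons, List.sum_cons, ← Finset.add_sum_erase I _ ha]
      exact Nat.add_le_add_left h1 _
    · obtain ⟨j₀, hj⟩ := hne
      have hmem : ∀ x ∈ I, x ∈ L := by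
        intro x hx
        have := hI hx
        rw [List.mem_toFinset, List.mem_cons] at this
        rcases this with h | h
        · rw [h] at hx
          exact absurd hx ha
        · exact h
      have hsub : I.erase j₀ ⊆ L.toFinset := by
        intro x hx
        rw [Finset.mem_erase] at hx
        exact List.mem_toFinset.2 (hmem x hx.2)
      have h1 := ih hL.2 (I.erase j₀) hsub
      have hc : I.card = (I.erase j₀).card + 1 := (Finset.card_erase_add_one hj).symm
      rw [hc, List.take_succ_cons, List.map_cons, List.sum_cons, ← Finset.add_sum_erase I _ hj]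
      have h2 := hL.1 j₀ (hmem j₀ hj)
      exact Nat.add_le_add (by omega) h1

private theorem bits_add_TP : ∀ (e a b : ℕ), b < 2 ^ e →
    (2 ^ e * a + b).bitIndices = b.bitIndices ++ a.bitIndices.map (· + e) := by
  intro e
  induction e with
  | zero =>
    intro a b hb
    have : b = 0 := by simpa using hb
    subst this
    simp
  | succ e ih =>
    intro a b hb
    rw [pow_succ] at hb
    have hmap : (a.bitIndices.map (· + (e + 1))) =
        (a.bitIndices.map (· + e)).map (· + 1) := by
      rw [List.map_map]
      apply List.map_congr_left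
      intro x _
      simp only [Function.comp_apply]
      ring
    rcases Nat.even_or_odd' b with ⟨b', rfl | rfl⟩
    · have e1 : 2 ^ (e + 1) * a + 2 * b' = 2 * (2 ^ e * a + b') := by ring
      rw [e1, Nat.bitIndices_two_mul, Nat.bitIndices_two_mul, ih a b' (by omega), List.map_append,
        hmap]
    · have e1 : 2 ^ (e + 1) * a + (2 * b' + 1) = 2 * (2 ^ e * a + b') + 1 := by ring
      rw [e1, Nat.bitIndices_two_mul_add_one, Nat.bitIndices_two_mul_add_one,
        ih a b' (by omega), List.map_append, hmap, List.cons_append]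

private theorem rev_pair_TP (V : ℕ) : V.bitIndices.reverse.Pairwise (fun a b => b < a) := by
  rw [List.pairwise_reverse]
  exact Nat.bitIndices_sorted.pairwise

theorem mem_bits_lt {V k j : ℕ} (hV : V < 2 ^ k) (hj : j ∈ V.bitIndices) : j < k := by
  have h := Nat.two_pow_le_of_mem_bitIndices hj
  exact (Nat.pow_lt_pow_iff_right (by norm_num)).1 (lt_of_le_of_lt h hV)

theorem card_bits (V : ℕ) : V.bitIndices.toFinset.card = ds V := by
  exact List.toFinset_card_of_nodup Nat.bitIndices_nodup

theorem topcost_le {k V : ℕ} (I : Finset ℕ) (hI : I ⊆ V.bitIndices.toFinset) :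
    topcost k V I.card ≤ ∑ j ∈ I, (k - j) := by
  unfold topcost
  refine take_le_TP k _ (rev_pair_TP V) I ?_
  rw [List.toFinset_reverse]
  exact hI

theorem topcost_two {k R m : ℕ} (hk : 2 ≤ k) (hR : R < 2 ^ (k - 2)) :
    topcost k (3 * 2 ^ (k - 2) + R) (m + 2) = 3 + topcost k R m := by
  unfold topcost
  have h3 : (3 : ℕ).bitIndices = [0, 1] := by
    have : (3 : ℕ) = 2 * 1 + 1 := rfl
    rw [this, Nat.bitIndices_two_mul_add_one, Nat.bitIndices_one]
    rfl
  have e : (3 * 2 ^ (k - 2) + R).bitIndices.reverse =
      (1 + (k - 2)) :: (0 + (k - 2)) :: R.bitIndices.reverse := by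
    rw [Nat.mul_comm, bits_add_TP _ _ _ hR, h3, List.reverse_append]
    rfl
  rw [e, List.take_succ_cons, List.take_succ_cons, List.map_cons, List.map_cons, List.sum_cons,
    List.sum_cons]
  omega

theorem topcost_succ {k V m B : ℕ} (hm : m < ds V) (hB : ∀ j ∈ V.bitIndices, j + B ≤ k) :
    topcost k V m + B ≤ topcost k V (m + 1) := by
  unfold topcost
  have hm' : m < V.bitIndices.reverse.length := by
    rw [List.length_reverse]
    exact hm
  rw [List.take_succ_eq_append_getElem hm', List.map_append, List.sum_append]
  have hmem : V.bitIndices.reverse[m] ∈ V.bitIndices :=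
    List.mem_reverse.1 (List.getElem_mem hm')
  have := hB _ hmem
  simp only [List.map_cons, List.map_nil, List.sum_cons, List.sum_nil]
  omega

/-- If all `j` are `< k` then `k (number of terms) = cost + sum of the j`. -/
theorem topcost_add {k V m : ℕ} (hV : V < 2 ^ k) (hm : m ≤ ds V) :
    topcost k V m + (V.bitIndices.reverse.take m).sum = m * k := by
  have gen : ∀ T : List ℕ, (∀ j ∈ T, j < k) →
      (T.map (fun j => k - j)).sum + T.sum = T.length * k := by
    intro T
    induction T with
    | nil =>
      intro _
      simp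
    | cons a T ih =>
      intro h
      have h1 := ih (fun j hj => h j (List.mem_cons_of_mem _ hj))
      have h2 := h a List.mem_cons_self
      rw [List.map_cons, List.sum_cons, List.sum_cons, List.length_cons, Nat.add_mul, Nat.one_mul]
      omega
  have h := gen (V.bitIndices.reverse.take m) (fun j hj =>
    mem_bits_lt hV (List.mem_reverse.1 (List.mem_of_mem_take hj)))
  unfold topcost
  rw [h, List.length_take, List.length_reverse]
  unfold ds at hm
  rw [min_eq_left hm]

theorem exps_eq (D : ℕ) : exps D = (2 * D).bitIndices.reverse := by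
  unfold exps
  rw [Nat.bitIndices_two_mul]

/-- The correction in the form used in the main theorem. -/
theorem eps_iff {k D : ℕ} (hk : 1 ≤ k) (hD : D < 2 ^ (k - 1)) :
    eps k (2 * D) = if (exps D).take 2 = [k - 1, k - 2] then 1 else 0 := by
  rw [exps_eq]
  unfold eps
  have hV : 2 * D < 2 ^ k := by
    obtain ⟨n, rfl⟩ : ∃ n, k = n + 1 := ⟨k - 1, by omega⟩
    rw [Nat.add_sub_cancel] at hD
    rw [pow_succ]
    omega
  have hiff : ((2 * D).testBit (k - 1) = true ∧ (2 * D).testBit (k - 2) = true) ↔
      (2 * D).bitIndices.reverse.take 2 = [k - 1, k - 2] := by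
    constructor
    · rintro ⟨h1, h2⟩
      rcases Nat.lt_or_ge k 2 with hk2 | hk2
      · exfalso
        have hk1 : k = 1 := by omega
        subst hk1
        have : D = 0 := by simpa using hD
        subst this
        simp at h1
      have hp := rev_pair_TP (2 * D)
      have hlt : ∀ j ∈ (2 * D).bitIndices.reverse, j < k := fun j hj =>
        mem_bits_lt hV (List.mem_reverse.1 hj)
      have m1 : (k - 1) ∈ (2 * D).bitIndices.reverse :=
        List.mem_reverse.2 (Nat.mem_bitIndices.2 h1)
      have m2 : (k - 2) ∈ (2 * D).bitIndices.reverse :=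
        List.mem_reverse.2 (Nat.mem_bitIndices.2 h2)
      generalize (2 * D).bitIndices.reverse = L at hp hlt m1 m2 ⊢
      match L, hp, hlt, m1, m2 with
      | [], _, _, m1, _ => exact absurd m1 (List.not_mem_nil)
      | a :: L, hp, hlt, m1, m2 =>
        rw [List.pairwise_cons] at hp
        have ha : a = k - 1 := by
          rcases List.mem_cons.1 m1 with h | h
          · exact h.symm
          · have h5 := hp.1 _ h
            have h6 := hlt a List.mem_cons_self
            omega
        subst ha
        rcases List.mem_cons.1 m2 with h | h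
        · omega
        match L, hp, hlt, h with
        | [], _, _, h => exact absurd h (List.not_mem_nil)
        | b :: L, hp, hlt, h =>
          have hb : b = k - 2 := by
            rcases List.mem_cons.1 h with h' | h'
            · exact h'.symm
            · have h5 := (List.pairwise_cons.1 hp.2).1 _ h'
              have h6 := hp.1 b List.mem_cons_self
              omega
          rw [hb]
          rfl
    · intro h
      have m1 : (k - 1) ∈ (2 * D).bitIndices.reverse :=
        List.mem_of_mem_take (by rw [h]; exact List.mem_cons_self)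
      have m2 : (k - 2) ∈ (2 * D).bitIndices.reverse :=
        List.mem_of_mem_take (by rw [h]; exact List.mem_cons_of_mem _ List.mem_cons_self)
      exact ⟨Nat.mem_bitIndices.1 (List.mem_reverse.1 m1),
        Nat.mem_bitIndices.1 (List.mem_reverse.1 m2)⟩
  by_cases h : (2 * D).bitIndices.reverse.take 2 = [k - 1, k - 2]
  · rw [if_pos h, if_pos (hiff.2 h)]
  · rw [if_neg h, if_neg (fun h' => h (hiff.1 h'))]

/-- If the two top digits are ones and there are no three consecutive ones. -/
theorem top_form {k V : ℕ} (hk : 3 ≤ k) (hV : V < 2 ^ k) (h3 : NoThreeOnes V)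
    (he : eps k V = 1) : ∃ R, V = 3 * 2 ^ (k - 2) + R ∧ R < 2 ^ (k - 3) := by
  obtain ⟨n, rfl⟩ : ∃ n, k = n + 3 := ⟨k - 3, by omega⟩
  have e1 : n + 3 - 1 = n + 2 := by omega
  have e2 : n + 3 - 2 = n + 1 := by omega
  have e3 : n + 3 - 3 = n := by omega
  unfold eps at he
  rw [e1, e2] at he
  rw [e2, e3]
  by_cases hc : V.testBit (n + 2) = true ∧ V.testBit (n + 1) = true
  · have h0 : ¬ V.testBit n = true := fun h => h3 n ⟨h, hc.2, hc.1⟩
    have hw : V / 2 ^ n < 8 := by
      rw [Nat.div_lt_iff_lt_mul (by positivity)]
      rw [pow_add] at hV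
      omega
    have t2 : (V / 2 ^ n).testBit 2 = true := by
      rw [Nat.testBit_div_two_pow, Nat.add_comm]
      exact hc.1
    have t1 : (V / 2 ^ n).testBit 1 = true := by
      rw [Nat.testBit_div_two_pow, Nat.add_comm]
      exact hc.2
    have t0 : ¬ (V / 2 ^ n).testBit 0 = true := by
      rw [Nat.testBit_div_two_pow, Nat.zero_add]
      exact h0
    have h6 : V / 2 ^ n = 6 := by
      generalize V / 2 ^ n = w at hw t2 t1 t0
      interval_cases w <;> first | rfl | (exfalso; revert t2 t1 t0; decide)
    refine ⟨V % 2 ^ n, ?_, Nat.mod_lt _ (by positivity)⟩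
    have h7 := Nat.div_add_mod V (2 ^ n)
    rw [h6] at h7
    rw [pow_succ]
    omega
  · rw [if_neg hc] at he
    exact absurd he (by norm_num)

theorem no3_two_mul {D : ℕ} (h : NoThreeOnes D) : NoThreeOnes (2 * D) := by
  intro i hi
  rcases i with _ | j
  · have := hi.1
    simp at this
  · have key : ∀ m, (2 * D).testBit (m + 1) = D.testBit m := by
      intro m
      rw [Nat.testBit_succ]
      congr 1
      omega
    obtain ⟨h1, h2, h3⟩ := hi
    rw [key] at h1
    have e2 : j + 1 + 1 = (j + 1) + 1 := rfl
    rw [key] at h2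
    have e3 : j + 1 + 2 = (j + 2) + 1 := by omega
    rw [e3, key] at h3
    exact h j ⟨h1, h2, h3⟩

end Pool.Agent.GR72
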