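/-
GR72/RunSum: a sum of `q` sign functions which meets the Griesmer inequality is a sum of `q`
subspaces (needs the stubs of Stab, CliqueLoc; Digits, Basic, FullRun.runcost, Top.card_bits).
* `sum_pow_inj`: `κ : W → ℕ`, `∑_{a ∈ A} 2^(κ a) = n`, `card A ≤ ds n`.  Then `κ` is injective on `A` and
  `A.image κ = n.bitIndices.toFinset`.  Proof: for every finite set `B`,
  `ds (∑_{a ∈ B} 2^(κ a)) ≤ card B` (ds_add_le, ds_two_pow).  If `κ a = κ b`, `a ≠ b` in `A` then
  `n = 2^(κ a + 1) + ∑` over `A ∖ {a, b}`, so `ds n ≤ card A - 1`, contradiction.  So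
  `n = ∑_{j ∈ A.image κ} 2^j` and the image is `n.bitIndices.toFinset`
  (`Finset.toFinset_bitIndices_twoPowSum` or similar).
* `sum_cost`: with this, for `n = 2^c (2^q - 1)` and `κ a ≤ k`: `∑_{a ∈ A} (k - κ a) = runcost (k - c) q`
  (the elements of `n.bitIndices` are `c, ..., c + q - 1`: bits_run with `t = 0`).
* `run_sum_bound`: `tot v = ∑_a tot (s a)` and `tot (s a)` is `2^finrank (K a)` in the first case of
  `Loc.form` and `0` in the second (tot_ind, shift).  So with `B` the set of `a ∈ A` of the first kind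
  `2^c (2^q - 1) = ∑_{a ∈ B} 2^finrank (K a)`; `ds (2^c (2^q - 1)) = q`, so `card B ≥ q`, `B = A`.  Hence
  `v = ∑_{a ∈ A} ind (K a)`.  The intersection of the `K a` is `⊥` (there `v = q = v 0`, and
  `v x < v 0` for `x ≠ 0`), so `k ≤ ∑_{a ∈ A} (k - finrank (K a)) = runcost (k - c) q`
  (codimension of an intersection, induction over `A`).
-/
import Pool.Agent.GR72.Stab
import Pool.Agent.GR72.FullRun
import Pool.Agent.GR72.Top

namespace Pool.Agent.GR72

open Module

private theorem ds_sum_le {α : Type} [DecidableEq α] (B : Finset α) (κ : α → ℕ) :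
    ds (∑ a ∈ B, 2 ^ κ a) ≤ B.card := by
  induction B using Finset.induction_on with
  | empty => simp [ds_zero]
  | insert a B ha ih =>
    rw [Finset.sum_insert ha, Finset.card_insert_of_notMem ha]
    have h1 := ds_add_le (2 ^ κ a) (∑ x ∈ B, 2 ^ κ x)
    rw [ds_two_pow] at h1
    omega

private theorem bits_low (q c : ℕ) :
    (2 ^ c * (2 ^ q - 1)).bitIndices.toFinset = (Finset.range q).image (fun i => c + i) := by
  have h := bits_run q c 0
  rw [mul_zero, zero_add, mul_zero, Nat.bitIndices_zero, List.append_nil] at h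
  rw [h]
  ext j
  simp

private theorem ds_run (q c : ℕ) : ds (2 ^ c * (2 ^ q - 1)) = q := by
  rw [ds_two_pow_mul, ds_two_pow_sub_one]

theorem sum_pow_inj {α : Type} [DecidableEq α] {A : Finset α} {κ : α → ℕ} {n : ℕ}
    (h : ∑ a ∈ A, 2 ^ κ a = n) (hc : A.card ≤ ds n) :
    Set.InjOn κ A ∧ A.image κ = n.bitIndices.toFinset := by
  have hinj : Set.InjOn κ A := by
    intro a ha b hb hab
    by_contra hne
    have ha' : a ∈ A := ha
    have hb' : b ∈ A.erase a := Finset.mem_erase.2 ⟨fun h0 => hne h0.symm, hb⟩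
    have e1 : ∑ x ∈ A.erase a, 2 ^ κ x + 2 ^ κ a = ∑ x ∈ A, 2 ^ κ x :=
      Finset.sum_erase_add A _ ha'
    have e2 : ∑ x ∈ (A.erase a).erase b, 2 ^ κ x + 2 ^ κ b = ∑ x ∈ A.erase a, 2 ^ κ x :=
      Finset.sum_erase_add (A.erase a) _ hb'
    have e3 : n = ∑ x ∈ (A.erase a).erase b, 2 ^ κ x + 2 ^ (κ a + 1) := by
      rw [← h, ← e1, ← e2, ← hab, pow_succ]
      ring
    have h1 := ds_sum_le ((A.erase a).erase b) κ
    have h2 := ds_add_le (∑ x ∈ (A.erase a).erase b, 2 ^ κ x) (2 ^ (κ a + 1))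
    rw [← e3, ds_two_pow] at h2
    have c1 : (A.erase a).card + 1 = A.card := Finset.card_erase_add_one ha'
    have c2 : ((A.erase a).erase b).card + 1 = (A.erase a).card := Finset.card_erase_add_one hb'
    omega
  refine ⟨hinj, ?_⟩
  have h1 : ∑ j ∈ A.image κ, 2 ^ j = n := by
    rw [Finset.sum_image hinj, h]
  rw [← h1, Finset.toFinset_bitIndices_sum_two_pow]

theorem sum_cost {α : Type} [DecidableEq α] {A : Finset α} {κ : α → ℕ} {k c q : ℕ}
    (h : ∑ a ∈ A, 2 ^ κ a = 2 ^ c * (2 ^ q - 1)) (hc : A.card ≤ q) :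
    ∑ a ∈ A, (k - κ a) = runcost (k - c) q := by
  obtain ⟨h1, h2⟩ := sum_pow_inj h (by rw [ds_run]; exact hc)
  have e1 : ∑ a ∈ A, (k - κ a) = ∑ j ∈ A.image κ, (k - j) := (Finset.sum_image h1).symm
  rw [e1, h2, bits_low, Finset.sum_image (fun i _ j _ hij => by simpa using hij)]
  unfold runcost
  exact Finset.sum_congr rfl fun i _ => by omega

variable {W : Type} [AddCommGroup W] [Module (ZMod 2) W] [Finite W]

theorem run_sum_bound {v : W → ℤ} {q c : ℕ} (hv : Gr v (2 ^ c * (2 ^ q - 1)))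
    (hlt : ∀ x, x ≠ 0 → v x + 1 ≤ v 0) {A : Finset W} (hA : A.card = q)
    {D K : W → Submodule (ZMod 2) W} {s : W → W → ℤ} (hl : ∀ a ∈ A, Loc v (D a) (K a) (s a))
    (hs : ∀ x, v x = ∑ a ∈ A, s a x) :
    finrank (ZMod 2) W ≤ runcost (finrank (ZMod 2) W - c) q := by
  classical
  have := Fintype.ofFinite W
  -- total of the sign functions
  set B : Finset W := A.filter (fun a => ∀ y, s a y = ind (K a) y) with hB
  have ht1 : ∀ a ∈ B, tot (s a) = 2 ^ finrank (ZMod 2) (K a) := by
    intro a ha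
    have h1 := (Finset.mem_filter.1 ha).2
    rw [← tot_ind]
    congr 1
    funext y
    exact h1 y
  have ht2 : ∀ a ∈ A, a ∉ B → tot (s a) = 0 := by
    intro a ha hb
    rcases (hl a ha).form with ⟨h1, -⟩ | ⟨g, -, h1, -⟩
    · exact absurd (Finset.mem_filter.2 ⟨ha, h1⟩) hb
    · have e : s a = fun y => ind (K a) y - ind (K a) (y + g) := funext h1
      rw [e, tot_sub, sub_eq_zero, tot_eq_sum, tot_eq_sum]
      exact (Equiv.sum_comp (Equiv.addRight g) (fun y => ind (K a) y)).symm
  have htv : tot v = ∑ a ∈ A, tot (s a) := by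
    simp only [tot_eq_sum]
    rw [Finset.sum_comm]
    exact Finset.sum_congr rfl fun x _ => hs x
  have hsum : ∑ a ∈ B, 2 ^ finrank (ZMod 2) (K a) = 2 ^ c * (2 ^ q - 1) := by
    have h1 : ∑ a ∈ A, tot (s a) = ∑ a ∈ B, tot (s a) := by
      refine (Finset.sum_subset (Finset.filter_subset _ _) ?_).symm
      intro a ha hb
      exact ht2 a ha hb
    have h2 : (((2 ^ c * (2 ^ q - 1) : ℕ) : ℤ)) = ∑ a ∈ B, (2 : ℤ) ^ finrank (ZMod 2) (K a) := by
      rw [← hv.tot, htv, h1]
      exact Finset.sum_congr rfl ht1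
    have h3 : ((∑ a ∈ B, 2 ^ finrank (ZMod 2) (K a) : ℕ) : ℤ)
        = ((2 ^ c * (2 ^ q - 1) : ℕ) : ℤ) := by
      rw [h2]
      push_cast
      rfl
    exact_mod_cast h3
  have hBc : q ≤ B.card := by
    have h1 := ds_sum_le B (fun a => finrank (ZMod 2) (K a))
    rw [hsum, ds_run] at h1
    exact h1
  have hBA : B = A := Finset.eq_of_subset_of_card_le (Finset.filter_subset _ _) (by omega)
  have hsa : ∀ a ∈ A, ∀ y, s a y = ind (K a) y := by
    intro a ha
    rw [← hBA] at ha
    exact (Finset.mem_filter.1 ha).2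
  -- the intersection of the subspaces is zero
  have hv0 : v 0 = q := by
    rw [hv.zero, ds_run]
  have hbot : ∀ x : W, (∀ a ∈ A, x ∈ K a) → x = 0 := by
    intro x hx
    by_contra hx0
    have h1 := hlt x hx0
    have h2 : v x = q := by
      rw [hs x]
      have h3 : ∀ a ∈ A, s a x = 1 := by
        intro a ha
        rw [hsa a ha]
        unfold ind
        exact if_pos (hx a ha)
      rw [Finset.sum_congr rfl h3, Finset.sum_const, hA]
      simp
    rw [h2, hv0] at h1
    omega
  have hcod : ∀ C : Finset W, finrank (ZMod 2) W ≤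
      finrank (ZMod 2) (C.inf K : Submodule (ZMod 2) W) +
        ∑ a ∈ C, (finrank (ZMod 2) W - finrank (ZMod 2) (K a)) := by
    intro C
    induction C using Finset.induction_on with
    | empty =>
      rw [Finset.inf_empty, Finset.sum_empty, finrank_top]
      omega
    | insert a C ha ih =>
      rw [Finset.inf_insert, Finset.sum_insert ha]
      have h1 := Submodule.finrank_sup_add_finrank_inf_eq (K a) (C.inf K)
      have h2 := Submodule.finrank_le (K a ⊔ C.inf K)
      have h3 := Submodule.finrank_le (K a)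
      omega
  have h1 := hcod A
  have h2 : (A.inf K : Submodule (ZMod 2) W) = ⊥ := by
    rw [Submodule.eq_bot_iff]
    intro x hx
    apply hbot x
    intro a ha
    exact (Finset.inf_le (f := K) ha) hx
  rw [h2, finrank_bot, zero_add] at h1
  rw [hBA] at hsum
  have h3 := sum_cost (k := finrank (ZMod 2) W) hsum (le_of_eq hA)
  rw [h3] at h1
  exact h1

end Pool.Agent.GR72
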