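/-
GR72/RunBig: the bound for runs of length `q` when the dimension is at least `(q - 1) h + N`,
`2^N > 2 q` (complete, from the stubs of RunSum, Stab, CliqueB, RDTrans).
-/
import Pool.Agent.GR72.RunSum
import Pool.Agent.GR72.RDTrans
import Pool.Agent.GR72.Core
import Pool.Agent.GR72.Ward

namespace Pool.Agent.GR72

open Module

variable {W : Type} [AddCommGroup W] [Module (ZMod 2) W] [Finite W]

theorem tr_of_big {v : W → ℤ} (hv : Psd v) (hnn : ∀ x, 0 ≤ v x) {q c h : ℕ} (h0 : v 0 = q)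
    (hk : finrank (ZMod 2) W = c + h) (hh : 1 ≤ h)
    (hdiv : ∀ φ : Dual (ZMod 2) W, (2 : ℤ) ^ c ∣ ft v φ) (hlt : ∀ x, x ≠ 0 → v x + 1 ≤ v 0)
    (hdim : (q - 1) * h + 2 < finrank (ZMod 2) W) : Tr v := by
  intro x y z vx vy vz hxy hyz hne
  exact min_trans hv hnn h0 hk hh hdiv (U := ⊤) (fun x _ hx0 => hlt x hx0)
    (by rw [finrank_top]; exact hdim) Submodule.mem_top Submodule.mem_top vx vy vz hxy hyz hne

theorem big_bound {v : W → ℤ} {q c h N : ℕ} (hq : 2 ≤ q) (hv : Gr v (2 ^ c * (2 ^ q - 1)))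
    (hk : finrank (ZMod 2) W = c + h) (hh : 1 ≤ h) (hlt : ∀ x, x ≠ 0 → v x + 1 ≤ v 0)
    (hN2 : 2 * q < 2 ^ N) (hN : (q - 1) * h + N ≤ finrank (ZMod 2) W) :
    finrank (ZMod 2) W ≤ runcost h q := by
  have h0 : v 0 = q := by
    rw [hv.zero, ds_two_pow_mul, ds_two_pow_sub_one]
  have hnn := gr_nonneg hv
  have hdiv : ∀ φ : Dual (ZMod 2) W, (2 : ℤ) ^ c ∣ ft v φ := ward hv (dvd_mul_right _ _)
  have hN3 : 3 ≤ N := by
    by_contra hcon
    have h1 : 2 ^ N ≤ 2 ^ 2 := Nat.pow_le_pow_right (by norm_num) (by omega)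
    omega
  have htr := tr_of_big hv.psd hnn h0 hk hh hdiv hlt (by omega)
  obtain ⟨A, D, hA⟩ := exists_cliques hv.psd hnn h0 hq hk hh hdiv hlt htr hN (by omega)
  obtain ⟨K, s, hl, hs⟩ := stab hv.psd hnn h0 (by omega) hA hN2
  have h1 := run_sum_bound hv hlt hA.card hl hs
  have h2 : finrank (ZMod 2) W - c = h := by omega
  rwa [h2] at h1

end Pool.Agent.GR72
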