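/-
GR72/Q3Base: runs of length three, the case of dimension 10 (needs the stubs of CliqueB,
CliqueLoc, ExFunc, RDMain, RDTrans, RunBig; Pair, Core, Ward).
`k = 10`, `c = 6`, `h = 4`, `q = 3`, `v 0 = 3`, `0 ≤ v x ≤ 2` for `x ≠ 0`.
* `clique_split`: as rd_main and rd_split in GR72/RDMain, with a clique `D` of dimension `≥ q + 1`
  as hypothesis instead of exists_clique (clique_const, clique_psd and the rest of the proof
  unchanged).
* `no_big_clique`: let `D` be a clique of dimension `≥ 4`; clique_split gives `a < 3`, `K`, `vl`, `vh`,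
  `v = ind K + vl + vh`, `finrank K = 6 + a`.
  `a = 0`: `vl = 0` (`Gr vl 0`, psd_eq_zero), `Gr vh (2^7 * 3)`, pair_lemma: `Ph` with `vh = 2` on it and
  `11 ≤ finrank Ph + 2 * 3`, `finrank Ph ≥ 5`; `K ⊓ Ph` has dimension `≥ 6 + 5 - 10 = 1` and `v = 3` there.
  `a = 1`: gr_single for `vl` (`2^6`) and `vh` (`2^8`): dimensions 6, 8, and `K` has dimension 7:
  `6 + 7 + 8 - 20 = 1`.  `a = 2`: `vl`: `Gr vl (2^6 * 3)`, pair_lemma: `11 ≤ finrank Pl + 2 * 4`,
  `finrank Pl ≥ 3`, `finrank K = 8`: `3 + 8 - 10 = 1`; `vh = 0`.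
  So there is a nonzero point with `v = 3`: contradiction.
* `q3_ten`: (1) `Tr v`: otherwise there are `x, y, z` as in trans_config (`v (x + z) + 2 = v 0` by
  mass_subadd, `x + z ≠ 0` and hlt); on `Y = Kx ⊓ Kz` `v w = v (w + x + z) + 2 ≥ 2`, so `v w + 1 = v 0`
  for `w ≠ 0`, and `finrank Y ≥ finrank Kx - 2 ≥ 6 - 2 = 4` (minw_dvd): no_big_clique.
  (2) exists_cliques with `N = 2` (`(q - 1) h + N = 10`, `3 < 4`): `A`, `D`.  By no_big_clique all
  `finrank (D a) ∈ {2, 3}`.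
  (3) Let `a ∈ A`, `b`, `b'` the other two, `d = finrank (D a)`, `K`, `s` from exists_loc for `D a`,
  `κ = finrank K`.  On `K`: `v y ≥ 1` (`Loc.peak`); if `y ∈ K`, `y ≠ 0`, `v y = 2` then `y ∈ D b` or
  `y ∈ D b'` (cover; `y ∉ D a` by `Loc.disj`).  So
    `∑_{y ∈ K} (v y - 1) ≤ 2 + (2^finrank (D b) - 1) + (2^finrank (D b') - 1) = E`.
  For `y ∈ K`, `x ∈ D a` nonzero `v (y + x) = v y - 1`, so with `T = K ⊔ D a` (direct sum)
    `∑_{T} v = ∑_{y ∈ K} (2^d (v y - 1) + 1) ≤ 2^d E + 2^κ`.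
  (3a) First case of `Loc.form`: `κ ≥ 6` (minw_dvd) and sub_ge: `∑_T v ≥ 2^(κ + d - 10) * 7 * 2^6`, so
  `16 * (2^d E) ≥ 2^κ (7 * 2^d - 16)`.
  (3b) Second case: `κ + 1 ≥ 6`; coset_le for `T` and `g`: `∑_T v ≥ ∑_{z ∈ T} v (g + z)`; for `y ∈ K`,
  `x ∈ D a` nonzero: `v (g + y + x) = v (g + y) + 1 ≥ 1` (`Loc.per`, `s (g + y) = -1`, `s (g + y + x) = 0`
  because `g ∉ K ⊔ D a`), so `∑_{z ∈ T} v (g + z) ≥ (2^d - 1) 2^κ` and `2^d E ≥ (2^d - 2) 2^κ`.
  (4) If `d = 3`: `E ≤ 16` and (3a) says `16 * 8 * 16 ≥ 64 * 40`, (3b) `8 * 16 ≥ 6 * 32`: both false.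
  So all dimensions are 2, `E = 8`: (3a) `16 * 4 * 8 ≥ 64 * 12`, (3b) `4 * 8 ≥ 2 * 32`: both false.
-/
import Pool.Agent.GR72.RunBig
import Pool.Agent.GR72.RDMain
import Pool.Agent.GR72.Pair

namespace Pool.Agent.GR72

open Module

variable {W : Type} [AddCommGroup W] [Module (ZMod 2) W] [Finite W]

theorem clique_split {v : W → ℤ} {q c : ℕ} (hq : 2 ≤ q) (hv : Gr v (2 ^ c * (2 ^ q - 1)))
    {D : Submodule (ZMod 2) W} (hD : ∀ y ∈ D, y ≠ 0 → v y + 1 = v 0)
    (hd : q + 1 ≤ finrank (ZMod 2) D) :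
    ∃ (a : ℕ) (K : Submodule (ZMod 2) W) (vl vh : W → ℤ), a < q ∧ finrank (ZMod 2) K = c + a ∧
      Gr vl (2 ^ c * (2 ^ a - 1)) ∧ Gr vh (2 ^ (c + a + 1) * (2 ^ (q - 1 - a) - 1)) ∧
      ∀ x, v x = ind K x + vl x + vh x := by
  have h0 : v 0 = q := by
    rw [hv.zero, ds_two_pow_mul, ds_two_pow_sub_one]
  have hnn := gr_nonneg hv
  have hdiv : ∀ φ : Dual (ZMod 2) W, (2 : ℤ) ^ c ∣ ft v φ := ward hv (dvd_mul_right _ _)
  have hpsd := hv.psd
  have hq1 : 1 ≤ 2 ^ q := Nat.one_le_two_pow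
  have htN : 2 ^ c * (2 ^ q - 1) < 2 ^ (c + q) := by
    rw [pow_add]
    exact Nat.mul_lt_mul_of_pos_left (by omega) (by positivity)
  have htot : tot v < 2 ^ (c + q) := by
    rw [hv.tot]
    exact_mod_cast htN
  obtain ⟨K, hK⟩ := clique_const hpsd hnn hdiv htot hD hd
  have hpK := clique_psd hpsd h0 hD hd hK
  obtain ⟨x, hxD, hx0⟩ : ∃ x ∈ D, x ≠ 0 := by
    by_contra hcon
    push Not at hcon
    have h1 : D = ⊥ := by
      rw [Submodule.eq_bot_iff]
      exact hcon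
    rw [h1, finrank_bot] at hd
    omega
  have hcK : c ≤ finrank (ZMod 2) K := minw_dvd hpsd (hK x hxD hx0) hdiv
  have htK : tot (fun x => v x - ind K x) = ((2 ^ c * (2 ^ q - 1) : ℕ) : ℤ) -
      2 ^ finrank (ZMod 2) K := by
    rw [tot_sub v (ind K), hv.tot, tot_ind]
  have hKle : 2 ^ finrank (ZMod 2) K ≤ 2 ^ c * (2 ^ q - 1) := by
    have h1 := hpK 0
    rw [ft_zero, htK] at h1
    have h2 : ((2 ^ finrank (ZMod 2) K : ℕ) : ℤ) ≤ ((2 ^ c * (2 ^ q - 1) : ℕ) : ℤ) := by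
      push_cast at h1 ⊢
      linarith
    exact_mod_cast h2
  have hKlt : finrank (ZMod 2) K < c + q :=
    (Nat.pow_lt_pow_iff_right (by norm_num)).1 (hKle.trans_lt htN)
  obtain ⟨a, ha⟩ : ∃ a, finrank (ZMod 2) K = c + a := ⟨finrank (ZMod 2) K - c, by omega⟩
  have haq : a < q := by omega
  have hG : Gr (fun x => v x - ind K x) (2 ^ c * (2 ^ q - 1 - 2 ^ a)) := by
    refine ⟨hpK, ?_, ?_⟩
    · have h2 : 2 ^ a ≤ 2 ^ q - 1 := by
        have h3 : 2 ^ a < 2 ^ q := Nat.pow_lt_pow_right (by norm_num) haq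
        omega
      rw [htK, ha, Nat.mul_sub (2 ^ c) (2 ^ q - 1) (2 ^ a),
        Nat.cast_sub (Nat.mul_le_mul_left _ h2)]
      push_cast
      rw [pow_add]
    · have h1 : ind K 0 = 1 := by
        simp [ind]
      show v 0 - ind K 0 = _
      rw [h0, h1, ds_two_pow_mul]
      have h2 := ds_run_minus haq
      have h3 : ((ds (2 ^ q - 1 - 2 ^ a) + 1 : ℕ) : ℤ) = (q : ℤ) := by rw [h2]
      push_cast at h3
      linarith
  have h1 : 1 ≤ 2 ^ a := Nat.one_le_two_pow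
  have h2 : 2 ^ c * (2 ^ q - 1 - 2 ^ a) =
      2 ^ (c + a + 1) * (2 ^ (q - 1 - a) - 1) + 2 ^ c * (2 ^ a - 1) := by
    rw [run_minus haq, mul_add, ← mul_assoc, ← pow_add, add_assoc]
  rw [h2] at hG
  have hR : 2 ^ c * (2 ^ a - 1) < 2 ^ (c + a) := by
    rw [pow_add]
    exact Nat.mul_lt_mul_of_pos_left (by omega) (by positivity)
  obtain ⟨v2, hv2, hv3⟩ := gap_split hR hG
  refine ⟨a, K, v2, fun x => v x - ind K x - v2 x, haq, ha, hv2, hv3, fun x => ?_⟩
  ring

private theorem inf_dim_Q3 (A B : Submodule (ZMod 2) W) :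
    finrank (ZMod 2) A + finrank (ZMod 2) B ≤
      finrank (ZMod 2) (A ⊓ B : Submodule (ZMod 2) W) + finrank (ZMod 2) W := by
  have h1 := Submodule.finrank_sup_add_finrank_inf_eq A B
  have h2 := Submodule.finrank_le (A ⊔ B)
  omega

private theorem exists_ne_Q3 {A : Submodule (ZMod 2) W} (h : 1 ≤ finrank (ZMod 2) A) :
    ∃ x ∈ A, x ≠ 0 := by
  refine Submodule.exists_mem_ne_zero_of_ne_bot fun h1 => ?_
  rw [h1, finrank_bot] at h
  omega

private theorem ind_mem_Q3 {A : Submodule (ZMod 2) W} {x : W} (h : x ∈ A) : ind A x = 1 := by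
  unfold ind
  exact if_pos h

private theorem ind_not_Q3 {A : Submodule (ZMod 2) W} {x : W} (h : x ∉ A) : ind A x = 0 := by
  unfold ind
  exact if_neg h

theorem no_big_clique {v : W → ℤ} (hk : finrank (ZMod 2) W = 10)
    (hv : Gr v (2 ^ 6 * (2 ^ 3 - 1))) (hlt : ∀ x, x ≠ 0 → v x + 1 ≤ v 0)
    {D : Submodule (ZMod 2) W} (hD : ∀ y ∈ D, y ≠ 0 → v y + 1 = v 0) :
    finrank (ZMod 2) D ≤ 3 := by
  by_contra hcon
  push Not at hcon
  obtain ⟨a, K, vl, vh, ha, hK, hl, hh, hsum⟩ := clique_split (by norm_num) hv hD (by omega)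
  have h0 : v 0 = 3 := by
    rw [hv.zero, ds_two_pow_mul, ds_two_pow_sub_one]
    rfl
  have hend : ∀ x, x ≠ 0 → ind K x = 1 → vl x + vh x = 2 → False := by
    intro x hx h1 h2
    have h3 := hlt x hx
    rw [hsum x, h0, h1] at h3
    linarith
  interval_cases a
  · -- a = 0
    have hl0 : vl 0 = 0 := by
      rw [hl.zero]
      norm_num [ds_zero]
    have hl1 : ∀ x, vl x = 0 := psd_eq_zero hl.psd hl0
    have hh' : Gr vh (3 * 2 ^ 7) := by
      have : 2 ^ (6 + 0 + 1) * (2 ^ (3 - 1 - 0) - 1) = 3 * 2 ^ 7 := by norm_num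
      rwa [this] at hh
    obtain ⟨P, hP, hP2⟩ := pair_lemma hh' (by omega)
    rw [hk, if_neg (by norm_num)] at hP2
    have h1 := inf_dim_Q3 K P
    obtain ⟨x, hx, hx0⟩ := exists_ne_Q3 (A := K ⊓ P) (by omega)
    exact hend x hx0 (ind_mem_Q3 hx.1) (by rw [hl1, hP x hx.2]; norm_num)
  · -- a = 1
    have hl' : Gr vl (2 ^ 6) := by
      have : 2 ^ 6 * (2 ^ 1 - 1) = 2 ^ 6 := by norm_num
      rwa [this] at hl
    have hh' : Gr vh (2 ^ 8) := by
      have : 2 ^ (6 + 1 + 1) * (2 ^ (3 - 1 - 1) - 1) = 2 ^ 8 := by norm_num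
      rwa [this] at hh
    obtain ⟨P, hP, hP2⟩ := gr_single hl'
    obtain ⟨Q, hQ, hQ2⟩ := gr_single hh'
    have h1 := inf_dim_Q3 K P
    have h2 := inf_dim_Q3 (K ⊓ P) Q
    obtain ⟨x, hx, hx0⟩ := exists_ne_Q3 (A := K ⊓ P ⊓ Q) (by omega)
    exact hend x hx0 (ind_mem_Q3 hx.1.1) (by
      rw [hP2, hQ2, ind_mem_Q3 hx.1.2, ind_mem_Q3 hx.2]; norm_num)
  · -- a = 2
    have hh0 : vh 0 = 0 := by
      rw [hh.zero]
      norm_num [ds_zero]
    have hh1 : ∀ x, vh x = 0 := psd_eq_zero hh.psd hh0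
    have hl' : Gr vl (3 * 2 ^ 6) := by
      have : 2 ^ 6 * (2 ^ 2 - 1) = 3 * 2 ^ 6 := by norm_num
      rwa [this] at hl
    obtain ⟨P, hP, hP2⟩ := pair_lemma hl' (by omega)
    rw [hk, if_neg (by norm_num)] at hP2
    have h1 := inf_dim_Q3 K P
    obtain ⟨x, hx, hx0⟩ := exists_ne_Q3 (A := K ⊓ P) (by omega)
    exact hend x hx0 (ind_mem_Q3 hx.1) (by rw [hh1, hP x hx.2]; norm_num)

private theorem direct_Q3 [Fintype W] {K D : Submodule (ZMod 2) W} [Fintype K] [Fintype D]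
    (h : Disjoint K D) (f : W → ℤ) :
    ∑ᶠ z, ind (K ⊔ D) z * f z = ∑ y : K, ∑ x : D, f ((y : W) + x) := by
  classical
  rw [finsum_eq_sum_of_fintype, ← Fintype.sum_prod_type' (fun (y : K) (x : D) => f ((y : W) + x))]
  have h1 : ∀ z : W, ind (K ⊔ D) z * f z = if z ∈ K ⊔ D then f z else 0 := by
    intro z
    unfold ind
    split_ifs <;> simp
  simp only [h1]
  rw [← Finset.sum_filter]
  symm
  refine Finset.sum_nbij (fun p => (p.1 : W) + p.2) ?_ ?_ ?_ (fun _ _ => rfl)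
  · intro p _
    rw [Finset.mem_filter]
    exact ⟨Finset.mem_univ _, Submodule.add_mem_sup p.1.2 p.2.2⟩
  · rintro ⟨y, x⟩ _ ⟨y', x'⟩ _ hxy
    simp only at hxy
    have h2 : (y : W) - y' = x' - x := by
      rw [sub_eq_sub_iff_add_eq_add]
      rw [hxy]
      exact add_comm _ _
    have h3 : (y : W) - y' ∈ K := K.sub_mem y.2 y'.2
    have h4 : (y : W) - y' ∈ D := by rw [h2]; exact D.sub_mem x'.2 x.2
    have h5 : (y : W) - y' = 0 := Submodule.disjoint_def.1 h _ h3 h4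
    have h6 : y = y' := Subtype.ext (sub_eq_zero.1 h5)
    rw [h5] at h2
    have h7 : x = x' := Subtype.ext (sub_eq_zero.1 h2.symm).symm
    rw [h6, h7]
  · intro z hz
    rw [Finset.mem_coe, Finset.mem_filter] at hz
    obtain ⟨y, hy, x, hx, hyx⟩ := Submodule.mem_sup.1 hz.2
    exact ⟨(⟨y, hy⟩, ⟨x, hx⟩), Finset.mem_coe.2 (Finset.mem_univ _), hyx⟩

private theorem card_Q3 (K : Submodule (ZMod 2) W) [Fintype K] :
    ((Finset.univ : Finset K).card : ℤ) = 2 ^ finrank (ZMod 2) K := by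
  have h4 := card_eq K
  rw [Nat.card_eq_fintype_card] at h4
  rw [Finset.card_univ, h4]
  push_cast
  rfl

private theorem clique_ineq_Q3 {v : W → ℤ} (hk : finrank (ZMod 2) W = 10)
    (hv : Gr v (2 ^ 6 * (2 ^ 3 - 1))) (hlt : ∀ x, x ≠ 0 → v x + 1 ≤ v 0) {A : Finset W}
    {D : W → Submodule (ZMod 2) W} (hC : Cliques v 3 2 A D) {a b b' : W} (ha : a ∈ A)
    (hA : ∀ c ∈ A, c = a ∨ c = b ∨ c = b') :
    ∃ κ : ℕ, (6 ≤ κ ∧ (2 : ℤ) ^ κ * (7 * 2 ^ finrank (ZMod 2) (D a) - 16) ≤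
        16 * 2 ^ finrank (ZMod 2) (D a) *
          (2 ^ finrank (ZMod 2) (D b) + 2 ^ finrank (ZMod 2) (D b'))) ∨
      (5 ≤ κ ∧ (2 ^ finrank (ZMod 2) (D a) - 2) * (2 : ℤ) ^ κ ≤ 2 ^ finrank (ZMod 2) (D a) *
          (2 ^ finrank (ZMod 2) (D b) + 2 ^ finrank (ZMod 2) (D b'))) := by
  classical
  have := Fintype.ofFinite W
  have h0 : v 0 = 3 := by
    rw [hv.zero, ds_two_pow_mul, ds_two_pow_sub_one]
    rfl
  have hnn := gr_nonneg hv
  have hdiv : ∀ φ : Dual (ZMod 2) W, (2 : ℤ) ^ 6 ∣ ft v φ := ward hv (dvd_mul_right _ _)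
  obtain ⟨K, s, hl⟩ := exists_loc hv.psd (hC.val a ha) (hC.dim a ha)
  have := Fintype.ofFinite K
  have := Fintype.ofFinite (D a)
  obtain ⟨d, hd⟩ : ∃ d, d = finrank (ZMod 2) (D a) := ⟨_, rfl⟩
  obtain ⟨κ, hκ⟩ : ∃ κ, κ = finrank (ZMod 2) K := ⟨_, rfl⟩
  obtain ⟨E, hE⟩ : ∃ E : ℤ, E = 2 ^ finrank (ZMod 2) (D b) + 2 ^ finrank (ZMod 2) (D b') :=
    ⟨_, rfl⟩
  have hd2 : 2 ≤ d := by rw [hd]; exact hC.dim a ha
  obtain ⟨x0, hx0, hx00⟩ := exists_ne_Q3 (A := D a) (by omega)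
  -- values on the peak set
  have hpeak : ∀ y ∈ K, 1 ≤ v y := by
    intro y hy
    have h1 := (hl.peak y).1 hy x0 hx0 hx00
    have h2 := hnn (y + x0)
    linarith
  have hbound : ∀ y ∈ K, v y - 1 ≤ ind (D b) y + ind (D b') y := by
    intro y hy
    have hb0 : 0 ≤ ind (D b) y := by unfold ind; split_ifs <;> norm_num
    have hb1 : 0 ≤ ind (D b') y := by unfold ind; split_ifs <;> norm_num
    by_cases hy0 : y = 0
    · subst hy0
      rw [ind_mem_Q3 (zero_mem _), ind_mem_Q3 (zero_mem _), h0]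
      norm_num
    · have h1 := hlt y hy0
      rw [h0] at h1
      by_cases h2 : v y = 2
      · obtain ⟨c, hc, hyc⟩ := hC.cover y (by rw [h2, h0]; norm_num)
        rcases hA c hc with rfl | rfl | rfl
        · exact absurd (Submodule.disjoint_def.1 hl.disj y hy hyc) hy0
        · rw [ind_mem_Q3 hyc, h2]
          linarith
        · rw [ind_mem_Q3 hyc, h2]
          linarith
      · have : v y ≤ 1 := by omega
        linarith
  have hKE : ∑ y : K, (v y - 1) ≤ E := by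
    have h1 : ∀ P : Submodule (ZMod 2) W, ∑ y : K, ind P y ≤ 2 ^ finrank (ZMod 2) P := by
      intro P
      rw [← tot_ind, tot_eq_sum]
      have h2 : ∑ y : K, ind P y = ∑ w ∈ Finset.univ.filter (fun w => w ∈ K), ind P w := by
        exact (Finset.sum_subtype _ (fun x => by simp) (ind P)).symm
      rw [h2]
      refine Finset.sum_le_sum_of_subset_of_nonneg (Finset.subset_univ _) fun w _ _ => ?_
      unfold ind
      split_ifs <;> norm_num
    calc ∑ y : K, (v y - 1) ≤ ∑ y : K, (ind (D b) y + ind (D b') y) :=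
          Finset.sum_le_sum fun y _ => hbound y y.2
      _ ≤ E := by
          rw [Finset.sum_add_distrib, hE]
          exact add_le_add (h1 _) (h1 _)
  have hT : ∑ᶠ z, ind (K ⊔ D a) z * v z ≤ 2 ^ d * E + 2 ^ κ := by
    rw [direct_Q3 hl.disj]
    have h1 : ∀ y : K, ∑ x : D a, v ((y : W) + x) = 2 ^ d * (v y - 1) + 1 := by
      intro y
      have h2 : ∀ x : D a, v ((y : W) + x) = (v y - 1) + (if x = 0 then 1 else 0) := by
        intro x
        by_cases hx : x = 0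
        · rw [hx, Submodule.coe_zero, add_zero, if_pos rfl]
          ring
        · rw [if_neg hx, add_zero]
          have h3 := (hl.peak y).1 y.2 x x.2 (fun h => hx (Subtype.ext h))
          linarith
      simp only [h2]
      rw [Finset.sum_add_distrib, Finset.sum_const, nsmul_eq_mul, card_Q3, ← hd,
        Finset.sum_ite_eq' Finset.univ (0 : D a) (fun _ => (1 : ℤ)), if_pos (Finset.mem_univ _)]
    simp only [h1]
    rw [Finset.sum_add_distrib, ← Finset.mul_sum, Finset.sum_const, nsmul_eq_mul, card_Q3, ← hκ,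
      mul_one]
    have h3 : (2 : ℤ) ^ d * ∑ y : K, (v y - 1) ≤ 2 ^ d * E :=
      mul_le_mul_of_nonneg_left hKE (by positivity)
    linarith
  rw [← hd, ← hE]
  refine ⟨κ, ?_⟩
  rcases hl.form with ⟨-, hm⟩ | ⟨g, hg, hs, hm⟩
  · left
    have h1 : 6 ≤ κ := by
      rw [hκ]
      exact minw_dvd hv.psd (hm x0 hx0 hx00) hdiv
    refine ⟨h1, ?_⟩
    have h2 := sub_ge hv.psd (K ⊔ D a)
    have h3 : finrank (ZMod 2) (K ⊔ D a : Submodule (ZMod 2) W) = κ + d := by
      have h4 := Submodule.finrank_sup_add_finrank_inf_eq K (D a)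
      rw [hl.disj.eq_bot, finrank_bot] at h4
      omega
    rw [h3, hk, hv.tot] at h2
    push_cast at h2
    rw [pow_add] at h2
    have h5 : (2 : ℤ) ^ 10 * ∑ᶠ z, ind (K ⊔ D a) z * v z ≤ 2 ^ 10 * (2 ^ d * E + 2 ^ κ) :=
      mul_le_mul_of_nonneg_left hT (by positivity)
    have h6 := h2.trans h5
    norm_num at h6
    nlinarith
  · right
    obtain ⟨L, hL, hL2⟩ := hm x0 hx0 hx00
    have h1 : 5 ≤ κ := by
      have := minw_dvd hv.psd hL hdiv
      omega
    refine ⟨h1, ?_⟩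
    have h2 := coset_le hv.psd (K ⊔ D a) g
    have h3 := h2.trans hT
    rw [direct_Q3 hl.disj (fun y => v (g + y))] at h3
    have hgK : ∀ y ∈ K ⊔ D a, g + y ∉ K := by
      intro y hy h4
      apply hg
      have h5 : g + y + y ∈ K ⊔ D a := Submodule.add_mem _ (Submodule.mem_sup_left h4) hy
      rwa [add_assoc, add_self_eq, add_zero] at h5
    have h4 : ∀ (y : K) (x : D a), (1 : ℤ) - (if x = 0 then 1 else 0) ≤ v (g + ((y : W) + x)) := by
      intro y x
      by_cases hx : x = 0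
      · rw [if_pos hx]
        have := hnn (g + ((y : W) + x))
        linarith
      · rw [if_neg hx]
        have hx' : (x : W) ≠ 0 := fun h => hx (Subtype.ext h)
        have h5 := hl.per (g + y) x x.2
        have h6 : s (g + y) = -1 := by
          rw [hs, ind_not_Q3 (hgK y (Submodule.mem_sup_left y.2))]
          have : g + (y : W) + g = y := by
            rw [add_comm g (y : W), add_assoc, add_self_eq, add_zero]
          rw [this, ind_mem_Q3 y.2]
          norm_num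
        have h7 : s (g + y + x) = 0 := by
          rw [hs]
          have h8 : g + (y : W) + x ∉ K := by
            rw [add_assoc]
            exact hgK _ (Submodule.add_mem_sup y.2 x.2)
          have h9 : g + (y : W) + x + g = y + x := by
            rw [add_assoc g, add_comm g ((y : W) + x), add_assoc, add_self_eq, add_zero]
          have h10 : (y : W) + x ∉ K := by
            intro h11
            have h12 : (x : W) ∈ K := by
              have := K.add_mem y.2 h11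
              rwa [← add_assoc, add_self_eq, zero_add] at this
            exact hx' (Submodule.disjoint_def.1 hl.disj _ h12 x.2)
          rw [ind_not_Q3 h8, h9, ind_not_Q3 h10]
          norm_num
        rw [h6, h7] at h5
        have h8 := hnn (g + y)
        rw [← add_assoc]
        linarith
    have h5 : (2 : ℤ) ^ κ * (2 ^ d - 1) ≤ ∑ y : K, ∑ x : D a, v (g + ((y : W) + x)) := by
      have h6 : ∑ y : K, ∑ x : D a, ((1 : ℤ) - (if x = 0 then 1 else 0)) = 2 ^ κ * (2 ^ d - 1) := by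
        rw [Finset.sum_const, nsmul_eq_mul, card_Q3, ← hκ, Finset.sum_sub_distrib, Finset.sum_const,
          nsmul_eq_mul, card_Q3, ← hd, Finset.sum_ite_eq' Finset.univ (0 : D a) (fun _ => (1 : ℤ)),
          if_pos (Finset.mem_univ _), mul_one]
      rw [← h6]
      exact Finset.sum_le_sum fun y _ => Finset.sum_le_sum fun x _ => h4 y x
    have h6 := h5.trans h3
    nlinarith

theorem q3_ten {v : W → ℤ} (hk : finrank (ZMod 2) W = 10)
    (hv : Gr v (2 ^ 6 * (2 ^ 3 - 1))) (hlt : ∀ x, x ≠ 0 → v x + 1 ≤ v 0) : False := by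
  classical
  have h0 : v 0 = 3 := by
    rw [hv.zero, ds_two_pow_mul, ds_two_pow_sub_one]
    rfl
  have hnn := gr_nonneg hv
  have hdiv : ∀ φ : Dual (ZMod 2) W, (2 : ℤ) ^ 6 ∣ ft v φ := ward hv (dvd_mul_right _ _)
  have htr : Tr v := by
    intro x y z vx vy vz hxy hyz hne
    by_contra hcon
    have hne0 : x + z ≠ 0 := by
      intro h1
      apply hne
      have h4 : x + z + z = 0 + z := by rw [h1]
      rwa [add_assoc, add_self_eq, add_zero, zero_add] at h4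
    have h1 := hlt (x + z) hne0
    have h2 := mass_subadd hv.psd x z
    have h3 : v (x + z) + 2 = v 0 := by omega
    obtain ⟨Kx, hx⟩ := min_word hv.psd vx
    obtain ⟨Ky, hy⟩ := min_word hv.psd vy
    obtain ⟨Kz, hz⟩ := min_word hv.psd vz
    obtain ⟨hw, hdim⟩ := trans_config hv.psd hx hy hz vx vy vz hxy hyz h3
    have h4 : 6 ≤ finrank (ZMod 2) Kx := minw_dvd hv.psd hx hdiv
    have h5 := no_big_clique hk hv hlt (D := Kx ⊓ Kz) (by
      intro w hwm hw0
      have h6 := hw w hwm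
      have h7 := hnn (w + x + z)
      have h8 := hlt w hw0
      rw [h0] at h8 ⊢
      linarith)
    omega
  obtain ⟨A, D, hC⟩ := exists_cliques (N := 2) (h := 4) hv.psd hnn (q := 3) (by rw [h0]; rfl)
    (by norm_num) (by rw [hk]) (by norm_num) hdiv hlt htr (by rw [hk]) (by norm_num)
  have hdim : ∀ a ∈ A, finrank (ZMod 2) (D a) = 2 ∨ finrank (ZMod 2) (D a) = 3 := by
    intro a ha
    have h1 := hC.dim a ha
    have h2 := no_big_clique hk hv hlt (hC.val a ha)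
    omega
  have hothers : ∀ a ∈ A, ∃ b b', b ∈ A ∧ b' ∈ A ∧ ∀ c ∈ A, c = a ∨ c = b ∨ c = b' := by
    intro a ha
    have h1 : (A.erase a).card = 2 := by
      rw [Finset.card_erase_of_mem ha, hC.card]
    obtain ⟨b, b', hbb, h2⟩ := Finset.card_eq_two.1 h1
    have hb : b ∈ A.erase a := by rw [h2]; simp
    have hb' : b' ∈ A.erase a := by rw [h2]; simp
    refine ⟨b, b', Finset.mem_of_mem_erase hb, Finset.mem_of_mem_erase hb', fun c hc => ?_⟩
    by_cases hca : c = a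
    · exact Or.inl hca
    · right
      have h3 : c ∈ A.erase a := Finset.mem_erase.2 ⟨hca, hc⟩
      rw [h2] at h3
      simpa using h3
  have hκ6 : ∀ κ : ℕ, 6 ≤ κ → (64 : ℤ) ≤ 2 ^ κ := by
    intro κ h
    calc (64 : ℤ) = 2 ^ 6 := by norm_num
      _ ≤ 2 ^ κ := pow_le_pow_right₀ (by norm_num) h
  have hκ5 : ∀ κ : ℕ, 5 ≤ κ → (32 : ℤ) ≤ 2 ^ κ := by
    intro κ h
    calc (32 : ℤ) = 2 ^ 5 := by norm_num
      _ ≤ 2 ^ κ := pow_le_pow_right₀ (by norm_num) h
  have hno3 : ∀ a ∈ A, finrank (ZMod 2) (D a) = 2 := by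
    intro a ha
    rcases hdim a ha with h | h
    · exact h
    · exfalso
      obtain ⟨b, b', hb, hb', hc⟩ := hothers a ha
      obtain ⟨κ, hκ⟩ := clique_ineq_Q3 hk hv hlt hC ha hc
      rw [h] at hκ
      have hE : ∀ c ∈ A, (2 : ℤ) ^ finrank (ZMod 2) (D c) ≤ 8 := by
        intro c hc
        rcases hdim c hc with h1 | h1 <;> rw [h1] <;> norm_num
      have h1 := hE b hb
      have h2 := hE b' hb'
      rcases hκ with ⟨h3, h4⟩ | ⟨h3, h4⟩
      · have h5 := hκ6 κ h3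
        norm_num at h4
        linarith
      · have h5 := hκ5 κ h3
        norm_num at h4
        linarith
  obtain ⟨a, ha⟩ : A.Nonempty := by
    rw [← Finset.card_pos, hC.card]
    norm_num
  obtain ⟨b, b', hb, hb', hc⟩ := hothers a ha
  obtain ⟨κ, hκ⟩ := clique_ineq_Q3 hk hv hlt hC ha hc
  rw [hno3 a ha, hno3 b hb, hno3 b' hb'] at hκ
  rcases hκ with ⟨h3, h4⟩ | ⟨h3, h4⟩
  · have h5 := hκ6 κ h3
    norm_num at h4
    linarith
  · have h5 := hκ5 κ h3
    norm_num at h4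
    linarith

end Pool.Agent.GR72
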