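/-
GR72/Run2: the bound for a single run of length `q` (needs the stubs of RunBig, ComplRes,
Q3Base; Pair, Core).
`extra k c q = q - 1` if `k = c + q`, otherwise `0`.
* `small_bound` (`v x < v 0` for `x ≠ 0`, i.e. `P = ⊥`): `h = k - c`.
  If `q ≥ 3` and `q - 1 + q (q - 1) / 2 ≤ h` then `k ≤ runcost h q`: otherwise
  `k ≥ runcost h q + 1 = q h - q (q - 1) / 2 + 1 ≥ (q - 1) h + q`, `2 q < 2^q`, and big_bound with `N = q`
  gives `k ≤ runcost h q`.  (`2 * runcost h q + q (q - 1) = 2 q h` for `q ≤ h + 1`.)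
  If `q = 3` and `h = 4` then `k ≤ 9 = runcost 4 3`: `k ≥ 11` contradicts big_bound (`N = 3`); `k = 10`:
  `c = 6`, q3_ten.
* `full_two`: `q = 1`: gr_single.  `q = 2`: pair_lemma.  `q = 3`, `k ≥ c + 4` or `q ≥ 4`: `P = {v = v 0}`
  (perSub), `U` a complement (`Submodule.exists_isCompl`), compl_res: the restriction to `U` has
  `c' = c - finrank P`, `finrank U = k - finrank P`, the same `h`; small_bound: `finrank U ≤ runcost h q`.
  `q = 3`, `k = c + 3` (`h = 3`, `runcost 3 3 = 6`): zero_ext `v'` on `W × ZMod 2` (dimension `k + 1`,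
  `h = 4`), the case just proved gives `P'` with `v' = 3` on `P'` and `k + 1 ≤ finrank P' + 9`; all
  elements of `P'` have second component `0` (`v' = 0` otherwise), so `P'` is isomorphic to its image
  `P` under `LinearMap.fst`, and `k ≤ finrank P + 8`.
-/
import Pool.Agent.GR72.Q3Base
import Pool.Agent.GR72.ComplRes

namespace Pool.Agent.GR72

open Module

/-- The extra codimension for the first run: `q - 1` if the run starts at the top. -/
def extra (k c q : ℕ) : ℕ := if k = c + q then q - 1 else 0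

variable {W : Type} [AddCommGroup W] [Module (ZMod 2) W] [Finite W]

private theorem two_mul_runcost (h : ℕ) (q : ℕ) (hq : q ≤ h + 1) :
    2 * runcost h q + q * (q - 1) = 2 * q * h := by
  induction q with
  | zero => simp [runcost]
  | succ q ih =>
    have h1 := ih (by omega)
    have h2 : runcost h (q + 1) = runcost h q + (h - q) := by
      unfold runcost
      rw [Finset.sum_range_succ]
    rw [h2]
    obtain ⟨m, rfl⟩ : ∃ m, h = q + m := ⟨h - q, by omega⟩
    have h3 : q + m - q = m := by omega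
    rw [h3]
    cases q with
    | zero =>
      simp [runcost]
    | succ q =>
      simp only [Nat.add_sub_cancel] at h1 ⊢
      have h4 : 2 * runcost (q + 1 + m) (q + 1) + (q + 1) * q = 2 * (q + 1) * (q + 1 + m) := h1
      nlinarith [h4]

private theorem runcost_one (h : ℕ) : runcost h 1 = h := by
  simp [runcost]

private theorem runcost_two (h : ℕ) : runcost h 2 = h + (h - 1) := by
  simp [runcost, Finset.sum_range_succ]

private theorem runcost_three (h : ℕ) : runcost h 3 = h + (h - 1) + (h - 2) := by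
  simp [runcost, Finset.sum_range_succ]

private theorem two_mul_lt_two_pow {q : ℕ} (hq : 3 ≤ q) : 2 * q < 2 ^ q := by
  induction q, hq using Nat.le_induction with
  | base => norm_num
  | succ n hn ih =>
    rw [pow_succ]
    omega

private theorem small_aux {q h k : ℕ} (hq : 3 ≤ q) (hh : q - 1 + q * (q - 1) / 2 ≤ h)
    (hk : runcost h q < k) : (q - 1) * h + q ≤ k := by
  have hqh : q ≤ h + 1 := by omega
  have h1 := two_mul_runcost h q hqh
  obtain ⟨r, rfl⟩ : ∃ r, q = r + 1 := ⟨q - 1, by omega⟩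
  simp only [Nat.add_sub_cancel] at *
  obtain ⟨e, he⟩ : ∃ e, (r + 1) * r = 2 * e := by
    rcases Nat.even_or_odd r with ⟨a, ha⟩ | ⟨a, ha⟩
    · exact ⟨(r + 1) * a, by rw [ha]; ring⟩
    · exact ⟨(a + 1) * r, by rw [ha]; ring⟩
  rw [he] at h1 hh
  have h2 : 2 * e / 2 = e := by omega
  rw [h2] at hh
  have h3 : 2 * (r + 1) * h = 2 * (r * h + h) := by ring
  rw [h3] at h1
  omega

theorem small_bound {v : W → ℤ} {q c h : ℕ} (hq : 3 ≤ q) (hv : Gr v (2 ^ c * (2 ^ q - 1)))
    (hk : finrank (ZMod 2) W = c + h) (hlt : ∀ x, x ≠ 0 → v x + 1 ≤ v 0)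
    (hh : q - 1 + q * (q - 1) / 2 ≤ h ∨ (q = 3 ∧ h = 4)) :
    finrank (ZMod 2) W ≤ runcost h q := by
  by_contra hcon
  rw [not_le] at hcon
  rcases hh with hh | ⟨rfl, rfl⟩
  · have h1 := small_aux hq hh hcon
    have h2 := big_bound (N := q) (by omega) hv hk (by omega) hlt (two_mul_lt_two_pow hq) h1
    omega
  · have h9 : runcost 4 3 = 9 := by rw [runcost_three]
    rw [h9] at hcon
    by_cases h11 : 11 ≤ finrank (ZMod 2) W
    · have h2 := big_bound (N := 3) (by norm_num) hv hk (by norm_num) hlt (by norm_num)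
        (by omega)
      omega
    · have h10 : finrank (ZMod 2) W = 10 := by omega
      have hc : c = 6 := by omega
      subst hc
      exact q3_ten h10 hv hlt

private theorem full_aux {v : W → ℤ} {q c : ℕ} (hq : 3 ≤ q) (hv : Gr v (2 ^ c * (2 ^ q - 1)))
    (hh : c + q - 1 + q * (q - 1) / 2 ≤ finrank (ZMod 2) W ∨
      (q = 3 ∧ c + 4 ≤ finrank (ZMod 2) W)) :
    ∃ P : Submodule (ZMod 2) W, (∀ x ∈ P, v x = q) ∧
      finrank (ZMod 2) W ≤ finrank (ZMod 2) P + runcost (finrank (ZMod 2) W - c) q := by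
  obtain ⟨P, hP⟩ := perSub hv.psd
  obtain ⟨U, hU⟩ := Submodule.exists_isCompl P
  have hv0 : v 0 = q := by
    rw [hv.zero, ds_two_pow_mul, ds_two_pow_sub_one]
  obtain ⟨hpc, hg, hlt⟩ := compl_res (by omega) hv hP hU.symm
  refine ⟨P, fun x hx => by rw [(hP x).1 hx, hv0], ?_⟩
  have hfr : finrank (ZMod 2) P + finrank (ZMod 2) U = finrank (ZMod 2) W :=
    Submodule.finrank_add_eq_of_isCompl hU
  have hck : c ≤ finrank (ZMod 2) W := by
    rcases hh with h | h <;> omega
  have hkU : finrank (ZMod 2) U = (c - finrank (ZMod 2) P) + (finrank (ZMod 2) W - c) := by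
    omega
  have hlt' : ∀ x : U, x ≠ 0 → (fun x : U => v x) x + 1 ≤ (fun x : U => v x) 0 := by
    intro x hx
    have h1 := hlt x hx
    simpa using h1
  have hfin := small_bound (v := fun x : U => v x) hq hg hkU hlt' (by
    rcases hh with h | ⟨h3, h4⟩
    · left; omega
    · subst h3
      by_cases h5 : finrank (ZMod 2) W - c = 4
      · right; exact ⟨rfl, h5⟩
      · left
        norm_num
        omega)
  omega

private theorem full_three {v : W → ℤ} {c : ℕ} (hv : Gr v (2 ^ c * (2 ^ 3 - 1)))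
    (hk : finrank (ZMod 2) W = c + 3) :
    ∃ P : Submodule (ZMod 2) W, (∀ x ∈ P, v x = (3 : ℕ)) ∧
      finrank (ZMod 2) W ≤ finrank (ZMod 2) P + 8 := by
  have hz := zero_ext hv
  have hdim : finrank (ZMod 2) (W × ZMod 2) = c + 4 := by
    rw [Module.finrank_prod, Module.finrank_self, hk]
  obtain ⟨P', hP', hle⟩ := full_aux (by norm_num) hz (Or.inr ⟨rfl, by omega⟩)
  have h4 : finrank (ZMod 2) (W × ZMod 2) - c = 4 := by omega
  rw [h4, runcost_three, hdim] at hle
  have hsnd : ∀ p ∈ P', p.2 = 0 ∧ v p.1 = (3 : ℕ) := by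
    intro p hp
    have h1 := hP' p hp
    split_ifs at h1 with h2
    · exact ⟨h2, h1⟩
    · norm_num at h1
  refine ⟨P'.map (LinearMap.fst (ZMod 2) W (ZMod 2)), ?_, ?_⟩
  · intro x hx
    obtain ⟨p, hp, rfl⟩ := Submodule.mem_map.1 hx
    exact (hsnd p hp).2
  · have hinj : Function.Injective
        ((LinearMap.fst (ZMod 2) W (ZMod 2)).comp P'.subtype) := by
      intro p p' h
      have h1 := (hsnd p p.2).1
      have h2 := (hsnd p' p'.2).1
      apply Subtype.ext
      apply Prod.ext
      · exact h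
      · rw [h1, h2]
    have h5 := LinearMap.finrank_range_of_inj hinj
    rw [LinearMap.range_comp, Submodule.range_subtype] at h5
    omega

theorem full_two {v : W → ℤ} {q c : ℕ} (hq : 1 ≤ q) (hv : Gr v (2 ^ c * (2 ^ q - 1)))
    (hc : c + q ≤ finrank (ZMod 2) W)
    (hd : 4 ≤ q → c + q - 1 + q * (q - 1) / 2 ≤ finrank (ZMod 2) W) :
    ∃ P : Submodule (ZMod 2) W, (∀ x ∈ P, v x = q) ∧
      finrank (ZMod 2) W ≤ finrank (ZMod 2) P + runcost (finrank (ZMod 2) W - c) q
        + extra (finrank (ZMod 2) W) c q := by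
  by_cases h4 : 4 ≤ q
  · obtain ⟨P, hP, hle⟩ := full_aux (by omega) hv (Or.inl (hd h4))
    exact ⟨P, hP, by omega⟩
  · obtain rfl | rfl | rfl : q = 1 ∨ q = 2 ∨ q = 3 := by omega
    · have e1 : 2 ^ c * (2 ^ 1 - 1) = 2 ^ c := by norm_num
      rw [e1] at hv
      obtain ⟨P, hP, hi⟩ := gr_single hv
      refine ⟨P, ?_, ?_⟩
      · intro x hx
        rw [hi x]
        unfold ind
        rw [if_pos hx]
        rfl
      · rw [runcost_one]
        omega
    · have e1 : 2 ^ c * (2 ^ 2 - 1) = 3 * 2 ^ c := by norm_num; ring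
      rw [e1] at hv
      obtain ⟨P, hP, hle⟩ := pair_lemma hv (by omega)
      refine ⟨P, ?_, ?_⟩
      · intro x hx
        rw [hP x hx]
        rfl
      · rw [runcost_two]
        unfold extra
        split_ifs at hle ⊢ <;> omega
    · by_cases h3 : c + 4 ≤ finrank (ZMod 2) W
      · obtain ⟨P, hP, hle⟩ := full_aux (by omega) hv (Or.inr ⟨rfl, h3⟩)
        exact ⟨P, hP, by omega⟩
      · have hk : finrank (ZMod 2) W = c + 3 := by omega
        obtain ⟨P, hP, hle⟩ := full_three hv hk
        refine ⟨P, hP, ?_⟩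
        have e3 : finrank (ZMod 2) W - c = 3 := by omega
        rw [e3, runcost_three]
        unfold extra
        rw [if_pos hk]
        omega

end Pool.Agent.GR72
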