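/-
GR72/FullLong: large subspaces on which `v` is maximal, long runs deep (complete, from the stubs of
Run2 and the finished modules FullDeep, PeelLong).
-/
import Pool.Agent.GR72.Run2
import Pool.Agent.GR72.PeelLong
import Pool.Agent.GR72.FullDeep

namespace Pool.Agent.GR72

open Module

private theorem inf_dim2 {W : Type} [AddCommGroup W] [Module (ZMod 2) W] [Finite W]
    (P1 P2 : Submodule (ZMod 2) W) :
    finrank (ZMod 2) P1 + finrank (ZMod 2) P2 ≤
      finrank (ZMod 2) W + finrank (ZMod 2) (P1 ⊓ P2 : Submodule (ZMod 2) W) := by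
  have h1 := Submodule.finrank_sup_add_finrank_inf_eq P1 P2
  have h2 := Submodule.finrank_le (P1 ⊔ P2)
  omega

theorem lt_of_run {k q c t : ℕ} (hq : 1 ≤ q)
    (hV : 2 ^ c * (2 ^ (q + 1) * t + (2 ^ q - 1)) < 2 ^ k) : c + q ≤ k := by
  by_contra hcon
  push Not at hcon
  have h1 : 2 ^ k ≤ 2 ^ (c + q - 1) := Nat.pow_le_pow_right (by norm_num) (by omega)
  have h2 : 2 ^ (c + q - 1) = 2 ^ c * 2 ^ (q - 1) := by
    rw [← pow_add]
    congr 1
    omega
  have h3 : 2 ^ (q - 1) ≤ 2 ^ q - 1 := by
    obtain ⟨r, rfl⟩ : ∃ r, q = r + 1 := ⟨q - 1, by omega⟩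
    rw [Nat.add_sub_cancel, pow_succ]
    have : 1 ≤ 2 ^ r := Nat.one_le_two_pow
    omega
  have h4 : 2 ^ c * 2 ^ (q - 1) ≤ 2 ^ c * (2 ^ (q + 1) * t + (2 ^ q - 1)) :=
    Nat.mul_le_mul_left _ (by omega)
  omega

theorem tb_run (q c t j : ℕ) : (2 ^ c * (2 ^ (q + 1) * t + (2 ^ q - 1))).testBit j =
    if j < c then false else if j < c + q then true else if j < c + q + 1 then false
      else t.testBit (j - (c + q + 1)) := by
  have hlt : 2 ^ q - 1 < 2 ^ (q + 1) := by
    have h1 : 0 < 2 ^ q := by positivity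
    rw [pow_succ]
    omega
  rw [Nat.testBit_two_pow_mul, Nat.testBit_two_pow_mul_add _ hlt, Nat.testBit_two_pow_sub_one]
  by_cases h1 : j < c
  · simp [h1, Nat.not_le.2 h1]
  · have h1' : c ≤ j := not_lt.1 h1
    rw [if_neg h1]
    by_cases h2 : j < c + q
    · have e1 : j - c < q + 1 := by omega
      have e2 : j - c < q := by omega
      simp [h1', e1, e2, h2]
    · by_cases h3 : j < c + q + 1
      · have e1 : j - c < q + 1 := by omega
        have e2 : ¬ j - c < q := by omega
        simp [h1', e1, e2, h2, h3]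
      · have e1 : ¬ j - c < q + 1 := by omega
        have e3 : j - c - (q + 1) = j - (c + q + 1) := by omega
        simp [h1', e1, h2, h3, e3]

theorem tb_high (q c t j : ℕ) : (2 ^ (c + q + 1) * t).testBit j =
    if j < c + q + 1 then false else t.testBit (j - (c + q + 1)) := by
  rw [Nat.testBit_two_pow_mul]
  by_cases h1 : j < c + q + 1
  · have h2 : ¬ (c + q + 1 ≤ j) := not_le.2 h1
    rw [if_pos h1]
    simp only [ge_iff_le, h2, decide_false, Bool.false_and]
  · have h2 : c + q + 1 ≤ j := not_lt.1 h1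
    rw [if_neg h1]
    simp only [ge_iff_le, h2, decide_true, Bool.true_and]

theorem tr_high {k q c t : ℕ} (hk : c + q + 2 ≤ k) :
    tr k (2 ^ c * (2 ^ (q + 1) * t + (2 ^ q - 1))) = tr k (2 ^ (c + q + 1) * t) := by
  have key : ∀ (V V' : ℕ), (∀ j, c + q ≤ j → V.testBit j = V'.testBit j) →
      V.testBit (c + q) = false → tr k V ≤ tr k V' := by
    intro V V' h h0
    have h1 : ∀ i < tr k V, V.testBit (k - 1 - i) = true := by
      have := Nat.findGreatest_spec (P := fun q => ∀ i < q, V.testBit (k - 1 - i) = true)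
        (m := 0) (n := k) (Nat.zero_le _) (fun i hi => absurd hi (Nat.not_lt_zero i))
      exact this
    have h2 : tr k V ≤ k := Nat.findGreatest_le k
    have h3 : tr k V + (c + q) < k := by
      by_contra hcon
      have h4 := h1 (k - 1 - (c + q)) (by omega)
      have h5 : k - 1 - (k - 1 - (c + q)) = c + q := by omega
      rw [h5, h0] at h4
      exact Bool.false_ne_true h4
    refine Nat.le_findGreatest h2 ?_
    intro i hi
    rw [← h _ (by omega)]
    exact h1 i hi
  have e : ∀ j, c + q ≤ j → (2 ^ c * (2 ^ (q + 1) * t + (2 ^ q - 1))).testBit j =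
      (2 ^ (c + q + 1) * t).testBit j := by
    intro j hj
    rw [tb_run, tb_high, if_neg (by omega), if_neg (by omega)]
  have e0 : (2 ^ c * (2 ^ (q + 1) * t + (2 ^ q - 1))).testBit (c + q) = false := by
    rw [tb_run, if_neg (by omega), if_neg (by omega), if_pos (by omega)]
  have e1 : (2 ^ (c + q + 1) * t).testBit (c + q) = false := by
    rw [tb_high, if_pos (by omega)]
  exact le_antisymm (key _ _ e e0) (key _ _ (fun j hj => (e j hj).symm) e1)

theorem tr_low {k q c : ℕ} :
    extra k c q ≤ tr k (2 ^ c * (2 ^ (q + 1) * 0 + (2 ^ q - 1))) - 1 := by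
  unfold extra
  split_ifs with h
  · have h1 : q ≤ tr k (2 ^ c * (2 ^ (q + 1) * 0 + (2 ^ q - 1))) := by
      refine Nat.le_findGreatest (by omega) ?_
      intro i hi
      rw [tb_run, if_neg (by omega), if_pos (by omega)]
    omega
  · exact Nat.zero_le _

theorem full_long {W : Type} [AddCommGroup W] [Module (ZMod 2) W] [Finite W] {v : W → ℤ} {V : ℕ}
    (h : Gr v V) (hV : V < 2 ^ finrank (ZMod 2) W) (h3 : LongAll (finrank (ZMod 2) W) V) :
    ∃ P : Submodule (ZMod 2) W, (∀ x ∈ P, v x = ds V) ∧
      finrank (ZMod 2) W ≤ finrank (ZMod 2) P + cost (finrank (ZMod 2) W) V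
        + (tr (finrank (ZMod 2) W) V - 1) := by
  induction V using Nat.strong_induction_on generalizing v with
  | _ V ih =>
    by_cases hV0 : V = 0
    · subst hV0
      have h0 : v 0 = 0 := by rw [h.zero, ds_zero]; rfl
      refine ⟨⊤, fun x _ => ?_, ?_⟩
      · rw [psd_eq_zero h.psd h0 x, ds_zero]; rfl
      · rw [finrank_top]
        omega
    · obtain ⟨q, c, t, hq, rfl⟩ := exists_run_gen hV0
      have hlow : 0 < 2 ^ c * (2 ^ q - 1) := by
        apply Nat.mul_pos (by positivity)
        have h5 : 2 ^ 1 ≤ 2 ^ q := Nat.pow_le_pow_right (by norm_num) hq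
        omega
      have hlt : 2 ^ (c + q + 1) * t < 2 ^ c * (2 ^ (q + 1) * t + (2 ^ q - 1)) := by
        rw [V_eq]
        omega
      obtain ⟨v2, g2, g1, -⟩ := run_split (run_all q _ W rfl) h
      obtain ⟨P1, hP1, hd1⟩ := ih _ hlt g1 (hlt.trans hV) (longall_high h3)
      obtain ⟨P2, hP2, hd2⟩ := full_two hq g2 (lt_of_run hq hV)
        (fun h4 => longall_low h3 (by omega) h4)
      refine ⟨P1 ⊓ P2, fun x hx => ?_, ?_⟩
      · have h5 := hP1 x hx.1
        have h6 := hP2 x hx.2
        rw [ds_high] at h5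
        rw [ds_V]
        push_cast
        have h8 : v x - v2 x = (ds t : ℤ) := h5
        linarith
      · have h5 := inf_dim2 P1 P2
        rw [cost_run]
        by_cases ht : t = 0
        · subst ht
          have h6 := tr_low (k := finrank (ZMod 2) W) (q := q) (c := c)
          have h7 : tr (finrank (ZMod 2) W) (2 ^ (c + q + 1) * 0) = 0 := by
            unfold tr
            rw [Nat.findGreatest_eq_zero_iff]
            intro n hn _ hall
            have := hall 0 hn
            simp at this
          omega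
        · have h6 := k_ge (by omega) hV
          have h7 := tr_high (t := t) (k := finrank (ZMod 2) W) (q := q) (c := c) (by omega)
          have h8 : extra (finrank (ZMod 2) W) c q = 0 := by
            unfold extra
            rw [if_neg (by omega)]
          omega

end Pool.Agent.GR72
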