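/-
GR72/CritLong: necessity of the criterion with the condition `LongTop` (complete, from FullLong).
-/
import Pool.Agent.GR72.FullLong
import Pool.Agent.GR72.NecGen

namespace Pool.Agent.GR72

open Module

theorem crit_long {W : Type} [AddCommGroup W] [Module (ZMod 2) W] [Finite W] {v : W → ℤ}
    {V s : ℕ} (h : Gr v V) (hV : V < 2 ^ finrank (ZMod 2) W)
    (h3 : LongTop (finrank (ZMod 2) W) V (s + 1))
    (hs : 1 ≤ s) (hds : s + 1 ≤ ds V) (hb : ∀ x, x ≠ 0 → v x ≤ s) :
    finrank (ZMod 2) W ≤ topcost (finrank (ZMod 2) W) V (s + 1)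
      + (tr (finrank (ZMod 2) W) V - 1) := by
  classical
  induction V using Nat.strong_induction_on generalizing v with
  | _ V ih =>
  have hV0 : V ≠ 0 := by
    rintro rfl
    have : ds 0 = 0 := by simp [ds]
    omega
  obtain ⟨q, c, t, hq1, rfl⟩ := exists_run_gen hV0
  obtain ⟨v2, hv2, hv1, -⟩ := run_split (run_all q _ W rfl) h
  have hdsV := ds_V q c t
  have hdsV1 := ds_high q c t
  have hVeq := V_eq q c t
  have h2q : 2 ^ 1 ≤ 2 ^ q := Nat.pow_le_pow_right (by norm_num) hq1
  have hlow : 2 ^ (c + q - 1) ≤ 2 ^ c * (2 ^ q - 1) := by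
    obtain ⟨r, rfl⟩ : ∃ r, q = r + 1 := ⟨q - 1, by omega⟩
    have e1 : c + (r + 1) - 1 = c + r := by omega
    rw [e1, pow_add]
    refine Nat.mul_le_mul_left _ ?_
    rw [pow_succ]
    have : 1 ≤ 2 ^ r := Nat.one_le_two_pow
    omega
  have hlow1 : 1 ≤ 2 ^ c * (2 ^ q - 1) := le_trans Nat.one_le_two_pow hlow
  have hV1lt : 2 ^ (c + q + 1) * t < 2 ^ c * (2 ^ (q + 1) * t + (2 ^ q - 1)) := by
    rw [hVeq]
    omega
  by_cases hs1 : s + 1 ≤ ds t
  · -- the high part
    have h1 := ih _ hV1lt hv1 (hV1lt.trans hV) (long_high h3) (by rw [hdsV1]; exact hs1)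
      (fun x hx => by
        have h2 := hb x hx
        have h3 := gr_nonneg hv2 x
        show v x - v2 x ≤ s
        linarith)
    have ht : t ≠ 0 := by
      rintro rfl
      rw [ds_zero] at hs1
      omega
    have h6 := k_ge (by omega) hV
    have h7 := tr_high (t := t) (k := finrank (ZMod 2) W) (q := q) (c := c) (by omega)
    rw [topcost_run hs1, h7]
    omega
  by_cases hs2 : s = ds t
  · -- the cut after the first one of the run
    have h31 : LongAll (finrank (ZMod 2) W) (2 ^ (c + q + 1) * t) :=
      long_all_of_top (long_high h3) (by rw [hdsV1]; omega)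
    obtain ⟨P1, hP1, hk⟩ := full_long hv1 (hV1lt.trans hV) h31
    have hz : ∀ x ∈ P1, x ≠ 0 → v2 x = 0 := by
      intro x hx hx0
      have h1 : v x - v2 x = ds (2 ^ (c + q + 1) * t) := hP1 x hx
      rw [hdsV1, ← hs2] at h1
      have h2 := hb x hx0
      have h3 := gr_nonneg hv2 x
      linarith
    have hle := Submodule.finrank_le P1
    have h1 := gr_vanish hv2 P1 hz (j := finrank (ZMod 2) W - finrank (ZMod 2) P1) (by omega)
    have h2 : c + q - 1 < finrank (ZMod 2) W - finrank (ZMod 2) P1 + 1 :=
      (Nat.pow_lt_pow_iff_right (by norm_num : 1 < 2)).1 (lt_of_le_of_lt hlow h1)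
    have h4 := topcost_cut_gen hq1 (finrank (ZMod 2) W) c t
    rw [← hs2] at h4
    have ht : t ≠ 0 := by
      rintro rfl
      rw [ds_zero] at hs2
      omega
    have h6 := k_ge (by omega) hV
    have h7 := tr_high (t := t) (k := finrank (ZMod 2) W) (q := q) (c := c) (by omega)
    rw [h4, h7]
    omega
  · have hsV : s + 1 = ds (2 ^ c * (2 ^ (q + 1) * t + (2 ^ q - 1))) := by
      rw [hdsV] at hds ⊢
      by_cases hq3 : 3 ≤ q
      · have h5 := (long_low h3 hq3 (by omega)).1
        omega
      · omega
    have h31 : LongAll (finrank (ZMod 2) W) (2 ^ c * (2 ^ (q + 1) * t + (2 ^ q - 1))) :=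
      long_all_of_top h3 (by omega)
    obtain ⟨P, hP, hk⟩ := full_long h hV h31
    have hbot : P = ⊥ := by
      rw [Submodule.eq_bot_iff]
      intro x hx
      by_contra hx0
      have h1 := hP x hx
      have h2 := hb x hx0
      rw [h1, ← hsV] at h2
      push_cast at h2
      linarith
    rw [hbot, finrank_bot, zero_add] at hk
    rw [hsV, topcost_all]
    exact hk


/-- Under `LongTop` the initial run has length at most `m`. -/
theorem tr_le {k V m : ℕ} (hk : V < 2 ^ k) (hm : 2 ≤ m) (h : LongTop k V m) : tr k V ≤ m := by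
  by_contra hcon
  push Not at hcon
  have h1 : ∀ i < tr k V, V.testBit (k - 1 - i) = true :=
    Nat.findGreatest_spec (P := fun q => ∀ i < q, V.testBit (k - 1 - i) = true)
      (m := 0) (n := k) (Nat.zero_le _) (fun i hi => absurd hi (Nat.not_lt_zero i))
  have h2 : tr k V ≤ k := Nat.findGreatest_le k
  have h3 := h (k - tr k V) (tr k V) (by omega) (by
      intro i hi
      have h4 := h1 (tr k V - 1 - i) (by omega)
      have h5 : k - 1 - (tr k V - 1 - i) = k - tr k V + i := by omega
      rwa [h5] at h4) (by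
      have h5 : k - tr k V + tr k V = k := by omega
      rw [h5]
      exact Nat.testBit_lt_two_pow hk) (by
      by_cases h5 : k - tr k V = 0
      · exact Or.inl h5
      · right
        by_contra h6
        have h7 : tr k V + 1 ≤ tr k V := by
          refine Nat.le_findGreatest (by omega) ?_
          intro i hi
          rcases Nat.lt_or_ge i (tr k V) with h8 | h8
          · exact h1 i h8
          · have h9 : k - 1 - i = k - tr k V - 1 := by omega
            rw [h9]
            simpa using h6
        omega) (by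
      have h5 : k - tr k V + tr k V = k := by omega
      rw [h5, Nat.div_eq_of_lt hk, ds_zero]
      omega)
  omega

end Pool.Agent.GR72
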