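/-
GR72/Descend: from dimension `k + 1`, total `2 V`, to dimension `k`, total `V` (needs Core, Hyp, L1,
Digits, Psd, Basic).
`GoodV k V s`: there is a function with the Griesmer property for `V` on a space of dimension `k`
and values `≤ s` outside `0`.
* `descend`: `v` on `W`, `finrank W = k + 1`, `Gr v (2 * V)`.  Claim: some `φ ≠ 0` has `ft v φ = 0`;
  then `res v φ` on `ker φ` (dimension `k`, finrank_ker) is `Gr V` by gr_res (`2 V + 0 = 2 V`,
  `ds V = ds (2 V)`), and the bound is inherited.  Suppose not.  All `ft v φ` are even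
  (two_dvd_ft_sub_tot, `tot v = 2 V`) and `≥ 0`, so `ft v φ ≥ 2` for `φ ≠ 0`; there is some `φ ≠ 0`
  (`k + 1 ≥ 1`) and `ft v φ ≤ 2 V` (gr_ft_le).  Let `m ≥ 2` be the least value of `ft v φ`, `φ ≠ 0`
  (or simply take `m = 2`).  `v' = v - m * dl 0` has `ft v' φ = ft v φ - m ≥ 0` (ft_dl; also for
  `φ = 0`: `2 V - m ≥ 0`), so it is psd with total `2 V - m` and `v' 0 = ds (2 V) - m`; ds_le:
  `ds (2 V - m) ≤ ds (2 V) - m`, but `ds (2 V) ≤ ds (2 V - m) + ds m` (ds_add_le), so `m ≤ ds m`,
  contradiction to ds_lt_self (`m ≥ 2`).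
* `descend_pow`: iterate `r` times.
* `topcost_two_mul`: the bits of `2 V` are the bits of `V` plus one.
-/
import Pool.Agent.GR72.Core
import Pool.Agent.GR72.CostDefs

namespace Pool.Agent.GR72

open Module

/-- There is a function meeting the Griesmer inequality for `V` in dimension `k`, bounded by `s`. -/
def GoodV (k V s : ℕ) : Prop :=
  ∃ (W : Type) (_ : AddCommGroup W) (_ : Module (ZMod 2) W) (_ : Finite W) (v : W → ℤ),
    finrank (ZMod 2) W = k ∧ Gr v V ∧ ∀ x, x ≠ 0 → v x ≤ s

theorem descend {k V s : ℕ} (h : GoodV (k + 1) (2 * V) s) : GoodV k V s := by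
  obtain ⟨W, iW1, iW2, iW3, v, hk, hG, hs⟩ := h
  obtain ⟨ψ, hψ, h0⟩ := exists_zero hG (even_two_mul V) (by rw [hk]; omega)
  refine ⟨LinearMap.ker ψ, inferInstance, inferInstance, inferInstance, res v ψ, ?_, ?_, ?_⟩
  · have h1 := finrank_ker hψ
    rw [hk] at h1
    omega
  · refine gr_res hG V ?_ (ds_two_mul V).symm
    rw [h0]
    push_cast
    ring
  · intro x hx
    exact hs x (fun h1 => hx (Subtype.ext h1))

theorem descend_pow {k V s : ℕ} (r : ℕ) (h : GoodV (k + r) (2 ^ r * V) s) : GoodV k V s := by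
  induction r generalizing k V with
  | zero => simpa using h
  | succ r ih =>
    apply descend
    apply ih
    have e1 : k + 1 + r = k + (r + 1) := by omega
    have e2 : 2 ^ r * (2 * V) = 2 ^ (r + 1) * V := by
      rw [pow_succ]; ring
    rw [e1, e2]
    exact h

theorem topcost_two_mul (k V m : ℕ) : topcost (k + 1) (2 * V) m = topcost k V m := by
  unfold topcost
  rw [Nat.bitIndices_two_mul, ← List.map_reverse, ← List.map_take, List.map_map]
  congr 1
  apply List.map_congr_left
  intro j _
  simp only [Function.comp_apply]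
  omega

end Pool.Agent.GR72
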