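/-
GR72/Nec: necessity (needs Full, Peel, Psd.sum_sub).
Names: `k = finrank W`.  Strong induction on `V` (all `v`).  `V ≠ 0` because `ds V ≥ 2`.
exists_run: `V = 2^c (2^(q+1) t + (2^q - 1))`, `V1 = 2^(c+q+1) t < V`, `ds V = ds V1 + q` (ds_V);
run_one / run_two and run_split: `v = v1 + v2`, `Gr v1 V1`, `Gr v2 (2^c (2^q - 1))`, both
nonnegative (gr_nonneg).
(a) `s + 1 = ds V`: full_thm gives `P` with `v = s + 1` on `P`; so `P = ⊥` by `hb`, and
`k ≤ cost k V + eps k V`; topcost_all.
(b) `s + 1 ≤ ds V1`: `v1 x ≤ v x ≤ s` for `x ≠ 0`; induction hypothesis for `v1` (no3_high),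
topcost_run_one / topcost_run_two, eps_high.
(c) the remaining case `q = 2`, `s = ds V1`: `V1 ≠ 0` (`s ≥ 1`), so `t ≥ 1`.  full_thm for `v1`:
`P1` with `v1 = s` on `P1` and `k ≤ finrank P1 + cost k V1 + eps k V1`.  As `v ≤ s` off `0`,
`v2 x = 0` for `x ∈ P1`, `x ≠ 0`; `v2 0 = 2`.  So `∑ ind P1 x * v2 x = 2`, and sum_sub gives
`2^(finrank P1) * 3 * 2^c ≤ 2^k * 2`, so `finrank P1 + c < k`, `finrank P1 ≤ k - (c + 1)`.
Now topcost_cut and eps_high.
-/
import Pool.Agent.GR72.Full

namespace Pool.Agent.GR72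

open Module

theorem nec_thm {W : Type} [AddCommGroup W] [Module (ZMod 2) W] [Finite W] {v : W → ℤ}
    {V s : ℕ} (h : Gr v V) (hV : V < 2 ^ finrank (ZMod 2) W) (h3 : NoThreeOnes V) (hs : 1 ≤ s)
    (hds : s + 1 ≤ ds V) (hb : ∀ x, x ≠ 0 → v x ≤ s) :
    finrank (ZMod 2) W ≤ topcost (finrank (ZMod 2) W) V (s + 1)
      + eps (finrank (ZMod 2) W) V := by
  classical
  induction V using Nat.strong_induction_on generalizing v with
  | _ V ih =>
  by_cases hsV : s + 1 = ds V
  · obtain ⟨P, hP, hk⟩ := full_thm h hV h3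
    have hbot : P = ⊥ := by
      rw [Submodule.eq_bot_iff]
      intro x hx
      by_contra hx0
      have h1 := hP x hx
      have h2 := hb x hx0
      rw [h1, ← hsV] at h2
      push_cast at h2
      linarith
    rw [hbot, finrank_bot, zero_add] at hk
    rw [hsV, topcost_all]
    exact hk
  have hV0 : V ≠ 0 := by
    rintro rfl
    have : ds 0 = 0 := by simp [ds]
    omega
  obtain ⟨q, c, t, hq, rfl⟩ := exists_run hV0 h3
  have hR : RunAt q W := by
    rcases hq with rfl | rfl
    · exact run_one _ W rfl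
    · exact run_two _ W rfl
  obtain ⟨v2, hv2, hv1, -⟩ := run_split hR h
  have hdsV := ds_V q c t
  have hdsV1 := ds_high q c t
  have hVeq := V_eq q c t
  have hq1 : 1 ≤ q := by omega
  have hlow : 1 ≤ 2 ^ c * (2 ^ q - 1) := by
    have h1 : 2 ^ 1 ≤ 2 ^ q := Nat.pow_le_pow_right (by norm_num) hq1
    have h2 : 1 ≤ 2 ^ q - 1 := by omega
    have h3 : 1 ≤ 2 ^ c := Nat.one_le_two_pow
    exact Nat.mul_le_mul h3 h2
  have hV1lt : 2 ^ (c + q + 1) * t < 2 ^ c * (2 ^ (q + 1) * t + (2 ^ q - 1)) := by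
    rw [hVeq]
    omega
  by_cases hs1 : s + 1 ≤ ds (2 ^ (c + q + 1) * t)
  · -- the high part
    have h1 := ih _ hV1lt hv1 (hV1lt.trans hV) (no3_high h3) hs1 (fun x hx => by
      have h2 := hb x hx
      have h3 := gr_nonneg hv2 x
      show v x - v2 x ≤ s
      linarith)
    have h2 := eps_high (finrank (ZMod 2) W) q c t
    have h4 : topcost (finrank (ZMod 2) W) (2 ^ c * (2 ^ (q + 1) * t + (2 ^ q - 1))) (s + 1) =
        topcost (finrank (ZMod 2) W) (2 ^ (c + q + 1) * t) (s + 1) := by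
      rcases hq with rfl | rfl
      · exact topcost_run_one hs1
      · exact topcost_run_two hs1
    rw [h4]
    omega
  · -- the cut inside the pair
    have hq2 : q = 2 := by
      rcases hq with rfl | rfl
      · exfalso
        rw [hdsV1] at hs1
        omega
      · rfl
    subst hq2
    have hst : s = ds t := by
      rw [hdsV1] at hs1
      omega
    obtain ⟨P1, hP1, hk⟩ := full_thm hv1 (hV1lt.trans hV) (no3_high h3)
    have hv20 : v2 0 = 2 := by
      rw [hv2.zero, ds_low]
      rfl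
    have hz : ∀ x ∈ P1, x ≠ 0 → v2 x = 0 := by
      intro x hx hx0
      have h1 : v x - v2 x = ds (2 ^ (c + 2 + 1) * t) := hP1 x hx
      rw [hdsV1, ← hst] at h1
      have h2 := hb x hx0
      have h3 := gr_nonneg hv2 x
      linarith
    have hsum : ∑ᶠ x, ind P1 x * v2 x = 2 := by
      haveI := Fintype.ofFinite W
      rw [finsum_eq_sum_of_fintype, Finset.sum_eq_single (0 : W)]
      · rw [hv20]
        simp [ind]
      · intro x _ hx0
        by_cases hx : x ∈ P1
        · rw [hz x hx hx0, mul_zero]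
        · simp [ind, hx]
      · intro h
        exact absurd (Finset.mem_univ _) h
    have h1 := sum_sub hv2.psd P1
    rw [hsum, hv2.tot] at h1
    have hlt : finrank (ZMod 2) P1 + c < finrank (ZMod 2) W := by
      by_contra hcon
      push Not at hcon
      have h2 : (2 : ℤ) ^ finrank (ZMod 2) W ≤ 2 ^ (finrank (ZMod 2) P1 + c) :=
        pow_le_pow_right₀ (by norm_num) hcon
      have h4 : ((2 ^ c * (2 ^ 2 - 1) : ℕ) : ℤ) = 3 * 2 ^ c := by
        push_cast
        norm_num
        ring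
      rw [h4, show (2 : ℤ) ^ finrank (ZMod 2) P1 * (3 * 2 ^ c) =
        3 * 2 ^ (finrank (ZMod 2) P1 + c) by rw [pow_add]; ring] at h1
      have h5 : (0 : ℤ) < 2 ^ finrank (ZMod 2) W := by positivity
      linarith
    have h2 := eps_high (finrank (ZMod 2) W) 2 c t
    have h4 := topcost_cut (finrank (ZMod 2) W) c t
    rw [hdsV1, ← hst] at h4
    rw [h4]
    omega

end Pool.Agent.GR72
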