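/-
GR72/EpsCore: the core of the exceptional construction (needs Belov (only PW, finrank_PW), Basic,
Psd, Digits).
For `x : PW k` (`k ≥ 4`) let `c i = (x : (ZMod 2)[X]).coeff i`, `i = 0, 1, 2, 3`, and `c4 = c 0 +
c 1 + c 2 + c 3`.  The number of ones among the five values is even, so
`3 + sg (c 0) + sg (c 1) + sg (c 2) + sg (c 3) + sg c4 ∈ {8, 4, 0}` is `4 * u x` with
`u x ∈ {2, 1, 0}`, `u x = 2` iff `c 0 = c 1 = c 2 = c 3 = 0` iff `X^4 ∣ x`
(`Polynomial.X_pow_dvd_iff`).  (Define `u x` by `Int` division by 4, or by cases.)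
`4 * ft u φ = 3 * ft 1 φ + ∑ ft (sg ∘ ψ_i) φ ≥ 0` with `ψ_i` the five linear functionals (they are
nonzero: `ψ_4 (1) = 1` etc.; ft_sg, ft_one), `4 * tot u = 3 * 2^k`, `u 0 = 2 = ds (3 * 2^(k-2))`.
-/
import Pool.Agent.GR72.Belov
import Pool.Agent.GR72.Psd
import Pool.Agent.GR72.Digits

namespace Pool.Agent.GR72

open Polynomial Module

/-- the coefficient functional -/
noncomputable def epsCf (k i : ℕ) : Dual (ZMod 2) (PW k) :=
  (Polynomial.lcoeff (ZMod 2) i).comp (Polynomial.degreeLT (ZMod 2) k).subtype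

theorem epsCf_apply (k i : ℕ) (x : PW k) : epsCf k i x = (x : (ZMod 2)[X]).coeff i := rfl

/-- the monomial -/
noncomputable def epsMono (k i : ℕ) (h : i < k) : PW k :=
  ⟨X ^ i, by
    rw [Polynomial.mem_degreeLT, Polynomial.degree_X_pow]
    exact_mod_cast h⟩

theorem epsMono_coe (k i : ℕ) (h : i < k) : ((epsMono k i h : PW k) : (ZMod 2)[X]) = X ^ i := rfl

theorem epsCf_mono (k i j : ℕ) (h : j < k) :
    epsCf k i (epsMono k j h) = if i = j then 1 else 0 := by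
  rw [epsCf_apply, epsMono_coe, Polynomial.coeff_X_pow]

/-- the function of the four coefficients -/
def epsU (a b c d : ZMod 2) : ℤ := (3 + sg a + sg b + sg c + sg d + sg (a + b + c + d)) / 4

theorem epsU_mul (a b c d : ZMod 2) :
    4 * epsU a b c d = 3 + sg a + sg b + sg c + sg d + sg (a + b + c + d) := by
  revert a b c d
  decide

theorem epsU_le (a b c d : ZMod 2) : epsU a b c d ≤ 2 := by
  revert a b c d
  decide

theorem epsU_le_one (a b c d : ZMod 2) (h : ¬ (a = 0 ∧ b = 0 ∧ c = 0 ∧ d = 0)) :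
    epsU a b c d ≤ 1 := by
  revert a b c d
  decide

theorem eps_core {k : ℕ} (hk : 4 ≤ k) : ∃ u : PW k → ℤ, Gr u (3 * 2 ^ (k - 2)) ∧
    (∀ x, u x ≤ 2) ∧ ∀ x : PW k, ¬ ((X ^ 4 : (ZMod 2)[X]) ∣ (x : (ZMod 2)[X])) → u x ≤ 1 := by
  classical
  set u : PW k → ℤ := fun x => epsU (epsCf k 0 x) (epsCf k 1 x) (epsCf k 2 x) (epsCf k 3 x)
    with hu
  have hu4 : ∀ x, 4 * u x = 3 * 1 + (sg (epsCf k 0 x) + (sg (epsCf k 1 x) + (sg (epsCf k 2 x) +
      (sg (epsCf k 3 x) + sg ((epsCf k 0 + epsCf k 1 + epsCf k 2 + epsCf k 3) x))))) := by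
    intro x
    simp only [hu]
    rw [epsU_mul]
    simp only [LinearMap.add_apply]
    ring
  have hft : ∀ φ : Dual (ZMod 2) (PW k), 4 * ft u φ = 3 * ft (fun _ : PW k => (1 : ℤ)) φ +
      (ft (fun x => sg (epsCf k 0 x)) φ + (ft (fun x => sg (epsCf k 1 x)) φ +
      (ft (fun x => sg (epsCf k 2 x)) φ + (ft (fun x => sg (epsCf k 3 x)) φ +
      ft (fun x => sg ((epsCf k 0 + epsCf k 1 + epsCf k 2 + epsCf k 3) x)) φ)))) := by
    intro φ
    rw [← ft_mul, ← ft_mul, ← ft_add, ← ft_add, ← ft_add, ← ft_add, ← ft_add]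
    congr 1
    funext x
    exact hu4 x
  have hnn : ∀ ψ φ : Dual (ZMod 2) (PW k), 0 ≤ ft (fun x => sg (ψ x)) φ := by
    intro ψ φ
    rw [ft_sg]
    split_ifs
    · positivity
    · exact le_rfl
  have hone : ∀ φ : Dual (ZMod 2) (PW k), 0 ≤ ft (fun _ : PW k => (1 : ℤ)) φ := by
    intro φ
    rw [ft_one]
    split_ifs
    · positivity
    · exact le_rfl
  have hz : ∀ ψ : Dual (ZMod 2) (PW k), (∃ x, ψ x = 1) → ft (fun x => sg (ψ x)) 0 = 0 := by
    rintro ψ ⟨x, hx⟩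
    rw [ft_sg, if_neg]
    rintro rfl
    simp at hx
  have h0 : (0 : ℕ) < k := by omega
  have h1 : (1 : ℕ) < k := by omega
  have h2 : (2 : ℕ) < k := by omega
  have h3 : (3 : ℕ) < k := by omega
  refine ⟨u, ⟨?_, ?_, ?_⟩, ?_, ?_⟩
  · intro φ
    have e := hft φ
    have a0 := hnn (epsCf k 0) φ
    have a1 := hnn (epsCf k 1) φ
    have a2 := hnn (epsCf k 2) φ
    have a3 := hnn (epsCf k 3) φ
    have a4 := hnn (epsCf k 0 + epsCf k 1 + epsCf k 2 + epsCf k 3) φ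
    have a5 := hone φ
    linarith
  · have e := hft 0
    rw [hz (epsCf k 0) ⟨epsMono k 0 h0, by rw [epsCf_mono]; rfl⟩,
      hz (epsCf k 1) ⟨epsMono k 1 h1, by rw [epsCf_mono]; rfl⟩,
      hz (epsCf k 2) ⟨epsMono k 2 h2, by rw [epsCf_mono]; rfl⟩,
      hz (epsCf k 3) ⟨epsMono k 3 h3, by rw [epsCf_mono]; rfl⟩,
      hz (epsCf k 0 + epsCf k 1 + epsCf k 2 + epsCf k 3) ⟨epsMono k 0 h0, by
        simp only [LinearMap.add_apply, epsCf_mono]
        decide⟩, ft_zero, ft_zero, tot_one, finrank_PW] at e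
    have hp : (2 : ℤ) ^ k = 4 * 2 ^ (k - 2) := by
      obtain ⟨m, rfl⟩ : ∃ m, k = m + 2 := ⟨k - 2, by omega⟩
      rw [Nat.add_sub_cancel, pow_add]
      ring
    push_cast
    rw [hp] at e
    linarith
  · have e1 : u 0 = 2 := by
      simp only [hu, map_zero]
      decide
    have e2 : ds (3 * 2 ^ (k - 2)) = 2 := by
      rw [mul_comm, ds_two_pow_mul]
      rfl
    rw [e1, e2]
    rfl
  · intro x
    exact epsU_le _ _ _ _
  · intro x hx
    apply epsU_le_one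
    rintro ⟨c0, c1, c2, c3⟩
    apply hx
    rw [Polynomial.X_pow_dvd_iff]
    intro d hd
    interval_cases d
    · exact c0
    · exact c1
    · exact c2
    · exact c3

end Pool.Agent.GR72
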