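/-
GR72/Suff: sufficiency (needs Belov.general_position, EpsCore, Top, Psd, Digits, Basic).
For subspaces `P j` with `finrank (P j) = j` for `j ∈ V.bitIndices` the function
`v x = ∑ j ∈ V.bitIndices.toFinset, ind (P j) x` is `Gr V` (`gr_sum`): psd_ind and sums; `tot_ind` and
`∑ j ∈ V.bitIndices.toFinset, 2^j = V` (`Nat.twoPowSum_bitIndices` etc., the list has no
duplicates: `Nat.bitIndices_sorted`); `v 0 = #bits = ds V`.
* `suff_any`: general_position gives the `P j` (mem_bits_lt).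
* `suff_one`: the same `v` for the `P j` of general_position.  Let `x ≠ 0` and
  `A = {j ∈ bits | x ∈ P j}`, `v x = #A`.  If `#A ≥ s + 1` take `I ⊆ A` with `s + 1` elements;
  `k ≤ topcost k V (s+1) ≤ ∑ j ∈ I, (k - j) < k` (topcost_le), contradiction.
* `suff_two`: top_form: `V = 3 * 2^(k-2) + R`, `R < 2^(k-3)`, so all `j ∈ R.bitIndices` satisfy
  `j + 1 ≤ k - 3`, `j + 4 ≤ k` (mem_bits_lt).  `v = u + ∑ j ∈ R.bitIndices.toFinset, ind (P j)`,
  `u` from eps_core; `Gr v V` (`ds V = ds (3 * 2^(k-2)) + ds R`: ds_two_pow_mul_add with exponent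
  `k - 2`, `ds 3 = 2`).  Let `x ≠ 0`, `A = {j ∈ bits of R | x ∈ P j}`, suppose `v x ≥ s + 1`.
  If `X^4 ∣ x`: `#A ≥ s - 1`; `I ⊆ A` with `s - 1` elements: by general_position
  `4 + ∑ j ∈ I, (k - j) < k`, but `∑ j ∈ I, (k-j) ≥ topcost k R (s-1)` and
  `topcost k V (s+1) = 3 + topcost k R (s-1)` (topcost_two), so `4 + ∑ ≥ 1 + topcost k V (s+1) ≥ k`.
  If not: `u x ≤ 1`, `#A ≥ s`; `I ⊆ A` with `s` elements: `∑ j ∈ I, (k-j) < k`, but
  `∑ ≥ topcost k R s ≥ topcost k R (s-1) + 4 = topcost k V (s+1) + 1 ≥ k` (topcost_succ, `B = 4`).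
-/
import Pool.Agent.GR72.EpsCore
import Pool.Agent.GR72.Top

namespace Pool.Agent.GR72

open Module

private theorem sum_ind {W : Type} [AddCommGroup W] [Module (ZMod 2) W] [Finite W]
    (P : ℕ → Submodule (ZMod 2) W) (S : Finset ℕ) (hP : ∀ j ∈ S, finrank (ZMod 2) (P j) = j) :
    Psd (fun x => ∑ j ∈ S, ind (P j) x) ∧
      tot (fun x => ∑ j ∈ S, ind (P j) x) = ((∑ j ∈ S, 2 ^ j : ℕ) : ℤ) ∧
      ∑ j ∈ S, ind (P j) 0 = S.card := by
  classical
  induction S using Finset.induction_on with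
  | empty =>
    refine ⟨?_, ?_, ?_⟩
    · intro φ
      have e : (fun x : W => ∑ j ∈ (∅ : Finset ℕ), ind (P j) x) = fun _ => (0 : ℤ) * 1 := by
        funext x
        simp
      rw [e, ft_mul, zero_mul]
    · have e : (fun x : W => ∑ j ∈ (∅ : Finset ℕ), ind (P j) x) = fun _ => (0 : ℤ) * 1 := by
        funext x
        simp
      rw [e, tot_mul, zero_mul]
      simp
    · simp
  | insert a S ha ih =>
    obtain ⟨h1, h2, h3⟩ := ih (fun j hj => hP j (Finset.mem_insert_of_mem hj))
    have e : (fun x : W => ∑ j ∈ insert a S, ind (P j) x) =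
        fun x => ind (P a) x + ∑ j ∈ S, ind (P j) x := by
      funext x
      rw [Finset.sum_insert ha]
    rw [e]
    refine ⟨psd_add (psd_ind (P a)) h1, ?_, ?_⟩
    · rw [tot_add (ind (P a)) (fun x => ∑ j ∈ S, ind (P j) x), tot_ind, h2,
        hP a (Finset.mem_insert_self a S), Finset.sum_insert ha]
      push_cast
      ring
    · rw [Finset.sum_insert ha, h3, Finset.card_insert_of_notMem ha]
      have : ind (P a) 0 = 1 := by
        unfold ind
        exact if_pos (zero_mem _)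
      rw [this]
      push_cast
      ring

open Classical in
theorem gr_sum {W : Type} [AddCommGroup W] [Module (ZMod 2) W] [Finite W] {V : ℕ}
    (P : ℕ → Submodule (ZMod 2) W) (hP : ∀ j ∈ V.bitIndices, finrank (ZMod 2) (P j) = j) :
    Gr (fun x => ∑ j ∈ V.bitIndices.toFinset, ind (P j) x) V := by
  obtain ⟨h1, h2, h3⟩ := sum_ind P V.bitIndices.toFinset
    (fun j hj => hP j (List.mem_toFinset.1 hj))
  refine ⟨h1, ?_, ?_⟩
  · rw [h2, Finset.sum_toFinset_bitIndices_two_pow]
  · show ∑ j ∈ V.bitIndices.toFinset, ind (P j) 0 = ds V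
    rw [h3, card_bits]

theorem suff_any {k V : ℕ} (hV : V < 2 ^ k) : ∃ v : PW k → ℤ, Gr v V := by
  obtain ⟨P, hP, -, -⟩ := general_position k
  exact ⟨_, gr_sum P (fun j hj => hP j (mem_bits_lt hV hj))⟩

open Classical in
private theorem sum_ind_apply {W : Type} [AddCommGroup W] [Module (ZMod 2) W]
    (P : ℕ → Submodule (ZMod 2) W) (S : Finset ℕ) (x : W) :
    ∑ j ∈ S, ind (P j) x = ((S.filter (fun j => x ∈ P j)).card : ℤ) := by
  unfold ind
  rw [Finset.sum_boole]

theorem suff_one {k V s : ℕ} (hV : V < 2 ^ k) (hs : s + 1 ≤ ds V)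
    (h : k ≤ topcost k V (s + 1)) : ∃ v : PW k → ℤ, Gr v V ∧ ∀ x, x ≠ 0 → v x ≤ s := by
  classical
  obtain ⟨P, hP, hgp, -⟩ := general_position k
  refine ⟨_, gr_sum P (fun j hj => hP j (mem_bits_lt hV hj)), fun x hx => ?_⟩
  show ∑ j ∈ V.bitIndices.toFinset, ind (P j) x ≤ s
  rw [sum_ind_apply]
  by_contra hc
  have hc' : s + 1 ≤ (V.bitIndices.toFinset.filter (fun j => x ∈ P j)).card := by
    push Not at hc
    exact_mod_cast hc
  obtain ⟨I, hI, hcard⟩ := Finset.exists_subset_card_eq hc'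
  have hIV : I ⊆ V.bitIndices.toFinset := hI.trans (Finset.filter_subset _ _)
  have h1 := hgp I x (fun j hj => mem_bits_lt hV (List.mem_toFinset.1 (hIV hj))) hx
    (fun j hj => (Finset.mem_filter.1 (hI hj)).2)
  have h2 := topcost_le (k := k) I hIV
  rw [hcard] at h2
  omega

theorem suff_two {k V s : ℕ} (hk : 4 ≤ k) (hV : V < 2 ^ k) (h3 : NoThreeOnes V)
    (he : eps k V = 1) (hs1 : 1 ≤ s) (hs : s + 1 ≤ ds V) (h : k ≤ topcost k V (s + 1) + 1) :
    ∃ v : PW k → ℤ, Gr v V ∧ ∀ x, x ≠ 0 → v x ≤ s := by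
  classical
  obtain ⟨R, rfl, hR⟩ := top_form (by omega) hV h3 he
  obtain ⟨u, hu, hu2, hu1⟩ := eps_core hk
  obtain ⟨P, hP, hgp, hgp4⟩ := general_position k
  have hR2 : R < 2 ^ (k - 2) :=
    hR.trans (Nat.pow_lt_pow_right (by norm_num) (by omega))
  have hb4 : ∀ j ∈ R.bitIndices, j + 4 ≤ k := by
    intro j hj
    have := mem_bits_lt hR hj
    omega
  have hgr := gr_sum P (V := R) (fun j hj => hP j (by have := hb4 j hj; omega))
  have hds : ds (3 * 2 ^ (k - 2) + R) = ds (3 * 2 ^ (k - 2)) + ds R := by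
    rw [Nat.mul_comm, ds_two_pow_mul_add _ _ _ hR2, ds_two_pow_mul]
  refine ⟨fun x => u x + ∑ j ∈ R.bitIndices.toFinset, ind (P j) x,
    ⟨psd_add hu.psd hgr.psd, ?_, ?_⟩, ?_⟩
  · rw [tot_add u (fun x => ∑ j ∈ R.bitIndices.toFinset, ind (P j) x), hu.tot, hgr.tot]
    push_cast
    ring
  · have h5 := hu.zero
    have h6 : ∑ j ∈ R.bitIndices.toFinset, ind (P j) 0 = (ds R : ℤ) := hgr.zero
    show u 0 + ∑ j ∈ R.bitIndices.toFinset, ind (P j) 0 = _
    rw [h5, h6, hds]
    push_cast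
    ring
  · intro x hx
    show u x + ∑ j ∈ R.bitIndices.toFinset, ind (P j) x ≤ s
    rw [sum_ind_apply]
    by_contra hc
    push Not at hc
    have htop : topcost k (3 * 2 ^ (k - 2) + R) (s + 1) = 3 + topcost k R (s - 1) := by
      have e : s + 1 = (s - 1) + 2 := by omega
      rw [e]
      exact topcost_two (by omega) hR2
    rw [htop] at h
    by_cases hX : ((Polynomial.X ^ 4 : Polynomial (ZMod 2)) ∣ (x : Polynomial (ZMod 2)))
    · have h5 := hu2 x
      have hc' : s - 1 ≤ (R.bitIndices.toFinset.filter (fun j => x ∈ P j)).card := by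
        omega
      obtain ⟨I, hI, hcard⟩ := Finset.exists_subset_card_eq hc'
      have hIV : I ⊆ R.bitIndices.toFinset := hI.trans (Finset.filter_subset _ _)
      have h6 := hgp4 I x (fun j hj => hb4 j (List.mem_toFinset.1 (hIV hj))) hx hX
        (fun j hj => (Finset.mem_filter.1 (hI hj)).2)
      have h7 := topcost_le (k := k) I hIV
      rw [hcard] at h7
      omega
    · have h5 := hu1 x hX
      have hc' : s ≤ (R.bitIndices.toFinset.filter (fun j => x ∈ P j)).card := by
        omega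
      have hle : (R.bitIndices.toFinset.filter (fun j => x ∈ P j)).card ≤ ds R := by
        rw [← card_bits]
        exact Finset.card_le_card (Finset.filter_subset _ _)
      obtain ⟨I, hI, hcard⟩ := Finset.exists_subset_card_eq hc'
      have hIV : I ⊆ R.bitIndices.toFinset := hI.trans (Finset.filter_subset _ _)
      have h6 := hgp I x (fun j hj => by
          have := hb4 j (List.mem_toFinset.1 (hIV hj)); omega) hx
        (fun j hj => (Finset.mem_filter.1 (hI hj)).2)
      have h7 := topcost_le (k := k) I hIV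
      have h8 := topcost_succ (k := k) (V := R) (m := s - 1) (B := 4) (by omega) hb4
      have e : s - 1 + 1 = s := by omega
      rw [hcard] at h7
      rw [e] at h8
      omega

end Pool.Agent.GR72
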