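/-
GR72/ToCode: from a function to a code (needs L1 (exists_zero), Digits.griesmer_eq, CodeDefs).
For `x ≠ 0` let `m x = (s - v x).toNat` (`s - v x ≥ 0`), `m 0 = 0`.  Index type
`J = Σ x : W, Fin (m x)`; `card J = ∑ x, m x = s (2^k - 1) - (2 D - ds (2 D))`
`= 2 d + ds D - s = griesmer k d` (`2^k = 2 * 2^(k-1)`, ds_two_mul, griesmer_eq).  Fix
`σ : Fin (griesmer k d) ≃ J`.  The linear map `L : Dual (ZMod 2) W →ₗ (Fin _ → ZMod 2)`,
`L φ i = φ (σ i).1`.  Its value has Hamming norm
`∑_{φ x = 1} m x = ∑_{x ≠ 0} (1 - sg (φ x)) / 2 * (s - v x)`; in doubled form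
`2 * hammingNorm (L φ) = ∑ x, (1 - sg (φ x)) (s - v x) = s 2^k - (2 D - ft v φ)
= 2 d + ft v φ` for `φ ≠ 0` (ft_one).  So the norm is `≥ d ≥ 1` for `φ ≠ 0`; `L` is injective,
`C = range L` has dimension `finrank (Dual W) = k`, and by exists_zero (`V = 2 D` even, `k ≥ 1`)
some `φ ≠ 0` has `ft v φ = 0`, norm exactly `d`.
-/
import Pool.Agent.GR72.L1

namespace Pool.Agent.GR72

open Module

theorem to_code {W : Type} [AddCommGroup W] [Module (ZMod 2) W] [Finite W] {k d s D : ℕ}
    (hk : 1 ≤ k) (hd : 1 ≤ d) (h : s * 2 ^ (k - 1) = d + D) (hD : D < 2 ^ (k - 1))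
    (hW : finrank (ZMod 2) W = k) {v : W → ℤ} (hv : Gr v (2 * D))
    (hb : ∀ x, x ≠ 0 → v x ≤ s) :
    ∃ C : Submodule (ZMod 2) (Fin (griesmer k d) → ZMod 2), IsCode (griesmer k d) k d C := by
  classical
  haveI := Fintype.ofFinite W
  set m : W → ℕ := fun x => if x = 0 then 0 else ((s : ℤ) - v x).toNat with hm
  have hmx : ∀ x, x ≠ 0 → (m x : ℤ) = s - v x := by
    intro x hx
    have := hb x hx
    rw [hm]
    simp only [hx, if_false]
    rw [Int.toNat_of_nonneg (by linarith)]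
  have hm0 : m 0 = 0 := by simp [hm]
  have hpow : (2 : ℤ) ^ k = 2 * 2 ^ (k - 1) := by
    rw [← pow_succ']
    congr 1
    omega
  have hz : (s : ℤ) * 2 ^ (k - 1) = d + D := by exact_mod_cast h
  have hgr := griesmer_eq k d s D hk h hD
  have hgr' : (griesmer k d : ℤ) + s = 2 * d + ds D := by exact_mod_cast hgr
  have htot := hv.tot
  rw [tot_eq_sum] at htot
  have hzero := hv.zero
  rw [ds_two_mul] at hzero
  have hcardW : (Fintype.card W : ℤ) = 2 ^ k := by
    have := card_eq W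
    rw [Nat.card_eq_fintype_card, hW] at this
    exact_mod_cast this
  have hsum : ∑ x, m x = griesmer k d := by
    have h1 : ∑ x, (m x : ℤ) = ∑ x, ((s : ℤ) - v x) - (s - v 0) := by
      rw [← Finset.sum_erase_add _ _ (Finset.mem_univ (0 : W)),
        ← Finset.sum_erase_add Finset.univ (fun x => (s : ℤ) - v x) (Finset.mem_univ (0 : W)), hm0]
      rw [Finset.sum_congr rfl (fun x hx => hmx x (Finset.ne_of_mem_erase hx))]
      push_cast
      ring
    rw [Finset.sum_sub_distrib, htot, Finset.sum_const, Finset.card_univ, nsmul_eq_mul, hcardW,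
      hpow, hzero] at h1
    have h2 : ((∑ x, m x : ℕ) : ℤ) = griesmer k d := by
      push_cast
      rw [h1]
      push_cast
      linear_combination 2 * hz - hgr'
    exact_mod_cast h2
  have hcardJ : Fintype.card (Σ x : W, Fin (m x)) = griesmer k d := by
    rw [Fintype.card_sigma]
    simp only [Fintype.card_fin]
    exact hsum
  let σ : Fin (griesmer k d) ≃ (Σ x : W, Fin (m x)) := (Fintype.equivFinOfCardEq hcardJ).symm
  let L : Dual (ZMod 2) W →ₗ[ZMod 2] (Fin (griesmer k d) → ZMod 2) :=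
    { toFun := fun φ i => φ (σ i).1
      map_add' := fun φ ψ => by
        funext i
        rfl
      map_smul' := fun c φ => by
        funext i
        rfl }
  have hnorm : ∀ φ : Dual (ZMod 2) W, φ ≠ 0 → 2 * (hammingNorm (L φ) : ℤ) = 2 * d + ft v φ := by
    intro φ hφ
    have h1 : (hammingNorm (L φ) : ℤ) = ∑ i, (if φ (σ i).1 ≠ 0 then (1 : ℤ) else 0) := by
      rw [Finset.sum_boole]
      simp only [hammingNorm]
      rfl
    have h2 : ∑ i, (if φ (σ i).1 ≠ 0 then (1 : ℤ) else 0) =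
        ∑ j : (Σ x : W, Fin (m x)), (if φ j.1 ≠ 0 then (1 : ℤ) else 0) :=
      Equiv.sum_comp σ (fun j : (Σ x : W, Fin (m x)) => if φ j.1 ≠ 0 then (1 : ℤ) else 0)
    have h3 : ∑ j : (Σ x : W, Fin (m x)), (if φ j.1 ≠ 0 then (1 : ℤ) else 0) =
        ∑ x, (m x : ℤ) * (if φ x ≠ 0 then (1 : ℤ) else 0) := by
      rw [Fintype.sum_sigma]
      refine Finset.sum_congr rfl fun x _ => ?_
      change ∑ _y : Fin (m x), (if φ x ≠ 0 then (1 : ℤ) else 0) = _
      rw [Finset.sum_const, Finset.card_univ, Fintype.card_fin, nsmul_eq_mul]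
    have h4 : ∑ x, 2 * ((m x : ℤ) * (if φ x ≠ 0 then (1 : ℤ) else 0)) =
        ∑ x, ((s : ℤ) - v x - s * (sg (φ x) * 1) + sg (φ x) * v x) := by
      refine Finset.sum_congr rfl fun x _ => ?_
      rcases zmod_cases (φ x) with hx | hx
      · rw [hx]
        simp [sg]
      · have hx0 : x ≠ 0 := by
          intro h0
          rw [h0, map_zero] at hx
          exact absurd hx (by decide)
        rw [hmx x hx0, hx, sg_one]
        simp only [ne_eq, one_ne_zero, not_false_eq_true, if_true]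
        ring
    rw [h1, h2, h3, Finset.mul_sum, h4]
    have h5 := ft_one φ
    rw [if_neg hφ, ft_eq_sum] at h5
    rw [Finset.sum_add_distrib, Finset.sum_sub_distrib, Finset.sum_sub_distrib, htot,
      ← Finset.mul_sum, h5, Finset.sum_const, Finset.card_univ, nsmul_eq_mul, hcardW, hpow,
      ← ft_eq_sum]
    push_cast
    linear_combination 2 * hz
  have hge : ∀ φ : Dual (ZMod 2) W, φ ≠ 0 → d ≤ hammingNorm (L φ) := by
    intro φ hφ
    have h1 := hnorm φ hφ
    have h2 := hv.psd φ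
    have h3 : (d : ℤ) ≤ hammingNorm (L φ) := by linarith
    exact_mod_cast h3
  have hinj : Function.Injective L := by
    rw [← LinearMap.ker_eq_bot, LinearMap.ker_eq_bot']
    intro φ hφ
    by_contra hne
    have h1 := hge φ hne
    rw [hφ, hammingNorm_zero] at h1
    omega
  refine ⟨LinearMap.range L, ?_, ?_, ?_⟩
  · rw [LinearMap.finrank_range_of_inj hinj, finrank_dual_eq, hW]
  · rintro c ⟨φ, rfl⟩ hc
    refine hge φ ?_
    intro h0
    rw [h0, map_zero] at hc
    exact hc rfl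
  · obtain ⟨ψ, hψ, hψ0⟩ := exists_zero hv ⟨D, by ring⟩ (by omega)
    have h1 := hnorm ψ hψ
    rw [hψ0, add_zero] at h1
    have h2 : hammingNorm (L ψ) = d := by
      have : (hammingNorm (L ψ) : ℤ) = d := by linarith
      exact_mod_cast this
    refine ⟨L ψ, ⟨ψ, rfl⟩, ?_, h2⟩
    intro h0
    rw [h0, hammingNorm_zero] at h2
    omega

end Pool.Agent.GR72
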