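/-
GR72/Final: the main theorem (proved from the stubs).
-/
import Pool.Agent.GR72.Nec
import Pool.Agent.GR72.CodeTo
import Pool.Agent.GR72.ToCode
import Pool.Agent.GR72.Suff

namespace Pool.Agent.GR72

open Module

/-- `s = ⌈d / 2^(k-1)⌉` and `D = s 2^(k-1) - d`. -/
theorem sD {k d : ℕ} (hd : 1 ≤ d) : 1 ≤ d ⌈/⌉ 2 ^ (k - 1) ∧
    (d ⌈/⌉ 2 ^ (k - 1)) * 2 ^ (k - 1) = d + ((d ⌈/⌉ 2 ^ (k - 1)) * 2 ^ (k - 1) - d) ∧
    (d ⌈/⌉ 2 ^ (k - 1)) * 2 ^ (k - 1) - d < 2 ^ (k - 1) := by
  have hp : 0 < 2 ^ (k - 1) := by positivity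
  rw [Nat.ceilDiv_eq_add_pred_div]
  generalize 2 ^ (k - 1) = N at *
  have h1 := Nat.div_add_mod (d + N - 1) N
  have h2 := Nat.mod_lt (d + N - 1) hp
  have h3 : (d + N - 1) / N * N = N * ((d + N - 1) / N) := mul_comm _ _
  have h4 : 1 ≤ (d + N - 1) / N := by
    rw [Nat.le_div_iff_mul_le hp]; omega
  refine ⟨h4, ?_, ?_⟩ <;> rw [h3] <;> omega

theorem attained_iff {k d : ℕ} (hk : 1 ≤ k) (hd : 1 ≤ d) : Attained k d ↔
    ∃ C : Submodule (ZMod 2) (Fin (griesmer k d) → ZMod 2), IsCode (griesmer k d) k d C := by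
  obtain ⟨-, h2, h3⟩ := sD (k := k) hd
  have hb : ∀ n, (∃ C : Submodule (ZMod 2) (Fin n → ZMod 2), IsCode n k d C) →
      griesmer k d ≤ n := fun n ⟨C, hC⟩ => (code_to hk h2 h3 hC).1
  have hpos : 1 ≤ griesmer k d := by
    rw [griesmer]
    have h0 : (0 : ℕ) ∈ Finset.range k := Finset.mem_range.mpr hk
    have h1 := Finset.single_le_sum (f := fun i => d ⌈/⌉ 2 ^ i) (fun i _ => Nat.zero_le _) h0
    simp at h1
    omega
  constructor
  · intro h
    have hne : {n | ∃ C : Submodule (ZMod 2) (Fin n → ZMod 2), IsCode n k d C}.Nonempty := by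
      by_contra hc
      rw [Set.not_nonempty_iff_eq_empty] at hc
      rw [Attained, minLength, hc, Nat.sInf_empty] at h
      omega
    have := Nat.sInf_mem hne
    rw [Attained, minLength] at h
    rw [h] at this
    exact this
  · intro h
    rw [Attained, minLength]
    refine le_antisymm (Nat.sInf_le h) ?_
    have hne : {n | ∃ C : Submodule (ZMod 2) (Fin n → ZMod 2), IsCode n k d C}.Nonempty :=
      ⟨_, h⟩
    exact hb _ (Nat.sInf_mem hne)

theorem griesmer_main {k d : ℕ} (hk : 1 ≤ k) (hd : 1 ≤ d) {s D : ℕ}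
    (hs : s = d ⌈/⌉ 2 ^ (k - 1)) (hD : D = s * 2 ^ (k - 1) - d) (h3 : NoThreeOnes D) :
    Attained k d ↔
      ((exps D).take (s + 1)).sum ≤
        s * k + (if (exps D).take 2 = [k - 1, k - 2] then 1 else 0) := by
  obtain ⟨hs1, hsd, hDlt⟩ := sD (k := k) hd
  rw [← hs] at hs1 hsd hDlt
  rw [← hD] at hsd hDlt
  have hV : 2 * D < 2 ^ k := by
    obtain ⟨m, rfl⟩ : ∃ m, k = m + 1 := ⟨k - 1, by omega⟩
    simp only [Nat.add_sub_cancel] at hDlt
    rw [pow_succ]; omega
  have h3' := no3_two_mul h3
  have heps := eps_iff hk hDlt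
  rw [← heps, exps_eq]
  -- the condition in terms of topcost
  have hcond : s + 1 ≤ ds (2 * D) → (((2 * D).bitIndices.reverse.take (s + 1)).sum ≤
      s * k + eps k (2 * D) ↔ k ≤ topcost k (2 * D) (s + 1) + eps k (2 * D)) := by
    intro h
    have := topcost_add (k := k) hV h
    rw [add_mul, one_mul] at this
    constructor <;> intro h <;> omega
  constructor
  · intro hA
    obtain ⟨C, hC⟩ := (attained_iff hk hd).1 hA
    obtain ⟨v, hv, hb⟩ := (code_to hk hsd hDlt hC).2 rfl
    by_cases hds : s + 1 ≤ ds (2 * D)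
    · rw [hcond hds]
      haveI : Finite (Dual (ZMod 2) C) := inferInstance
      have hfr : finrank (ZMod 2) (Dual (ZMod 2) C) = k := by
        rw [finrank_dual_eq]; exact hC.1
      have := nec_thm hv (by rw [hfr]; exact hV) h3' hs1 hds hb
      rw [hfr] at this
      exact this
    · have h1 := topcost_add (k := k) hV (le_refl (ds (2 * D)))
      have h2 : (2 * D).bitIndices.reverse.take (s + 1) = (2 * D).bitIndices.reverse.take
          (ds (2 * D)) := by
        have e1 : (2 * D).bitIndices.reverse.length = ds (2 * D) := by simp [ds]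
        rw [List.take_of_length_le (by omega), List.take_of_length_le (by omega)]
      rw [h2]
      have h4 : ds (2 * D) * k ≤ s * k := Nat.mul_le_mul_right _ (by omega)
      omega
  · intro hc
    rw [attained_iff hk hd]
    by_cases hds : s + 1 ≤ ds (2 * D)
    · rw [hcond hds] at hc
      by_cases h1 : k ≤ topcost k (2 * D) (s + 1)
      · obtain ⟨v, hv, hb⟩ := suff_one hV hds h1
        exact to_code hk hd hsd hDlt (finrank_PW k) hv hb
      · have he : eps k (2 * D) = 1 := by
          rw [eps] at hc ⊢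
          split_ifs with h5
          · rfl
          · rw [if_neg h5] at hc; omega
        have hk4 : 4 ≤ k := by
          by_contra hlt
          -- then `k ≤ 3` and the cost of the two top ones is `3`
          have hk2 : 2 ≤ k := by
            by_contra h6
            have h7 : k = 1 := by omega
            subst h7
            have h8 : D = 0 := by simpa using hDlt
            subst h8
            simp [eps] at he
          have h9 : ∃ R, 2 * D = 3 * 2 ^ (k - 2) + R ∧ R < 2 ^ (k - 2) := by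
            rcases (by omega : k = 2 ∨ k = 3) with rfl | rfl
            · exfalso
              simp [eps] at he
            · obtain ⟨R, hR, hR'⟩ := top_form (le_refl 3) hV h3' he
              exact ⟨R, hR, lt_of_lt_of_le hR' (by norm_num)⟩
          obtain ⟨R, hR, hR'⟩ := h9
          obtain ⟨m, rfl⟩ : ∃ m, s = m + 1 := ⟨s - 1, by omega⟩
          rw [hR, topcost_two hk2 hR'] at h1
          omega
        obtain ⟨v, hv, hb⟩ := suff_two hk4 hV h3' he hs1 hds (by omega)
        exact to_code hk hd hsd hDlt (finrank_PW k) hv hb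
    · obtain ⟨v, hv⟩ := suff_any hV
      refine to_code hk hd hsd hDlt (finrank_PW k) hv fun x _ => ?_
      have h1 := psd_abs_le hv.psd x
      have h2 := abs_le.1 h1
      rw [hv.zero] at h2
      have h4 : (ds (2 * D) : ℤ) ≤ s := by exact_mod_cast (by omega : ds (2 * D) ≤ s)
      linarith [h2.2]

end Pool.Agent.GR72
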