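/-
GR72/SuffGen: the exceptional construction under the weaker hypothesis (needs Suff, Top, PeelGen;
mostly copies of top_form and suff_two).
* `top_form_gen`: `eps k V = 1` means that the digits `k - 1`, `k - 2` of `V` are ones; `V < 2^k`.  The
  reversed list of ones is strictly decreasing (`Nat.bitIndices_sorted`) with entries `< k`, so it
  starts with `k - 1`, `k - 2`; if the digit `k - 3` were a one it would be the third entry,
  contradicting the hypothesis with `i = k - 3`.  (For instance: `V = 3 * 2^(k-2) + R` with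
  `R < 2^(k-2)`, and `(3 * 2^(k-2) + R).bitIndices = R.bitIndices ++ [k-2, k-1]` as in the proof of
  topcost_two.)  Then continue as in top_form.
* `suff_two_gen`: copy of suff_two, with top_form_gen (and no3top_mono, `3 ≤ s + 2`) instead of
  top_form.
-/
import Pool.Agent.GR72.Suff
import Pool.Agent.GR72.PeelGen

namespace Pool.Agent.GR72

open Module

private theorem sg_take (n : ℕ) (L : List ℕ) (hp : L.Pairwise (fun a b => b < a))
    (hlt : ∀ j ∈ L, j < n + 3) (m2 : n + 2 ∈ L) (m1 : n + 1 ∈ L) (m0 : n ∈ L) :
    L.take 3 = [n + 2, n + 1, n] := by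
  match L, hp, hlt, m2, m1, m0 with
  | [], _, _, m2, _, _ => exact absurd m2 (List.not_mem_nil)
  | a :: L, hp, hlt, m2, m1, m0 =>
    rw [List.pairwise_cons] at hp
    have ha : a = n + 2 := by
      rcases List.mem_cons.1 m2 with h | h
      · exact h.symm
      · have h5 := hp.1 _ h
        have h6 := hlt a List.mem_cons_self
        omega
    subst ha
    have m1' : n + 1 ∈ L := by
      rcases List.mem_cons.1 m1 with h | h
      · omega
      · exact h
    have m0' : n ∈ L := by
      rcases List.mem_cons.1 m0 with h | h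
      · omega
      · exact h
    match L, hp, m1', m0' with
    | [], _, m1', _ => exact absurd m1' (List.not_mem_nil)
    | b :: L, hp, m1', m0' =>
      have hp2 := List.pairwise_cons.1 hp.2
      have hb : b = n + 1 := by
        rcases List.mem_cons.1 m1' with h | h
        · exact h.symm
        · have h5 := hp2.1 _ h
          have h6 := hp.1 b List.mem_cons_self
          omega
      subst hb
      have m0'' : n ∈ L := by
        rcases List.mem_cons.1 m0' with h | h
        · omega
        · exact h
      match L, hp2, m0'' with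
      | [], _, m0'' => exact absurd m0'' (List.not_mem_nil)
      | c :: L, hp2, m0'' =>
        have hc : c = n := by
          rcases List.mem_cons.1 m0'' with h | h
          · exact h.symm
          · have h5 := (List.pairwise_cons.1 hp2.2).1 _ h
            have h6 := hp2.1 c List.mem_cons_self
            omega
        subst hc
        rfl

theorem top_form_gen {k V : ℕ} (hk : 3 ≤ k) (hV : V < 2 ^ k) (h3 : NoThreeTop V 3)
    (he : eps k V = 1) : ∃ R, V = 3 * 2 ^ (k - 2) + R ∧ R < 2 ^ (k - 3) := by
  obtain ⟨n, rfl⟩ : ∃ n, k = n + 3 := ⟨k - 3, by omega⟩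
  have e1 : n + 3 - 1 = n + 2 := by omega
  have e2 : n + 3 - 2 = n + 1 := by omega
  have e3 : n + 3 - 3 = n := by omega
  unfold eps at he
  rw [e1, e2] at he
  rw [e2, e3]
  by_cases hc : V.testBit (n + 2) = true ∧ V.testBit (n + 1) = true
  · have h0 : ¬ V.testBit n = true := by
      intro h
      have hp : V.bitIndices.reverse.Pairwise (fun a b => b < a) := by
        rw [List.pairwise_reverse]
        exact Nat.bitIndices_sorted.pairwise
      have hlt : ∀ j ∈ V.bitIndices.reverse, j < n + 3 := fun j hj =>
        mem_bits_lt hV (List.mem_reverse.1 hj)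
      have m2 : n + 2 ∈ V.bitIndices.reverse := List.mem_reverse.2 (Nat.mem_bitIndices.2 hc.1)
      have m1 : n + 1 ∈ V.bitIndices.reverse := List.mem_reverse.2 (Nat.mem_bitIndices.2 hc.2)
      have m0 : n ∈ V.bitIndices.reverse := List.mem_reverse.2 (Nat.mem_bitIndices.2 h)
      have ht := sg_take n _ hp hlt m2 m1 m0
      apply h3 n
      rw [ht]
      simp
    have hw : V / 2 ^ n < 8 := by
      rw [Nat.div_lt_iff_lt_mul (by positivity)]
      rw [pow_add] at hV
      omega
    have t2 : (V / 2 ^ n).testBit 2 = true := by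
      rw [Nat.testBit_div_two_pow, Nat.add_comm]
      exact hc.1
    have t1 : (V / 2 ^ n).testBit 1 = true := by
      rw [Nat.testBit_div_two_pow, Nat.add_comm]
      exact hc.2
    have t0 : ¬ (V / 2 ^ n).testBit 0 = true := by
      rw [Nat.testBit_div_two_pow, Nat.zero_add]
      exact h0
    have h6 : V / 2 ^ n = 6 := by
      generalize V / 2 ^ n = w at hw t2 t1 t0
      interval_cases w <;> first | rfl | (exfalso; revert t2 t1 t0; decide)
    refine ⟨V % 2 ^ n, ?_, Nat.mod_lt _ (by positivity)⟩
    have h7 := Nat.div_add_mod V (2 ^ n)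
    rw [h6] at h7
    rw [pow_succ]
    omega
  · rw [if_neg hc] at he
    exact absurd he (by norm_num)

open Classical in
private theorem sum_ind_apply_sg {W : Type} [AddCommGroup W] [Module (ZMod 2) W]
    (P : ℕ → Submodule (ZMod 2) W) (S : Finset ℕ) (x : W) :
    ∑ j ∈ S, ind (P j) x = ((S.filter (fun j => x ∈ P j)).card : ℤ) := by
  unfold ind
  rw [Finset.sum_boole]

theorem suff_two_gen {k V s : ℕ} (hk : 4 ≤ k) (hV : V < 2 ^ k) (h3 : NoThreeTop V (s + 2))
    (he : eps k V = 1) (hs1 : 1 ≤ s) (hs : s + 1 ≤ ds V) (h : k ≤ topcost k V (s + 1) + 1) :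
    ∃ v : PW k → ℤ, Gr v V ∧ ∀ x, x ≠ 0 → v x ≤ s := by
  classical
  obtain ⟨R, rfl, hR⟩ := top_form_gen (by omega) hV (no3top_mono (by omega) h3) he
  obtain ⟨u, hu, hu2, hu1⟩ := eps_core hk
  obtain ⟨P, hP, hgp, hgp4⟩ := general_position k
  have hR2 : R < 2 ^ (k - 2) :=
    hR.trans (Nat.pow_lt_pow_right (by norm_num) (by omega))
  have hb4 : ∀ j ∈ R.bitIndices, j + 4 ≤ k := by
    intro j hj
    have := mem_bits_lt hR hj
    omega
  have hgr := gr_sum P (V := R) (fun j hj => hP j (by have := hb4 j hj; omega))
  have hds : ds (3 * 2 ^ (k - 2) + R) = ds (3 * 2 ^ (k - 2)) + ds R := by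
    rw [Nat.mul_comm, ds_two_pow_mul_add _ _ _ hR2, ds_two_pow_mul]
  refine ⟨fun x => u x + ∑ j ∈ R.bitIndices.toFinset, ind (P j) x,
    ⟨psd_add hu.psd hgr.psd, ?_, ?_⟩, ?_⟩
  · rw [tot_add u (fun x => ∑ j ∈ R.bitIndices.toFinset, ind (P j) x), hu.tot, hgr.tot]
    push_cast
    ring
  · have h5 := hu.zero
    have h6 : ∑ j ∈ R.bitIndices.toFinset, ind (P j) 0 = (ds R : ℤ) := hgr.zero
    show u 0 + ∑ j ∈ R.bitIndices.toFinset, ind (P j) 0 = _
    rw [h5, h6, hds]
    push_cast
    ring
  · intro x hx
    show u x + ∑ j ∈ R.bitIndices.toFinset, ind (P j) x ≤ s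
    rw [sum_ind_apply_sg]
    by_contra hc
    push Not at hc
    have htop : topcost k (3 * 2 ^ (k - 2) + R) (s + 1) = 3 + topcost k R (s - 1) := by
      have e : s + 1 = (s - 1) + 2 := by omega
      rw [e]
      exact topcost_two (by omega) hR2
    rw [htop] at h
    by_cases hX : ((Polynomial.X ^ 4 : Polynomial (ZMod 2)) ∣ (x : Polynomial (ZMod 2)))
    · have h5 := hu2 x
      have hc' : s - 1 ≤ (R.bitIndices.toFinset.filter (fun j => x ∈ P j)).card := by
        omega
      obtain ⟨I, hI, hcard⟩ := Finset.exists_subset_card_eq hc'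
      have hIV : I ⊆ R.bitIndices.toFinset := hI.trans (Finset.filter_subset _ _)
      have h6 := hgp4 I x (fun j hj => hb4 j (List.mem_toFinset.1 (hIV hj))) hx hX
        (fun j hj => (Finset.mem_filter.1 (hI hj)).2)
      have h7 := topcost_le (k := k) I hIV
      rw [hcard] at h7
      omega
    · have h5 := hu1 x hX
      have hc' : s ≤ (R.bitIndices.toFinset.filter (fun j => x ∈ P j)).card := by
        omega
      have hle : (R.bitIndices.toFinset.filter (fun j => x ∈ P j)).card ≤ ds R := by
        rw [← card_bits]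
        exact Finset.card_le_card (Finset.filter_subset _ _)
      obtain ⟨I, hI, hcard⟩ := Finset.exists_subset_card_eq hc'
      have hIV : I ⊆ R.bitIndices.toFinset := hI.trans (Finset.filter_subset _ _)
      have h6 := hgp I x (fun j hj => by
          have := hb4 j (List.mem_toFinset.1 (hIV hj)); omega) hx
        (fun j hj => (Finset.mem_filter.1 (hI hj)).2)
      have h7 := topcost_le (k := k) I hIV
      have h8 := topcost_succ (k := k) (V := R) (m := s - 1) (B := 4) (by omega) hb4
      have e : s - 1 + 1 = s := by omega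
      rw [hcard] at h7
      rw [e] at h8
      omega

end Pool.Agent.GR72
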