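/-
GR72/FinalGen: the criterion when no three of the s + 2 highest exponents are consecutive
(proved from the stubs).
-/
import Pool.Agent.GR72.Final
import Pool.Agent.GR72.NecGen
import Pool.Agent.GR72.SuffGen

namespace Pool.Agent.GR72

open Module

theorem griesmer_top {k d : ℕ} (hk : 1 ≤ k) (hd : 1 ≤ d) {s D : ℕ}
    (hs : s = d ⌈/⌉ 2 ^ (k - 1)) (hD : D = s * 2 ^ (k - 1) - d) 
    (h3 : ∀ i, ¬ (i ∈ (exps D).take (s + 2) ∧ i + 1 ∈ (exps D).take (s + 2) ∧
      i + 2 ∈ (exps D).take (s + 2))) :
    Attained k d ↔
      ((exps D).take (s + 1)).sum ≤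
        s * k + (if (exps D).take 2 = [k - 1, k - 2] then 1 else 0) := by
  obtain ⟨hs1, hsd, hDlt⟩ := sD (k := k) hd
  rw [← hs] at hs1 hsd hDlt
  rw [← hD] at hsd hDlt
  have hV : 2 * D < 2 ^ k := by
    obtain ⟨m, rfl⟩ : ∃ m, k = m + 1 := ⟨k - 1, by omega⟩
    simp only [Nat.add_sub_cancel] at hDlt
    rw [pow_succ]; omega
  have h3' : NoThreeTop (2 * D) (s + 2) := by
    rw [exps_eq] at h3
    exact h3
  have heps := eps_iff hk hDlt
  rw [← heps, exps_eq]
  -- the condition in terms of topcost
  have hcond : s + 1 ≤ ds (2 * D) → (((2 * D).bitIndices.reverse.take (s + 1)).sum ≤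
      s * k + eps k (2 * D) ↔ k ≤ topcost k (2 * D) (s + 1) + eps k (2 * D)) := by
    intro h
    have := topcost_add (k := k) hV h
    rw [add_mul, one_mul] at this
    constructor <;> intro h <;> omega
  constructor
  · intro hA
    obtain ⟨C, hC⟩ := (attained_iff hk hd).1 hA
    obtain ⟨v, hv, hb⟩ := (code_to hk hsd hDlt hC).2 rfl
    by_cases hds : s + 1 ≤ ds (2 * D)
    · rw [hcond hds]
      haveI : Finite (Dual (ZMod 2) C) := inferInstance
      have hfr : finrank (ZMod 2) (Dual (ZMod 2) C) = k := by
        rw [finrank_dual_eq]; exact hC.1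
      have := nec_gen hv (by rw [hfr]; exact hV) h3' hs1 hds hb
      rw [hfr] at this
      exact this
    · have h1 := topcost_add (k := k) hV (le_refl (ds (2 * D)))
      have h2 : (2 * D).bitIndices.reverse.take (s + 1) = (2 * D).bitIndices.reverse.take
          (ds (2 * D)) := by
        have e1 : (2 * D).bitIndices.reverse.length = ds (2 * D) := by simp [ds]
        rw [List.take_of_length_le (by omega), List.take_of_length_le (by omega)]
      rw [h2]
      have h4 : ds (2 * D) * k ≤ s * k := Nat.mul_le_mul_right _ (by omega)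
      omega
  · intro hc
    rw [attained_iff hk hd]
    by_cases hds : s + 1 ≤ ds (2 * D)
    · rw [hcond hds] at hc
      by_cases h1 : k ≤ topcost k (2 * D) (s + 1)
      · obtain ⟨v, hv, hb⟩ := suff_one hV hds h1
        exact to_code hk hd hsd hDlt (finrank_PW k) hv hb
      · have he : eps k (2 * D) = 1 := by
          rw [eps] at hc ⊢
          split_ifs with h5
          · rfl
          · rw [if_neg h5] at hc; omega
        have hk4 : 4 ≤ k := by
          by_contra hlt
          -- then `k ≤ 3` and the cost of the two top ones is `3`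
          have hk2 : 2 ≤ k := by
            by_contra h6
            have h7 : k = 1 := by omega
            subst h7
            have h8 : D = 0 := by simpa using hDlt
            subst h8
            simp [eps] at he
          have h9 : ∃ R, 2 * D = 3 * 2 ^ (k - 2) + R ∧ R < 2 ^ (k - 2) := by
            rcases (by omega : k = 2 ∨ k = 3) with rfl | rfl
            · exfalso
              simp [eps] at he
            · obtain ⟨R, hR, hR'⟩ := top_form_gen (le_refl 3) hV (no3top_mono (by omega) h3') he
              exact ⟨R, hR, lt_of_lt_of_le hR' (by norm_num)⟩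
          obtain ⟨R, hR, hR'⟩ := h9
          obtain ⟨m, rfl⟩ : ∃ m, s = m + 1 := ⟨s - 1, by omega⟩
          rw [hR, topcost_two hk2 hR'] at h1
          omega
        obtain ⟨v, hv, hb⟩ := suff_two_gen hk4 hV h3' he hs1 hds (by omega)
        exact to_code hk hd hsd hDlt (finrank_PW k) hv hb
    · obtain ⟨v, hv⟩ := suff_any hV
      refine to_code hk hd hsd hDlt (finrank_PW k) hv fun x _ => ?_
      have h1 := psd_abs_le hv.psd x
      have h2 := abs_le.1 h1
      rw [hv.zero] at h2
      have h4 : (ds (2 * D) : ℤ) ≤ s := by exact_mod_cast (by omega : ds (2 * D) ≤ s)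
      linarith [h2.2]

end Pool.Agent.GR72
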