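/-
GR72/DeepConv: the condition `DeepRuns` in terms of digits (needs DeepDefs; `exps D` is the list of
`j + 1`, `j` a one of `D`, i.e. of the ones of `2 D`: exps_eq, `exps D = (2 * D).bitIndices.reverse`).
`u ∈ exps D ↔ (2 D).testBit u` (`Nat.mem_bitIndices`).  `((exps D).filter (u < ·)).length` is the number of
ones of `2 D` above `u`, which is `ds (2 D / 2^(u+1))`.
`deep_conv`: for a run `c, q` of `2 D` put `u = c + q - 1`; `u - j = c + (q - 1 - j)`; `c ≥ 1` since the digit
`0` of `2 D` is zero; `u - q = c - 1`.
`count_above`: `(V.bitIndices.filter (u < ·)).length = ds (V / 2^(u+1))`; for instance write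
`V = 2^(u+1) A + B` with `B < 2^(u+1)` and use bit lists (a lemma like `bits_add_TP` in GR72/Top:
`(2^e a + b).bitIndices = b.bitIndices ++ a.bitIndices.map (e + ·)` for `b < 2^e`; it is private there,
copy it).
-/
import Pool.Agent.GR72.DeepDefs
import Pool.Agent.GR72.Top

namespace Pool.Agent.GR72

private theorem bits_add_DC : ∀ (e a b : ℕ), b < 2 ^ e →
    (2 ^ e * a + b).bitIndices = b.bitIndices ++ a.bitIndices.map (· + e) := by
  intro e
  induction e with
  | zero =>
    intro a b hb
    have : b = 0 := by simpa using hb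
    subst this
    simp
  | succ e ih =>
    intro a b hb
    rw [pow_succ] at hb
    have hmap : (a.bitIndices.map (· + (e + 1))) =
        (a.bitIndices.map (· + e)).map (· + 1) := by
      rw [List.map_map]
      apply List.map_congr_left
      intro x _
      simp only [Function.comp_apply]
      ring
    rcases Nat.even_or_odd' b with ⟨b', rfl | rfl⟩
    · have e1 : 2 ^ (e + 1) * a + 2 * b' = 2 * (2 ^ e * a + b') := by ring
      rw [e1, Nat.bitIndices_two_mul, Nat.bitIndices_two_mul, ih a b' (by omega), List.map_append,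
        hmap]
    · have e1 : 2 ^ (e + 1) * a + (2 * b' + 1) = 2 * (2 ^ e * a + b') + 1 := by ring
      rw [e1, Nat.bitIndices_two_mul_add_one, Nat.bitIndices_two_mul_add_one,
        ih a b' (by omega), List.map_append, hmap, List.cons_append]

theorem count_above (V u : ℕ) :
    (V.bitIndices.filter (u < ·)).length = ds (V / 2 ^ (u + 1)) := by
  have hB : V % 2 ^ (u + 1) < 2 ^ (u + 1) := Nat.mod_lt _ (by positivity)
  have hV : 2 ^ (u + 1) * (V / 2 ^ (u + 1)) + V % 2 ^ (u + 1) = V := Nat.div_add_mod V _
  have h1 := bits_add_DC (u + 1) (V / 2 ^ (u + 1)) (V % 2 ^ (u + 1)) hB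
  rw [hV] at h1
  rw [h1, List.filter_append]
  have h2 : (V % 2 ^ (u + 1)).bitIndices.filter (u < ·) = [] := by
    rw [List.filter_eq_nil_iff]
    intro a ha
    have := mem_bits_lt hB ha
    simp only [decide_eq_true_eq, not_lt]
    omega
  have h3 : ((V / 2 ^ (u + 1)).bitIndices.map (· + (u + 1))).filter (u < ·) =
      (V / 2 ^ (u + 1)).bitIndices.map (· + (u + 1)) := by
    rw [List.filter_eq_self]
    intro a ha
    rw [List.mem_map] at ha
    obtain ⟨b, -, rfl⟩ := ha
    simp only [decide_eq_true_eq]
    omega
  rw [h2, h3, List.nil_append, List.length_map]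
  rfl

theorem deep_conv {k s D : ℕ} (h : DeepRuns k s D) : DeepTop k (2 * D) (s + 1) := by
  intro c q hq hrun htop hbot hcnt
  have hmem : ∀ u, u ∈ exps D ↔ (2 * D).testBit u = true := by
    intro u
    rw [exps_eq, List.mem_reverse, Nat.mem_bitIndices]
  have hc : c ≠ 0 := by
    rintro rfl
    have h1 := hrun 0 (by omega)
    simp [Nat.testBit_zero] at h1
  have hlen : ((exps D).filter (c + q - 1 < ·)).length = ds (2 * D / 2 ^ (c + q)) := by
    rw [exps_eq, List.filter_reverse, List.length_reverse, count_above]
    have : c + q - 1 + 1 = c + q := by omega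
    rw [this]
  have h2 := h (c + q - 1) q hq (by
      intro j hj
      rw [hmem]
      have h3 := hrun (q - 1 - j) (by omega)
      have h4 : c + (q - 1 - j) = c + q - 1 - j := by omega
      rwa [h4] at h3) (by
      rw [hmem]
      have h4 : c + q - 1 + 1 = c + q := by omega
      rw [h4, htop]
      exact Bool.false_ne_true) (by
      rw [hmem]
      have h4 : c + q - 1 - q = c - 1 := by omega
      rw [h4]
      rcases hbot with h5 | h5
      · exact absurd h5 hc
      · rw [h5]
        exact Bool.false_ne_true) (by
      rw [hlen]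
      exact hcnt)
  rw [hlen] at h2
  exact h2

end Pool.Agent.GR72
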