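/-
GR72/LongConv: the condition `LongRuns` and `topRun` in terms of digits (complete).
-/
import Pool.Agent.GR72.Deep2Defs
import Pool.Agent.GR72.DeepConv

namespace Pool.Agent.GR72

theorem long_conv {k s D : ℕ} (h : LongRuns k s D) : LongTop k (2 * D) (s + 1) := by
  intro c q hq hrun htop hbot hcnt
  have hmem : ∀ u, u ∈ exps D ↔ (2 * D).testBit u = true := by
    intro u
    rw [exps_eq, List.mem_reverse, Nat.mem_bitIndices]
  have hc : c ≠ 0 := by
    rintro rfl
    have h1 := hrun 0 (by omega)
    simp [Nat.testBit_zero] at h1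
  have hlen : ((exps D).filter (c + q - 1 < ·)).length = ds (2 * D / 2 ^ (c + q)) := by
    rw [exps_eq, List.filter_reverse, List.length_reverse, count_above]
    have : c + q - 1 + 1 = c + q := by omega
    rw [this]
  have h2 := h (c + q - 1) q hq (by
      intro j hj
      rw [hmem]
      have h3 := hrun (q - 1 - j) (by omega)
      have h4 : c + (q - 1 - j) = c + q - 1 - j := by omega
      rwa [h4] at h3) (by
      rw [hmem]
      have h4 : c + q - 1 + 1 = c + q := by omega
      rw [h4, htop]
      exact Bool.false_ne_true) (by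
      rw [hmem]
      have h4 : c + q - 1 - q = c - 1 := by omega
      rw [h4]
      rcases hbot with h5 | h5
      · exact absurd h5 hc
      · rw [h5]
        exact Bool.false_ne_true) (by
      rw [hlen]
      exact hcnt)
  rw [hlen] at h2
  exact h2


theorem topRun_eq {k D : ℕ} (hD : 2 * D < 2 ^ k) : topRun k D = tr k (2 * D) := by
  have hmem : ∀ u, u ∈ exps D ↔ (2 * D).testBit u = true := by
    intro u
    rw [exps_eq, List.mem_reverse, Nat.mem_bitIndices]
  unfold topRun tr
  simp only [hmem]
  rcases Nat.eq_zero_or_pos k with hk | hk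
  · subst hk
    rfl
  · obtain ⟨n, rfl⟩ : ∃ n, k = n + 1 := ⟨k - 1, by omega⟩
    rw [Nat.add_sub_cancel, Nat.findGreatest_of_not]
    intro h
    have h1 := h n (by omega)
    rw [Nat.sub_self] at h1
    simp [Nat.testBit_zero] at h1

end Pool.Agent.GR72
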