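/-
GR72/TwistStep: one step of the exceptional construction (needs Basic, Psd, Digits).
`k = finrank W`, `u` meets the Griesmer inequality for `2^(k-q) (2^q - 1)`; `Q` a subspace with
`finrank Q = k - q - 2`; `α = 0` on `Q`, `α x0 = 1`, `ft u α = 0`.
`tw x = u x + ind Q x` if `α x = 0` and `1 - ind Q (x + x0)` if `α x = 1`.
Let `C = Q ⊔ span {x0}`, `finrank C = k - q - 1`.  For `α x = 0`: `ind Q x = ind C x`; for `α x = 1`:
`ind Q (x + x0) = ind C x`.  So `2 * tw x = (1 + sg (α x)) (u x + ind C x) + (1 - sg (α x)) (1 - ind C x)`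
and, with `ft_char` (`ft (sg (α x) * v x) φ = ft v (α + φ)`; RDBase),
  `2 * ft tw φ = ft u φ + ft u (α + φ) + 2 * ft (ind C) (α + φ) + ft 1 φ - ft 1 (α + φ)`.     (*)
`ft 1 ψ = 2^k` if `ψ = 0` and `0` otherwise (ft_one), `ft (ind C) ψ = 2^(k-q-1)` or `0` (ft_ind).
* psd: the only negative term in (*) is `- ft 1 (α + φ)`, for `φ = α` (`α + α = 0`); then
  `2 * ft tw α = ft u α + ft u 0 + 2 * 2^(k-q-1) - 2^k = 0 + (2^k - 2^(k-q)) + 2^(k-q) - 2^k = 0`
  (`α ≠ 0`, `ft u 0 = 2^(k-q) (2^q - 1)`).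
* total (`φ = 0`): `2 * tot tw = ft u 0 + ft u α + 2 * 0 + 2^k - 0 = 2^(k-q) (2^q - 1) + 2^k`
  (`α` does not vanish on `C`), so `tot tw = 2^k - 2^(k-q-1) = 2^(k-q-1) (2^(q+1) - 1)`.
* `tw 0 = u 0 + 1 = q + 1`.
* `tw_supp`: if `ft tw φ ≠ 0` then one of `ft u φ`, `ft u (α + φ)`, `ft (ind C) (α + φ)` is nonzero or
  `φ = 0` or `φ = α`.  Let `y ∈ Q` be killed by the support of `ft u`; `α y = 0`; in all cases `φ y = 0`.
-/
import Pool.Agent.GR72.RDBase
import Pool.Agent.GR72.Digits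

namespace Pool.Agent.GR72

open Module

variable {W : Type} [AddCommGroup W] [Module (ZMod 2) W] [Finite W]

open Classical in
/-- The twisted sum of `u` and the subspace `Q ⊔ span {x0}`. -/
noncomputable def tw (u : W → ℤ) (α : Dual (ZMod 2) W) (Q : Submodule (ZMod 2) W) (x0 : W) :
    W → ℤ :=
  fun x => if α x = 0 then u x + ind Q x else 1 - ind Q (x + x0)

private theorem mem_C {Q : Submodule (ZMod 2) W} {x0 x : W} :
    x ∈ Q ⊔ Submodule.span (ZMod 2) {x0} ↔ x ∈ Q ∨ x + x0 ∈ Q := by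
  rw [Submodule.mem_sup]
  constructor
  · rintro ⟨y, hy, z, hz, rfl⟩
    obtain ⟨a, rfl⟩ := Submodule.mem_span_singleton.1 hz
    rcases zmod_cases a with h | h
    · left
      rw [h, zero_smul, add_zero]
      exact hy
    · right
      rw [h, one_smul, add_assoc, add_self_eq, add_zero]
      exact hy
  · rintro (h | h)
    · exact ⟨x, h, 0, Submodule.zero_mem _, add_zero _⟩
    · refine ⟨x + x0, h, x0, Submodule.mem_span_singleton_self _, ?_⟩
      rw [add_assoc, add_self_eq, add_zero]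

private theorem indC_zero {α : Dual (ZMod 2) W} {Q : Submodule (ZMod 2) W} {x0 x : W}
    (hα : ∀ y ∈ Q, α y = 0) (h0 : α x0 = 1) (hx : α x = 0) :
    ind (Q ⊔ Submodule.span (ZMod 2) {x0}) x = ind Q x := by
  unfold ind
  have : x ∈ Q ⊔ Submodule.span (ZMod 2) {x0} ↔ x ∈ Q := by
    rw [mem_C]
    constructor
    · rintro (h | h)
      · exact h
      · have h1 := hα _ h
        rw [map_add, hx, h0] at h1
        exact absurd h1 (by decide)
    · exact Or.inl
  by_cases h : x ∈ Q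
  · rw [if_pos (this.2 h), if_pos h]
  · rw [if_neg (fun h1 => h (this.1 h1)), if_neg h]

private theorem indC_one {α : Dual (ZMod 2) W} {Q : Submodule (ZMod 2) W} {x0 x : W}
    (hα : ∀ y ∈ Q, α y = 0) (hx : α x = 1) :
    ind (Q ⊔ Submodule.span (ZMod 2) {x0}) x = ind Q (x + x0) := by
  unfold ind
  have : x ∈ Q ⊔ Submodule.span (ZMod 2) {x0} ↔ x + x0 ∈ Q := by
    rw [mem_C]
    constructor
    · rintro (h | h)
      · have h1 := hα _ h
        rw [hx] at h1
        exact absurd h1 (by decide)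
      · exact h
    · exact Or.inr
  by_cases h : x + x0 ∈ Q
  · rw [if_pos (this.2 h), if_pos h]
  · rw [if_neg (fun h1 => h (this.1 h1)), if_neg h]

private theorem two_tw (u : W → ℤ) {α : Dual (ZMod 2) W} {Q : Submodule (ZMod 2) W} {x0 : W}
    (hα : ∀ y ∈ Q, α y = 0) (h0 : α x0 = 1) (x : W) :
    2 * tw u α Q x0 x = (u x + sg (α x) * u x +
      2 * (sg (α x) * ind (Q ⊔ Submodule.span (ZMod 2) {x0}) x)) + (1 - sg (α x) * 1) := by
  unfold tw
  rcases zmod_cases (α x) with h | h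
  · rw [if_pos h, h, sg_zero, indC_zero hα h0 h]
    ring
  · rw [if_neg (by rw [h]; decide), h, sg_one, indC_one hα h]
    ring

private theorem ft_tw (u : W → ℤ) {α : Dual (ZMod 2) W} {Q : Submodule (ZMod 2) W} {x0 : W}
    (hα : ∀ y ∈ Q, α y = 0) (h0 : α x0 = 1) (φ : Dual (ZMod 2) W) :
    2 * ft (tw u α Q x0) φ = (ft u φ + ft u (α + φ) +
      2 * ft (ind (Q ⊔ Submodule.span (ZMod 2) {x0})) (α + φ)) +
      (ft (fun _ : W => (1 : ℤ)) φ - ft (fun _ : W => (1 : ℤ)) (α + φ)) := by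
  rw [← ft_mul, funext (two_tw u hα h0), ft_add, ft_sub, ft_char, ft_add, ft_add, ft_mul, ft_char,
    ft_char]

private theorem add_self_dual (α : Dual (ZMod 2) W) : α + α = 0 := by
  refine LinearMap.ext fun x => ?_
  rw [LinearMap.add_apply, LinearMap.zero_apply, ← map_add, add_self_eq, map_zero]

private theorem add_eq_zero_dual {α φ : Dual (ZMod 2) W} : α + φ = 0 ↔ φ = α := by
  constructor
  · intro h
    have h1 : α + (α + φ) = α := by rw [h, add_zero]
    rw [← add_assoc, add_self_dual, zero_add] at h1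
    exact h1
  · rintro rfl
    exact add_self_dual _

private theorem finrank_C {α : Dual (ZMod 2) W} {Q : Submodule (ZMod 2) W} {x0 : W}
    (hα : ∀ y ∈ Q, α y = 0) (h0 : α x0 = 1) :
    finrank (ZMod 2) (Q ⊔ Submodule.span (ZMod 2) {x0} : Submodule (ZMod 2) W) =
      finrank (ZMod 2) Q + 1 := by
  have h := Submodule.finrank_sup_add_finrank_inf_eq Q (Submodule.span (ZMod 2) {x0})
  have hx : x0 ≠ 0 := by
    rintro rfl
    rw [map_zero] at h0
    exact absurd h0 (by decide)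
  have h1 : Q ⊓ Submodule.span (ZMod 2) {x0} = ⊥ := by
    rw [eq_bot_iff]
    rintro z ⟨hz, hz'⟩
    obtain ⟨a, rfl⟩ := Submodule.mem_span_singleton.1 hz'
    rcases zmod_cases a with h | h
    · rw [h, zero_smul]
      exact Submodule.zero_mem _
    · exfalso
      rw [h, one_smul] at hz
      have := hα _ hz
      rw [h0] at this
      exact absurd this (by decide)
  rw [h1, finrank_bot, add_zero, finrank_span_singleton hx] at h
  exact h

private theorem not_annih_C {α : Dual (ZMod 2) W} {Q : Submodule (ZMod 2) W} {x0 : W}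
    (h0 : α x0 = 1) : ¬ ∀ x ∈ (Q ⊔ Submodule.span (ZMod 2) {x0} : Submodule (ZMod 2) W),
      α x = 0 := by
  intro h
  have := h x0 (Submodule.mem_sup_right (Submodule.mem_span_singleton_self _))
  rw [h0] at this
  exact absurd this (by decide)

theorem tw_gr {u : W → ℤ} {k q : ℕ} (hk : finrank (ZMod 2) W = k) (hq : 1 ≤ q)
    (hu : Gr u (2 ^ (k - q) * (2 ^ q - 1))) {α : Dual (ZMod 2) W} {Q : Submodule (ZMod 2) W}
    {x0 : W} (hQ : finrank (ZMod 2) Q + (q + 2) = k) (hα : ∀ y ∈ Q, α y = 0) (h0 : α x0 = 1)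
    (hft : ft u α = 0) : Gr (tw u α Q x0) (2 ^ (k - (q + 1)) * (2 ^ (q + 1) - 1)) := by
  have hαne : α ≠ 0 := by
    rintro rfl
    rw [LinearMap.zero_apply] at h0
    exact absurd h0 (by decide)
  have hqk : q + 2 ≤ k := by omega
  obtain ⟨m, rfl⟩ : ∃ m, k = m + (q + 2) := ⟨k - (q + 2), by omega⟩
  have hQm : finrank (ZMod 2) Q = m := by omega
  have e1 : m + (q + 2) - q = m + 2 := by omega
  have e2 : m + (q + 2) - (q + 1) = m + 1 := by omega
  rw [e1] at hu
  rw [e2]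
  have hC : finrank (ZMod 2) (Q ⊔ Submodule.span (ZMod 2) {x0} : Submodule (ZMod 2) W) = m + 1 := by
    rw [finrank_C hα h0, hQm]
  have hu0 : ft u 0 = 2 ^ (m + 2) * (2 ^ q - 1) := by
    rw [ft_zero, hu.tot]
    have : (1 : ℕ) ≤ 2 ^ q := Nat.one_le_two_pow
    push_cast [Nat.cast_sub this]
    ring
  have hCnn : ∀ ψ : Dual (ZMod 2) W,
      0 ≤ ft (ind (Q ⊔ Submodule.span (ZMod 2) {x0})) ψ := fun ψ => psd_ind _ ψ
  refine ⟨?_, ?_, ?_⟩
  · intro φ
    have h := ft_tw u hα h0 φ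
    by_cases hφ : φ = α
    · subst hφ
      rw [add_self_dual, hft, hu0, ft_ind, if_pos (by intro x _; rfl), hC, ft_one, ft_one,
        if_neg hαne, if_pos rfl, hk] at h
      have : (2 : ℤ) ^ (m + (q + 2)) = 2 ^ (m + 2) * 2 ^ q := by
        rw [← pow_add]; congr 1; omega
      rw [this, pow_succ (2 : ℤ) m, show (2 : ℤ) ^ (m + 2) = 4 * 2 ^ m by ring] at h
      nlinarith
    · have h1 := hu.psd φ
      have h2 := hu.psd (α + φ)
      have h3 := hCnn (α + φ)
      have h4 : ft (fun _ : W => (1 : ℤ)) (α + φ) = 0 := by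
        rw [ft_one, if_neg]
        intro hc
        exact hφ (add_eq_zero_dual.1 hc)
      have h5 : 0 ≤ ft (fun _ : W => (1 : ℤ)) φ := by
        rw [ft_one]
        split_ifs
        · positivity
        · exact le_rfl
      linarith
  · have h := ft_tw u hα h0 0
    rw [add_zero, hu0, hft, ft_ind, if_neg (not_annih_C h0), ft_one, ft_one, if_pos rfl,
      if_neg hαne, hk, ft_zero] at h
    have h1 : (1 : ℕ) ≤ 2 ^ (q + 1) := Nat.one_le_two_pow
    have h2 : (2 : ℤ) ^ (m + (q + 2)) = 2 ^ (m + 2) * 2 ^ q := by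
      rw [← pow_add]; congr 1; omega
    rw [h2] at h
    push_cast [Nat.cast_sub h1]
    have h3 : (2 : ℤ) ^ (m + 1) = 2 * 2 ^ m := by ring
    have h4 : (2 : ℤ) ^ (m + 2) = 4 * 2 ^ m := by ring
    have h5 : (2 : ℤ) ^ (q + 1) = 2 * 2 ^ q := by ring
    rw [h3, h5]
    rw [h4] at h
    nlinarith
  · have hz : tw u α Q x0 0 = u 0 + 1 := by
      unfold tw
      rw [if_pos (map_zero α)]
      simp [ind]
    rw [hz, hu.zero, ds_two_pow_mul, ds_two_pow_mul, ds_two_pow_sub_one, ds_two_pow_sub_one]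
    push_cast
    ring

theorem tw_supp {u : W → ℤ} {α : Dual (ZMod 2) W} {Q : Submodule (ZMod 2) W} {x0 : W}
    (hα : ∀ y ∈ Q, α y = 0) (h0 : α x0 = 1) {φ : Dual (ZMod 2) W} (hφ : ft (tw u α Q x0) φ ≠ 0)
    {y : W} (hy : y ∈ Q) (hu : ∀ ψ : Dual (ZMod 2) W, ft u ψ ≠ 0 → ψ y = 0) : φ y = 0 := by
  have hαy : α y = 0 := hα y hy
  have key : ∀ ψ : Dual (ZMod 2) W, (α + ψ) y = 0 → ψ y = 0 := by
    intro ψ h
    rw [LinearMap.add_apply, hαy, zero_add] at h
    exact h
  have h := ft_tw u hα h0 φ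
  by_contra hc
  have h1 : ft u φ = 0 := by
    by_contra h1
    exact hc (hu _ h1)
  have h2 : ft u (α + φ) = 0 := by
    by_contra h1
    exact hc (key _ (hu _ h1))
  have h3 : ft (ind (Q ⊔ Submodule.span (ZMod 2) {x0})) (α + φ) = 0 := by
    rw [ft_ind, if_neg]
    intro h3
    exact hc (key _ (h3 y (Submodule.mem_sup_left hy)))
  have h4 : ft (fun _ : W => (1 : ℤ)) φ = 0 := by
    rw [ft_one, if_neg]
    rintro rfl
    exact hc rfl
  have h5 : ft (fun _ : W => (1 : ℤ)) (α + φ) = 0 := by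
    rw [ft_one, if_neg]
    intro h5
    rw [add_eq_zero_dual] at h5
    exact hc (by rw [h5]; exact hαy)
  rw [h1, h2, h3, h4, h5] at h
  apply hφ
  linarith

theorem tw_le {u : W → ℤ} {α : Dual (ZMod 2) W} {Q : Submodule (ZMod 2) W} {x0 : W} (x : W) :
    tw u α Q x0 x ≤ 1 ∨ tw u α Q x0 x = u x + ind Q x := by
  unfold tw
  split_ifs with h
  · exact Or.inr rfl
  · left
    have : 0 ≤ ind Q (x + x0) := by
      unfold ind
      split_ifs
      · exact zero_le_one
      · exact le_rfl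
    linarith

end Pool.Agent.GR72
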