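/-
GR72/EpsRun: the exceptional functions of type `2^(k-q) (2^q - 1)` (needs the stubs of TwistStep;
Belov, RDBase).
`p n` is an irreducible polynomial of degree `n` (`n ≥ 1`).  `gpol p q = p 1 * ∏_{3 ≤ n ≤ q+1} p n`, of
degree `mdeg q = 1 + ∑_{3 ≤ n ≤ q+1} n`.
* `bezout_PW`: `a * G + b * π = 1`, `r = (x * a) % π`, `y = r * G` (degree `< deg π + deg G ≤ k`; if
  `π` is a unit or `r = 0` then `y = 0`), `z = x - y`; `π ∣ x - x a G` and `π ∣ (x a - r) G`.
* `natDegree_gpol`, `coprime_gpol`: `Polynomial.natDegree_mul`, `natDegree_prod`;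
  isCoprime_of_natDegree_ne, `IsCoprime.mul_left`, `IsCoprime.prod_left`.
* `exists_core`: induction on `q` (`Nat.le_induction`).
  `q = 1`: `u = ind (mulSub k (p 1))` (`gpol p 1 = p 1`; finrank_mulSub, psd_ind, tot_ind, ft_ind).
  Step `q → q + 1`, `mdeg (q + 1) = mdeg q + (q + 2) ≤ k`: `u` for `q`, `Q = mulSub k (p (q + 2))`,
  `finrank Q + (q + 2) = k` (finrank_mulSub).  `Q ≠ ⊤`; take `x0 ∉ Q` and `α` vanishing on `Q` with
  `α x0 = 1` (exists_annih).  `ft u α = 0`: otherwise `α` vanishes on all multiples of `gpol p q`, and on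
  `Q`, so `α = 0` by bezout_PW (coprime_gpol), contradiction.  `u' = tw u α Q x0`.
  Bound: by tw_le `u' x ≤ 1` or `u' x = u x + ind Q x`, and `n = q + 2` is the new element of
  `Icc 3 (q + 2)`.  `q + 1 ≤ u' x` (`q + 1 ≥ 2`): `u' x = u x + ind Q x`, `u x ≤ u 0 = q` (psd_abs_le), so
  `u x = q` and `x ∈ Q`: `gpol p q ∣ x`, `p (q + 2) ∣ x`, coprime.
  Support: tw_supp (a multiple of `gpol p (q+1)` is in `Q` and a multiple of `gpol p q`).
-/
import Pool.Agent.GR72.TwistStep
import Pool.Agent.GR72.Belov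

namespace Pool.Agent.GR72

open Polynomial Module

/-- A system of irreducible polynomials, one of each degree. -/
def Irr (p : ℕ → (ZMod 2)[X]) : Prop := ∀ n, 1 ≤ n → Irreducible (p n) ∧ (p n).natDegree = n

theorem exists_Irr : ∃ p : ℕ → (ZMod 2)[X], Irr p := by
  have hex : ∀ m : ℕ, ∃ p : (ZMod 2)[X], 1 ≤ m → Irreducible p ∧ p.natDegree = m := by
    intro m
    by_cases hm : 1 ≤ m
    · obtain ⟨p, h1, h2⟩ := exists_irred m hm
      exact ⟨p, fun _ => ⟨h1, h2⟩⟩
    · exact ⟨0, fun h => absurd h hm⟩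
  choose p hp using hex
  exact ⟨p, hp⟩

/-- The modulus. -/
noncomputable def gpol (p : ℕ → (ZMod 2)[X]) (q : ℕ) : (ZMod 2)[X] :=
  p 1 * ∏ n ∈ Finset.Icc 3 (q + 1), p n

/-- Its degree. -/
def mdeg (q : ℕ) : ℕ := 1 + ∑ n ∈ Finset.Icc 3 (q + 1), n

theorem natDegree_gpol {p : ℕ → (ZMod 2)[X]} (hp : Irr p) (q : ℕ) :
    (gpol p q).natDegree = mdeg q ∧ gpol p q ≠ 0 := by
  have h1 : p 1 ≠ 0 := (hp 1 le_rfl).1.ne_zero
  have hn : ∀ n ∈ Finset.Icc 3 (q + 1), p n ≠ 0 := by
    intro n hn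
    have := (Finset.mem_Icc.1 hn).1
    exact (hp n (by omega)).1.ne_zero
  have h2 : ∏ n ∈ Finset.Icc 3 (q + 1), p n ≠ 0 := Finset.prod_ne_zero_iff.2 hn
  refine ⟨?_, mul_ne_zero h1 h2⟩
  unfold gpol mdeg
  rw [Polynomial.natDegree_mul h1 h2, (hp 1 le_rfl).2, Polynomial.natDegree_prod _ _ hn]
  congr 1
  refine Finset.sum_congr rfl fun n hn' => ?_
  have := (Finset.mem_Icc.1 hn').1
  exact (hp n (by omega)).2

theorem coprime_gpol {p : ℕ → (ZMod 2)[X]} (hp : Irr p) {q n : ℕ} (hn : q + 2 ≤ n) (hq : 1 ≤ q) :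
    IsCoprime (gpol p q) (p n) := by
  have hpn := hp n (by omega)
  unfold gpol
  refine IsCoprime.mul_left ?_ (IsCoprime.prod_left ?_)
  · refine isCoprime_of_natDegree_ne (hp 1 le_rfl).1 hpn.1 ?_
    rw [(hp 1 le_rfl).2, hpn.2]
    omega
  · intro i hi
    obtain ⟨hi1, hi2⟩ := Finset.mem_Icc.1 hi
    have h := hp i (by omega)
    refine isCoprime_of_natDegree_ne h.1 hpn.1 ?_
    rw [h.2, hpn.2]
    omega

theorem bezout_PW {k : ℕ} {G π : (ZMod 2)[X]} (h : IsCoprime G π) (hπ : π ≠ 0)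
    (hd : G.natDegree + π.natDegree ≤ k) (x : PW k) :
    ∃ y z : PW k, x = y + z ∧ G ∣ (y : (ZMod 2)[X]) ∧ π ∣ (z : (ZMod 2)[X]) := by
  obtain ⟨a, b, hab⟩ := h
  have hm : ((x : (ZMod 2)[X]) * a % π) * G ∈ Polynomial.degreeLT (ZMod 2) k := by
    by_cases h0 : ((x : (ZMod 2)[X]) * a % π) * G = 0
    · rw [h0]
      exact zero_mem _
    · have hr : ((x : (ZMod 2)[X]) * a % π) ≠ 0 := left_ne_zero_of_mul h0
      have hG : G ≠ 0 := right_ne_zero_of_mul h0
      refine mem_of_natDegree_lt ?_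
      rw [Polynomial.natDegree_mul hr hG]
      have h1 : ((x : (ZMod 2)[X]) * a % π).degree < π.degree := EuclideanDomain.mod_lt _ hπ
      have h2 : ((x : (ZMod 2)[X]) * a % π).natDegree < π.natDegree :=
        Polynomial.natDegree_lt_natDegree hr h1
      omega
  have h1 : π * ((x : (ZMod 2)[X]) * a / π) + (x : (ZMod 2)[X]) * a % π = (x : (ZMod 2)[X]) * a :=
    EuclideanDomain.div_add_mod _ _
  generalize (x : (ZMod 2)[X]) * a % π = r at hm h1
  generalize (x : (ZMod 2)[X]) * a / π = t at h1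
  obtain ⟨y, hy⟩ : ∃ y : PW k, (y : (ZMod 2)[X]) = r * G := ⟨⟨r * G, hm⟩, rfl⟩
  refine ⟨y, x - y, ?_, ?_, ?_⟩
  · rw [add_sub_cancel]
  · rw [hy]
    exact dvd_mul_left _ _
  · have h2 : ((x - y : PW k) : (ZMod 2)[X]) = (x : (ZMod 2)[X]) - r * G := by
      rw [Submodule.coe_sub, hy]
    rw [h2]
    generalize (x : (ZMod 2)[X]) = w at h1
    refine ⟨t * G + w * b, ?_⟩
    have h3 : w = w * (a * G + b * π) := by rw [hab, mul_one]
    calc w - r * G = w * (a * G + b * π) - r * G := by rw [← h3]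
      _ = (w * a) * G + w * b * π - r * G := by ring
      _ = (π * t + r) * G + w * b * π - r * G := by rw [h1]
      _ = π * (t * G + w * b) := by ring

private theorem mdeg_succ {q : ℕ} (hq : 1 ≤ q) : mdeg (q + 1) = mdeg q + (q + 2) := by
  unfold mdeg
  rw [show q + 1 + 1 = (q + 1) + 1 by ring, Finset.sum_Icc_succ_top (by omega : 3 ≤ q + 1 + 1)]
  ring

private theorem gpol_succ (p : ℕ → (ZMod 2)[X]) {q : ℕ} (hq : 1 ≤ q) :
    gpol p (q + 1) = gpol p q * p (q + 2) := by
  unfold gpol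
  rw [Finset.prod_Icc_succ_top (by omega : 3 ≤ q + 1 + 1)]
  ring

open Classical in
theorem exists_core {p : ℕ → (ZMod 2)[X]} (hp : Irr p) {k : ℕ} (q : ℕ) (hq : 1 ≤ q)
    (hk : mdeg q ≤ k) :
    ∃ u : PW k → ℤ, Gr u (2 ^ (k - q) * (2 ^ q - 1)) ∧
      (∀ x, u x ≤ 1 + ((Finset.Icc 3 (q + 1)).filter
        (fun n => p n ∣ (x : (ZMod 2)[X]))).card) ∧
      (∀ x, (q : ℤ) ≤ u x → gpol p q ∣ (x : (ZMod 2)[X])) ∧
      ∀ φ : Dual (ZMod 2) (PW k), ft u φ ≠ 0 → ∀ x : PW k, gpol p q ∣ (x : (ZMod 2)[X]) →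
        φ x = 0 := by
  induction q, hq using Nat.le_induction with
  | base =>
    have h1 := hp 1 le_rfl
    have hk1 : 1 ≤ k := by
      have : mdeg 1 = 1 := by simp [mdeg]
      omega
    have hg : gpol p 1 = p 1 := by simp [gpol]
    have hf := finrank_mulSub (k := k) h1.1.ne_zero (by rw [h1.2]; exact hk1)
    rw [h1.2] at hf
    have hf' : finrank (ZMod 2) (mulSub k (p 1)) = k - 1 := by omega
    refine ⟨ind (mulSub k (p 1)), ⟨psd_ind _, ?_, ?_⟩, ?_, ?_, ?_⟩
    · rw [tot_ind, hf']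
      push_cast
      ring
    · rw [ds_two_pow_mul]
      have : ind (mulSub k (p 1)) 0 = 1 := if_pos (zero_mem _)
      rw [this]
      norm_num [ds_one]
    · intro x
      have h2 : ind (mulSub k (p 1)) x ≤ 1 := by
        unfold ind
        split_ifs
        · exact le_rfl
        · exact zero_le_one
      have h3 : (0 : ℤ) ≤ (((Finset.Icc 3 (1 + 1)).filter
        (fun n => p n ∣ (x : (ZMod 2)[X]))).card : ℤ) := by positivity
      linarith
    · intro x hx
      rw [hg]
      by_contra hc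
      have h2 : ind (mulSub k (p 1)) x = 0 := if_neg hc
      rw [h2] at hx
      norm_num at hx
    · intro φ hφ x hx
      rw [hg] at hx
      rw [ft_ind] at hφ
      by_contra hc
      apply hφ
      rw [if_neg]
      intro h2
      exact hc (h2 x hx)
  | succ q hq ih =>
    rw [mdeg_succ hq] at hk
    obtain ⟨u, hu, hub, huq, hus⟩ := ih (by omega)
    have hπ := hp (q + 2) (by omega)
    have hcop := coprime_gpol hp (le_refl (q + 2)) hq
    have hf := finrank_mulSub (k := k) hπ.1.ne_zero (by rw [hπ.2]; omega)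
    rw [hπ.2] at hf
    set Q : Submodule (ZMod 2) (PW k) := mulSub k (p (q + 2)) with hQ
    have hne : Q ≠ ⊤ := by
      intro hc
      rw [hc, finrank_top, finrank_PW] at hf
      omega
    obtain ⟨x0, hx0⟩ : ∃ x0, x0 ∉ Q := by
      by_contra hc
      push Not at hc
      exact hne (eq_top_iff.2 fun x _ => hc x)
    obtain ⟨α, hα, h0⟩ := exists_annih hx0
    have hft : ft u α = 0 := by
      by_contra hc
      have h2 := hus α hc
      obtain ⟨y, z, hyz, hy, hz⟩ := bezout_PW (k := k) hcop hπ.1.ne_zero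
        (by rw [(natDegree_gpol hp q).1, hπ.2]; exact hk) x0
      rw [hyz, map_add, h2 y hy, hα z hz, add_zero] at h0
      exact absurd h0 (by decide)
    refine ⟨tw u α Q x0, tw_gr (finrank_PW k) hq hu hf hα h0 hft, ?_, ?_, ?_⟩
    · intro x
      have hIcc : Finset.Icc 3 (q + 1 + 1) = insert (q + 2) (Finset.Icc 3 (q + 1)) := by
        ext n
        simp only [Finset.mem_Icc, Finset.mem_insert]
        omega
      have hni : q + 2 ∉ Finset.Icc 3 (q + 1) := by
        simp only [Finset.mem_Icc]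
        omega
      rcases tw_le (u := u) (α := α) (Q := Q) (x0 := x0) x with h | h
      · have h3 : (0 : ℤ) ≤ (((Finset.Icc 3 (q + 1 + 1)).filter
          (fun n => p n ∣ (x : (ZMod 2)[X]))).card : ℤ) := by positivity
        linarith
      · rw [h, hIcc, Finset.filter_insert]
        by_cases hx : x ∈ Q
        · have hx' : p (q + 2) ∣ (x : (ZMod 2)[X]) := hx
          rw [if_pos hx', Finset.card_insert_of_notMem
            (fun hc => hni (Finset.mem_of_mem_filter _ hc))]
          have h4 : ind Q x = 1 := if_pos hx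
          rw [h4]
          have h5 := hub x
          push_cast
          linarith
        · have hx' : ¬ p (q + 2) ∣ (x : (ZMod 2)[X]) := hx
          rw [if_neg hx']
          have h4 : ind Q x = 0 := if_neg hx
          rw [h4]
          have h5 := hub x
          linarith
    · intro x hx
      push_cast at hx
      have hq' : (1 : ℤ) ≤ q := by exact_mod_cast hq
      rcases tw_le (u := u) (α := α) (Q := Q) (x0 := x0) x with h | h
      · linarith
      · rw [h] at hx
        have h2 : u x ≤ q := by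
          have h3 := psd_abs_le hu.psd x
          have h4 := hu.zero
          rw [ds_two_pow_mul, ds_two_pow_sub_one] at h4
          rw [h4] at h3
          exact le_trans (le_abs_self _) h3
        by_cases hxQ : x ∈ Q
        · have h4 : ind Q x = 1 := if_pos hxQ
          rw [h4] at hx
          have h5 := huq x (by linarith)
          rw [gpol_succ p hq]
          exact hcop.mul_dvd h5 hxQ
        · have h4 : ind Q x = 0 := if_neg hxQ
          rw [h4] at hx
          linarith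
    · intro φ hφ x hx
      rw [gpol_succ p hq] at hx
      refine tw_supp hα h0 hφ (y := x) ?_ ?_
      · exact dvd_trans (dvd_mul_left _ _) hx
      · intro ψ hψ
        exact hus ψ hψ x (dvd_trans (dvd_mul_right _ _) hx)

end Pool.Agent.GR72
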