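/-
GR72/SuffBig: sufficiency with the bonus, large dimension (needs the stub exists_core of EpsRun;
Top, Suff, Belov, Digits).
`V = 2^(k-q) (2^q - 1) + R`, `R < 2^(k-q-1)`, so every `j ∈ R.bitIndices` has `j + (q + 2) ≤ k`
(mem_bits_lt).
* `mdeg_eq`: `2 * mdeg q + 2 = q (q + 3)` for `q ≥ 1` (induction, `Finset.sum_Icc_succ_top`).
* `topcost_run_top`: the bit list of `V` is the one of `R` followed by `k-q, ..., k-1` (as in
  topcost_two / bits_add_TP in GR72/Top, which is private: copy it); the reversed list starts with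
  `k-1, ..., k-q` with costs `1, ..., q`.
* `suff_big`: `p` from exists_Irr, `u` from exists_core, `P j = mulSub k (p (k - j))` for `j ∈ R.bitIndices`
  (`finrank (P j) = j`: finrank_mulSub), `v x = u x + ∑_{j ∈ R.bitIndices.toFinset} ind (P j) x`.
  `Gr v V`: gr_sum, psd_add, tot_add; `ds V = q + ds R` (ds_two_pow_mul_add), as in suff_two_form
  (GR72/CritSuff).
  Let `x ≠ 0`, `I = {j ∈ bits R | x ∈ P j}`, `S = {n ∈ Icc 3 (q+1) | p n ∣ x}`, and suppose
  `s + 1 ≤ v x = u x + card I`.  All `p n` (`n ∈ S`) and `p (k - j)` (`j ∈ I`, degrees `≥ q + 2`) are pairwise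
  coprime (different degrees), so their product divides `x`, and the degree is `< k`:
    `∑_{n ∈ S} n + ∑_{j ∈ I} (k - j) < k`.     (1)
  If `q ≤ u x` then also `gpol p q ∣ x`: `mdeg q + ∑_{j ∈ I} (k - j) < k`.     (2)
  Let `ρ m = topcost k R m`; `topcost k V (s + 1) = q (q + 1) / 2 + ρ (s + 1 - q)`, so by `h`
    `k ≤ mdeg q + ρ (s + 1 - q)`.     (3)
  Case `q ≤ u x`: `u x ≤ q`, so `card I ≥ s + 1 - q`; take `I' ⊆ I` with exactly `s + 1 - q` elements;
  topcost_le: `∑_{I'} ≥ ρ (s + 1 - q)`: (2), (3) contradict.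
  Case `u x < q`: let `i = (u x).toNat < q` (if `u x < 0` use `i = 0`); `card I ≥ s + 1 - i` and
  `card S + 1 ≥ i`.  `I' ⊆ I` with exactly `s + 1 - i` elements; `∑_{I'} ≥ ρ (s + 1 - i) ≥
  ρ (s + 1 - q) + (q - i) (q + 2)` (topcost_le; topcost_succ `q - i` times, `B = q + 2`; note
  `s + 1 - i ≤ card I ≤ ds R`).  The elements of `Icc 3 (q+1) ∖ S` number `q - 1 - card S ≤ q - i` and
  are `≤ q + 1`, so `∑_S n ≥ (mdeg q - 1) - (q - i) (q + 1)`.  Together
  `∑_S n + ∑_{I'} (k - j) ≥ mdeg q - 1 + (q - i) + ρ (s + 1 - q) ≥ k`, contradiction to (1).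
-/
import Pool.Agent.GR72.EpsRun
import Pool.Agent.GR72.Suff

namespace Pool.Agent.GR72

open Polynomial Module

theorem mdeg_eq {q : ℕ} (hq : 1 ≤ q) : 2 * mdeg q + 2 = q * (q + 3) := by
  induction q, hq using Nat.le_induction with
  | base => simp [mdeg]
  | succ q hq ih =>
    have h1 : mdeg (q + 1) = mdeg q + (q + 2) := by
      unfold mdeg
      rw [Finset.sum_Icc_succ_top (by omega : 3 ≤ q + 1 + 1)]
      ring
    rw [h1]
    nlinarith

private theorem bits_add_SB : ∀ (e a b : ℕ), b < 2 ^ e →
    (2 ^ e * a + b).bitIndices = b.bitIndices ++ a.bitIndices.map (· + e) := by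
  intro e
  induction e with
  | zero =>
    intro a b hb
    have : b = 0 := by simpa using hb
    subst this
    simp
  | succ e ih =>
    intro a b hb
    rw [pow_succ] at hb
    have hmap : (a.bitIndices.map (· + (e + 1))) =
        (a.bitIndices.map (· + e)).map (· + 1) := by
      rw [List.map_map]
      apply List.map_congr_left
      intro x _
      simp only [Function.comp_apply]
      ring
    rcases Nat.even_or_odd' b with ⟨b', rfl | rfl⟩
    · have e1 : 2 ^ (e + 1) * a + 2 * b' = 2 * (2 ^ e * a + b') := by ring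
      rw [e1, Nat.bitIndices_two_mul, Nat.bitIndices_two_mul, ih a b' (by omega), List.map_append,
        hmap]
    · have e1 : 2 ^ (e + 1) * a + (2 * b' + 1) = 2 * (2 ^ e * a + b') + 1 := by ring
      rw [e1, Nat.bitIndices_two_mul_add_one, Nat.bitIndices_two_mul_add_one,
        ih a b' (by omega), List.map_append, hmap, List.cons_append]

private theorem bits_ones_SB (q : ℕ) : (2 ^ q - 1).bitIndices = List.range q := by
  induction q with
  | zero => simp
  | succ q ih =>
    have h1 : 1 ≤ 2 ^ q := Nat.one_le_two_pow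
    have e : 2 ^ (q + 1) - 1 = 2 * (2 ^ q - 1) + 1 := by
      rw [pow_succ]; omega
    rw [e, Nat.bitIndices_two_mul_add_one, ih, List.range_succ_eq_map]

private theorem sum_range_SB (q : ℕ) : ∀ r, r ≤ q →
    2 * ((List.range r).map (fun i => q - i)).sum + r * r = r * (2 * q + 1) := by
  intro r
  induction r with
  | zero => simp
  | succ r ih =>
    intro hr
    have h := ih (by omega)
    rw [List.range_succ, List.map_append, List.sum_append]
    simp only [List.map_cons, List.map_nil, List.sum_cons, List.sum_nil, add_zero]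
    obtain ⟨t, ht⟩ : ∃ t, q = r + 1 + t := ⟨q - (r + 1), by omega⟩
    have h2 : q - r = 1 + t := by omega
    rw [h2]
    have h3 : q = r + 1 + t := ht
    nlinarith

theorem topcost_run_top {k q R m : ℕ} (hk : q ≤ k) (hR : R < 2 ^ (k - q)) :
    topcost k (2 ^ (k - q) * (2 ^ q - 1) + R) (m + q) = q * (q + 1) / 2 + topcost k R m := by
  unfold topcost
  rw [bits_add_SB _ _ _ hR, bits_ones_SB, List.reverse_append]
  obtain ⟨A, hA⟩ : ∃ A, A = (List.map (fun x => x + (k - q)) (List.range q)).reverse := ⟨_, rfl⟩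
  have hlen : A.length = q := by rw [hA]; simp
  rw [← hA]
  have h1 : List.take (m + q) (A ++ R.bitIndices.reverse) =
      A ++ List.take m R.bitIndices.reverse := by
    rw [List.take_append, hlen, Nat.add_sub_cancel, List.take_of_length_le (by omega)]
  rw [h1, List.map_append, List.sum_append]
  congr 1
  rw [hA, List.map_reverse, List.sum_reverse, List.map_map]
  have h2 : List.map ((fun j => k - j) ∘ fun x => x + (k - q)) (List.range q) =
      List.map (fun i => q - i) (List.range q) := by
    apply List.map_congr_left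
    intro x hx
    have := List.mem_range.1 hx
    simp only [Function.comp_apply]
    omega
  rw [h2]
  have h3 := sum_range_SB q q le_rfl
  have h4 : 2 * ((List.range q).map (fun i => q - i)).sum = q * (q + 1) := by nlinarith
  omega

private theorem deg_sum_SB {p : ℕ → (ZMod 2)[X]} (hp : Irr p) {k : ℕ} (x : PW k) (hx : x ≠ 0)
    (T : Finset ℕ) (hT : ∀ n ∈ T, 1 ≤ n ∧ p n ∣ (x : (ZMod 2)[X])) : ∑ n ∈ T, n < k := by
  have h0 : (x : (ZMod 2)[X]) ≠ 0 := fun h => hx (Subtype.ext h)
  have hdvd : ∏ n ∈ T, p n ∣ (x : (ZMod 2)[X]) := by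
    refine Finset.prod_dvd_of_coprime ?_ (fun n hn => (hT n hn).2)
    intro a ha b hb hab
    have h1 := hp a (hT a ha).1
    have h2 := hp b (hT b hb).1
    exact isCoprime_of_natDegree_ne h1.1 h2.1 (by rw [h1.2, h2.2]; exact hab)
  have hdeg : (∏ n ∈ T, p n).natDegree = ∑ n ∈ T, n := by
    rw [Polynomial.natDegree_prod _ _ (fun n hn => (hp n (hT n hn).1).1.ne_zero)]
    exact Finset.sum_congr rfl fun n hn => (hp n (hT n hn).1).2
  have h1 := Polynomial.natDegree_le_of_dvd hdvd h0
  rw [hdeg] at h1
  exact lt_of_le_of_lt h1 (natDegree_lt_of_mem x.2 h0)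

private theorem topcost_iter_SB {k V B : ℕ} (hB : ∀ j ∈ V.bitIndices, j + B ≤ k) (m r : ℕ)
    (hm : m + r ≤ ds V) : topcost k V m + r * B ≤ topcost k V (m + r) := by
  induction r with
  | zero => simp
  | succ r ih =>
    have h1 := ih (by omega)
    have h2 := topcost_succ (k := k) (V := V) (m := m + r) (B := B) (by omega) hB
    rw [← Nat.add_assoc, Nat.add_mul, Nat.one_mul]
    omega

theorem suff_big {k q R s : ℕ} (hq : 2 ≤ q) (hqs : q ≤ s + 1) (hk : mdeg q ≤ k)
    (hR : R < 2 ^ (k - q - 1)) (hs : s + 1 ≤ ds (2 ^ (k - q) * (2 ^ q - 1) + R))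
    (h : k ≤ topcost k (2 ^ (k - q) * (2 ^ q - 1) + R) (s + 1) + (q - 1)) :
    ∃ v : PW k → ℤ, Gr v (2 ^ (k - q) * (2 ^ q - 1) + R) ∧ ∀ x, x ≠ 0 → v x ≤ s := by
  classical
  obtain ⟨p, hp⟩ := exists_Irr
  obtain ⟨u, hu, hu1, hu2, -⟩ := exists_core hp q (by omega) hk
  have hmd := mdeg_eq (by omega : 1 ≤ q)
  have hqk : q + 2 ≤ k := by nlinarith
  have hR' : R < 2 ^ (k - q) := lt_of_lt_of_le hR (Nat.pow_le_pow_right (by norm_num) (by omega))
  have hbit : ∀ j ∈ R.bitIndices, j + (q + 2) ≤ k := by
    intro j hj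
    have := mem_bits_lt hR hj
    omega
  obtain ⟨P, hPdef⟩ : ∃ P : ℕ → Submodule (ZMod 2) (PW k), ∀ j, P j = mulSub k (p (k - j)) :=
    ⟨_, fun _ => rfl⟩
  have hPr : ∀ j ∈ R.bitIndices, finrank (ZMod 2) (P j) = j := by
    intro j hj
    have h1 := hbit j hj
    have h2 := hp (k - j) (by omega)
    have h3 := finrank_mulSub (k := k) h2.1.ne_zero (by rw [h2.2]; omega)
    rw [← hPdef, h2.2] at h3
    omega
  have hsum := gr_sum P hPr
  have hds : ds (2 ^ (k - q) * (2 ^ q - 1) + R) = q + ds R := by
    rw [ds_two_pow_mul_add _ _ _ hR', ds_two_pow_sub_one]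
  have hu0 : u 0 = q := by rw [hu.zero, ds_two_pow_mul, ds_two_pow_sub_one]
  refine ⟨fun x => u x + ∑ j ∈ R.bitIndices.toFinset, ind (P j) x, ⟨psd_add hu.psd hsum.psd, ?_, ?_⟩,
    fun x hx => ?_⟩
  · rw [tot_add u (fun x => ∑ j ∈ R.bitIndices.toFinset, ind (P j) x), hu.tot, hsum.tot]
    push_cast
    ring
  · show u 0 + ∑ j ∈ R.bitIndices.toFinset, ind (P j) 0 = _
    have h1 := hsum.zero
    beta_reduce at h1
    rw [h1, hu0, hds]
    push_cast
    ring
  · show u x + ∑ j ∈ R.bitIndices.toFinset, ind (P j) x ≤ s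
    have hI0 : ∑ j ∈ R.bitIndices.toFinset, ind (P j) x =
        ((R.bitIndices.toFinset.filter (fun j => x ∈ P j)).card : ℤ) := by
      unfold ind
      rw [Finset.sum_boole]
    rw [hI0]
    obtain ⟨I, hI⟩ : ∃ I, I = R.bitIndices.toFinset.filter (fun j => x ∈ P j) := ⟨_, rfl⟩
    rw [← hI]
    by_contra hlt
    push Not at hlt
    have hIbit : ∀ j ∈ I, j ∈ R.bitIndices := by
      intro j hj
      rw [hI, Finset.mem_filter, List.mem_toFinset] at hj
      exact hj.1
    have hIdvd : ∀ j ∈ I, p (k - j) ∣ (x : (ZMod 2)[X]) := by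
      intro j hj
      rw [hI, Finset.mem_filter, hPdef] at hj
      exact mem_mulSub.1 hj.2
    have hIsub : I ⊆ R.bitIndices.toFinset := fun j hj => List.mem_toFinset.2 (hIbit j hj)
    have hIds : I.card ≤ ds R := by
      rw [← card_bits]
      exact Finset.card_le_card hIsub
    -- the sum over an image
    have himg : ∀ I' ⊆ I, ∑ n ∈ I'.image (fun j => k - j), n = ∑ j ∈ I', (k - j) := by
      intro I' hI'
      rw [Finset.sum_image]
      intro a ha b hb hab
      have h1 := hbit a (hIbit a (hI' ha))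
      have h2 := hbit b (hIbit b (hI' hb))
      simp only at hab
      omega
    have hrun : topcost k (2 ^ (k - q) * (2 ^ q - 1) + R) (s + 1) =
        q * (q + 1) / 2 + topcost k R (s + 1 - q) := by
      have := topcost_run_top (k := k) (q := q) (R := R) (m := s + 1 - q) (by omega) hR'
      rwa [Nat.sub_add_cancel hqs] at this
    rw [hrun] at h
    have hqq : 2 * (q * (q + 1) / 2) = q * (q + 1) :=
      Nat.mul_div_cancel' (Nat.even_mul_succ_self q).two_dvd
    have hkey : k ≤ mdeg q + topcost k R (s + 1 - q) := by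
      have h5 : 2 * mdeg q = 2 * (q * (q + 1) / 2) + 2 * (q - 1) := by
        obtain ⟨r, rfl⟩ : ∃ r, q = r + 1 := ⟨q - 1, by omega⟩
        rw [hqq, Nat.add_sub_cancel]
        nlinarith
      omega
    by_cases hcase : (q : ℤ) ≤ u x
    · -- first case
      have hg := hu2 x hcase
      have hule : u x ≤ q := by
        rw [← hu0]
        exact (abs_le.1 (psd_abs_le hu.psd x)).2
      have hIc : s + 1 - q ≤ I.card := by
        have : (s : ℤ) + 1 ≤ u x + I.card := by linarith
        omega
      obtain ⟨I', hI', hcard⟩ := Finset.exists_subset_card_eq hIc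
      have h1 : topcost k R (s + 1 - q) ≤ ∑ j ∈ I', (k - j) := by
        rw [← hcard]
        exact topcost_le I' (hI'.trans hIsub)
      have h2 := deg_sum_SB hp x hx (insert 1 (Finset.Icc 3 (q + 1)) ∪ I'.image (fun j => k - j)) (by
        intro n hn
        rw [Finset.mem_union] at hn
        rcases hn with hn | hn
        · rw [Finset.mem_insert] at hn
          rcases hn with rfl | hn
          · refine ⟨le_rfl, dvd_trans ?_ hg⟩
            exact Dvd.intro _ rfl
          · refine ⟨by have := Finset.mem_Icc.1 hn; omega, dvd_trans ?_ hg⟩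
            exact dvd_trans (Finset.dvd_prod_of_mem p hn) (Dvd.intro_left _ rfl)
        · rw [Finset.mem_image] at hn
          obtain ⟨j, hj, rfl⟩ := hn
          have := hbit j (hIbit j (hI' hj))
          exact ⟨by omega, hIdvd j (hI' hj)⟩)
      rw [Finset.sum_union, himg I' hI', Finset.sum_insert] at h2
      · unfold mdeg at hkey
        omega
      · simp
      · rw [Finset.disjoint_left]
        intro a ha ha'
        rw [Finset.mem_image] at ha'
        obtain ⟨j, hj, rfl⟩ := ha'
        have := hbit j (hIbit j (hI' hj))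
        rw [Finset.mem_insert, Finset.mem_Icc] at ha
        omega
    · -- second case
      push Not at hcase
      obtain ⟨S, hS⟩ : ∃ S, S = (Finset.Icc 3 (q + 1)).filter
        (fun n => p n ∣ (x : (ZMod 2)[X])) := ⟨_, rfl⟩
      have hb := hu1 x
      rw [← hS] at hb
      obtain ⟨i, hi⟩ : ∃ i, i = (u x).toNat := ⟨_, rfl⟩
      have hiq : i < q := by omega
      have hui : u x ≤ i := by omega
      have hSi : i ≤ S.card + 1 := by omega
      have hIc : s + 1 - i ≤ I.card := by
        have : (s : ℤ) + 1 ≤ u x + I.card := by linarith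
        omega
      obtain ⟨I', hI', hcard⟩ := Finset.exists_subset_card_eq hIc
      have h1 : topcost k R (s + 1 - i) ≤ ∑ j ∈ I', (k - j) := by
        rw [← hcard]
        exact topcost_le I' (hI'.trans hIsub)
      have h3 := topcost_iter_SB hbit (s + 1 - q) (q - i) (by omega)
      have h4 : s + 1 - q + (q - i) = s + 1 - i := by omega
      rw [h4] at h3
      have h2 := deg_sum_SB hp x hx (S ∪ I'.image (fun j => k - j)) (by
        intro n hn
        rw [Finset.mem_union] at hn
        rcases hn with hn | hn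
        · rw [hS, Finset.mem_filter, Finset.mem_Icc] at hn
          exact ⟨by omega, hn.2⟩
        · rw [Finset.mem_image] at hn
          obtain ⟨j, hj, rfl⟩ := hn
          have := hbit j (hIbit j (hI' hj))
          exact ⟨by omega, hIdvd j (hI' hj)⟩)
      rw [Finset.sum_union, himg I' hI'] at h2
      · have hSsub : S ⊆ Finset.Icc 3 (q + 1) := by rw [hS]; exact Finset.filter_subset _ _
        have h5 := Finset.sum_sdiff hSsub (f := fun n => n)
        have h6 : ∑ n ∈ Finset.Icc 3 (q + 1) \ S, n ≤ (Finset.Icc 3 (q + 1) \ S).card * (q + 1) := by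
          rw [← smul_eq_mul]
          refine Finset.sum_le_card_nsmul _ _ _ fun n hn => ?_
          have := Finset.mem_sdiff.1 hn
          have := Finset.mem_Icc.1 this.1
          omega
        have h7 : (Finset.Icc 3 (q + 1) \ S).card + S.card = q - 1 := by
          rw [Finset.card_sdiff_add_card_eq_card hSsub, Nat.card_Icc]
          omega
        have h8 : (Finset.Icc 3 (q + 1) \ S).card * (q + 1) ≤ (q - i) * (q + 1) :=
          Nat.mul_le_mul_right _ (by omega)
        have h9 : (q - i) * (q + 2) = (q - i) * (q + 1) + (q - i) := by ring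
        unfold mdeg at hkey
        omega
      · rw [Finset.disjoint_left]
        intro a ha ha'
        rw [Finset.mem_image] at ha'
        obtain ⟨j, hj, rfl⟩ := ha'
        have := hbit j (hIbit j (hI' hj))
        rw [hS, Finset.mem_filter, Finset.mem_Icc] at ha
        omega

end Pool.Agent.GR72
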