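/-
GR72/Crit2Final: the criterion for long runs, improved version (complete, from the stubs of SuffBig,
Descend, CritLong, LongConv).
-/
import Pool.Agent.GR72.SuffBig
import Pool.Agent.GR72.Descend
import Pool.Agent.GR72.CritLong
import Pool.Agent.GR72.LongConv
import Pool.Agent.GR72.FinalGen

namespace Pool.Agent.GR72

open Module

theorem topcost_pow_mul (r k V m : ℕ) : topcost (k + r) (2 ^ r * V) m = topcost k V m := by
  induction r with
  | zero => simp
  | succ r ih =>
    have e1 : k + (r + 1) = k + r + 1 := by omega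
    have e2 : 2 ^ (r + 1) * V = 2 * (2 ^ r * V) := by
      rw [pow_succ]; ring
    rw [e1, e2, topcost_two_mul, ih]

theorem suff_run {k q R s : ℕ} (hq : 2 ≤ q) (hqs : q ≤ s + 1) (hqk : q + 1 ≤ k)
    (hR : R < 2 ^ (k - q - 1)) (hs : s + 1 ≤ ds (2 ^ (k - q) * (2 ^ q - 1) + R))
    (h : k ≤ topcost k (2 ^ (k - q) * (2 ^ q - 1) + R) (s + 1) + (q - 1)) :
    GoodV k (2 ^ (k - q) * (2 ^ q - 1) + R) s := by
  by_cases hk : mdeg q ≤ k
  · obtain ⟨v, h1, h2⟩ := suff_big hq hqs hk hR hs h
    exact ⟨PW k, inferInstance, inferInstance, inferInstance, v, finrank_PW k, h1, h2⟩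
  · obtain ⟨r, hr⟩ : ∃ r, mdeg q = k + r := ⟨mdeg q - k, by omega⟩
    have e1 : 2 ^ r * (2 ^ (k - q) * (2 ^ q - 1) + R) =
        2 ^ (k + r - q) * (2 ^ q - 1) + 2 ^ r * R := by
      have e2 : k + r - q = r + (k - q) := by omega
      rw [e2, pow_add]
      ring
    have hR' : 2 ^ r * R < 2 ^ (k + r - q - 1) := by
      have e2 : k + r - q - 1 = r + (k - q - 1) := by omega
      rw [e2, pow_add]
      exact Nat.mul_lt_mul_of_pos_left hR (by positivity)
    have hR2 : R < 2 ^ (k - q) :=
      hR.trans_le (Nat.pow_le_pow_right (by norm_num) (by omega))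
    have htop : topcost (k + r) (2 ^ (k + r - q) * (2 ^ q - 1) + 2 ^ r * R) (s + 1) =
        topcost k (2 ^ (k - q) * (2 ^ q - 1) + R) (s + 1) := by
      rw [← e1, topcost_pow_mul]
    have hge : q * (q + 1) / 2 ≤ topcost k (2 ^ (k - q) * (2 ^ q - 1) + R) (s + 1) := by
      have e2 : s + 1 = s + 1 - q + q := by omega
      rw [e2, topcost_run_top (by omega) hR2]
      exact Nat.le_add_right _ _
    have hmd := mdeg_eq (q := q) (by omega)
    have hev : 2 * (q * (q + 1) / 2) = q * (q + 1) := by
      have := Nat.even_mul_succ_self q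
      exact Nat.mul_div_cancel' this.two_dvd
    apply descend_pow r
    rw [e1]
    obtain ⟨v, h1, h2⟩ := suff_big (k := k + r) hq hqs (by omega) hR'
      (by rw [← e1, ds_two_pow_mul]; exact hs) (by
        rw [htop, ← hr]
        have h3 : q * (q + 3) = q * (q + 1) + 2 * q := by ring
        omega)
    exact ⟨PW (k + r), inferInstance, inferInstance, inferInstance, v, finrank_PW _, h1, h2⟩

theorem tr_form {k V : ℕ} (hV : V < 2 ^ k) (hT : tr k V + 1 ≤ k) :
    ∃ R, R < 2 ^ (k - tr k V - 1) ∧ V = 2 ^ (k - tr k V) * (2 ^ tr k V - 1) + R := by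
  have h1 : ∀ i < tr k V, V.testBit (k - 1 - i) = true :=
    Nat.findGreatest_spec (P := fun q => ∀ i < q, V.testBit (k - 1 - i) = true)
      (m := 0) (n := k) (Nat.zero_le _) (fun i hi => absurd hi (Nat.not_lt_zero i))
  have h0 : V.testBit (k - tr k V - 1) = false := by
    by_contra h6
    have h7 : tr k V + 1 ≤ tr k V := by
      refine Nat.le_findGreatest (by omega) ?_
      intro i hi
      rcases Nat.lt_or_ge i (tr k V) with h8 | h8
      · exact h1 i h8
      · have h9 : k - 1 - i = k - tr k V - 1 := by omega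
        rw [h9]
        simpa using h6
    omega
  generalize tr k V = T at hT h1 h0
  have hdiv : V / 2 ^ (k - T) = 2 ^ T - 1 := by
    apply Nat.eq_of_testBit_eq
    intro i
    rw [Nat.testBit_div_two_pow, Nat.testBit_two_pow_sub_one]
    by_cases hi : i < T
    · have h2 := h1 (T - 1 - i) (by omega)
      have h3 : k - 1 - (T - 1 - i) = i + (k - T) := by omega
      rw [h3] at h2
      rw [h2]
      simp [hi]
    · have h2 : V.testBit (i + (k - T)) = false := by
        apply Nat.testBit_lt_two_pow
        exact hV.trans_le (Nat.pow_le_pow_right (by norm_num) (by omega))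
      rw [h2]
      simp [hi]
  refine ⟨V % 2 ^ (k - T), ?_, ?_⟩
  · obtain ⟨n, hn⟩ : ∃ n, k - T = n + 1 := ⟨k - T - 1, by omega⟩
    rw [hn] at h0 ⊢
    rw [Nat.add_sub_cancel] at h0 ⊢
    apply Nat.lt_pow_two_of_testBit
    intro i hi
    rw [Nat.testBit_mod_two_pow]
    rcases Nat.eq_or_lt_of_le hi with h2 | h2
    · rw [← h2, h0, Bool.and_false]
    · have h3 : ¬ i < n + 1 := by omega
      simp [h3]
  · have h2 := Nat.div_add_mod V (2 ^ (k - T))
    rw [hdiv] at h2
    exact h2.symm

theorem griesmer_runs {k d : ℕ} (hk : 1 ≤ k) (hd : 1 ≤ d) {s D : ℕ}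
    (hs : s = d ⌈/⌉ 2 ^ (k - 1)) (hD : D = s * 2 ^ (k - 1) - d) :
    (((exps D).take (s + 1)).sum ≤ s * k + bonus k s D → Attained k d) ∧
      (LongRuns k s D → Attained k d → ((exps D).take (s + 1)).sum ≤ s * k + bonus k s D) := by
  obtain ⟨hs1, hsd, hDlt⟩ := sD (k := k) hd
  rw [← hs] at hs1 hsd hDlt
  rw [← hD] at hsd hDlt
  have hV : 2 * D < 2 ^ k := by
    obtain ⟨m, rfl⟩ : ∃ m, k = m + 1 := ⟨k - 1, by omega⟩
    simp only [Nat.add_sub_cancel] at hDlt
    rw [pow_succ]; omega
  have hbon : bonus k s D = if tr k (2 * D) ≤ s + 1 then tr k (2 * D) - 1 else 0 := by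
    unfold bonus
    rw [topRun_eq hV]
  rw [hbon, exps_eq]
  -- the condition in terms of topcost
  have hcond : s + 1 ≤ ds (2 * D) → ∀ b, (((2 * D).bitIndices.reverse.take (s + 1)).sum ≤
      s * k + b ↔ k ≤ topcost k (2 * D) (s + 1) + b) := by
    intro h b
    have := topcost_add (k := k) hV h
    rw [add_mul, one_mul] at this
    constructor <;> intro h <;> omega
  constructor
  · intro hc
    rw [attained_iff hk hd]
    by_cases hds : s + 1 ≤ ds (2 * D)
    · rw [hcond hds] at hc
      by_cases h1 : k ≤ topcost k (2 * D) (s + 1)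
      · obtain ⟨v, hv, hb⟩ := suff_one hV hds h1
        exact to_code hk hd hsd hDlt (finrank_PW k) hv hb
      · have hT1 : tr k (2 * D) ≤ s + 1 := by
          by_contra h2
          rw [if_neg h2] at hc
          omega
        rw [if_pos hT1] at hc
        have hT2 : 2 ≤ tr k (2 * D) := by omega
        have hTk : tr k (2 * D) + 1 ≤ k := by
          have h2 : tr k (2 * D) ≤ k := Nat.findGreatest_le k
          rcases Nat.eq_or_lt_of_le h2 with h3 | h3
          · exfalso
            have h4 : ∀ i < tr k (2 * D), (2 * D).testBit (k - 1 - i) = true :=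
              Nat.findGreatest_spec (P := fun q => ∀ i < q, (2 * D).testBit (k - 1 - i) = true)
                (m := 0) (n := k) (Nat.zero_le _) (fun i hi => absurd hi (Nat.not_lt_zero i))
            have h5 := h4 (k - 1) (by omega)
            rw [Nat.sub_self] at h5
            simp [Nat.testBit_zero] at h5
          · omega
        obtain ⟨R, hR, hVR⟩ := tr_form hV hTk
        have h3 := suff_run (k := k) (q := tr k (2 * D)) (R := R) (s := s) hT2 hT1 hTk hR
          (by rw [← hVR]; exact hds) (by rw [← hVR]; exact hc)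
        rw [← hVR] at h3
        obtain ⟨W, i1, i2, i3, v, hW, hv, hb⟩ := h3
        exact to_code hk hd hsd hDlt hW hv hb
    · obtain ⟨v, hv⟩ := suff_any hV
      refine to_code hk hd hsd hDlt (finrank_PW k) hv fun x _ => ?_
      have h1 := psd_abs_le hv.psd x
      have h2 := abs_le.1 h1
      rw [hv.zero] at h2
      have h4 : (ds (2 * D) : ℤ) ≤ s := by exact_mod_cast (by omega : ds (2 * D) ≤ s)
      linarith [h2.2]
  · intro h3 hA
    have h3' : LongTop k (2 * D) (s + 1) := long_conv h3
    obtain ⟨C, hC⟩ := (attained_iff hk hd).1 hA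
    obtain ⟨v, hv, hb⟩ := (code_to hk hsd hDlt hC).2 rfl
    by_cases hds : s + 1 ≤ ds (2 * D)
    · rw [hcond hds]
      haveI : Finite (Dual (ZMod 2) C) := inferInstance
      have hfr : finrank (ZMod 2) (Dual (ZMod 2) C) = k := by
        rw [finrank_dual_eq]; exact hC.1
      have h4 := crit_long hv (by rw [hfr]; exact hV) (by rw [hfr]; exact h3') hs1 hds hb
      rw [hfr] at h4
      rw [if_pos (tr_le hV (by omega) h3')]
      exact h4
    · have h1 := topcost_add (k := k) hV (le_refl (ds (2 * D)))
      have h2 : (2 * D).bitIndices.reverse.take (s + 1) = (2 * D).bitIndices.reverse.take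
          (ds (2 * D)) := by
        have e1 : (2 * D).bitIndices.reverse.length = ds (2 * D) := by simp [ds]
        rw [List.take_of_length_le (by omega), List.take_of_length_le (by omega)]
      rw [h2]
      have h4 : ds (2 * D) * k ≤ s * k := Nat.mul_le_mul_right _ (by omega)
      omega

end Pool.Agent.GR72
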