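/-
GR72/RunErr: sums over the maximal runs of ones (complete).
-/
import Pool.Agent.GR72.FullLong

namespace Pool.Agent.GR72

/-- `c, c + 1, ..., c + q - 1` is a maximal run of ones of `V`. -/
def IsRun (V c q : ℕ) : Prop :=
  1 ≤ q ∧ (∀ i < q, V.testBit (c + i) = true) ∧ V.testBit (c + q) = false ∧
    (c = 0 ∨ V.testBit (c - 1) = false)

open Classical in
/-- The maximal runs of ones. -/
noncomputable def runs (K V : ℕ) : Finset (ℕ × ℕ) :=
  (Finset.range K ×ˢ Finset.range K).filter (fun p => IsRun V p.1 p.2)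

/-- Sum of `g a c q` over the maximal runs, `a` is the number of higher ones. -/
noncomputable def runSum (K V : ℕ) (g : ℕ → ℕ → ℕ → ℕ) : ℕ :=
  ∑ p ∈ runs K V, g (ds (V / 2 ^ (p.1 + p.2))) p.1 p.2

theorem mem_runs {K V : ℕ} {p : ℕ × ℕ} :
    p ∈ runs K V ↔ (p.1 < K ∧ p.2 < K) ∧ IsRun V p.1 p.2 := by
  classical
  unfold runs
  rw [Finset.mem_filter, Finset.mem_product, Finset.mem_range, Finset.mem_range]

theorem isRun_step {q c t c' q' : ℕ} (hq : 1 ≤ q) :
    IsRun (2 ^ c * (2 ^ (q + 1) * t + (2 ^ q - 1))) c' q' ↔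
      (c' = c ∧ q' = q) ∨ IsRun (2 ^ (c + q + 1) * t) c' q' := by
  constructor
  · rintro ⟨h0, h1, h2, h3⟩
    have hc0 : c ≤ c' := by
      by_contra hcon
      have h4 := h1 0 (by omega)
      rw [add_zero, tb_run, if_pos (by omega)] at h4
      exact Bool.false_ne_true h4
    rcases Nat.lt_or_ge (c + q) c' with hc | hc
    · right
      refine ⟨h0, fun i hi => ?_, ?_, ?_⟩
      · have h4 := h1 i hi
        rw [tb_run, if_neg (by omega), if_neg (by omega)] at h4
        rw [tb_high]
        exact h4
      · rw [tb_run, if_neg (by omega), if_neg (by omega)] at h2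
        rw [tb_high]
        exact h2
      · right
        rw [tb_high]
        by_cases h5 : c' - 1 = c + q
        · rw [if_pos (by omega)]
        · rcases h3 with h3 | h3
          · omega
          · rw [tb_run, if_neg (by omega), if_neg (by omega)] at h3
            exact h3
    · left
      have hne : c' ≠ c + q := by
        intro h5
        have h4 := h1 0 (by omega)
        rw [add_zero, tb_run, if_neg (by omega), if_neg (by omega), if_pos (by omega)] at h4
        exact Bool.false_ne_true h4
      have hcc : c' = c := by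
        by_contra hcon
        rcases h3 with h3 | h3
        · omega
        · rw [tb_run, if_neg (by omega), if_pos (by omega)] at h3
          exact Bool.false_ne_true h3.symm
      subst hcc
      refine ⟨rfl, ?_⟩
      rcases Nat.lt_trichotomy q' q with h5 | h5 | h5
      · rw [tb_run, if_neg (by omega), if_pos (by omega)] at h2
        exact absurd h2.symm Bool.false_ne_true
      · exact h5
      · have h4 := h1 q h5
        rw [tb_run, if_neg (by omega), if_neg (by omega), if_pos (by omega)] at h4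
        exact absurd h4 Bool.false_ne_true
  · rintro (⟨rfl, rfl⟩ | ⟨h0, h1, h2, h3⟩)
    · refine ⟨hq, fun i hi => ?_, ?_, ?_⟩
      · rw [tb_run, if_neg (by omega), if_pos (by omega)]
      · rw [tb_run, if_neg (by omega), if_neg (by omega), if_pos (by omega)]
      · rcases Nat.eq_zero_or_pos c' with h | h
        · exact Or.inl h
        · right
          rw [tb_run, if_pos (by omega)]
    · have hc : c + q < c' := by
        by_contra hcon
        have h4 := h1 0 (by omega)
        rw [tb_high, if_pos (by omega)] at h4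
        exact Bool.false_ne_true h4
      refine ⟨h0, fun i hi => ?_, ?_, ?_⟩
      · have h4 := h1 i hi
        rw [tb_high] at h4
        rw [tb_run, if_neg (by omega), if_neg (by omega)]
        exact h4
      · rw [tb_high] at h2
        rw [tb_run, if_neg (by omega), if_neg (by omega)]
        exact h2
      · right
        by_cases h5 : c' - 1 = c + q
        · rw [h5, tb_run, if_neg (by omega), if_neg (by omega), if_pos (by omega)]
        · rcases h3 with h3 | h3
          · omega
          · rw [tb_high] at h3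
            rw [tb_run, if_neg (by omega), if_neg (by omega)]
            exact h3

theorem isRun_gt {q c t c' q' : ℕ} (h : IsRun (2 ^ (c + q + 1) * t) c' q') : c + q < c' := by
  by_contra hcon
  have h4 := h.2.1 0 (by have := h.1; omega)
  rw [tb_high, if_pos (by omega)] at h4
  exact Bool.false_ne_true h4

theorem run_div {q c t : ℕ} :
    (2 ^ c * (2 ^ (q + 1) * t + (2 ^ q - 1))) / 2 ^ (c + q) = 2 * t := by
  rw [V_eq]
  have e : 2 ^ (c + q + 1) * t = 2 ^ (c + q) * (2 * t) := by
    rw [pow_succ]; ring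
  rw [e, Nat.mul_add_div (by positivity), Nat.div_eq_of_lt (low_lt q c), add_zero]

theorem run_div_hi {q c t e : ℕ} (h : c + q ≤ e) :
    (2 ^ c * (2 ^ (q + 1) * t + (2 ^ q - 1))) / 2 ^ e = (2 ^ (c + q + 1) * t) / 2 ^ e := by
  obtain ⟨d, rfl⟩ := Nat.exists_eq_add_of_le h
  have h1 : (2 ^ (c + q + 1) * t) / 2 ^ (c + q) = 2 * t := by
    have e : 2 ^ (c + q + 1) * t = 2 ^ (c + q) * (2 * t) := by
      rw [pow_succ]; ring
    rw [e, Nat.mul_div_cancel_left _ (by positivity)]
  rw [pow_add 2 (c + q) d, ← Nat.div_div_eq_div_mul, ← Nat.div_div_eq_div_mul, run_div, h1]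

theorem runSum_step {K q c t : ℕ} (hq : 1 ≤ q) (hK : c + q < K) (g : ℕ → ℕ → ℕ → ℕ) :
    runSum K (2 ^ c * (2 ^ (q + 1) * t + (2 ^ q - 1))) g =
      runSum K (2 ^ (c + q + 1) * t) g + g (ds t) c q := by
  classical
  have h1 : runs K (2 ^ c * (2 ^ (q + 1) * t + (2 ^ q - 1))) =
      insert (c, q) (runs K (2 ^ (c + q + 1) * t)) := by
    ext ⟨c', q'⟩
    simp only [mem_runs, Finset.mem_insert, Prod.mk.injEq, isRun_step hq]
    constructor
    · rintro ⟨h1, h2 | h2⟩
      · exact Or.inl h2
      · exact Or.inr ⟨h1, h2⟩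
    · rintro (⟨rfl, rfl⟩ | ⟨h1, h2⟩)
      · exact ⟨⟨by omega, by omega⟩, Or.inl ⟨rfl, rfl⟩⟩
      · exact ⟨h1, Or.inr h2⟩
  have h2 : (c, q) ∉ runs K (2 ^ (c + q + 1) * t) := by
    intro h
    have := isRun_gt (mem_runs.1 h).2
    simp only at this
    omega
  unfold runSum
  rw [h1, Finset.sum_insert h2, Nat.add_comm]
  congr 1
  · refine Finset.sum_congr rfl fun p hp => ?_
    have h3 := isRun_gt (mem_runs.1 hp).2
    rw [run_div_hi (by omega)]
  · simp only
    rw [run_div, ds_two_mul]

theorem runSum_zero (K : ℕ) (g : ℕ → ℕ → ℕ → ℕ) : runSum K 0 g = 0 := by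
  classical
  unfold runSum
  have h : runs K 0 = ∅ := by
    rw [Finset.eq_empty_iff_forall_notMem]
    intro p hp
    have h1 := (mem_runs.1 hp).2
    have h2 := h1.2.1 0 (by have := h1.1; omega)
    simp at h2
  rw [h, Finset.sum_empty]

theorem runSum_mono {K V : ℕ} {g g' : ℕ → ℕ → ℕ → ℕ}
    (h : ∀ c q, IsRun V c q → g (ds (V / 2 ^ (c + q))) c q ≤ g' (ds (V / 2 ^ (c + q))) c q) :
    runSum K V g ≤ runSum K V g' :=
  Finset.sum_le_sum fun p hp => h p.1 p.2 (mem_runs.1 hp).2

/-- The error for a run `c, ..., c + q - 1` that is not deep. -/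
def errA (k : ℕ) (_a c q : ℕ) : ℕ :=
  if 4 ≤ q ∧ k < c + q - 1 + q * (q - 1) / 2 then q * (q + 1) / 2 else 0

/-- The error for a run with `a` higher ones, if the `m` highest ones matter. -/
def errT (k m : ℕ) (a c q : ℕ) : ℕ :=
  if 3 ≤ q ∧ a + 2 ≤ m ∧ (m < a + q ∨ (4 ≤ q ∧ k < c + q - 1 + q * (q - 1) / 2)) then
    q * (q + 1) / 2 else 0

theorem errA_le {K k m V : ℕ} (h : ds V ≤ m) :
    runSum K V (errA k) ≤ runSum K V (errT k m) := by
  refine runSum_mono fun c q hr => ?_
  unfold errA errT
  by_cases h1 : 4 ≤ q ∧ k < c + q - 1 + q * (q - 1) / 2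
  · have h2 := ds_div_add2 hr.2.1
    rw [if_pos h1, if_pos ⟨by omega, by omega, Or.inr h1⟩]
  · rw [if_neg h1]
    exact Nat.zero_le _

theorem mul_runcost {h q : ℕ} (hq : q ≤ h + 1) : h * q ≤ runcost h q + q * (q + 1) / 2 := by
  have h1 : ∀ q, q ≤ h + 1 → 2 * (h * q) ≤ 2 * runcost h q + q * (q - 1) := by
    intro q
    induction q with
    | zero => intro _; simp
    | succ q ih =>
      intro hq
      have h1 := ih (by omega)
      have h2 : runcost h (q + 1) = runcost h q + (h - q) := by
        unfold runcost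
        rw [Finset.sum_range_succ]
      rw [h2]
      rcases q with _ | q
      · simp
      · have e1 : q + 1 + 1 - 1 = q + 1 := by omega
        have e2 : q + 1 - 1 = q := by omega
        rw [e1]
        rw [e2] at h1
        obtain ⟨d, rfl⟩ : ∃ d, h = q + 1 + d := ⟨h - (q + 1), by omega⟩
        have e3 : q + 1 + d - (q + 1) = d := by omega
        rw [e3]
        nlinarith
  have h2 := h1 q hq
  have h3 : q * (q - 1) ≤ 2 * (q * (q + 1) / 2) := by
    have h4 : 2 * (q * (q + 1) / 2) = q * (q + 1) :=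
      Nat.mul_div_cancel' (Nat.even_mul_succ_self q).two_dvd
    rw [h4]
    exact Nat.mul_le_mul_left _ (by omega)
  omega

end Pool.Agent.GR72
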