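/-
GR72/CritErr: the necessary condition with error terms for long runs near the top and for the run
that is cut (complete).
-/
import Pool.Agent.GR72.RunErr
import Pool.Agent.GR72.CrudeNec

namespace Pool.Agent.GR72

open Module

private theorem inf_dim3 {W : Type} [AddCommGroup W] [Module (ZMod 2) W] [Finite W]
    (P1 P2 : Submodule (ZMod 2) W) :
    finrank (ZMod 2) P1 + finrank (ZMod 2) P2 ≤
      finrank (ZMod 2) W + finrank (ZMod 2) (P1 ⊓ P2 : Submodule (ZMod 2) W) := by
  have h1 := Submodule.finrank_sup_add_finrank_inf_eq P1 P2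
  have h2 := Submodule.finrank_le (P1 ⊔ P2)
  omega

theorem low_err {W : Type} [AddCommGroup W] [Module (ZMod 2) W] [Finite W] {v : W → ℤ}
    {q c a : ℕ} (hq : 1 ≤ q) (hv : Gr v (2 ^ c * (2 ^ q - 1)))
    (hc : c + q ≤ finrank (ZMod 2) W) :
    ∃ P : Submodule (ZMod 2) W, (∀ x ∈ P, v x = q) ∧
      finrank (ZMod 2) W ≤ finrank (ZMod 2) P + runcost (finrank (ZMod 2) W - c) q
        + extra (finrank (ZMod 2) W) c q + errA (finrank (ZMod 2) W) a c q := by
  by_cases hb : 4 ≤ q ∧ finrank (ZMod 2) W < c + q - 1 + q * (q - 1) / 2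
  · have hv0 : v 0 = q := by rw [hv.zero, ds_low]
    obtain ⟨P, hP⟩ := perSub hv.psd
    obtain ⟨U, hU⟩ := Submodule.exists_isCompl P
    have hdimU := Submodule.finrank_add_eq_of_isCompl hU
    have hUlt : ∀ x ∈ U, x ≠ 0 → v x < q := by
      intro x hx hx0
      have h1 : x ∉ P := by
        intro h2
        apply hx0
        have h3 : x ∈ P ⊓ U := ⟨h2, hx⟩
        rwa [hU.inf_eq_bot, Submodule.mem_bot] at h3
      rw [hP, hv0] at h1
      have h2 := (abs_le.1 (psd_abs_le hv.psd x)).2
      rw [hv0] at h2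
      omega
    have hw := top_run_ward hv (by omega) le_rfl U hUlt
    rw [Nat.choose_self, padicValNat_one_right, add_zero] at hw
    have h1 := mul_runcost (h := finrank (ZMod 2) W - c) (q := q) (by omega)
    refine ⟨P, fun x hx => ?_, ?_⟩
    · rw [(hP x).1 hx, hv0]
    · have h2 : errA (finrank (ZMod 2) W) a c q = q * (q + 1) / 2 := by
        unfold errA
        rw [if_pos hb]
      rw [h2]
      omega
  · obtain ⟨P, hP, h1⟩ := full_two hq hv hc (fun h4 => by
      by_contra hcon
      exact hb ⟨h4, by omega⟩)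
    exact ⟨P, hP, by omega⟩

theorem full_err {W : Type} [AddCommGroup W] [Module (ZMod 2) W] [Finite W] {v : W → ℤ} {V : ℕ}
    (h : Gr v V) (hV : V < 2 ^ finrank (ZMod 2) W) :
    ∃ P : Submodule (ZMod 2) W, (∀ x ∈ P, v x = ds V) ∧
      finrank (ZMod 2) W ≤ finrank (ZMod 2) P + cost (finrank (ZMod 2) W) V
        + (tr (finrank (ZMod 2) W) V - 1)
        + runSum (finrank (ZMod 2) W + 1) V (errA (finrank (ZMod 2) W)) := by
  induction V using Nat.strong_induction_on generalizing v with
  | _ V ih =>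
    by_cases hV0 : V = 0
    · subst hV0
      have h0 : v 0 = 0 := by rw [h.zero, ds_zero]; rfl
      refine ⟨⊤, fun x _ => ?_, ?_⟩
      · rw [psd_eq_zero h.psd h0 x, ds_zero]; rfl
      · rw [finrank_top]
        omega
    · obtain ⟨q, c, t, hq, rfl⟩ := exists_run_gen hV0
      have hlow : 0 < 2 ^ c * (2 ^ q - 1) := by
        apply Nat.mul_pos (by positivity)
        have h5 : 2 ^ 1 ≤ 2 ^ q := Nat.pow_le_pow_right (by norm_num) hq
        omega
      have hlt : 2 ^ (c + q + 1) * t < 2 ^ c * (2 ^ (q + 1) * t + (2 ^ q - 1)) := by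
        rw [V_eq]
        omega
      have hcq := lt_of_run hq hV
      obtain ⟨v2, g2, g1, -⟩ := run_split (run_all q _ W rfl) h
      obtain ⟨P1, hP1, hd1⟩ := ih _ hlt g1 (hlt.trans hV)
      obtain ⟨P2, hP2, hd2⟩ := low_err (a := ds t) hq g2 hcq
      refine ⟨P1 ⊓ P2, fun x hx => ?_, ?_⟩
      · have h5 := hP1 x hx.1
        have h6 := hP2 x hx.2
        rw [ds_high] at h5
        rw [ds_V]
        push_cast
        have h8 : v x - v2 x = (ds t : ℤ) := h5
        linarith
      · have h5 := inf_dim3 P1 P2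
        rw [cost_run, runSum_step hq (by omega)]
        by_cases ht : t = 0
        · subst ht
          have h6 := tr_low (k := finrank (ZMod 2) W) (q := q) (c := c)
          have h7 : tr (finrank (ZMod 2) W) (2 ^ (c + q + 1) * 0) = 0 := by
            unfold tr
            rw [Nat.findGreatest_eq_zero_iff]
            intro n hn _ hall
            have := hall 0 hn
            simp at this
          omega
        · have h6 := k_ge (by omega) hV
          have h7 := tr_high (t := t) (k := finrank (ZMod 2) W) (q := q) (c := c) (by omega)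
          have h8 : extra (finrank (ZMod 2) W) c q = 0 := by
            unfold extra
            rw [if_neg (by omega)]
          omega

theorem tr_le_ds {k V : ℕ} (_hV : V < 2 ^ k) : tr k V ≤ ds V := by
  have h1 : ∀ i < tr k V, V.testBit (k - 1 - i) = true :=
    Nat.findGreatest_spec (P := fun q => ∀ i < q, V.testBit (k - 1 - i) = true)
      (m := 0) (n := k) (Nat.zero_le _) (fun i hi => absurd hi (Nat.not_lt_zero i))
  have h2 : tr k V ≤ k := Nat.findGreatest_le k
  have h3 := ds_div_add2 (V := V) (c := k - tr k V) (q := tr k V) (by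
    intro i hi
    have h4 := h1 (tr k V - 1 - i) (by omega)
    have h5 : k - 1 - (tr k V - 1 - i) = k - tr k V + i := by omega
    rwa [h5] at h4)
  omega

/-- The bonus in terms of digits. -/
def bonusV (k m V : ℕ) : ℕ := if tr k V ≤ m then tr k V - 1 else 0

theorem bonusV_ds {k m V : ℕ} (hV : V < 2 ^ k) (h : ds V ≤ m) : bonusV k m V = tr k V - 1 := by
  unfold bonusV
  rw [if_pos ((tr_le_ds hV).trans h)]

private theorem cut_cost {h q r : ℕ} (hr : r ≤ q) (hq : q ≤ h) :
    h * r ≤ ∑ i ∈ Finset.range r, (h - (q - 1 - i)) + q * (q - 1) / 2 := by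
  have h1 : ∀ r, r ≤ q → 2 * (h * r) + r * r ≤
      2 * (∑ i ∈ Finset.range r, (h - (q - 1 - i))) + (2 * q - 1) * r := by
    intro r
    induction r with
    | zero => intro _; simp
    | succ r ih =>
      intro hr
      have h1 := ih (by omega)
      rw [Finset.sum_range_succ]
      obtain ⟨e, rfl⟩ : ∃ e, q = r + 1 + e := ⟨q - (r + 1), by omega⟩
      obtain ⟨d, rfl⟩ : ∃ d, h = r + 1 + e + d := ⟨h - (r + 1 + e), by omega⟩
      have e1 : r + 1 + e - 1 - r = e := by omega
      have e2 : r + 1 + e + d - e = r + 1 + d := by omega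
      have e3 : 2 * (r + 1 + e) - 1 = 2 * r + 2 * e + 1 := by omega
      rw [e1, e2, e3]
      rw [e3] at h1
      nlinarith
  have h2 := h1 r hr
  have h3 : 2 * (q * (q - 1) / 2) = q * (q - 1) := by
    obtain ⟨p, rfl | rfl⟩ : ∃ p, q = 0 ∨ q = p + 1 := ⟨q - 1, by omega⟩
    · rfl
    · rw [Nat.add_sub_cancel, Nat.mul_comm (p + 1) p]
      exact Nat.mul_div_cancel' (Nat.even_mul_succ_self p).two_dvd
  have h4 : (2 * q - 1) * r ≤ q * (q - 1) + r * r := by
    obtain ⟨e, rfl⟩ : ∃ e, q = r + e := ⟨q - r, by omega⟩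
    rcases Nat.eq_zero_or_pos (r + e) with h5 | h5
    · have : r = 0 := by omega
      subst this
      simp
    · obtain ⟨p, hp⟩ : ∃ p, r + e = p + 1 := ⟨r + e - 1, by omega⟩
      have e1 : 2 * (r + e) - 1 = 2 * p + 1 := by omega
      have e2 : r + e - 1 = p := by omega
      rw [e1, e2, hp]
      rcases Nat.lt_or_ge p r with h6 | h6
      · have h7 : r = p + 1 := by omega
        subst h7
        nlinarith
      · obtain ⟨f, rfl⟩ : ∃ f, p = r + f := ⟨p - r, by omega⟩
        nlinarith
  omega

theorem crit_err {W : Type} [AddCommGroup W] [Module (ZMod 2) W] [Finite W] {v : W → ℤ}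
    {V s : ℕ} (h : Gr v V) (hV : V < 2 ^ finrank (ZMod 2) W)
    (hs : 1 ≤ s) (hds : s + 1 ≤ ds V) (hb : ∀ x, x ≠ 0 → v x ≤ s) :
    finrank (ZMod 2) W ≤ topcost (finrank (ZMod 2) W) V (s + 1)
      + bonusV (finrank (ZMod 2) W) (s + 1) V
      + runSum (finrank (ZMod 2) W + 1) V (errT (finrank (ZMod 2) W) (s + 1)) := by
  classical
  induction V using Nat.strong_induction_on generalizing v with
  | _ V ih =>
  have hV0 : V ≠ 0 := by
    rintro rfl
    have : ds 0 = 0 := by simp [ds]
    omega
  obtain ⟨q, c, t, hq1, rfl⟩ := exists_run_gen hV0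
  obtain ⟨v2, hv2, hv1, -⟩ := run_split (run_all q _ W rfl) h
  have hdsV := ds_V q c t
  have hdsV1 := ds_high q c t
  have hVeq := V_eq q c t
  have h2q : 2 ^ 1 ≤ 2 ^ q := Nat.pow_le_pow_right (by norm_num) hq1
  have hlow : 2 ^ (c + q - 1) ≤ 2 ^ c * (2 ^ q - 1) := by
    obtain ⟨r, rfl⟩ : ∃ r, q = r + 1 := ⟨q - 1, by omega⟩
    have e1 : c + (r + 1) - 1 = c + r := by omega
    rw [e1, pow_add]
    refine Nat.mul_le_mul_left _ ?_
    rw [pow_succ]
    have : 1 ≤ 2 ^ r := Nat.one_le_two_pow
    omega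
  have hlow1 : 1 ≤ 2 ^ c * (2 ^ q - 1) := le_trans Nat.one_le_two_pow hlow
  have hV1lt : 2 ^ (c + q + 1) * t < 2 ^ c * (2 ^ (q + 1) * t + (2 ^ q - 1)) := by
    rw [hVeq]
    omega
  have hcq := lt_of_run hq1 hV
  have hstep := runSum_step (K := finrank (ZMod 2) W + 1) (t := t) hq1 (by omega : c + q < _)
    (errT (finrank (ZMod 2) W) (s + 1))
  by_cases hs1 : s + 1 ≤ ds t
  · -- the high part
    have h1 := ih _ hV1lt hv1 (hV1lt.trans hV) (by rw [hdsV1]; exact hs1)
      (fun x hx => by
        have h2 := hb x hx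
        have h3 := gr_nonneg hv2 x
        show v x - v2 x ≤ s
        linarith)
    have ht : t ≠ 0 := by
      rintro rfl
      rw [ds_zero] at hs1
      omega
    have h6 := k_ge (by omega) hV
    have h7 := tr_high (t := t) (k := finrank (ZMod 2) W) (q := q) (c := c) (by omega)
    have h8 : bonusV (finrank (ZMod 2) W) (s + 1) (2 ^ c * (2 ^ (q + 1) * t + (2 ^ q - 1))) =
        bonusV (finrank (ZMod 2) W) (s + 1) (2 ^ (c + q + 1) * t) := by
      unfold bonusV
      rw [h7]
    rw [topcost_run hs1, h8, hstep]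
    omega
  -- the high part is complete
  have hfull := full_err hv1 (hV1lt.trans hV)
  obtain ⟨P1, hP1, hk⟩ := hfull
  have herr1 := errA_le (K := finrank (ZMod 2) W + 1) (k := finrank (ZMod 2) W)
    (V := 2 ^ (c + q + 1) * t) (m := s + 1) (by rw [hdsV1]; omega)
  by_cases hs2 : s = ds t
  · -- the cut after the first one of the run
    have hz : ∀ x ∈ P1, x ≠ 0 → v2 x = 0 := by
      intro x hx hx0
      have h1 : v x - v2 x = ds (2 ^ (c + q + 1) * t) := hP1 x hx
      rw [hdsV1, ← hs2] at h1
      have h2 := hb x hx0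
      have h3 := gr_nonneg hv2 x
      linarith
    have hle := Submodule.finrank_le P1
    have h1 := gr_vanish hv2 P1 hz (j := finrank (ZMod 2) W - finrank (ZMod 2) P1) (by omega)
    have h2 : c + q - 1 < finrank (ZMod 2) W - finrank (ZMod 2) P1 + 1 :=
      (Nat.pow_lt_pow_iff_right (by norm_num : 1 < 2)).1 (lt_of_le_of_lt hlow h1)
    have h4 := topcost_cut_gen hq1 (finrank (ZMod 2) W) c t
    rw [← hs2] at h4
    have ht : t ≠ 0 := by
      rintro rfl
      rw [ds_zero] at hs2
      omega
    have h6 := k_ge (by omega) hV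
    have h7 := tr_high (t := t) (k := finrank (ZMod 2) W) (q := q) (c := c) (by omega)
    have h8 : bonusV (finrank (ZMod 2) W) (s + 1) (2 ^ c * (2 ^ (q + 1) * t + (2 ^ q - 1))) =
        tr (finrank (ZMod 2) W) (2 ^ (c + q + 1) * t) - 1 := by
      have h9 := tr_le_ds (hV1lt.trans hV)
      rw [hdsV1] at h9
      unfold bonusV
      rw [h7, if_pos (by omega)]
    rw [h4, h8, hstep]
    omega
  by_cases hs3 : ds t + q ≤ s + 1
  · -- the whole run
    have hsV : s + 1 = ds (2 ^ c * (2 ^ (q + 1) * t + (2 ^ q - 1))) := by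
      rw [hdsV] at hds ⊢
      omega
    obtain ⟨P, hP, hk⟩ := full_err h hV
    have herr := errA_le (K := finrank (ZMod 2) W + 1) (k := finrank (ZMod 2) W)
      (V := 2 ^ c * (2 ^ (q + 1) * t + (2 ^ q - 1))) (m := s + 1) (by omega)
    have hbot : P = ⊥ := by
      rw [Submodule.eq_bot_iff]
      intro x hx
      by_contra hx0
      have h1 := hP x hx
      have h2 := hb x hx0
      rw [h1, ← hsV] at h2
      push_cast at h2
      linarith
    rw [hbot, finrank_bot, zero_add] at hk
    have hbon := bonusV_ds (m := s + 1) hV (by omega)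
    have htc : topcost (finrank (ZMod 2) W) (2 ^ c * (2 ^ (q + 1) * t + (2 ^ q - 1))) (s + 1) =
        cost (finrank (ZMod 2) W) (2 ^ c * (2 ^ (q + 1) * t + (2 ^ q - 1))) := by
      rw [hsV, topcost_all]
    rw [htc, hbon]
    omega
  · -- the run is cut
    obtain ⟨r, hr⟩ : ∃ r, s + 1 = ds t + r := ⟨s + 1 - ds t, by omega⟩
    have hU : ∀ x ∈ P1, x ≠ 0 → v2 x < r := by
      intro x hx hx0
      have h1 : v x - v2 x = ds (2 ^ (c + q + 1) * t) := hP1 x hx
      rw [hdsV1] at h1
      have h2 := hb x hx0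
      omega
    have hw := top_run_ward hv2 (by omega) (by omega : r ≤ q) P1 hU
    have hpad : padicValNat 2 (q.choose r) ≤ q := by
      have hpos : 0 < q.choose r := Nat.choose_pos (by omega)
      have h1 : 2 ^ padicValNat 2 (q.choose r) ≤ q.choose r :=
        Nat.le_of_dvd hpos pow_padicValNat_dvd
      have h2 : q.choose r ≤ 2 ^ q := Nat.choose_le_two_pow q r
      exact (Nat.pow_le_pow_iff_right (by norm_num)).1 (h1.trans h2)
    have hsum := cut_cost (h := finrank (ZMod 2) W - c) (q := q) (r := r) (by omega) (by omega)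
    have hsum2 : ∑ i ∈ Finset.range r, (finrank (ZMod 2) W - c - (q - 1 - i)) =
        ∑ i ∈ Finset.range r, (finrank (ZMod 2) W - (c + q - 1 - i)) := by
      refine Finset.sum_congr rfl fun i hi => ?_
      rw [Finset.mem_range] at hi
      omega
    have hqq : q * (q - 1) / 2 + q ≤ q * (q + 1) / 2 := by
      have h1 : q * (q + 1) = q * (q - 1) + q * 2 := by
        obtain ⟨p, rfl⟩ : ∃ p, q = p + 1 := ⟨q - 1, by omega⟩
        rw [Nat.add_sub_cancel]
        ring
      rw [h1, Nat.add_mul_div_right _ _ (by norm_num)]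
    have herrT : errT (finrank (ZMod 2) W) (s + 1) (ds t) c q = q * (q + 1) / 2 := by
      unfold errT
      rw [if_pos ⟨by omega, by omega, Or.inl (by omega)⟩]
    have htc := topcost_cut_r (by omega : r ≤ q) (finrank (ZMod 2) W) c t
    rw [← hr] at htc
    have hbon : tr (finrank (ZMod 2) W) (2 ^ (c + q + 1) * t) - 1 ≤
        bonusV (finrank (ZMod 2) W) (s + 1) (2 ^ c * (2 ^ (q + 1) * t + (2 ^ q - 1))) := by
      by_cases ht : t = 0
      · subst ht
        have h7 : tr (finrank (ZMod 2) W) (2 ^ (c + q + 1) * 0) = 0 := by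
          unfold tr
          rw [Nat.findGreatest_eq_zero_iff]
          intro n hn _ hall
          have := hall 0 hn
          simp at this
        omega
      · have h6 := k_ge (by omega) hV
        have h7 := tr_high (t := t) (k := finrank (ZMod 2) W) (q := q) (c := c) (by omega)
        have h9 := tr_le_ds (hV1lt.trans hV)
        rw [hdsV1] at h9
        unfold bonusV
        rw [h7, if_pos (by omega)]
    rw [htc, hstep, herrT]
    rw [hsum2] at hsum
    omega

end Pool.Agent.GR72
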