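/-
GR72/Crit3Final: the criterion with an error term for all pairs (complete).
-/
import Pool.Agent.GR72.BadRuns
import Pool.Agent.GR72.CritErr
import Pool.Agent.GR72.Crit2Final

namespace Pool.Agent.GR72

open Module

theorem err_conv {k s D : ℕ} (hD : 2 * D < 2 ^ k) :
    runSum (k + 1) (2 * D) (errT k (s + 1)) ≤ runErr k s D := by
  classical
  have hmem : ∀ u, u ∈ exps D ↔ (2 * D).testBit u = true := by
    intro u
    rw [exps_eq, List.mem_reverse, Nat.mem_bitIndices]
  unfold runSum runErr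
  have h1 : ∑ p ∈ runs (k + 1) (2 * D), errT k (s + 1) (ds (2 * D / 2 ^ (p.1 + p.2))) p.1 p.2 =
      ∑ p ∈ (runs (k + 1) (2 * D)).filter (fun p => 3 ≤ p.2 ∧
        ds (2 * D / 2 ^ (p.1 + p.2)) + 2 ≤ s + 1 ∧ (s + 1 < ds (2 * D / 2 ^ (p.1 + p.2)) + p.2 ∨
          (4 ≤ p.2 ∧ k < p.1 + p.2 - 1 + p.2 * (p.2 - 1) / 2))), p.2 * (p.2 + 1) / 2 := by
    rw [Finset.sum_filter]
    refine Finset.sum_congr rfl fun p _ => ?_
    unfold errT
    rfl
  rw [h1]
  have hinj : Set.InjOn (fun p : ℕ × ℕ => (p.1 + p.2 - 1, p.2))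
      ((runs (k + 1) (2 * D)).filter (fun p => 3 ≤ p.2 ∧
        ds (2 * D / 2 ^ (p.1 + p.2)) + 2 ≤ s + 1 ∧ (s + 1 < ds (2 * D / 2 ^ (p.1 + p.2)) + p.2 ∨
          (4 ≤ p.2 ∧ k < p.1 + p.2 - 1 + p.2 * (p.2 - 1) / 2)))) := by
    intro a ha b hb hab
    have ha' := Finset.mem_filter.1 (Finset.mem_coe.1 ha)
    have hb' := Finset.mem_filter.1 (Finset.mem_coe.1 hb)
    simp only [Prod.mk.injEq] at hab
    have e1 := ha'.2.1
    have e2 := hb'.2.1
    apply Prod.ext
    · omega
    · exact hab.2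
  have h2 := Finset.sum_image (f := fun p : ℕ × ℕ => p.2 * (p.2 + 1) / 2) hinj
  simp only at h2
  rw [← h2]
  apply Finset.sum_le_sum_of_subset
  intro p hp
  obtain ⟨r, hr, rfl⟩ := Finset.mem_image.1 hp
  obtain ⟨hr1, hr2, hr3, hr4⟩ := Finset.mem_filter.1 hr
  obtain ⟨-, hq, hrun, htop, hbot⟩ := mem_runs.1 hr1
  obtain ⟨c, q⟩ := r
  simp only at hr2 hr3 hr4 hq hrun htop hbot ⊢
  have hc : c ≠ 0 := by
    rintro rfl
    have h1 := hrun 0 (by omega)
    simp [Nat.testBit_zero] at h1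
  have hck : c + (q - 1) < k := by
    by_contra hcon
    have h3 := hrun (q - 1) (by omega)
    rw [Nat.testBit_lt_two_pow (hD.trans_le (Nat.pow_le_pow_right (by norm_num) (by omega)))] at h3
    exact Bool.false_ne_true h3
  have hlen : ((exps D).filter (c + q - 1 < ·)).length = ds (2 * D / 2 ^ (c + q)) := by
    rw [exps_eq, List.filter_reverse, List.length_reverse, count_above]
    have : c + q - 1 + 1 = c + q := by omega
    rw [this]
  unfold badRuns
  rw [Finset.mem_filter, Finset.mem_product, Finset.mem_range, Finset.mem_range]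
  simp only
  rw [hlen]
  refine ⟨⟨by omega, by omega⟩, hr2, ?_, ?_, ?_, hr3, hr4⟩
  · intro j hj
    rw [hmem]
    have h3 := hrun (q - 1 - j) (by omega)
    have h4 : c + (q - 1 - j) = c + q - 1 - j := by omega
    rwa [h4] at h3
  · rw [hmem]
    have h4 : c + q - 1 + 1 = c + q := by omega
    rw [h4, htop]
    exact Bool.false_ne_true
  · rw [hmem]
    have h4 : c + q - 1 - q = c - 1 := by omega
    rw [h4]
    rcases hbot with h5 | h5
    · exact absurd h5 hc
    · rw [h5]
      exact Bool.false_ne_true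

theorem griesmer_bounds {k d : ℕ} (hk : 1 ≤ k) (hd : 1 ≤ d) {s D : ℕ}
    (hs : s = d ⌈/⌉ 2 ^ (k - 1)) (hD : D = s * 2 ^ (k - 1) - d) :
    (((exps D).take (s + 1)).sum ≤ s * k + bonus k s D → Attained k d) ∧
      (Attained k d → ((exps D).take (s + 1)).sum ≤ s * k + bonus k s D + runErr k s D) := by
  refine ⟨(griesmer_runs hk hd hs hD).1, fun hA => ?_⟩
  obtain ⟨hs1, hsd, hDlt⟩ := sD (k := k) hd
  rw [← hs] at hs1 hsd hDlt
  rw [← hD] at hsd hDlt
  have hV : 2 * D < 2 ^ k := by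
    obtain ⟨m, rfl⟩ : ∃ m, k = m + 1 := ⟨k - 1, by omega⟩
    simp only [Nat.add_sub_cancel] at hDlt
    rw [pow_succ]; omega
  have hbon : bonus k s D = bonusV k (s + 1) (2 * D) := by
    unfold bonus bonusV
    rw [topRun_eq hV]
  have herr := err_conv (s := s) hV
  rw [hbon, exps_eq]
  obtain ⟨C, hC⟩ := (attained_iff hk hd).1 hA
  obtain ⟨v, hv, hb⟩ := (code_to hk hsd hDlt hC).2 rfl
  by_cases hds : s + 1 ≤ ds (2 * D)
  · haveI : Finite (Dual (ZMod 2) C) := inferInstance
    have hfr : finrank (ZMod 2) (Dual (ZMod 2) C) = k := by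
      rw [finrank_dual_eq]; exact hC.1
    have h4 := crit_err hv (by rw [hfr]; exact hV) hs1 hds hb
    rw [hfr] at h4
    have := topcost_add (k := k) hV hds
    rw [add_mul, one_mul] at this
    omega
  · have h1 := topcost_add (k := k) hV (le_refl (ds (2 * D)))
    have h2 : (2 * D).bitIndices.reverse.take (s + 1) = (2 * D).bitIndices.reverse.take
        (ds (2 * D)) := by
      have e1 : (2 * D).bitIndices.reverse.length = ds (2 * D) := by simp [ds]
      rw [List.take_of_length_le (by omega), List.take_of_length_le (by omega)]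
    rw [h2]
    have h4 : ds (2 * D) * k ≤ s * k := Nat.mul_le_mul_right _ (by omega)
    omega

end Pool.Agent.GR72
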