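/-
GR72/CritSuff: the exceptional construction, general form (copy of the proof of suff_two_gen in
GR72/SuffGen: there `R` and `hR` come from top_form_gen, here they are given; the private lemma
`sum_ind_apply_sg` must be copied under a new name).
-/
import Pool.Agent.GR72.SuffGen

namespace Pool.Agent.GR72

open Module

open Classical in
private theorem sum_ind_apply_cs {W : Type} [AddCommGroup W] [Module (ZMod 2) W]
    (P : ℕ → Submodule (ZMod 2) W) (S : Finset ℕ) (x : W) :
    ∑ j ∈ S, ind (P j) x = ((S.filter (fun j => x ∈ P j)).card : ℤ) := by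
  unfold ind
  rw [Finset.sum_boole]

theorem suff_two_form {k R s : ℕ} (hk : 4 ≤ k) (hR : R < 2 ^ (k - 3)) (hs1 : 1 ≤ s)
    (hs : s + 1 ≤ ds (3 * 2 ^ (k - 2) + R))
    (h : k ≤ topcost k (3 * 2 ^ (k - 2) + R) (s + 1) + 1) :
    ∃ v : PW k → ℤ, Gr v (3 * 2 ^ (k - 2) + R) ∧ ∀ x, x ≠ 0 → v x ≤ s := by
  classical
  obtain ⟨u, hu, hu2, hu1⟩ := eps_core hk
  obtain ⟨P, hP, hgp, hgp4⟩ := general_position k
  have hR2 : R < 2 ^ (k - 2) :=
    hR.trans (Nat.pow_lt_pow_right (by norm_num) (by omega))
  have hb4 : ∀ j ∈ R.bitIndices, j + 4 ≤ k := by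
    intro j hj
    have := mem_bits_lt hR hj
    omega
  have hgr := gr_sum P (V := R) (fun j hj => hP j (by have := hb4 j hj; omega))
  have hds : ds (3 * 2 ^ (k - 2) + R) = ds (3 * 2 ^ (k - 2)) + ds R := by
    rw [Nat.mul_comm, ds_two_pow_mul_add _ _ _ hR2, ds_two_pow_mul]
  refine ⟨fun x => u x + ∑ j ∈ R.bitIndices.toFinset, ind (P j) x,
    ⟨psd_add hu.psd hgr.psd, ?_, ?_⟩, ?_⟩
  · rw [tot_add u (fun x => ∑ j ∈ R.bitIndices.toFinset, ind (P j) x), hu.tot, hgr.tot]
    push_cast
    ring
  · have h5 := hu.zero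
    have h6 : ∑ j ∈ R.bitIndices.toFinset, ind (P j) 0 = (ds R : ℤ) := hgr.zero
    show u 0 + ∑ j ∈ R.bitIndices.toFinset, ind (P j) 0 = _
    rw [h5, h6, hds]
    push_cast
    ring
  · intro x hx
    show u x + ∑ j ∈ R.bitIndices.toFinset, ind (P j) x ≤ s
    rw [sum_ind_apply_cs]
    by_contra hc
    push Not at hc
    have htop : topcost k (3 * 2 ^ (k - 2) + R) (s + 1) = 3 + topcost k R (s - 1) := by
      have e : s + 1 = (s - 1) + 2 := by omega
      rw [e]
      exact topcost_two (by omega) hR2
    rw [htop] at h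
    by_cases hX : ((Polynomial.X ^ 4 : Polynomial (ZMod 2)) ∣ (x : Polynomial (ZMod 2)))
    · have h5 := hu2 x
      have hc' : s - 1 ≤ (R.bitIndices.toFinset.filter (fun j => x ∈ P j)).card := by
        omega
      obtain ⟨I, hI, hcard⟩ := Finset.exists_subset_card_eq hc'
      have hIV : I ⊆ R.bitIndices.toFinset := hI.trans (Finset.filter_subset _ _)
      have h6 := hgp4 I x (fun j hj => hb4 j (List.mem_toFinset.1 (hIV hj))) hx hX
        (fun j hj => (Finset.mem_filter.1 (hI hj)).2)
      have h7 := topcost_le (k := k) I hIV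
      rw [hcard] at h7
      omega
    · have h5 := hu1 x hX
      have hc' : s ≤ (R.bitIndices.toFinset.filter (fun j => x ∈ P j)).card := by
        omega
      have hle : (R.bitIndices.toFinset.filter (fun j => x ∈ P j)).card ≤ ds R := by
        rw [← card_bits]
        exact Finset.card_le_card (Finset.filter_subset _ _)
      obtain ⟨I, hI, hcard⟩ := Finset.exists_subset_card_eq hc'
      have hIV : I ⊆ R.bitIndices.toFinset := hI.trans (Finset.filter_subset _ _)
      have h6 := hgp I x (fun j hj => by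
          have := hb4 j (List.mem_toFinset.1 (hIV hj)); omega) hx
        (fun j hj => (Finset.mem_filter.1 (hI hj)).2)
      have h7 := topcost_le (k := k) I hIV
      have h8 := topcost_succ (k := k) (V := R) (m := s - 1) (B := 4) (by omega) hb4
      have e : s - 1 + 1 = s := by omega
      rw [hcard] at h7
      rw [e] at h8
      omega

end Pool.Agent.GR72
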