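/-
GR72/DADefs: the cost of the `m` highest ones as a sum over all positions (complete).
-/
import Pool.Agent.GR72.CostDefs

namespace Pool.Agent.GR72

/-- `∑_{1 ≤ i ≤ n} (m - number of ones of D at positions ≥ i)` (natural subtraction). -/
def gsum (n m D : ℕ) : ℕ := ∑ i ∈ Finset.Icc 1 n, (m - ds (D / 2 ^ i))

end Pool.Agent.GR72
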