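/-
GR72/DACost: topcost as a sum over positions (needs DADefs, Top, Digits).
`topcost_gsum`: the `i`-th highest one of `2 D` is at `u_i`, `n + 1 - u_i` is the number of
`t ∈ {1, ..., n}` with less than `i` ones of `D` at positions `≥ t` (the `i`-th highest one of `D` is at
`u_i - 1`; less than `i` ones at positions `≥ t` iff `u_i - 1 < t`); sum over `i ≤ m`.
A proof by induction on `n` with the lowest digit: `D = 2 D' + b`, `D' < 2^(n-1)`.
`(2 D).bitIndices` is `b`-part `[1]` (if `b = 1`) followed by `(2 D').bitIndices.map (· + 1)`; the cost of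
`j + 1` for `k = n + 1` is the cost of `j` for `k = n`.  `gsum n m D = (m - ds D') + ∑_{2 ≤ i ≤ n}
(m - ds (D / 2^i))` and `D / 2^i = D' / 2^(i-1)`, so `gsum n m D = (m - ds D') + gsum (n-1) m D'`.
If `m ≤ ds D'` use the induction hypothesis.  If `m = ds D' + 1` (`b = 1`): `topcost = cost n (2 D') + n`
and `gsum (n-1) m D' = gsum (n-1) (ds D') D' + (n-1)` because `ds (D' / 2^i) ≤ ds D'` (gsum_succ).
-/
import Pool.Agent.GR72.DADefs
import Pool.Agent.GR72.Top
import Pool.Agent.GR72.Digits

namespace Pool.Agent.GR72

theorem ds_div_le (D i : ℕ) : ds (D / 2 ^ i) ≤ ds D := by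
  have h1 := ds_two_pow_mul_add i (D / 2 ^ i) (D % 2 ^ i) (Nat.mod_lt _ (by positivity))
  rw [Nat.div_add_mod] at h1
  omega

theorem ds_div_mono {D i j : ℕ} (h : i ≤ j) : ds (D / 2 ^ j) ≤ ds (D / 2 ^ i) := by
  obtain ⟨c, rfl⟩ := Nat.exists_eq_add_of_le h
  rw [pow_add, ← Nat.div_div_eq_div_mul]
  exact ds_div_le _ _

theorem gsum_succ (n D : ℕ) : gsum n (ds D + 1) D = gsum n (ds D) D + n := by
  unfold gsum
  have h1 : ∀ i ∈ Finset.Icc 1 n, ds D + 1 - ds (D / 2 ^ i) = (ds D - ds (D / 2 ^ i)) + 1 := by
    intro i _
    have := ds_div_le D i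
    omega
  rw [Finset.sum_congr rfl h1, Finset.sum_add_distrib]
  simp

private theorem gsum_step (n m D : ℕ) :
    gsum (n + 1) m D = (m - ds (D / 2)) + gsum n m (D / 2) := by
  have key : ∀ (N M E : ℕ), gsum N M E = ∑ i ∈ Finset.range N, (M - ds (E / 2 ^ (i + 1))) := by
    intro N M E
    unfold gsum
    have h1 : Finset.Icc 1 N = Finset.Ico 1 (N + 1) := by
      ext x
      simp only [Finset.mem_Icc, Finset.mem_Ico]
      omega
    rw [h1, Finset.sum_Ico_eq_sum_range, Nat.add_sub_cancel]
    exact Finset.sum_congr rfl fun i _ => by rw [Nat.add_comm 1 i]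
  rw [key, key, Finset.sum_range_succ', Nat.add_comm]
  have h2 : ∀ i, D / 2 ^ (i + 1 + 1) = D / 2 / 2 ^ (i + 1) := by
    intro i
    rw [pow_succ' 2 (i + 1), Nat.div_div_eq_div_mul]
  simp only [h2]
  simp

private theorem topcost_map (n m : ℕ) (T : List ℕ) :
    (((T.map (· + 1)).take m).map (fun j => n + 2 - j)).sum =
      ((T.take m).map (fun j => n + 1 - j)).sum := by
  rw [← List.map_take, List.map_map]
  congr 1
  apply List.map_congr_left
  intro x _
  simp only [Function.comp_apply]
  omega

theorem topcost_gsum {n m D : ℕ} (hD : D < 2 ^ n) (hm : m ≤ ds D) :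
    topcost (n + 1) (2 * D) m = gsum n m D := by
  induction n generalizing m D with
  | zero =>
    have h0 : D = 0 := by simpa using hD
    subst h0
    rw [ds_zero] at hm
    have : m = 0 := by omega
    subst this
    simp [topcost, gsum]
  | succ n ih =>
    rw [pow_succ] at hD
    rcases Nat.even_or_odd' D with ⟨D', rfl | rfl⟩
    · have hD' : D' < 2 ^ n := by omega
      rw [ds_two_mul] at hm
      have e1 : 2 * D' / 2 = D' := by omega
      rw [gsum_step, e1, Nat.sub_eq_zero_of_le hm, Nat.zero_add, ← ih hD' hm]
      unfold topcost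
      rw [Nat.bitIndices_two_mul (2 * D'), ← List.map_reverse]
      exact topcost_map n m _
    · have hD' : D' < 2 ^ n := by omega
      rw [ds_two_mul_add_one] at hm
      have e1 : (2 * D' + 1) / 2 = D' := by omega
      have e2 : (2 * (2 * D' + 1)).bitIndices.reverse =
          ((2 * D').bitIndices.reverse.map (· + 1)) ++ [1] := by
        rw [Nat.bitIndices_two_mul, Nat.bitIndices_two_mul_add_one, List.map_cons,
          List.reverse_cons, ← Nat.bitIndices_two_mul, List.map_reverse]
      have hlen : (((2 * D').bitIndices.reverse).map (· + 1)).length = ds D' := by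
        rw [List.length_map, List.length_reverse]
        exact ds_two_mul D'
      rw [gsum_step, e1]
      by_cases h : m ≤ ds D'
      · rw [Nat.sub_eq_zero_of_le h, Nat.zero_add, ← ih hD' h]
        unfold topcost
        rw [e2, List.take_append_of_le_length (by rw [hlen]; exact h)]
        exact topcost_map n m _
      · have hm' : m = ds D' + 1 := by omega
        subst hm'
        rw [gsum_succ, ← ih hD' le_rfl]
        unfold topcost
        have h3 : (((2 * D').bitIndices.reverse.map (· + 1)) ++ [1]).take (ds D' + 1) =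
            (((2 * D').bitIndices.reverse.map (· + 1)).take (ds D')) ++ [1] := by
          rw [List.take_of_length_le (by rw [List.length_append, hlen]; simp),
            List.take_of_length_le (by rw [hlen])]
        rw [e2, h3, List.map_append, List.sum_append, topcost_map]
        simp only [List.map_cons, List.map_nil, List.sum_cons, List.sum_nil]
        omega

end Pool.Agent.GR72
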