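/-
GR72/DALong: few numbers have long runs of ones (needs the definition NoRun of CrudeNec; Mathlib).
`norun_two_mul`: digits of `2 D`: `(2 D).testBit (c + i)`; if all digits `c, ..., c + L - 1` of `2 D` are
ones then `c ≥ 1` (`L ≥ 1`) and the digits `c - 1, ...` of `D` are ones.
`count_long`: `D < 2^n` with digits `c, ..., c + L - 1` all ones has `c + L ≤ n`; for fixed `c` the map
`D ↦ D - (2^L - 1) 2^c` ... or: `D` is determined by `D % 2^c` and `D / 2^(c+L)`, so there are
`2^(n-L)` such `D` (injection into `range (2^c) × range (2^(n-L-c))`); at most `n` values of `c`.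
So `card * 2^L ≤ n 2^n`.
-/
import Pool.Agent.GR72.CrudeNec

namespace Pool.Agent.GR72

theorem norun_two_mul {D L : ℕ} (hL : 1 ≤ L) (h : NoRun D L) : NoRun (2 * D) L := by
  intro c hc
  rcases c with _ | c
  · have h0 := hc 0 (by omega)
    simp [Nat.testBit_zero] at h0
  · apply h c
    intro i hi
    have h1 := hc i hi
    rw [show c + 1 + i = (c + i) + 1 by ring, Nat.testBit_succ] at h1
    rwa [Nat.mul_div_cancel_left _ (by norm_num : 0 < 2)] at h1

private theorem card_run {n L c : ℕ} (hL : 1 ≤ L) :
    ((Finset.range (2 ^ n)).filter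
      (fun D => ∀ i < L, D.testBit (c + i) = true)).card * 2 ^ L ≤ 2 ^ n := by
  classical
  by_cases hcn : c + L ≤ n
  · set F := (Finset.range (2 ^ n)).filter (fun D => ∀ i < L, D.testBit (c + i) = true) with hF
    have hcard : F.card ≤ (Finset.range (2 ^ c) ×ˢ Finset.range (2 ^ (n - L - c))).card := by
      apply Finset.card_le_card_of_injOn (fun D => (D % 2 ^ c, D / 2 ^ (c + L)))
      · intro D hD
        rw [Finset.mem_coe, hF, Finset.mem_filter, Finset.mem_range] at hD
        simp only [Finset.coe_product, Finset.coe_range, Set.mem_prod, Set.mem_Iio]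
        refine ⟨Nat.mod_lt _ (pow_pos (by norm_num) _), ?_⟩
        rw [Nat.div_lt_iff_lt_mul (pow_pos (by norm_num) _), ← pow_add]
        rw [show n - L - c + (c + L) = n by omega]
        exact hD.1
      · intro D hD E hE hDE
        rw [Finset.mem_coe, hF, Finset.mem_filter] at hD hE
        simp only [Prod.mk.injEq] at hDE
        apply Nat.eq_of_testBit_eq
        intro j
        by_cases hj : j < c
        · have h1 : (D % 2 ^ c).testBit j = (E % 2 ^ c).testBit j := by rw [hDE.1]
          simpa [Nat.testBit_mod_two_pow, hj] using h1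
        · by_cases hj2 : j < c + L
          · have h1 := hD.2 (j - c) (by omega)
            have h2 := hE.2 (j - c) (by omega)
            rw [show c + (j - c) = j by omega] at h1 h2
            rw [h1, h2]
          · have h1 : (D / 2 ^ (c + L)).testBit (j - (c + L))
                = (E / 2 ^ (c + L)).testBit (j - (c + L)) := by rw [hDE.2]
            rw [Nat.testBit_div_two_pow, Nat.testBit_div_two_pow,
              show j - (c + L) + (c + L) = j by omega] at h1
            exact h1
    rw [Finset.card_product, Finset.card_range, Finset.card_range, ← pow_add] at hcard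
    calc F.card * 2 ^ L ≤ 2 ^ (c + (n - L - c)) * 2 ^ L := Nat.mul_le_mul_right _ hcard
      _ = 2 ^ n := by rw [← pow_add]; congr 1; omega
  · have hemp : (Finset.range (2 ^ n)).filter
        (fun D => ∀ i < L, D.testBit (c + i) = true) = ∅ := by
      rw [Finset.filter_eq_empty_iff]
      intro D hD hall
      rw [Finset.mem_range] at hD
      have h1 := hall (L - 1) (by omega)
      have h2 : D.testBit (c + (L - 1)) = false := by
        apply Nat.testBit_lt_two_pow
        exact lt_of_lt_of_le hD (Nat.pow_le_pow_right (by norm_num) (by omega))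
      rw [h2] at h1
      exact Bool.noConfusion h1
    rw [hemp]
    simp

open Classical in
theorem count_long {n L : ℕ} (hL : 1 ≤ L) :
    ((Finset.range (2 ^ n)).filter (fun D => ¬ NoRun D L)).card * 2 ^ L ≤ n * 2 ^ n := by
  have hsub : (Finset.range (2 ^ n)).filter (fun D => ¬ NoRun D L) ⊆
      (Finset.range n).biUnion (fun c => (Finset.range (2 ^ n)).filter
        (fun D => ∀ i < L, D.testBit (c + i) = true)) := by
    intro D hD
    rw [Finset.mem_filter] at hD
    obtain ⟨hD1, hD2⟩ := hD
    rw [NoRun] at hD2
    push Not at hD2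
    obtain ⟨c, hc⟩ := hD2
    rw [Finset.mem_biUnion]
    refine ⟨c, ?_, ?_⟩
    · rw [Finset.mem_range] at hD1 ⊢
      by_contra hcn
      have h2 : D.testBit (c + 0) = false := by
        apply Nat.testBit_lt_two_pow
        exact lt_of_lt_of_le hD1 (Nat.pow_le_pow_right (by norm_num) (by omega))
      have h3 := hc 0 (by omega)
      rw [h2] at h3
      exact Bool.noConfusion h3
    · rw [Finset.mem_filter]
      exact ⟨hD1, hc⟩
  calc ((Finset.range (2 ^ n)).filter (fun D => ¬ NoRun D L)).card * 2 ^ L
      ≤ (∑ c ∈ Finset.range n, ((Finset.range (2 ^ n)).filter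
        (fun D => ∀ i < L, D.testBit (c + i) = true)).card) * 2 ^ L :=
        Nat.mul_le_mul_right _ ((Finset.card_le_card hsub).trans Finset.card_biUnion_le)
    _ = ∑ c ∈ Finset.range n, ((Finset.range (2 ^ n)).filter
        (fun D => ∀ i < L, D.testBit (c + i) = true)).card * 2 ^ L := by rw [Finset.sum_mul]
    _ ≤ ∑ _c ∈ Finset.range n, 2 ^ n := Finset.sum_le_sum (fun c _ => card_run hL)
    _ = n * 2 ^ n := by rw [Finset.sum_const, Finset.card_range, smul_eq_mul]

end Pool.Agent.GR72
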