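/-
GR72/DABad: where the Solomon-Stiffler condition does not decide (needs the stubs of CrudeNec,
DALong, DACost; Final and its imports; same pattern as GR72/CritFinal).
-/
import Pool.Agent.GR72.FinalGen
import Pool.Agent.GR72.CrudeNec
import Pool.Agent.GR72.DALong
import Pool.Agent.GR72.DACost

namespace Pool.Agent.GR72

open Module

/-- The Solomon-Stiffler condition. -/
def SSCond (k s D : ℕ) : Prop := ((exps D).take (s + 1)).sum ≤ s * k

theorem sD_of {k s D : ℕ} (hs : 1 ≤ s) (hD : D < 2 ^ (k - 1)) :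
    1 ≤ s * 2 ^ (k - 1) - D ∧ (s * 2 ^ (k - 1) - D) ⌈/⌉ 2 ^ (k - 1) = s ∧
      s * 2 ^ (k - 1) = (s * 2 ^ (k - 1) - D) + D := by
  obtain ⟨m, rfl⟩ : ∃ m, s = m + 1 := ⟨s - 1, by omega⟩
  generalize 2 ^ (k - 1) = K at hD
  have h1 : (m + 1) * K = m * K + K := by ring
  refine ⟨by omega, ?_, by omega⟩
  rw [Nat.ceilDiv_eq_add_pred_div, h1]
  have hK : 0 < K := by omega
  have h2 : m * K + K - D + K - 1 = (2 * K - D - 1) + K * m := by
    have : K * m = m * K := mul_comm _ _
    omega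
  rw [h2, Nat.add_mul_div_left _ _ hK]
  have h3 : (2 * K - D - 1) / K = 1 := by
    rw [Nat.div_eq_iff hK]
    omega
  omega

theorem two_lt {k D : ℕ} (hk : 1 ≤ k) (hD : D < 2 ^ (k - 1)) : 2 * D < 2 ^ k := by
  obtain ⟨m, rfl⟩ : ∃ m, k = m + 1 := ⟨k - 1, by omega⟩
  simp only [Nat.add_sub_cancel] at hD
  rw [pow_succ]; omega

theorem ds_two (D : ℕ) : ds (2 * D) = ds D := ds_two_mul D

theorem ss_iff {k s D : ℕ} (hk : 1 ≤ k) (hD : D < 2 ^ (k - 1)) (h : s + 1 ≤ ds D) :
    SSCond k s D ↔ k ≤ topcost k (2 * D) (s + 1) := by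
  have hV := two_lt hk hD
  have h' : s + 1 ≤ ds (2 * D) := by rwa [ds_two]
  have := topcost_add (k := k) hV h'
  unfold SSCond
  rw [exps_eq]
  rw [add_mul, one_mul] at this
  constructor <;> intro h <;> omega

theorem ss_small {k s D : ℕ} (hk : 1 ≤ k) (hD : D < 2 ^ (k - 1)) (h : ds D ≤ s) :
    SSCond k s D := by
  have hV := two_lt hk hD
  have h1 := topcost_add (k := k) hV (le_refl (ds (2 * D)))
  have h2 : (2 * D).bitIndices.reverse.take (s + 1) = (2 * D).bitIndices.reverse.take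
      (ds (2 * D)) := by
    have e1 : (2 * D).bitIndices.reverse.length = ds (2 * D) := by simp [ds]
    have e2 := ds_two D
    rw [List.take_of_length_le (by omega), List.take_of_length_le (by omega)]
  unfold SSCond
  rw [exps_eq, h2]
  have h4 : ds (2 * D) * k ≤ s * k := Nat.mul_le_mul_right _ (by rw [ds_two]; exact h)
  omega

theorem ss_suff {k s D : ℕ} (hk : 1 ≤ k) (hs : 1 ≤ s) (hD : D < 2 ^ (k - 1))
    (h : SSCond k s D) : Attained k (s * 2 ^ (k - 1) - D) := by
  obtain ⟨hd, -, hsd⟩ := sD_of hs hD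
  have hV := two_lt hk hD
  rw [attained_iff hk hd]
  by_cases hds : s + 1 ≤ ds D
  · rw [ss_iff hk hD hds] at h
    obtain ⟨v, hv, hb⟩ := suff_one hV (by rw [ds_two]; exact hds) h
    exact to_code hk hd hsd hD (finrank_PW k) hv hb
  · obtain ⟨v, hv⟩ := suff_any hV
    refine to_code hk hd hsd hD (finrank_PW k) hv fun x _ => ?_
    have h1 := psd_abs_le hv.psd x
    have h2 := abs_le.1 h1
    rw [hv.zero, ds_two] at h2
    have h4 : (ds D : ℤ) ≤ s := by exact_mod_cast (by omega : ds D ≤ s)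
    linarith [h2.2]

theorem bad_window {k s D L : ℕ} (hk : 1 ≤ k) (hs : 1 ≤ s) (hD : D < 2 ^ (k - 1))
    (hL1 : 1 ≤ L) (hL : NoRun D L)
    (h : ¬ (Attained k (s * 2 ^ (k - 1) - D) ↔ SSCond k s D)) :
    s + 1 ≤ ds D ∧ gsum (k - 1) (s + 1) D < k ∧
      k ≤ gsum (k - 1) (s + 1) D + (s + 2) * L := by
  have hV := two_lt hk hD
  by_cases hds : s + 1 ≤ ds D
  · have hss : ¬ SSCond k s D := fun hc => h ⟨fun _ => hc, fun _ => ss_suff hk hs hD hc⟩
    have hat : Attained k (s * 2 ^ (k - 1) - D) := by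
      by_contra hc
      exact h ⟨fun ha => absurd ha hc, fun hs' => absurd hs' hss⟩
    have hg : topcost k (2 * D) (s + 1) = gsum (k - 1) (s + 1) D := by
      have := topcost_gsum hD hds
      rwa [Nat.sub_add_cancel hk] at this
    rw [ss_iff hk hD hds, hg, not_le] at hss
    refine ⟨hds, hss, ?_⟩
    obtain ⟨hd, -, hsd⟩ := sD_of hs hD
    obtain ⟨C, hC⟩ := (attained_iff hk hd).1 hat
    obtain ⟨v, hv, hb⟩ := (code_to hk hsd hD hC).2 rfl
    haveI : Finite (Dual (ZMod 2) C) := inferInstance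
    have hfr : finrank (ZMod 2) (Dual (ZMod 2) C) = k := by
      rw [finrank_dual_eq]; exact hC.1
    have := crude_nec hv (by rw [hfr]; exact hV) (norun_two_mul hL1 hL)
      (by rw [ds_two]; exact hds) hb
    rw [hfr, hg] at this
    exact this
  · exfalso
    apply h
    have h1 := ss_small hk hD (by omega : ds D ≤ s)
    exact ⟨fun _ => h1, fun _ => ss_suff hk hs hD h1⟩

end Pool.Agent.GR72
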