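/-
GR72/DABinom: two elementary counting facts (Mathlib only, and Digits for `ds`).
* `choose_half_sq`: even case by induction on `n`: `centralBinom n ^ 2 * (2 n) ≤ 4^(2n)`; stronger and
  inductive: `centralBinom n ^ 2 * (3 n + 1) ≤ 16^n` (`Nat.succ_mul_centralBinom_succ`:
  `(n+1) C_(n+1) = 2 (2n+1) C_n`, and `(2n+1)^2 (3n+4) ≤ 4 (n+1)^2 (3n+1)`).  Odd case
  `h = 2 n + 1`: `choose (2n+1) n = choose (2n+2) (n+1) / 2`, so
  `choose^2 (2n+1) = C_(n+1)^2 (2n+1) / 4 ≤ 16^(n+1) (2n+1) / (4 (3n+4)) ≤ 4^(2n+1)`.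
* `sum_sq`: induction on `T`: `X = 2 X'` or `2 X' + 1` with `X' < 2^T`; `ds (2 X') = ds X'`,
  `ds (2 X' + 1) = ds X' + 1`; with `y = 2 ds X' - T`: `(y - 1)^2 + (y + 1)^2 = 2 y^2 + 2`.
* `count_few`: for `4 ds X < T` one has `(2 ds X - T)^2 ≥ T^2 / 4` (`T - 2 ds X > T / 2`), so
  `card * T^2 / 4 ≤ T 2^T`.
* `count_few_top`: `D ↦ (D / 2^(n-T), D % 2^(n-T))`: for each `X < 2^T` there are `2^(n-T)` many `D < 2^n`.
* `count_large`: if `m ≤ ds (D / 2^(n-T))` then `gsum n m D ≤ m T`: the summands with `i ≤ n - T` vanish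
  (`ds (D / 2^i) ≥ ds (D / 2^(n-T))`, ds_div_mono), the other `T` are `≤ m`.
  So `m T < gsum n m D` implies `ds (D / 2^(n-T)) < m`, `4 ds < 4 m ≤ T`.
-/
import Pool.Agent.GR72.DACost

namespace Pool.Agent.GR72

private theorem central_sq (n : ℕ) : n.centralBinom ^ 2 * (3 * n + 1) ≤ 16 ^ n := by
  induction n with
  | zero => simp
  | succ n ih =>
    have h1 := Nat.succ_mul_centralBinom_succ n
    have h2 : (n + 1) ^ 2 * ((n + 1).centralBinom ^ 2 * (3 * (n + 1) + 1)) ≤
        (n + 1) ^ 2 * 16 ^ (n + 1) := by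
      calc (n + 1) ^ 2 * ((n + 1).centralBinom ^ 2 * (3 * (n + 1) + 1))
          = ((n + 1) * (n + 1).centralBinom) ^ 2 * (3 * n + 4) := by ring
        _ = (2 * (2 * n + 1) * n.centralBinom) ^ 2 * (3 * n + 4) := by rw [h1]
        _ = 4 * n.centralBinom ^ 2 * ((2 * n + 1) ^ 2 * (3 * n + 4)) := by ring
        _ ≤ 4 * n.centralBinom ^ 2 * (4 * (n + 1) ^ 2 * (3 * n + 1)) := by
            apply Nat.mul_le_mul_left
            nlinarith
        _ = 16 * (n + 1) ^ 2 * (n.centralBinom ^ 2 * (3 * n + 1)) := by ring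
        _ ≤ 16 * (n + 1) ^ 2 * 16 ^ n := Nat.mul_le_mul_left _ ih
        _ = (n + 1) ^ 2 * 16 ^ (n + 1) := by ring
    exact Nat.le_of_mul_le_mul_left h2 (by positivity)

theorem choose_half_sq (h : ℕ) : (h.choose (h / 2)) ^ 2 * h ≤ 4 ^ h := by
  rcases Nat.even_or_odd' h with ⟨n, rfl | rfl⟩
  · have h1 := central_sq n
    have e : 2 * n / 2 = n := by omega
    rw [e]
    have e2 : (2 * n).choose n = n.centralBinom := rfl
    rw [e2, pow_mul]
    norm_num
    refine le_trans (Nat.mul_le_mul_left _ ?_) h1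
    omega
  · have h1 := central_sq (n + 1)
    have e : (2 * n + 1) / 2 = n := by omega
    rw [e]
    have e2 : (n + 1).centralBinom = 2 * (2 * n + 1).choose n := by
      have e3 : (n + 1).centralBinom = (2 * n + 1 + 1).choose (n + 1) := rfl
      rw [e3, Nat.choose_succ_succ, Nat.choose_symm_half]
      ring
    rw [e2] at h1
    have e4 : (4 : ℕ) ^ (2 * n + 1) = 4 * 16 ^ n := by
      rw [pow_succ, pow_mul]
      norm_num
      ring
    rw [e4]
    have e5 : (16 : ℕ) ^ (n + 1) = 16 * 16 ^ n := by ring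
    rw [e5] at h1
    generalize (2 * n + 1).choose n = C at *
    generalize (16 : ℕ) ^ n = N at *
    have h2 : C ^ 2 * (2 * n + 1) ≤ C ^ 2 * (3 * n + 4) := Nat.mul_le_mul_left _ (by omega)
    have h3 : 4 * (C ^ 2 * (3 * n + 4)) ≤ 16 * N := by
      calc 4 * (C ^ 2 * (3 * n + 4)) = (2 * C) ^ 2 * (3 * (n + 1) + 1) := by ring
        _ ≤ 16 * N := h1
    omega

private theorem sum_even_odd {M : Type} [AddCommMonoid M] (f : ℕ → M) (n : ℕ) :
    ∑ X ∈ Finset.range (2 * n), f X = ∑ X ∈ Finset.range n, (f (2 * X) + f (2 * X + 1)) := by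
  induction n with
  | zero => simp
  | succ n ih =>
    have e : 2 * (n + 1) = 2 * n + 1 + 1 := by ring
    rw [e, Finset.sum_range_succ, Finset.sum_range_succ, ih, Finset.sum_range_succ, add_assoc]

theorem sum_sq (T : ℕ) :
    ∑ X ∈ Finset.range (2 ^ T), (2 * (ds X : ℤ) - (T : ℤ)) ^ 2 = (T : ℤ) * 2 ^ T := by
  induction T with
  | zero => simp [ds_zero]
  | succ T ih =>
    have e : 2 ^ (T + 1) = 2 * 2 ^ T := by ring
    rw [e, sum_even_odd]
    have h1 : ∀ X ∈ Finset.range (2 ^ T),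
        (2 * (ds (2 * X) : ℤ) - ((T + 1 : ℕ) : ℤ)) ^ 2 +
          (2 * (ds (2 * X + 1) : ℤ) - ((T + 1 : ℕ) : ℤ)) ^ 2 =
        2 * (2 * (ds X : ℤ) - (T : ℤ)) ^ 2 + 2 := by
      intro X _
      rw [ds_two_mul, ds_two_mul_add_one]
      push_cast
      ring
    rw [Finset.sum_congr rfl h1, Finset.sum_add_distrib, ← Finset.mul_sum, ih]
    simp
    ring

theorem count_few (T : ℕ) :
    ((Finset.range (2 ^ T)).filter (fun X => 4 * ds X < T)).card * T ≤ 4 * 2 ^ T := by
  rcases Nat.eq_zero_or_pos T with rfl | hT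
  · simp
  have h1 : (((Finset.range (2 ^ T)).filter (fun X => 4 * ds X < T)).card : ℤ) * (T : ℤ) ^ 2 ≤
      4 * ((T : ℤ) * 2 ^ T) := by
    rw [← sum_sq T, Finset.mul_sum]
    calc (((Finset.range (2 ^ T)).filter (fun X => 4 * ds X < T)).card : ℤ) * (T : ℤ) ^ 2
        = ∑ X ∈ (Finset.range (2 ^ T)).filter (fun X => 4 * ds X < T), (T : ℤ) ^ 2 := by
          rw [Finset.sum_const, nsmul_eq_mul]
      _ ≤ ∑ X ∈ (Finset.range (2 ^ T)).filter (fun X => 4 * ds X < T),
            4 * (2 * (ds X : ℤ) - (T : ℤ)) ^ 2 := by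
          apply Finset.sum_le_sum
          intro X hX
          rw [Finset.mem_filter] at hX
          have h2 : 4 * (ds X : ℤ) < T := by exact_mod_cast hX.2
          have h3 : (0 : ℤ) ≤ ds X := Int.natCast_nonneg _
          nlinarith
      _ ≤ ∑ X ∈ Finset.range (2 ^ T), 4 * (2 * (ds X : ℤ) - (T : ℤ)) ^ 2 := by
          apply Finset.sum_le_sum_of_subset_of_nonneg (Finset.filter_subset _ _)
          intro X _ _
          positivity
  have h2 : (((Finset.range (2 ^ T)).filter (fun X => 4 * ds X < T)).card : ℤ) * (T : ℤ) ≤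
      4 * 2 ^ T := by
    have hT' : (0 : ℤ) < T := by exact_mod_cast hT
    have h3 : (T : ℤ) * ((((Finset.range (2 ^ T)).filter (fun X => 4 * ds X < T)).card : ℤ) *
        (T : ℤ)) ≤ (T : ℤ) * (4 * 2 ^ T) := by
      calc (T : ℤ) * ((((Finset.range (2 ^ T)).filter (fun X => 4 * ds X < T)).card : ℤ) * (T : ℤ))
          = (((Finset.range (2 ^ T)).filter (fun X => 4 * ds X < T)).card : ℤ) * (T : ℤ) ^ 2 := by
            ring
        _ ≤ 4 * ((T : ℤ) * 2 ^ T) := h1
        _ = (T : ℤ) * (4 * 2 ^ T) := by ring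
    exact le_of_mul_le_mul_left h3 hT'
  exact_mod_cast h2

theorem count_few_top {n T : ℕ} (hT : T ≤ n) :
    ((Finset.range (2 ^ n)).filter (fun D => 4 * ds (D / 2 ^ (n - T)) < T)).card * T ≤
      4 * 2 ^ n := by
  have e : 2 ^ n = 2 ^ T * 2 ^ (n - T) := by
    rw [← pow_add]
    congr 1
    omega
  have hpos : 0 < 2 ^ (n - T) := by positivity
  have h1 : ((Finset.range (2 ^ n)).filter (fun D => 4 * ds (D / 2 ^ (n - T)) < T)).card ≤
      (((Finset.range (2 ^ T)).filter (fun X => 4 * ds X < T)) ×ˢ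
        Finset.range (2 ^ (n - T))).card := by
    apply Finset.card_le_card_of_injOn (fun D => (D / 2 ^ (n - T), D % 2 ^ (n - T)))
    · intro D hD
      rw [Finset.mem_coe, Finset.mem_filter, Finset.mem_range] at hD
      rw [Finset.mem_coe, Finset.mem_product, Finset.mem_filter, Finset.mem_range,
        Finset.mem_range]
      refine ⟨⟨?_, hD.2⟩, Nat.mod_lt _ hpos⟩
      rw [Nat.div_lt_iff_lt_mul hpos, ← e]
      exact hD.1
    · intro D _ D' _ h
      simp only [Prod.mk.injEq] at h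
      rw [← Nat.div_add_mod D (2 ^ (n - T)), ← Nat.div_add_mod D' (2 ^ (n - T)), h.1, h.2]
  rw [Finset.card_product, Finset.card_range] at h1
  have h2 := count_few T
  calc ((Finset.range (2 ^ n)).filter (fun D => 4 * ds (D / 2 ^ (n - T)) < T)).card * T
      ≤ (((Finset.range (2 ^ T)).filter (fun X => 4 * ds X < T)).card * 2 ^ (n - T)) * T :=
        Nat.mul_le_mul_right _ h1
    _ = 2 ^ (n - T) * (((Finset.range (2 ^ T)).filter (fun X => 4 * ds X < T)).card * T) := by
        ring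
    _ ≤ 2 ^ (n - T) * (4 * 2 ^ T) := Nat.mul_le_mul_left _ h2
    _ = 4 * 2 ^ n := by rw [e]; ring

theorem count_large {n m T : ℕ} (hT : T ≤ n) (hm : 4 * m ≤ T) :
    ((Finset.range (2 ^ n)).filter (fun D => m * T < gsum n m D)).card * T ≤ 4 * 2 ^ n := by
  refine le_trans (Nat.mul_le_mul_right _ (Finset.card_le_card ?_)) (count_few_top hT)
  intro D hD
  rw [Finset.mem_filter] at hD ⊢
  refine ⟨hD.1, ?_⟩
  by_contra hc
  have h1 : m ≤ ds (D / 2 ^ (n - T)) := by omega
  have h2 : gsum n m D ≤ m * T := by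
    unfold gsum
    calc ∑ i ∈ Finset.Icc 1 n, (m - ds (D / 2 ^ i))
        ≤ ∑ i ∈ Finset.Icc 1 n, (if n - T < i then m else 0) := by
          apply Finset.sum_le_sum
          intro i _
          split_ifs with hi
          · exact Nat.sub_le _ _
          · have h3 : ds (D / 2 ^ (n - T)) ≤ ds (D / 2 ^ i) := ds_div_mono (by omega)
            omega
      _ = ((Finset.Icc 1 n).filter (fun i => n - T < i)).card * m := by
          rw [← Finset.sum_filter, Finset.sum_const, smul_eq_mul]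
      _ ≤ (Finset.Ioc (n - T) n).card * m := by
          apply Nat.mul_le_mul_right
          apply Finset.card_le_card
          intro i hi
          rw [Finset.mem_filter, Finset.mem_Icc] at hi
          rw [Finset.mem_Ioc]
          exact ⟨hi.2, hi.1.2⟩
      _ = m * T := by
          rw [Nat.card_Ioc]
          have : n - (n - T) = T := by omega
          rw [this, Nat.mul_comm]
  omega

end Pool.Agent.GR72
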