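/-
GR72/DAWindow: anti-concentration of `gsum` by Sperner's theorem (needs DADefs, Digits; Mathlib
`IsAntichain.sperner`).
Fix `h ≤ n` and the low part `Y < 2^(n-h)`; the high part `S` is a set of positions in
`{n - h, ..., n - 1}`, `D = Y + ∑_{j ∈ S} 2^j`, `ds (D / 2^i) = card {j ∈ S ∪ bits Y | i ≤ j}`
(for instance through `Finset.equivBitIndices` / `Nat.bitIndices`, or define the function on
finite sets `B ⊆ range n`, `G B = ∑ i ∈ Icc 1 n, (m - (B.filter (i ≤ ·)).card)`, and use the
bijection between `range (2^n)` and `(range n).powerset`, `B ↦ ∑ j ∈ B, 2^j`; `Finset.sum_two_pow..`,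
`Finset.geomSum_injective`, `Nat.twoPowSum_bitIndices`).
Let `S ⊂ S'` (proper), `x ∈ S' ∖ S`, `x ≥ n - h`.  For all `i` the number for `S'` is at least that for
`S`; for `1 ≤ i ≤ x` it is at least one more.  For `i ≤ x` with `n - m ≤ i` the number for `S` is at most
`n - i - 1 < m` (positions `i, ..., n - 1` without `x`), so the summand drops by at least one.
There are at least `m - h` such `i` with `i ≥ 1`
(`x ≥ n - h`; if `n > m` the `i` with `n - m ≤ i ≤ x`, if `n = m` those with `1 ≤ i ≤ x`).  So
`G S ≥ G S' + (m - h)`, hence `{S | a ≤ G S < a + w}` is an antichain when `w ≤ m - h`, and has at most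
`h.choose (h / 2)` elements by Sperner; sum over the `2^(n-h)` values of `Y`.
-/
import Pool.Agent.GR72.DADefs
import Pool.Agent.GR72.Digits

namespace Pool.Agent.GR72

private theorem ds_eq_card (N : ℕ) : ds N = N.bitIndices.toFinset.card := by
  unfold ds
  rw [List.toFinset_card_of_nodup]
  exact Nat.bitIndices_nodup

private theorem mem_bits {N j : ℕ} : j ∈ N.bitIndices.toFinset ↔ N.testBit j = true := by
  rw [List.mem_toFinset, Nat.mem_bitIndices]

private theorem ds_mono_bits {D D' : ℕ} (h : ∀ j, D.testBit j = true → D'.testBit j = true) :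
    ds D ≤ ds D' := by
  rw [ds_eq_card, ds_eq_card]
  apply Finset.card_le_card
  intro j hj
  rw [mem_bits] at hj ⊢
  exact h j hj

private theorem ds_lt_bits {D D' x : ℕ} (h : ∀ j, D.testBit j = true → D'.testBit j = true)
    (h1 : D'.testBit x = true) (h2 : D.testBit x = false) : ds D + 1 ≤ ds D' := by
  rw [ds_eq_card, ds_eq_card]
  apply Finset.card_lt_card
  rw [Finset.ssubset_iff_of_subset]
  · refine ⟨x, mem_bits.2 h1, ?_⟩
    rw [mem_bits, h2]
    simp
  · intro j hj
    rw [mem_bits] at hj ⊢
    exact h j hj

private theorem ds_bound {D n x i : ℕ} (hD : D < 2 ^ n) (hx : x < n) (hi : i ≤ x)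
    (h2 : D.testBit x = false) : ds (D / 2 ^ i) ≤ n - i - 1 := by
  rw [ds_eq_card]
  have h1 : (D / 2 ^ i).bitIndices.toFinset ⊆ (Finset.range (n - i)).erase (x - i) := by
    intro j hj
    rw [mem_bits, Nat.testBit_div_two_pow] at hj
    rw [Finset.mem_erase, Finset.mem_range]
    constructor
    · rintro rfl
      have e : x - i + i = x := by omega
      rw [e, h2] at hj
      simp at hj
    · by_contra hc
      have h3 : D.testBit (j + i) = false := by
        apply Nat.testBit_lt_two_pow
        exact lt_of_lt_of_le hD (Nat.pow_le_pow_right (by norm_num) (by omega))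
      rw [h3] at hj
      simp at hj
  refine le_trans (Finset.card_le_card h1) ?_
  rw [Finset.card_erase_of_mem (by rw [Finset.mem_range]; omega), Finset.card_range]

private theorem gsum_drop {n m h D D' x : ℕ} (hh : h < m) (hm : m ≤ n) (hD : D < 2 ^ n)
    (hb : ∀ j, D.testBit j = true → D'.testBit j = true) (hx1 : n - h ≤ x) (hx2 : x < n)
    (h1 : D'.testBit x = true) (h2 : D.testBit x = false) :
    gsum n m D' + (m - h) ≤ gsum n m D := by
  have hI : m - h ≤ (Finset.Icc (max 1 (n - m)) x).card := by
    rw [Nat.card_Icc]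
    rcases le_total 1 (n - m) with h3 | h3
    · rw [max_eq_right h3]
      omega
    · rw [max_eq_left h3]
      omega
  have hsub : Finset.Icc (max 1 (n - m)) x ⊆ Finset.Icc 1 n := by
    intro i hi
    rw [Finset.mem_Icc] at hi ⊢
    have := (max_le_iff.1 hi.1).1
    omega
  have hbit : ∀ i j, (D / 2 ^ i).testBit j = true → (D' / 2 ^ i).testBit j = true := by
    intro i j hj
    rw [Nat.testBit_div_two_pow] at hj ⊢
    exact hb _ hj
  unfold gsum
  calc ∑ i ∈ Finset.Icc 1 n, (m - ds (D' / 2 ^ i)) + (m - h)
      ≤ ∑ i ∈ Finset.Icc 1 n, (m - ds (D' / 2 ^ i)) +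
          ∑ i ∈ Finset.Icc 1 n, (if i ∈ Finset.Icc (max 1 (n - m)) x then 1 else 0) := by
        apply Nat.add_le_add_left
        rw [← Finset.sum_filter, Finset.sum_const, smul_eq_mul, mul_one, Finset.filter_mem_eq_inter,
          Finset.inter_eq_right.2 hsub]
        exact hI
    _ = ∑ i ∈ Finset.Icc 1 n, ((m - ds (D' / 2 ^ i)) +
          (if i ∈ Finset.Icc (max 1 (n - m)) x then 1 else 0)) := by
        rw [Finset.sum_add_distrib]
    _ ≤ ∑ i ∈ Finset.Icc 1 n, (m - ds (D / 2 ^ i)) := by
        apply Finset.sum_le_sum
        intro i _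
        split_ifs with hi
        · rw [Finset.mem_Icc, max_le_iff] at hi
          have h3 := ds_bound (i := i) hD hx2 hi.2 h2
          have h4 : ds (D / 2 ^ i) + 1 ≤ ds (D' / 2 ^ i) := by
            apply ds_lt_bits (x := x - i) (hbit i)
            · rw [Nat.testBit_div_two_pow]
              have e : x - i + i = x := by omega
              rw [e, h1]
            · rw [Nat.testBit_div_two_pow]
              have e : x - i + i = x := by omega
              rw [e, h2]
          omega
        · have h4 := ds_mono_bits (hbit i)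
          omega

theorem count_window {n m h a w : ℕ} (hh : h < m) (hm : m ≤ n) (hw : w ≤ m - h) :
    ((Finset.range (2 ^ n)).filter (fun D => a ≤ gsum n m D ∧ gsum n m D < a + w)).card ≤
      2 ^ (n - h) * h.choose (h / 2) := by
  classical
  set F := (Finset.range (2 ^ n)).filter (fun D => a ≤ gsum n m D ∧ gsum n m D < a + w) with hF
  have hmaps : ∀ D ∈ F, D % 2 ^ (n - h) ∈ Finset.range (2 ^ (n - h)) := by
    intro D _
    rw [Finset.mem_range]
    exact Nat.mod_lt _ (by positivity)
  rw [Finset.card_eq_sum_card_fiberwise hmaps]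
  have hfib : ∀ Y ∈ Finset.range (2 ^ (n - h)),
      (F.filter (fun D => D % 2 ^ (n - h) = Y)).card ≤ h.choose (h / 2) := by
    intro Y _
    set A : ℕ → Finset (Fin h) := fun D =>
      Finset.univ.filter (fun j : Fin h => D.testBit (n - h + j) = true) with hA
    -- comparison of digits in a fibre
    have hbits : ∀ D ∈ F.filter (fun D => D % 2 ^ (n - h) = Y),
        ∀ D' ∈ F.filter (fun D => D % 2 ^ (n - h) = Y), A D ⊆ A D' →
        ∀ j, D.testBit j = true → D'.testBit j = true := by
      intro D hD D' hD' hsub j hj
      rw [Finset.mem_filter, hF, Finset.mem_filter, Finset.mem_range] at hD hD'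
      by_cases hjn : j < n - h
      · have e1 := Nat.testBit_mod_two_pow D (n - h) j
        have e2 := Nat.testBit_mod_two_pow D' (n - h) j
        rw [hD.2] at e1
        rw [hD'.2, e1, hj] at e2
        simp [hjn] at e2
        exact e2
      · by_cases hj2 : j < n
        · have h1 : (⟨j - (n - h), by omega⟩ : Fin h) ∈ A D := by
            rw [hA]
            simp only [Finset.mem_filter, Finset.mem_univ, true_and]
            have e : n - h + (j - (n - h)) = j := by omega
            rw [e]
            exact hj
          have h2 := hsub h1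
          rw [hA] at h2
          simp only [Finset.mem_filter, Finset.mem_univ, true_and] at h2
          have e : n - h + (j - (n - h)) = j := by omega
          rw [e] at h2
          exact h2
        · have h3 : D.testBit j = false := by
            apply Nat.testBit_lt_two_pow
            exact lt_of_lt_of_le hD.1.1 (Nat.pow_le_pow_right (by norm_num) (by omega))
          rw [h3] at hj
          simp at hj
    have hinj : Set.InjOn A (F.filter (fun D => D % 2 ^ (n - h) = Y) : Finset ℕ) := by
      intro D hD D' hD' he
      apply Nat.eq_of_testBit_eq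
      intro j
      have h1 := hbits D hD D' hD' (by rw [he]) j
      have h2 := hbits D' hD' D hD (by rw [he]) j
      rcases hb1 : D.testBit j with _ | _
      · rcases hb2 : D'.testBit j with _ | _
        · rfl
        · rw [h2 hb2] at hb1
          exact hb1.symm
      · rw [h1 hb1]
    rw [← Finset.card_image_of_injOn hinj]
    have hanti : IsAntichain (· ⊆ ·)
        (SetLike.coe ((F.filter (fun D => D % 2 ^ (n - h) = Y)).image A)) := by
      intro s hs t ht hne hst
      simp only [Finset.coe_image, Set.mem_image] at hs ht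
      obtain ⟨D, hD, rfl⟩ := hs
      obtain ⟨D', hD', rfl⟩ := ht
      have hss : A D ⊂ A D' := lt_of_le_of_ne hst hne
      obtain ⟨x, hx1, hx2⟩ := Finset.exists_of_ssubset hss
      have hb := hbits D hD D' hD' hst
      rw [hA] at hx1 hx2
      simp only [Finset.mem_filter, Finset.mem_univ, true_and, Bool.not_eq_true] at hx1 hx2
      have hD1 := Finset.mem_coe.1 hD
      have hD1' := Finset.mem_coe.1 hD'
      rw [Finset.mem_filter, hF, Finset.mem_filter, Finset.mem_range] at hD1 hD1'
      have hxh := x.2
      have h5 := gsum_drop hh hm hD1.1.1 hb (x := n - h + x) (by omega) (by omega) hx1 hx2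
      have h6 := hD1.1.2.2
      have h7 := hD1'.1.2.1
      omega
    have h8 := hanti.sperner
    rwa [Fintype.card_fin] at h8
  calc ∑ Y ∈ Finset.range (2 ^ (n - h)), (F.filter (fun D => D % 2 ^ (n - h) = Y)).card
      ≤ ∑ Y ∈ Finset.range (2 ^ (n - h)), h.choose (h / 2) := Finset.sum_le_sum hfib
    _ = 2 ^ (n - h) * h.choose (h / 2) := by
        rw [Finset.sum_const, Finset.card_range, smul_eq_mul]

end Pool.Agent.GR72
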