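/-
GR72/DACount: the number of `D` with `gsum` in a window below `k` (needs the stubs of DAWindow,
DABinom; natural and real arithmetic).
`P = {D < 2^n | gsum n m D < k ≤ gsum n m D + R}`, `k = n + 1`.
* `window_cover`: for `1 ≤ w ≤ m - h` the interval `[k - R, k)` is covered by `R / w + 1` windows
  `[a, a + w)` (`a = k - R + j w` with natural subtraction, `0 ≤ j ≤ R / w`), count_window for each.
* `case_large`: `64 m^2 ≥ k`, `2 ≤ m ≤ n`, `R = (m + 1) L`, `h = m / 2`, `w = m - h ≥ m / 2`, `w ≥ 1`: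
  `R / w ≤ 2 (m + 1) L / m ≤ 3 L`, so the number is at most `(3 L + 1) 2^(n-h) choose(h, h/2)`, and
  `choose(h, h/2) ≤ 2^h / sqrt h` (choose_half_sq).  `h ≥ m / 3` (`m ≥ 2`), `m ≥ sqrt k / 8`:
  `h ≥ sqrt k / 24`, `sqrt h ≥ k^(1/4) / 5`.  So the number is `≤ 5 (3 L + 1) 2^n / k^(1/4)`.
* `case_small`: `64 m^2 < k`, `2 ≤ m`, `R = (m + 1) L`, `L ≤ 2 (log_2 k + 1)` (`Nat.log 2 k`): `T = k / (2 m)`
  (natural division), `m T ≤ k / 2`, `k > 256`, `T ≤ n`, `T ≥ 32 m`, `T + 1 > k / (2 m) ≥ 4 sqrt k`, so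
  `T ≥ 2 sqrt k`; `R < k / 2`: `m + 1 ≤ (3/2) m ≤ (3/16) sqrt k`, `L ≤ 2 (log_2 k + 1)`, and
  `(3/8) sqrt k (log_2 k + 1) < k / 2` because `(3/4) (log_2 k + 1) < sqrt k` for `k ≥ 256`.
  So `gsum ≥ k - R > k / 2 ≥ m T` on `P`, and count_large gives `card P * T ≤ 4 * 2^n`,
  `card P ≤ 2 * 2^n / sqrt k ≤ 2 * 2^n / k^(1/4)`.
-/
import Pool.Agent.GR72.DAWindow
import Pool.Agent.GR72.DABinom

namespace Pool.Agent.GR72

theorem window_cover {n m h w k R : ℕ} (hh : h < m) (hm : m ≤ n) (hw : w ≤ m - h) (hw1 : 1 ≤ w) :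
    ((Finset.range (2 ^ n)).filter (fun D => gsum n m D < k ∧ k ≤ gsum n m D + R)).card ≤
      (R / w + 1) * (2 ^ (n - h) * h.choose (h / 2)) := by
  classical
  have hsub : (Finset.range (2 ^ n)).filter (fun D => gsum n m D < k ∧ k ≤ gsum n m D + R) ⊆
      (Finset.range (R / w + 1)).biUnion (fun j => (Finset.range (2 ^ n)).filter
        (fun D => (k - R) + j * w ≤ gsum n m D ∧ gsum n m D < (k - R) + j * w + w)) := by
    intro D hD
    rw [Finset.mem_filter] at hD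
    obtain ⟨hD1, hD2, hD3⟩ := hD
    rw [Finset.mem_biUnion]
    have h1 := Nat.div_add_mod (gsum n m D - (k - R)) w
    have h2 := Nat.mod_lt (gsum n m D - (k - R)) (show 0 < w from hw1)
    refine ⟨(gsum n m D - (k - R)) / w, ?_, ?_⟩
    · rw [Finset.mem_range, Nat.lt_succ_iff]
      exact Nat.div_le_div_right (by omega)
    · rw [Finset.mem_filter]
      rw [Nat.mul_comm] at h1
      exact ⟨hD1, by omega, by omega⟩
  refine (Finset.card_le_card hsub).trans (Finset.card_biUnion_le.trans ?_)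
  have h3 : ∀ j ∈ Finset.range (R / w + 1), ((Finset.range (2 ^ n)).filter
      (fun D => (k - R) + j * w ≤ gsum n m D ∧ gsum n m D < (k - R) + j * w + w)).card ≤
        2 ^ (n - h) * h.choose (h / 2) := fun j _ => count_window hh hm hw
  refine (Finset.sum_le_sum h3).trans ?_
  rw [Finset.sum_const, Finset.card_range, smul_eq_mul]

theorem case_large {n m L : ℕ} (hm2 : 2 ≤ m) (hmn : m ≤ n) (hk : n + 1 ≤ 64 * m ^ 2) :
    (((Finset.range (2 ^ n)).filter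
      (fun D => gsum n m D < n + 1 ∧ n + 1 ≤ gsum n m D + (m + 1) * L)).card : ℝ) *
        ((n : ℝ) + 1) ^ (1 / 4 : ℝ) ≤ 5 * (3 * L + 1) * 2 ^ n := by
  obtain ⟨y, hy⟩ : ∃ y : ℝ, ((n : ℝ) + 1) ^ (1 / 4 : ℝ) = y := ⟨_, rfl⟩
  have hn0 : (0 : ℝ) ≤ (n : ℝ) + 1 := by positivity
  have hy0 : 0 ≤ y := by
    rw [← hy]
    positivity
  have hy4 : y ^ 4 = (n : ℝ) + 1 := by
    rw [← hy, ← Real.rpow_natCast, ← Real.rpow_mul hn0]
    norm_num
  rw [hy]
  obtain ⟨h, hh⟩ : ∃ h, m / 2 = h := ⟨_, rfl⟩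
  have hh1 : 1 ≤ h := by omega
  have hw1 : 1 ≤ m - h := by omega
  have hwin := window_cover (n := n) (m := m) (h := h) (w := m - h) (k := n + 1)
    (R := (m + 1) * L) (by omega) hmn le_rfl hw1
  have hR : (m + 1) * L / (m - h) ≤ 3 * L := by
    apply Nat.div_le_of_le_mul
    have h1 : m + 1 ≤ (m - h) * 3 := by omega
    calc (m + 1) * L ≤ ((m - h) * 3) * L := Nat.mul_le_mul_right _ h1
      _ = (m - h) * (3 * L) := by ring
  set P := ((Finset.range (2 ^ n)).filter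
      (fun D => gsum n m D < n + 1 ∧ n + 1 ≤ gsum n m D + (m + 1) * L)).card with hP
  obtain ⟨C, hC⟩ : ∃ C, h.choose (h / 2) = C := ⟨_, rfl⟩
  have hCh := choose_half_sq h
  rw [hC] at hwin hCh
  have hle : P ≤ (3 * L + 1) * (2 ^ (n - h) * C) :=
    hwin.trans (Nat.mul_le_mul_right _ (by omega))
  have hle' : (P : ℝ) ≤ (3 * (L : ℝ) + 1) * (2 ^ (n - h) * (C : ℝ)) := by exact_mod_cast hle
  have hCh' : (C : ℝ) ^ 2 * (h : ℝ) ≤ 4 ^ h := by exact_mod_cast hCh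
  have hk' : (n : ℝ) + 1 ≤ 64 * (m : ℝ) ^ 2 := by exact_mod_cast hk
  have hm3 : m ≤ 3 * h := by omega
  have hm3' : (m : ℝ) ≤ 3 * (h : ℝ) := by exact_mod_cast hm3
  have hh0 : (0 : ℝ) < (h : ℝ) := by exact_mod_cast hh1
  have hC0 : (0 : ℝ) ≤ (C : ℝ) := by positivity
  have hm0 : (0 : ℝ) ≤ (m : ℝ) := by positivity
  have key : (C : ℝ) * y ≤ 5 * 2 ^ h := by
    have h1 : ((C : ℝ) * y) ^ 4 ≤ (5 * 2 ^ h) ^ 4 := by
      have e1 : ((C : ℝ) * y) ^ 4 = (C : ℝ) ^ 4 * ((n : ℝ) + 1) := by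
        rw [mul_pow, hy4]
      have e2 : ((5 : ℝ) * 2 ^ h) ^ 4 = 625 * 16 ^ h := by
        rw [mul_pow, ← pow_mul, mul_comm h 4, pow_mul]
        norm_num
      rw [e1, e2]
      have e3 : ((C : ℝ) ^ 2 * (h : ℝ)) ^ 2 ≤ (4 ^ h) ^ 2 :=
        pow_le_pow_left₀ (by positivity) hCh' 2
      have e4 : ((4 : ℝ) ^ h) ^ 2 = 16 ^ h := by
        rw [← pow_mul, mul_comm h 2, pow_mul]
        norm_num
      rw [e4] at e3
      have e5 : (m : ℝ) ^ 2 ≤ 9 * (h : ℝ) ^ 2 := by nlinarith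
      have e6 : (n : ℝ) + 1 ≤ 576 * (h : ℝ) ^ 2 := by nlinarith
      have e7 : (C : ℝ) ^ 4 * ((n : ℝ) + 1) ≤ (C : ℝ) ^ 4 * (576 * (h : ℝ) ^ 2) :=
        mul_le_mul_of_nonneg_left e6 (by positivity)
      have e8 : (0 : ℝ) < 16 ^ h := by positivity
      nlinarith
    exact le_of_pow_le_pow_left₀ (by norm_num) (by positivity) h1
  have hpow : (2 : ℝ) ^ (n - h) * 2 ^ h = 2 ^ n := by
    rw [← pow_add, Nat.sub_add_cancel (by omega)]
  calc (P : ℝ) * y ≤ ((3 * (L : ℝ) + 1) * (2 ^ (n - h) * (C : ℝ))) * y :=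
        mul_le_mul_of_nonneg_right hle' hy0
    _ = ((3 * (L : ℝ) + 1) * 2 ^ (n - h)) * ((C : ℝ) * y) := by ring
    _ ≤ ((3 * (L : ℝ) + 1) * 2 ^ (n - h)) * (5 * 2 ^ h) :=
        mul_le_mul_of_nonneg_left key (by positivity)
    _ = 5 * (3 * L + 1) * (2 ^ (n - h) * 2 ^ h) := by ring
    _ = 5 * (3 * L + 1) * 2 ^ n := by rw [hpow]

theorem case_small {n m L : ℕ} (hm2 : 2 ≤ m) (hk : 64 * m ^ 2 < n + 1)
    (hL : L ≤ 2 * (Nat.log 2 (n + 1) + 1)) :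
    (((Finset.range (2 ^ n)).filter
      (fun D => gsum n m D < n + 1 ∧ n + 1 ≤ gsum n m D + (m + 1) * L)).card : ℝ) *
        ((n : ℝ) + 1) ^ (1 / 4 : ℝ) ≤ 2 * 2 ^ n := by
  obtain ⟨y, hy⟩ : ∃ y : ℝ, ((n : ℝ) + 1) ^ (1 / 4 : ℝ) = y := ⟨_, rfl⟩
  have hn0 : (0 : ℝ) ≤ (n : ℝ) + 1 := by positivity
  have hy1 : 1 ≤ y := by
    rw [← hy]
    apply Real.one_le_rpow
    · have : (0 : ℝ) ≤ (n : ℝ) := by positivity
      linarith
    · norm_num
  have hy4 : y ^ 4 = (n : ℝ) + 1 := by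
    rw [← hy, ← Real.rpow_natCast, ← Real.rpow_mul hn0]
    norm_num
  rw [hy]
  have hm4 : 4 ≤ m ^ 2 := by nlinarith
  obtain ⟨T, hT⟩ : ∃ T, (n + 1) / (2 * m) = T := ⟨_, rfl⟩
  have hT1 : 2 * m * T ≤ n + 1 := by
    rw [← hT]
    exact Nat.mul_div_le _ _
  have hT2 : n + 1 < 2 * m * (T + 1) := by
    rw [← hT]
    exact Nat.lt_mul_div_succ _ (by omega)
  have hTn : T ≤ n := by
    have h1 : 4 * T ≤ 2 * m * T := Nat.mul_le_mul_right _ (by omega)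
    omega
  have hTm : 4 * m ≤ T := by
    by_contra hcon
    have h1 : T + 1 ≤ 4 * m := by omega
    have h2 : 2 * m * (T + 1) ≤ 2 * m * (4 * m) := Nat.mul_le_mul_left _ h1
    have h3 : 2 * m * (4 * m) = 8 * m ^ 2 := by ring
    omega
  have hR : 2 * ((m + 1) * L) < n + 1 := by
    obtain ⟨j, hj⟩ : ∃ j, Nat.log 2 (n + 1) = j := ⟨_, rfl⟩
    rw [hj] at hL
    have hj8 : 8 ≤ j := by
      rw [← hj]
      apply Nat.le_log_of_pow_le (by norm_num)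
      have hk256 : 256 < n + 1 := by omega
      omega
    have hjk : 2 ^ j ≤ n + 1 := by
      rw [← hj]
      exact Nat.pow_log_le_self 2 (by omega)
    have hpow : ∀ i, 8 ≤ i → 9 * (i + 1) ^ 2 ≤ 16 * 2 ^ i := by
      intro i hi
      induction i, hi using Nat.le_induction with
      | base => norm_num
      | succ i hi ih =>
        rw [pow_succ 2 i]
        nlinarith
    have h1 := hpow j hj8
    have h2 : 2 * ((m + 1) * L) ≤ 6 * m * (j + 1) := by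
      have h3 : (m + 1) * L ≤ (m + 1) * (2 * (j + 1)) := Nat.mul_le_mul_left _ hL
      have h4 : (m + 1) * (2 * (j + 1)) * 2 ≤ (3 * m) * (2 * (j + 1)) := by
        have h5 : 2 * (m + 1) ≤ 3 * m := by omega
        calc (m + 1) * (2 * (j + 1)) * 2 = (2 * (m + 1)) * (2 * (j + 1)) := by ring
          _ ≤ (3 * m) * (2 * (j + 1)) := Nat.mul_le_mul_right _ h5
      have h6 : (3 * m) * (2 * (j + 1)) = 6 * m * (j + 1) := by ring
      omega
    have h7 : (6 * m * (j + 1)) ^ 2 < (n + 1) ^ 2 := by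
      have h8 : (6 * m * (j + 1)) ^ 2 * 16 = 64 * m ^ 2 * (9 * (j + 1) ^ 2) := by ring
      have h9 : 64 * m ^ 2 * (9 * (j + 1) ^ 2) < (n + 1) * (9 * (j + 1) ^ 2) :=
        Nat.mul_lt_mul_of_pos_right hk (by positivity)
      have h10 : (n + 1) * (9 * (j + 1) ^ 2) ≤ (n + 1) * (16 * (n + 1)) :=
        Nat.mul_le_mul_left _ (h1.trans (Nat.mul_le_mul_left _ hjk))
      have h11 : (n + 1) * (16 * (n + 1)) = (n + 1) ^ 2 * 16 := by ring
      omega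
    have h12 := lt_of_pow_lt_pow_left₀ 2 (by positivity) h7
    omega
  set P := ((Finset.range (2 ^ n)).filter
      (fun D => gsum n m D < n + 1 ∧ n + 1 ≤ gsum n m D + (m + 1) * L)).card with hP
  have hPT : P * T ≤ 4 * 2 ^ n := by
    refine le_trans (Nat.mul_le_mul_right _ (Finset.card_le_card ?_)) (count_large hTn hTm)
    intro D hD
    rw [Finset.mem_filter] at hD ⊢
    refine ⟨hD.1, ?_⟩
    have h1 := hD.2.2
    have h2 : 2 * (m * T) ≤ n + 1 := by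
      rw [← Nat.mul_assoc]
      exact hT1
    omega
  have hPT' : (P : ℝ) * (T : ℝ) ≤ 4 * 2 ^ n := by exact_mod_cast hPT
  have hk' : 64 * (m : ℝ) ^ 2 < (n : ℝ) + 1 := by exact_mod_cast hk
  have hT2' : (n : ℝ) + 1 < 2 * (m : ℝ) * ((T : ℝ) + 1) := by exact_mod_cast hT2
  have h8m : 8 * (m : ℝ) < y ^ 2 := by
    have h1 : (8 * (m : ℝ)) ^ 2 < (y ^ 2) ^ 2 := by
      rw [← pow_mul, hy4]
      nlinarith
    exact lt_of_pow_lt_pow_left₀ 2 (by positivity) h1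
  have hTy : 4 * y ^ 2 < (T : ℝ) + 1 := by
    have hT0 : (0 : ℝ) < (T : ℝ) + 1 := by positivity
    have h1 : y ^ 2 * (4 * y ^ 2) < y ^ 2 * ((T : ℝ) + 1) := by
      have h2 : 8 * (m : ℝ) * ((T : ℝ) + 1) < y ^ 2 * ((T : ℝ) + 1) :=
        mul_lt_mul_of_pos_right h8m hT0
      have h3 : y ^ 2 * (4 * y ^ 2) = 4 * y ^ 4 := by ring
      rw [h3, hy4]
      linarith
    exact lt_of_mul_lt_mul_left h1 (by positivity)
  have hT2y : 2 * y ≤ (T : ℝ) := by nlinarith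
  have hP0 : (0 : ℝ) ≤ (P : ℝ) := by positivity
  nlinarith [mul_le_mul_of_nonneg_left hT2y hP0]

end Pool.Agent.GR72
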