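/-
GR72/DAFinal: the Solomon-Stiffler condition decides almost all pairs (needs the stubs of DABad,
DACount, DALong).
`n = k - 1`, `m = s + 1`, `L = 2 (Nat.log 2 k + 1)`, `2^L ≥ k^2` (`Nat.lt_pow_succ_log_self`).
The exceptional set is contained in `{¬ NoRun D L} ∪ {gsum n m D < k ≤ gsum n m D + (m + 1) L}`
(bad_window), and it is empty outside the first set if `m > n` (`s + 1 ≤ ds D ≤ n`: `D < 2^n`).
First set: `card ≤ n 2^n / 2^L ≤ 2^n / k` (count_long).  Second set: case_large or case_small.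
Sum times `k^(1/4)`: `≤ 2^n (1 + 5 (3 L + 1) + 2) = 2^n (15 L + 8)` (`k^(1/4) ≤ k`), and
`L = 2 log_2 k + 2 ≤ 3 log k + 2` (`log 2 > 2/3`, `Real.log_two_gt_d9`), so `15 L + 8 ≤ 45 log k + 38
≤ 45 (1 + log k)`.
-/
import Pool.Agent.GR72.DABad
import Pool.Agent.GR72.DACount

namespace Pool.Agent.GR72

theorem ds_le_of_lt {n D : ℕ} (h : D < 2 ^ n) : ds D ≤ n := by
  induction n generalizing D with
  | zero =>
    have : D = 0 := by simpa using h
    rw [this, ds_zero]
  | succ n ih =>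
    rw [pow_succ] at h
    have h1 : ds (D / 2) ≤ n := ih (by omega)
    rcases Nat.even_or_odd' D with ⟨m, hm | hm⟩
    · have e : D / 2 = m := by omega
      rw [e] at h1
      rw [hm, ds_two_mul]
      omega
    · have e : D / 2 = m := by omega
      rw [e] at h1
      rw [hm, ds_two_mul_add_one]
      omega

open Classical in
theorem almost_all {k s : ℕ} (hk : 1 ≤ k) (hs : 1 ≤ s) :
    (((Finset.range (2 ^ (k - 1))).filter (fun D =>
      ¬ (Attained k (s * 2 ^ (k - 1) - D) ↔ SSCond k s D))).card : ℝ) * (k : ℝ) ^ (1 / 4 : ℝ) ≤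
        45 * (1 + Real.log k) * 2 ^ (k - 1) := by
  obtain ⟨n, rfl⟩ : ∃ n, k = n + 1 := ⟨k - 1, by omega⟩
  have en : n + 1 - 1 = n := rfl
  rw [en]
  set L : ℕ := 2 * (Nat.log 2 (n + 1) + 1) with hL
  have hL1 : 1 ≤ L := by omega
  set A := (Finset.range (2 ^ n)).filter (fun D => ¬ NoRun D L) with hA
  set P := (Finset.range (2 ^ n)).filter
      (fun D => gsum n (s + 1) D < n + 1 ∧ n + 1 ≤ gsum n (s + 1) D + ((s + 1) + 1) * L) with hP
  set B := (Finset.range (2 ^ n)).filter (fun D =>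
      ¬ (Attained (n + 1) (s * 2 ^ n - D) ↔ SSCond (n + 1) s D)) with hB
  set x : ℝ := (((n + 1 : ℕ) : ℕ) : ℝ) ^ (1 / 4 : ℝ) with hx
  have hk1 : (1 : ℝ) ≤ ((n + 1 : ℕ) : ℝ) := by exact_mod_cast hk
  have hx0 : 0 ≤ x := by positivity
  have hxk : x ≤ ((n + 1 : ℕ) : ℝ) := by
    have : x ≤ ((n + 1 : ℕ) : ℝ) ^ (1 : ℝ) :=
      Real.rpow_le_rpow_of_exponent_le hk1 (by norm_num)
    rwa [Real.rpow_one] at this
  have h2n : (0 : ℝ) < 2 ^ n := by positivity
  -- the first set
  have hAx : (A.card : ℝ) * x ≤ 2 ^ n := by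
    have h1 : A.card * 2 ^ L ≤ n * 2 ^ n := count_long hL1
    have h2 : (n + 1) ^ 2 ≤ 2 ^ L := by
      have h3 : n + 1 < 2 ^ (Nat.log 2 (n + 1) + 1) := Nat.lt_pow_succ_log_self (by norm_num) _
      calc (n + 1) ^ 2 ≤ (2 ^ (Nat.log 2 (n + 1) + 1)) ^ 2 := Nat.pow_le_pow_left h3.le 2
        _ = 2 ^ L := by rw [← pow_mul, hL, mul_comm]
    have h4 : A.card * (n + 1) ^ 2 ≤ (n + 1) * 2 ^ n := by
      calc A.card * (n + 1) ^ 2 ≤ A.card * 2 ^ L := Nat.mul_le_mul_left _ h2
        _ ≤ n * 2 ^ n := h1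
        _ ≤ (n + 1) * 2 ^ n := Nat.mul_le_mul_right _ (by omega)
    have h5 : A.card * (n + 1) ≤ 2 ^ n := by
      have h6 : (n + 1) * (A.card * (n + 1)) ≤ (n + 1) * 2 ^ n := by
        calc (n + 1) * (A.card * (n + 1)) = A.card * (n + 1) ^ 2 := by ring
          _ ≤ _ := h4
      exact Nat.le_of_mul_le_mul_left h6 (by omega)
    have h7 : (A.card : ℝ) * ((n + 1 : ℕ) : ℝ) ≤ 2 ^ n := by exact_mod_cast h5
    calc (A.card : ℝ) * x ≤ (A.card : ℝ) * ((n + 1 : ℕ) : ℝ) :=
          mul_le_mul_of_nonneg_left hxk (by positivity)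
      _ ≤ 2 ^ n := h7
  -- the constant
  have hlog : (15 * (L : ℝ) + 8) ≤ 45 * (1 + Real.log ((n + 1 : ℕ) : ℝ)) := by
    have h1 : ((Nat.log 2 (n + 1) : ℕ) : ℝ) * Real.log 2 ≤ Real.log ((n + 1 : ℕ) : ℝ) := by
      rw [← Real.log_pow]
      apply Real.log_le_log (by positivity)
      have := Nat.pow_log_le_self 2 (x := n + 1) (by omega)
      exact_mod_cast this
    have h2 := Real.log_two_gt_d9
    have h3 : (0 : ℝ) ≤ ((Nat.log 2 (n + 1) : ℕ) : ℝ) := by positivity
    have h4 : (L : ℝ) = 2 * (((Nat.log 2 (n + 1) : ℕ) : ℝ) + 1) := by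
      rw [hL]; push_cast; ring
    rw [h4]
    nlinarith
  have hcard : (B.card : ℝ) * x ≤ (15 * (L : ℝ) + 8) * 2 ^ n := by
    by_cases hmn : s + 1 ≤ n
    · have hsub : B ⊆ A ∪ P := by
        intro D hD
        rw [hB, Finset.mem_filter] at hD
        rw [Finset.mem_union]
        by_cases hN : NoRun D L
        · right
          have := bad_window hk hs (by simpa using hD.1) hL1 hN hD.2
          rw [hP, Finset.mem_filter]
          exact ⟨hD.1, this.2.1, this.2.2⟩
        · left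
          rw [hA, Finset.mem_filter]
          exact ⟨hD.1, hN⟩
      have h1 : (B.card : ℝ) ≤ A.card + P.card := by
        exact_mod_cast (Finset.card_le_card hsub).trans (Finset.card_union_le _ _)
      have hPx : (P.card : ℝ) * x ≤ (5 * (3 * (L : ℝ) + 1) + 2) * 2 ^ n := by
        have hxx : x = ((n : ℝ) + 1) ^ (1 / 4 : ℝ) := by
          rw [hx]; push_cast; rfl
        rcases Nat.lt_or_ge (64 * (s + 1) ^ 2) (n + 1) with hc | hc
        · have h2 := case_small (n := n) (m := s + 1) (L := L) (by omega) hc le_rfl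
          rw [hxx]
          refine h2.trans ?_
          have : (0 : ℝ) ≤ 5 * (3 * (L : ℝ) + 1) * 2 ^ n := by positivity
          linarith
        · have h2 := case_large (n := n) (m := s + 1) (L := L) (by omega) hmn hc
          rw [hxx]
          refine h2.trans ?_
          linarith
      calc (B.card : ℝ) * x ≤ ((A.card : ℝ) + P.card) * x := mul_le_mul_of_nonneg_right h1 hx0
        _ = (A.card : ℝ) * x + (P.card : ℝ) * x := by ring
        _ ≤ 2 ^ n + (5 * (3 * (L : ℝ) + 1) + 2) * 2 ^ n := add_le_add hAx hPx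
        _ = (15 * (L : ℝ) + 8) * 2 ^ n := by ring
    · have hsub : B ⊆ A := by
        intro D hD
        rw [hB, Finset.mem_filter] at hD
        rw [hA, Finset.mem_filter]
        refine ⟨hD.1, fun hN => ?_⟩
        have h1 := bad_window hk hs (by simpa using hD.1) hL1 hN hD.2
        have h2 := ds_le_of_lt (Finset.mem_range.1 hD.1)
        omega
      have h1 : (B.card : ℝ) ≤ A.card := by exact_mod_cast Finset.card_le_card hsub
      calc (B.card : ℝ) * x ≤ (A.card : ℝ) * x := mul_le_mul_of_nonneg_right h1 hx0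
        _ ≤ 1 * 2 ^ n := by linarith
        _ ≤ (15 * (L : ℝ) + 8) * 2 ^ n := by
            apply mul_le_mul_of_nonneg_right _ h2n.le
            have : (0 : ℝ) ≤ L := by positivity
            linarith
  exact hcard.trans (mul_le_mul_of_nonneg_right hlog h2n.le)

end Pool.Agent.GR72
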