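/-
GR72/DAOut: the Solomon-Stiffler condition decides almost all pairs, in terms of `d` (complete).
-/
import Pool.Agent.GR72.DAFinal

namespace Pool.Agent.GR72

/-- The condition of Solomon, Stiffler and Belov for the pair `(k, d)`: with
`s = ⌈d / 2^(k-1)⌉` and `s 2^(k-1) - d = ∑ 2^(u_i - 1)`, `u_1 > u_2 > ...`, the sum of the `s + 1`
largest `u_i` (of all of them if there are fewer) is at most `s k`. -/
def BelovCond (k d : ℕ) : Prop :=
  ((exps ((d ⌈/⌉ 2 ^ (k - 1)) * 2 ^ (k - 1) - d)).take (d ⌈/⌉ 2 ^ (k - 1) + 1)).sum ≤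
    (d ⌈/⌉ 2 ^ (k - 1)) * k

theorem block_iff {k s d : ℕ} (hs : 1 ≤ s)
    (hd : d ∈ Finset.Ioc ((s - 1) * 2 ^ (k - 1)) (s * 2 ^ (k - 1))) :
    s * 2 ^ (k - 1) - d < 2 ^ (k - 1) ∧
      (BelovCond k d ↔ SSCond k s (s * 2 ^ (k - 1) - d)) := by
  rw [Finset.mem_Ioc] at hd
  obtain ⟨h1, h2⟩ := hd
  obtain ⟨m, rfl⟩ : ∃ m, s = m + 1 := ⟨s - 1, by omega⟩
  rw [Nat.add_sub_cancel] at h1
  have h3 : (m + 1) * 2 ^ (k - 1) = m * 2 ^ (k - 1) + 2 ^ (k - 1) := by ring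
  have h4 : (m + 1) * 2 ^ (k - 1) - d < 2 ^ (k - 1) := by omega
  refine ⟨h4, ?_⟩
  obtain ⟨-, h5, -⟩ := sD_of (k := k) (s := m + 1) (by omega) h4
  have h6 : (m + 1) * 2 ^ (k - 1) - ((m + 1) * 2 ^ (k - 1) - d) = d := by omega
  rw [h6] at h5
  unfold BelovCond SSCond
  rw [h5]

open Classical in
theorem block_card_le {k s : ℕ} (hs : 1 ≤ s) :
    ((Finset.Ioc ((s - 1) * 2 ^ (k - 1)) (s * 2 ^ (k - 1))).filter
      (fun d => ¬ (Attained k d ↔ BelovCond k d))).card ≤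
    ((Finset.range (2 ^ (k - 1))).filter (fun D =>
      ¬ (Attained k (s * 2 ^ (k - 1) - D) ↔ SSCond k s D))).card := by
  refine Finset.card_le_card_of_injOn (fun d => s * 2 ^ (k - 1) - d) ?_ ?_
  · intro d hd
    have hd' := Finset.mem_filter.1 (Finset.mem_coe.1 hd)
    obtain ⟨h1, h2⟩ := block_iff hs hd'.1
    have h3 := (Finset.mem_Ioc.1 hd'.1).2
    have h6 : s * 2 ^ (k - 1) - (s * 2 ^ (k - 1) - d) = d := by omega
    apply Finset.mem_coe.2
    rw [Finset.mem_filter, Finset.mem_range]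
    refine ⟨h1, ?_⟩
    rw [h6, ← h2]
    exact hd'.2
  · intro d hd e he h
    have hd' := (Finset.mem_Ioc.1 (Finset.mem_filter.1 (Finset.mem_coe.1 hd)).1).2
    have he' := (Finset.mem_Ioc.1 (Finset.mem_filter.1 (Finset.mem_coe.1 he)).1).2
    simp only at h
    omega

open Classical in
theorem almost_all_d {k s : ℕ} (hk : 1 ≤ k) (hs : 1 ≤ s) :
    (((Finset.Ioc ((s - 1) * 2 ^ (k - 1)) (s * 2 ^ (k - 1))).filter
      (fun d => ¬ (Attained k d ↔ BelovCond k d))).card : ℝ) * (k : ℝ) ^ (1 / 4 : ℝ) ≤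
        45 * (1 + Real.log k) * 2 ^ (k - 1) := by
  refine le_trans (mul_le_mul_of_nonneg_right ?_ (by positivity)) (almost_all hk hs)
  exact_mod_cast block_card_le hs

end Pool.Agent.GR72
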