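/-
GR72/DBFour: counting by an integral (Mathlib only).
`1_{w A = b} = ∫_0^1 exp (2 π i θ (w A - b)) dθ` (`integral_exp_mul_complex` for `w A ≠ b`; or use the
real part and `∫_0^1 cos (2 π n θ) dθ = 0` for a nonzero integer `n`, `integral_cos`).  Sum over `A ∈ F`:
`card = ∫_0^1 exp (-2 π i θ b) ∑_{A ∈ F} exp (2 π i θ w A) dθ`, then
`intervalIntegral.norm_integral_le_integral_norm`; the factor has norm one
(`Complex.norm_exp_ofReal_mul_I`).
-/
import Mathlib

namespace Pool.Agent.GR72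

private lemma dbf_one (m b : ℕ) :
    ∫ θ in (0 : ℝ)..1, Complex.exp (((-(2 * Real.pi * θ * (b : ℝ)) : ℝ) : ℂ) * Complex.I) *
      Complex.exp (((2 * Real.pi * θ * (m : ℝ) : ℝ) : ℂ) * Complex.I) = if m = b then 1 else 0 := by
  have h0 : ∀ θ : ℝ, Complex.exp (((-(2 * Real.pi * θ * (b : ℝ)) : ℝ) : ℂ) * Complex.I) *
      Complex.exp (((2 * Real.pi * θ * (m : ℝ) : ℝ) : ℂ) * Complex.I) =
      Complex.exp ((2 * Real.pi * ((m : ℂ) - b) * Complex.I) * (θ : ℂ)) := by
    intro θ
    rw [← Complex.exp_add]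
    congr 1
    push_cast
    ring
  simp_rw [h0]
  split_ifs with h
  · subst h
    simp
  · have hne : ((m : ℂ) - b) ≠ 0 := by
      rw [sub_ne_zero]
      exact_mod_cast h
    have hc : (2 * Real.pi * ((m : ℂ) - b) * Complex.I) ≠ 0 := by
      refine mul_ne_zero (mul_ne_zero (mul_ne_zero two_ne_zero ?_) hne) Complex.I_ne_zero
      exact_mod_cast Real.pi_ne_zero
    rw [integral_exp_mul_complex hc, div_eq_zero_iff]
    left
    rw [sub_eq_zero, Complex.ofReal_zero, mul_zero, Complex.exp_zero, Complex.ofReal_one, mul_one,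
      Complex.exp_eq_one_iff]
    exact ⟨(m : ℤ) - b, by push_cast; ring⟩

theorem count_le_integral (F : Finset ℕ) (w : ℕ → ℕ) (b : ℕ) :
    ((F.filter (fun A => w A = b)).card : ℝ) ≤
      ∫ θ in (0 : ℝ)..1, ‖∑ A ∈ F,
        Complex.exp (((2 * Real.pi * θ * (w A : ℝ) : ℝ) : ℂ) * Complex.I)‖ := by
  have h1 : (((F.filter (fun A => w A = b)).card : ℝ) : ℂ) =
      ∫ θ in (0 : ℝ)..1, Complex.exp (((-(2 * Real.pi * θ * (b : ℝ)) : ℝ) : ℂ) * Complex.I) *
        ∑ A ∈ F, Complex.exp (((2 * Real.pi * θ * (w A : ℝ) : ℝ) : ℂ) * Complex.I) := by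
    simp_rw [Finset.mul_sum]
    rw [intervalIntegral.integral_finsetSum]
    · simp_rw [dbf_one]
      rw [Finset.sum_boole]
      push_cast
      rfl
    · intro A _
      apply Continuous.intervalIntegrable
      fun_prop
  have h2 : ((F.filter (fun A => w A = b)).card : ℝ) =
      ‖(((F.filter (fun A => w A = b)).card : ℝ) : ℂ)‖ := by
    rw [Complex.norm_real, Real.norm_of_nonneg (Nat.cast_nonneg _)]
  rw [h2, h1]
  refine (intervalIntegral.norm_integral_le_integral_norm zero_le_one).trans (le_of_eq ?_)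
  congr 1
  funext θ
  rw [norm_mul, Complex.norm_exp_ofReal_mul_I, one_mul]

end Pool.Agent.GR72
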