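/-
GR72/DBTag: the classes given by `tag` (needs DBDefs, Digits).
For `A < 2^(2 (M + 1))` there are unique `x, y < 2` and `A' < 2^(2 M)` with
`A = x + 2 A' + 2^(2 M + 1) y`: `x = A % 2`, `A' = (A / 2) % 2^(2 M)`, `y = A / 2^(2 M + 1)`.  Then
  `ds A = x + ds A' + y`, `wsum A = wsum A' + ds A' + (2 M + 1) y`, `tag (M+1) A = 3 * tag M A' + (x + y)`
(ds_two_pow_mul_add etc. in GR72/Digits; for `wsum` use `Nat.bitIndices_two_mul`,
`Nat.bitIndices_two_mul_add_one` for the lowest digit; for the highest digit: `bitIndices` of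
`B + 2^e` with `B < 2^e` is `B.bitIndices ++ [e]`, e.g. by induction on `e`, or prove `wsum` and `ds` in
terms of `∑ i ∈ range N, if testBit ...`).
* `tag_lt`: induction, `x + y ≤ 2`.
* `tag_ds`: induction on `M`: `tag` equal implies `tag M A'` and `x + y` equal (`x + y < 3`).
* `eS_sum`: induction on `M`.  `M = 0`: `eS 0 0 θ = 1` (`wsum 0 = 0`).  Step: split
  `range (2^(2(M+1)))` by `(y, A', x)`, e.g. `∑_{A < 2^(N+1)} f A = ∑_{A < 2^N} (f (2 A) + f (2 A + 1))` and
  `∑_{A < 2^(N+1)} f A = ∑_{A < 2^N} (f A + f (2^N + A))`.  For `κ = 3 κ' + t`, `t < 3`: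
  `eS (M+1) κ θ = e(θ d) * eS M κ' θ * c_t` where `d` is the common value of `ds` on the class `κ'`
  (tag_ds), `e(z) = exp(2 π i z)`, `c_0 = 1`, `c_1 = 1 + e((2M+1) θ)`, `c_2 = e((2M+1) θ)`.  So
  `∑_t ‖eS (M+1) (3 κ' + t) θ‖ = ‖eS M κ' θ‖ (2 + ‖1 + e((2M+1)θ)‖)` and
  `‖1 + e(z)‖ = 2 |cos (π z)|` (`1 + e^(2 i a) = e^(i a) 2 cos a`).  `range (3^(M+1))` is split by
  `κ ↦ (κ / 3, κ % 3)` (`∑_{κ < 3 n} f κ = ∑_{κ' < n} (f (3 κ') + f (3 κ' + 1) + f (3 κ' + 2))`).
-/
import Pool.Agent.GR72.DBDefs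
import Pool.Agent.GR72.Digits

namespace Pool.Agent.GR72


private theorem wsum_two_mul (n : ℕ) : wsum (2 * n) = wsum n + ds n := by
  unfold wsum ds
  rw [Nat.bitIndices_two_mul]
  induction n.bitIndices with
  | nil => simp
  | cons a l ih =>
    simp only [List.map_cons, List.sum_cons, List.length_cons] at ih ⊢
    omega

private theorem wsum_two_mul_add_one (n : ℕ) : wsum (2 * n + 1) = wsum n + ds n := by
  have h := wsum_two_mul n
  unfold wsum ds at *
  rw [Nat.bitIndices_two_mul] at h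
  rw [Nat.bitIndices_two_mul_add_one, List.sum_cons, zero_add]
  exact h

private theorem wsum_pow_add (N A : ℕ) (hA : A < 2 ^ N) : wsum (2 ^ N + A) = wsum A + N := by
  induction N generalizing A with
  | zero =>
    have : A = 0 := by simpa using hA
    subst this
    simp [wsum]
  | succ N ih =>
    have hm : A / 2 < 2 ^ N := by
      rw [pow_succ] at hA
      omega
    have h := ih (A / 2) hm
    have hd : ds (2 ^ N + A / 2) = ds (A / 2) + 1 := by
      have := ds_two_pow_mul_add N 1 (A / 2) hm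
      rw [mul_one, ds_one] at this
      omega
    rcases Nat.even_or_odd' A with ⟨m, hm' | hm'⟩
    · have e1 : A / 2 = m := by omega
      rw [e1] at h hd
      have e : 2 ^ (N + 1) + A = 2 * (2 ^ N + m) := by
        rw [hm', pow_succ]; ring
      rw [e, wsum_two_mul, h, hd, hm', wsum_two_mul]
      ring
    · have e1 : A / 2 = m := by omega
      rw [e1] at h hd
      have e : 2 ^ (N + 1) + A = 2 * (2 ^ N + m) + 1 := by
        rw [hm', pow_succ]; ring
      rw [e, wsum_two_mul_add_one, h, hd, hm', wsum_two_mul_add_one]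
      ring

private theorem tag_comb (M A' x y : ℕ) (hA' : A' < 2 ^ (2 * M)) (hx : x < 2) :
    tag (M + 1) (2 ^ (2 * M + 1) * y + (2 * A' + x)) = 3 * tag M A' + (x + y) := by
  have hp : 2 ^ (2 * M + 1) = 2 * 2 ^ (2 * M) := by rw [pow_succ]; ring
  have hpos : 0 < 2 ^ (2 * M) := by positivity
  have h1 : (2 ^ (2 * M + 1) * y + (2 * A' + x)) / 2 = 2 ^ (2 * M) * y + A' := by
    have : 2 ^ (2 * M + 1) * y + (2 * A' + x) = x + 2 * (2 ^ (2 * M) * y + A') := by
      rw [hp]; ring
    rw [this, Nat.add_mul_div_left _ _ (by norm_num), Nat.div_eq_of_lt hx, zero_add]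
  have h2 : (2 ^ (2 * M + 1) * y + (2 * A' + x)) % 2 = x := by
    have : 2 ^ (2 * M + 1) * y + (2 * A' + x) = x + 2 * (2 ^ (2 * M) * y + A') := by
      rw [hp]; ring
    rw [this, Nat.add_mul_mod_self_left, Nat.mod_eq_of_lt hx]
  have h3 : (2 ^ (2 * M + 1) * y + (2 * A' + x)) / 2 ^ (2 * M + 1) = y := by
    have hlt : 2 * A' + x < 2 ^ (2 * M + 1) := by rw [hp]; omega
    rw [add_comm, Nat.add_mul_div_left _ _ (by positivity), Nat.div_eq_of_lt hlt, zero_add]
  rw [tag, h1, h2, h3, Nat.mul_add_mod, Nat.mod_eq_of_lt hA']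

private theorem decomp (M A : ℕ) (hA : A < 2 ^ (2 * (M + 1))) :
    ∃ A' x y, A' < 2 ^ (2 * M) ∧ x < 2 ∧ y < 2 ∧ A = 2 ^ (2 * M + 1) * y + (2 * A' + x) := by
  have hp : 2 ^ (2 * M + 1) = 2 * 2 ^ (2 * M) := by rw [pow_succ]; ring
  have hp2 : 2 ^ (2 * (M + 1)) = 2 ^ (2 * M + 1) * 2 := by
    rw [show 2 * (M + 1) = (2 * M + 1) + 1 by ring, pow_succ]
  have hpos : 0 < 2 ^ (2 * M) := by positivity
  have hlt := Nat.mod_lt A (show 0 < 2 ^ (2 * M + 1) by positivity)
  have hda := Nat.div_add_mod A (2 ^ (2 * M + 1))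
  refine ⟨A % 2 ^ (2 * M + 1) / 2, A % 2 ^ (2 * M + 1) % 2, A / 2 ^ (2 * M + 1), ?_,
    Nat.mod_lt _ (by norm_num), ?_, ?_⟩
  · omega
  · rw [hp2] at hA
    exact Nat.div_lt_of_lt_mul hA
  · omega

private theorem sum_two (N : ℕ) (f : ℕ → ℂ) :
    ∑ A ∈ Finset.range (2 ^ (N + 1)), f A =
      ∑ A ∈ Finset.range (2 ^ N), (f A + f (2 ^ N + A)) := by
  rw [pow_succ, mul_two, Finset.sum_range_add, Finset.sum_add_distrib]

private theorem sum_low {α : Type*} [AddCommMonoid α] (n : ℕ) (f : ℕ → α) :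
    ∑ A ∈ Finset.range (2 * n), f A =
      ∑ A ∈ Finset.range n, (f (2 * A) + f (2 * A + 1)) := by
  induction n with
  | zero => simp
  | succ n ih =>
    rw [show 2 * (n + 1) = 2 * n + 1 + 1 by ring, Finset.sum_range_succ, Finset.sum_range_succ, ih,
      Finset.sum_range_succ, add_assoc]

private theorem sum_three {α : Type*} [AddCommMonoid α] (n : ℕ) (f : ℕ → α) :
    ∑ A ∈ Finset.range (3 * n), f A =
      ∑ A ∈ Finset.range n, (f (3 * A) + f (3 * A + 1) + f (3 * A + 2)) := by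
  induction n with
  | zero => simp
  | succ n ih =>
    rw [show 3 * (n + 1) = 3 * n + 1 + 1 + 1 by ring, Finset.sum_range_succ, Finset.sum_range_succ,
      Finset.sum_range_succ, ih, Finset.sum_range_succ, add_assoc, add_assoc, add_assoc]

private theorem sum_four (M : ℕ) (f : ℕ → ℂ) :
    ∑ A ∈ Finset.range (2 ^ (2 * (M + 1))), f A =
      ∑ A' ∈ Finset.range (2 ^ (2 * M)),
        ((f (2 * A') + f (2 * A' + 1)) +
          (f (2 ^ (2 * M + 1) + 2 * A') + f (2 ^ (2 * M + 1) + (2 * A' + 1)))) := by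
  rw [show 2 * (M + 1) = (2 * M + 1) + 1 by ring, sum_two,
    show 2 ^ (2 * M + 1) = 2 * 2 ^ (2 * M) by rw [pow_succ]; ring, sum_low]
  refine Finset.sum_congr rfl fun A _ => ?_
  ring

/-- the phase. -/
private noncomputable def ph (θ : ℝ) (w : ℕ) : ℂ :=
  Complex.exp (((2 * Real.pi * θ * (w : ℝ) : ℝ) : ℂ) * Complex.I)

private theorem ph_add (θ : ℝ) (a b : ℕ) : ph θ (a + b) = ph θ a * ph θ b := by
  unfold ph
  rw [← Complex.exp_add]
  congr 1
  push_cast
  ring

private theorem ph_norm (θ : ℝ) (a : ℕ) : ‖ph θ a‖ = 1 := by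
  unfold ph
  exact Complex.norm_exp_ofReal_mul_I _

private theorem ph_one_add (θ : ℝ) (a : ℕ) :
    ‖1 + ph θ a‖ = 2 * |Real.cos (Real.pi * a * θ)| := by
  have h : 1 + ph θ a = Complex.exp (((Real.pi * a * θ : ℝ) : ℂ) * Complex.I) *
      (2 * Real.cos (Real.pi * a * θ) : ℝ) := by
    unfold ph
    push_cast
    rw [Complex.two_cos, mul_add, ← Complex.exp_add, ← Complex.exp_add]
    rw [show (Real.pi : ℂ) * a * θ * Complex.I + Real.pi * a * θ * Complex.I =
      2 * Real.pi * θ * a * Complex.I by ring,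
      show (Real.pi : ℂ) * a * θ * Complex.I + -(Real.pi * a * θ) * Complex.I = 0 by ring,
      Complex.exp_zero, add_comm]
  rw [h, norm_mul, Complex.norm_exp_ofReal_mul_I, one_mul, Complex.norm_real, Real.norm_eq_abs,
    abs_mul, abs_two]

private theorem eS_def (M κ : ℕ) (θ : ℝ) :
    eS M κ θ = ∑ A ∈ Finset.range (2 ^ (2 * M)), if tag M A = κ then ph θ (wsum A) else 0 := by
  unfold eS ph
  rw [Finset.sum_filter]

theorem tag_lt {M A : ℕ} (hA : A < 2 ^ (2 * M)) : tag M A < 3 ^ M := by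
  induction M generalizing A with
  | zero =>
    simp [tag]
  | succ M ih =>
    obtain ⟨A', x, y, hA', hx, hy, rfl⟩ := decomp M A hA
    rw [tag_comb M A' x y hA' hx, pow_succ]
    have := ih hA'
    omega

theorem tag_ds {M A A' : ℕ} (hA : A < 2 ^ (2 * M)) (hA' : A' < 2 ^ (2 * M))
    (h : tag M A = tag M A') : ds A = ds A' := by
  induction M generalizing A A' with
  | zero =>
    have h1 : A = 0 := by simpa using hA
    have h2 : A' = 0 := by simpa using hA'
    rw [h1, h2]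
  | succ M ih =>
    obtain ⟨B, x, y, hB, hx, hy, rfl⟩ := decomp M A hA
    obtain ⟨B', x', y', hB', hx', hy', rfl⟩ := decomp M A' hA'
    rw [tag_comb M B x y hB hx, tag_comb M B' x' y' hB' hx'] at h
    have e1 : tag M B = tag M B' := by omega
    have e2 : x + y = x' + y' := by omega
    have e3 := ih hB hB' e1
    have key : ∀ (C u v : ℕ), C < 2 ^ (2 * M) → u < 2 → v < 2 →
        ds (2 ^ (2 * M + 1) * v + (2 * C + u)) = v + ds C + u := by
      intro C u v hC hu hv
      have hlt : 2 * C + u < 2 ^ (2 * M + 1) := by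
        rw [pow_succ]; omega
      rw [ds_two_pow_mul_add _ _ _ hlt]
      have hv' : ds v = v := by
        interval_cases v
        · exact ds_zero
        · exact ds_one
      have hu' : ds (2 * C + u) = ds C + u := by
        interval_cases u
        · rw [add_zero, ds_two_mul, add_zero]
        · rw [ds_two_mul_add_one]
      rw [hv', hu']
      ring
    rw [key B x y hB hx hy, key B' x' y' hB' hx' hy', e3]
    omega


private theorem class_d (M κ : ℕ) : ∃ d, ∀ A, A < 2 ^ (2 * M) → tag M A = κ → ds A = d := by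
  by_cases h : ∃ A₀, A₀ < 2 ^ (2 * M) ∧ tag M A₀ = κ
  · obtain ⟨A₀, h1, h2⟩ := h
    exact ⟨ds A₀, fun A hA hk => tag_ds hA h1 (hk.trans h2.symm)⟩
  · push Not at h
    exact ⟨0, fun A hA hk => absurd hk (h A hA)⟩

private theorem eS_step (M κ : ℕ) (θ : ℝ) (c : ℕ → ℂ) (t : ℕ) (ht : t < 3)
    (hc0 : t = 0 → c t = 1) (hc1 : t = 1 → c t = 1 + ph θ (2 * M + 1))
    (hc2 : t = 2 → c t = ph θ (2 * M + 1)) :
    ‖eS (M + 1) (3 * κ + t) θ‖ = ‖eS M κ θ‖ * ‖c t‖ := by
  obtain ⟨d, hd⟩ := class_d M κ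
  have h : eS (M + 1) (3 * κ + t) θ = ph θ d * (eS M κ θ * c t) := by
    rw [eS_def, eS_def, sum_four, Finset.sum_mul, Finset.mul_sum]
    refine Finset.sum_congr rfl fun A' hA'm => ?_
    have hA' : A' < 2 ^ (2 * M) := Finset.mem_range.1 hA'm
    have hlt0 : 2 * A' < 2 ^ (2 * M + 1) := by rw [pow_succ]; omega
    have hlt1 : 2 * A' + 1 < 2 ^ (2 * M + 1) := by rw [pow_succ]; omega
    have t00 : tag (M + 1) (2 * A') = 3 * tag M A' + 0 := by
      have := tag_comb M A' 0 0 hA' (by norm_num)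
      simpa using this
    have t10 : tag (M + 1) (2 * A' + 1) = 3 * tag M A' + 1 := by
      have := tag_comb M A' 1 0 hA' (by norm_num)
      simpa using this
    have t01 : tag (M + 1) (2 ^ (2 * M + 1) + 2 * A') = 3 * tag M A' + 1 := by
      have := tag_comb M A' 0 1 hA' (by norm_num)
      simpa using this
    have t11 : tag (M + 1) (2 ^ (2 * M + 1) + (2 * A' + 1)) = 3 * tag M A' + 2 := by
      have := tag_comb M A' 1 1 hA' (by norm_num)
      simpa using this
    rw [t00, t10, t01, t11, wsum_pow_add _ _ hlt0, wsum_pow_add _ _ hlt1, wsum_two_mul,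
      wsum_two_mul_add_one]
    by_cases hk : tag M A' = κ
    · rw [hd A' hA' hk, hk, if_pos rfl, ph_add θ (wsum A' + d), ph_add θ (wsum A')]
      interval_cases t
      · rw [hc0 rfl]
        simp
        ring
      · rw [hc1 rfl]
        simp
        ring
      · rw [hc2 rfl]
        simp
        ring
    · rw [if_neg hk, if_neg (by omega), if_neg (by omega), if_neg (by omega), if_neg (by omega)]
      ring
  rw [h, norm_mul, ph_norm, one_mul, norm_mul]

theorem eS_sum (M : ℕ) (θ : ℝ) :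
    ∑ κ ∈ Finset.range (3 ^ M), ‖eS M κ θ‖ ≤
      ∏ i ∈ Finset.range M, (2 + 2 * |Real.cos (Real.pi * (2 * (i : ℝ) + 1) * θ)|) := by
  apply le_of_eq
  induction M with
  | zero =>
    simp [eS_def, tag, wsum, ph]
  | succ M ih =>
    rw [Finset.prod_range_succ, ← ih, pow_succ, mul_comm (3 ^ M) 3, sum_three, Finset.sum_mul]
    refine Finset.sum_congr rfl fun κ _ => ?_
    have h0 := eS_step M κ θ (fun t => if t = 0 then 1 else if t = 1 then 1 + ph θ (2 * M + 1)
      else ph θ (2 * M + 1)) 0 (by norm_num) (by simp) (by simp) (by simp)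
    have h1 := eS_step M κ θ (fun t => if t = 0 then 1 else if t = 1 then 1 + ph θ (2 * M + 1)
      else ph θ (2 * M + 1)) 1 (by norm_num) (by simp) (by simp) (by simp)
    have h2 := eS_step M κ θ (fun t => if t = 0 then 1 else if t = 1 then 1 + ph θ (2 * M + 1)
      else ph θ (2 * M + 1)) 2 (by norm_num) (by simp) (by simp) (by simp)
    rw [add_zero] at h0
    rw [h0, h1, h2]
    simp only [if_true, one_ne_zero, if_false, OfNat.ofNat_ne_zero, OfNat.ofNat_ne_one, ph_norm,
      norm_one, ph_one_add]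
    push_cast
    ring

end Pool.Agent.GR72
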