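/-
GR72/DBCount: the number of `A` with prescribed `wsum` as a function of `ds` (needs the stubs of DBTag,
DBFour).
Split the set by `κ = tag M A < 3^M` (tag_lt; `Finset.card_eq_sum_card_fiberwise` or
`card_biUnion_le`).  For `A` in the class `κ` (if it is nonempty fix `A0` in it) `ds A = ds A0` (tag_ds), so
the part in the class `κ` is contained in `{A in the class | wsum A = R (ds A0) - a}`, and
count_le_integral with `F = (range (2^(2M))).filter (tag M · = κ)`, `w = wsum` bounds its cardinality by
`∫ ‖eS M κ θ‖`.  Sum over `κ`: `∫ ∑_κ ‖eS M κ θ‖ ≤ ∫ ∏ (2 + 2 |cos|) = 4^M * FI M` (eS_sum; all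
integrands are continuous; `2 + 2 c = 4 * ((1 + c) / 2)`, `Finset.prod_mul_distrib`,
`Finset.prod_const`).
-/
import Pool.Agent.GR72.DBTag
import Pool.Agent.GR72.DBFour

namespace Pool.Agent.GR72

theorem count_digits (M a : ℕ) (R : ℕ → ℕ) :
    (((Finset.range (2 ^ (2 * M))).filter (fun A => a + wsum A = R (ds A))).card : ℝ) ≤
      4 ^ M * FI M := by
  classical
  have hcont : ∀ κ, Continuous fun θ => ‖eS M κ θ‖ := by
    intro κ
    unfold eS
    fun_prop
  -- the part in a class
  have hκ : ∀ κ ∈ Finset.range (3 ^ M),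
      ((((Finset.range (2 ^ (2 * M))).filter (fun A => a + wsum A = R (ds A))).filter
        (fun A => tag M A = κ)).card : ℝ) ≤ ∫ θ in (0 : ℝ)..1, ‖eS M κ θ‖ := by
    intro κ _
    by_cases hne : ∃ A0 ∈ Finset.range (2 ^ (2 * M)), tag M A0 = κ
    · obtain ⟨A0, hA0, hA0κ⟩ := hne
      refine le_trans ?_ (count_le_integral
        ((Finset.range (2 ^ (2 * M))).filter (fun A => tag M A = κ)) wsum (R (ds A0) - a))
      rw [Nat.cast_le]
      refine Finset.card_le_card ?_
      intro A hA
      simp only [Finset.mem_filter] at hA ⊢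
      obtain ⟨⟨h1, h2⟩, h3⟩ := hA
      refine ⟨⟨h1, h3⟩, ?_⟩
      have h4 : ds A = ds A0 := tag_ds (Finset.mem_range.1 h1) (Finset.mem_range.1 hA0)
        (h3.trans hA0κ.symm)
      rw [h4] at h2
      omega
    · push Not at hne
      have h0 : (((Finset.range (2 ^ (2 * M))).filter (fun A => a + wsum A = R (ds A))).filter
          (fun A => tag M A = κ)) = ∅ := by
        rw [Finset.filter_eq_empty_iff]
        intro A hA
        exact hne A (Finset.mem_filter.1 hA).1
      rw [h0, Finset.card_empty, Nat.cast_zero]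
      exact intervalIntegral.integral_nonneg zero_le_one fun θ _ => norm_nonneg _
  have hsplit : ((Finset.range (2 ^ (2 * M))).filter (fun A => a + wsum A = R (ds A))).card =
      ∑ κ ∈ Finset.range (3 ^ M),
        (((Finset.range (2 ^ (2 * M))).filter (fun A => a + wsum A = R (ds A))).filter
          (fun A => tag M A = κ)).card := by
    refine Finset.card_eq_sum_card_fiberwise fun A hA => ?_
    have := (Finset.mem_filter.1 hA).1
    exact Finset.mem_coe.2 (Finset.mem_range.2 (tag_lt (Finset.mem_range.1 this)))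
  rw [hsplit]
  push_cast
  refine (Finset.sum_le_sum hκ).trans ?_
  rw [← intervalIntegral.integral_finsetSum (fun κ _ => (hcont κ).intervalIntegrable _ _)]
  unfold FI
  rw [← intervalIntegral.integral_const_mul]
  refine intervalIntegral.integral_mono_on zero_le_one ?_ ?_ ?_
  · exact (continuous_finsetSum _ fun κ _ => hcont κ).intervalIntegrable _ _
  · apply Continuous.intervalIntegrable
    fun_prop
  · intro θ _
    refine (eS_sum M θ).trans (le_of_eq ?_)
    have h4 : (4 : ℝ) ^ M = ∏ _i ∈ Finset.range M, (4 : ℝ) := by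
      rw [Finset.prod_const, Finset.card_range]
    rw [h4, ← Finset.prod_mul_distrib]
    refine Finset.prod_congr rfl fun i _ => ?_
    ring

end Pool.Agent.GR72
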