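/-
GR72/DBDefs: definitions for the local bound (complete).
-/
import Pool.Agent.GR72.DADefs

namespace Pool.Agent.GR72

/-- Sum of the positions of the ones. -/
def wsum (A : ℕ) : ℕ := A.bitIndices.sum

/-- For `A < 2^(2 M)` the sums of the digits at the positions `M - 1 - i` and `M + i` (`i < M`),
coded in base 3: the digits are peeled off from outside. -/
def tag : ℕ → ℕ → ℕ
  | 0, _ => 0
  | M + 1, A => 3 * tag M ((A / 2) % 2 ^ (2 * M)) + (A % 2 + A / 2 ^ (2 * M + 1))

/-- The exponential sum over a class. -/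
noncomputable def eS (M κ : ℕ) (θ : ℝ) : ℂ :=
  ∑ A ∈ (Finset.range (2 ^ (2 * M))).filter (fun A => tag M A = κ),
    Complex.exp (((2 * Real.pi * θ * (wsum A : ℝ) : ℝ) : ℂ) * Complex.I)

/-- The integral bounding the concentration. -/
noncomputable def FI (M : ℕ) : ℝ :=
  ∫ θ in (0 : ℝ)..1, ∏ i ∈ Finset.range M, (1 + |Real.cos (Real.pi * (2 * (i : ℝ) + 1) * θ)|) / 2

end Pool.Agent.GR72
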