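/-
GR72/DBSmall: `gsum` is large only with exponentially small probability (needs DADefs, Digits, DACost;
see count_few, count_few_top, count_large in GR72/DABinom for the same with Chebyshev).
* `count_exp`: `∑_{X < 2^T} 2^(T - ds X) = 3^T` (induction with `X = 2 Y`, `2 Y + 1`; `ds X ≤ T`), so the number
  of `X < 2^T` with `ds X < m` times `2^T` is at most `2^m * 3^T` (`2^T ≤ 2^m * 2^(T - ds X)` for these).
* `count_small`: if `gsum n m D > m T` then `ds (D / 2^(n-T)) < m` (as in count_large: otherwise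
  `ds (D / 2^i) ≥ m` for all `i ≤ n - T`, and the sum has at most `T` nonzero terms, each at most `m`).
  The number of `D < 2^n` with `ds (D / 2^(n-T)) < m` is `2^(n-T)` times the number of `X < 2^T` with
  `ds X < m` (as in count_few_top).
* `pow_bound`: `8 m ≤ T`.  It is enough that `3^T * T^2 * 2^(T/8) ≤ 64 * 4^T`; 8th powers:
  `2^T * 3^(8T) * T^16 ≤ 64^8 * 4^(8T)`, i.e. `13122^T * T^16 ≤ 2^48 * 65536^T`; for `T ≤ 13` by
  evaluation, for the step `T → T + 1` (`T ≥ 13`) `13122 (T+1)^16 ≤ 65536 T^16`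
  (`(14/13)^16 < 3.28 < 4.99`).
-/
import Pool.Agent.GR72.DADefs
import Pool.Agent.GR72.DACost

namespace Pool.Agent.GR72

private theorem sum_even_odd' {M : Type} [AddCommMonoid M] (f : ℕ → M) (n : ℕ) :
    ∑ X ∈ Finset.range (2 * n), f X = ∑ X ∈ Finset.range n, (f (2 * X) + f (2 * X + 1)) := by
  induction n with
  | zero => simp
  | succ n ih =>
    have e : 2 * (n + 1) = 2 * n + 1 + 1 := by ring
    rw [e, Finset.sum_range_succ, Finset.sum_range_succ, ih, Finset.sum_range_succ, add_assoc]

private theorem ds_le_T {T X : ℕ} (h : X < 2 ^ T) : ds X ≤ T := by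
  induction T generalizing X with
  | zero =>
    have : X = 0 := by simpa using h
    rw [this, ds_zero]
  | succ T ih =>
    rw [pow_succ] at h
    rcases Nat.even_or_odd' X with ⟨Y, rfl | rfl⟩
    · rw [ds_two_mul]
      have := ih (X := Y) (by omega)
      omega
    · rw [ds_two_mul_add_one]
      have := ih (X := Y) (by omega)
      omega

private theorem sum_pow_ds (T : ℕ) :
    ∑ X ∈ Finset.range (2 ^ T), 2 ^ (T - ds X) = 3 ^ T := by
  induction T with
  | zero => simp [ds_zero]
  | succ T ih =>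
    have e : 2 ^ (T + 1) = 2 * 2 ^ T := by ring
    rw [e, sum_even_odd']
    have h1 : ∀ X ∈ Finset.range (2 ^ T),
        2 ^ (T + 1 - ds (2 * X)) + 2 ^ (T + 1 - ds (2 * X + 1)) = 3 * 2 ^ (T - ds X) := by
      intro X hX
      have h2 := ds_le_T (Finset.mem_range.mp hX)
      rw [ds_two_mul, ds_two_mul_add_one]
      have e1 : T + 1 - ds X = (T - ds X) + 1 := by omega
      have e2 : T + 1 - (ds X + 1) = T - ds X := by omega
      rw [e1, e2, pow_succ]
      ring
    rw [Finset.sum_congr rfl h1, ← Finset.mul_sum, ih]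
    ring

theorem count_exp (T m : ℕ) :
    ((Finset.range (2 ^ T)).filter (fun X => ds X < m)).card * 2 ^ T ≤ 2 ^ m * 3 ^ T := by
  rw [← sum_pow_ds T, Finset.mul_sum, ← smul_eq_mul, ← Finset.sum_const]
  calc ∑ X ∈ (Finset.range (2 ^ T)).filter (fun X => ds X < m), 2 ^ T
      ≤ ∑ X ∈ (Finset.range (2 ^ T)).filter (fun X => ds X < m), 2 ^ m * 2 ^ (T - ds X) := by
        apply Finset.sum_le_sum
        intro X hX
        rw [Finset.mem_filter, Finset.mem_range] at hX
        rw [← pow_add]
        apply Nat.pow_le_pow_right (by norm_num)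
        omega
    _ ≤ ∑ X ∈ Finset.range (2 ^ T), 2 ^ m * 2 ^ (T - ds X) := by
        apply Finset.sum_le_sum_of_subset_of_nonneg (Finset.filter_subset _ _)
        intro X _ _
        positivity

theorem count_small {n m T : ℕ} (hT : T ≤ n) :
    ((Finset.range (2 ^ n)).filter (fun D => m * T < gsum n m D)).card * 4 ^ T ≤
      2 ^ n * (2 ^ m * 3 ^ T) := by
  have e : 2 ^ n = 2 ^ T * 2 ^ (n - T) := by
    rw [← pow_add]
    congr 1
    omega
  have hpos : 0 < 2 ^ (n - T) := by positivity
  have h1 : ((Finset.range (2 ^ n)).filter (fun D => m * T < gsum n m D)).card ≤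
      (((Finset.range (2 ^ T)).filter (fun X => ds X < m)) ×ˢ
        Finset.range (2 ^ (n - T))).card := by
    apply Finset.card_le_card_of_injOn (fun D => (D / 2 ^ (n - T), D % 2 ^ (n - T)))
    · intro D hD
      rw [Finset.mem_coe, Finset.mem_filter, Finset.mem_range] at hD
      rw [Finset.mem_coe, Finset.mem_product, Finset.mem_filter, Finset.mem_range,
        Finset.mem_range]
      refine ⟨⟨?_, ?_⟩, Nat.mod_lt _ hpos⟩
      · rw [Nat.div_lt_iff_lt_mul hpos, ← e]
        exact hD.1
      · by_contra hc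
        have hD2 := hD.2
        have h1 : m ≤ ds (D / 2 ^ (n - T)) := by
          simp only [not_lt] at hc
          exact hc
        have h2 : gsum n m D ≤ m * T := by
          unfold gsum
          calc ∑ i ∈ Finset.Icc 1 n, (m - ds (D / 2 ^ i))
              ≤ ∑ i ∈ Finset.Icc 1 n, (if n - T < i then m else 0) := by
                apply Finset.sum_le_sum
                intro i _
                split_ifs with hi
                · exact Nat.sub_le _ _
                · have h3 : ds (D / 2 ^ (n - T)) ≤ ds (D / 2 ^ i) := ds_div_mono (by omega)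
                  omega
            _ = ((Finset.Icc 1 n).filter (fun i => n - T < i)).card * m := by
                rw [← Finset.sum_filter, Finset.sum_const, smul_eq_mul]
            _ ≤ (Finset.Ioc (n - T) n).card * m := by
                apply Nat.mul_le_mul_right
                apply Finset.card_le_card
                intro i hi
                rw [Finset.mem_filter, Finset.mem_Icc] at hi
                rw [Finset.mem_Ioc]
                exact ⟨hi.2, hi.1.2⟩
            _ = m * T := by
                rw [Nat.card_Ioc]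
                have : n - (n - T) = T := by omega
                rw [this, Nat.mul_comm]
        omega
    · intro D _ D' _ h
      simp only [Prod.mk.injEq] at h
      rw [← Nat.div_add_mod D (2 ^ (n - T)), ← Nat.div_add_mod D' (2 ^ (n - T)), h.1, h.2]
  rw [Finset.card_product, Finset.card_range] at h1
  have h2 := count_exp T m
  have e4 : (4 : ℕ) ^ T = 2 ^ T * 2 ^ T := by
    rw [← mul_pow]
    norm_num
  calc ((Finset.range (2 ^ n)).filter (fun D => m * T < gsum n m D)).card * 4 ^ T
      ≤ (((Finset.range (2 ^ T)).filter (fun X => ds X < m)).card * 2 ^ (n - T)) * 4 ^ T :=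
        Nat.mul_le_mul_right _ h1
    _ = 2 ^ n * (((Finset.range (2 ^ T)).filter (fun X => ds X < m)).card * 2 ^ T) := by
        rw [e, e4]
        ring
    _ ≤ 2 ^ n * (2 ^ m * 3 ^ T) := Nat.mul_le_mul_left _ h2

private theorem pow_bound_aux (T : ℕ) : 13122 ^ T * T ^ 16 ≤ 2 ^ 48 * 65536 ^ T := by
  rcases Nat.lt_or_ge T 13 with h | h
  · interval_cases T <;> norm_num
  · induction T, h using Nat.le_induction with
    | base => norm_num
    | succ T hT ih =>
      have h1 : 13122 * (T + 1) ^ 16 ≤ 65536 * T ^ 16 := by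
        have h2 : 13 * (T + 1) ≤ 14 * T := by omega
        have h3 : (13 * (T + 1)) ^ 16 ≤ (14 * T) ^ 16 := Nat.pow_le_pow_left h2 16
        rw [mul_pow, mul_pow] at h3
        have h4 : 13122 * 14 ^ 16 ≤ 65536 * 13 ^ 16 := by norm_num
        have h5 : 13 ^ 16 * (13122 * (T + 1) ^ 16) ≤ 13 ^ 16 * (65536 * T ^ 16) := by
          calc 13 ^ 16 * (13122 * (T + 1) ^ 16) = 13122 * (13 ^ 16 * (T + 1) ^ 16) := by ring
            _ ≤ 13122 * (14 ^ 16 * T ^ 16) := Nat.mul_le_mul_left _ h3
            _ = (13122 * 14 ^ 16) * T ^ 16 := by ring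
            _ ≤ (65536 * 13 ^ 16) * T ^ 16 := Nat.mul_le_mul_right _ h4
            _ = 13 ^ 16 * (65536 * T ^ 16) := by ring
        exact Nat.le_of_mul_le_mul_left h5 (by positivity)
      calc 13122 ^ (T + 1) * (T + 1) ^ 16 = 13122 ^ T * (13122 * (T + 1) ^ 16) := by ring
        _ ≤ 13122 ^ T * (65536 * T ^ 16) := Nat.mul_le_mul_left _ h1
        _ = 65536 * (13122 ^ T * T ^ 16) := by ring
        _ ≤ 65536 * (2 ^ 48 * 65536 ^ T) := Nat.mul_le_mul_left _ ih
        _ = 2 ^ 48 * 65536 ^ (T + 1) := by ring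

theorem pow_bound {m T : ℕ} (h : 8 * m ≤ T) : 2 ^ m * 3 ^ T * T ^ 2 ≤ 64 * 4 ^ T := by
  have h1 : (2 ^ m * 3 ^ T * T ^ 2) ^ 8 ≤ (64 * 4 ^ T) ^ 8 := by
    calc (2 ^ m * 3 ^ T * T ^ 2) ^ 8 = 2 ^ (8 * m) * 3 ^ (8 * T) * T ^ 16 := by
          rw [mul_pow, mul_pow, ← pow_mul, ← pow_mul, ← pow_mul, mul_comm m 8, mul_comm T 8]
      _ ≤ 2 ^ T * 3 ^ (8 * T) * T ^ 16 := by
          apply Nat.mul_le_mul_right
          apply Nat.mul_le_mul_right
          exact Nat.pow_le_pow_right (by norm_num) h
      _ = 13122 ^ T * T ^ 16 := by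
          rw [pow_mul 3 8 T, ← mul_pow]
          norm_num
      _ ≤ 2 ^ 48 * 65536 ^ T := pow_bound_aux T
      _ = (64 * 4 ^ T) ^ 8 := by
          rw [mul_pow, ← pow_mul 4 T 8, mul_comm T 8, pow_mul 4 8 T]
          norm_num
  exact (Nat.pow_le_pow_iff_left (by norm_num)).mp h1

end Pool.Agent.GR72
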