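/-
GR72/DBNec: the error term if there is no long run (needs RunErr, CritErr: all finished).
`NoRun V L` (GR72/CrudeNec): no `L` consecutive ones.
* `err_norun`: strong induction on `V` with exists_run_gen, `V1 = 2^(c+q+1) t` (see full_err and crit_err
  in GR72/CritErr), runSum_step (`c + q ≤ k` by lt_of_run), runSum_zero for `V = 0`, norun_lt (`q < L`),
  norun_high.  Let `a = ds t`.
  If `m < a + 2`: `errT k m a c q = 0`; `ds (V1 / 2^j) ≤ ds (V / 2^j)` and `ds V1 ≤ ds V` (V = V1 + low part;
  ds_V, ds_high).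
  If `a + 2 ≤ m`: `ds V1 = a < m`, so the bound for `V1` has no `L^2`.  If the run is cut
  (`m < a + q = ds V`): `errT ≤ q (q + 1) / 2 ≤ L^2`.  Otherwise, if `4 ≤ q` and
  `k < c + q - 1 + q (q - 1) / 2` then `k - L^2 ≤ c` (`q + q (q-1)/2 ≤ L^2` as `q < L`), so
  `ds (V / 2^(k - L^2)) = ds (V1 / 2^(k - L^2)) + q` and `q (q + 1) / 2 ≤ L q`.
* `nec_norun`: crit_err, err_norun, `ds (V / 2^(k - L^2)) ≤ L^2` (`V / 2^(k-L^2) < 2^(L^2)` if `L^2 ≤ k`,
  `ds_le_of_lt` in GR72/DAFinal; otherwise `ds V ≤ k < L^2`), and `bonusV ≤ tr - 1 ≤ L` (a first run of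
  length `≥ L` contradicts NoRun; `tr` is `Nat.findGreatest`).
-/
import Pool.Agent.GR72.CritErr
import Pool.Agent.GR72.DAFinal

namespace Pool.Agent.GR72

open Module

private theorem dbn_div_low {q c t j : ℕ} (h : j ≤ c + q + 1) :
    ds (2 ^ (c + q + 1) * t / 2 ^ j) = ds t := by
  obtain ⟨d, hd⟩ : ∃ d, c + q + 1 = j + d := ⟨c + q + 1 - j, by omega⟩
  rw [hd, pow_add, mul_assoc, Nat.mul_div_cancel_left _ (by positivity), ds_two_pow_mul]

private theorem dbn_le {q c t j : ℕ} :
    ds (2 ^ (c + q + 1) * t / 2 ^ j) ≤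
      ds (2 ^ c * (2 ^ (q + 1) * t + (2 ^ q - 1)) / 2 ^ j) := by
  have hlow : 2 ^ c * (2 ^ q - 1) < 2 ^ (c + q + 1) := by
    have h1 : 2 ^ (c + q + 1) = 2 ^ c * (2 ^ q * 2) := by
      rw [pow_succ, pow_add, mul_assoc]
    rw [h1]
    apply Nat.mul_lt_mul_of_pos_left _ (by positivity)
    have h2 : 0 < 2 ^ q := by positivity
    omega
  rcases Nat.le_total j (c + q + 1) with h | h
  · rw [dbn_div_low h, V_eq]
    obtain ⟨d, hd⟩ : ∃ d, c + q + 1 = j + d := ⟨c + q + 1 - j, by omega⟩
    have h1 : (2 ^ (c + q + 1) * t + 2 ^ c * (2 ^ q - 1)) / 2 ^ j =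
        2 ^ d * t + (2 ^ c * (2 ^ q - 1)) / 2 ^ j := by
      rw [hd, pow_add, mul_assoc, Nat.mul_add_div (by positivity)]
    rw [h1, ds_two_pow_mul_add]
    · omega
    · rw [Nat.div_lt_iff_lt_mul (by positivity), ← pow_add, Nat.add_comm d j, ← hd]
      exact hlow
  · obtain ⟨d, rfl⟩ : ∃ d, j = c + q + 1 + d := ⟨j - (c + q + 1), by omega⟩
    rw [V_eq, pow_add 2 (c + q + 1) d, ← Nat.div_div_eq_div_mul, ← Nat.div_div_eq_div_mul,
      Nat.mul_div_cancel_left _ (by positivity), Nat.mul_add_div (by positivity),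
      Nat.div_eq_of_lt hlow, Nat.add_zero]

private theorem dbn_low {q c t j : ℕ} (h : j ≤ c) :
    ds (2 ^ c * (2 ^ (q + 1) * t + (2 ^ q - 1)) / 2 ^ j) =
      ds (2 ^ (c + q + 1) * t / 2 ^ j) + q := by
  rw [dbn_div_low (by omega)]
  obtain ⟨d, rfl⟩ : ∃ d, c = j + d := ⟨c - j, by omega⟩
  rw [pow_add, mul_assoc, Nat.mul_div_cancel_left _ (by positivity), ds_V]

private theorem dbn_half (x : ℕ) : 2 * (x / 2) ≤ x := Nat.mul_div_le x 2

theorem err_norun {k V m L : ℕ} (hV : V < 2 ^ k) (hL : NoRun V L) :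
    runSum (k + 1) V (errT k m) ≤
      L * ds (V / 2 ^ (k - L ^ 2)) + (if m < ds V then L ^ 2 else 0) := by
  induction V using Nat.strong_induction_on with
  | _ V ih =>
    by_cases hV0 : V = 0
    · subst hV0
      rw [runSum_zero]
      exact Nat.zero_le _
    · obtain ⟨q, c, t, hq, rfl⟩ := exists_run_gen hV0
      have hlow : 0 < 2 ^ c * (2 ^ q - 1) := by
        apply Nat.mul_pos (by positivity)
        have h5 : 2 ^ 1 ≤ 2 ^ q := Nat.pow_le_pow_right (by norm_num) hq
        omega
      have hlt : 2 ^ (c + q + 1) * t < 2 ^ c * (2 ^ (q + 1) * t + (2 ^ q - 1)) := by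
        rw [V_eq]
        omega
      have hcq := lt_of_run hq hV
      have hqL := norun_lt hL
      have h1 := ih _ hlt (hlt.trans hV) (norun_high hL)
      have h2 := dbn_le (q := q) (c := c) (t := t) (j := k - L ^ 2)
      have h3 : L * ds (2 ^ (c + q + 1) * t / 2 ^ (k - L ^ 2)) ≤
          L * ds (2 ^ c * (2 ^ (q + 1) * t + (2 ^ q - 1)) / 2 ^ (k - L ^ 2)) :=
        Nat.mul_le_mul_left _ h2
      rw [runSum_step hq (by omega)]
      rw [ds_high] at h1
      rw [ds_V]
      have hqq : q * (q + 1) / 2 ≤ L * q := by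
        have h4 := dbn_half (q * (q + 1))
        have h5 : q * (q + 1) ≤ L * q := by
          rw [Nat.mul_comm L q]
          exact Nat.mul_le_mul_left _ hqL
        omega
      have hqq2 : q * (q + 1) / 2 ≤ L ^ 2 := by
        refine hqq.trans ?_
        rw [pow_two]
        exact Nat.mul_le_mul_left _ hqL.le
      by_cases ha : ds t + 2 ≤ m
      · rw [if_neg (by omega), Nat.add_zero] at h1
        by_cases hm : m < ds t + q
        · rw [if_pos hm]
          have h4 : errT k m (ds t) c q ≤ q * (q + 1) / 2 := by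
            unfold errT
            split_ifs
            · exact le_rfl
            · exact Nat.zero_le _
          omega
        · rw [if_neg hm]
          by_cases hd : 3 ≤ q ∧ ds t + 2 ≤ m ∧
              (m < ds t + q ∨ 4 ≤ q ∧ k < c + q - 1 + q * (q - 1) / 2)
          · have he : errT k m (ds t) c q = q * (q + 1) / 2 := by
              unfold errT
              rw [if_pos hd]
            rw [he]
            have h4 : k < c + q - 1 + q * (q - 1) / 2 := by
              rcases hd.2.2 with h5 | h5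
              · exact absurd h5 hm
              · exact h5.2
            have h5 : q - 1 + q * (q - 1) / 2 ≤ L ^ 2 := by
              obtain ⟨p, rfl⟩ : ∃ p, q = p + 1 := ⟨q - 1, by omega⟩
              have h6 := dbn_half ((p + 1) * (p + 1 - 1))
              rw [Nat.add_sub_cancel] at h6 ⊢
              have h7 : (p + 1) * p ≤ L ^ 2 - p ∧ p ≤ L ^ 2 := by
                have h8 : (p + 2) * (p + 2) ≤ L * L := Nat.mul_le_mul hqL hqL
                rw [pow_two]
                constructor
                · apply Nat.le_sub_of_add_le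
                  nlinarith
                · nlinarith
              omega
            have h6 : k - L ^ 2 ≤ c := by omega
            rw [dbn_low h6, Nat.mul_add L]
            omega
          · have he : errT k m (ds t) c q = 0 := by
              unfold errT
              rw [if_neg hd]
            rw [he]
            omega
      · have h4 : errT k m (ds t) c q = 0 := by
          unfold errT
          rw [if_neg (by omega)]
        rw [h4, Nat.add_zero]
        refine h1.trans ?_
        refine Nat.add_le_add h3 ?_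
        by_cases h5 : m < ds t
        · rw [if_pos h5, if_pos (by omega)]
        · rw [if_neg h5]
          exact Nat.zero_le _

theorem nec_norun {W : Type} [AddCommGroup W] [Module (ZMod 2) W] [Finite W] {v : W → ℤ}
    {V s L : ℕ} (h : Gr v V) (hV : V < 2 ^ finrank (ZMod 2) W) (hL : NoRun V L)
    (hs : 1 ≤ s) (hds : s + 1 ≤ ds V) (hb : ∀ x, x ≠ 0 → v x ≤ s) :
    finrank (ZMod 2) W ≤ topcost (finrank (ZMod 2) W) V (s + 1) + (L ^ 3 + L ^ 2 + L) := by
  have h1 := crit_err h hV hs hds hb
  have h2 := err_norun (k := finrank (ZMod 2) W) (m := s + 1) hV hL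
  have h3 : (if s + 1 < ds V then L ^ 2 else 0) ≤ L ^ 2 := by
    split_ifs
    · exact le_rfl
    · exact Nat.zero_le _
  have h4 : ds (V / 2 ^ (finrank (ZMod 2) W - L ^ 2)) ≤ L ^ 2 := by
    rcases Nat.le_total (L ^ 2) (finrank (ZMod 2) W) with h5 | h5
    · apply ds_le_of_lt
      rw [Nat.div_lt_iff_lt_mul (by positivity), ← pow_add, Nat.add_sub_cancel' h5]
      exact hV
    · rw [Nat.sub_eq_zero_of_le h5, pow_zero, Nat.div_one]
      exact (ds_le_of_lt hV).trans h5
  have h5 : L * ds (V / 2 ^ (finrank (ZMod 2) W - L ^ 2)) ≤ L ^ 3 := by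
    have h6 : L ^ 3 = L * L ^ 2 := by ring
    rw [h6]
    exact Nat.mul_le_mul_left _ h4
  have h6 : tr (finrank (ZMod 2) W) V ≤ L := by
    by_contra hcon
    push Not at hcon
    have h7 : ∀ i < tr (finrank (ZMod 2) W) V,
        V.testBit (finrank (ZMod 2) W - 1 - i) = true :=
      Nat.findGreatest_spec
        (P := fun q => ∀ i < q, V.testBit (finrank (ZMod 2) W - 1 - i) = true)
        (m := 0) (n := finrank (ZMod 2) W) (Nat.zero_le _)
        (fun i hi => absurd hi (Nat.not_lt_zero i))
    have h8 : tr (finrank (ZMod 2) W) V ≤ finrank (ZMod 2) W := Nat.findGreatest_le _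
    apply hL (finrank (ZMod 2) W - L)
    intro i hi
    have h9 := h7 (L - 1 - i) (by omega)
    have h10 : finrank (ZMod 2) W - 1 - (L - 1 - i) = finrank (ZMod 2) W - L + i := by omega
    rw [h10] at h9
    exact h9
  have h7 : bonusV (finrank (ZMod 2) W) (s + 1) V ≤ L := by
    unfold bonusV
    split_ifs
    · omega
    · exact Nat.zero_le _
  omega

end Pool.Agent.GR72
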