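/-
GR72/DBWin: where the Solomon-Stiffler condition does not decide, short window (complete, from the
stubs of DBNec).
-/
import Pool.Agent.GR72.DBNec

namespace Pool.Agent.GR72

open Module

theorem bad_window2 {k s D L : ℕ} (hk : 1 ≤ k) (hs : 1 ≤ s) (hD : D < 2 ^ (k - 1))
    (hL1 : 1 ≤ L) (hL : NoRun D L)
    (h : ¬ (Attained k (s * 2 ^ (k - 1) - D) ↔ SSCond k s D)) :
    s + 1 ≤ ds D ∧ gsum (k - 1) (s + 1) D < k ∧
      k ≤ gsum (k - 1) (s + 1) D + (L ^ 3 + L ^ 2 + L) := by
  have hV := two_lt hk hD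
  by_cases hds : s + 1 ≤ ds D
  · have hss : ¬ SSCond k s D := fun hc => h ⟨fun _ => hc, fun _ => ss_suff hk hs hD hc⟩
    have hat : Attained k (s * 2 ^ (k - 1) - D) := by
      by_contra hc
      exact h ⟨fun ha => absurd ha hc, fun hs' => absurd hs' hss⟩
    have hg : topcost k (2 * D) (s + 1) = gsum (k - 1) (s + 1) D := by
      have := topcost_gsum hD hds
      rwa [Nat.sub_add_cancel hk] at this
    rw [ss_iff hk hD hds, hg, not_le] at hss
    refine ⟨hds, hss, ?_⟩
    obtain ⟨hd, -, hsd⟩ := sD_of hs hD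
    obtain ⟨C, hC⟩ := (attained_iff hk hd).1 hat
    obtain ⟨v, hv, hb⟩ := (code_to hk hsd hD hC).2 rfl
    haveI : Finite (Dual (ZMod 2) C) := inferInstance
    have hfr : finrank (ZMod 2) (Dual (ZMod 2) C) = k := by
      rw [finrank_dual_eq]; exact hC.1
    have := nec_norun hv (by rw [hfr]; exact hV) (norun_two_mul hL1 hL) hs
      (by rw [ds_two]; exact hds) hb
    rw [hfr, hg] at this
    exact this
  · exfalso
    apply h
    have h1 := ss_small hk hD (by omega : ds D ≤ s)
    exact ⟨fun _ => h1, fun _ => ss_suff hk hs hD h1⟩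

end Pool.Agent.GR72
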