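/-
GR72/DBFinal: the Solomon-Stiffler condition decides almost all pairs, exponent 3/4 (needs the
stubs of DBLocal, DBSmall, DBWin; the proof of almost_all in GR72/DAFinal is the model).
`n = k - 1`, `m = s + 1`, `L = 2 (Nat.log 2 k + 1)`, `R = L^3 + L^2 + L`.
* `window_card`: `m ≤ n`, `2 ≤ m`, `P = {D < 2^n | gsum < k ≤ gsum + R}`, `1 ≤ R`:
  `card P * k^(3/4) ≤ 1300 R 2^n`.
  (i) `k ≤ 16 m^2`: `M = m / 2 ≥ 1`, `m ≤ 3 M`, `k ≤ 144 M^2`, `k^(3/4) ≤ 12^(3/2) M^(3/2) ≤ 41.6 M^(3/2)`.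
  `P` is contained in the union of the sets `{gsum = a}`, `a < k ≤ a + R`, at most `R` values of `a`
  (`a = k - 1 - j`, `j < R`), each of cardinality times `M^(3/2)` at most `31 * 2^n` (local_count):
  `31 * 41.6 < 1290`.
  (ii) `16 m^2 < k`, `k ≤ 2 R`: `card P ≤ 2^n`, `k^(3/4) ≤ k ≤ 2 R`.
  (iii) `16 m^2 < k`, `2 R < k`: `T = k / (2 m)`, `m T ≤ k / 2 < k - R ≤ gsum` on `P`; `T ≤ n`
  (`4 T ≤ 2 m T ≤ k`, `T ≤ k - 1` for `k ≥ 2`), `8 m ≤ T` (`k < 2 m (T + 1)`, `16 m^2 < k`).  count_small and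
  pow_bound: `card P * T^2 ≤ 64 * 2^n`.  `k < 2 m (T + 1)` and `4 m < sqrt k` give `2 sqrt k < T + 1`, so
  `k^(3/4) ≤ T^2`.
* `almost_all2`: exceptional set in `{¬ NoRun D L} ∪ P` (bad_window2), first set times `k^(3/4)` at most
  `2^n` as in almost_all (`k^(3/4) ≤ k`).  `R ≤ (7/4) L^3` (`L ≥ 2`), `L ≤ 2 log k / log 2 + 2
  ≤ 2.886 (1 + log k)` (`Real.log_two_gt_d9`), `L^3 ≤ 24.04 (1 + log k)^3`,
  `1300 * 7/4 * 24.04 + 1 ≤ 54700`.
-/
import Pool.Agent.GR72.DBLocal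
import Pool.Agent.GR72.DBSmall
import Pool.Agent.GR72.DBWin
import Pool.Agent.GR72.DAOut

namespace Pool.Agent.GR72

theorem window_card {n m R : ℕ} (hm2 : 2 ≤ m) (hmn : m ≤ n) (hR : 1 ≤ R) :
    (((Finset.range (2 ^ n)).filter
      (fun D => gsum n m D < n + 1 ∧ n + 1 ≤ gsum n m D + R)).card : ℝ) *
        ((n : ℝ) + 1) ^ (3 / 4 : ℝ) ≤ 1300 * R * 2 ^ n := by
  set P := (Finset.range (2 ^ n)).filter
      (fun D => gsum n m D < n + 1 ∧ n + 1 ≤ gsum n m D + R) with hP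
  have hK1 : (1 : ℝ) ≤ (n : ℝ) + 1 := by
    have : (0 : ℝ) ≤ (n : ℝ) := Nat.cast_nonneg _
    linarith
  have hxk : ((n : ℝ) + 1) ^ (3 / 4 : ℝ) ≤ (n : ℝ) + 1 := by
    have : ((n : ℝ) + 1) ^ (3 / 4 : ℝ) ≤ ((n : ℝ) + 1) ^ (1 : ℝ) :=
      Real.rpow_le_rpow_of_exponent_le hK1 (by norm_num)
    rwa [Real.rpow_one] at this
  have hx0 : 0 ≤ ((n : ℝ) + 1) ^ (3 / 4 : ℝ) := by positivity
  have h2n : (0 : ℝ) < 2 ^ n := by positivity
  have hR1 : (1 : ℝ) ≤ R := by exact_mod_cast hR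
  rcases Nat.lt_or_ge (16 * m ^ 2) (n + 1) with hc | hc
  · rcases Nat.lt_or_ge (2 * R) (n + 1) with hd | hd
    · -- case (iii)
      obtain ⟨T, hT⟩ : ∃ T, T = (n + 1) / (2 * m) := ⟨_, rfl⟩
      have hm0 : 0 < 2 * m := by omega
      have hT1 : 2 * m * T ≤ n + 1 := by rw [hT]; exact Nat.mul_div_le _ _
      have hT2 : n + 1 < 2 * m * (T + 1) := by
        rw [hT]
        exact Nat.lt_mul_div_succ (n + 1) hm0
      have h8 : 8 * m ≤ T := by
        by_contra h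
        have h1 : T + 1 ≤ 8 * m := by omega
        have h2 : 2 * m * (T + 1) ≤ 2 * m * (8 * m) := Nat.mul_le_mul_left _ h1
        have h3 : 2 * m * (8 * m) = 16 * m ^ 2 := by ring
        omega
      have hTn : T ≤ n := by
        have h1 : 4 * T ≤ 2 * m * T := Nat.mul_le_mul_right _ (by omega)
        omega
      have hsub : P ⊆ (Finset.range (2 ^ n)).filter (fun D => m * T < gsum n m D) := by
        intro D hD
        rw [hP, Finset.mem_filter] at hD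
        rw [Finset.mem_filter]
        refine ⟨hD.1, ?_⟩
        have h1 : 2 * (m * T) ≤ n + 1 := by
          have : 2 * (m * T) = 2 * m * T := by ring
          omega
        omega
      have hcs := count_small (m := m) hTn
      have hpb := pow_bound h8
      have hkT : (n + 1) ≤ T ^ 2 := by
        have h1 : (n + 1) * (n + 1) < (2 * m * (T + 1)) * (2 * m * (T + 1)) :=
          Nat.mul_lt_mul'' hT2 hT2
        have h2 : 4 * ((2 * m * (T + 1)) * (2 * m * (T + 1))) = 16 * m ^ 2 * (T + 1) ^ 2 := by ring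
        have h3 : 16 * m ^ 2 * (T + 1) ^ 2 ≤ (n + 1) * (T + 1) ^ 2 :=
          Nat.mul_le_mul_right _ hc.le
        have h4 : (n + 1) * (4 * (n + 1)) < (n + 1) * (T + 1) ^ 2 := by
          calc (n + 1) * (4 * (n + 1)) = 4 * ((n + 1) * (n + 1)) := by ring
            _ < 4 * ((2 * m * (T + 1)) * (2 * m * (T + 1))) := by omega
            _ = 16 * m ^ 2 * (T + 1) ^ 2 := h2
            _ ≤ _ := h3
        have h5 : 4 * (n + 1) < (T + 1) ^ 2 := Nat.lt_of_mul_lt_mul_left h4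
        have h6 : (T + 1) ^ 2 ≤ (2 * T) ^ 2 := Nat.pow_le_pow_left (by omega) 2
        have h7 : (2 * T) ^ 2 = 4 * T ^ 2 := by ring
        omega
      have hcT : P.card * T ^ 2 ≤ 64 * 2 ^ n := by
        have h4T : 0 < 4 ^ T := by positivity
        have h1 : P.card * 4 ^ T ≤ 2 ^ n * (2 ^ m * 3 ^ T) :=
          (Nat.mul_le_mul_right _ (Finset.card_le_card hsub)).trans hcs
        have h2 : P.card * T ^ 2 * 4 ^ T ≤ 64 * 2 ^ n * 4 ^ T := by
          calc P.card * T ^ 2 * 4 ^ T = P.card * 4 ^ T * T ^ 2 := by ring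
            _ ≤ 2 ^ n * (2 ^ m * 3 ^ T) * T ^ 2 := Nat.mul_le_mul_right _ h1
            _ = 2 ^ n * (2 ^ m * 3 ^ T * T ^ 2) := by ring
            _ ≤ 2 ^ n * (64 * 4 ^ T) := Nat.mul_le_mul_left _ hpb
            _ = _ := by ring
        exact Nat.le_of_mul_le_mul_right h2 h4T
      have hcT' : (P.card : ℝ) * (T : ℝ) ^ 2 ≤ 64 * 2 ^ n := by exact_mod_cast hcT
      have hkT' : ((n : ℝ) + 1) ≤ (T : ℝ) ^ 2 := by exact_mod_cast hkT
      calc (P.card : ℝ) * ((n : ℝ) + 1) ^ (3 / 4 : ℝ) ≤ (P.card : ℝ) * (T : ℝ) ^ 2 :=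
            mul_le_mul_of_nonneg_left (hxk.trans hkT') (by positivity)
        _ ≤ 64 * 2 ^ n := hcT'
        _ ≤ 1300 * R * 2 ^ n := by
            apply mul_le_mul_of_nonneg_right _ h2n.le
            linarith
    · -- case (ii)
      have h1 : P.card ≤ 2 ^ n := by
        have := Finset.card_filter_le (Finset.range (2 ^ n))
          (fun D => gsum n m D < n + 1 ∧ n + 1 ≤ gsum n m D + R)
        rwa [Finset.card_range] at this
      have h1' : (P.card : ℝ) ≤ 2 ^ n := by exact_mod_cast h1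
      have h2 : ((n : ℝ) + 1) ≤ 2 * R := by exact_mod_cast hd
      calc (P.card : ℝ) * ((n : ℝ) + 1) ^ (3 / 4 : ℝ) ≤ 2 ^ n * (2 * R) :=
            mul_le_mul h1' (hxk.trans h2) hx0 h2n.le
        _ ≤ 1300 * R * 2 ^ n := by nlinarith
  · -- case (i)
    obtain ⟨M, hMe⟩ : ∃ M, M = m / 2 := ⟨_, rfl⟩
    have hM : 1 ≤ M := by omega
    have hMm : 2 * M ≤ m := by omega
    have hm3 : m ≤ 3 * M := by omega
    have hM1 : (1 : ℝ) ≤ M := by exact_mod_cast hM
    have hsub : P ⊆ (Finset.range R).biUnion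
        (fun j => (Finset.range (2 ^ n)).filter (fun D => gsum n m D = n - j)) := by
      intro D hD
      rw [hP, Finset.mem_filter] at hD
      rw [Finset.mem_biUnion]
      refine ⟨n - gsum n m D, ?_, ?_⟩
      · rw [Finset.mem_range]
        omega
      · rw [Finset.mem_filter]
        exact ⟨hD.1, by omega⟩
    have h1 : (P.card : ℝ) * (M : ℝ) ^ (3 / 2 : ℝ) ≤ R * (31 * 2 ^ n) := by
      have h2 : P.card ≤ ∑ j ∈ Finset.range R,
          ((Finset.range (2 ^ n)).filter (fun D => gsum n m D = n - j)).card :=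
        (Finset.card_le_card hsub).trans Finset.card_biUnion_le
      have h2' : (P.card : ℝ) ≤ ∑ j ∈ Finset.range R,
          (((Finset.range (2 ^ n)).filter (fun D => gsum n m D = n - j)).card : ℝ) := by
        exact_mod_cast h2
      calc (P.card : ℝ) * (M : ℝ) ^ (3 / 2 : ℝ) ≤ (∑ j ∈ Finset.range R,
          (((Finset.range (2 ^ n)).filter (fun D => gsum n m D = n - j)).card : ℝ)) *
            (M : ℝ) ^ (3 / 2 : ℝ) := mul_le_mul_of_nonneg_right h2' (by positivity)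
        _ = ∑ j ∈ Finset.range R,
          ((((Finset.range (2 ^ n)).filter (fun D => gsum n m D = n - j)).card : ℝ) *
            (M : ℝ) ^ (3 / 2 : ℝ)) := by rw [Finset.sum_mul]
        _ ≤ ∑ j ∈ Finset.range R, (31 * 2 ^ n : ℝ) :=
            Finset.sum_le_sum fun j _ => local_count hM hMm hmn
        _ = R * (31 * 2 ^ n) := by rw [Finset.sum_const, Finset.card_range, nsmul_eq_mul]
    have h12 : (12 : ℝ) ^ (3 / 2 : ℝ) ≤ 41.6 := by
      have h3 : ((12 : ℝ) ^ (3 / 2 : ℝ)) ^ 2 = 1728 := by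
        rw [← Real.rpow_natCast, ← Real.rpow_mul (by norm_num)]
        norm_num
      nlinarith [Real.rpow_nonneg (by norm_num : (0 : ℝ) ≤ 12) (3 / 2 : ℝ)]
    have h4 : ((n : ℝ) + 1) ^ (3 / 4 : ℝ) ≤ 41.6 * (M : ℝ) ^ (3 / 2 : ℝ) := by
      have h5 : (n : ℝ) + 1 ≤ (12 * (M : ℝ)) ^ (2 : ℝ) := by
        have h6 : n + 1 ≤ (12 * M) ^ 2 := by
          have h7 : m ^ 2 ≤ (3 * M) ^ 2 := Nat.pow_le_pow_left hm3 2
          have h8 : 16 * (3 * M) ^ 2 = (12 * M) ^ 2 := by ring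
          omega
        have h9 : (n : ℝ) + 1 ≤ (12 * (M : ℝ)) ^ 2 := by exact_mod_cast h6
        rw [Real.rpow_two]
        exact h9
      calc ((n : ℝ) + 1) ^ (3 / 4 : ℝ) ≤ ((12 * (M : ℝ)) ^ (2 : ℝ)) ^ (3 / 4 : ℝ) :=
            Real.rpow_le_rpow (by positivity) h5 (by norm_num)
        _ = (12 * (M : ℝ)) ^ (3 / 2 : ℝ) := by
            rw [← Real.rpow_mul (by positivity)]
            norm_num
        _ = (12 : ℝ) ^ (3 / 2 : ℝ) * (M : ℝ) ^ (3 / 2 : ℝ) :=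
            Real.mul_rpow (by norm_num) (by positivity)
        _ ≤ _ := mul_le_mul_of_nonneg_right h12 (by positivity)
    calc (P.card : ℝ) * ((n : ℝ) + 1) ^ (3 / 4 : ℝ)
        ≤ (P.card : ℝ) * (41.6 * (M : ℝ) ^ (3 / 2 : ℝ)) :=
          mul_le_mul_of_nonneg_left h4 (by positivity)
      _ = 41.6 * ((P.card : ℝ) * (M : ℝ) ^ (3 / 2 : ℝ)) := by ring
      _ ≤ 41.6 * (R * (31 * 2 ^ n)) := mul_le_mul_of_nonneg_left h1 (by norm_num)
      _ ≤ 1300 * R * 2 ^ n := by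
          have : (0 : ℝ) ≤ R * 2 ^ n := by positivity
          nlinarith

open Classical in
theorem almost_all2 {k s : ℕ} (hk : 1 ≤ k) (hs : 1 ≤ s) :
    (((Finset.range (2 ^ (k - 1))).filter (fun D =>
      ¬ (Attained k (s * 2 ^ (k - 1) - D) ↔ SSCond k s D))).card : ℝ) * (k : ℝ) ^ (3 / 4 : ℝ) ≤
        60000 * (1 + Real.log k) ^ 3 * 2 ^ (k - 1) := by
  obtain ⟨n, rfl⟩ : ∃ n, k = n + 1 := ⟨k - 1, by omega⟩
  have en : n + 1 - 1 = n := rfl
  rw [en]
  set L : ℕ := 2 * (Nat.log 2 (n + 1) + 1) with hL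
  have hL1 : 1 ≤ L := by omega
  have hL2 : 2 ≤ L := by omega
  set A := (Finset.range (2 ^ n)).filter (fun D => ¬ NoRun D L) with hA
  set P := (Finset.range (2 ^ n)).filter
      (fun D => gsum n (s + 1) D < n + 1 ∧ n + 1 ≤ gsum n (s + 1) D + (L ^ 3 + L ^ 2 + L)) with hP
  set B := (Finset.range (2 ^ n)).filter (fun D =>
      ¬ (Attained (n + 1) (s * 2 ^ n - D) ↔ SSCond (n + 1) s D)) with hB
  set x : ℝ := (((n + 1 : ℕ) : ℕ) : ℝ) ^ (3 / 4 : ℝ) with hx
  have hk1 : (1 : ℝ) ≤ ((n + 1 : ℕ) : ℝ) := by exact_mod_cast hk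
  have hx0 : 0 ≤ x := by positivity
  have hxk : x ≤ ((n + 1 : ℕ) : ℝ) := by
    have : x ≤ ((n + 1 : ℕ) : ℝ) ^ (1 : ℝ) :=
      Real.rpow_le_rpow_of_exponent_le hk1 (by norm_num)
    rwa [Real.rpow_one] at this
  have h2n : (0 : ℝ) < 2 ^ n := by positivity
  -- the first set
  have hAx : (A.card : ℝ) * x ≤ 2 ^ n := by
    have h1 : A.card * 2 ^ L ≤ n * 2 ^ n := count_long hL1
    have h2 : (n + 1) ^ 2 ≤ 2 ^ L := by
      have h3 : n + 1 < 2 ^ (Nat.log 2 (n + 1) + 1) := Nat.lt_pow_succ_log_self (by norm_num) _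
      calc (n + 1) ^ 2 ≤ (2 ^ (Nat.log 2 (n + 1) + 1)) ^ 2 := Nat.pow_le_pow_left h3.le 2
        _ = 2 ^ L := by rw [← pow_mul, hL, mul_comm]
    have h4 : A.card * (n + 1) ^ 2 ≤ (n + 1) * 2 ^ n := by
      calc A.card * (n + 1) ^ 2 ≤ A.card * 2 ^ L := Nat.mul_le_mul_left _ h2
        _ ≤ n * 2 ^ n := h1
        _ ≤ (n + 1) * 2 ^ n := Nat.mul_le_mul_right _ (by omega)
    have h5 : A.card * (n + 1) ≤ 2 ^ n := by
      have h6 : (n + 1) * (A.card * (n + 1)) ≤ (n + 1) * 2 ^ n := by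
        calc (n + 1) * (A.card * (n + 1)) = A.card * (n + 1) ^ 2 := by ring
          _ ≤ _ := h4
      exact Nat.le_of_mul_le_mul_left h6 (by omega)
    have h7 : (A.card : ℝ) * ((n + 1 : ℕ) : ℝ) ≤ 2 ^ n := by exact_mod_cast h5
    calc (A.card : ℝ) * x ≤ (A.card : ℝ) * ((n + 1 : ℕ) : ℝ) :=
          mul_le_mul_of_nonneg_left hxk (by positivity)
      _ ≤ 2 ^ n := h7
  -- the constant
  have hl0 : 0 ≤ Real.log ((n + 1 : ℕ) : ℝ) := Real.log_nonneg hk1
  have hLl : (L : ℝ) ≤ 2.886 * (1 + Real.log ((n + 1 : ℕ) : ℝ)) := by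
    have h1 : ((Nat.log 2 (n + 1) : ℕ) : ℝ) * Real.log 2 ≤ Real.log ((n + 1 : ℕ) : ℝ) := by
      rw [← Real.log_pow]
      apply Real.log_le_log (by positivity)
      have := Nat.pow_log_le_self 2 (x := n + 1) (by omega)
      exact_mod_cast this
    have h2 := Real.log_two_gt_d9
    have h3 : (0 : ℝ) ≤ ((Nat.log 2 (n + 1) : ℕ) : ℝ) := by positivity
    have h4 : (L : ℝ) = 2 * (((Nat.log 2 (n + 1) : ℕ) : ℝ) + 1) := by
      rw [hL]; push_cast; ring
    rw [h4]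
    nlinarith
  have hconst : (1 + 1300 * ((L ^ 3 + L ^ 2 + L : ℕ) : ℝ)) ≤
      60000 * (1 + Real.log ((n + 1 : ℕ) : ℝ)) ^ 3 := by
    have h2L : (2 : ℝ) ≤ L := by exact_mod_cast hL2
    set u : ℝ := 1 + Real.log ((n + 1 : ℕ) : ℝ) with hu
    have hu1 : 1 ≤ u := by linarith
    have h3 : (L : ℝ) ^ 3 ≤ (2.886 * u) ^ 3 := pow_le_pow_left₀ (by positivity) hLl 3
    have h4 : (2.886 * u) ^ 3 ≤ 24.04 * u ^ 3 := by
      have : (0 : ℝ) ≤ u ^ 3 := by positivity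
      nlinarith
    have h5 : (1 : ℝ) ≤ u ^ 3 := one_le_pow₀ hu1
    have h6 : (L : ℝ) ^ 2 ≤ L ^ 3 / 2 := by nlinarith [sq_nonneg (L : ℝ)]
    have h7 : (L : ℝ) ≤ L ^ 3 / 4 := by nlinarith [sq_nonneg (L : ℝ)]
    push_cast
    linarith
  have hcard : (B.card : ℝ) * x ≤ (1 + 1300 * ((L ^ 3 + L ^ 2 + L : ℕ) : ℝ)) * 2 ^ n := by
    by_cases hmn : s + 1 ≤ n
    · have hsub : B ⊆ A ∪ P := by
        intro D hD
        rw [hB, Finset.mem_filter] at hD
        rw [Finset.mem_union]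
        by_cases hN : NoRun D L
        · right
          have := bad_window2 hk hs (by simpa using hD.1) hL1 hN hD.2
          rw [hP, Finset.mem_filter]
          exact ⟨hD.1, this.2.1, this.2.2⟩
        · left
          rw [hA, Finset.mem_filter]
          exact ⟨hD.1, hN⟩
      have h1 : (B.card : ℝ) ≤ A.card + P.card := by
        exact_mod_cast (Finset.card_le_card hsub).trans (Finset.card_union_le _ _)
      have hPx : (P.card : ℝ) * x ≤ 1300 * ((L ^ 3 + L ^ 2 + L : ℕ) : ℝ) * 2 ^ n := by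
        have hxx : x = ((n : ℝ) + 1) ^ (3 / 4 : ℝ) := by
          rw [hx]; push_cast; rfl
        rw [hxx]
        exact window_card (by omega) hmn (by omega)
      calc (B.card : ℝ) * x ≤ ((A.card : ℝ) + P.card) * x := mul_le_mul_of_nonneg_right h1 hx0
        _ = (A.card : ℝ) * x + (P.card : ℝ) * x := by ring
        _ ≤ 2 ^ n + 1300 * ((L ^ 3 + L ^ 2 + L : ℕ) : ℝ) * 2 ^ n := add_le_add hAx hPx
        _ = _ := by ring
    · have hsub : B ⊆ A := by
        intro D hD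
        rw [hB, Finset.mem_filter] at hD
        rw [hA, Finset.mem_filter]
        refine ⟨hD.1, fun hN => ?_⟩
        have h1 := bad_window2 hk hs (by simpa using hD.1) hL1 hN hD.2
        have h2 := ds_le_of_lt (Finset.mem_range.1 hD.1)
        omega
      have h1 : (B.card : ℝ) ≤ A.card := by exact_mod_cast Finset.card_le_card hsub
      calc (B.card : ℝ) * x ≤ (A.card : ℝ) * x := mul_le_mul_of_nonneg_right h1 hx0
        _ ≤ 1 * 2 ^ n := by linarith
        _ ≤ _ := by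
            apply mul_le_mul_of_nonneg_right _ h2n.le
            have : (0 : ℝ) ≤ ((L ^ 3 + L ^ 2 + L : ℕ) : ℝ) := by positivity
            linarith
  exact hcard.trans (mul_le_mul_of_nonneg_right hconst h2n.le)

open Classical in
theorem almost_all2_d {k s : ℕ} (hk : 1 ≤ k) (hs : 1 ≤ s) :
    (((Finset.Ioc ((s - 1) * 2 ^ (k - 1)) (s * 2 ^ (k - 1))).filter
      (fun d => ¬ (Attained k d ↔ BelovCond k d))).card : ℝ) * (k : ℝ) ^ (3 / 4 : ℝ) ≤
        60000 * (1 + Real.log k) ^ 3 * 2 ^ (k - 1) := by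
  refine le_trans (mul_le_mul_of_nonneg_right ?_ (by positivity)) (almost_all2 hk hs)
  exact_mod_cast block_card_le hs

end Pool.Agent.GR72
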