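/-
GR72/DBTrig: bounds for a product of cosines (Mathlib only).
`(1 + |cos t|) / 2 ≤ 1 - sin² t / 4 ≤ exp (- sin² t / 4)`: with `c = |cos t| ∈ [0, 1]`,
`1 - c ≥ (1 - c)(1 + c) / 2 = sin² t / 2`.  So the product is at most `exp (- Q / 4)` with
`Q = ∑_{i<M} sin² (π (2 i + 1) θ)`.
* `prod_le_small`: `0 ≤ π (2 i + 1) θ ≤ π / 2`, so `sin (π (2 i + 1) θ) ≥ 2 (2 i + 1) θ`
  (`Real.mul_le_sin`), `Q ≥ 4 θ² ∑ (2 i + 1)² ≥ 4 θ² M³` (`∑_{i<M} (2 i + 1)² = M (4 M² - 1) / 3`).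
* `prod_le_large`: `Q ≥ M / 4`.  `sin² a = (1 - cos (2 a)) / 2`, so `Q = M / 2 - C / 2` with
  `C = ∑_{i<M} cos ((2 i + 1) φ)`, `φ = 2 π θ ∈ [π / (2 M), π]`, and `2 sin φ * C = sin (2 M φ)`
  (telescoping, induction on `M`).
  (i) `φ ≤ π - π / (2 M)`: `sin φ ≥ sin (π / (2 M)) ≥ 1 / M`, so `|C| ≤ M / 2`.
  (ii) `φ = π - ψ` with `0 ≤ ψ ≤ π / (2 M)`: `cos ((2 i + 1) φ) = - cos ((2 i + 1) ψ)`, and
  `2 sin ψ * ∑ cos ((2 i + 1) ψ) = sin (2 M ψ) ≥ 0`; for `ψ = 0` `C = - M`.  So `C ≤ 0`.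
-/
import Mathlib

namespace Pool.Agent.GR72

private theorem dt_factor (t : ℝ) : (1 + |Real.cos t|) / 2 ≤ Real.exp (-(Real.sin t ^ 2 / 4)) := by
  have h1 : |Real.cos t| ≤ 1 := Real.abs_cos_le_one t
  have h2 : |Real.cos t| ^ 2 = 1 - Real.sin t ^ 2 := by
    rw [sq_abs]
    have := Real.sin_sq_add_cos_sq t
    linarith
  have h3 := Real.add_one_le_exp (-(Real.sin t ^ 2 / 4))
  have h0 : 0 ≤ |Real.cos t| := abs_nonneg _
  nlinarith

private theorem dt_prod (M : ℕ) (θ : ℝ) :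
    ∏ i ∈ Finset.range M, (1 + |Real.cos (Real.pi * (2 * (i : ℝ) + 1) * θ)|) / 2 ≤
      Real.exp (-((∑ i ∈ Finset.range M, Real.sin (Real.pi * (2 * (i : ℝ) + 1) * θ) ^ 2) / 4)) := by
  rw [Finset.sum_div, ← Finset.sum_neg_distrib, Real.exp_sum]
  exact Finset.prod_le_prod (fun i _ => by positivity) fun i _ => dt_factor _

private theorem dt_cube (M : ℕ) : (M : ℝ) ^ 3 ≤ ∑ i ∈ Finset.range M, (2 * (i : ℝ) + 1) ^ 2 := by
  induction M with
  | zero => simp
  | succ M ih =>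
    rw [Finset.sum_range_succ]
    push_cast
    have : (0 : ℝ) ≤ M := Nat.cast_nonneg M
    nlinarith

private theorem dt_tele (M : ℕ) (φ : ℝ) :
    2 * Real.sin φ * ∑ i ∈ Finset.range M, Real.cos ((2 * (i : ℝ) + 1) * φ) =
      Real.sin (2 * M * φ) := by
  induction M with
  | zero => simp
  | succ M ih =>
    rw [Finset.sum_range_succ, mul_add, ih]
    push_cast
    have e1 : 2 * ((M : ℝ) + 1) * φ = (2 * M + 1) * φ + φ := by ring
    have e2 : 2 * (M : ℝ) * φ = (2 * M + 1) * φ - φ := by ring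
    rw [e1, e2, Real.sin_add, Real.sin_sub]
    ring

private theorem dt_C {M : ℕ} (hM : 1 ≤ M) {φ : ℝ} (h1 : Real.pi / (2 * M) ≤ φ)
    (h2 : φ ≤ Real.pi) :
    ∑ i ∈ Finset.range M, Real.cos ((2 * (i : ℝ) + 1) * φ) ≤ M / 2 := by
  have hpi := Real.pi_pos
  have hM0 : (0 : ℝ) < M := by exact_mod_cast hM
  have ht := dt_tele M φ
  set C := ∑ i ∈ Finset.range M, Real.cos ((2 * (i : ℝ) + 1) * φ) with hC
  have key : 1 / (M : ℝ) ≤ Real.sin φ → C ≤ M / 2 := by
    intro hs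
    have h3 : Real.sin (2 * M * φ) ≤ 1 := Real.sin_le_one _
    by_contra hc
    push Not at hc
    have h4 : 1 ≤ M * Real.sin φ := by
      rw [div_le_iff₀ hM0] at hs
      linarith
    have h5 : 0 < Real.sin φ := lt_of_lt_of_le (by positivity) hs
    have h6 : 2 * Real.sin φ * (M / 2) < 2 * Real.sin φ * C := by
      apply mul_lt_mul_of_pos_left hc
      positivity
    rw [ht] at h6
    nlinarith
  have hge : ∀ x : ℝ, Real.pi / (2 * M) ≤ x → x ≤ Real.pi / 2 → 1 / (M : ℝ) ≤ Real.sin x := by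
    intro x hx hx2
    have hx0 : 0 ≤ x := le_trans (by positivity) hx
    refine le_trans ?_ (Real.mul_le_sin hx0 hx2)
    calc 1 / (M : ℝ) = 2 / Real.pi * (Real.pi / (2 * M)) := by field_simp
      _ ≤ 2 / Real.pi * x := mul_le_mul_of_nonneg_left hx (by positivity)
  by_cases hφ : φ ≤ Real.pi / 2
  · exact key (hge φ h1 hφ)
  · push Not at hφ
    by_cases hψ : Real.pi / (2 * M) ≤ Real.pi - φ
    · apply key
      rw [← Real.sin_pi_sub]
      exact hge _ hψ (by linarith)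
    · push Not at hψ
      have hle : C ≤ 0 := by
        have h3 : 0 ≤ Real.sin (2 * M * (Real.pi - φ)) := by
          apply Real.sin_nonneg_of_nonneg_of_le_pi
          · have : 0 ≤ Real.pi - φ := by linarith
            positivity
          · rw [lt_div_iff₀ (by positivity)] at hψ
            linarith
        have h4 : Real.sin (2 * M * φ) = -Real.sin (2 * M * (Real.pi - φ)) := by
          have e : 2 * (M : ℝ) * (Real.pi - φ) = M * (2 * Real.pi) - 2 * M * φ := by ring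
          rw [e, Real.sin_nat_mul_two_pi_sub, neg_neg]
        rw [h4] at ht
        rcases (Real.sin_nonneg_of_nonneg_of_le_pi (x := φ)
          (le_trans (by positivity) h1) h2).eq_or_lt with h5 | h5
        · have h6 : φ = Real.pi := by
            by_contra hne
            have := Real.sin_pos_of_pos_of_lt_pi (x := φ) (by linarith) (lt_of_le_of_ne h2 hne)
            linarith
          rw [hC, h6]
          refine Finset.sum_nonpos fun i _ => ?_
          have e : (2 * (i : ℝ) + 1) * Real.pi = Real.pi + i * (2 * Real.pi) := by ring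
          rw [e, Real.cos_add_nat_mul_two_pi, Real.cos_pi]
          norm_num
        · by_contra hc
          push Not at hc
          have : 0 < 2 * Real.sin φ * C := by positivity
          linarith
      linarith [show (0 : ℝ) ≤ M / 2 by positivity]

theorem prod_le_small {M : ℕ} {θ : ℝ} (h0 : 0 ≤ θ) (h1 : θ * (4 * M) ≤ 1) :
    ∏ i ∈ Finset.range M, (1 + |Real.cos (Real.pi * (2 * (i : ℝ) + 1) * θ)|) / 2 ≤
      Real.exp (-((M : ℝ) ^ 3 * θ ^ 2)) := by
  refine (dt_prod M θ).trans (Real.exp_le_exp.2 ?_)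
  have hpi := Real.pi_pos
  have h2 : ∑ i ∈ Finset.range M, 4 * θ ^ 2 * (2 * (i : ℝ) + 1) ^ 2 ≤
      ∑ i ∈ Finset.range M, Real.sin (Real.pi * (2 * (i : ℝ) + 1) * θ) ^ 2 := by
    refine Finset.sum_le_sum fun i hi => ?_
    have hiM : (i : ℝ) + 1 ≤ M := by
      exact_mod_cast Finset.mem_range.1 hi
    have hi0 : (0 : ℝ) ≤ i := Nat.cast_nonneg i
    have h3 : (2 * (i : ℝ) + 1) * θ ≤ 1 / 2 := by nlinarith
    have h4 : 0 ≤ Real.pi * (2 * (i : ℝ) + 1) * θ := by positivity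
    have h5 : Real.pi * (2 * (i : ℝ) + 1) * θ ≤ Real.pi / 2 := by nlinarith
    have h6 := Real.mul_le_sin h4 h5
    have h7 : 2 / Real.pi * (Real.pi * (2 * (i : ℝ) + 1) * θ) = 2 * (2 * (i : ℝ) + 1) * θ := by
      field_simp
    rw [h7] at h6
    have h8 : 0 ≤ 2 * (2 * (i : ℝ) + 1) * θ := by positivity
    calc 4 * θ ^ 2 * (2 * (i : ℝ) + 1) ^ 2 = (2 * (2 * (i : ℝ) + 1) * θ) ^ 2 := by ring
      _ ≤ _ := pow_le_pow_left₀ h8 h6 2
  rw [← Finset.mul_sum] at h2
  have h3 := mul_le_mul_of_nonneg_left (dt_cube M) (by positivity : (0 : ℝ) ≤ 4 * θ ^ 2)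
  linarith

theorem prod_le_large {M : ℕ} {θ : ℝ} (h1 : 1 ≤ θ * (4 * M)) (h2 : θ ≤ 1 / 2) :
    ∏ i ∈ Finset.range M, (1 + |Real.cos (Real.pi * (2 * (i : ℝ) + 1) * θ)|) / 2 ≤
      Real.exp (-((M : ℝ) / 16)) := by
  refine (dt_prod M θ).trans (Real.exp_le_exp.2 ?_)
  have hpi := Real.pi_pos
  have hM : 1 ≤ M := by
    rcases Nat.eq_zero_or_pos M with h | h
    · rw [h] at h1
      norm_num at h1
    · exact h
  have hM0 : (0 : ℝ) < M := by exact_mod_cast hM
  have e : ∀ i : ℕ, Real.sin (Real.pi * (2 * (i : ℝ) + 1) * θ) ^ 2 =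
      1 / 2 - Real.cos ((2 * (i : ℝ) + 1) * (2 * Real.pi * θ)) / 2 := by
    intro i
    rw [Real.sin_sq_eq_half_sub]
    congr 3
    ring
  simp only [e]
  rw [Finset.sum_sub_distrib, Finset.sum_const, Finset.card_range, ← Finset.sum_div, nsmul_eq_mul]
  have h3 := dt_C hM (φ := 2 * Real.pi * θ) (by
    rw [div_le_iff₀ (by positivity)]
    nlinarith) (by nlinarith)
  linarith

end Pool.Agent.GR72
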