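/-
GR72/DBInt: the integral is `O(M^(-3/2))` (needs the stubs of DBTrig; DBDefs).
Let `f` be the integrand, `0 ≤ f`, continuous, `f (1 - θ) = f θ` (`cos (π (2 i + 1) - x) = - cos x`), so
`FI M = 2 ∫_0^(1/2) f`.  On `[0, 1/(4M)]`: prod_le_small, `∫ exp (-M³ θ²) ≤ sqrt (π / M³) / 2`
(`integral_gaussian` for the whole line: `∫ exp (-b x²) = sqrt (π / b)`, and half of it, or simply
bound the integral over `[0, 1/(4M)]` by the integral over the whole line).  On `[1/(4M), 1/2]`:
prod_le_large, `≤ exp (-M/16) / 2`.  So `FI M ≤ 2 sqrt (π / M³) + exp (-M/16)` (with the crude version),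
and times `M^(3/2)`: `2 sqrt π ≤ 3.6`, and `M^(3/2) exp (-M/16) ≤ 27` (with `y = M/16`:
`M^(3/2) exp(-M/16) = 64 y^(3/2) exp (-y)`, `y^(3/2) e^(-y) ≤ (3/2)^(3/2) e^(-3/2) < 0.411`; e.g. from
`y^3 e^(-2y) ≤ (3/(2e))^3`, i.e. `t ≤ exp (t - 1)` for `t = 2 y / 3`, cubed).  Total `≤ 31`.
-/
import Pool.Agent.GR72.DBTrig
import Pool.Agent.GR72.DBDefs

namespace Pool.Agent.GR72

/-- the integrand -/
private noncomputable def fi (M : ℕ) (θ : ℝ) : ℝ :=
  ∏ i ∈ Finset.range M, (1 + |Real.cos (Real.pi * (2 * (i : ℝ) + 1) * θ)|) / 2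

private theorem fi_cont (M : ℕ) : Continuous (fi M) := by
  unfold fi
  refine continuous_finsetProd _ fun i _ => ?_
  fun_prop

private theorem fi_symm (M : ℕ) (θ : ℝ) : fi M (1 - θ) = fi M θ := by
  unfold fi
  refine Finset.prod_congr rfl fun i _ => ?_
  have e : Real.pi * (2 * (i : ℝ) + 1) * (1 - θ) =
      Real.pi - Real.pi * (2 * (i : ℝ) + 1) * θ + i * (2 * Real.pi) := by ring
  rw [e, Real.cos_add_nat_mul_two_pi, Real.cos_pi_sub, abs_neg]

theorem FI_le {M : ℕ} (hM : 1 ≤ M) : FI M * (M : ℝ) ^ (3 / 2 : ℝ) ≤ 31 := by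
  have hM0 : (0 : ℝ) < M := by exact_mod_cast hM
  have hpi := Real.pi_pos
  have hint : ∀ a b : ℝ, IntervalIntegrable (fi M) MeasureTheory.volume a b :=
    fun a b => (fi_cont M).intervalIntegrable a b
  have e1 : FI M = 2 * ∫ θ in (0 : ℝ)..1 / 2, fi M θ := by
    have h1 : FI M = ∫ θ in (0 : ℝ)..1, fi M θ := rfl
    have h2 : ∫ θ in (1 / 2 : ℝ)..1, fi M θ = ∫ θ in (0 : ℝ)..1 / 2, fi M θ := by
      have h3 := intervalIntegral.integral_comp_sub_left (a := 0) (b := 1 / 2) (fi M) 1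
      simp only [fi_symm] at h3
      rw [h3]
      norm_num
    rw [h1, ← intervalIntegral.integral_add_adjacent_intervals (hint 0 (1 / 2)) (hint (1 / 2) 1),
      h2]
    ring
  set b : ℝ := (M : ℝ) ^ 3 with hb
  have hb0 : 0 < b := by positivity
  have hg : MeasureTheory.Integrable (fun θ : ℝ => Real.exp (-b * θ ^ 2)) :=
    integrable_exp_neg_mul_sq hb0
  have e2 : ∫ θ in (0 : ℝ)..1 / 2, fi M θ ≤ √(Real.pi / b) + Real.exp (-((M : ℝ) / 16)) / 2 := by
    have h1 : ∫ θ in (0 : ℝ)..1 / 2, fi M θ ≤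
        ∫ θ in (0 : ℝ)..1 / 2, (Real.exp (-b * θ ^ 2) + Real.exp (-((M : ℝ) / 16))) := by
      refine intervalIntegral.integral_mono_on (by norm_num) (hint _ _) ?_ fun θ hθ => ?_
      · exact (by fun_prop : Continuous fun θ : ℝ =>
          Real.exp (-b * θ ^ 2) + Real.exp (-((M : ℝ) / 16))).intervalIntegrable _ _
      · rcases le_total (θ * (4 * M)) 1 with h | h
        · have h2 := prod_le_small hθ.1 h
          have h3 := Real.exp_pos (-((M : ℝ) / 16))
          have e : -((M : ℝ) ^ 3 * θ ^ 2) = -b * θ ^ 2 := by rw [hb]; ring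
          rw [e] at h2
          have h4 : fi M θ ≤ Real.exp (-b * θ ^ 2) := h2
          linarith
        · have h2 := prod_le_large h hθ.2
          have h3 := Real.exp_pos (-b * θ ^ 2)
          have h4 : fi M θ ≤ Real.exp (-((M : ℝ) / 16)) := h2
          linarith
    have h2 : ∫ θ in (0 : ℝ)..1 / 2, Real.exp (-b * θ ^ 2) ≤ √(Real.pi / b) := by
      rw [← integral_gaussian b, intervalIntegral.integral_of_le (by norm_num)]
      exact MeasureTheory.setIntegral_le_integral hg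
        (Filter.Eventually.of_forall fun θ => (Real.exp_pos _).le)
    have i1 : IntervalIntegrable (fun θ : ℝ => Real.exp (-b * θ ^ 2)) MeasureTheory.volume 0
      (1 / 2) := hg.intervalIntegrable
    have i2 : IntervalIntegrable (fun _ : ℝ => Real.exp (-((M : ℝ) / 16))) MeasureTheory.volume 0
      (1 / 2) := continuous_const.intervalIntegrable _ _
    rw [intervalIntegral.integral_add i1 i2, intervalIntegral.integral_const, smul_eq_mul] at h1
    linarith
  set a : ℝ := (M : ℝ) ^ (3 / 2 : ℝ) with ha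
  have ha0 : 0 < a := Real.rpow_pos_of_pos hM0 _
  have ha2 : a ^ 2 = b := by
    rw [ha, hb, ← Real.rpow_natCast, ← Real.rpow_mul hM0.le, ← Real.rpow_natCast]
    norm_num
  have e3 : √(Real.pi / b) = √Real.pi / a := by
    rw [Real.sqrt_div hpi.le, ← ha2, Real.sqrt_sq ha0.le]
  have h4 : √Real.pi ≤ 1.8 := by
    rw [Real.sqrt_le_left (by norm_num)]
    have := Real.pi_lt_d2
    norm_num at this ⊢
    linarith
  have h5 : a * Real.exp (-((M : ℝ) / 16)) ≤ 27 := by
    have h6 : a ≤ 27 * Real.exp ((M : ℝ) / 16) := by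
      apply le_of_sq_le_sq _ (by positivity)
      rw [ha2, mul_pow, ← Real.exp_nat_mul, hb]
      have h7 := Real.add_one_le_exp ((M : ℝ) / 24 - 1)
      have h8 : (M : ℝ) / 24 ≤ Real.exp ((M : ℝ) / 24 - 1) := by linarith
      have h9 : ((M : ℝ) / 24) ^ 3 ≤ Real.exp ((M : ℝ) / 24 - 1) ^ 3 :=
        pow_le_pow_left₀ (by positivity) h8 3
      rw [← Real.exp_nat_mul] at h9
      have e : ((3 : ℕ) : ℝ) * ((M : ℝ) / 24 - 1) = ((2 : ℕ) : ℝ) * ((M : ℝ) / 16) - 3 := by
        push_cast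
        ring
      rw [e, Real.exp_sub] at h9
      have h10 : (20 : ℝ) ≤ Real.exp 3 := by
        have h11 : Real.exp 3 = Real.exp 1 ^ 3 := by
          rw [← Real.exp_nat_mul]
          norm_num
        rw [h11]
        have h12 := Real.exp_one_gt_d9
        have h13 : (2.7182818283 : ℝ) ^ 3 ≤ Real.exp 1 ^ 3 :=
          pow_le_pow_left₀ (by norm_num) h12.le 3
        norm_num at h13 ⊢
        linarith
      have h14 : Real.exp (((2 : ℕ) : ℝ) * ((M : ℝ) / 16)) / Real.exp 3 ≤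
          Real.exp (((2 : ℕ) : ℝ) * ((M : ℝ) / 16)) / 20 :=
        div_le_div_of_nonneg_left (Real.exp_pos _).le (by norm_num) h10
      have h15 := Real.exp_pos (((2 : ℕ) : ℝ) * ((M : ℝ) / 16))
      have h16 : (M : ℝ) ^ 3 = 13824 * ((M : ℝ) / 24) ^ 3 := by ring
      rw [h16]
      linarith
    calc a * Real.exp (-((M : ℝ) / 16)) ≤
        27 * Real.exp ((M : ℝ) / 16) * Real.exp (-((M : ℝ) / 16)) :=
          mul_le_mul_of_nonneg_right h6 (Real.exp_pos _).le
      _ = 27 := by rw [mul_assoc, ← Real.exp_add]; simp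
  have h6 : FI M ≤ 2 * (√Real.pi / a) + Real.exp (-((M : ℝ) / 16)) := by
    rw [e1, ← e3]
    linarith
  have h7 := mul_le_mul_of_nonneg_right h6 ha0.le
  have h8 : (2 * (√Real.pi / a) + Real.exp (-((M : ℝ) / 16))) * a =
      2 * √Real.pi + a * Real.exp (-((M : ℝ) / 16)) := by
    field_simp
  rw [h8] at h7
  linarith

end Pool.Agent.GR72
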