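/-
GR72/DBSplit: the highest digits in `gsum` (needs DBDefs, Digits, DACost: ds_div_le).
* `sum_ds_div`: a one at position `i` of `A` is counted by `ds (A / 2^l)` for `1 ≤ l ≤ i`.  Induction on
  `N` with `A = 2 A' + b` (`Nat.even_or_odd'`, ds_two_mul, ds_two_mul_add_one,
  `Nat.bitIndices_two_mul`, `Nat.bitIndices_two_mul_add_one`): the sum is
  `ds A' + ∑_{1 ≤ l ≤ N-1} ds (A' / 2^l)` (see gsum_step in GR72/DACost for the splitting of the sum) and
  `wsum A = wsum A' + ds A'` (all positions of ones of `A'` are shifted by one, a new one is at `0`).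
* `gsum_split`: split `Icc 1 n` at `n - N`.  For `i ≤ n - N`:
  `(2^(n-N) A + B) / 2^i = 2^(n-N-i) A + B / 2^i`, `ds` is additive (ds_two_pow_mul_add, `B / 2^i < 2^(n-N-i)`).
  For `i = n - N + l`, `1 ≤ l ≤ N`: the quotient is `A / 2^l`, `ds (A / 2^l) ≤ N ≤ m` (ds_le_of_lt in
  GR72/DAFinal, or prove `ds A ≤ N` for `A < 2^N` again), so
  `∑_l (m - ds (A / 2^l)) + wsum A = N m` by sum_ds_div.
-/
import Pool.Agent.GR72.DBDefs
import Pool.Agent.GR72.DACost

namespace Pool.Agent.GR72

private theorem wsum_two_mul (A : ℕ) : wsum (2 * A) = wsum A + ds A := by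
  unfold wsum ds
  rw [Nat.bitIndices_two_mul, List.sum_map_add]
  simp

private theorem wsum_two_mul_add_one (A : ℕ) : wsum (2 * A + 1) = wsum A + ds A := by
  unfold wsum ds
  rw [Nat.bitIndices_two_mul_add_one, List.sum_cons, List.sum_map_add]
  simp

private theorem dsle {N A : ℕ} (h : A < 2 ^ N) : ds A ≤ N := by
  induction N generalizing A with
  | zero =>
    have : A = 0 := by simpa using h
    rw [this, ds_zero]
  | succ N ih =>
    rw [pow_succ] at h
    rcases Nat.even_or_odd' A with ⟨A', rfl | rfl⟩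
    · rw [ds_two_mul]
      have := ih (A := A') (by omega)
      omega
    · rw [ds_two_mul_add_one]
      have := ih (A := A') (by omega)
      omega

private theorem sum_Icc_range (N : ℕ) (f : ℕ → ℕ) :
    ∑ i ∈ Finset.Icc 1 N, f i = ∑ i ∈ Finset.range N, f (i + 1) := by
  have h1 : Finset.Icc 1 N = Finset.Ico 1 (N + 1) := by
    ext x
    simp only [Finset.mem_Icc, Finset.mem_Ico]
    omega
  rw [h1, Finset.sum_Ico_eq_sum_range, Nat.add_sub_cancel]
  exact Finset.sum_congr rfl fun i _ => by rw [Nat.add_comm 1 i]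

theorem sum_ds_div {N A : ℕ} (hA : A < 2 ^ N) :
    ∑ l ∈ Finset.Icc 1 N, ds (A / 2 ^ l) = wsum A := by
  rw [sum_Icc_range]
  induction N generalizing A with
  | zero =>
    have : A = 0 := by simpa using hA
    rw [this]
    simp [wsum]
  | succ N ih =>
    have hA2 : A / 2 < 2 ^ N := by
      rw [pow_succ] at hA
      omega
    rw [Finset.sum_range_succ']
    have h2 : ∀ i, A / 2 ^ (i + 1 + 1) = A / 2 / 2 ^ (i + 1) := by
      intro i
      rw [pow_succ' 2 (i + 1), Nat.div_div_eq_div_mul]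
    simp only [h2]
    rw [ih hA2, Nat.zero_add, pow_one]
    rcases Nat.even_or_odd' A with ⟨A', rfl | rfl⟩
    · have e : 2 * A' / 2 = A' := by omega
      rw [e, wsum_two_mul]
    · have e : (2 * A' + 1) / 2 = A' := by omega
      rw [e, wsum_two_mul_add_one]

theorem gsum_split {n N m A B : ℕ} (hNm : N ≤ m) (hNn : N ≤ n) (hA : A < 2 ^ N)
    (hB : B < 2 ^ (n - N)) :
    gsum n m (2 ^ (n - N) * A + B) + wsum A =
      N * m + ∑ i ∈ Finset.Icc 1 (n - N), (m - (ds A + ds (B / 2 ^ i))) := by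
  obtain ⟨K, rfl⟩ : ∃ K, n = K + N := ⟨n - N, by omega⟩
  rw [Nat.add_sub_cancel] at *
  unfold gsum
  rw [sum_Icc_range, sum_Icc_range, Finset.sum_range_add]
  have h1 : ∀ i ∈ Finset.range K, m - ds ((2 ^ K * A + B) / 2 ^ (i + 1)) =
      m - (ds A + ds (B / 2 ^ (i + 1))) := by
    intro i hi
    rw [Finset.mem_range] at hi
    have e1 : 2 ^ K = 2 ^ (i + 1) * 2 ^ (K - (i + 1)) := by
      rw [← pow_add]
      congr 1
      omega
    have hB2 : B / 2 ^ (i + 1) < 2 ^ (K - (i + 1)) := by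
      apply Nat.div_lt_of_lt_mul
      rw [← e1]
      exact hB
    rw [e1, mul_assoc, Nat.mul_add_div (by positivity), ds_two_pow_mul_add _ _ _ hB2]
  have h2 : ∀ l ∈ Finset.range N, m - ds ((2 ^ K * A + B) / 2 ^ (K + l + 1)) =
      m - ds (A / 2 ^ (l + 1)) := by
    intro l _
    rw [Nat.add_assoc, pow_add, ← Nat.div_div_eq_div_mul, Nat.mul_add_div (by positivity),
      Nat.div_eq_of_lt hB, Nat.add_zero]
  rw [Finset.sum_congr rfl h1, Finset.sum_congr rfl h2]
  have h3 : ∑ l ∈ Finset.range N, (m - ds (A / 2 ^ (l + 1))) + wsum A = N * m := by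
    rw [← sum_ds_div hA, sum_Icc_range, ← Finset.sum_add_distrib]
    have h4 : ∀ l ∈ Finset.range N, m - ds (A / 2 ^ (l + 1)) + ds (A / 2 ^ (l + 1)) = m := by
      intro l _
      have h5 := ds_div_le A (l + 1)
      have h6 := dsle hA
      omega
    rw [Finset.sum_congr rfl h4, Finset.sum_const, Finset.card_range, smul_eq_mul]
  omega

end Pool.Agent.GR72
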