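/-
GR72/DBLocal: the local bound for `gsum` (needs the stubs of DBSplit, DBCount, DBInt).
`N = 2 M`.  Every `D < 2^n` is `2^(n-N) A + B` with `A = D / 2^(n-N) < 2^N`, `B = D % 2^(n-N)`.  For fixed
`B` gsum_split says that `gsum n m D = a` iff `a + wsum A = R (ds A)` with
`R x = N m + ∑_{1 ≤ i ≤ n - N} (m - (x + ds (B / 2^i)))`.  So the number of `D` is at most
`∑_{B < 2^(n-N)} (number of such A) ≤ 2^(n-N) * 4^M * FI M = 2^n * FI M` (count_digits), and FI_le.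
(`Finset.card_eq_sum_card_fiberwise` with the map `D ↦ D % 2^(n-N)`, and on the fibre the injective map
`D ↦ D / 2^(n-N)`.)
-/
import Pool.Agent.GR72.DBSplit
import Pool.Agent.GR72.DBCount
import Pool.Agent.GR72.DBInt

namespace Pool.Agent.GR72

private theorem dbl_card (K : ℕ) (hK : 0 < K) (S : Finset ℕ) (T : ℕ → Finset ℕ)
    (hS : ∀ D ∈ S, D / K ∈ T (D % K)) (c : ℝ) (hT : ∀ B, ((T B).card : ℝ) ≤ c) :
    (S.card : ℝ) ≤ K * c := by
  have h1 : S ⊆ (Finset.range K).biUnion (fun B => (T B).image (fun A => K * A + B)) := by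
    intro D hD
    rw [Finset.mem_biUnion]
    refine ⟨D % K, Finset.mem_range.2 (Nat.mod_lt _ hK), ?_⟩
    rw [Finset.mem_image]
    exact ⟨D / K, hS D hD, Nat.div_add_mod _ _⟩
  have h2 : S.card ≤ ∑ B ∈ Finset.range K, (T B).card :=
    (Finset.card_le_card h1).trans (Finset.card_biUnion_le.trans
      (Finset.sum_le_sum fun B _ => Finset.card_image_le))
  calc (S.card : ℝ) ≤ ((∑ B ∈ Finset.range K, (T B).card : ℕ) : ℝ) := Nat.cast_le.2 h2
    _ = ∑ B ∈ Finset.range K, ((T B).card : ℝ) := by rw [Nat.cast_sum]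
    _ ≤ ∑ B ∈ Finset.range K, c := Finset.sum_le_sum fun B _ => hT B
    _ = K * c := by rw [Finset.sum_const, Finset.card_range, nsmul_eq_mul]

private def dblR (n m M B x : ℕ) : ℕ :=
  2 * M * m + ∑ i ∈ Finset.Icc 1 (n - 2 * M), (m - (x + ds (B / 2 ^ i)))

private theorem dbl_count {n m a M : ℕ} (hMm : 2 * M ≤ m) (hmn : m ≤ n) :
    (((Finset.range (2 ^ n)).filter (fun D => gsum n m D = a)).card : ℝ) ≤
      (2 ^ (n - 2 * M) : ℕ) * (4 ^ M * FI M) := by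
  have hpos : 0 < 2 ^ (n - 2 * M) := Nat.pow_pos (by norm_num)
  refine dbl_card (2 ^ (n - 2 * M)) hpos _
    (fun B => (Finset.range (2 ^ (2 * M))).filter (fun A => a + wsum A = dblR n m M B (ds A)))
    ?_ (4 ^ M * FI M) (fun B => count_digits M a (dblR n m M B))
  intro D hD
  rw [Finset.mem_filter, Finset.mem_range] at hD
  obtain ⟨hD1, hD2⟩ := hD
  have hA : D / 2 ^ (n - 2 * M) < 2 ^ (2 * M) := by
    rw [Nat.div_lt_iff_lt_mul hpos, ← pow_add]
    have h3 : 2 * M + (n - 2 * M) = n := by omega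
    rw [h3]
    exact hD1
  have hB : D % 2 ^ (n - 2 * M) < 2 ^ (n - 2 * M) := Nat.mod_lt _ hpos
  rw [Finset.mem_filter, Finset.mem_range]
  refine ⟨hA, ?_⟩
  have h2 := gsum_split (n := n) (N := 2 * M) (m := m) hMm (by omega) hA hB
  rw [Nat.div_add_mod, hD2] at h2
  exact h2

theorem local_count {n m a M : ℕ} (hM : 1 ≤ M) (hMm : 2 * M ≤ m) (hmn : m ≤ n) :
    (((Finset.range (2 ^ n)).filter (fun D => gsum n m D = a)).card : ℝ) *
      (M : ℝ) ^ (3 / 2 : ℝ) ≤ 31 * 2 ^ n := by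
  have hn : n - 2 * M + 2 * M = n := by omega
  have h2 := dbl_count (a := a) hMm hmn
  have h3 : (2 : ℝ) ^ (n - 2 * M) * 4 ^ M = 2 ^ n := by
    have h4 : (4 : ℝ) ^ M = 2 ^ (2 * M) := by
      rw [pow_mul]
      norm_num
    rw [h4, ← pow_add, hn]
  have h4 := FI_le hM
  have h5 : (0 : ℝ) ≤ (M : ℝ) ^ (3 / 2 : ℝ) := by positivity
  rw [Nat.cast_pow, Nat.cast_ofNat] at h2
  calc (((Finset.range (2 ^ n)).filter (fun D => gsum n m D = a)).card : ℝ) *
        (M : ℝ) ^ (3 / 2 : ℝ)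
      ≤ 2 ^ (n - 2 * M) * (4 ^ M * FI M) * (M : ℝ) ^ (3 / 2 : ℝ) :=
        mul_le_mul_of_nonneg_right h2 h5
    _ = 2 ^ n * (FI M * (M : ℝ) ^ (3 / 2 : ℝ)) := by
        rw [← h3]
        ring
    _ ≤ 2 ^ n * 31 := mul_le_mul_of_nonneg_left h4 (by positivity)
    _ = 31 * 2 ^ n := by ring

end Pool.Agent.GR72
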