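/-
GR72/Decomp: codes meeting the Griesmer bound decompose at every zero digit of `D`.
-/
import Pool.Agent.GR72.GapSplit
import Pool.Agent.GR72.Cols

namespace Pool.Agent.GR72

open Module

/-- The number of coordinates of the linear map `A` that are equal to the functional `x`. -/
noncomputable def colCount {E : Type} [AddCommGroup E] [Module (ZMod 2) E] {n : ℕ}
    (A : E →ₗ[ZMod 2] (Fin n → ZMod 2)) (x : E →ₗ[ZMod 2] ZMod 2) : ℕ :=
  {i : Fin n | ∀ c, A c i = x c}.ncard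

/-- The code `C` is, via some linear map `A` on `C`, a `[g(k,d), k, d]` code whose multiplicity
of every nonzero column `x` is `m x`. -/
def IsGriesmerVia {n : ℕ} (C : Submodule (ZMod 2) (Fin n → ZMod 2)) (k d : ℕ)
    (m : Dual (ZMod 2) C → ℕ) : Prop :=
  ∃ A : C →ₗ[ZMod 2] (Fin (griesmer k d) → ZMod 2),
    IsCode (griesmer k d) k d (LinearMap.range A) ∧ ∀ x, x ≠ 0 → colCount A x = m x

/-- The multiplicities of the columns of the code `C`. -/
noncomputable def colsOf {n : ℕ} (C : Submodule (ZMod 2) (Fin n → ZMod 2))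
    (x : Dual (ZMod 2) C) : ℕ := colCount C.subtype x

theorem card_filter_ncard {n : ℕ} (p : Fin n → Prop) [DecidablePred p] :
    (Finset.univ.filter p).card = {i | p i}.ncard := by
  rw [← Set.ncard_coe_finset]
  congr 1
  ext i
  simp

theorem colCount_eq {E : Type} [AddCommGroup E] [Module (ZMod 2) E] {n : ℕ}
    (A : E →ₗ[ZMod 2] (Fin n → ZMod 2)) (x : E →ₗ[ZMod 2] ZMod 2)
    [DecidablePred fun i : Fin n => (LinearMap.proj i).comp A = x] :
    (Finset.univ.filter (fun i => (LinearMap.proj i).comp A = x)).card = colCount A x := by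
  rw [colCount, ← Set.ncard_coe_finset]
  congr 1
  ext i
  simp only [Finset.coe_filter, Finset.mem_univ, true_and, Set.mem_setOf_eq]
  constructor
  · intro h c
    rw [← h]
    rfl
  · intro h
    ext c
    exact h c

theorem gr_le_of_sum {W : Type} [AddCommGroup W] [Module (ZMod 2) W] [Finite W] {v v2 : W → ℤ}
    {V1 V2 : ℕ} {s : ℤ} (h2 : Gr v2 V2) (h1 : Gr (fun x => v x - v2 x) V1) {x : W}
    (hx : v x ≤ s) : v2 x ≤ s ∧ v x - v2 x ≤ s := by
  have a := gr_nonneg h2 x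
  have b : 0 ≤ v x - v2 x := gr_nonneg h1 x
  constructor <;> linarith

/-- From a function on the dual of a code to a linear map with prescribed columns. -/
theorem cols_map {n k d s D : ℕ} (hk : 1 ≤ k) (hd : 1 ≤ d) (h : s * 2 ^ (k - 1) = d + D)
    (hD : D < 2 ^ (k - 1)) {C : Submodule (ZMod 2) (Fin n → ZMod 2)}
    (hC : finrank (ZMod 2) C = k) {v : Dual (ZMod 2) C → ℤ} (hv : Gr v (2 * D))
    (hb : ∀ x, x ≠ 0 → v x ≤ s) :
    ∃ A : C →ₗ[ZMod 2] (Fin (griesmer k d) → ZMod 2),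
      IsCode (griesmer k d) k d (LinearMap.range A) ∧
      ∀ x : C →ₗ[ZMod 2] ZMod 2, x ≠ 0 →
        (colCount A x : ℤ) = s - v x := by
  classical
  haveI : Finite C := inferInstance
  have hW : finrank (ZMod 2) (Dual (ZMod 2) C) = k := by rw [finrank_dual_eq, hC]
  obtain ⟨e, he, hL⟩ := to_code_cols hk hd h hD hW hv hb
  let A : C →ₗ[ZMod 2] (Fin (griesmer k d) → ZMod 2) := LinearMap.pi e
  let L : Dual (ZMod 2) (Dual (ZMod 2) C) →ₗ[ZMod 2] (Fin (griesmer k d) → ZMod 2) :=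
    LinearMap.pi fun i => LinearMap.applyₗ (e i)
  have hLr : LinearMap.range L = LinearMap.range A := by
    ext y
    constructor
    · rintro ⟨φ, rfl⟩
      obtain ⟨m, rfl⟩ := (Module.evalEquiv (ZMod 2) C).surjective φ
      exact ⟨m, rfl⟩
    · rintro ⟨m, rfl⟩
      exact ⟨Module.evalEquiv (ZMod 2) C m, rfl⟩
  refine ⟨A, ?_, fun x hx => ?_⟩
  · rw [← hLr]
    exact hL L fun φ i => rfl
  · rw [← he x hx, card_filter_ncard, colCount]
    congr 2
    ext i
    constructor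
    · intro h5
      ext m
      exact h5 m
    · intro h5 m
      show e i m = x m
      rw [show e i = x from h5]

/-- **Decomposition theorem.** -/
theorem decomposition {k d s D D1 D2 j : ℕ} (hk : 1 ≤ k) (hd : 1 ≤ d)
    (hs : s = d ⌈/⌉ 2 ^ (k - 1)) (hD : D = s * 2 ^ (k - 1) - d) (hsum : D = D1 + D2)
    (h1 : 2 ^ (j + 1) ∣ D1) (h2 : D2 < 2 ^ j)
    (C : Submodule (ZMod 2) (Fin (griesmer k d) → ZMod 2)) (hC : IsCode (griesmer k d) k d C) :
    ∃ (A : C →ₗ[ZMod 2] (Fin (griesmer k (s * 2 ^ (k - 1) - D1)) → ZMod 2))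
      (B : C →ₗ[ZMod 2] (Fin (griesmer k (s * 2 ^ (k - 1) - D2)) → ZMod 2)),
      IsCode (griesmer k (s * 2 ^ (k - 1) - D1)) k (s * 2 ^ (k - 1) - D1) (LinearMap.range A) ∧
      IsCode (griesmer k (s * 2 ^ (k - 1) - D2)) k (s * 2 ^ (k - 1) - D2) (LinearMap.range B) ∧
      ∀ x : C →ₗ[ZMod 2] ZMod 2, x ≠ 0 →
        colCount A x + colCount B x = colCount C.subtype x + s := by
  classical
  have hp : 0 < 2 ^ (k - 1) := by positivity
  have hsd : 1 ≤ s ∧ s * 2 ^ (k - 1) = d + D ∧ D < 2 ^ (k - 1) := by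
    rw [hD, hs, Nat.ceilDiv_eq_add_pred_div]
    generalize 2 ^ (k - 1) = N at *
    have h1 := Nat.div_add_mod (d + N - 1) N
    have h2 := Nat.mod_lt (d + N - 1) hp
    have h3 : (d + N - 1) / N * N = N * ((d + N - 1) / N) := mul_comm _ _
    have h4 : 1 ≤ (d + N - 1) / N := by
      rw [Nat.le_div_iff_mul_le hp]; omega
    refine ⟨h4, ?_, ?_⟩ <;> rw [h3] <;> omega
  obtain ⟨hs1, hsd, hDlt⟩ := hsd
  obtain ⟨v, hv, hcols'⟩ := code_to_cols hk hsd hDlt hC rfl
  have hcols : ∀ x, x ≠ 0 → v x = s - (colCount C.subtype x : ℤ) := by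
    intro x hx
    rw [hcols' x hx, ← colCount_eq C.subtype x]
  have hb : ∀ x, x ≠ 0 → v x ≤ s := by
    intro x hx
    rw [hcols x hx]
    have : (0 : ℤ) ≤ (colCount C.subtype x : ℤ) := by positivity
    linarith
  haveI : Finite (Dual (ZMod 2) C) := inferInstance
  obtain ⟨T, hT⟩ := h1
  have hV : 2 * D = 2 ^ (j + 1 + 1) * T + 2 * D2 := by
    rw [hsum, hT]
    ring
  rw [hV] at hv
  obtain ⟨v2, hv2, hv1⟩ := gap_split (e := j + 1) (by rw [pow_succ]; omega) hv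
  have hV1 : 2 ^ (j + 1 + 1) * T = 2 * D1 := by
    rw [hT]
    ring
  rw [hV1] at hv1
  have hk1 : 1 * 2 ^ (k - 1) ≤ s * 2 ^ (k - 1) := Nat.mul_le_mul_right _ hs1
  have hd1 : 1 ≤ s * 2 ^ (k - 1) - D1 := by omega
  have hd2 : 1 ≤ s * 2 ^ (k - 1) - D2 := by omega
  obtain ⟨A, hA, hA'⟩ := cols_map hk hd1 (s := s) (D := D1) (by omega) (by omega) hC.1 hv1
    (fun x hx => (gr_le_of_sum hv2 hv1 (hb x hx)).2)
  obtain ⟨B, hB, hB'⟩ := cols_map hk hd2 (s := s) (D := D2) (by omega) (by omega) hC.1 hv2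
    (fun x hx => (gr_le_of_sum hv2 hv1 (hb x hx)).1)
  refine ⟨A, B, hA, hB, fun x hx => ?_⟩
  have e1 := hA' x hx
  have e2 := hB' x hx
  have e3 := hcols x hx
  have e4 : (colCount A x : ℤ) + colCount B x = colCount C.subtype x + s := by
    rw [e1, e2]
    have e5 : (v x - v2 x) + v2 x = v x := by ring
    linarith
  exact_mod_cast e4

theorem decomposition' {k d s D D1 D2 j : ℕ} (hk : 1 ≤ k) (hd : 1 ≤ d)
    (hs : s = d ⌈/⌉ 2 ^ (k - 1)) (hD : D = s * 2 ^ (k - 1) - d) (hsum : D = D1 + D2)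
    (h1 : 2 ^ (j + 1) ∣ D1) (h2 : D2 < 2 ^ j)
    (C : Submodule (ZMod 2) (Fin (griesmer k d) → ZMod 2)) (hC : IsCode (griesmer k d) k d C) :
    ∃ m1 m2 : Dual (ZMod 2) C → ℕ,
      IsGriesmerVia C k (s * 2 ^ (k - 1) - D1) m1 ∧
      IsGriesmerVia C k (s * 2 ^ (k - 1) - D2) m2 ∧
      ∀ x, x ≠ 0 → m1 x + m2 x = colsOf C x + s := by
  obtain ⟨A, B, hA, hB, h⟩ := decomposition hk hd hs hD hsum h1 h2 C hC
  exact ⟨colCount A, colCount B, ⟨A, hA, fun x _ => rfl⟩, ⟨B, hB, fun x _ => rfl⟩, h⟩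

end Pool.Agent.GR72
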