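/-
GR72/Gen: generator matrices of codes meeting the Griesmer bound and functions on `F_2^k`.
(Refactoring of CodeTo and ToCode.)
-/
import Pool.Agent.GR72.L1

namespace Pool.Agent.GR72

open Module

/-- The codeword of the coefficient vector `a` for the generator matrix with columns `G i`. -/
def word {n k : ℕ} (G : Fin n → Fin k → ZMod 2) (a : Fin k → ZMod 2) : Fin n → ZMod 2 :=
  fun i => ∑ j, a j * G i j

/-- `G` (given by its `n` columns in `F_2^k`) generates a binary linear `[n, k, d]` code: all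
codewords with nonzero coefficient vector have Hamming weight at least `d`, with equality for
some of them. -/
def IsGen (n k d : ℕ) (G : Fin n → Fin k → ZMod 2) : Prop :=
  (∀ a, a ≠ 0 → d ≤ hammingNorm (word G a)) ∧ ∃ a, a ≠ 0 ∧ hammingNorm (word G a) = d

/-- The number of columns of `G` equal to `x`. -/
def mult {n k : ℕ} (G : Fin n → Fin k → ZMod 2) (x : Fin k → ZMod 2) : ℕ :=
  (Finset.univ.filter (fun i => G i = x)).card

private theorem ct_sum_sg {n : ℕ} (m : Fin n → ZMod 2) :
    ∑ i, sg (m i) = (n : ℤ) - 2 * hammingNorm m := by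
  have h1 : ∀ i, sg (m i) = 1 - 2 * (if m i ≠ 0 then (1 : ℤ) else 0) := by
    intro i
    rcases zmod_cases (m i) with h | h
    · rw [h]; simp [sg]
    · rw [h]; simp [sg]
  simp only [h1]
  rw [Finset.sum_sub_distrib, ← Finset.mul_sum, Finset.sum_boole]
  simp [hammingNorm]

/-- every functional is a scalar product -/
theorem exists_vec {k : ℕ} (φ : Dual (ZMod 2) (Fin k → ZMod 2)) :
    ∃ a : Fin k → ZMod 2, ∀ x, φ x = ∑ j, a j * x j := by
  refine ⟨fun j => φ (fun i => if j = i then 1 else 0), fun x => ?_⟩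
  rw [LinearMap.pi_apply_eq_sum_univ φ x]
  refine Finset.sum_congr rfl fun j _ => ?_
  rw [smul_eq_mul, mul_comm]

theorem exists_fnl {k : ℕ} (a : Fin k → ZMod 2) :
    ∃ φ : Dual (ZMod 2) (Fin k → ZMod 2), ∀ x, φ x = ∑ j, a j * x j := by
  refine ⟨∑ j, a j • LinearMap.proj j, fun x => ?_⟩
  rw [LinearMap.sum_apply]
  rfl

theorem gen_to {n k d s D : ℕ} (hk : 1 ≤ k) (h : s * 2 ^ (k - 1) = d + D)
    (hD : D < 2 ^ (k - 1)) {G : Fin n → Fin k → ZMod 2} (hG : IsGen n k d G)
    (hn : n = griesmer k d) : ∃ v : (Fin k → ZMod 2) → ℤ, Gr v (2 * D) ∧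
      ∀ x, x ≠ 0 → v x = s - mult G x := by
  classical
  obtain ⟨hmin, _⟩ := hG
  have hfr : finrank (ZMod 2) (Fin k → ZMod 2) = k := by simp
  set M : (Fin k → ZMod 2) → ℤ := fun x => ∑ i, dl (G i) x with hM
  have hM0 : ∀ x, 0 ≤ M x := by
    intro x
    refine Finset.sum_nonneg fun i _ => ?_
    unfold dl
    split_ifs <;> norm_num
  have hftM : ∀ φ : Dual (ZMod 2) (Fin k → ZMod 2), ft M φ = ∑ i, sg (φ (G i)) := by
    intro φ
    rw [ft_eq_sum]
    simp only [hM, Finset.mul_sum]
    rw [Finset.sum_comm]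
    refine Finset.sum_congr rfl fun i _ => ?_
    rw [← ft_dl (G i) φ, ft_eq_sum]
  set v : (Fin k → ZMod 2) → ℤ := fun x =>
    ((s : ℤ) * (fun _ => (1 : ℤ)) x - M x) + ((n : ℤ) - 2 * d) * dl 0 x with hv
  have hft : ∀ φ : Dual (ZMod 2) (Fin k → ZMod 2),
      ft v φ = (s : ℤ) * (if φ = 0 then 2 ^ k else 0) - ∑ i, sg (φ (G i)) +
        ((n : ℤ) - 2 * d) := by
    intro φ
    rw [hv, ft_add (fun x => (s : ℤ) * (fun _ => (1 : ℤ)) x - M x)
      (fun x => ((n : ℤ) - 2 * d) * dl 0 x),
      ft_sub (fun x => (s : ℤ) * (fun _ => (1 : ℤ)) x) M, ft_mul, ft_mul, ft_dl, ft_one, hfr, hftM,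
      map_zero, sg_zero, mul_one]
    by_cases h0 : φ = 0
    · rw [if_pos h0, if_pos h0]
    · rw [if_neg h0, if_neg h0]
  have hpow : (2 : ℤ) ^ k = 2 * 2 ^ (k - 1) := by
    rw [← pow_succ']
    congr 1
    omega
  have hz : (s : ℤ) * 2 ^ (k - 1) = d + D := by exact_mod_cast h
  have hsum0 : ∑ i, sg ((0 : Dual (ZMod 2) (Fin k → ZMod 2)) (G i)) = (n : ℤ) := by
    simp [sg]
  have hft0 : ft v 0 = 2 * D := by
    rw [hft 0, if_pos rfl, hsum0, hpow]
    linear_combination 2 * hz
  have htot : tot v = ((2 * D : ℕ) : ℤ) := by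
    rw [← ft_zero, hft0]
    push_cast
    ring
  have hpsd : Psd v := by
    intro φ
    by_cases hφ : φ = 0
    · rw [hφ, hft0]
      positivity
    · obtain ⟨a, ha⟩ := exists_vec φ
      have ha0 : a ≠ 0 := by
        rintro rfl
        apply hφ
        ext x
        simp [ha]
      have h1 : ∀ i, φ (G i) = word G a i := fun i => ha (G i)
      rw [hft φ, if_neg hφ]
      simp only [h1]
      rw [ct_sum_sg]
      have h2 := hmin a ha0
      have h3 : (d : ℤ) ≤ hammingNorm (word G a) := by exact_mod_cast h2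
      linarith
  have hv0 : v 0 = s - M 0 + (n - 2 * d) := by
    simp [hv, dl]
  have hvx : ∀ x, x ≠ 0 → v x = s - M x := by
    intro x hx
    simp [hv, dl, hx]
  have hds := ds_le hpsd _ htot
  rw [ds_two_mul, hv0] at hds
  have hgr := griesmer_eq k d s D hk h hD
  have hgr' : (griesmer k d : ℤ) + s = 2 * d + ds D := by exact_mod_cast hgr
  have hM00 := hM0 0
  have hn' : (n : ℤ) = griesmer k d := by exact_mod_cast hn
  refine ⟨v, ⟨hpsd, htot, ?_⟩, ?_⟩
  · rw [ds_two_mul, hv0]
    linarith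
  · intro x hx
    rw [hvx x hx, hM, mult, Finset.card_filter]
    push_cast
    congr 1
    refine Finset.sum_congr rfl fun i _ => ?_
    unfold dl
    by_cases hxi : x = G i
    · rw [if_pos hxi, if_pos hxi.symm]
    · rw [if_neg hxi, if_neg (fun h5 => hxi h5.symm)]

open Classical in
theorem to_cols {W : Type} [AddCommGroup W] [Module (ZMod 2) W] [Finite W] {k d s D : ℕ}
    (hk : 1 ≤ k) (hd : 1 ≤ d) (h : s * 2 ^ (k - 1) = d + D) (hD : D < 2 ^ (k - 1))
    (hW : finrank (ZMod 2) W = k) {v : W → ℤ} (hv : Gr v (2 * D))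
    (hb : ∀ x, x ≠ 0 → v x ≤ s) :
    ∃ e : Fin (griesmer k d) → W,
      (∀ x, x ≠ 0 → ((Finset.univ.filter (fun i => e i = x)).card : ℤ) = s - v x) ∧
      ∀ φ : Dual (ZMod 2) W, φ ≠ 0 →
        2 * (hammingNorm (fun i => φ (e i)) : ℤ) = 2 * d + ft v φ := by
  classical
  haveI := Fintype.ofFinite W
  set m : W → ℕ := fun x => if x = 0 then 0 else ((s : ℤ) - v x).toNat with hm
  have hmx : ∀ x, x ≠ 0 → (m x : ℤ) = s - v x := by
    intro x hx
    have := hb x hx
    rw [hm]
    simp only [hx, if_false]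
    rw [Int.toNat_of_nonneg (by linarith)]
  have hm0 : m 0 = 0 := by simp [hm]
  have hpow : (2 : ℤ) ^ k = 2 * 2 ^ (k - 1) := by
    rw [← pow_succ']
    congr 1
    omega
  have hz : (s : ℤ) * 2 ^ (k - 1) = d + D := by exact_mod_cast h
  have hgr := griesmer_eq k d s D hk h hD
  have hgr' : (griesmer k d : ℤ) + s = 2 * d + ds D := by exact_mod_cast hgr
  have htot := hv.tot
  rw [tot_eq_sum] at htot
  have hzero := hv.zero
  rw [ds_two_mul] at hzero
  have hcardW : (Fintype.card W : ℤ) = 2 ^ k := by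
    have := card_eq W
    rw [Nat.card_eq_fintype_card, hW] at this
    exact_mod_cast this
  have hsum : ∑ x, m x = griesmer k d := by
    have h1 : ∑ x, (m x : ℤ) = ∑ x, ((s : ℤ) - v x) - (s - v 0) := by
      rw [← Finset.sum_erase_add _ _ (Finset.mem_univ (0 : W)),
        ← Finset.sum_erase_add Finset.univ (fun x => (s : ℤ) - v x) (Finset.mem_univ (0 : W)), hm0]
      rw [Finset.sum_congr rfl (fun x hx => hmx x (Finset.ne_of_mem_erase hx))]
      push_cast
      ring
    rw [Finset.sum_sub_distrib, htot, Finset.sum_const, Finset.card_univ, nsmul_eq_mul, hcardW,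
      hpow, hzero] at h1
    have h2 : ((∑ x, m x : ℕ) : ℤ) = griesmer k d := by
      push_cast
      rw [h1]
      push_cast
      linear_combination 2 * hz - hgr'
    exact_mod_cast h2
  have hcardJ : Fintype.card (Σ x : W, Fin (m x)) = griesmer k d := by
    rw [Fintype.card_sigma]
    simp only [Fintype.card_fin]
    exact hsum
  let σ : Fin (griesmer k d) ≃ (Σ x : W, Fin (m x)) := (Fintype.equivFinOfCardEq hcardJ).symm
  refine ⟨fun i => (σ i).1, ?_, ?_⟩
  · intro x hx
    have h1 : (Finset.univ.filter (fun i => (σ i).1 = x)).card =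
        (Finset.univ.filter (fun j : (Σ x : W, Fin (m x)) => j.1 = x)).card := by
      refine Finset.card_bij (fun i _ => σ i) ?_ ?_ ?_
      · intro i hi
        simpa using hi
      · intro i _ i' _ hii
        exact σ.injective hii
      · intro j hj
        exact ⟨σ.symm j, by simpa using hj, by simp⟩
    have h2 : (Finset.univ.filter (fun j : (Σ x : W, Fin (m x)) => j.1 = x)).card = m x := by
      have h3 : (Finset.univ.filter (fun j : (Σ x : W, Fin (m x)) => j.1 = x)) =
          (Finset.univ : Finset (Fin (m x))).map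
            ⟨fun a => (⟨x, a⟩ : Σ x : W, Fin (m x)), fun a b hab => by simpa using hab⟩ := by
        ext ⟨y, a⟩
        simp only [Finset.mem_filter, Finset.mem_univ, true_and, Finset.mem_map,
          Function.Embedding.coeFn_mk]
        constructor
        · intro h4
          subst h4
          exact ⟨a, rfl⟩
        · rintro ⟨b, hb⟩
          exact (congrArg Sigma.fst hb).symm
      rw [h3, Finset.card_map, Finset.card_univ, Fintype.card_fin]
    rw [h1, h2, hmx x hx]
  · intro φ hφ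
    have h1 : (hammingNorm (fun i => φ (σ i).1) : ℤ) =
        ∑ i, (if φ (σ i).1 ≠ 0 then (1 : ℤ) else 0) := by
      rw [Finset.sum_boole]
      simp only [hammingNorm]
    have h2 : ∑ i, (if φ (σ i).1 ≠ 0 then (1 : ℤ) else 0) =
        ∑ j : (Σ x : W, Fin (m x)), (if φ j.1 ≠ 0 then (1 : ℤ) else 0) :=
      Equiv.sum_comp σ (fun j : (Σ x : W, Fin (m x)) => if φ j.1 ≠ 0 then (1 : ℤ) else 0)
    have h3 : ∑ j : (Σ x : W, Fin (m x)), (if φ j.1 ≠ 0 then (1 : ℤ) else 0) =
        ∑ x, (m x : ℤ) * (if φ x ≠ 0 then (1 : ℤ) else 0) := by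
      rw [Fintype.sum_sigma]
      refine Finset.sum_congr rfl fun x _ => ?_
      change ∑ _y : Fin (m x), (if φ x ≠ 0 then (1 : ℤ) else 0) = _
      rw [Finset.sum_const, Finset.card_univ, Fintype.card_fin, nsmul_eq_mul]
    have h4 : ∑ x, 2 * ((m x : ℤ) * (if φ x ≠ 0 then (1 : ℤ) else 0)) =
        ∑ x, ((s : ℤ) - v x - s * (sg (φ x) * 1) + sg (φ x) * v x) := by
      refine Finset.sum_congr rfl fun x _ => ?_
      rcases zmod_cases (φ x) with hx | hx
      · rw [hx]
        simp [sg]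
      · have hx0 : x ≠ 0 := by
          intro h0
          rw [h0, map_zero] at hx
          exact absurd hx (by decide)
        rw [hmx x hx0, hx, sg_one]
        simp only [ne_eq, one_ne_zero, not_false_eq_true, if_true]
        ring
    rw [h1, h2, h3, Finset.mul_sum, h4]
    have h5 := ft_one φ
    rw [if_neg hφ, ft_eq_sum] at h5
    rw [Finset.sum_add_distrib, Finset.sum_sub_distrib, Finset.sum_sub_distrib, htot,
      ← Finset.mul_sum, h5, Finset.sum_const, Finset.card_univ, nsmul_eq_mul, hcardW, hpow,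
      ← ft_eq_sum]
    push_cast
    linear_combination 2 * hz

theorem to_gen {k d s D : ℕ} (hk : 1 ≤ k) (hd : 1 ≤ d) (h : s * 2 ^ (k - 1) = d + D)
    (hD : D < 2 ^ (k - 1)) {v : (Fin k → ZMod 2) → ℤ} (hv : Gr v (2 * D))
    (hb : ∀ x, x ≠ 0 → v x ≤ s) :
    ∃ G : Fin (griesmer k d) → Fin k → ZMod 2, IsGen (griesmer k d) k d G ∧
      ∀ x, x ≠ 0 → (mult G x : ℤ) = s - v x := by
  classical
  have hfr : finrank (ZMod 2) (Fin k → ZMod 2) = k := by simp
  obtain ⟨e, he, hn⟩ := to_cols hk hd h hD hfr hv hb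
  refine ⟨e, ⟨fun a ha => ?_, ?_⟩, fun x hx => ?_⟩
  · obtain ⟨φ, hφ⟩ := exists_fnl a
    have hφ0 : φ ≠ 0 := by
      rintro rfl
      apply ha
      funext j
      have := hφ (Pi.single j 1)
      simpa [Pi.single_apply] using this.symm
    have h1 := hn φ hφ0
    have h2 := hv.psd φ
    have h3 : (fun i => φ (e i)) = word e a := funext fun i => hφ (e i)
    rw [h3] at h1
    have h4 : (d : ℤ) ≤ hammingNorm (word e a) := by linarith
    exact_mod_cast h4
  · obtain ⟨ψ, hψ, hψ0⟩ := exists_zero hv ⟨D, by ring⟩ (by rw [hfr]; omega)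
    have h1 := hn ψ hψ
    obtain ⟨a, ha⟩ := exists_vec ψ
    refine ⟨a, ?_, ?_⟩
    · rintro rfl
      apply hψ
      ext x
      simp [ha]
    · rw [hψ0, add_zero] at h1
      have h3 : (fun i => ψ (e i)) = word e a := funext fun i => ha (e i)
      rw [h3] at h1
      have h4 : (hammingNorm (word e a) : ℤ) = d := by linarith
      exact_mod_cast h4
  · rw [← he x hx, mult]
    congr 2
    ext i
    simp only [Finset.mem_filter]

end Pool.Agent.GR72
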