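/-
GR72/DecompGen: codes meeting the Griesmer bound decompose at every zero digit of `D`
(generator matrices).
-/
import Pool.Agent.GR72.GapSplit
import Pool.Agent.GR72.Gen

namespace Pool.Agent.GR72

open Module

/-- The minimum distance `s 2^(k-1) - D`. -/
def dist (k s D : ℕ) : ℕ := s * 2 ^ (k - 1) - D

/-- **Decomposition theorem.** -/
theorem decomposition_gen {k d s D D1 D2 j : ℕ} (hk : 1 ≤ k) (hd : 1 ≤ d)
    (hs : s = d ⌈/⌉ 2 ^ (k - 1)) (hD : D = s * 2 ^ (k - 1) - d) (hsum : D = D1 + D2)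
    (h1 : 2 ^ (j + 1) ∣ D1) (h2 : D2 < 2 ^ j)
    (G : Fin (griesmer k d) → Fin k → ZMod 2) (hG : IsGen (griesmer k d) k d G) :
    ∃ (A : Fin (griesmer k (dist k s D1)) → Fin k → ZMod 2)
      (B : Fin (griesmer k (dist k s D2)) → Fin k → ZMod 2),
      IsGen (griesmer k (dist k s D1)) k (dist k s D1) A ∧
      IsGen (griesmer k (dist k s D2)) k (dist k s D2) B ∧
      ∀ x, x ≠ 0 → mult A x + mult B x = mult G x + s := by
  classical
  have hp : 0 < 2 ^ (k - 1) := by positivity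
  have hsd : 1 ≤ s ∧ s * 2 ^ (k - 1) = d + D ∧ D < 2 ^ (k - 1) := by
    rw [hD, hs, Nat.ceilDiv_eq_add_pred_div]
    generalize 2 ^ (k - 1) = N at *
    have h1 := Nat.div_add_mod (d + N - 1) N
    have h2 := Nat.mod_lt (d + N - 1) hp
    have h3 : (d + N - 1) / N * N = N * ((d + N - 1) / N) := mul_comm _ _
    have h4 : 1 ≤ (d + N - 1) / N := by
      rw [Nat.le_div_iff_mul_le hp]; omega
    refine ⟨h4, ?_, ?_⟩ <;> rw [h3] <;> omega
  obtain ⟨hs1, hsd, hDlt⟩ := hsd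
  obtain ⟨v, hv, hcols⟩ := gen_to hk hsd hDlt hG rfl
  have hb : ∀ x, x ≠ 0 → v x ≤ s := by
    intro x hx
    rw [hcols x hx]
    have : (0 : ℤ) ≤ (mult G x : ℤ) := by positivity
    linarith
  obtain ⟨T, hT⟩ := h1
  have hV : 2 * D = 2 ^ (j + 1 + 1) * T + 2 * D2 := by
    rw [hsum, hT]
    ring
  rw [hV] at hv
  obtain ⟨v2, hv2, hv1⟩ := gap_split (e := j + 1) (by rw [pow_succ]; omega) hv
  have hV1 : 2 ^ (j + 1 + 1) * T = 2 * D1 := by
    rw [hT]
    ring
  rw [hV1] at hv1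
  have hk1 : 1 * 2 ^ (k - 1) ≤ s * 2 ^ (k - 1) := Nat.mul_le_mul_right _ hs1
  have hd1 : 1 ≤ dist k s D1 := by unfold dist; omega
  have hd2 : 1 ≤ dist k s D2 := by unfold dist; omega
  have hle : ∀ x, x ≠ 0 → v2 x ≤ s ∧ v x - v2 x ≤ s := by
    intro x hx
    have a := gr_nonneg hv2 x
    have b : 0 ≤ v x - v2 x := gr_nonneg hv1 x
    have := hb x hx
    constructor <;> linarith
  obtain ⟨A, hA, hA'⟩ := to_gen hk hd1 (s := s) (D := D1) (by unfold dist; omega) (by omega) hv1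
    (fun x hx => (hle x hx).2)
  obtain ⟨B, hB, hB'⟩ := to_gen hk hd2 (s := s) (D := D2) (by unfold dist; omega) (by omega) hv2
    (fun x hx => (hle x hx).1)
  refine ⟨A, B, hA, hB, fun x hx => ?_⟩
  have e1 := hA' x hx
  have e2 := hB' x hx
  have e3 := hcols x hx
  have e4 : (mult A x : ℤ) + mult B x = mult G x + s := by
    rw [e1, e2]
    have e5 : (v x - v2 x) + v2 x = v x := by ring
    linarith
  exact_mod_cast e4

end Pool.Agent.GR72
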