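/-
GR72/NoR: exclusion of the functions left over in Case N (needs RunSplit, Hyp, Core, L1).
`k = finrank W`, `V' = 2^(k-1) + 2^c (2^q - 1)`.  Suppose `Gr v V'` and
`ft v φ ≤ 2^c (2^q - 1)` for all `φ ≠ 0`.
`V'` is even (`c ≥ 1`, `k ≥ 2`), so there is `ψ ≠ 0` with `ft v ψ = 0` (exists_zero).
`r = res v ψ` on `K = ker ψ` (dimension `k - 1`) satisfies `Gr r (V'/2)` (gr_res), and
`V'/2 = 2^(c-1) (2^(q+1) * 2^(k-c-q-2) + (2^q - 1))` (it has the same number of ones,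
ds_two_mul).  By `IH` and run_split (`c - 1`, `t = 2^(k-c-q-2)`): `r = w1 + w2` with
`Gr w1 (2^(c+q) * 2^(k-c-q-2)) = Gr w1 (2^(k-2))` and `Psd w2`.  By gr_single `w1 = ind P`,
`finrank P = k - 2`, so `P ≠ ⊤` in `K` and there is `φ' ≠ 0` in the dual of `K` vanishing on `P`
(`Submodule.exists_le_ker_of_lt_top` or similar); ft_ind: `ft w1 φ' = 2^(k-2)`.
Extend `φ'` to `φ` on `W` (exists_ext); `φ ≠ 0` and `φ + ψ ≠ 0` because `φ' ≠ 0`.
`2^(k-1) ≤ 2 * ft r φ' = ft v φ + ft v (φ + ψ) ≤ 2 * 2^c (2^q - 1) < 2^(c+q+1) ≤ 2^(k-1)`.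
-/
import Pool.Agent.GR72.RunSplit

namespace Pool.Agent.GR72

open Module

theorem no_r {W : Type} [AddCommGroup W] [Module (ZMod 2) W] [Finite W] {q c : ℕ}
    (hc : 1 ≤ c) (hk : c + q + 2 ≤ finrank (ZMod 2) W)
    (IH : RunDim q (finrank (ZMod 2) W - 1)) {v : W → ℤ}
    (h : Gr v (2 ^ (finrank (ZMod 2) W - 1) + 2 ^ c * (2 ^ q - 1)))
    (hf : ∀ φ : Dual (ZMod 2) W, φ ≠ 0 → ft v φ ≤ 2 ^ c * (2 ^ q - 1)) : False := by
  obtain ⟨c, rfl⟩ : ∃ c', c = c' + 1 := ⟨c - 1, by omega⟩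
  obtain ⟨j, hj⟩ : ∃ j, finrank (ZMod 2) W = c + 1 + q + 2 + j :=
    ⟨finrank (ZMod 2) W - (c + 1 + q + 2), by omega⟩
  have hk1 : finrank (ZMod 2) W - 1 = c + 1 + q + 1 + j := by omega
  rw [hk1] at IH h
  have hV : 2 ^ (c + 1 + q + 1 + j) + 2 ^ (c + 1) * (2 ^ q - 1) =
      2 * (2 ^ c * (2 ^ (q + 1) * 2 ^ j + (2 ^ q - 1))) := by
    generalize 2 ^ q - 1 = r
    ring
  rw [hV] at h
  obtain ⟨ψ, hψ, h0⟩ := exists_zero h (even_two_mul _) (by omega)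
  have hK : finrank (ZMod 2) (LinearMap.ker ψ) = c + 1 + q + 1 + j := by
    have := finrank_ker hψ
    omega
  have hr : Gr (res v ψ) (2 ^ c * (2 ^ (q + 1) * 2 ^ j + (2 ^ q - 1))) := by
    refine gr_res h _ ?_ (ds_two_mul _).symm
    rw [h0, add_zero, Nat.cast_mul 2]
    rfl
  obtain ⟨v2, hv2, hw, -⟩ := run_split (IH _ hK) hr
  rw [← pow_add] at hw
  obtain ⟨P, hP, hwP⟩ := gr_single hw
  have hlt : P < ⊤ := by
    refine lt_top_iff_ne_top.2 fun he => ?_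
    rw [he, finrank_top] at hP
    omega
  obtain ⟨φ', hφ', hker⟩ := Submodule.exists_le_ker_of_lt_top P hlt
  have hPφ : ∀ x ∈ P, φ' x = 0 := fun x hx => hker hx
  have h1 : ft (fun x => res v ψ x - v2 x) φ' = 2 ^ (c + q + 1 + j) := by
    rw [show (fun x => res v ψ x - v2 x) = ind P from funext hwP, ft_ind, if_pos hPφ, hP]
  rw [ft_sub] at h1
  obtain ⟨φ, hφ⟩ := exists_ext ψ φ'
  have hne1 : φ ≠ 0 := by
    intro he
    apply hφ'
    rw [← hφ, he]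
    rfl
  have hne2 : φ + ψ ≠ 0 := by
    intro he
    apply hne1
    have h2 : φ = ψ := by
      have h3 : φ + ψ + ψ = ψ := by rw [he, zero_add]
      rw [add_assoc, add_self_eq, add_zero] at h3
      exact h3
    exfalso
    apply hφ'
    rw [← hφ, h2]
    ext y
    exact y.2
  have h2 := two_mul_ft_res v φ ψ
  rw [hφ] at h2
  have h3 := hf φ hne1
  have h4 := hf _ hne2
  have h5 := hv2.psd φ'
  have h6 : (2 : ℤ) ^ (c + 1) * (2 ^ q - 1) < 2 ^ (c + q + 1 + j) := by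
    have h7 : (2 : ℤ) ^ (c + 1) * 2 ^ q = 2 ^ (c + q + 1) := by
      rw [← pow_add]
      congr 1
      omega
    have h8 : (2 : ℤ) ^ (c + q + 1) ≤ 2 ^ (c + q + 1 + j) :=
      pow_le_pow_right₀ (by norm_num) (by omega)
    have h9 : (0 : ℤ) < 2 ^ (c + 1) := by positivity
    rw [mul_sub, mul_one, h7]
    linarith
  linarith

end Pool.Agent.GR72
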