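/-
GR72/THLow: large minimum distances for which the bound is not attained (needs the stubs of Blocks,
DABad (sD_of); Final).
`N ≥ 2`, `k` with `N^3 + (N (N + 1) N (N - 1)) / 2 < k`, in the form `2 N^3 + N^2 (N + 1) (N - 1) < 2 k`.
`V = blockV c N N` with `c = k + 1 - (N + 1) N ≥ 1` (so `c + (N + 1) N = k + 1`), `V < 2^k` (blockV_lt), `V` even
(`c ≥ 1`), `D = V / 2 < 2^(k-1)`, `s = N^2 - 1`, `ds V = N^2 = s + 1`.
If the bound is attained at `(k, s 2^(k-1) - D)` there are `C`, and `v` with `Gr v (2 D)`, `v ≤ s` outside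
`0` (attained_iff, code_to, as in GR72/CritFinal).  block_full: `P` with `v = N^2` on `P`, so `P = ⊥`, and
`k ≤ ∑_{i<N} N (k - (c + (N + 1) i))`, where `k - (c + (N+1) i) = (N + 1) (N - i) - 1`; the sum is
`N^3 + N (N + 1) N (N - 1) / 2 < k`, a contradiction.
-/
import Pool.Agent.GR72.Blocks
import Pool.Agent.GR72.DABad

namespace Pool.Agent.GR72

open Module

private theorem th_sum {N k c : ℕ} (hN : 1 ≤ N) (hc : c + (N + 1) * N = k + 1) :
    2 * ∑ i ∈ Finset.range N, N * (k - (c + (N + 1) * i)) = 2 * N ^ 3 + N ^ 2 * (N ^ 2 - 1) := by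
  rw [← Finset.sum_range_reflect]
  have h1 : ∀ i ∈ Finset.range N, N * (k - (c + (N + 1) * (N - 1 - i))) = N * (N + 1) * i + N * N := by
    intro i hi
    rw [Finset.mem_range] at hi
    obtain ⟨j, hj⟩ : ∃ j, N = j + 1 + i := ⟨N - 1 - i, by omega⟩
    have h2 : N - 1 - i = j := by omega
    rw [h2]
    have h3 : (N + 1) * N = (N + 1) * j + (N + 1) * (i + 1) := by
      rw [← Nat.mul_add]
      congr 1
      omega
    have h4 : (N + 1) * (i + 1) = (N + 1) * i + N + 1 := by ring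
    have h5 : k - (c + (N + 1) * j) = (N + 1) * i + N := by omega
    rw [h5]
    ring
  rw [Finset.sum_congr rfl h1, Finset.sum_add_distrib, ← Finset.mul_sum, Finset.sum_const,
    Finset.card_range, smul_eq_mul]
  have h6 := Finset.sum_range_id_mul_two N
  obtain ⟨m, rfl⟩ : ∃ m, N = m + 1 := ⟨N - 1, by omega⟩
  rw [Nat.add_sub_cancel] at h6
  have h7 : (m + 1) ^ 2 - 1 = m * (m + 2) := by
    have : (m + 1) ^ 2 = m * (m + 2) + 1 := by ring
    omega
  rw [h7]
  calc 2 * ((m + 1) * (m + 1 + 1) * ∑ i ∈ Finset.range (m + 1), i + (m + 1) * ((m + 1) * (m + 1)))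
      = (m + 1) * (m + 1 + 1) * ((∑ i ∈ Finset.range (m + 1), i) * 2) + 2 * (m + 1) ^ 3 := by ring
    _ = 2 * (m + 1) ^ 3 + (m + 1) ^ 2 * (m * (m + 2)) := by rw [h6]; ring

theorem not_attained_block {N k : ℕ} (hN : 2 ≤ N)
    (h : 2 * N ^ 3 + N ^ 2 * (N ^ 2 - 1) < 2 * k) :
    ∃ D, D < 2 ^ (k - 1) ∧ ¬ Attained k ((N ^ 2 - 1) * 2 ^ (k - 1) - D) := by
  have hNN : 2 * ((N + 1) * N) ≤ 2 * N ^ 3 := by
    have h1 : N + 1 ≤ N * N := by nlinarith
    calc 2 * ((N + 1) * N) ≤ 2 * ((N * N) * N) := by gcongr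
      _ = 2 * N ^ 3 := by ring
  have hkN : (N + 1) * N < k := by
    have := Nat.zero_le (N ^ 2 * (N ^ 2 - 1))
    omega
  obtain ⟨c, hc⟩ : ∃ c, c + 1 + (N + 1) * N = k + 1 := ⟨k - (N + 1) * N, by omega⟩
  have hk : 1 ≤ k := by omega
  have hs4 : 4 ≤ N ^ 2 := by nlinarith
  have hs : 1 ≤ N ^ 2 - 1 := by omega
  have hD : blockV c N N < 2 ^ (k - 1) := blockV_lt (by omega)
  have h2D : 2 * blockV c N N = blockV (c + 1) N N := by
    unfold blockV
    rw [pow_succ]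
    ring
  refine ⟨blockV c N N, hD, fun hA => ?_⟩
  obtain ⟨hd, -, hsd⟩ := sD_of hs hD
  obtain ⟨C, hC⟩ := (attained_iff hk hd).1 hA
  obtain ⟨v, hv, hb⟩ := (code_to hk hsd hD hC).2 rfl
  haveI : Finite (Dual (ZMod 2) C) := inferInstance
  have hfr : finrank (ZMod 2) (Dual (ZMod 2) C) = k := by
    rw [finrank_dual_eq]; exact hC.1
  rw [h2D] at hv
  obtain ⟨P, hP, hPd⟩ := block_full (q := N) (n := N) (by omega) hv (by rw [hfr]; omega)
  have hPbot : P = ⊥ := by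
    rw [Submodule.eq_bot_iff]
    intro x hx
    by_contra hx0
    have h1 := hP x hx
    have h2 := hb x hx0
    rw [h1] at h2
    have h3 : N * N ≤ N ^ 2 - 1 := by exact_mod_cast h2
    have h4 : N ^ 2 = N * N := by ring
    omega
  rw [hPbot, finrank_bot, hfr, Nat.zero_add] at hPd
  have h5 := th_sum (N := N) (k := k) (c := c + 1) (by omega) hc
  omega

end Pool.Agent.GR72
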