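/-
GR72/THFinal: the threshold of Baumert and McEliece (needs the stubs of THLow, DABad).
(a) `d > √(2k) 2^(k-1)`: `s = ⌈d / 2^(k-1)⌉ > √(2k)`, so `2 k < s^2`.  `D = s 2^(k-1) - d`.  If `ds D ≤ s`:
    ss_small.  Otherwise `s + 1 ≤ ds D`, and the `s + 1` highest exponents are at most
    `k - 1, k - 2, ..., k - s - 1`, so `∑_{i ≤ s+1} u_i ≤ (s + 1) k - (s + 1)(s + 2) / 2 ≤ s k`
    (the list `exps D` is strictly decreasing with entries `≤ k - 1`).  ss_suff.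
(b) `x = √(2k) ≥ 6` (`k ≥ 18`), `N` the largest integer with `(2 N + 1)^2 ≤ 4 x + 1` (`N ≥ 2`); then
    `N^2 + N ≤ x`, so `(N^2 + N)^2 ≤ 2 k` and `2 N^3 + N^2 (N^2 - 1) = (N^2 + N)^2 - 2 N^2 < 2 k`.
    not_attained_block: `d = (N^2 - 1) 2^(k-1) - D > (N^2 - 2) 2^(k-1)`.  By maximality
    `(2 N + 3)^2 > 4 x + 1`, `(N + 1)^2 + (N + 1) > x`, and with `y = √x`, `N + 1 > y - 1` (if
    `N + 1 ≤ y - 1` then `(N + 1)^2 + (N + 1) ≤ (y - 1)^2 + y - 1 = y^2 - y ≤ x`), more precisely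
    `N + 3/2 > y`, `N^2 > (y - 3/2)^2 = x - 3 y + 9/4`, so `N^2 - 2 > x - 3 y`.
-/
import Pool.Agent.GR72.THLow

namespace Pool.Agent.GR72

private theorem take_sum_TH : ∀ (L : List ℕ) (K n : ℕ), L.Pairwise (fun a b => b < a) →
    (∀ j ∈ L, j < K) → n ≤ L.length →
    2 * (L.take n).sum + n * (n + 1) ≤ 2 * n * K := by
  intro L
  induction L with
  | nil =>
    intro K n _ _ hn
    have : n = 0 := by simpa using hn
    subst this
    simp
  | cons a L ih =>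
    intro K n hL hK hn
    rw [List.pairwise_cons] at hL
    cases n with
    | zero => simp
    | succ n =>
      have h1 := ih a n hL.2 hL.1 (by simpa using hn)
      have h2 : a < K := hK a List.mem_cons_self
      rw [List.take_succ_cons, List.sum_cons]
      obtain ⟨S, hS⟩ : ∃ S, S = (L.take n).sum := ⟨_, rfl⟩
      rw [← hS] at h1 ⊢
      nlinarith [Nat.mul_le_mul_left (n + 1) (Nat.succ_le_of_lt h2)]

private theorem exps_pair_TH (D : ℕ) : (exps D).Pairwise (fun a b => b < a) := by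
  unfold exps
  rw [List.pairwise_reverse, List.pairwise_map]
  refine Nat.bitIndices_sorted.pairwise.imp ?_
  intro a b hab
  omega

private theorem exps_lt_TH {D k : ℕ} (hk : 1 ≤ k) (hD : D < 2 ^ (k - 1)) :
    ∀ j ∈ exps D, j < k := by
  intro j hj
  unfold exps at hj
  rw [List.mem_reverse, List.mem_map] at hj
  obtain ⟨i, hi, rfl⟩ := hj
  have := mem_bits_lt hD hi
  omega

theorem attained_large {k d : ℕ} (hk : 1 ≤ k) (hd : √(2 * (k : ℝ)) * 2 ^ (k - 1) < d) :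
    Attained k d := by
  obtain ⟨M, hM⟩ : ∃ M, M = 2 ^ (k - 1) := ⟨_, rfl⟩
  have hMpos : 0 < M := by rw [hM]; positivity
  obtain ⟨s, hs⟩ : ∃ s, s = (d + M - 1) / M := ⟨_, rfl⟩
  have h1 : s * M ≤ d + M - 1 := by rw [hs]; exact Nat.div_mul_le_self _ _
  have h2 : d + M - 1 < (s + 1) * M := by
    have := Nat.lt_succ_self ((d + M - 1) / M)
    rw [Nat.div_lt_iff_lt_mul hMpos] at this
    rw [hs]
    exact this
  have h3 : d ≤ s * M := by
    have : (s + 1) * M = s * M + M := by ring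
    omega
  obtain ⟨D, hD⟩ : ∃ D, D = s * M - d := ⟨_, rfl⟩
  have hDlt : D < M := by omega
  have hds : s * M - D = d := by omega
  -- 2 k < s ^ 2
  have hMR : (0 : ℝ) < M := by exact_mod_cast hMpos
  have hd' : √(2 * (k : ℝ)) * M < d := by
    rw [hM]
    push_cast
    exact hd
  have h4 : √(2 * (k : ℝ)) < s := by
    have h5 : (d : ℝ) ≤ s * M := by exact_mod_cast h3
    have h6 : √(2 * (k : ℝ)) * M < s * M := lt_of_lt_of_le hd' h5
    exact lt_of_mul_lt_mul_right h6 hMR.le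
  have h5 : 2 * (k : ℝ) < (s : ℝ) ^ 2 := by
    have h6 : 0 ≤ √(2 * (k : ℝ)) := Real.sqrt_nonneg _
    have h7 : √(2 * (k : ℝ)) * √(2 * (k : ℝ)) = 2 * (k : ℝ) := Real.mul_self_sqrt (by positivity)
    nlinarith
  have h6 : 2 * k < s ^ 2 := by exact_mod_cast h5
  have hs1 : 1 ≤ s := by
    rcases Nat.eq_zero_or_pos s with h | h
    · rw [h] at h6
      simp at h6
    · exact h
  have hDM : D < 2 ^ (k - 1) := by rw [← hM]; exact hDlt
  have key : SSCond k s D := by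
    rcases le_or_gt (ds D) s with hc | hc
    · exact ss_small hk hDM hc
    · have hlen : (exps D).length = ds D := by
        unfold exps ds
        simp
      have h7 := take_sum_TH (exps D) k (s + 1) (exps_pair_TH D) (exps_lt_TH hk hDM)
        (by rw [hlen]; omega)
      unfold SSCond
      obtain ⟨S, hS⟩ : ∃ S, S = ((exps D).take (s + 1)).sum := ⟨_, rfl⟩
      rw [← hS] at h7 ⊢
      nlinarith
  have := ss_suff hk hs1 hDM key
  rw [← hM, hds] at this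
  exact this

theorem not_attained_large {k : ℕ} (hk : 18 ≤ k) :
    ∃ d : ℕ, (√(2 * (k : ℝ)) - 3 * √(√(2 * (k : ℝ)))) * 2 ^ (k - 1) < d ∧ ¬ Attained k d := by
  have hkR : (18 : ℝ) ≤ k := by exact_mod_cast hk
  obtain ⟨x, hx⟩ : ∃ x, x = √(2 * (k : ℝ)) := ⟨_, rfl⟩
  rw [← hx]
  have hx2 : x * x = 2 * (k : ℝ) := by rw [hx]; exact Real.mul_self_sqrt (by positivity)
  have hx0 : 0 ≤ x := by rw [hx]; exact Real.sqrt_nonneg _
  have hx6 : 6 ≤ x := by nlinarith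
  obtain ⟨y, hy⟩ : ∃ y, y = √x := ⟨_, rfl⟩
  rw [← hy]
  have hy2 : y * y = x := by rw [hy]; exact Real.mul_self_sqrt hx0
  have hy0 : 0 ≤ y := by rw [hy]; exact Real.sqrt_nonneg _
  have hyge : 2 ≤ y := by nlinarith
  -- the integer `N`
  have hex : ∃ n : ℕ, x < ((n : ℝ) + 1) ^ 2 + ((n : ℝ) + 1) := by
    obtain ⟨n, hn⟩ := exists_nat_gt x
    refine ⟨n, ?_⟩
    have : (0 : ℝ) ≤ n := Nat.cast_nonneg n
    nlinarith
  classical
  obtain ⟨N, hN⟩ : ∃ N, N = Nat.find hex := ⟨_, rfl⟩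
  have hN1 : x < ((N : ℝ) + 1) ^ 2 + ((N : ℝ) + 1) := by
    rw [hN]
    exact Nat.find_spec hex
  have hN2 : 2 ≤ N := by
    by_contra hcon
    have h3 : (N : ℝ) ≤ 1 := by
      have : N ≤ 1 := by omega
      exact_mod_cast this
    have h4 : (0 : ℝ) ≤ N := Nat.cast_nonneg N
    nlinarith
  have hN3 : (N : ℝ) ^ 2 + N ≤ x := by
    have h5 : ¬ (x < (((N - 1 : ℕ) : ℝ) + 1) ^ 2 + (((N - 1 : ℕ) : ℝ) + 1)) := by
      apply Nat.find_min hex
      rw [← hN]
      omega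
    have h6 : ((N - 1 : ℕ) : ℝ) = (N : ℝ) - 1 := by
      rw [Nat.cast_sub (by omega)]
      simp
    rw [h6] at h5
    push Not at h5
    have h7 : (N : ℝ) - 1 + 1 = N := by ring
    rw [h7] at h5
    exact h5
  have hNR : (2 : ℝ) ≤ N := by exact_mod_cast hN2
  have hcond : 2 * N ^ 3 + N ^ 2 * (N ^ 2 - 1) < 2 * k := by
    have h8 : 1 ≤ N ^ 2 := Nat.one_le_two_pow.trans (by
      have : 2 ^ 0 ≤ N ^ 2 := by
        rw [pow_zero]
        exact Nat.one_le_pow _ _ (by omega)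
      exact this)
    have h9 : ((2 * N ^ 3 + N ^ 2 * (N ^ 2 - 1) : ℕ) : ℝ) < ((2 * k : ℕ) : ℝ) := by
      push_cast [Nat.cast_sub h8]
      have h10 : ((N : ℝ) ^ 2 + N) * ((N : ℝ) ^ 2 + N) ≤ x * x :=
        mul_le_mul hN3 hN3 (by positivity) hx0
      nlinarith
    exact_mod_cast h9
  obtain ⟨D, hD, hna⟩ := not_attained_block hN2 hcond
  refine ⟨_, ?_, hna⟩
  obtain ⟨M, hM⟩ : ∃ M, M = 2 ^ (k - 1) := ⟨_, rfl⟩
  rw [← hM] at hD ⊢
  have hMR : ((2 : ℝ) ^ (k - 1)) = (M : ℝ) := by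
    rw [hM]
    push_cast
    rfl
  rw [hMR]
  have hMpos : (0 : ℝ) < M := by
    rw [← hMR]
    positivity
  have h11 : 1 ≤ N ^ 2 - 1 := by
    have : 2 ^ 2 ≤ N ^ 2 := Nat.pow_le_pow_left hN2 2
    omega
  have h12 : D ≤ (N ^ 2 - 1) * M := by
    have : 1 * M ≤ (N ^ 2 - 1) * M := Nat.mul_le_mul_right M h11
    omega
  have h13 : (((N ^ 2 - 1) * M - D : ℕ) : ℝ) = ((N : ℝ) ^ 2 - 1) * M - D := by
    rw [Nat.cast_sub h12, Nat.cast_mul, Nat.cast_sub (by omega)]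
    push_cast
    ring
  rw [h13]
  have hDR : (D : ℝ) < M := by exact_mod_cast hD
  have h14 : x - 3 * y ≤ (N : ℝ) ^ 2 - 2 := by
    have h15 : y < N + 3 / 2 := by
      by_contra hcon
      push Not at hcon
      nlinarith
    nlinarith
  nlinarith [mul_le_mul_of_nonneg_right h14 hMpos.le]

end Pool.Agent.GR72
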